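import Pool.Agent.Y501.SY.Pub
import Pool.Agent.Y522.Basic

/-!
# Pull-backs of symplectic forms by diffeomorphisms
-/

set_option autoImplicit false

open Set Filter Topology Metric Function
open scoped Manifold ContDiff

noncomputable section

namespace Run7.h60.Sc

open Pool.Agent.Y501.SYP

variable {V : Type} [NormedAddCommGroup V] [NormedSpace ℝ V]
  {X Y : Type} [TopologicalSpace X] [ChartedSpace V X] [TopologicalSpace Y] [ChartedSpace V Y]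

/-- nondegenerate two-forms -/
def Ndg (w : Form V X 2) : Prop :=
  ∀ (x : X) (v : TangentSpace 𝓘(ℝ, V) x), (∀ u, w x ![v, u] = 0) → v = 0

/-- the pull-back of a form by a map -/
def pull {k : ℕ} (g : X → Y) (σ : Form V Y k) : Form V X k := fun x =>
  (σ (g x)).compContinuousLinearMap (mfderiv 𝓘(ℝ, V) 𝓘(ℝ, V) g x)

lemma pb_pull {k : ℕ} {g : X → Y} (hg : ContMDiff 𝓘(ℝ, V) 𝓘(ℝ, V) ∞ g) (σ : Form V Y k)
    {U : Set V} {φ : V → X} (hφ : SmoothParam U φ) {p : V} (hp : p ∈ U) :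
    pb φ (pull g σ) p = pb (g ∘ φ) σ p := by
  have h1 : MDifferentiableAt 𝓘(ℝ, V) 𝓘(ℝ, V) φ p :=
    ((hφ.2 p hp).contMDiffAt (hφ.1.mem_nhds hp)).mdifferentiableAt (by simp)
  have h2 : MDifferentiableAt 𝓘(ℝ, V) 𝓘(ℝ, V) g (φ p) := (hg (φ p)).mdifferentiableAt (by simp)
  have h3 : mfderiv 𝓘(ℝ, V) 𝓘(ℝ, V) (g ∘ φ) p =
      (mfderiv 𝓘(ℝ, V) 𝓘(ℝ, V) g (φ p)).comp (mfderiv 𝓘(ℝ, V) 𝓘(ℝ, V) φ p) :=
    mfderiv_comp p h2 h1
  unfold pb pull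
  rw [h3]
  rfl

lemma param_comp {g : X → Y} (hg : ContMDiff 𝓘(ℝ, V) 𝓘(ℝ, V) ∞ g)
    {U : Set V} {φ : V → X} (hφ : SmoothParam U φ) : SmoothParam U (g ∘ φ) :=
  ⟨hφ.1, hg.comp_contMDiffOn hφ.2⟩

lemma pull_smooth {k : ℕ} {g : X → Y} (hg : ContMDiff 𝓘(ℝ, V) 𝓘(ℝ, V) ∞ g) {σ : Form V Y k}
    (hσ : IsSmooth σ) : IsSmooth (pull g σ) := by
  intro U φ hφ
  exact (hσ U (g ∘ φ) (param_comp hg hφ)).congr fun p hp => pb_pull hg σ hφ hp

lemma pull_closed {k : ℕ} {g : X → Y} (hg : ContMDiff 𝓘(ℝ, V) 𝓘(ℝ, V) ∞ g) {σ : Form V Y k}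
    (hσ : IsClosedForm σ) : IsClosedForm (pull g σ) := by
  intro U φ hφ p hp
  have h1 : pb φ (pull g σ) =ᶠ[𝓝 p] pb (g ∘ φ) σ := by
    filter_upwards [hφ.1.mem_nhds hp] with q hq
    exact pb_pull hg σ hφ hq
  rw [h1.extDeriv_eq]
  exact hσ U (g ∘ φ) (param_comp hg hφ) p hp

lemma pull_nondeg {g : X → Y} (hg : ∀ x, IsLocalDiffeomorphAt 𝓘(ℝ, V) 𝓘(ℝ, V) ∞ g x)
    {σ : Form V Y 2} (hσ : Ndg σ) : Ndg (pull g σ) := by
  intro x v h
  obtain ⟨e, he⟩ : ∃ e : TangentSpace 𝓘(ℝ, V) x ≃L[ℝ] TangentSpace 𝓘(ℝ, V) (g x),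
      ∀ v, e v = mfderiv 𝓘(ℝ, V) 𝓘(ℝ, V) g x v :=
    ⟨(hg x).mfderivToContinuousLinearEquiv (by simp), fun v => rfl⟩
  have h1 : e v = 0 := by
    refine hσ (g x) (e v) fun u => ?_
    have h2 := h (e.symm u)
    have h3 : pull g σ x ![v, e.symm u] = σ (g x) ![e v, u] := by
      unfold pull
      rw [ContinuousAlternatingMap.compContinuousLinearMap_apply]
      congr 1
      funext i
      fin_cases i
      · exact (he v).symm
      · change mfderiv 𝓘(ℝ, V) 𝓘(ℝ, V) g x (e.symm u) = u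
        rw [← he, e.apply_symm_apply]
    rw [← h3]
    exact h2
  have h4 := congrArg e.symm h1
  rwa [e.symm_apply_apply, map_zero] at h4

end Run7.h60.Sc
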