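import Pool.Agent.Run7.h60.AAEst

/-!
# Maps which are almost affine at all small scales

The linear parts at comparable scales are comparable, so their norms and the norms of their inverses
grow slowly.
-/

set_option autoImplicit false

open Set Filter Topology Metric Function MeasureTheory
open scoped Manifold ContDiff

noncomputable section

namespace Run7.h60.Sc

open Pool.Agent.Y522

variable {n : ℕ}


/-- norms of linear maps which are close in the relative sense -/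
lemma cmp_sg {L L' : E n ≃L[ℝ] E n} {ε ε' m : ℝ} (hm1 : m < 1)
    (hε : 0 ≤ ε') (hM : ‖(L.symm : E n →L[ℝ] E n) ∘L (L' : E n →L[ℝ] E n) - (ContinuousLinearMap.id ℝ (E n))‖ ≤ m)
    (hεε : ε' ≤ ε) :
    sg L' ε' ≤ (1 + m) ^ 2 / (1 - m) * (ε' / ε) * sg L ε := by
  have hm0 : 0 ≤ m := (norm_nonneg _).trans hM
  rcases hε.eq_or_lt with h0 | h0
  · rw [← h0]
    unfold sg
    simp
  have hε0 : 0 < ε := h0.trans_le hεε
  obtain ⟨M, hMd⟩ : ∃ M : E n →L[ℝ] E n, M = (L.symm : E n →L[ℝ] E n) ∘L (L' : E n →L[ℝ] E n) :=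
    ⟨_, rfl⟩
  rw [← hMd] at hM
  have hMn : ‖M‖ ≤ 1 + m := by
    have e1 : M = (M - (ContinuousLinearMap.id ℝ (E n))) + (ContinuousLinearMap.id ℝ (E n)) := by abel
    calc ‖M‖ = ‖(M - (ContinuousLinearMap.id ℝ (E n))) + (ContinuousLinearMap.id ℝ (E n))‖ := by rw [← e1]
      _ ≤ ‖M - (ContinuousLinearMap.id ℝ (E n))‖ + ‖(ContinuousLinearMap.id ℝ (E n))‖ := norm_add_le _ _
      _ ≤ m + 1 := add_le_add hM ContinuousLinearMap.norm_id_le
      _ = 1 + m := by ring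
  have h1 : ‖(L' : E n →L[ℝ] E n)‖ ≤ ‖(L : E n →L[ℝ] E n)‖ * (1 + m) := by
    have e1 : (L' : E n →L[ℝ] E n) = (L : E n →L[ℝ] E n) ∘L M := by
      ext1 v
      rw [hMd]
      simp
    rw [e1]
    refine (ContinuousLinearMap.opNorm_comp_le _ _).trans ?_
    gcongr
  have h2 : ‖(L'.symm : E n →L[ℝ] E n)‖ ≤ ‖(L.symm : E n →L[ℝ] E n)‖ / (1 - m) := by
    apply ContinuousLinearMap.opNorm_le_bound _ (div_nonneg (norm_nonneg _) (by linarith))
    intro w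
    obtain ⟨v, hv⟩ : ∃ v, v = L'.symm w := ⟨_, rfl⟩
    change ‖L'.symm w‖ ≤ _
    rw [← hv]
    have e1 : M v = L.symm w := by
      rw [hMd, hv]
      simp
    have e2 : ‖v‖ ≤ ‖M v‖ + m * ‖v‖ := by
      have e3 : v = M v - (M - (ContinuousLinearMap.id ℝ (E n))) v := by simp
      calc ‖v‖ = ‖M v - (M - (ContinuousLinearMap.id ℝ (E n))) v‖ := by rw [← e3]
        _ ≤ ‖M v‖ + ‖(M - (ContinuousLinearMap.id ℝ (E n))) v‖ := norm_sub_le _ _
        _ ≤ ‖M v‖ + m * ‖v‖ := by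
            gcongr
            exact ((M - (ContinuousLinearMap.id ℝ (E n))).le_opNorm v).trans (by gcongr)
    rw [e1] at e2
    have e4 : ‖L.symm w‖ ≤ ‖(L.symm : E n →L[ℝ] E n)‖ * ‖w‖ :=
      (L.symm : E n →L[ℝ] E n).le_opNorm w
    rw [div_mul_eq_mul_div, le_div_iff₀ (by linarith)]
    nlinarith
  unfold sg
  have h1m : 0 < 1 - m := by linarith
  calc ‖(L'.symm : E n →L[ℝ] E n)‖ * ‖(L' : E n →L[ℝ] E n)‖ ^ 2 * ε'
      ≤ (‖(L.symm : E n →L[ℝ] E n)‖ / (1 - m)) * (‖(L : E n →L[ℝ] E n)‖ * (1 + m)) ^ 2 * ε' := by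
        gcongr
    _ = (1 + m) ^ 2 / (1 - m) * (ε' / ε) * (‖(L.symm : E n →L[ℝ] E n)‖ *
        ‖(L : E n →L[ℝ] E n)‖ ^ 2 * ε) := by
        field_simp

/-- comparison of the linear parts at two points and two scales -/
lemma cmp_two {h : E n → E n} {z z' : E n} {L L' : E n ≃L[ℝ] E n} {ε ε' η s a b : ℝ}
    (hη : 0 ≤ η) (hs : 0 < s) (hA : AA h z ε L η) (hA' : AA h z' ε' L' η)
    (ha : ∀ y : E n, ‖y‖ ≤ s →
      ‖L.symm (h (z' + y) - h z') - y‖ ≤ a * s) (hb : η * ε' ≤ b * s) (hsε : s ≤ ε') (hb1 : b < 1) :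
    ‖(L.symm : E n →L[ℝ] E n) ∘L (L' : E n →L[ℝ] E n) - (ContinuousLinearMap.id ℝ (E n))‖ ≤ (a + b) / (1 - b) := by
  obtain ⟨M, hMd⟩ : ∃ M : E n →L[ℝ] E n, M = (L.symm : E n →L[ℝ] E n) ∘L (L' : E n →L[ℝ] E n) :=
    ⟨_, rfl⟩
  rw [← hMd]
  have hMa : ∀ v, M v = L.symm (L' v) := fun v => by rw [hMd]; rfl
  obtain ⟨m, hm⟩ : ∃ m, m = ‖M - (ContinuousLinearMap.id ℝ (E n))‖ := ⟨_, rfl⟩
  have hm0 : 0 ≤ m := by rw [hm]; exact norm_nonneg _
  have hMn : ‖M‖ ≤ 1 + m := by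
    have e1 : M = (M - (ContinuousLinearMap.id ℝ (E n))) + (ContinuousLinearMap.id ℝ (E n)) := by abel
    calc ‖M‖ = ‖(M - (ContinuousLinearMap.id ℝ (E n))) + (ContinuousLinearMap.id ℝ (E n))‖ := by rw [← e1]
      _ ≤ ‖M - (ContinuousLinearMap.id ℝ (E n))‖ + ‖(ContinuousLinearMap.id ℝ (E n))‖ := norm_add_le _ _
      _ ≤ m + 1 := add_le_add hm.ge ContinuousLinearMap.norm_id_le
      _ = 1 + m := by ring
  have hε'0 : 0 ≤ ε' := hs.le.trans hsε
  have hbs : 0 ≤ b * s := (mul_nonneg hη hε'0).trans hb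
  have hb0 : 0 ≤ b := nonneg_of_mul_nonneg_left hbs hs
  have has : 0 ≤ a * s := (norm_nonneg _).trans (ha 0 (by simpa using hs.le))
  have ha0 : 0 ≤ a := nonneg_of_mul_nonneg_left has hs
  have key : ∀ y : E n, ‖y‖ ≤ s → ‖(M - (ContinuousLinearMap.id ℝ (E n))) y‖ ≤ (a + (1 + m) * b) * s := by
    intro y hy
    have h1 := ha y hy
    have h2 := (hA' y (hy.trans hsε)).trans hb
    obtain ⟨d, hd⟩ : ∃ d, d = h (z' + y) - h z' := ⟨_, rfl⟩
    rw [← hd] at h1 h2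
    have e1 : (M - (ContinuousLinearMap.id ℝ (E n))) y = (L.symm d - y) - M (L'.symm d - y) := by
      rw [map_sub M, hMa (L'.symm d), L'.apply_symm_apply]
      change M y - y = _
      abel
    rw [e1]
    calc _ ≤ ‖L.symm d - y‖ + ‖M (L'.symm d - y)‖ := norm_sub_le _ _
      _ ≤ a * s + (1 + m) * (b * s) := by
          apply add_le_add h1
          refine (M.le_opNorm _).trans ?_
          gcongr
      _ = _ := by ring
  have h3 : m ≤ a + (1 + m) * b := by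
    rw [hm]
    apply ContinuousLinearMap.opNorm_le_bound _ (by rw [← hm]; positivity)
    intro v
    rw [← hm]
    rcases eq_or_ne v 0 with rfl | hv
    · simp
    · have hv0 : 0 < ‖v‖ := norm_pos_iff.2 hv
      have e1 := key ((s * ‖v‖⁻¹) • v) (by
        rw [norm_smul, norm_mul, norm_inv, norm_norm, mul_assoc, inv_mul_cancel₀ hv0.ne', mul_one,
          Real.norm_of_nonneg hs.le])
      rw [map_smul, norm_smul, norm_mul, norm_inv, norm_norm, Real.norm_of_nonneg hs.le] at e1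
      have e2 : s * ‖v‖⁻¹ * ‖(M - (ContinuousLinearMap.id ℝ (E n))) v‖ * (s⁻¹ * ‖v‖) = ‖(M - (ContinuousLinearMap.id ℝ (E n))) v‖ := by
        field_simp
      rw [← e2]
      calc s * ‖v‖⁻¹ * ‖(M - (ContinuousLinearMap.id ℝ (E n))) v‖ * (s⁻¹ * ‖v‖)
          ≤ ((a + (1 + m) * b) * s) * (s⁻¹ * ‖v‖) := by gcongr
        _ = (a + (1 + m) * b) * ‖v‖ := by field_simp
  rw [← hm, le_div_iff₀ (by linarith)]
  linarith

/-- consecutive scales: a ratio between one and two -/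
lemma cmp_scale {h : E n → E n} {z : E n} {L L' : E n ≃L[ℝ] E n} {ε ε' η : ℝ}
    (hη : 0 ≤ η) (hη' : η ≤ 1 / 40) (hε' : 0 < ε') (h1 : ε' ≤ ε) (h2 : ε ≤ 2 * ε')
    (hA : AA h z ε L η) (hA' : AA h z ε' L' η) :
    sg L' ε' ≤ 4 / 3 * (ε' / ε) * sg L ε := by
  have hε : 0 < ε := hε'.trans_le h1
  have h3 := cmp_two (z' := z) (s := ε') (a := 2 * η) (b := η) hη hε' hA hA' (fun y hy => by
    refine (hA y (hy.trans h1)).trans ?_
    nlinarith) le_rfl le_rfl (by linarith)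
  have h4 : (2 * η + η) / (1 - η) ≤ 1 / 13 := by
    rw [div_le_iff₀ (by linarith)]
    linarith
  have h5 := cmp_sg (m := 1 / 13) (by norm_num) hε'.le (h3.trans h4) h1
  refine h5.trans ?_
  have hs : 0 ≤ sg L ε := by
    unfold sg
    positivity
  have h6 : ((1 + 1 / 13 : ℝ)) ^ 2 / (1 - 1 / 13) ≤ 4 / 3 := by norm_num
  gcongr

/-- nearby points at the same scale -/
lemma cmp_point {h : E n → E n} {z z' : E n} {L L' : E n ≃L[ℝ] E n} {ε η : ℝ}
    (hη : 0 ≤ η) (hη' : η ≤ 1 / 40) (hε : 0 < ε) (hz : ‖z' - z‖ ≤ ε / 4)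
    (hA : AA h z ε L η) (hA' : AA h z' ε L' η) :
    sg L' ε ≤ 3 * sg L ε := by
  have h3 := cmp_two (z' := z') (s := ε / 4) (a := 8 * η) (b := 4 * η) hη (by positivity) hA hA'
    (fun y hy => by
      have e1 := hA (z' - z + y) (by
        refine (norm_add_le _ _).trans ?_
        linarith)
      have e2 := hA (z' - z) (by linarith)
      have e3 : z + (z' - z + y) = z' + y := by abel
      have e4 : z + (z' - z) = z' := by abel
      rw [e3] at e1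
      rw [e4] at e2
      have e5 : L.symm (h (z' + y) - h z') - y = (L.symm (h (z' + y) - h z) - (z' - z + y)) -
          (L.symm (h z' - h z) - (z' - z)) := by
        have : h (z' + y) - h z' = (h (z' + y) - h z) - (h z' - h z) := by abel
        rw [this, map_sub L.symm (h (z' + y) - h z)]
        abel
      rw [e5]
      refine (norm_sub_le _ _).trans ?_
      linarith) (by linarith) (by linarith) (by linarith)
  have h4 : (8 * η + 4 * η) / (1 - 4 * η) ≤ 1 / 3 := by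
    rw [div_le_iff₀ (by linarith)]
    linarith
  have h5 := cmp_sg (m := 1 / 3) (by norm_num) hε.le (h3.trans h4) le_rfl
  refine h5.trans ?_
  have hs : 0 ≤ sg L ε := by
    unfold sg
    positivity
  rw [div_self hε.ne', mul_one]
  have h6 : ((1 + 1 / 3 : ℝ)) ^ 2 / (1 - 1 / 3) ≤ 3 := by norm_num
  gcongr

/-- almost affine at all small scales -/
theorem sg_small {h : E n → E n} {ρ ε₀ η : ℝ} {L : E n → ℝ → (E n ≃L[ℝ] E n)}
    (hη : 0 ≤ η) (hη' : η ≤ 1 / 40) (hρ : 0 < ρ) (hε₀ : 0 < ε₀)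
    (hA : ∀ z : E n, ‖z‖ < ρ → ∀ ε, 0 < ε → ε < ε₀ → AA h z ε (L z ε) η) :
    ∃ ρ' : ℝ, 0 < ρ' ∧ ρ' ≤ ρ ∧ ∀ δ : ℝ, 0 < δ → ∃ ε₂ : ℝ, 0 < ε₂ ∧
      ∀ z : E n, ‖z‖ < ρ' → ∀ ε, 0 < ε → ε < ε₂ → sg (L z ε) ε ≤ δ := by
  obtain ⟨ε₁, hε₁⟩ : ∃ ε₁, ε₁ = ε₀ / 2 := ⟨_, rfl⟩
  have h10 : 0 < ε₁ := by linarith
  have h11 : ε₁ < ε₀ := by linarith
  obtain ⟨S, hS⟩ : ∃ S, S = 3 * sg (L 0 ε₁) ε₁ := ⟨_, rfl⟩
  have hS0 : 0 ≤ S := by
    rw [hS]
    unfold sg
    positivity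
  refine ⟨min ρ (ε₁ / 4), by positivity, min_le_left _ _, fun δ hδ => ?_⟩
  have hinit : ∀ z : E n, ‖z‖ < min ρ (ε₁ / 4) → sg (L z ε₁) ε₁ ≤ S := by
    intro z hz
    rw [hS]
    refine cmp_point hη hη' h10 ?_ (hA 0 (by simpa using hρ) ε₁ h10 h11)
      (hA z (hz.trans_le (min_le_left _ _)) ε₁ h10 h11)
    rw [sub_zero]
    exact (hz.trans_le (min_le_right _ _)).le
  have hdy : ∀ z : E n, ‖z‖ < min ρ (ε₁ / 4) → ∀ j : ℕ,
      sg (L z (ε₁ * (1 / 2) ^ j)) (ε₁ * (1 / 2) ^ j) ≤ (2 / 3) ^ j * S := by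
    intro z hz j
    induction j with
    | zero => simpa using hinit z hz
    | succ j ih =>
      have hp : 0 < ε₁ * (1 / 2) ^ j := by positivity
      have hp1 : ε₁ * (1 / 2 : ℝ) ^ j ≤ ε₁ := by
        have : (1 / 2 : ℝ) ^ j ≤ 1 := pow_le_one₀ (by norm_num) (by norm_num)
        nlinarith
      have e1 : ε₁ * (1 / 2 : ℝ) ^ (j + 1) = ε₁ * (1 / 2) ^ j / 2 := by
        rw [pow_succ]
        ring
      rw [e1]
      have h1 := cmp_scale (ε := ε₁ * (1 / 2) ^ j) (ε' := ε₁ * (1 / 2) ^ j / 2) hη hη'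
        (by positivity) (by linarith) (by linarith)
        (hA z (hz.trans_le (min_le_left _ _)) _ hp (by linarith))
        (hA z (hz.trans_le (min_le_left _ _)) _ (by positivity) (by linarith))
      refine h1.trans ?_
      have e2 : ε₁ * (1 / 2 : ℝ) ^ j / 2 / (ε₁ * (1 / 2) ^ j) = 1 / 2 := by
        field_simp
      rw [e2]
      calc 4 / 3 * (1 / 2) * sg (L z (ε₁ * (1 / 2) ^ j)) (ε₁ * (1 / 2) ^ j)
          ≤ 4 / 3 * (1 / 2) * ((2 / 3) ^ j * S) := by gcongr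
        _ = (2 / 3) ^ (j + 1) * S := by rw [pow_succ]; ring
  obtain ⟨J, hJ⟩ : ∃ J : ℕ, (4 / 3) * ((2 / 3 : ℝ) ^ J * S) ≤ δ := by
    have h1 : Tendsto (fun j : ℕ => (4 / 3) * ((2 / 3 : ℝ) ^ j * S)) atTop (𝓝 0) := by
      have := ((tendsto_pow_atTop_nhds_zero_of_lt_one (by norm_num : (0 : ℝ) ≤ 2 / 3)
        (by norm_num)).mul_const S).const_mul (4 / 3)
      simpa using this
    obtain ⟨J, hJ⟩ := (h1.eventually_lt_const hδ).exists
    exact ⟨J, hJ.le⟩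
  refine ⟨ε₁ * (1 / 2) ^ J, by positivity, fun z hz ε hε hεJ => ?_⟩
  obtain ⟨j, hj1, hj2⟩ := exists_nat_pow_near_of_lt_one (x := ε / ε₁) (y := (1 / 2 : ℝ))
    (by positivity) (by
      rw [div_le_one h10]
      have : (1 / 2 : ℝ) ^ J ≤ 1 := pow_le_one₀ (by norm_num) (by norm_num)
      nlinarith) (by norm_num) (by norm_num)
  rw [lt_div_iff₀ h10] at hj1
  rw [div_le_iff₀ h10] at hj2
  have hJj : J ≤ j := by
    by_contra hcon
    have h1 : j + 1 ≤ J := by omega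
    have h2 : (1 / 2 : ℝ) ^ J ≤ (1 / 2) ^ (j + 1) :=
      pow_le_pow_of_le_one (by norm_num) (by norm_num) h1
    have h3 : ε₁ * (1 / 2 : ℝ) ^ J ≤ (1 / 2) ^ (j + 1) * ε₁ := by nlinarith
    linarith
  have hp : 0 < ε₁ * (1 / 2) ^ j := by positivity
  have hp1 : ε₁ * (1 / 2 : ℝ) ^ j ≤ ε₁ := by
    have : (1 / 2 : ℝ) ^ j ≤ 1 := pow_le_one₀ (by norm_num) (by norm_num)
    nlinarith
  have h1 := cmp_scale (ε := ε₁ * (1 / 2) ^ j) (ε' := ε) hη hη' hε (by linarith) (by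
      rw [pow_succ] at hj1
      linarith)
    (hA z (hz.trans_le (min_le_left _ _)) _ hp (by linarith))
    (hA z (hz.trans_le (min_le_left _ _)) _ hε (by
      have : ε ≤ ε₁ * (1 / 2) ^ j := by linarith
      linarith))
  refine h1.trans (le_trans ?_ hJ)
  have h2 : ε / (ε₁ * (1 / 2) ^ j) ≤ 1 := by
    rw [div_le_one hp]
    linarith
  have h3 : (2 / 3 : ℝ) ^ j ≤ (2 / 3) ^ J := pow_le_pow_of_le_one (by norm_num) (by norm_num) hJj
  have h4 := hdy z hz j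
  have h5 : 0 ≤ sg (L z (ε₁ * (1 / 2) ^ j)) (ε₁ * (1 / 2) ^ j) := by
    unfold sg
    positivity
  calc 4 / 3 * (ε / (ε₁ * (1 / 2) ^ j)) * sg (L z (ε₁ * (1 / 2) ^ j)) (ε₁ * (1 / 2) ^ j)
      ≤ 4 / 3 * 1 * ((2 / 3) ^ j * S) := by gcongr
    _ ≤ 4 / 3 * 1 * ((2 / 3) ^ J * S) := by gcongr
    _ = 4 / 3 * ((2 / 3) ^ J * S) := by ring

end Run7.h60.Sc
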