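import Pool.Agent.Run7.h60.AAMain
import Pool.Agent.Run7.h60.AAScale
import Pool.Agent.R865.TB

/-!
# Almost affine maps at small scales: manifolds with boundary
-/

set_option autoImplicit false

open Set Filter Topology Metric Function MeasureTheory
open scoped Manifold ContDiff

noncomputable section

namespace Run7.h60.Sc

open Pool.Agent.Y522 Pool.Agent.R765 Pool.Agent.Y833.SH Pool.Agent.Y674.SH Pool.Agent.R865.TB

/-- `h` is almost affine near `0`: either at the scales `ε m`, with linear parts which do not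
degenerate too fast, or at all small scales. -/
def Alm {n : ℕ} (η : ℝ) (ε : ℕ → ℝ) (h : E n → E n) : Prop :=
  ∃ (ρ : ℝ) (L : E n → ℝ → (E n ≃L[ℝ] E n)), 0 < ρ ∧
    (((∀ᶠ m in atTop, ∀ z : E n, ‖z‖ < ρ → AA h z (ε m) (L z (ε m)) η) ∧
      ∀ δ : ℝ, 0 < δ → ∀ᶠ m in atTop, ∀ z : E n, ‖z‖ < ρ → sg (L z (ε m)) (ε m) ≤ δ) ∨
    ∀ᶠ r in 𝓝[>] (0 : ℝ), ∀ z : E n, ‖z‖ < ρ → AA h z r (L z r) η)

lemma AA.congr {n : ℕ} {h h' : E n → E n} {z : E n} {ε η : ℝ} {L : E n ≃L[ℝ] E n}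
    (hA : AA h z ε L η) (hh : ∀ y : E n, ‖y‖ ≤ ε → h' (z + y) = h (z + y)) (hε : 0 ≤ ε) :
    AA h' z ε L η := by
  intro y hy
  have h0 := hh 0 (by simpa using hε)
  rw [add_zero] at h0
  rw [hh y hy, h0]
  exact hA y hy

lemma Alm.aff {n : ℕ} {η : ℝ} {ε : ℕ → ℝ} {h : E n → E n} (hA : Alm η ε h)
    (hε : ∀ m, 0 < ε m) (hε0 : Tendsto ε atTop (𝓝 0)) (hη : 0 ≤ η) (hη' : η ≤ 1 / 40) :
    ∃ (ρ : ℝ) (L : E n × ℕ → (E n ≃L[ℝ] E n)), 0 < ρ ∧
      (∀ᶠ m in atTop, ∀ z : E n, ‖z‖ < ρ → AA h z (ε m) (L (z, m)) η) ∧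
      ∀ δ : ℝ, 0 < δ → ∀ᶠ m in atTop, ∀ z : E n, ‖z‖ < ρ → sg (L (z, m)) (ε m) ≤ δ := by
  obtain ⟨ρ, L, hρ, hL⟩ := hA
  rcases hL with ⟨h1, h2⟩ | h1
  · exact ⟨ρ, fun p => L p.1 (ε p.2), hρ, h1, h2⟩
  · obtain ⟨ε₀, hε₀, h2⟩ := mem_nhdsGT_iff_exists_Ioo_subset.1 h1
    have hε₀' : 0 < ε₀ := hε₀
    have h3 : ∀ z : E n, ‖z‖ < ρ → ∀ r, 0 < r → r < ε₀ → AA h z r (L z r) η :=
      fun z hz r hr hr' => h2 ⟨hr, hr'⟩ z hz
    obtain ⟨ρ', hρ', hρρ, h4⟩ := sg_small hη hη' hρ hε₀' h3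
    refine ⟨ρ', fun p => L p.1 (ε p.2), hρ', ?_, fun δ hδ => ?_⟩
    · filter_upwards [hε0.eventually_lt_const hε₀'] with m hm z hz
      exact h3 z (hz.trans_le hρρ) _ (hε m) hm
    · obtain ⟨ε₂, hε₂, h5⟩ := h4 δ hδ
      filter_upwards [hε0.eventually_lt_const hε₂] with m hm z hz
      exact h5 z hz _ (hε m) hm

lemma Alm.congr {n : ℕ} {η : ℝ} {ε : ℕ → ℝ} {h h' : E n → E n} (hA : Alm η ε h)
    (hε : ∀ m, 0 < ε m) (hε0 : Tendsto ε atTop (𝓝 0)) (hh : h' =ᶠ[𝓝 0] h) : Alm η ε h' := by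
  obtain ⟨ρ, L, hρ, hL⟩ := hA
  obtain ⟨δ, hδ, hb⟩ := Metric.eventually_nhds_iff_ball.1 hh
  have hin : ∀ z y : E n, ‖z‖ < min ρ (δ / 2) → ‖y‖ < δ / 2 → h' (z + y) = h (z + y) := by
    intro z y hz hy
    apply hb
    rw [mem_ball_zero_iff]
    calc ‖z + y‖ ≤ ‖z‖ + ‖y‖ := norm_add_le _ _
      _ < δ / 2 + δ / 2 := add_lt_add (hz.trans_le (min_le_right _ _)) hy
      _ = δ := by ring
  refine ⟨min ρ (δ / 2), L, by positivity, ?_⟩
  rcases hL with ⟨h1, h2⟩ | h1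
  · left
    constructor
    · filter_upwards [h1, hε0.eventually_lt_const (by positivity : 0 < δ / 2)] with m g1 g2 z hz
      exact (g1 z (hz.trans_le (min_le_left _ _))).congr
        (fun y hy => hin z y hz (hy.trans_lt g2)) (hε m).le
    · intro δ' hδ'
      filter_upwards [h2 δ' hδ'] with m g1 z hz
      exact g1 z (hz.trans_le (min_le_left _ _))
  · right
    have h3 : ∀ᶠ r in 𝓝[>] (0 : ℝ), r < δ / 2 :=
      (Continuous.tendsto continuous_id (0 : ℝ)).eventually_lt_const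
        (by positivity : id (0 : ℝ) < δ / 2) |>.filter_mono nhdsWithin_le_nhds
    have h4 : ∀ᶠ r in 𝓝[>] (0 : ℝ), 0 < r := self_mem_nhdsWithin
    filter_upwards [h1, h3, h4] with r g1 g2 g3 z hz
    exact (g1 z (hz.trans_le (min_le_left _ _))).congr
      (fun y hy => hin z y hz (hy.trans_lt g2)) g3.le

/-- almost affine at `x`, for manifolds with boundary -/
def AffB (m : ℕ) {M N : Type} [TopologicalSpace M] [TopologicalSpace N]
    [ChartedSpace (EuclideanHalfSpace (m + 1)) M] [ChartedSpace (EuclideanHalfSpace (m + 1)) N]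
    (d : M → M → ℝ) (K η : ℝ) (ε : ℕ → ℝ) (f : M → N) (x : M) : Prop :=
  ∃ (A : E (m + 1) → M) (B : N → E (m + 1)), A 0 = x ∧
    IsLocalDiffeomorphAt (𝓡 (m + 1)) (𝓡∂ (m + 1)) ∞ A 0 ∧
    IsLocalDiffeomorphAt (𝓡∂ (m + 1)) (𝓡 (m + 1)) ∞ B (f x) ∧
    (∀ᶠ q : E (m + 1) × E (m + 1) in 𝓝 0, d (A q.1) (A q.2) ≤ K * ‖q.1 - q.2‖ ∧
      ‖q.1 - q.2‖ ≤ K * d (A q.1) (A q.2)) ∧ Alm η ε fun z => B (f (A z))

/-- Almost affine homeomorphisms between manifolds with boundary, local diffeomorphisms at the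
boundary points. -/
theorem affO (m : ℕ) (M N : Type) [TopologicalSpace M] [TopologicalSpace N]
    [T2Space M] [CompactSpace M]
    [ChartedSpace (EuclideanHalfSpace (m + 1)) M] [ChartedSpace (EuclideanHalfSpace (m + 1)) N]
    [IsManifold (𝓡∂ (m + 1)) ∞ M] [IsManifold (𝓡∂ (m + 1)) ∞ N]
    (f : M ≃ₜ N) (hfi : ∀ x, x ∈ (𝓡∂ (m + 1)).interior M ↔ f x ∈ (𝓡∂ (m + 1)).interior N)
    (d : M → M → ℝ) {K : ℝ} (hK : 1 ≤ K)
    {ε : ℕ → ℝ} (hε : ∀ m, 0 < ε m) (hε0 : Tendsto ε atTop (𝓝 0))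
    (hb : ∀ x ∉ (𝓡∂ (m + 1)).interior M,
      IsLocalDiffeomorphAt (𝓡∂ (m + 1)) (𝓡∂ (m + 1)) ∞ f x)
    (hc : ∀ x ∈ (𝓡∂ (m + 1)).interior M,
      IsLocalDiffeomorphAt (𝓡∂ (m + 1)) (𝓡∂ (m + 1)) ∞ f x ∨
        AffB m d K (eta (m + 1) K) ε f x)
    (O : Set (M × N)) (hO : IsOpen O) (hfO : ∀ x, (x, f x) ∈ O) :
    ∃ Φ : Diffeomorph (𝓡∂ (m + 1)) (𝓡∂ (m + 1)) M N ∞, ∀ x, (x, Φ x) ∈ O := by
  let := csI (M := M) (𝓡∂ (m + 1))
  have := mfI (M := M) (𝓡∂ (m + 1))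
  let := csI (M := N) (𝓡∂ (m + 1))
  have := mfI (M := N) (𝓡∂ (m + 1))
  let X := (𝓡∂ (m + 1)).interior M
  let Y := (𝓡∂ (m + 1)).interior N
  let ι : X → M := Subtype.val
  let κ : Y → N := Subtype.val
  have hι : Injective ι := Subtype.val_injective
  have hκ : Injective κ := Subtype.val_injective
  have hιr : range ι = (𝓡∂ (m + 1)).interior M := Subtype.range_val
  have hκr : range κ = (𝓡∂ (m + 1)).interior N := Subtype.range_val
  have hιd : ∀ x : X, IsLocalDiffeomorphAt (𝓡 (m + 1)) (𝓡∂ (m + 1)) ∞ ι x :=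
    fun x => ldiff_val (𝓡∂ (m + 1)) x
  have hκd : ∀ x : Y, IsLocalDiffeomorphAt (𝓡 (m + 1)) (𝓡∂ (m + 1)) ∞ κ x :=
    fun x => ldiff_val (𝓡∂ (m + 1)) x
  have hιm : ∀ x : X, ι x ∈ (𝓡∂ (m + 1)).interior M := fun x => x.2
  obtain ⟨F, hF⟩ := exists_restr ι hι hιr hιd κ hκ hκr hκd f hfi
  have hKc := bad_compact ι hι hιr hιd κ hκ hκd f F hF hb
  have hX2 : T2Space X := inferInstance
  have hcm : ∀ x, LD (m + 1) F x ∨
      AffAt (n := m + 1) (fun a b : X => d (ι a) (ι b)) K (eta (m + 1) K) ε F x := by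
    intro x
    rcases hc (ι x) (hιm x) with h | ⟨A, B, hA0, hAd, hBd, hd, hm⟩
    · exact Or.inl (ld_restr ι hιd κ hκ hκd f F hF h)
    · right
      have ha := (hιd x).localInverse_isLocalDiffeomorphAt
      have hax : (hιd x).localInverse (ι x) = x :=
        (hιd x).localInverse_left_inv (hιd x).localInverse_mem_target
      have hA' : LD (m + 1) ((hιd x).localInverse ∘ A) 0 := by
        rw [← hA0] at ha
        exact IsLocalDiffeomorphAt.comp (𝓡 (m + 1)) X hAd ha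
      have hev : ∀ᶠ z in 𝓝 (0 : E (m + 1)), ι ((hιd x).localInverse (A z)) = A z := by
        have h1 : A 0 ∈ (hιd x).localInverse.source := by
          rw [hA0]
          exact (hιd x).localInverse_mem_source
        filter_upwards [hAd.contMDiffAt.continuousAt
          ((hιd x).localInverse.open_source.mem_nhds h1)] with z hz
        exact (hιd x).localInverse_right_inv hz
      have hB' : LD (m + 1) (B ∘ κ) (F x) := by
        have h2 : IsLocalDiffeomorphAt (𝓡∂ (m + 1)) (𝓡 (m + 1)) ∞ B (κ (F x)) := by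
          rw [hF]
          exact hBd
        exact IsLocalDiffeomorphAt.comp (𝓡 (m + 1)) (E (m + 1)) (hκd (F x)) h2
      have hm' : Alm (eta (m + 1) K) ε
          fun z => (B ∘ κ) (F (((hιd x).localInverse ∘ A) z)) := by
        refine hm.congr hε hε0 ?_
        filter_upwards [hev] with z hz
        rw [comp_apply, hF, comp_apply, hz]
      obtain ⟨ρ, L, hρ, h1, h2⟩ := hm'.aff hε hε0 (eta_pos hK).le (eta_le hK)
      refine ⟨(hιd x).localInverse ∘ A, B ∘ κ, ?_, hA', hB', ?_, ρ, L, hρ, h1, h2⟩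
      · rw [comp_apply, hA0, hax]
      · unfold BiLip
        rw [← Prod.mk_zero_zero] at hd ⊢
        rw [nhds_prod_eq] at hd ⊢
        filter_upwards [hd, tendsto_fst.eventually hev, tendsto_snd.eventually hev] with q g1 g2 g3
        change d (ι ((hιd x).localInverse (A q.1))) (ι ((hιd x).localInverse (A q.2))) ≤ _ ∧
          _ ≤ K * d (ι ((hιd x).localInverse (A q.1))) (ι ((hιd x).localInverse (A q.2)))
        rw [g2, g3]
        exact g1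
  obtain ⟨O', hO', hO'1, hO'2⟩ := restr_open ι hιd κ hκd f F hF O hO hfO
  obtain ⟨F', C, hC, hb', hd', hFO, hF'⟩ := affMain F _ hK hε hε0 O' hcm hKc hO' hO'1
  obtain ⟨Φ, hΦ1, hΦ2⟩ := glueO ι hι hιr hιd κ hκ hκr hκd f hfi hb F' C hC hb' (fun x hx => by
    rw [hF' x hx, hF]) hd'
  exact ⟨Φ, graph_glue ι κ f F' Φ hΦ1 hΦ2 O hfO (fun x => hO'2 _ (hFO x))⟩

end Run7.h60.Sc
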