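import Pool.Agent.Run7.h60.Sym3

/-! The Theta-graph made of three images of a minimising geodesic. -/

set_option maxSynthPendingDepth 3

open Set MeasureTheory intervalIntegral Filter
open scoped Topology ContDiff RealInnerProductSpace

namespace Run7.h60

variable {E : Type*} [NormedAddCommGroup E] [InnerProductSpace ℝ E]

theorem Order3.theta {g : E → E →L[ℝ] E →L[ℝ] ℝ} {φ : E → E} (h : Order3 g φ)
    (hg : SphMetric g) (hE : Module.finrank ℝ E = 3)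
    (hne : ∃ y ∈ Metric.sphere (0 : E) 1, φ y ≠ y)
    (hfix : ∃ N ∈ Metric.sphere (0 : E) 1, ∃ P ∈ Metric.sphere (0 : E) 1,
      N ≠ P ∧ φ N = N ∧ φ P = P) :
    ∃ γ : Fin 3 → ℝ → E,
      γ 0 0 ≠ γ 0 1 ∧
      (∀ i, ContDiff ℝ ∞ (γ i)) ∧
      (∀ i, γ i 0 = γ 0 0 ∧ γ i 1 = γ 0 1) ∧
      (∀ i, ∀ t ∈ Set.Icc (0:ℝ) 1, γ i t ∈ Metric.sphere (0 : E) 1 ∧ deriv (γ i) t ≠ 0) ∧
      (∀ i j, ∀ s ∈ Set.Icc (0:ℝ) 1, ∀ t ∈ Set.Icc (0:ℝ) 1, γ i s = γ j t →
        (i = j ∧ s = t) ∨ (s = 0 ∧ t = 0) ∨ (s = 1 ∧ t = 1)) ∧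
      (∑ i, (Real.sqrt (g (γ i 0) (deriv (γ i) 0) (deriv (γ i) 0)))⁻¹ • deriv (γ i) 0 = 0) ∧
      (∑ i, (Real.sqrt (g (γ i 1) (deriv (γ i) 1) (deriv (γ i) 1)))⁻¹ • deriv (γ i) 1 = 0) ∧
      (∀ i, ∀ t ∈ Set.Icc (0:ℝ) 1, ∃ ε > 0, ∀ a b : ℝ, 0 ≤ a → a < b → b ≤ 1 →
        t - ε < a → b < t + ε →
        ∀ c : ℝ → E, ContDiff ℝ 1 c →
          (∀ s ∈ Set.Icc (0:ℝ) 1, c s ∈ Metric.sphere (0 : E) 1) →
          c 0 = γ i a → c 1 = γ i b →
          (∫ s in a..b, Real.sqrt (g (γ i s) (deriv (γ i) s) (deriv (γ i) s))) ≤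
            ∫ s in (0:ℝ)..1, Real.sqrt (g (c s) (deriv c s) (deriv c s))) := by
  have hfd : FiniteDimensional ℝ E := FiniteDimensional.of_finrank_pos (by rw [hE]; norm_num)
  obtain ⟨N, hN, P, hP, hNP, hφN, hφP⟩ := hfix
  obtain ⟨c, D, hc, hc0, hc1⟩ := exists_sphGeod hg hN hP hNP (Order3.conn_any hg hE hN hP)
  have h0 : (0:ℝ) ∈ Icc (0:ℝ) 1 := ⟨le_rfl, zero_le_one⟩
  have h1 : (1:ℝ) ∈ Icc (0:ℝ) 1 := ⟨zero_le_one, le_rfl⟩
  have hf0 : φ (c 0) = c 0 := by rw [hc0, hφN]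
  have hf1 : φ (c 1) = c 1 := by rw [hc1, hφP]
  have g1 := h.geod_map hg hc
  have g2 := h.geod_map hg g1
  have hr := hc.reverse
  -- velocities at the ends
  have s0 := h.sum_velocity hg hE hne hc hf0
  have s1 := h.sum_velocity hg hE hne hr (by simpa using hf1)
  have hdr : deriv (fun t => c (1 - t)) 0 = - deriv c 1 := by
    have h2 : HasDerivAt c (deriv c (1 - 0)) (1 - 0) :=
      ((hc.smooth.differentiable (by simp)) _).hasDerivAt
    have h3 : HasDerivAt (fun t : ℝ => 1 - t) (-1) 0 := by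
      simpa using (hasDerivAt_id (0:ℝ)).const_sub 1
    have h4 : HasDerivAt (fun t => c (1 - t)) ((-1:ℝ) • deriv c (1 - 0)) 0 := h2.scomp 0 h3
    rw [h4.deriv]; simp
  have s1' : deriv c 1 + fderiv ℝ φ (c 1) (deriv c 1)
      + fderiv ℝ φ (c 1) (fderiv ℝ φ (c 1) (deriv c 1)) = 0 := by
    simp only [sub_zero] at s1
    rw [hdr] at s1
    simp only [map_neg] at s1
    have : -(deriv c 1 + fderiv ℝ φ (c 1) (deriv c 1)
      + fderiv ℝ φ (c 1) (fderiv ℝ φ (c 1) (deriv c 1))) = 0 := by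
      rw [← s1]; abel
    exact neg_eq_zero.1 this
  have d1 : ∀ t, deriv (fun t => φ (c t)) t = fderiv ℝ φ (c t) (deriv c t) :=
    h.deriv_comp hc.smooth
  have d2 : ∀ t, φ (c t) = c t → deriv (fun t => φ (φ (c t))) t
      = fderiv ℝ φ (c t) (fderiv ℝ φ (c t) (deriv c t)) := by
    intro t ht
    have := h.deriv_comp g1.smooth t
    rw [d1 t] at this
    rw [this, ht]
  -- the family
  obtain ⟨γ, hγ⟩ : ∃ γ : Fin 3 → ℝ → E,
      γ = ![c, fun t => φ (c t), fun t => φ (φ (c t))] := ⟨_, rfl⟩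
  have e0 : γ 0 = c := by rw [hγ]; rfl
  have e1 : γ 1 = fun t => φ (c t) := by rw [hγ]; rfl
  have e2 : γ 2 = fun t => φ (φ (c t)) := by rw [hγ]; rfl
  have hall : ∀ i, SphGeod g (γ i) D := by
    intro i
    fin_cases i
    · exact e0 ▸ hc
    · exact e1 ▸ g1
    · exact e2 ▸ g2
  have hst0 : ∀ i, γ i 0 = c 0 := by
    intro i
    fin_cases i
    · show γ 0 0 = _; rw [e0]
    · show γ 1 0 = _; rw [e1]; simp only; exact hf0
    · show γ 2 0 = _; rw [e2]; simp only; rw [hf0, hf0]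
  have hst1 : ∀ i, γ i 1 = c 1 := by
    intro i
    fin_cases i
    · show γ 0 1 = _; rw [e0]
    · show γ 1 1 = _; rw [e1]; simp only; exact hf1
    · show γ 2 1 = _; rw [e2]; simp only; rw [hf1, hf1]
  -- coincidences force fixed points
  have hcoin : ∀ i j, ∀ s ∈ Icc (0:ℝ) 1, γ i s = γ j s → i = j ∨ φ (c s) = c s := by
    intro i j s hs
    have hcs := hc.mem s hs
    have hcu := h.cube _ hcs
    have k01 : c s = φ (c s) → φ (c s) = c s := fun h => h.symm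
    have k02 : c s = φ (φ (c s)) → φ (c s) = c s := fun h' => by
      have := congrArg φ h'
      rw [hcu] at this; exact this
    have k12 : φ (c s) = φ (φ (c s)) → φ (c s) = c s := fun h' => by
      have h2 := congrArg φ (congrArg φ h')
      rw [hcu] at h2; exact h2.symm
    fin_cases i <;> fin_cases j
    · intro _; left; rfl
    · show γ 0 s = γ 1 s → _; rw [e0, e1]; exact fun h' => Or.inr (k01 h')
    · show γ 0 s = γ 2 s → _; rw [e0, e2]; exact fun h' => Or.inr (k02 h')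
    · show γ 1 s = γ 0 s → _; rw [e0, e1]; exact fun h' => Or.inr h'
    · intro _; left; rfl
    · show γ 1 s = γ 2 s → _; rw [e1, e2]; exact fun h' => Or.inr (k12 h')
    · show γ 2 s = γ 0 s → _; rw [e0, e2]; exact fun h' => Or.inr (k02 h'.symm)
    · show γ 2 s = γ 1 s → _; rw [e1, e2]; exact fun h' => Or.inr (k12 h'.symm)
    · intro _; left; rfl
  have hsum0 : deriv (γ 0) 0 + deriv (γ 1) 0 + deriv (γ 2) 0 = 0 := by
    rw [e0, e1, e2, d1, d2 0 hf0]; exact s0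
  have hsum1 : deriv (γ 0) 1 + deriv (γ 1) 1 + deriv (γ 2) 1 = 0 := by
    rw [e0, e1, e2, d1, d2 1 hf1]; exact s1'
  refine ⟨γ, ?_, fun i => (hall i).smooth, ?_, ?_, ?_, ?_, ?_, ?_⟩
  · rw [hst0, hst1, hc0, hc1]; exact hNP
  · intro i; exact ⟨by rw [hst0, hst0], by rw [hst1, hst1]⟩
  · intro i t ht
    exact ⟨(hall i).mem t ht, (hall i).deriv_ne t ht⟩
  · intro i j s hs t ht hst
    have hst' : s = t := (hall i).param_eq (hall j) (by rw [hst0, hst0]) hs ht hst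
    subst hst'
    rcases hcoin i j s hs hst with h2 | h2
    · exact Or.inl ⟨h2, rfl⟩
    · right
      by_cases hs0 : s = 0
      · exact Or.inl ⟨hs0, hs0⟩
      · by_cases hs1 : s = 1
        · exact Or.inr ⟨hs1, hs1⟩
        · exfalso
          have hs' : s ∈ Ioo (0:ℝ) 1 :=
            ⟨lt_of_le_of_ne hs.1 (Ne.symm hs0), lt_of_le_of_ne hs.2 hs1⟩
          exact h.not_fixed hg hE hne hc hf0 hf1 hs' h2
  · have : ∀ i, (Real.sqrt (g (γ i 0) (deriv (γ i) 0) (deriv (γ i) 0)))⁻¹ • deriv (γ i) 0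
        = D⁻¹ • deriv (γ i) 0 := fun i => by rw [(hall i).sqrt_eq 0 h0]
    simp_rw [this]
    rw [← Finset.smul_sum, Fin.sum_univ_three, hsum0, smul_zero]
  · have : ∀ i, (Real.sqrt (g (γ i 1) (deriv (γ i) 1) (deriv (γ i) 1)))⁻¹ • deriv (γ i) 1
        = D⁻¹ • deriv (γ i) 1 := fun i => by rw [(hall i).sqrt_eq 1 h1]
    simp_rw [this]
    rw [← Finset.smul_sum, Fin.sum_univ_three, hsum1, smul_zero]
  · intro i t _
    refine ⟨1, one_pos, ?_⟩
    intro a b ha hab hb _ _ e he heS hea heb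
    exact (hall i).le_length hg ha hab hb he heS hea heb

end Run7.h60
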