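import Pool.Agent.Run7.h60.Defs

/-! Definitions for the theorem on metrics with two reflection symmetries. -/

set_option autoImplicit false

namespace Run7.h60

/-- Reflection in the plane `x = 0`. -/
noncomputable def reflX (X : R3) : R3 := !₂[-X 0, X 1, X 2]

/-- Reflection in the plane `z = 0`. -/
noncomputable def reflZ (X : R3) : R3 := !₂[X 0, X 1, -X 2]

/-- The point `(cos τ sin φ, sin τ, cos τ cos φ)` of the unit sphere. For fixed `φ` this is a half
great circle (a meridian) from `(0,-1,0)` to `(0,1,0)`; it lies in the quarter `x, z ≥ 0` for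
`0 ≤ φ ≤ π/2`. -/
noncomputable def pt (τ φ : ℝ) : R3 :=
  !₂[Real.cos τ * Real.sin φ, Real.sin τ, Real.cos τ * Real.cos φ]

/-- The derivative of `pt` with respect to `τ`. -/
noncomputable def ptLat (τ φ : ℝ) : R3 :=
  !₂[-(Real.sin τ * Real.sin φ), Real.cos τ, -(Real.sin τ * Real.cos φ)]

/-- The derivative of `pt` with respect to `φ`. -/
noncomputable def ptLon (τ φ : ℝ) : R3 :=
  !₂[Real.cos τ * Real.cos φ, 0, -(Real.cos τ * Real.sin φ)]

/-- The coefficient `E = g(∂τ, ∂τ)` of the metric in the coordinates `(τ, φ)`. -/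
noncomputable def coefE (g : R3 → Form) (τ φ : ℝ) : ℝ :=
  (g (pt τ φ)).val (ptLat τ φ) (ptLat τ φ)

/-- The coefficient `F = g(∂τ, ∂φ)` of the metric in the coordinates `(τ, φ)`. -/
noncomputable def coefF (g : R3 → Form) (τ φ : ℝ) : ℝ :=
  (g (pt τ φ)).val (ptLat τ φ) (ptLon τ φ)

/-- `E (F_τ - E_φ / 2) - F E_τ / 2`. This is the geodesic curvature, with respect to `g`, of the
meridian `φ = const` at the point `pt τ φ`, times the positive factor
`E^(3/2) (E G - F^2)^(1/2)`. -/
noncomputable def curvNum (g : R3 → Form) (τ φ : ℝ) : ℝ :=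
  coefE g τ φ * (deriv (fun t => coefF g t φ) τ - deriv (fun s => coefE g τ s) φ / 2)
    - coefF g τ φ * (deriv (fun t => coefE g t φ) τ / 2)

/-- The geodesic curvatures of all meridians do not change sign in the open quarter
`x > 0, z > 0`. -/
def MeridiansCurvedOneWay (g : R3 → Form) : Prop :=
  (∀ τ φ : ℝ, |τ| < Real.pi / 2 → 0 < φ → φ < Real.pi / 2 → curvNum g τ φ ≤ 0) ∨
    (∀ τ φ : ℝ, |τ| < Real.pi / 2 → 0 < φ → φ < Real.pi / 2 → 0 ≤ curvNum g τ φ)

end Run7.h60
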