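import Pool.Agent.Run7.h60.Merid

/-! Transport by linear isometries; both signs of the curvature of the meridians. -/

set_option maxSynthPendingDepth 3

open Set MeasureTheory intervalIntegral Filter
open scoped Topology ContDiff RealInnerProductSpace NNReal

namespace Run7.h60

section transport

variable {g g' : R3 → Form} {R : R3 ≃ₗᵢ[ℝ] R3}

lemma vel_comp {c : ℝ → R3} (hc : Differentiable ℝ c) (t : ℝ) :
    vel (fun t => R (c t)) t = R (vel c t) := by
  unfold vel
  exact ((R : R3 →L[ℝ] R3).hasFDerivAt.comp_hasDerivAt t (hc t).hasDerivAt).deriv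

lemma speed_comp (h : ∀ X v w, (g' X).val v w = (g (R X)).val (R v) (R w)) {c : ℝ → R3}
    (hc : Differentiable ℝ c) (t : ℝ) : speed g (fun t => R (c t)) t = speed g' c t := by
  unfold speed
  rw [vel_comp hc, h]

lemma len_comp (h : ∀ X v w, (g' X).val v w = (g (R X)).val (R v) (R w)) {c : ℝ → R3}
    (hc : Differentiable ℝ c) (a b : ℝ) : len g (fun t => R (c t)) a b = len g' c a b := by
  unfold len
  apply intervalIntegral.integral_congr
  intro t _
  exact speed_comp h hc t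

lemma unitTangent_comp (h : ∀ X v w, (g' X).val v w = (g (R X)).val (R v) (R w)) {c : ℝ → R3}
    (hc : Differentiable ℝ c) (t : ℝ) :
    unitTangent g (fun t => R (c t)) t = R (unitTangent g' c t) := by
  unfold unitTangent
  rw [speed_comp h hc, vel_comp hc, map_smul]

theorem transport_theta (h : ∀ X v w, (g' X).val v w = (g (R X)).val (R v) (R w))
    {γ : Fin 3 → ℝ → R3} (hγ : IsStationaryTheta g' γ) :
    IsStationaryTheta g (fun i t => R (γ i t)) := by
  have hS : ∀ x, x ∈ S2 → R x ∈ S2 := by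
    intro x hx
    have h1 : ‖x‖ = 1 := by simpa using hx
    show R x ∈ Metric.sphere (0 : R3) 1
    rw [mem_sphere_zero_iff_norm, R.norm_map, h1]
  have hS' : ∀ x, x ∈ S2 → R.symm x ∈ S2 := by
    intro x hx
    have h1 : ‖x‖ = 1 := by simpa using hx
    show R.symm x ∈ Metric.sphere (0 : R3) 1
    rw [mem_sphere_zero_iff_norm, R.symm.norm_map, h1]
  have hd : ∀ i, Differentiable ℝ (γ i) := fun i =>
    (hγ.geodesic i).smooth.differentiable (by simp)
  refine ⟨?_, ?_, ?_, ?_, ?_, ?_⟩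
  · intro hcon; exact hγ.ne (R.injective hcon)
  · intro i
    refine ⟨?_, ?_, ?_⟩
    · exact (R : R3 →L[ℝ] R3).contDiff.comp (hγ.geodesic i).smooth
    · intro t ht
      refine ⟨hS _ ((hγ.geodesic i).mem t ht).1, ?_⟩
      rw [vel_comp (hd i)]
      intro hcon
      apply ((hγ.geodesic i).mem t ht).2
      apply R.injective
      rw [hcon, map_zero]
    · intro t ht
      obtain ⟨ε, hε, H⟩ := (hγ.geodesic i).minimizing t ht
      refine ⟨ε, hε, ?_⟩
      intro a b ha hab hb hta htb c hc hcS hca hcb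
      have h1 : C1Curve (fun s => R.symm (c s)) :=
        (R.symm : R3 →L[ℝ] R3).contDiff.comp hc
      have h2 := H a b ha hab hb hta htb (fun s => R.symm (c s)) h1
        (fun s hs => hS' _ (hcS s hs)) (by simp only [hca, R.symm_apply_apply])
        (by simp only [hcb, R.symm_apply_apply])
      have h3 := len_comp (g := g) (g' := g') (R := R) h (c := fun s => R.symm (c s))
        (h1.differentiable (by norm_num)) 0 1
      simp only [R.apply_symm_apply] at h3
      rw [len_comp h (hd i), h3]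
      exact h2
  · intro i
    simp only [(hγ.ends i).1, (hγ.ends i).2]
    exact ⟨trivial, trivial⟩
  · intro i j s hs t ht hst
    exact hγ.disjoint i j s hs t ht (R.injective hst)
  · rw [unitTangent_comp h (hd 0), unitTangent_comp h (hd 1), unitTangent_comp h (hd 2),
      ← map_add, ← map_add, hγ.balanced_zero, map_zero]
  · rw [unitTangent_comp h (hd 0), unitTangent_comp h (hd 1), unitTangent_comp h (hd 2),
      ← map_add, ← map_add, hγ.balanced_one, map_zero]

/-- The pull-back of a metric by a linear isometry. -/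
noncomputable def pb (g : R3 → Form) (R : R3 ≃ₗᵢ[ℝ] R3) (X : R3) : Form :=
  (((g (R X)).comp (R : R3 →L[ℝ] R3)).flip.comp (R : R3 →L[ℝ] R3)).flip

lemma pb_val (g : R3 → Form) (R : R3 ≃ₗᵢ[ℝ] R3) (X v w : R3) :
    (pb g R X).val v w = (g (R X)).val (R v) (R w) := rfl

lemma isMetric_pb (hg : IsMetric g) (R : R3 ≃ₗᵢ[ℝ] R3) : IsMetric (pb g R) := by
  have hS : ∀ x, x ∈ S2 → R x ∈ S2 := by
    intro x hx
    have h1 : ‖x‖ = 1 := by simpa using hx
    show R x ∈ Metric.sphere (0 : R3) 1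
    rw [mem_sphere_zero_iff_norm, R.norm_map, h1]
  have hT : ∀ x v, Tangent x v → Tangent (R x) (R v) := by
    intro x v h
    unfold Tangent at h ⊢
    rw [R.inner_map_map]; exact h
  refine ⟨?_, ?_, ?_⟩
  · have h1 : ContDiff ℝ ∞ (fun X => g (R X)) := by
      have h2 : ContDiff ℝ ∞ g := hg.smooth
      exact h2.comp (R : R3 →L[ℝ] R3).contDiff
    have h3 : ContDiff ℝ ∞ (fun X => (g (R X)).comp (R : R3 →L[ℝ] R3)) :=
      h1.clm_comp contDiff_const
    have h4 : ContDiff ℝ ∞ (fun X => ((g (R X)).comp (R : R3 →L[ℝ] R3)).flip) :=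
      (ContinuousLinearMap.flipₗᵢ ℝ R3 R3 ℝ).contDiff.comp h3
    have h5 : ContDiff ℝ ∞ (fun X => ((g (R X)).comp (R : R3 →L[ℝ] R3)).flip.comp
        (R : R3 →L[ℝ] R3)) := h4.clm_comp contDiff_const
    exact (ContinuousLinearMap.flipₗᵢ ℝ R3 R3 ℝ).contDiff.comp h5
  · intro x hx v w hv hw
    rw [pb_val, pb_val]
    exact hg.symm _ (hS x hx) _ _ (hT x v hv) (hT x w hw)
  · intro x hx v hv hv0
    rw [pb_val]
    apply hg.pos _ (hS x hx) _ (hT x v hv)
    intro hcon
    apply hv0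
    apply R.injective
    rw [hcon, map_zero]

end transport

/-- Exchange of the coordinates `x` and `z`. -/
noncomputable def sw : R3 ≃ₗᵢ[ℝ] R3 :=
  LinearIsometryEquiv.piLpCongrLeft 2 ℝ ℝ (Equiv.swap (0 : Fin 3) 2)

lemma sw_0 (v : R3) : sw v 0 = v 2 := by
  simp [sw, LinearIsometryEquiv.piLpCongrLeft_apply]

lemma sw_1 (v : R3) : sw v 1 = v 1 := by
  simp [sw, LinearIsometryEquiv.piLpCongrLeft_apply, Equiv.swap_apply_of_ne_of_ne]

lemma sw_2 (v : R3) : sw v 2 = v 0 := by
  simp [sw, LinearIsometryEquiv.piLpCongrLeft_apply]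

lemma sw_pt (τ φ : ℝ) : sw (pt τ φ) = pt τ (Real.pi / 2 - φ) := by
  apply ext3
  · rw [sw_0]; simp [pt, Real.sin_pi_div_two_sub, Real.cos_pi_div_two_sub]
  · rw [sw_1]; simp [pt, Real.sin_pi_div_two_sub, Real.cos_pi_div_two_sub]
  · rw [sw_2]; simp [pt, Real.sin_pi_div_two_sub, Real.cos_pi_div_two_sub]

lemma sw_lat (τ φ : ℝ) : sw (ptLat τ φ) = ptLat τ (Real.pi / 2 - φ) := by
  apply ext3
  · rw [sw_0]; simp [ptLat, Real.sin_pi_div_two_sub, Real.cos_pi_div_two_sub]
  · rw [sw_1]; simp [ptLat, Real.sin_pi_div_two_sub, Real.cos_pi_div_two_sub]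
  · rw [sw_2]; simp [ptLat, Real.sin_pi_div_two_sub, Real.cos_pi_div_two_sub]

lemma sw_lon (τ φ : ℝ) : sw (ptLon τ φ) = -ptLon τ (Real.pi / 2 - φ) := by
  apply ext3
  · rw [sw_0]; simp [ptLon, Real.sin_pi_div_two_sub, Real.cos_pi_div_two_sub]
  · rw [sw_1]; simp [ptLon, Real.sin_pi_div_two_sub, Real.cos_pi_div_two_sub]
  · rw [sw_2]; simp [ptLon, Real.sin_pi_div_two_sub, Real.cos_pi_div_two_sub]

lemma coefE_swap (g : R3 → Form) (τ φ : ℝ) :
    coefE (pb g sw) τ φ = coefE g τ (Real.pi / 2 - φ) := by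
  unfold coefE
  rw [pb_val, sw_pt, sw_lat]

lemma coefF_swap (g : R3 → Form) (τ φ : ℝ) :
    coefF (pb g sw) τ φ = -coefF g τ (Real.pi / 2 - φ) := by
  unfold coefF
  rw [pb_val, sw_pt, sw_lat, sw_lon]
  unfold Form.val
  rw [map_neg]

lemma curvNum_swap (g : R3 → Form) (τ φ : ℝ) :
    curvNum (pb g sw) τ φ = -curvNum g τ (Real.pi / 2 - φ) := by
  unfold curvNum
  simp only [coefE_swap, coefF_swap]
  rw [deriv_comp_const_sub (fun s => coefE g τ s) (Real.pi / 2) φ]
  have h1 : deriv (fun t => -coefF g t (Real.pi / 2 - φ)) τ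
      = -deriv (fun t => coefF g t (Real.pi / 2 - φ)) τ := by
    rw [deriv.fun_neg]
  rw [h1]
  ring

lemma preserves_of_isometry_sX {g : R3 → Form} (h : IsIsometry g reflX) : Preserves g sX := by
  have h1 : reflX = fun X => (sX : R3 →L[ℝ] R3) X := by
    funext X
    apply ext3
    · show reflX X 0 = sX X 0; rw [sX_0]; simp [reflX]
    · show reflX X 1 = sX X 1; rw [sX_1]; simp [reflX]
    · show reflX X 2 = sX X 2; rw [sX_2]; simp [reflX]
  intro x hx v w hv hw
  have h2 := h.iso x hx v w hv hw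
  unfold dmap at h2
  rw [h1] at h2
  rw [show (fun X => (sX : R3 →L[ℝ] R3) X) = (sX : R3 →L[ℝ] R3) from rfl,
    ContinuousLinearMap.fderiv] at h2
  exact h2

lemma preserves_of_isometry_sZ {g : R3 → Form} (h : IsIsometry g reflZ) : Preserves g sZ := by
  have h1 : reflZ = fun X => (sZ : R3 →L[ℝ] R3) X := by
    funext X
    apply ext3
    · show reflZ X 0 = sZ X 0; rw [sZ_0]; simp [reflZ]
    · show reflZ X 1 = sZ X 1; rw [sZ_1]; simp [reflZ]
    · show reflZ X 2 = sZ X 2; rw [sZ_2]; simp [reflZ]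
  intro x hx v w hv hw
  have h2 := h.iso x hx v w hv hw
  unfold dmap at h2
  rw [h1] at h2
  rw [show (fun X => (sZ : R3 →L[ℝ] R3) X) = (sZ : R3 →L[ℝ] R3) from rfl,
    ContinuousLinearMap.fderiv] at h2
  exact h2

lemma sw_sX (v : R3) : sw (sX v) = sZ (sw v) := by
  apply ext3
  · rw [sw_0, sX_2, sZ_0, sw_0]
  · rw [sw_1, sX_1, sZ_1, sw_1]
  · rw [sw_2, sX_0, sZ_2, sw_2]

lemma sw_sZ (v : R3) : sw (sZ v) = sX (sw v) := by
  apply ext3
  · rw [sw_0, sZ_2, sX_0, sw_0]
  · rw [sw_1, sZ_1, sX_1, sw_1]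
  · rw [sw_2, sZ_0, sX_2, sw_2]

/-- Both signs. -/
theorem theta_of_oneWay {g : R3 → Form} (hg : IsMetric g) (hX : IsIsometry g reflX)
    (hZ : IsIsometry g reflZ) (hM : MeridiansCurvedOneWay g) :
    ∃ γ : Fin 3 → ℝ → R3, IsStationaryTheta g γ := by
  have hX' := preserves_of_isometry_sX hX
  have hZ' := preserves_of_isometry_sZ hZ
  rcases hM with hM | hM
  · have hg' : SphMetric g := ⟨hg.smooth, hg.symm, hg.pos⟩
    exact theta_of_signed hg' hX' hZ' (signed_of_curvNum hg' hM)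
  · have hgp := isMetric_pb hg sw
    have hg' : SphMetric (pb g sw) := ⟨hgp.smooth, hgp.symm, hgp.pos⟩
    have hS : ∀ x, x ∈ Metric.sphere (0 : R3) 1 → sw x ∈ Metric.sphere (0 : R3) 1 := by
      intro x hx
      have h1 : ‖x‖ = 1 := by simpa using hx
      rw [mem_sphere_zero_iff_norm, sw.norm_map, h1]
    have hT : ∀ x v : R3, ⟪x, v⟫ = 0 → ⟪sw x, sw v⟫ = 0 := by
      intro x v h; rw [sw.inner_map_map]; exact h
    have hpX : Preserves (pb g sw) sX := by
      intro x hx v w hv hw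
      show g (sw (sX x)) (sw (sX v)) (sw (sX w)) = g (sw x) (sw v) (sw w)
      rw [sw_sX, sw_sX, sw_sX]
      exact hZ' _ (hS x hx) _ _ (hT x v hv) (hT x w hw)
    have hpZ : Preserves (pb g sw) sZ := by
      intro x hx v w hv hw
      show g (sw (sZ x)) (sw (sZ v)) (sw (sZ w)) = g (sw x) (sw v) (sw w)
      rw [sw_sZ, sw_sZ, sw_sZ]
      exact hX' _ (hS x hx) _ _ (hT x v hv) (hT x w hw)
    have hc : ∀ τ φ : ℝ, |τ| < Real.pi / 2 → 0 < φ → φ < Real.pi / 2 →
        curvNum (pb g sw) τ φ ≤ 0 := by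
      intro τ φ h1 h2 h3
      rw [curvNum_swap]
      have := hM τ (Real.pi / 2 - φ) h1 (by linarith) (by linarith)
      linarith
    obtain ⟨γ, hγ⟩ := theta_of_signed hg' hpX hpZ (signed_of_curvNum hg' hc)
    exact ⟨_, transport_theta (g := g) (g' := pb g sw) (R := sw) (fun X v w => rfl) hγ⟩

/-- Ellipsoids. -/
theorem theta_of_ellipsoid {a b c : ℝ} (ha : 0 < a) (hb : 0 < b) (hc : 0 < c) {g : R3 → Form}
    (hg : ∀ X v w, (g X).val v w = a ^ 2 * (v 0 * w 0) + b ^ 2 * (v 1 * w 1)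
      + c ^ 2 * (v 2 * w 2)) : ∃ γ : Fin 3 → ℝ → R3, IsStationaryTheta g γ := by
  have hconst : g = fun _ => g 0 := by
    funext X
    ext v w
    show (g X).val v w = (g 0).val v w
    rw [hg, hg]
  have hm : IsMetric g := by
    refine ⟨?_, ?_, ?_⟩
    · unfold SmoothFamily
      rw [hconst]; exact contDiff_const
    · intro x _ v w _ _
      rw [hg, hg]; ring
    · intro x _ v _ hv
      rw [hg]
      have h1 : 0 < ‖v‖ ^ 2 := by
        have := norm_pos_iff.2 hv
        positivity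
      rw [norm3] at h1
      by_contra hcon
      push Not at hcon
      have h2 : 0 ≤ a ^ 2 * (v 0 * v 0) := mul_nonneg (by positivity) (mul_self_nonneg _)
      have h3 : 0 ≤ b ^ 2 * (v 1 * v 1) := mul_nonneg (by positivity) (mul_self_nonneg _)
      have h4 : 0 ≤ c ^ 2 * (v 2 * v 2) := mul_nonneg (by positivity) (mul_self_nonneg _)
      have e0 : v 0 * v 0 = 0 := by
        have : a ^ 2 * (v 0 * v 0) = 0 := by linarith
        rcases mul_eq_zero.1 this with h5 | h5
        · exact absurd h5 (by positivity)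
        · exact h5
      have e1 : v 1 * v 1 = 0 := by
        have : b ^ 2 * (v 1 * v 1) = 0 := by linarith
        rcases mul_eq_zero.1 this with h5 | h5
        · exact absurd h5 (by positivity)
        · exact h5
      have e2 : v 2 * v 2 = 0 := by
        have : c ^ 2 * (v 2 * v 2) = 0 := by linarith
        rcases mul_eq_zero.1 this with h5 | h5
        · exact absurd h5 (by positivity)
        · exact h5
      nlinarith
  have hsmooth : ∀ φ : R3 → R3, (∃ R : R3 ≃ₗᵢ[ℝ] R3, φ = fun X => (R : R3 →L[ℝ] R3) X) →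
      SmoothMap φ ∧ (∀ x ∈ S2, φ x ∈ S2) ∧ ∀ x v, dmap φ x v = φ v := by
    rintro φ ⟨R, rfl⟩
    refine ⟨(R : R3 →L[ℝ] R3).contDiff, ?_, ?_⟩
    · intro x hx
      have h1 : ‖x‖ = 1 := by simpa using hx
      show R x ∈ Metric.sphere (0 : R3) 1
      rw [mem_sphere_zero_iff_norm, R.norm_map, h1]
    · intro x v
      unfold dmap
      rw [show (fun X => (R : R3 →L[ℝ] R3) X) = (R : R3 →L[ℝ] R3) from rfl,
        ContinuousLinearMap.fderiv]
  have hX : IsIsometry g reflX := by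
    obtain ⟨h1, h2, h3⟩ := hsmooth reflX ⟨sX, by
      funext X
      apply ext3
      · show reflX X 0 = sX X 0; rw [sX_0]; simp [reflX]
      · show reflX X 1 = sX X 1; rw [sX_1]; simp [reflX]
      · show reflX X 2 = sX X 2; rw [sX_2]; simp [reflX]⟩
    refine ⟨h1, h2, ?_⟩
    intro x _ v w _ _
    rw [h3, h3, hg, hg]
    simp [reflX]
  have hZ : IsIsometry g reflZ := by
    obtain ⟨h1, h2, h3⟩ := hsmooth reflZ ⟨sZ, by
      funext X
      apply ext3
      · show reflZ X 0 = sZ X 0; rw [sZ_0]; simp [reflZ]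
      · show reflZ X 1 = sZ X 1; rw [sZ_1]; simp [reflZ]
      · show reflZ X 2 = sZ X 2; rw [sZ_2]; simp [reflZ]⟩
    refine ⟨h1, h2, ?_⟩
    intro x _ v w _ _
    rw [h3, h3, hg, hg]
    simp [reflZ]
  have hE : ∀ τ φ, coefE g τ φ = Real.sin τ ^ 2 * (a ^ 2 * Real.sin φ ^ 2
      + c ^ 2 * Real.cos φ ^ 2) + b ^ 2 * Real.cos τ ^ 2 := by
    intro τ φ
    unfold coefE
    rw [hg]; simp [ptLat]; ring
  have hF : ∀ τ φ, coefF g τ φ = -(Real.sin τ * Real.cos τ * (Real.sin φ * Real.cos φ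
      * (a ^ 2 - c ^ 2))) := by
    intro τ φ
    unfold coefF
    rw [hg]; simp [ptLat, ptLon]; ring
  have hcurv : ∀ τ φ, curvNum g τ φ = -((a ^ 2 - c ^ 2) * (b ^ 2 * Real.cos τ ^ 2
      * (Real.sin φ * Real.cos φ))) := by
    intro τ φ
    have d1 : deriv (fun t => coefF g t φ) τ = -((Real.cos τ * Real.cos τ
        - Real.sin τ * Real.sin τ) * (Real.sin φ * Real.cos φ * (a ^ 2 - c ^ 2))) := by
      simp only [hF]
      have : HasDerivAt (fun t => -(Real.sin t * Real.cos t * (Real.sin φ * Real.cos φ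
          * (a ^ 2 - c ^ 2)))) (-((Real.cos τ * Real.cos τ
        - Real.sin τ * Real.sin τ) * (Real.sin φ * Real.cos φ * (a ^ 2 - c ^ 2)))) τ := by
        refine ((((Real.hasDerivAt_sin τ).mul (Real.hasDerivAt_cos τ)).mul_const
          (Real.sin φ * Real.cos φ * (a ^ 2 - c ^ 2))).neg).congr_deriv ?_
        ring
      exact this.deriv
    have d2 : deriv (fun s => coefE g τ s) φ = Real.sin τ ^ 2 * (2 * (Real.sin φ * Real.cos φ)
        * (a ^ 2 - c ^ 2)) := by
      simp only [hE]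
      have : HasDerivAt (fun s => Real.sin τ ^ 2 * (a ^ 2 * Real.sin s ^ 2
          + c ^ 2 * Real.cos s ^ 2) + b ^ 2 * Real.cos τ ^ 2)
          (Real.sin τ ^ 2 * (2 * (Real.sin φ * Real.cos φ) * (a ^ 2 - c ^ 2))) φ := by
        refine (((((Real.hasDerivAt_sin φ).pow 2).const_mul (a ^ 2)).add
          (((Real.hasDerivAt_cos φ).pow 2).const_mul (c ^ 2))).const_mul
          (Real.sin τ ^ 2)).add_const (b ^ 2 * Real.cos τ ^ 2) |>.congr_deriv ?_
        simp only [Nat.cast_ofNat, Nat.reduceSub, pow_one]; ring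
      exact this.deriv
    have d3 : deriv (fun t => coefE g t φ) τ = 2 * (Real.sin τ * Real.cos τ)
        * (a ^ 2 * Real.sin φ ^ 2 + c ^ 2 * Real.cos φ ^ 2)
        - 2 * (Real.sin τ * Real.cos τ) * b ^ 2 := by
      simp only [hE]
      have : HasDerivAt (fun t => Real.sin t ^ 2 * (a ^ 2 * Real.sin φ ^ 2
          + c ^ 2 * Real.cos φ ^ 2) + b ^ 2 * Real.cos t ^ 2)
          (2 * (Real.sin τ * Real.cos τ)
        * (a ^ 2 * Real.sin φ ^ 2 + c ^ 2 * Real.cos φ ^ 2)
        - 2 * (Real.sin τ * Real.cos τ) * b ^ 2) τ := by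
        refine (((Real.hasDerivAt_sin τ).pow 2).mul_const (a ^ 2 * Real.sin φ ^ 2
          + c ^ 2 * Real.cos φ ^ 2)).add (((Real.hasDerivAt_cos τ).pow 2).const_mul (b ^ 2))
          |>.congr_deriv ?_
        simp only [Nat.cast_ofNat, Nat.reduceSub, pow_one]; ring
      exact this.deriv
    unfold curvNum
    rw [d1, d2, d3, hE, hF]
    have h1 := Real.sin_sq_add_cos_sq τ
    have e1 : Real.sin τ ^ 2 = 1 - Real.cos τ ^ 2 := by linarith
    ring_nf
    simp only [e1]
    ring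
  apply theta_of_oneWay hm hX hZ
  have hsc : ∀ φ : ℝ, 0 < φ → φ < Real.pi / 2 → 0 ≤ Real.sin φ * Real.cos φ := by
    intro φ h1 h2
    have hpi := Real.pi_pos
    exact mul_nonneg (Real.sin_nonneg_of_nonneg_of_le_pi h1.le (by linarith))
      (Real.cos_nonneg_of_neg_pi_div_two_le_of_le (by linarith) h2.le)
  rcases le_total c a with hca | hca
  · left
    intro τ φ _ h2 h3
    rw [hcurv, neg_nonpos]
    have h4 : 0 ≤ a ^ 2 - c ^ 2 := by nlinarith
    have := hsc φ h2 h3
    positivity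
  · right
    intro τ φ _ h2 h3
    rw [hcurv, neg_nonneg]
    have h4 : a ^ 2 - c ^ 2 ≤ 0 := by nlinarith
    have := hsc φ h2 h3
    exact mul_nonpos_of_nonpos_of_nonneg h4 (by positivity)

end Run7.h60
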