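import Pool.Agent.Run7.h60.AAStage

/-!
# Almost affine maps at small scales: all stages
-/

set_option autoImplicit false

open Set Filter Topology Metric Function MeasureTheory
open scoped Manifold ContDiff

noncomputable section

namespace Run7.h60.Sc

open Pool.Agent.Y522 Pool.Agent.R765

section glob

variable {n : ℕ} {X Y : Type} [TopologicalSpace X] [T2Space X] [TopologicalSpace Y]
    [ChartedSpace (E n) X] [ChartedSpace (E n) Y] {f : C(X, Y)} {ι : Type}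

/-- the coordinates are compatible at `x`, and `f` is almost affine in them -/
def Gd (b : ι → Bx n f) (ε : ℕ → ℝ) (x : X) (K η : ℝ) : Prop :=
  1 ≤ K ∧ 0 < η ∧ 8 * K ^ 2 * η < 1 ∧ (8 + 2 * kc n) * K ^ 2 * η < 1 ∧
    (∀ i, ∀ z ∈ closedBall (0 : E n) (b i).r, (b i).A z = x → ∃ L, AAF ε (b i).h z η L) ∧
    ∀ i j, ∀ z ∈ closedBall (0 : E n) (b i).r, ∀ w ∈ closedBall (0 : E n) (b j).r,
      (b i).A z = x → (b j).A w = x → ∀ᶠ z' in 𝓝 z,
        ‖(Dq (fun y => (b j).α ((b i).A y)) z' : E n →L[ℝ] E n)‖ ≤ K ∧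
        ‖((Dq (fun y => (b j).α ((b i).A y)) z').symm : E n →L[ℝ] E n)‖ ≤ K

/-- the maps `G m` are smooth near `x`, and close to `f` -/
def Iv (b : ι → Bx n f) (ε : ℕ → ℝ) (x : X) (η : ℝ) (G : ℕ → C(X, Y)) : Prop :=
  ∃ j, ∃ z ∈ closedBall (0 : E n) (b j).r, (b j).A z = x ∧ ∃ L C θ, 0 ≤ C ∧ θ < 1 ∧
    AAF ε (b j).h z η L ∧ NrF ε (b j).h z L (fun m y => (b j).B (G m ((b j).A y))) C θ

lemma ball_sub {b : Bx n f} {z : E n} (hz : z ∈ closedBall (0 : E n) b.r) :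
    z ∈ ball (0 : E n) (3 / 2 * b.r) := by
  have := b.hr
  exact closedBall_subset_ball (by linarith) hz

lemma ball_sub2 {b : Bx n f} {z : E n} (hz : z ∈ closedBall (0 : E n) b.r) :
    z ∈ ball (0 : E n) (2 * b.r) := by
  have := b.hr
  exact closedBall_subset_ball (by linarith) hz

/-- the values in the coordinates -/
lemma ev_V (b : Bx n f) {G : ℕ → C(X, Y)} {D : Set X}
    (hG : ∀ O : Set (X × Y), IsOpen O → (∀ x, (x, f x) ∈ O) → ∀ᶠ m in atTop, HomRel O D f (G m)) :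
    ∀ᶠ m in atTop, ∀ z ∈ closedBall (0 : E n) (3 / 2 * b.r), G m (b.A z) ∈ b.V := by
  filter_upwards [hG (b.nb 1) (b.nb_open 1) (b.nb_mem one_pos)] with m hm z hz
  exact (b.nb_of hz (hm.off _).1).1

/-- one stage preserves the invariant outside the box -/
lemma Iv.off {b : ι → Bx n f} {ε : ℕ → ℝ} {x : X} {η : ℝ} {G G' : ℕ → C(X, Y)}
    (h : Iv b ε x η G) {S : Set X} (hS : IsClosed S) (hx : x ∉ S)
    (hGG : ∀ᶠ m in atTop, ∀ y, y ∉ S → G' m y = G m y) : Iv b ε x η G' := by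
  obtain ⟨j, z, hz, hzx, L, C, θ, hC, hθ, hA, hN⟩ := h
  refine ⟨j, z, hz, hzx, L, C, θ, hC, hθ, hA, hN.congr EventuallyEq.rfl
    (Eventually.of_forall fun _ => rfl) ?_⟩
  have hc : ContinuousAt (b j).A z :=
    ((b j).hAd z ((b j).sub_closedBall (ball_sub hz))).continuousAt
  have h1 : ∀ᶠ y in 𝓝 z, (b j).A y ∈ Sᶜ := hc.eventually (hS.isOpen_compl.mem_nhds (by
    rw [hzx]; exact hx))
  have h2 : ∀ᶠ p : E n × ℕ in 𝓝 z ×ˢ atTop, (b j).A p.1 ∈ Sᶜ := tendsto_fst.eventually h1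
  have h3 : ∀ᶠ p : E n × ℕ in 𝓝 z ×ˢ atTop, ∀ y, y ∉ S → G' p.2 y = G p.2 y :=
    tendsto_snd.eventually hGG
  filter_upwards [h2, h3] with p g1 g2
  rw [g2 _ g1]

/-- the invariant at a newly smoothed point -/
lemma Iv.new {b : ι → Bx n f} {ε : ℕ → ℝ} (hε : ∀ m, 0 < ε m)
    (hε0 : Tendsto ε atTop (𝓝 0)) {x : X} {K η : ℝ} {G G' : ℕ → C(X, Y)}
    (hg : Gd b ε x K η) (i : ι) {w : E n} (hw : ‖w‖ < (b i).r / 2) (hwx : (b i).A w = x)
    (hGG : ∀ᶠ m in atTop, ∀ z ∈ ball (0 : E n) (3 / 2 * (b i).r), G m ((b i).A z) ∈ (b i).V ∧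
        G' m ((b i).A z) ∈ (b i).V ∧ (b i).B (G' m ((b i).A z)) =
          (b i).B (G m ((b i).A z)) + (b i).χ z • (mo (b i).h (ε m) z - (b i).B (G m ((b i).A z)))) :
    Iv b ε x η G' := by
  have hr := (b i).hr
  have hwc : w ∈ closedBall (0 : E n) (b i).r := mem_closedBall_zero_iff.2 (by linarith)
  obtain ⟨hK, hη, h8, hθ, hA, -⟩ := hg
  obtain ⟨L, hL⟩ := hA i w hwc hwx
  have hcont : ∀ᶠ z in 𝓝 w, ContinuousAt (b i).h z := by
    filter_upwards [isOpen_ball.mem_nhds (ball_sub2 hwc)] with z hz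
    exact (b i).hcont (ball_subset_closedBall hz)
  have h1 := NrF.self hε hε0 hL hcont
  have hk : 0 ≤ kc n := kc_nonneg
  refine ⟨i, w, hwc, hwx, L, 1 + η, kc n * η, by linarith, ?_, hL, ?_⟩
  · refine lt_of_le_of_lt ?_ hθ
    have hK2 : 1 ≤ K ^ 2 := one_le_pow₀ hK
    calc kc n * η ≤ (8 + 2 * kc n) * η := by gcongr; linarith
      _ = (8 + 2 * kc n) * 1 * η := by ring
      _ ≤ (8 + 2 * kc n) * K ^ 2 * η := by gcongr
  · refine h1.congr EventuallyEq.rfl (Eventually.of_forall fun _ => rfl) ?_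
    have h2 : ∀ᶠ p : E n × ℕ in 𝓝 w ×ˢ atTop, p.1 ∈ ball (0 : E n) ((b i).r / 2) :=
      tendsto_fst.eventually (isOpen_ball.mem_nhds (mem_ball_zero_iff.2 hw))
    filter_upwards [h2, tendsto_snd.eventually hGG] with p g1 g2
    have g3 := (g2 p.1 (ball_subset_ball (by linarith) g1)).2.2
    rw [g3, (b i).χ_one (mem_ball_zero_iff.1 g1).le, one_smul, add_sub_cancel]

/-- one stage preserves the invariant in the box -/
lemma Iv.step {b : ι → Bx n f} {ε : ℕ → ℝ} (hε : ∀ m, 0 < ε m)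
    (hε0 : Tendsto ε atTop (𝓝 0)) {x : X} {K η : ℝ} {G G' : ℕ → C(X, Y)} {D : Set X}
    (hG : ∀ O : Set (X × Y), IsOpen O → (∀ x, (x, f x) ∈ O) → ∀ᶠ m in atTop, HomRel O D f (G m))
    (hg : Gd b ε x K η) (i : ι) (hx : x ∈ (b i).C)
    (hGG : ∀ᶠ m in atTop, ∀ z ∈ ball (0 : E n) (3 / 2 * (b i).r), G m ((b i).A z) ∈ (b i).V ∧
        G' m ((b i).A z) ∈ (b i).V ∧ (b i).B (G' m ((b i).A z)) =
          (b i).B (G m ((b i).A z)) + (b i).χ z • (mo (b i).h (ε m) z - (b i).B (G m ((b i).A z))))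
    (h : Iv b ε x η G) : Iv b ε x η G' := by
  obtain ⟨j, z, hz, hzx, L, C, θ, hC, hθ, hA, hN⟩ := h
  obtain ⟨w, hw, hwx⟩ := hx
  obtain ⟨hK, hη, h8, hθ1, hAA, hKK⟩ := hg
  obtain ⟨L', hL'⟩ := hAA i w hw hwx
  have hY : Nonempty Y := ⟨f x⟩
  have hri := (b i).hr
  have hrj := (b j).hr
  -- the inverses of the target coordinates
  have hβ : ∀ k, ∃ β : E n → Y, (∀ y ∈ (b k).V, β ((b k).B y) = y) ∧
      ∀ y ∈ (b k).V, LD n β ((b k).B y) := by
    intro k
    have e1 : ∀ y ∈ (b k).V, invFunOn (b k).B (b k).V ((b k).B y) = y := by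
      intro y hy
      exact (b k).hBi.leftInvOn_invFunOn hy
    exact ⟨_, e1, fun y hy => LD.inverse (b k).hV (b k).hBd e1 hy⟩
  obtain ⟨βj, hβj, hβjL⟩ := hβ j
  obtain ⟨βi, hβi, hβiL⟩ := hβ i
  have hz2 := ball_sub2 hz
  have hw2 := ball_sub2 hw
  have hz2' := ball_subset_closedBall hz2
  have hw2' := ball_subset_closedBall hw2
  have hfj : f x ∈ (b j).V := by rw [← hzx]; exact (b j).hfV z hz2'
  have hfi : f x ∈ (b i).V := by rw [← hwx]; exact (b i).hfV w hw2'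
  obtain ⟨lam, hlamd⟩ : ∃ lam : E n → E n, lam = fun y => (b i).α ((b j).A y) := ⟨_, rfl⟩
  have hlam_app : ∀ y, lam y = (b i).α ((b j).A y) := fun y => by rw [hlamd]
  obtain ⟨μ, hμd⟩ : ∃ μ : E n → E n, μ = fun y => (b i).B (βj y) := ⟨_, rfl⟩
  have hμa : ∀ y, μ y = (b i).B (βj y) := fun y => by rw [hμd]
  obtain ⟨ν, hνd⟩ : ∃ ν : E n → E n, ν = fun y => (b j).B (βi y) := ⟨_, rfl⟩
  have hνa : ∀ y, ν y = (b j).B (βi y) := fun y => by rw [hνd]
  have hlamz : lam z = w := by rw [hlam_app, hzx, ← hwx, (b i).α_A hw2']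
  have hlam : LD n lam z := by
    rw [hlamd]
    refine LD.comp_fun ?_ ((b j).hAd z hz2')
    rw [hzx, ← hwx]
    exact (b i).α_LD hw2
  have hhz : (b j).h z = (b j).B (f x) := by
    change (b j).B (f ((b j).A z)) = _
    rw [hzx]
  have hβhz : βj ((b j).h z) = f x := by rw [hhz, hβj _ hfj]
  have hμ : LD n μ ((b j).h z) := by
    rw [hμd]
    refine LD.comp_fun ?_ ?_
    · rw [hβhz]
      exact (b i).hBd _ hfi
    · rw [hhz]
      exact hβjL _ hfj
  have hμz : μ ((b j).h z) = (b i).B (f x) := by rw [hμa, hβhz]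
  have hν : LD n ν (μ ((b j).h z)) := by
    rw [hνd, hμz]
    refine LD.comp_fun ?_ (hβiL _ hfi)
    rw [hβi _ hfi]
    exact (b j).hBd _ hfj
  have hνμ : ∀ᶠ y in 𝓝 ((b j).h z), ν (μ y) = y := by
    have e1 : (b j).B '' ((b j).V ∩ (b i).V) ∈ 𝓝 ((b j).h z) := by
      rw [hhz]
      exact ((b j).hBd _ hfj).image_mem_nhds
        (((b j).hV.inter (b i).hV).mem_nhds ⟨hfj, hfi⟩)
    filter_upwards [e1] with y hy
    obtain ⟨y', ⟨hy1, hy2⟩, rfl⟩ := hy
    rw [hνa, hμa, hβj _ hy1, hβi _ hy2]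
  -- the points near `z`
  have hAc : ContinuousAt (b j).A z := ((b j).hAd z hz2').continuousAt
  have hin : ∀ᶠ y in 𝓝 z, (b j).A y ∈ (b i).A '' ball 0 (3 / 2 * (b i).r) :=
    hAc.eventually ((b i).isOpen_image.mem_nhds (by
      rw [hzx, ← hwx]
      exact ⟨w, ball_sub hw, rfl⟩))
  have hin' : ∀ᶠ y in 𝓝 z, lam y ∈ ball (0 : E n) (3 / 2 * (b i).r) ∧
      (b i).A (lam y) = (b j).A y := by
    filter_upwards [hin] with y hy
    obtain ⟨w', hw', hw'y⟩ := hy
    have e1 : lam y = w' := by rw [hlam_app, ← hw'y, (b i).α_A ((b i).sub_closedBall hw')]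
    rw [e1]
    exact ⟨hw', hw'y⟩
  have hzn : ∀ᶠ y in 𝓝 z, y ∈ ball (0 : E n) (3 / 2 * (b j).r) :=
    isOpen_ball.mem_nhds (ball_sub hz)
  have hgl : ∀ᶠ y in 𝓝 z, (b i).h (lam y) = μ ((b j).h y) := by
    filter_upwards [hin', hzn] with y hy hy2
    change (b i).B (f ((b i).A (lam y))) = μ ((b j).B (f ((b j).A y)))
    rw [hy.2, hμa, hβj _ ((b j).hfV y ((b j).sub_closedBall hy2))]
  have hgc : ∀ᶠ y in 𝓝 (lam z), ContinuousAt (b i).h y := by
    rw [hlamz]
    filter_upwards [isOpen_ball.mem_nhds hw2] with y hy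
    exact (b i).hcont (ball_subset_closedBall hy)
  obtain ⟨t, htd⟩ : ∃ t : E n → ℝ, t = fun y => (b i).χ (lam y) := ⟨_, rfl⟩
  have ht : ∀ᶠ y in 𝓝 z, ContDiffAt ℝ ∞ t y := by
    filter_upwards [hlam.eventually] with y hy
    rw [htd]
    exact ContDiffAt.comp y (g := (b i).χ) (f := lam) (b i).χ.contDiffAt hy.contDiffAt
  have hlK := hKK j i z hz w hw hzx hwx
  rw [← hlamd] at hlK
  have hL'' : AAF ε (b i).h (lam z) η L' := by rw [hlamz]; exact hL'
  obtain ⟨C', θ', hC', hθ', hN'⟩ := NrF.step hε hε0 hA hL'' hη.le hK hlam hlK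
    ((b j).hcont hz2') hμ hν hνμ hgl hgc ht (fun y => by rw [htd]; exact (b i).χ.nonneg)
    (fun y => by rw [htd]; exact (b i).χ.le_one) h8 hθ1 hC hθ hN
  refine ⟨j, z, hz, hzx, L, C', θ', hC', hθ', hA, hN'.congr EventuallyEq.rfl
    (Eventually.of_forall fun _ => rfl) ?_⟩
  have hVj := ev_V (b j) hG
  filter_upwards [tendsto_fst.eventually hin', tendsto_fst.eventually hzn,
    tendsto_snd.eventually hGG, tendsto_snd.eventually hVj] with p g1 g2 g3 g4
  have g5 := g3 (lam p.1) g1.1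
  rw [g1.2] at g5
  have g6 := g4 p.1 (ball_subset_closedBall g2)
  beta_reduce
  have e1 : μ ((b j).B (G p.2 ((b j).A p.1))) = (b i).B (G p.2 ((b j).A p.1)) := by
    rw [hμa, hβj _ g6]
  have e2 : t p.1 = (b i).χ (lam p.1) := by rw [htd]
  rw [e1, e2, ← g5.2.2, hνa, hβi _ g5.2.1]

/-- all stages -/
theorem glob [Finite ι] (b : ι → Bx n f) {ε : ℕ → ℝ} (hε : ∀ m, 0 < ε m)
    (hε0 : Tendsto ε atTop (𝓝 0)) (hg : ∀ x, ∃ K η, Gd b ε x K η)
    (hcov : ∀ x, ¬ LD n f x → ∃ i, ∃ z : E n, ‖z‖ < (b i).r / 2 ∧ (b i).A z = x) :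
    ∃ (G : ℕ → C(X, Y)) (D : Set X), IsCompact D ∧
      (∀ O : Set (X × Y), IsOpen O → (∀ x, (x, f x) ∈ O) →
        ∀ᶠ m in atTop, HomRel O D f (G m)) ∧ ∀ᶠ m in atTop, ∀ x, LD n (G m) x := by
  classical
  have : Fintype ι := Fintype.ofFinite ι
  choose K η hKη using hg
  obtain ⟨D, hD⟩ : ∃ D : Set X, D = ⋃ i, (b i).C := ⟨_, rfl⟩
  have hDc : IsCompact D := by
    rw [hD]
    exact isCompact_iUnion fun i => (b i).isCompact_C
  have hCD : ∀ i, (b i).C ⊆ D := fun i => by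
    rw [hD]; exact subset_iUnion (fun i => (b i).C) i
  have key : ∀ s : Finset ι, ∃ G : ℕ → C(X, Y),
      (∀ O : Set (X × Y), IsOpen O → (∀ x, (x, f x) ∈ O) → ∀ᶠ m in atTop, HomRel O D f (G m)) ∧
      ∀ x ∈ D, (LD n f x ∨ ∃ i ∈ s, ∃ z : E n, ‖z‖ < (b i).r / 2 ∧ (b i).A z = x) →
        Iv b ε x (η x) G := by
    intro s
    induction s using Finset.induction_on with
    | empty =>
      refine ⟨fun _ => f, fun O _ hfO => Eventually.of_forall fun _ => HomRel.refl hfO, ?_⟩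
      intro x hxD hx
      rcases hx with hx | ⟨i, hi, -⟩
      · rw [hD, mem_iUnion] at hxD
        obtain ⟨j, z, hz, hzx⟩ := hxD
        have hz2' := ball_subset_closedBall (ball_sub2 hz)
        have hh : LD n (b j).h z := by
          refine LD.comp_fun (g := (b j).B) ((b j).hBd _ ((b j).hfV z hz2')) ?_
          refine LD.comp_fun (g := f) ?_ ((b j).hAd z hz2')
          rw [hzx]
          exact hx
        exact ⟨j, z, hz, hzx, _, 0, 0, le_rfl, one_pos,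
          AAF.of_LD hε hε0 hh (hKη x).2.1, NrF.of_LD hh⟩
      · exact absurd hi (Finset.notMem_empty i)
    | insert a s ha ih =>
      obtain ⟨G, hG1, hG2⟩ := ih
      obtain ⟨G', h1, h2, h3⟩ := stage f (b a) hε hε0 G D hG1
      refine ⟨G', fun O hO hfO => ?_, fun x hxD hx => ?_⟩
      · have := h1 O hO hfO
        rwa [union_eq_self_of_subset_right (hCD a)] at this
      · by_cases hst : LD n f x ∨ ∃ i ∈ s, ∃ z : E n, ‖z‖ < (b i).r / 2 ∧ (b i).A z = x
        · by_cases hxa : x ∈ (b a).C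
          · exact Iv.step hε hε0 hG1 (hKη x) a hxa h3 (hG2 x hxD hst)
          · exact (hG2 x hxD hst).off (b a).isCompact_C.isClosed hxa h2
        · rcases hx with hx | ⟨i, hi, z, hz, hzx⟩
          · exact absurd (Or.inl hx) hst
          · rcases Finset.mem_insert.1 hi with rfl | hi
            · exact Iv.new hε hε0 (hKη x) i hz hzx h3
            · exact absurd (Or.inr ⟨i, hi, z, hz, hzx⟩) hst
  obtain ⟨G, hG1, hG2⟩ := key Finset.univ
  refine ⟨G, D, hDc, hG1, ?_⟩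
  have hloc : ∀ x ∈ D, ∀ᶠ p : X × ℕ in 𝓝 x ×ˢ atTop, LD n (G p.2) p.1 := by
    intro x hxD
    have h1 : Iv b ε x (η x) G := by
      refine hG2 x hxD ?_
      by_cases hx : LD n f x
      · exact Or.inl hx
      · obtain ⟨i, z, hz⟩ := hcov x hx
        exact Or.inr ⟨i, Finset.mem_univ i, z, hz⟩
    obtain ⟨j, z, hz, hzx, L, C, θ, hC, hθ, hA, hN⟩ := h1
    have hY : Nonempty Y := ⟨f x⟩
    have h2 := hN.ld hθ
    have hV := ev_V (b j) hG1
    have hzn : ∀ᶠ y in 𝓝 z, y ∈ ball (0 : E n) (3 / 2 * (b j).r) :=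
      isOpen_ball.mem_nhds (ball_sub hz)
    have h3 : ∀ᶠ p : E n × ℕ in 𝓝 z ×ˢ atTop, LD n (G p.2) ((b j).A p.1) := by
      filter_upwards [h2, tendsto_snd.eventually hV, tendsto_fst.eventually hzn] with p g1 g2 g3
      have g3c := ball_subset_closedBall g3
      have hGV := g2 p.1 g3c
      have e1 : ∀ y ∈ (b j).V, invFunOn (b j).B (b j).V ((b j).B y) = y := by
        intro y hy
        exact (b j).hBi.leftInvOn_invFunOn hy
      have e2 := LD.inverse (b j).hV (b j).hBd e1 hGV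
      have g3' : p.1 ∈ ball (0 : E n) (2 * (b j).r) := by
        have := (b j).hr
        exact ball_subset_ball (by linarith) g3
      have e3 := (b j).α_LD g3'
      have e4 : LD n (fun y => (b j).B (G p.2 ((b j).A ((b j).α y)))) ((b j).A p.1) := by
        refine LD.comp_fun (g := fun y => (b j).B (G p.2 ((b j).A y))) ?_ e3
        rw [(b j).α_A ((b j).sub_closedBall g3)]
        exact g1
      have e5 : LD n (fun y => invFunOn (b j).B (b j).V
          ((b j).B (G p.2 ((b j).A ((b j).α y))))) ((b j).A p.1) := by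
        refine LD.comp_fun ?_ e4
        rw [(b j).α_A ((b j).sub_closedBall g3)]
        exact e2
      refine e5.congr ?_
      filter_upwards [(b j).isOpen_image.mem_nhds ⟨p.1, g3, rfl⟩] with y hy
      obtain ⟨y', hy', rfl⟩ := hy
      rw [(b j).α_A ((b j).sub_closedBall hy'), e1 _ (g2 y' (ball_subset_closedBall hy'))]
    obtain ⟨P1, hP1, P2, hP2, hP⟩ := eventually_prod_iff.1 h3
    have h4 := ((b j).hAd z ((b j).sub_closedBall (ball_sub hz))).image_mem_nhds hP1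
    rw [hzx] at h4
    have h5 : ∀ᶠ p : X × ℕ in 𝓝 x ×ˢ atTop, p.1 ∈ (b j).A '' {y | P1 y} :=
      tendsto_fst.eventually h4
    filter_upwards [h5, tendsto_snd.eventually hP2] with p g1 g2
    obtain ⟨y, hy, hyp⟩ := g1
    rw [← hyp]
    exact hP hy g2
  have hunif : ∀ᶠ m in atTop, ∀ x ∈ D, LD n (G m) x := by
    refine hDc.induction_on (p := fun s => ∀ᶠ m in atTop, ∀ x ∈ s, LD n (G m) x) ?_ ?_ ?_ ?_
    · exact Eventually.of_forall fun m x hx => absurd hx (notMem_empty x)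
    · intro s t hst h
      filter_upwards [h] with m hm x hx
      exact hm x (hst hx)
    · intro s t h1 h2
      filter_upwards [h1, h2] with m g1 g2 x hx
      rcases hx with hx | hx
      · exact g1 x hx
      · exact g2 x hx
    · intro x hx
      obtain ⟨P1, hP1, P2, hP2, hP⟩ := eventually_prod_iff.1 (hloc x hx)
      refine ⟨{y | P1 y}, mem_nhdsWithin_of_mem_nhds hP1, ?_⟩
      filter_upwards [hP2] with m hm y hy
      exact hP hy hm
  filter_upwards [hunif, hG1 univ isOpen_univ (fun _ => mem_univ _)] with m g1 g2 x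
  by_cases hx : x ∈ D
  · exact g1 x hx
  · have h1 : LD n f x := by
      by_contra h
      obtain ⟨i, z, hz, hzx⟩ := hcov x h
      apply hx
      apply hCD i
      refine ⟨z, mem_closedBall_zero_iff.2 ?_, hzx⟩
      linarith [(b i).hr]
    refine h1.congr ?_
    filter_upwards [hDc.isClosed.isOpen_compl.mem_nhds hx] with y hy
    exact (g2.off y).2 hy

end glob

end Run7.h60.Sc
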