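import Pool.Agent.Run7.h60.AAGlob
import Pool.Agent.R765.CAll

/-!
# Almost affine maps at small scales: manifolds without boundary
-/

set_option autoImplicit false

open Set Filter Topology Metric Function MeasureTheory
open scoped Manifold ContDiff

noncomputable section

namespace Run7.h60.Sc

open Pool.Agent.Y522 Pool.Agent.R765

section main

variable {n : ℕ} {X Y : Type} [TopologicalSpace X] [TopologicalSpace Y]
    [ChartedSpace (E n) X] [ChartedSpace (E n) Y]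

/-- `A` is `K`-bi-Lipschitz near `0` with respect to `d` -/
def BiLip (d : X → X → ℝ) (K : ℝ) (A : E n → X) : Prop :=
  ∀ᶠ q : E n × E n in 𝓝 0, d (A q.1) (A q.2) ≤ K * ‖q.1 - q.2‖ ∧
    ‖q.1 - q.2‖ ≤ K * d (A q.1) (A q.2)

/-- `f` is almost affine at `x` at the scales `ε m` -/
def AffAt (d : X → X → ℝ) (K η : ℝ) (ε : ℕ → ℝ) (f : X → Y) (x : X) : Prop :=
  ∃ (A : E n → X) (B : Y → E n), A 0 = x ∧ LD n A 0 ∧ LD n B (f x) ∧ BiLip d K A ∧
    ∃ (ρ : ℝ) (L : E n × ℕ → (E n ≃L[ℝ] E n)), 0 < ρ ∧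
      (∀ᶠ m in atTop, ∀ z : E n, ‖z‖ < ρ → AA (fun z => B (f (A z))) z (ε m) (L (z, m)) η) ∧
      ∀ δ : ℝ, 0 < δ → ∀ᶠ m in atTop, ∀ z : E n, ‖z‖ < ρ → sg (L (z, m)) (ε m) ≤ δ

/-- the constant -/
def eta (n : ℕ) (K : ℝ) : ℝ := 1 / ((40 + 2 * kc n) * K ^ 4)

lemma eta_pos {K : ℝ} (hK : 1 ≤ K) : 0 < eta n K := by
  have : 0 ≤ kc n := kc_nonneg
  unfold eta
  positivity

lemma eta_le {K : ℝ} (hK : 1 ≤ K) : eta n K ≤ 1 / 40 := by
  have h : 0 ≤ kc n := kc_nonneg
  have hK4 : 1 ≤ K ^ 4 := one_le_pow₀ hK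
  unfold eta
  apply one_div_le_one_div_of_le (by norm_num)
  nlinarith

lemma eta_lt {K : ℝ} (hK : 1 ≤ K) :
    8 * (K ^ 2) ^ 2 * eta n K < 1 ∧ (8 + 2 * kc n) * (K ^ 2) ^ 2 * eta n K < 1 := by
  have h : 0 ≤ kc n := kc_nonneg
  have hK0 : 0 < K := by linarith
  have e1 : (K ^ 2) ^ 2 = K ^ 4 := by ring
  rw [e1]
  unfold eta
  constructor
  · rw [mul_one_div, div_lt_one (by positivity)]
    have : 0 < K ^ 4 := by positivity
    nlinarith
  · rw [mul_one_div, div_lt_one (by positivity)]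
    have : 0 < K ^ 4 := by positivity
    nlinarith

/-- a box -/
lemma exists_box {f : C(X, Y)} {d : X → X → ℝ} {K η : ℝ} {ε : ℕ → ℝ} (hε : ∀ m, 0 < ε m) {x : X}
    (h : AffAt (n := n) d K η ε f x) :
    ∃ b : Bx n f, b.A 0 = x ∧ (∀ z ∈ closedBall (0 : E n) (2 * b.r),
        ∀ w ∈ closedBall (0 : E n) (2 * b.r), d (b.A z) (b.A w) ≤ K * ‖z - w‖ ∧
          ‖z - w‖ ≤ K * d (b.A z) (b.A w)) ∧
      ∃ L : E n × ℕ → (E n ≃L[ℝ] E n), ∀ z ∈ closedBall (0 : E n) b.r, AAF ε b.h z η L := by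
  obtain ⟨A, B, hA0, hA, hB, hd, ρ, L, hρ, h1, h2⟩ := h
  obtain ⟨u, hu, hui⟩ := hB.eventually_injOn
  obtain ⟨V, hV, hVo, hxV⟩ := mem_nhds_iff.1 (Filter.inter_mem hu hB.eventually)
  obtain ⟨v, hv, hvi⟩ := hA.eventually_injOn
  have hfA : ∀ᶠ z in 𝓝 (0 : E n), f (A z) ∈ V := by
    have c1 : ContinuousAt (fun z => f (A z)) 0 := f.continuous.continuousAt.comp hA.continuousAt
    refine c1.eventually (hVo.mem_nhds ?_)
    change f (A 0) ∈ V
    rw [hA0]
    exact hxV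
  obtain ⟨s, hs, hsb⟩ := Metric.eventually_nhds_iff_ball.1 (hA.eventually.and (hfA.and hv))
  unfold BiLip at hd
  rw [← Prod.mk_zero_zero, nhds_prod_eq] at hd
  obtain ⟨P1, hP1, P2, hP2, hP⟩ := eventually_prod_iff.1 hd
  obtain ⟨s', hs', hsb'⟩ := Metric.eventually_nhds_iff_ball.1 (hP1.and hP2)
  obtain ⟨r, hr, hr1, hr2, hr3⟩ : ∃ r : ℝ, 0 < r ∧ 2 * r < s ∧ 2 * r < s' ∧ 2 * r < ρ := by
    refine ⟨min (min s s') ρ / 4, by positivity, ?_, ?_, ?_⟩
    · have := (min_le_left (min s s') ρ).trans (min_le_left s s')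
      linarith
    · have := (min_le_left (min s s') ρ).trans (min_le_right s s')
      linarith
    · have := min_le_right (min s s') ρ
      linarith
  have hin : ∀ z ∈ closedBall (0 : E n) (2 * r), z ∈ ball (0 : E n) s := fun z hz =>
    closedBall_subset_ball hr1 hz
  have hin' : ∀ z ∈ closedBall (0 : E n) (2 * r), z ∈ ball (0 : E n) s' := fun z hz =>
    closedBall_subset_ball hr2 hz
  refine ⟨{ A := A, B := B, V := V, r := r, hr := hr
            hAi := fun a ha a' ha' haa => hvi (hsb a (hin a ha)).2.2 (hsb a' (hin a' ha')).2.2 haa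
            hAd := fun z hz => (hsb z (hin z hz)).1
            hV := hVo
            hBi := hui.mono fun y hy => (hV hy).1
            hBd := fun y hy => (hV hy).2
            hfV := fun z hz => (hsb z (hin z hz)).2.1 }, hA0, ?_, L, ?_⟩
  · intro z hz w hw
    exact hP (hsb' z (hin' z hz)).1 (hsb' w (hin' w hw)).2
  · intro z hz
    have hz' : ‖z‖ < ρ := by
      have := mem_closedBall_zero_iff.1 hz
      change ‖z‖ ≤ r at this
      linarith
    have h3 : ∀ᶠ p : E n × ℕ in 𝓝 z ×ˢ atTop, ‖p.1‖ < ρ :=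
      tendsto_fst.eventually ((continuous_norm.continuousAt).eventually_lt_const hz')
    constructor
    · filter_upwards [h3, tendsto_snd.eventually h1] with p g1 g2
      exact g2 p.1 g1
    · rw [Metric.tendsto_nhds]
      intro δ hδ
      filter_upwards [h3, tendsto_snd.eventually (h2 (δ / 2) (by linarith))] with p g1 g2
      rw [Real.dist_0_eq_abs, abs_of_nonneg]
      · have := g2 p.1 g1
        change sg (L (p.1, p.2)) (ε p.2) < δ
        linarith
      · unfold sg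
        have := (hε p.2).le
        positivity

lemma norm_fderiv_le_of_lip {lam : E n → E n} {z : E n} {K : ℝ} (hK : 0 ≤ K)
    (hlam : LD n lam z)
    (h : ∀ᶠ q : E n × E n in 𝓝 (z, z), ‖lam q.1 - lam q.2‖ ≤ K * ‖q.1 - q.2‖) :
    ∀ᶠ z' in 𝓝 z, ‖(Dq lam z' : E n →L[ℝ] E n)‖ ≤ K := by
  rw [nhds_prod_eq] at h
  obtain ⟨P1, hP1, P2, hP2, hP⟩ := eventually_prod_iff.1 h
  filter_upwards [hP1.and hP2, eventually_eventually_nhds.2 (hP1.and hP2), hlam.eventually] with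
    z' g1 g2 g3
  rw [Dq_coe g3]
  refine (g3.contDiffAt.differentiableAt (by simp)).hasFDerivAt.le_of_lip' hK ?_
  filter_upwards [g2] with w hw
  exact hP hw.1 g1.2

variable [T2Space X]

/-- the changes of the coordinates -/
lemma trans_lip {f : C(X, Y)} {d : X → X → ℝ} {K : ℝ} (hK : 1 ≤ K) {b b' : Bx n f}
    (hb : ∀ z ∈ closedBall (0 : E n) (2 * b.r), ∀ w ∈ closedBall (0 : E n) (2 * b.r),
      d (b.A z) (b.A w) ≤ K * ‖z - w‖)
    (hb' : ∀ z ∈ closedBall (0 : E n) (2 * b'.r), ∀ w ∈ closedBall (0 : E n) (2 * b'.r),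
      ‖z - w‖ ≤ K * d (b'.A z) (b'.A w)) {z w : E n} (hz : z ∈ closedBall (0 : E n) b.r)
    (hw : w ∈ closedBall (0 : E n) b'.r) (hzw : b.A z = b'.A w) :
    ∀ᶠ z' in 𝓝 z, ‖(Dq (fun y => b'.α (b.A y)) z' : E n →L[ℝ] E n)‖ ≤ K ^ 2 := by
  have hz2 := ball_sub2 hz
  have hw2 := ball_sub2 hw
  have hlam : LD n (fun y => b'.α (b.A y)) z := by
    refine LD.comp_fun ?_ (b.hAd z (ball_subset_closedBall hz2))
    rw [hzw]
    exact b'.α_LD hw2
  refine norm_fderiv_le_of_lip (by positivity) hlam ?_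
  have h1 : ∀ᶠ y in 𝓝 z, y ∈ closedBall (0 : E n) (2 * b.r) ∧
      b'.α (b.A y) ∈ closedBall (0 : E n) (2 * b'.r) ∧ b'.A (b'.α (b.A y)) = b.A y := by
    have h2 : ∀ᶠ y in 𝓝 z, b.A y ∈ b'.A '' ball 0 (3 / 2 * b'.r) :=
      (b.hAd z (ball_subset_closedBall hz2)).continuousAt.eventually
        (b'.isOpen_image.mem_nhds (by
          rw [hzw]
          exact ⟨w, ball_sub hw, rfl⟩))
    filter_upwards [h2, isOpen_ball.mem_nhds hz2] with y hy hy2
    obtain ⟨w', hw', hwy⟩ := hy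
    have e1 : b'.α (b.A y) = w' := by rw [← hwy, b'.α_A (b'.sub_closedBall hw')]
    rw [e1]
    exact ⟨ball_subset_closedBall hy2, b'.sub_closedBall hw', hwy⟩
  rw [nhds_prod_eq]
  filter_upwards [tendsto_fst.eventually h1, tendsto_snd.eventually h1] with q g1 g2
  have e1 := hb' _ g1.2.1 _ g2.2.1
  rw [g1.2.2, g2.2.2] at e1
  have e2 := hb _ g1.1 _ g2.1
  calc _ ≤ K * d (b.A q.1) (b.A q.2) := e1
    _ ≤ K * (K * ‖q.1 - q.2‖) := by gcongr
    _ = K ^ 2 * ‖q.1 - q.2‖ := by ring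

/-- the inverse of the derivative of a change of the coordinates -/
lemma trans_symm {f : C(X, Y)} {b b' : Bx n f} {z w : E n} (hz : z ∈ closedBall (0 : E n) b.r)
    (hw : w ∈ closedBall (0 : E n) b'.r) (hzw : b.A z = b'.A w) :
    ∀ᶠ z' in 𝓝 z, ((Dq (fun y => b'.α (b.A y)) z').symm : E n →L[ℝ] E n) =
      (Dq (fun y => b.α (b'.A y)) (b'.α (b.A z')) : E n →L[ℝ] E n) := by
  have hz2 := ball_sub2 hz
  have hw2 := ball_sub2 hw
  have hlam : LD n (fun y => b'.α (b.A y)) z := by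
    refine LD.comp_fun ?_ (b.hAd z (ball_subset_closedBall hz2))
    rw [hzw]
    exact b'.α_LD hw2
  have hlam' : LD n (fun y => b.α (b'.A y)) w := by
    refine LD.comp_fun ?_ (b'.hAd w (ball_subset_closedBall hw2))
    rw [← hzw]
    exact b.α_LD hz2
  have hzw' : b'.α (b.A z) = w := by rw [hzw, b'.α_A (ball_subset_closedBall hw2)]
  have h1 : ∀ᶠ y in 𝓝 z, b.α (b'.A (b'.α (b.A y))) = y := by
    have h2 : ∀ᶠ y in 𝓝 z, b.A y ∈ b'.A '' ball 0 (3 / 2 * b'.r) :=
      (b.hAd z (ball_subset_closedBall hz2)).continuousAt.eventually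
        (b'.isOpen_image.mem_nhds (by
          rw [hzw]
          exact ⟨w, ball_sub hw, rfl⟩))
    filter_upwards [h2, isOpen_ball.mem_nhds hz2] with y hy hy2
    obtain ⟨w', hw', hwy⟩ := hy
    rw [← hwy, b'.α_A (b'.sub_closedBall hw'), hwy, b.α_A (ball_subset_closedBall hy2)]
  have h3 : ∀ᶠ y in 𝓝 z, LD n (fun y => b.α (b'.A y)) (b'.α (b.A y)) := by
    have c1 : ContinuousAt (fun y => b'.α (b.A y)) z := hlam.continuousAt
    have := hlam'.eventually
    rw [← hzw'] at this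
    exact c1.eventually this
  filter_upwards [hlam.eventually, eventually_eventually_nhds.2 h1, h3] with z' g1 g2 g3
  have g4 : (Dq (fun y => b.α (b'.A y)) (b'.α (b.A z')) : E n →L[ℝ] E n) ∘L
      (Dq (fun y => b'.α (b.A y)) z' : E n →L[ℝ] E n) = ContinuousLinearMap.id ℝ (E n) := by
    rw [Dq_coe g1, Dq_coe g3]
    have g5 := HasFDerivAt.comp z' (g := fun y => b.α (b'.A y)) (f := fun y => b'.α (b.A y))
        (g3.contDiffAt.differentiableAt (by simp)).hasFDerivAt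
        (g1.contDiffAt.differentiableAt (by simp)).hasFDerivAt
    have g6 : HasFDerivAt ((fun y => b.α (b'.A y)) ∘ fun y => b'.α (b.A y))
        (ContinuousLinearMap.id ℝ (E n)) z' :=
      (hasFDerivAt_id z').congr_of_eventuallyEq g2
    exact g5.unique g6
  ext1 v
  have g7 := DFunLike.congr_fun g4 ((Dq (fun y => b'.α (b.A y)) z').symm v)
  simp only [ContinuousLinearMap.comp_apply, ContinuousLinearEquiv.coe_coe,
    ContinuousLinearEquiv.apply_symm_apply, ContinuousLinearMap.id_apply] at g7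
  exact g7.symm

/-- **Homeomorphisms which are almost affine at small scales** (manifolds without boundary), with
a homotopy. -/
theorem affMain' (f : X ≃ₜ Y) (d : X → X → ℝ) {K : ℝ} (hK : 1 ≤ K)
    {ε : ℕ → ℝ} (hε : ∀ m, 0 < ε m) (hε0 : Tendsto ε atTop (𝓝 0)) (O : Set (X × Y))
    (hx : ∀ x, LD n f x ∨ AffAt (n := n) d K (eta n K) ε f x) (hB : IsCompact {x | ¬ LD n f x})
    (hO : IsOpen O) (hfO : ∀ x, (x, f x) ∈ O) :
    ∃ (f' : C(X, Y)) (C : Set X), IsCompact C ∧ Bijective f' ∧ (∀ x, LD n f' x) ∧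
      HomRel O C (⟨f, f.continuous⟩ : C(X, Y)) f' := by
  classical
  obtain ⟨F, hF⟩ : ∃ F : C(X, Y), F = ⟨f, f.continuous⟩ := ⟨_, rfl⟩
  have hFf : ∀ x, F x = f x := fun x => by rw [hF]; rfl
  have hFf' : (F : X → Y) = f := funext hFf
  have hbox : ∀ x ∈ {x | ¬ LD n f x}, ∃ b : Bx n F, b.A 0 = x ∧
      (∀ z ∈ closedBall (0 : E n) (2 * b.r),
        ∀ w ∈ closedBall (0 : E n) (2 * b.r), d (b.A z) (b.A w) ≤ K * ‖z - w‖ ∧
          ‖z - w‖ ≤ K * d (b.A z) (b.A w)) ∧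
      ∃ L : E n × ℕ → (E n ≃L[ℝ] E n), ∀ z ∈ closedBall (0 : E n) b.r,
        AAF ε b.h z (eta n K) L := by
    intro x hxb
    refine exists_box (f := F) hε ?_
    rw [hFf']
    exact (hx x).resolve_left hxb
  choose b hb0 hb1 hb2 using hbox
  have hU : ∀ x (hx : x ∈ {x | ¬ LD n f x}), (b x hx).A '' ball 0 ((b x hx).r / 2) ∈ 𝓝 x := by
    intro x hx
    have hr := (b x hx).hr
    have h2 : LD n (b x hx).A 0 := (b x hx).hAd 0 (by
      rw [mem_closedBall_zero_iff, norm_zero]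
      linarith)
    have h3 := h2.image_mem_nhds (ball_mem_nhds (0 : E n) (by linarith : 0 < (b x hx).r / 2))
    rwa [hb0 x hx] at h3
  obtain ⟨t, ht⟩ := hB.elim_nhds_subcover' (fun x hx => (b x hx).A '' ball 0 ((b x hx).r / 2)) hU
  obtain ⟨c, hc⟩ : ∃ c : ↥t → Bx n F, ∀ i, c i = b i.1.1 i.1.2 := ⟨_, fun _ => rfl⟩
  have hcov : ∀ x, ¬ LD n F x → ∃ i, ∃ z : E n, ‖z‖ < (c i).r / 2 ∧ (c i).A z = x := by
    intro x hx
    rw [hFf'] at hx
    obtain ⟨y, hy, z, hz, hzx⟩ := mem_iUnion₂.1 (ht hx)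
    refine ⟨⟨y, hy⟩, z, ?_, ?_⟩
    · rw [hc]
      exact mem_ball_zero_iff.1 hz
    · rw [hc]
      exact hzx
  have hd1 : ∀ i, ∀ z ∈ closedBall (0 : E n) (2 * (c i).r),
        ∀ w ∈ closedBall (0 : E n) (2 * (c i).r), d ((c i).A z) ((c i).A w) ≤ K * ‖z - w‖ := by
    intro i
    rw [hc]
    exact fun z hz w hw => (hb1 _ i.1.2 z hz w hw).1
  have hd2 : ∀ i, ∀ z ∈ closedBall (0 : E n) (2 * (c i).r),
        ∀ w ∈ closedBall (0 : E n) (2 * (c i).r), ‖z - w‖ ≤ K * d ((c i).A z) ((c i).A w) := by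
    intro i
    rw [hc]
    exact fun z hz w hw => (hb1 _ i.1.2 z hz w hw).2
  have hAA : ∀ i, ∃ L : E n × ℕ → (E n ≃L[ℝ] E n), ∀ z ∈ closedBall (0 : E n) (c i).r,
        AAF ε (c i).h z (eta n K) L := by
    intro i
    rw [hc]
    exact hb2 _ i.1.2
  have hg : ∀ x, ∃ K' η, Gd c ε x K' η := by
    intro x
    by_cases hx' : LD n F x
    · -- a good point: the constants depend on the point
      have hQ : ∀ p : ↥t × ↥t, ∃ Q : ℝ, ∀ z ∈ closedBall (0 : E n) (c p.1).r,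
          ∀ w ∈ closedBall (0 : E n) (c p.2).r, (c p.1).A z = x → (c p.2).A w = x →
          ∀ᶠ z' in 𝓝 z, ‖(Dq (fun y => (c p.2).α ((c p.1).A y)) z' : E n →L[ℝ] E n)‖ ≤ Q ∧
          ‖((Dq (fun y => (c p.2).α ((c p.1).A y)) z').symm : E n →L[ℝ] E n)‖ ≤ Q := by
        intro p
        by_cases hp : ∃ z ∈ closedBall (0 : E n) (c p.1).r, ∃ w ∈ closedBall (0 : E n) (c p.2).r,
            (c p.1).A z = x ∧ (c p.2).A w = x
        · obtain ⟨z, hz, w, hw, hzx, hwx⟩ := hp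
          have hlam : LD n (fun y => (c p.2).α ((c p.1).A y)) z := by
            refine LD.comp_fun ?_ ((c p.1).hAd z (ball_subset_closedBall (ball_sub2 hz)))
            rw [hzx, ← hwx]
            exact (c p.2).α_LD (ball_sub2 hw)
          obtain ⟨Q, ρ, -, hρ, hq⟩ := quad hlam
          refine ⟨Q, fun z₁ hz₁ w₁ hw₁ hz₁x hw₁x => ?_⟩
          have e1 : z₁ = z := (c p.1).hAi (ball_subset_closedBall (ball_sub2 hz₁))
            (ball_subset_closedBall (ball_sub2 hz)) (by rw [hz₁x, hzx])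
          rw [e1]
          filter_upwards [ball_mem_nhds z hρ] with z' hz'
          exact ⟨(hq z' hz').2.1, (hq z' hz').2.2.1⟩
        · exact ⟨0, fun z hz w hw hzx hwx => absurd ⟨z, hz, w, hw, hzx, hwx⟩ hp⟩
      choose Q hQ using hQ
      obtain ⟨K', hK'1, hK'⟩ : ∃ K' : ℝ, 1 ≤ K' ∧ ∀ p, Q p ≤ K' := by
        obtain ⟨M, hM⟩ := (Set.finite_range Q).bddAbove
        exact ⟨max M 1, le_max_right _ _, fun p => (hM (mem_range_self p)).trans (le_max_left _ _)⟩
      have hkc : 0 ≤ kc n := kc_nonneg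
      have hK'0 : 0 < K' := by linarith
      refine ⟨K', 1 / ((9 + 2 * kc n) * K' ^ 2), hK'1, by positivity, ?_, ?_, ?_, ?_⟩
      · rw [mul_one_div, div_lt_one (by positivity)]
        have : 0 < K' ^ 2 := by positivity
        nlinarith
      · rw [mul_one_div, div_lt_one (by positivity)]
        have : 0 < K' ^ 2 := by positivity
        nlinarith
      · intro i z hz hzx
        have hz2' := ball_subset_closedBall (ball_sub2 hz)
        have hh : LD n (c i).h z := by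
          refine LD.comp_fun (g := (c i).B) ((c i).hBd _ ((c i).hfV z hz2')) ?_
          refine LD.comp_fun (g := F) ?_ ((c i).hAd z hz2')
          rw [hzx]
          exact hx'
        exact ⟨_, AAF.of_LD hε hε0 hh (by positivity)⟩
      · intro i j z hz w hw hzx hwx
        filter_upwards [hQ (i, j) z hz w hw hzx hwx] with z' hz'
        exact ⟨hz'.1.trans (hK' _), hz'.2.trans (hK' _)⟩
    · -- a bad point
      refine ⟨K ^ 2, eta n K, one_le_pow₀ hK, eta_pos hK, (eta_lt hK).1, (eta_lt hK).2, ?_, ?_⟩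
      · intro i z hz hzx
        obtain ⟨L, hL⟩ := hAA i
        exact ⟨L, hL z hz⟩
      · intro i j z hz w hw hzx hwx
        have h1 := trans_lip hK (hd1 i) (hd2 j) hz hw (hzx.trans hwx.symm)
        have h2 := trans_lip hK (hd1 j) (hd2 i) hw hz (hwx.trans hzx.symm)
        have h3 := trans_symm hz hw (hzx.trans hwx.symm)
        have c1 : ContinuousAt (fun y => (c j).α ((c i).A y)) z := by
          have : ContinuousAt (c j).α ((c i).A z) := by
            rw [hzx, ← hwx]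
            exact ((c j).α_LD (ball_sub2 hw)).continuousAt
          exact ContinuousAt.comp (g := (c j).α) (f := (c i).A) this
            ((c i).hAd z (ball_subset_closedBall (ball_sub2 hz))).continuousAt
        have e1 : (c j).α ((c i).A z) = w := by
          rw [hzx, ← hwx, (c j).α_A (ball_subset_closedBall (ball_sub2 hw))]
        rw [← e1] at h2
        filter_upwards [h1, c1.eventually h2, h3] with z' g1 g2 g3
        refine ⟨g1, ?_⟩
        rw [g3]
        exact g2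
  obtain ⟨G, D, hD, hG1, hG2⟩ := glob c hε hε0 hg hcov
  obtain ⟨m, hm1, hm2⟩ := ((hG1 O hO (fun x => by rw [hFf]; exact hfO x)).and hG2).exists
  have : T2Space Y := f.t2Space
  have hl : IsLocalDiffeomorph (𝓡 n) (𝓡 n) ∞ (G m) := hm2
  rw [hF] at hm1
  exact ⟨G m, D, hD, bijective_of_homRel f (G m) hl.isLocalHomeomorph O D hD hm1, hm2, hm1⟩

/-- **Homeomorphisms which are almost affine at small scales** (manifolds without boundary). -/
theorem affMain (f : X ≃ₜ Y) (d : X → X → ℝ) {K : ℝ} (hK : 1 ≤ K)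
    {ε : ℕ → ℝ} (hε : ∀ m, 0 < ε m) (hε0 : Tendsto ε atTop (𝓝 0)) (O : Set (X × Y))
    (hx : ∀ x, LD n f x ∨ AffAt (n := n) d K (eta n K) ε f x) (hB : IsCompact {x | ¬ LD n f x})
    (hO : IsOpen O) (hfO : ∀ x, (x, f x) ∈ O) :
    ∃ (f' : X → Y) (C : Set X), IsCompact C ∧ Bijective f' ∧ (∀ x, LD n f' x) ∧
      (∀ x, (x, f' x) ∈ O) ∧ ∀ x, x ∉ C → f' x = f x := by
  obtain ⟨f', C, hC, hb, hl, hH⟩ := affMain' f d hK hε hε0 O hx hB hO hfO
  exact ⟨f', C, hC, hb, hl, fun x => (hH.off x).1, fun x hx' => (hH.off x).2 hx'⟩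

end main

end Run7.h60.Sc
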