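import Pool.Agent.Run7.h60.Flat
import Pool.Agent.R865.SchT
import Pool.Agent.Helper514.IoD

/-!
# Smooth Schoenflies from mollifications
-/

set_option autoImplicit false

open Set Filter Topology Metric Function MeasureTheory
open scoped Manifold ContDiff

noncomputable section

namespace Run7.h60.Sc

open Pool.Agent.Y522 Pool.Agent.R765 Pool.Agent.Y954.SH TopologicalSpace Pool.Agent.R865.SchT

variable {n : ℕ} {ε : ℕ → ℝ}

/-- a map to an open subset -/
lemma LD_to_opens {M : Type} [TopologicalSpace M] [ChartedSpace (E n) M] {V : Opens (E n)}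
    {f : M → V} (hf : Continuous f) {x : M} (h : LD n (fun x => (f x : E n)) x) : LD n f x := by
  obtain ⟨p, hp, hpx, h1, h2⟩ := (Pool.Agent.R769.LD_val (n := n) V (f x)).exists_inverse
  have hp' : LD n p (f x : E n) := hp
  have h3 : LD n (fun z => p (f z : E n)) x := LD.comp_fun (g := p) hp' h
  refine h3.congr ?_
  have h1' : ∀ᶠ z : V in 𝓝 (f x), p z.1 = z := h1
  filter_upwards [hf.continuousAt.eventually h1'] with z hz
  exact hz.symm

theorem sch_flat (hε : ∀ m, 0 < ε m) (hε0 : Tendsto ε atTop (𝓝 0)) (H : E n → E n) (δ : ℝ)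
    (hδ : 0 < δ) (hc : ContinuousOn H (ball 0 (1 + δ))) (hi : InjOn H (ball 0 (1 + δ)))
    (hs : ∀ x, 1 ≤ ‖x‖ → ‖x‖ < 1 + δ → LD n H x)
    (h : ∀ x, ‖x‖ < 1 → LD n H x ∨
      ∀ᶠ p : E n × ℕ in 𝓝 x ×ˢ atTop, LD n (mo H (ε p.2)) p.1) :
    ∃ (G : E n → E n) (O : E n ≃ₗᵢ[ℝ] E n) (R' : ℝ), Bijective G ∧
      (∀ x, LD n G x) ∧ (∀ x, ‖x‖ = 1 → G x = H x) ∧
      G '' closedBall 0 1 = H '' closedBall 0 1 ∧ ∀ x, R' ≤ ‖x‖ → G x = O x := by
  classical
  have hsub : ball (0 : E n) 1 ⊆ ball 0 (1 + δ) := ball_subset_ball (by linarith)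
  have hcl : closedBall (0 : E n) 1 ⊆ ball 0 (1 + δ) := closedBall_subset_ball (by linarith)
  -- the bad set
  obtain ⟨B, hBd⟩ : ∃ B : Set (E n), B = closedBall 0 1 ∩ {x | ¬ LD n H x} := ⟨_, rfl⟩
  have hLo : IsOpen {x | LD n H x} := isOpen_iff_mem_nhds.2 fun x hx => LD.eventually hx
  have hB : IsCompact B := by
    rw [hBd]
    exact (isCompact_closedBall _ _).inter_right hLo.isClosed_compl
  have hBU : B ⊆ ball 0 1 := by
    intro x hx
    rw [hBd] at hx
    rw [mem_ball_zero_iff]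
    by_contra hx1
    have h1 := mem_closedBall_zero_iff.1 hx.1
    exact hx.2 (hs x (not_lt.1 hx1) (by linarith))
  obtain ⟨C, χ, hC, hCU, hχ0, hχ1, hχC, hcl1, hLD⟩ := flat isOpen_ball (hc.mono hsub) hε hε0 hB hBU
    (fun x hx hxB => by
      by_contra hL
      refine hxB ?_
      rw [hBd]
      exact ⟨ball_subset_closedBall hx, hL⟩)
    (fun x hx => by
      have hx1 := mem_ball_zero_iff.1 (hBU hx)
      rw [hBd] at hx
      exact (h x hx1).resolve_left hx.2)
  -- the image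
  have hVo : IsOpen (H '' ball 0 1) := by
    rw [isOpen_iff_mem_nhds]
    rintro _ ⟨x, hx, rfl⟩
    obtain ⟨r, hr, hrs⟩ := Metric.nhds_basis_closedBall.mem_iff.1 (isOpen_ball.mem_nhds hx)
    exact mem_of_superset (Pool.Agent.Helper514.IoD.image_mem_nhds H x r hr
      (hc.mono (hrs.trans hsub)) (hi.mono (hrs.trans hsub))) (image_mono hrs)
  obtain ⟨V, hV⟩ : ∃ V : Opens (E n), (V : Set (E n)) = H '' ball 0 1 := ⟨⟨_, hVo⟩, rfl⟩
  have hHV : ∀ x : UBall n, H x.1 ∈ V := fun x => by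
    rw [← SetLike.mem_coe, hV]
    exact ⟨x.1, x.2, rfl⟩
  obtain ⟨g, hg⟩ : ∃ g : UBall n → V, ∀ x, (g x : E n) = H x.1 := ⟨fun x => ⟨H x.1, hHV x⟩, fun _ => rfl⟩
  have hgc : Continuous g := by
    rw [continuous_induced_rng]
    have e1 : (Subtype.val ∘ g) = fun x : UBall n => H x.1 := funext hg
    have e2 : Continuous fun x : UBall n => H x.1 :=
      (hc.mono hsub).comp_continuous continuous_subtype_val fun x => x.2
    exact e1 ▸ e2
  have hgi : Injective g := by
    intro x y hxy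
    have h1 := congrArg (Subtype.val : V → E n) hxy
    rw [hg, hg] at h1
    exact Subtype.ext (hi (hsub x.2) (hsub y.2) h1)
  have hgs : Surjective g := by
    intro y
    have hy := y.2
    rw [← SetLike.mem_coe, hV] at hy
    obtain ⟨x, hx, hxy⟩ := hy
    refine ⟨⟨x, hx⟩, Subtype.ext ?_⟩
    rw [hg]
    exact hxy
  have hgo : IsOpenMap g := by
    intro S hS
    obtain ⟨T, hT, rfl⟩ := isOpen_induced_iff.1 hS
    rw [isOpen_iff_mem_nhds]
    rintro _ ⟨x, hx, rfl⟩
    obtain ⟨r, hr, hrs⟩ := Metric.nhds_basis_closedBall.mem_iff.1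
      ((hT.inter isOpen_ball).mem_nhds (⟨hx, x.2⟩ : x.1 ∈ T ∩ ball 0 1))
    have h1 := Pool.Agent.Helper514.IoD.image_mem_nhds H x.1 r hr
      (hc.mono ((hrs.trans inter_subset_right).trans hsub))
      (hi.mono ((hrs.trans inter_subset_right).trans hsub))
    rw [← hg] at h1
    have h2 := continuous_subtype_val.continuousAt (x := g x) h1
    filter_upwards [h2] with y hy
    obtain ⟨w, hw, hwy⟩ := hy
    refine ⟨⟨w, (hrs hw).2⟩, (hrs hw).1, Subtype.ext ?_⟩
    rw [hg]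
    exact hwy
  obtain ⟨f, hf⟩ : ∃ f : UBall n ≃ₜ V, ∀ x, f x = g x :=
    ⟨(Equiv.ofBijective g ⟨hgi, hgs⟩).toHomeomorphOfContinuousOpen hgc hgo, fun _ => rfl⟩
  -- the distance to the boundary of the image
  obtain ⟨e, he, he2⟩ : ∃ e : ℝ, 0 < e ∧ ∀ x ∈ C, ∀ y, ‖y - H x‖ ≤ e → y ∈ V := by
    have h1 : IsCompact (H '' C) := hC.image_of_continuousOn (hc.mono (hCU.trans hsub))
    have h2 : H '' C ⊆ H '' ball 0 1 := image_mono hCU
    obtain ⟨e, he, he2⟩ := h1.exists_cthickening_subset_open hVo h2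
    refine ⟨e, he, fun x hx y hy => ?_⟩
    rw [← SetLike.mem_coe, hV]
    refine he2 (mem_cthickening_of_dist_le y (H x) e _ ⟨x, hx, rfl⟩ ?_)
    rwa [dist_eq_norm]
  obtain ⟨k, hk1, hk2⟩ := ((hcl1 e he).and hLD).exists
  obtain ⟨F, hF⟩ : ∃ F : E n → E n, F = fun z => H z + χ z • (mo H (ε k) z - H z) := ⟨_, rfl⟩
  rw [← hF] at hk2
  have hFC : ∀ x, x ∉ C → F x = H x := fun x hx => by
    rw [hF]
    change H x + χ x • (mo H (ε k) x - H x) = H x
    rw [hχC x hx, zero_smul, add_zero]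
  have hFe : ∀ x ∈ C, ‖F x - H x‖ ≤ e := by
    intro x hx
    rw [hF]
    change ‖H x + χ x • (mo H (ε k) x - H x) - H x‖ ≤ e
    rw [add_sub_cancel_left, norm_smul, Real.norm_of_nonneg (hχ0 x)]
    calc χ x * ‖mo H (ε k) x - H x‖ ≤ 1 * e :=
          mul_le_mul (hχ1 x) (hk1 x hx) (norm_nonneg _) zero_le_one
      _ = e := one_mul e
  have hCcl : IsClosed ((Subtype.val : UBall n → E n) ⁻¹' C) :=
    hC.isClosed.preimage continuous_subtype_val
  have hCc : IsCompact ((Subtype.val : UBall n → E n) ⁻¹' C) :=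
    Topology.IsEmbedding.subtypeVal.isCompact_preimage_iff (by
      rw [Subtype.range_coe_subtype]
      exact hCU) |>.2 hC
  obtain ⟨f', h1, h2, h3⟩ := glueSeg (⟨f, f.continuous⟩ : C(UBall n, V))
    ((Subtype.val : UBall n → E n) ⁻¹' C) univ (Subtype.val : V → E n) (fun x => F x.1)
    hCcl isOpen_univ (fun a _ b _ hab => Subtype.ext hab)
    (fun y _ => Pool.Agent.R769.LD_val V y) (fun _ _ => mem_univ _)
    (fun x _ => (hk2 x.1 x.2).continuousAt.comp continuous_subtype_val.continuousAt)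
    (fun x hx => by
      change F x.1 = (f x : E n)
      rw [hf, hg]
      exact hFC x.1 hx)
    (fun x hx s => by
      have h5 : (f x : E n) + (s : ℝ) • (F x.1 - (f x : E n)) ∈ V := by
        rw [hf, hg]
        refine he2 x.1 hx _ ?_
        rw [add_sub_cancel_left, norm_smul, Real.norm_of_nonneg s.2.1]
        calc (s : ℝ) * ‖F x.1 - H x.1‖ ≤ 1 * e :=
              mul_le_mul s.2.2 (hFe x.1 hx) (norm_nonneg _) zero_le_one
          _ = e := one_mul e
      exact ⟨⟨_, h5⟩, mem_univ _, rfl⟩)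
  have h4 := h3 univ (fun _ => mem_univ _) (fun x hx s => by
      have h5 : (f x : E n) + (s : ℝ) • (F x.1 - (f x : E n)) ∈ V := by
        rw [hf, hg]
        refine he2 x.1 hx _ ?_
        rw [add_sub_cancel_left, norm_smul, Real.norm_of_nonneg s.2.1]
        calc (s : ℝ) * ‖F x.1 - H x.1‖ ≤ 1 * e :=
              mul_le_mul s.2.2 (hFe x.1 hx) (norm_nonneg _) zero_le_one
          _ = e := one_mul e
      exact ⟨⟨_, h5⟩, mem_univ _, rfl, mem_univ _⟩)
  have hf'F : ∀ x, (f' x : E n) = F x.1 := fun x => (h2 x (mem_univ _)).2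
  have hl : ∀ x, LD n f' x := by
    intro x
    refine LD_to_opens f'.continuous ?_
    have h5 : LD n (fun x : UBall n => F x.1) x :=
      LD.comp_fun (g := F) (f := (Subtype.val : UBall n → E n)) (hk2 x.1 x.2)
        (Pool.Agent.R769.LD_val _ x)
    refine h5.congr (Eventually.of_forall fun z => hf'F z)
  have hl' : IsLocalDiffeomorph (𝓡 n) (𝓡 n) ∞ f' := hl
  have hb := bijective_of_homRel f f' hl'.isLocalHomeomorph univ _ hCc h4
  refine sch_of_diffeo n H δ hδ hi hs V g (fun x => hg x) hgs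
    (hl'.diffeomorphOfBijective hb) _ hCc fun x hx => ?_
  have h6 := h1 x hx
  change f' x = g x
  rw [h6]
  exact hf x

end Run7.h60.Sc
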