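import Pool.Agent.Run7.h60.AAEst

/-!
# Almost affine maps at a scale: comparison of the coordinates of the source
-/

set_option autoImplicit false

open Set Filter Topology Metric Function MeasureTheory
open scoped Manifold ContDiff

noncomputable section

namespace Run7.h60.Sc

open Pool.Agent.Y522 Pool.Agent.Y954.SH

variable {n : ℕ}


/-- The linear parts of an almost affine map in two coordinate systems of the source. -/
lemma cmp_M {h g lam : E n → E n} {z w : E n} {L L' T : E n ≃L[ℝ] E n} {ε η ζ K Q : ℝ}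
    (hε : 0 < ε) (hK : 1 ≤ K) (hη : 0 ≤ η) (hζ : η + Q * ε ≤ ζ)
    (hQ : 0 ≤ Q) (hQε : Q * ε ≤ 1) (hA : AA h z ε L η) (hA' : AA g w ε L' η)
    (hT : ‖(T : E n →L[ℝ] E n)‖ ≤ K) (hT' : ‖(T.symm : E n →L[ℝ] E n)‖ ≤ K)
    (hlam : ∀ y : E n, ‖y‖ ≤ ε → ‖lam (z + y) - w - T y‖ ≤ Q * ‖y‖ ^ 2)
    (hg : ∀ y : E n, ‖y‖ ≤ ε → g (lam (z + y)) = h (z + y)) (hg0 : g w = h z)
    (hsm : 4 * K ^ 2 * ζ ≤ 1) :
    ‖(L.symm : E n →L[ℝ] E n) ∘L ((L' : E n →L[ℝ] E n) ∘L (T : E n →L[ℝ] E n)) - (ContinuousLinearMap.id ℝ (E n))‖ ≤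
      8 * K ^ 2 * ζ := by
  obtain ⟨M, hM⟩ : ∃ M : E n →L[ℝ] E n, M = (L.symm : E n →L[ℝ] E n) ∘L
    ((L' : E n →L[ℝ] E n) ∘L (T : E n →L[ℝ] E n)) := ⟨_, rfl⟩
  rw [← hM]
  have hζ0 : 0 ≤ ζ := le_trans (by positivity) hζ
  have hMa : ∀ v, M v = L.symm (L' (T v)) := fun v => by rw [hM]; rfl
  obtain ⟨m, hm⟩ : ∃ m, m = ‖M - (ContinuousLinearMap.id ℝ (E n))‖ := ⟨_, rfl⟩
  have hm0 : 0 ≤ m := by rw [hm]; exact norm_nonneg _
  have hMn : ‖M‖ ≤ 1 + m := by
    have e1 : M = (M - (ContinuousLinearMap.id ℝ (E n))) + (ContinuousLinearMap.id ℝ (E n)) := by abel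
    calc ‖M‖ = ‖(M - (ContinuousLinearMap.id ℝ (E n))) + (ContinuousLinearMap.id ℝ (E n))‖ := by rw [← e1]
      _ ≤ ‖M - (ContinuousLinearMap.id ℝ (E n))‖ + ‖(ContinuousLinearMap.id ℝ (E n))‖ := norm_add_le _ _
      _ ≤ m + 1 := add_le_add hm.ge ContinuousLinearMap.norm_id_le
      _ = 1 + m := by ring
  have hK0 : 0 < K := by linarith
  -- the estimate on small vectors
  have key : ∀ y : E n, ‖y‖ ≤ ε / (2 * K) → ‖(M - (ContinuousLinearMap.id ℝ (E n))) y‖ ≤ (ζ + (1 + m) * K * ζ) * ε := by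
    intro y hy
    have hy1 : ‖y‖ ≤ ε := by
      refine hy.trans ?_
      rw [div_le_iff₀ (by positivity)]
      nlinarith
    have hy2 : K * ‖y‖ ≤ ε / 2 := by
      have := mul_le_mul_of_nonneg_left hy hK0.le
      have e1 : K * (ε / (2 * K)) = ε / 2 := by field_simp
      linarith
    obtain ⟨u, hu⟩ : ∃ u, u = lam (z + y) - w := ⟨_, rfl⟩
    have h1 := hlam y hy1
    rw [← hu] at h1
    have hyy : ‖y‖ ≤ ε / 2 := by
      have e0 : (0:ℝ) ≤ (K - 1) * ‖y‖ := mul_nonneg (by linarith) (norm_nonneg y)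
      nlinarith
    have h2 : Q * ‖y‖ ^ 2 ≤ Q * ε * (ε / 2) := by
      have e0 : ‖y‖ ^ 2 ≤ ε * (ε / 2) := by
        rw [sq]
        exact mul_le_mul hy1 hyy (norm_nonneg _) hε.le
      calc Q * ‖y‖ ^ 2 ≤ Q * (ε * (ε / 2)) := by gcongr
        _ = Q * ε * (ε / 2) := by ring
    have hun : ‖u‖ ≤ ε := by
      have e1 : u = (u - T y) + T y := by abel
      calc ‖u‖ = ‖(u - T y) + T y‖ := by rw [← e1]
        _ ≤ ‖u - T y‖ + ‖T y‖ := norm_add_le _ _
        _ ≤ Q * ε * (ε / 2) + K * ‖y‖ := by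
            apply add_le_add (h1.trans h2)
            exact ((T : E n →L[ℝ] E n).le_opNorm y).trans (by gcongr)
        _ ≤ 1 * (ε / 2) + ε / 2 := by
            apply add_le_add _ hy2
            gcongr
        _ = ε := by ring
    have h3 := hA' u hun
    have h4 : g (w + u) = h (z + y) := by
      rw [hu, add_sub_cancel]
      exact hg y hy1
    rw [h4, hg0] at h3
    have h5 := hA y hy1
    obtain ⟨d, hd⟩ : ∃ d, d = h (z + y) - h z := ⟨_, rfl⟩
    rw [← hd] at h3 h5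
    -- `y + e = L⁻¹ d = M (y + T⁻¹ (q + e'))`
    obtain ⟨q, hq⟩ : ∃ q, q = u - T y := ⟨_, rfl⟩
    obtain ⟨e', he'⟩ : ∃ e', e' = L'.symm d - u := ⟨_, rfl⟩
    rw [← he'] at h3
    rw [← hq] at h1
    have h6 : L.symm d = M (y + T.symm (q + e')) := by
      rw [hMa, map_add T, T.apply_symm_apply, hq, he']
      have e1 : T y + (u - T y + (L'.symm d - u)) = L'.symm d := by abel
      rw [e1, L'.apply_symm_apply]
    have h7 : (M - (ContinuousLinearMap.id ℝ (E n))) y = (L.symm d - y) - M (T.symm (q + e')) := by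
      rw [h6, map_add]
      change M y - y = _
      abel
    rw [h7]
    refine (norm_sub_le _ _).trans ?_
    have h8 : ‖M (T.symm (q + e'))‖ ≤ (1 + m) * (K * (Q * ε * ε + η * ε)) := by
      refine (M.le_opNorm _).trans ?_
      have e2 : ‖T.symm (q + e')‖ ≤ K * (Q * ε * ε + η * ε) := by
        refine ((T.symm : E n →L[ℝ] E n).le_opNorm _).trans ?_
        have e3 : ‖q + e'‖ ≤ Q * ε * ε + η * ε := by
          refine (norm_add_le _ _).trans (add_le_add ?_ h3)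
          refine (h1.trans h2).trans ?_
          have : 0 ≤ Q * ε := by positivity
          nlinarith
        gcongr
      gcongr
    have h9 : Q * ε * ε + η * ε ≤ ζ * ε := by
      have := mul_le_mul_of_nonneg_right hζ hε.le
      linarith
    have h10 : η * ε ≤ ζ * ε := by
      have : 0 ≤ Q * ε * ε := by positivity
      linarith
    calc ‖L.symm d - y‖ + ‖M (T.symm (q + e'))‖
        ≤ ζ * ε + (1 + m) * (K * (ζ * ε)) := by
          apply add_le_add (h5.trans h10)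
          refine h8.trans ?_
          gcongr
      _ = _ := by ring
  have h11 : m ≤ 2 * K * (ζ + (1 + m) * K * ζ) := by
    rw [hm]
    apply ContinuousLinearMap.opNorm_le_bound _ (by rw [← hm]; positivity)
    intro v
    rw [← hm]
    rcases eq_or_ne v 0 with rfl | hv
    · simp
    · have hv0 : 0 < ‖v‖ := norm_pos_iff.2 hv
      have e1 := key ((ε / (2 * K) * ‖v‖⁻¹) • v) (by
        rw [norm_smul, norm_mul, norm_inv, norm_norm, mul_assoc, inv_mul_cancel₀ hv0.ne', mul_one,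
          Real.norm_of_nonneg (by positivity)])
      rw [map_smul, norm_smul, norm_mul, norm_inv, norm_norm,
        Real.norm_of_nonneg (by positivity : (0:ℝ) ≤ ε / (2 * K))] at e1
      have e2 : ε / (2 * K) * ‖v‖⁻¹ * ‖(M - (ContinuousLinearMap.id ℝ (E n))) v‖ * (2 * K / ε * ‖v‖) = ‖(M - (ContinuousLinearMap.id ℝ (E n))) v‖ := by
        field_simp
      rw [← e2]
      calc ε / (2 * K) * ‖v‖⁻¹ * ‖(M - (ContinuousLinearMap.id ℝ (E n))) v‖ * (2 * K / ε * ‖v‖)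
          ≤ ((ζ + (1 + m) * K * ζ) * ε) * (2 * K / ε * ‖v‖) := by gcongr
        _ = 2 * K * (ζ + (1 + m) * K * ζ) * ‖v‖ := by field_simp
  -- solve for `m`
  rw [← hm]
  have h12 : 2 * K * ζ ≤ 2 * K ^ 2 * ζ := by
    have : 0 ≤ 2 * K * ζ * (K - 1) := mul_nonneg (by positivity) (by linarith)
    nlinarith
  have h13 : m ≤ 4 * K ^ 2 * ζ + (2 * K ^ 2 * ζ) * m := by nlinarith
  have h14 : (2 * K ^ 2 * ζ) * m ≤ 1 / 2 * m := by
    gcongr
    linarith
  linarith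

/-- The mollification in other coordinates of the source. -/
lemma cmp_mo {h g lam : E n → E n} {z w : E n} {L L' T : E n ≃L[ℝ] E n} {ε η ζ K Q : ℝ}
    (hε : 0 < ε) (hK : 1 ≤ K) (hη : 0 ≤ η) (hζ : η + Q * ε ≤ ζ)
    (hQ : 0 ≤ Q) (hQε : Q * ε ≤ 1) (hA : AA h z ε L η) (hA' : AA g w ε L' η)
    (hT : ‖(T : E n →L[ℝ] E n)‖ ≤ K) (hT' : ‖(T.symm : E n →L[ℝ] E n)‖ ≤ K)
    (hlam : ∀ y : E n, ‖y‖ ≤ ε → ‖lam (z + y) - w - T y‖ ≤ Q * ‖y‖ ^ 2)
    (hg : ∀ y : E n, ‖y‖ ≤ ε → g (lam (z + y)) = h (z + y)) (hg0 : g w = h z)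
    (hsm : 8 * K ^ 2 * ζ ≤ 1) (hgc : ContinuousOn g (closedBall w (2 * ε))) :
    Nr L ε (h z) (mo g ε w) (fderiv ℝ (mo g ε) w ∘L (T : E n →L[ℝ] E n)) (4 * K)
      ((8 + 2 * kc n) * K ^ 2 * ζ) := by
  have hM := cmp_M hε hK hη hζ hQ hQε hA hA' hT hT' hlam hg hg0 (by
    have : 0 ≤ ζ := le_trans (by positivity) hζ
    nlinarith [mul_nonneg (sq_nonneg K) this])
  obtain ⟨M, hMd⟩ : ∃ M : E n →L[ℝ] E n, M = (L.symm : E n →L[ℝ] E n) ∘L
    ((L' : E n →L[ℝ] E n) ∘L (T : E n →L[ℝ] E n)) := ⟨_, rfl⟩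
  rw [← hMd] at hM
  have hζ0 : 0 ≤ ζ := le_trans (by positivity) hζ
  have hMa : ∀ v, M v = L.symm (L' (T v)) := fun v => by rw [hMd]; rfl
  have hK0 : 0 < K := by linarith
  have hMn : ‖M‖ ≤ 2 := by
    have e1 : M = (M - (ContinuousLinearMap.id ℝ (E n))) + (ContinuousLinearMap.id ℝ (E n)) := by abel
    calc ‖M‖ = ‖(M - (ContinuousLinearMap.id ℝ (E n))) + (ContinuousLinearMap.id ℝ (E n))‖ := by rw [← e1]
      _ ≤ ‖M - (ContinuousLinearMap.id ℝ (E n))‖ + ‖(ContinuousLinearMap.id ℝ (E n))‖ := norm_add_le _ _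
      _ ≤ 8 * K ^ 2 * ζ + 1 := add_le_add hM ContinuousLinearMap.norm_id_le
      _ ≤ 2 := by linarith
  have hηζ : η ≤ ζ := by
    have : 0 ≤ Q * ε := by positivity
    linarith
  have hη1 : η ≤ 1 := by
    have : ζ ≤ 8 * K ^ 2 * ζ := by
      have e1 : 1 ≤ K ^ 2 := one_le_pow₀ hK
      nlinarith
    linarith
  have hv := mo_aa_val hε hgc hA'
  have hd := mo_aa hε hgc hA'
  constructor
  · have e1 : L.symm (mo g ε w - h z) = M (T.symm (L'.symm (mo g ε w - g w))) := by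
      rw [hMa, T.apply_symm_apply, L'.apply_symm_apply, hg0]
    rw [e1]
    calc ‖M (T.symm (L'.symm (mo g ε w - g w)))‖ ≤ ‖M‖ * ‖T.symm (L'.symm (mo g ε w - g w))‖ :=
          M.le_opNorm _
      _ ≤ ‖M‖ * (‖(T.symm : E n →L[ℝ] E n)‖ * ‖L'.symm (mo g ε w - g w)‖) := by
          gcongr
          exact (T.symm : E n →L[ℝ] E n).le_opNorm _
      _ ≤ 2 * (K * ((1 + η) * ε)) := by gcongr
      _ ≤ 2 * (K * ((1 + 1) * ε)) := by gcongr
      _ = 4 * K * ε := by ring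
  · obtain ⟨S, hS⟩ : ∃ S, S = fderiv ℝ (mo g ε) w := ⟨_, rfl⟩
    rw [← hS] at hd ⊢
    have e1 : (L.symm : E n →L[ℝ] E n) ∘L (S ∘L (T : E n →L[ℝ] E n)) - (ContinuousLinearMap.id ℝ (E n)) =
        (M - (ContinuousLinearMap.id ℝ (E n))) + M ∘L ((T.symm : E n →L[ℝ] E n) ∘L
          (((L'.symm : E n →L[ℝ] E n) ∘L S - (ContinuousLinearMap.id ℝ (E n))) ∘L (T : E n →L[ℝ] E n))) := by
      ext1 v
      simp only [ContinuousLinearMap.sub_apply, ContinuousLinearMap.add_apply,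
        ContinuousLinearMap.comp_apply, ContinuousLinearEquiv.coe_coe, map_sub,
        ContinuousLinearMap.id_apply, hMa, ContinuousLinearEquiv.apply_symm_apply,
        ContinuousLinearEquiv.symm_apply_apply]
      abel
    rw [e1]
    refine (norm_add_le _ _).trans ?_
    have e2 : ‖M ∘L ((T.symm : E n →L[ℝ] E n) ∘L
          (((L'.symm : E n →L[ℝ] E n) ∘L S - (ContinuousLinearMap.id ℝ (E n))) ∘L (T : E n →L[ℝ] E n)))‖ ≤
        2 * (K * ((kc n * η) * K)) := by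
      refine (ContinuousLinearMap.opNorm_comp_le _ _).trans ?_
      apply mul_le_mul hMn _ (norm_nonneg _) (by norm_num)
      refine (ContinuousLinearMap.opNorm_comp_le _ _).trans ?_
      apply mul_le_mul hT' _ (norm_nonneg _) hK0.le
      refine (ContinuousLinearMap.opNorm_comp_le _ _).trans ?_
      apply mul_le_mul hd hT (norm_nonneg _) (mul_nonneg kc_nonneg hη)
    have e3 : 2 * (K * ((kc n * η) * K)) ≤ 2 * kc n * K ^ 2 * ζ := by
      have e4 : 0 ≤ kc n := kc_nonneg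
      calc 2 * (K * ((kc n * η) * K)) = 2 * kc n * K ^ 2 * η := by ring
        _ ≤ 2 * kc n * K ^ 2 * ζ := by gcongr
    calc _ ≤ 8 * K ^ 2 * ζ + 2 * kc n * K ^ 2 * ζ := add_le_add hM (e2.trans e3)
      _ = _ := by ring

end Run7.h60.Sc
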