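import Pool.Agent.Run7.h60.AAMoll

/-!
# Almost affine maps at a scale: change of the coordinates and interpolation
-/

set_option autoImplicit false

open Set Filter Topology Metric Function MeasureTheory
open scoped Manifold ContDiff

noncomputable section

namespace Run7.h60.Sc

open Pool.Agent.Y522 Pool.Agent.Y954.SH

variable {n : ℕ}


/-- `a` with the derivative `A'` is close to `p` with the derivative `L` -/
def Nr (L : E n ≃L[ℝ] E n) (ε : ℝ) (p a : E n) (A' : E n →L[ℝ] E n) (C θ : ℝ) : Prop :=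
  ‖L.symm (a - p)‖ ≤ C * ε ∧ ‖(L.symm : E n →L[ℝ] E n) ∘L A' - (ContinuousLinearMap.id ℝ (E n))‖ ≤ θ

/-- the quantity which has to be small -/
def sg (L : E n ≃L[ℝ] E n) (ε : ℝ) : ℝ :=
  ‖(L.symm : E n →L[ℝ] E n)‖ * ‖(L : E n →L[ℝ] E n)‖ ^ 2 * ε

lemma Nr.mono {L : E n ≃L[ℝ] E n} {ε : ℝ} {p a : E n} {A' : E n →L[ℝ] E n} {C C' θ θ' : ℝ}
    (h : Nr L ε p a A' C θ) (hε : 0 ≤ ε) (hC : C ≤ C') (hθ : θ ≤ θ') : Nr L ε p a A' C' θ' :=
  ⟨h.1.trans (mul_le_mul_of_nonneg_right hC hε), h.2.trans hθ⟩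

lemma norm_sub_le_of_Nr {L : E n ≃L[ℝ] E n} {p a : E n} {r : ℝ}
    (h : ‖L.symm (a - p)‖ ≤ r) : ‖a - p‖ ≤ ‖(L : E n →L[ℝ] E n)‖ * r := by
  have h1 : a - p = L (L.symm (a - p)) := (L.apply_symm_apply _).symm
  calc ‖a - p‖ = ‖(L : E n →L[ℝ] E n) (L.symm (a - p))‖ := by
        rw [ContinuousLinearEquiv.coe_coe, ← h1]
    _ ≤ ‖(L : E n →L[ℝ] E n)‖ * ‖L.symm (a - p)‖ := ContinuousLinearMap.le_opNorm _ _
    _ ≤ ‖(L : E n →L[ℝ] E n)‖ * r := by gcongr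

lemma norm_le_of_Nr {L : E n ≃L[ℝ] E n} {A' : E n →L[ℝ] E n} {θ : ℝ}
    (h : ‖(L.symm : E n →L[ℝ] E n) ∘L A' - (ContinuousLinearMap.id ℝ (E n))‖ ≤ θ) :
    ‖A'‖ ≤ ‖(L : E n →L[ℝ] E n)‖ * (1 + θ) := by
  have h0 : 0 ≤ θ := (norm_nonneg _).trans h
  apply ContinuousLinearMap.opNorm_le_bound _ (by positivity)
  intro v
  have h1 : ‖L.symm (A' v - 0)‖ ≤ (1 + θ) * ‖v‖ := by
    have h2 : L.symm (A' v - 0) = ((L.symm : E n →L[ℝ] E n) ∘L A' - (ContinuousLinearMap.id ℝ (E n))) v + v := by simp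
    rw [h2]
    refine (norm_add_le _ _).trans ?_
    have h3 := ((L.symm : E n →L[ℝ] E n) ∘L A' - (ContinuousLinearMap.id ℝ (E n))).le_opNorm v
    nlinarith [norm_nonneg v]
  have h4 := norm_sub_le_of_Nr h1
  rw [sub_zero] at h4
  rw [mul_assoc]
  exact h4

/-- the second derivative of a change of the coordinates is harmless -/
lemma symm_quad {L D : E n ≃L[ℝ] E n} {Q R : ℝ} {r : E n} (hR : ‖r‖ ≤ R) (hQ : 0 ≤ Q)
    (hD : ‖(D.symm : E n →L[ℝ] E n)‖ ≤ Q) :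
    ‖L.symm (D.symm r)‖ ≤ ‖(L.symm : E n →L[ℝ] E n)‖ * (Q * R) := by
  calc ‖L.symm (D.symm r)‖ ≤ ‖(L.symm : E n →L[ℝ] E n)‖ * ‖D.symm r‖ :=
        (L.symm : E n →L[ℝ] E n).le_opNorm _
    _ ≤ ‖(L.symm : E n →L[ℝ] E n)‖ * (‖(D.symm : E n →L[ℝ] E n)‖ * ‖r‖) := by
        gcongr
        exact (D.symm : E n →L[ℝ] E n).le_opNorm _
    _ ≤ ‖(L.symm : E n →L[ℝ] E n)‖ * (Q * R) := by gcongr

lemma Nr.change {L D : E n ≃L[ℝ] E n} {ε Q C θ σ : ℝ} {p a q b : E n} {A' F : E n →L[ℝ] E n}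
    (h : Nr L ε p a A' C θ) (hε : 0 ≤ ε) (hC : 0 ≤ C) (hQ : 0 ≤ Q)
    (hD : ‖(D.symm : E n →L[ℝ] E n)‖ ≤ Q)
    (h1 : ‖b - q - D (a - p)‖ ≤ Q * ‖a - p‖ ^ 2)
    (h2 : ‖F - (D : E n →L[ℝ] E n)‖ ≤ Q * ‖a - p‖) (hσ : sg L ε ≤ σ) :
    Nr (L.trans D) ε q b (F ∘L A') (C + Q ^ 2 * C ^ 2 * σ) (θ + Q ^ 2 * C * (1 + θ) * σ) := by
  have h0 : 0 ≤ θ := (norm_nonneg _).trans h.2
  have h3 := norm_sub_le_of_Nr h.1
  have h4 := norm_le_of_Nr h.2
  obtain ⟨Li, hLi⟩ : ∃ Li, Li = ‖(L.symm : E n →L[ℝ] E n)‖ := ⟨_, rfl⟩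
  obtain ⟨Ln, hLn⟩ : ∃ Ln, Ln = ‖(L : E n →L[ℝ] E n)‖ := ⟨_, rfl⟩
  have hLi0 : 0 ≤ Li := by rw [hLi]; exact norm_nonneg _
  have hLn0 : 0 ≤ Ln := by rw [hLn]; exact norm_nonneg _
  have hσ' : Li * Ln ^ 2 * ε ≤ σ := by rw [hLi, hLn]; exact hσ
  rw [← hLn] at h3 h4
  constructor
  · have e1 : (L.trans D).symm (b - q) = L.symm (a - p) + L.symm (D.symm (b - q - D (a - p))) := by
      rw [map_sub D.symm (b - q) (D (a - p)), D.symm_apply_apply,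
        map_sub L.symm (D.symm (b - q)) (a - p)]
      change L.symm (D.symm (b - q)) = _
      abel
    rw [e1]
    refine (norm_add_le _ _).trans ?_
    have e2 := symm_quad (L := L) (D := D) (r := b - q - D (a - p)) (R := Q * ‖a - p‖ ^ 2) h1 hQ hD
    rw [← hLi] at e2
    have e3 : Li * (Q * (Q * ‖a - p‖ ^ 2)) ≤ Q ^ 2 * C ^ 2 * σ * ε := by
      calc Li * (Q * (Q * ‖a - p‖ ^ 2)) ≤ Li * (Q * (Q * (Ln * (C * ε)) ^ 2)) := by gcongr
        _ = Q ^ 2 * C ^ 2 * (Li * Ln ^ 2 * ε) * ε := by ring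
        _ ≤ Q ^ 2 * C ^ 2 * σ * ε := by gcongr
    calc _ ≤ C * ε + Q ^ 2 * C ^ 2 * σ * ε := add_le_add h.1 (e2.trans e3)
      _ = _ := by ring
  · have e1 : ((L.trans D).symm : E n →L[ℝ] E n) ∘L (F ∘L A') - (ContinuousLinearMap.id ℝ (E n)) =
        ((L.symm : E n →L[ℝ] E n) ∘L A' - (ContinuousLinearMap.id ℝ (E n))) +
          (L.symm : E n →L[ℝ] E n) ∘L ((D.symm : E n →L[ℝ] E n) ∘L
            ((F - (D : E n →L[ℝ] E n)) ∘L A')) := by
      ext1 v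
      simp only [ContinuousLinearMap.sub_apply, ContinuousLinearMap.add_apply,
        ContinuousLinearMap.comp_apply, ContinuousLinearEquiv.coe_coe, map_sub,
        ContinuousLinearMap.id_apply, ContinuousLinearEquiv.symm_apply_apply]
      change L.symm (D.symm (F (A' v))) - v = _
      abel
    rw [e1]
    refine (norm_add_le _ _).trans ?_
    have e2 : ‖(L.symm : E n →L[ℝ] E n) ∘L ((D.symm : E n →L[ℝ] E n) ∘L
            ((F - (D : E n →L[ℝ] E n)) ∘L A'))‖ ≤ Q ^ 2 * C * (1 + θ) * σ := by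
      calc _ ≤ Li * ‖(D.symm : E n →L[ℝ] E n) ∘L ((F - (D : E n →L[ℝ] E n)) ∘L A')‖ := by
            rw [hLi]; exact ContinuousLinearMap.opNorm_comp_le _ _
        _ ≤ Li * (‖(D.symm : E n →L[ℝ] E n)‖ * ‖(F - (D : E n →L[ℝ] E n)) ∘L A'‖) := by
            gcongr
            exact ContinuousLinearMap.opNorm_comp_le _ _
        _ ≤ Li * (‖(D.symm : E n →L[ℝ] E n)‖ * (‖F - (D : E n →L[ℝ] E n)‖ * ‖A'‖)) := by
            gcongr
            exact ContinuousLinearMap.opNorm_comp_le _ _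
        _ ≤ Li * (Q * ((Q * (Ln * (C * ε))) * (Ln * (1 + θ)))) := by
            gcongr
            exact h2.trans (by gcongr)
        _ = Q ^ 2 * C * (1 + θ) * (Li * Ln ^ 2 * ε) := by ring
        _ ≤ Q ^ 2 * C * (1 + θ) * σ := by gcongr
    exact add_le_add h.2 e2

/-- almost affine maps in other coordinates of the target -/
lemma AA.change {h μ : E n → E n} {z : E n} {L D : E n ≃L[ℝ] E n} {ε η Q σ : ℝ}
    (hA : AA h z ε L η) (hε : 0 ≤ ε) (hη : 0 ≤ η) (hQ : 0 ≤ Q)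
    (hD : ‖(D.symm : E n →L[ℝ] E n)‖ ≤ Q)
    (h1 : ∀ a, ‖a - h z‖ ≤ ‖(L : E n →L[ℝ] E n)‖ * ((1 + η) * ε) →
      ‖μ a - μ (h z) - D (a - h z)‖ ≤ Q * ‖a - h z‖ ^ 2) (hσ : sg L ε ≤ σ) :
    AA (fun y => μ (h y)) z ε (L.trans D) (η + Q ^ 2 * (1 + η) ^ 2 * σ) := by
  intro y hy
  beta_reduce
  have h0 : ‖L.symm (h (z + y) - h z)‖ ≤ (1 + η) * ε := by
    calc ‖L.symm (h (z + y) - h z)‖ = ‖(L.symm (h (z + y) - h z) - y) + y‖ := by
          rw [sub_add_cancel]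
      _ ≤ ‖L.symm (h (z + y) - h z) - y‖ + ‖y‖ := norm_add_le _ _
      _ ≤ η * ε + ε := add_le_add (hA y hy) hy
      _ = (1 + η) * ε := by ring
  have h2 := norm_sub_le_of_Nr h0
  have h3 := h1 _ h2
  obtain ⟨Li, hLi⟩ : ∃ Li, Li = ‖(L.symm : E n →L[ℝ] E n)‖ := ⟨_, rfl⟩
  obtain ⟨Ln, hLn⟩ : ∃ Ln, Ln = ‖(L : E n →L[ℝ] E n)‖ := ⟨_, rfl⟩
  have hLi0 : 0 ≤ Li := by rw [hLi]; exact norm_nonneg _
  have hLn0 : 0 ≤ Ln := by rw [hLn]; exact norm_nonneg _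
  have hσ' : Li * Ln ^ 2 * ε ≤ σ := by rw [hLi, hLn]; exact hσ
  rw [← hLn] at h2
  obtain ⟨a, ha⟩ : ∃ a, a = h (z + y) := ⟨_, rfl⟩
  rw [← ha] at h0 h2 h3 ⊢
  have e1 : (L.trans D).symm (μ a - μ (h z)) - y =
      (L.symm (a - h z) - y) + L.symm (D.symm (μ a - μ (h z) - D (a - h z))) := by
    rw [map_sub D.symm (μ a - μ (h z)) (D (a - h z)), D.symm_apply_apply,
      map_sub L.symm (D.symm (μ a - μ (h z))) (a - h z)]
    change L.symm (D.symm (μ a - μ (h z))) - y = _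
    abel
  rw [e1]
  refine (norm_add_le _ _).trans ?_
  have e2 := symm_quad (L := L) (D := D) (r := μ a - μ (h z) - D (a - h z))
    (R := Q * ‖a - h z‖ ^ 2) h3 hQ hD
  rw [← hLi] at e2
  have e3 : Li * (Q * (Q * ‖a - h z‖ ^ 2)) ≤ Q ^ 2 * (1 + η) ^ 2 * σ * ε := by
    calc Li * (Q * (Q * ‖a - h z‖ ^ 2)) ≤ Li * (Q * (Q * (Ln * ((1 + η) * ε)) ^ 2)) := by gcongr
      _ = Q ^ 2 * (1 + η) ^ 2 * (Li * Ln ^ 2 * ε) * ε := by ring
      _ ≤ Q ^ 2 * (1 + η) ^ 2 * σ * ε := by gcongr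
  have e4 := hA y hy
  rw [← ha] at e4
  calc _ ≤ η * ε + Q ^ 2 * (1 + η) ^ 2 * σ * ε := add_le_add e4 (e2.trans e3)
    _ = _ := by ring

/-- interpolation -/
lemma Nr.interp {L : E n ≃L[ℝ] E n} {ε C θ t τ : ℝ} {p a b : E n} {A' B' : E n →L[ℝ] E n}
    {T : E n →L[ℝ] ℝ} (h : Nr L ε p a A' C θ) (h' : Nr L ε p b B' C θ) (hε : 0 ≤ ε) (hC : 0 ≤ C)
    (ht0 : 0 ≤ t) (ht1 : t ≤ 1) (hT : ‖T‖ ≤ τ) :
    Nr L ε p (a + t • (b - a)) (A' + t • (B' - A') + T.smulRight (b - a)) C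
      (θ + 2 * C * ε * τ) := by
  constructor
  · have e1 : L.symm (a + t • (b - a) - p) = (1 - t) • L.symm (a - p) + t • L.symm (b - p) := by
      rw [← map_smul, ← map_smul, ← map_add]
      congr 1
      rw [sub_smul, one_smul, smul_sub, smul_sub, smul_sub]
      abel
    rw [e1]
    refine (norm_add_le _ _).trans ?_
    rw [norm_smul, norm_smul, Real.norm_of_nonneg ht0, Real.norm_of_nonneg (by linarith)]
    have h1t : 0 ≤ 1 - t := by linarith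
    calc (1 - t) * ‖L.symm (a - p)‖ + t * ‖L.symm (b - p)‖ ≤ (1 - t) * (C * ε) + t * (C * ε) :=
          add_le_add (mul_le_mul_of_nonneg_left h.1 h1t) (mul_le_mul_of_nonneg_left h'.1 ht0)
      _ = C * ε := by ring
  · have e1 : (L.symm : E n →L[ℝ] E n) ∘L (A' + t • (B' - A') + T.smulRight (b - a)) - (ContinuousLinearMap.id ℝ (E n)) =
        ((1 - t) • ((L.symm : E n →L[ℝ] E n) ∘L A' - (ContinuousLinearMap.id ℝ (E n))) +
          t • ((L.symm : E n →L[ℝ] E n) ∘L B' - (ContinuousLinearMap.id ℝ (E n)))) +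
        T.smulRight (L.symm (b - a)) := by
      ext1 v
      simp only [ContinuousLinearMap.sub_apply, ContinuousLinearMap.add_apply,
        ContinuousLinearMap.comp_apply, ContinuousLinearEquiv.coe_coe, map_sub, map_add,
        ContinuousLinearMap.smul_apply, ContinuousLinearMap.smulRight_apply, map_smul,
        ContinuousLinearMap.id_apply]
      module
    rw [e1]
    refine (norm_add_le _ _).trans ?_
    have e2 : ‖T.smulRight (L.symm (b - a))‖ ≤ τ * (2 * C * ε) := by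
      rw [ContinuousLinearMap.norm_smulRight_apply]
      have e3 : ‖L.symm (b - a)‖ ≤ 2 * C * ε := by
        have e4 : L.symm (b - a) = L.symm (b - p) - L.symm (a - p) := by
          rw [← map_sub]
          congr 1
          abel
        rw [e4]
        refine (norm_sub_le _ _).trans ?_
        linarith [h.1, h'.1]
      exact mul_le_mul hT e3 (norm_nonneg _) ((norm_nonneg _).trans hT)
    have e5 : ‖(1 - t) • ((L.symm : E n →L[ℝ] E n) ∘L A' - (ContinuousLinearMap.id ℝ (E n))) +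
          t • ((L.symm : E n →L[ℝ] E n) ∘L B' - (ContinuousLinearMap.id ℝ (E n)))‖ ≤ θ := by
      refine (norm_add_le _ _).trans ?_
      rw [norm_smul, norm_smul, Real.norm_of_nonneg ht0, Real.norm_of_nonneg (by linarith)]
      have h1t : 0 ≤ 1 - t := by linarith
      calc _ ≤ (1 - t) * θ + t * θ :=
            add_le_add (mul_le_mul_of_nonneg_left h.2 h1t) (mul_le_mul_of_nonneg_left h'.2 ht0)
        _ = θ := by ring
    linarith

end Run7.h60.Sc
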