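import Pool.Agent.Run7.h60.AALoc
import Pool.Agent.R765.CStageR

/-!
# Almost affine maps at small scales: modification in one box
-/

set_option autoImplicit false

open Set Filter Topology Metric Function MeasureTheory
open scoped Manifold ContDiff

noncomputable section

namespace Run7.h60.Sc

open Pool.Agent.Y522 Pool.Agent.R765 Pool.Agent.Y954.SH

/-- Modification of a map to a manifold in a coordinate system of the target. -/
theorem glueSeg {n : ℕ} {X Y : Type} [TopologicalSpace X] [TopologicalSpace Y]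
    [ChartedSpace (E n) Y]
    (f₀ : C(X, Y)) (C : Set X) (V : Set Y) (B : Y → E n) (F' : X → E n)
    (hC : IsClosed C) (hV : IsOpen V)
    (hBi : InjOn B V) (hBd : ∀ y ∈ V, LD n B y) (hCV : ∀ x ∈ C, f₀ x ∈ V)
    (hF'c : ∀ x, f₀ x ∈ V → ContinuousAt F' x) (hF'C : ∀ x, x ∉ C → F' x = B (f₀ x))
    (hseg : ∀ x ∈ C, ∀ s : unitInterval, ∃ y ∈ V, B y = B (f₀ x) + (s : ℝ) • (F' x - B (f₀ x))) :
    ∃ f' : C(X, Y), (∀ x, x ∉ C → f' x = f₀ x) ∧ (∀ x, f₀ x ∈ V → f' x ∈ V ∧ B (f' x) = F' x) ∧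
      ∀ O : Set (X × Y), (∀ x, (x, f₀ x) ∈ O) → (∀ x ∈ C, ∀ s : unitInterval, ∃ y ∈ V,
        B y = B (f₀ x) + (s : ℝ) • (F' x - B (f₀ x)) ∧ (x, y) ∈ O) → HomRel O C f₀ f' := by
  classical
  rcases isEmpty_or_nonempty Y with hY | hY
  · have hX : IsEmpty X := ⟨fun x => hY.elim (f₀ x)⟩
    exact ⟨f₀, fun x => hX.elim x, fun x => hX.elim x, fun O h _ => HomRel.refl h⟩
  obtain ⟨f, hff⟩ : ∃ f : X → Y, f = f₀ := ⟨_, rfl⟩
  have hf : Continuous f := by rw [hff]; exact f₀.continuous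
  rw [← hff] at hCV hF'c hF'C hseg
  obtain ⟨W, hWd⟩ : ∃ W : Set X, W = f ⁻¹' V := ⟨_, rfl⟩
  have hmW : ∀ x, x ∈ W ↔ f x ∈ V := fun x => by rw [hWd]; rfl
  have hWo : IsOpen W := by rw [hWd]; exact hV.preimage hf
  have hCW : C ⊆ W := fun x hx => (hmW x).2 (hCV x hx)
  obtain ⟨F, hFd⟩ : ∃ F : X → E n, F = fun x => B (f x) := ⟨_, rfl⟩
  have hFx : ∀ x, F x = B (f x) := fun x => by rw [hFd]
  have hFca : ∀ x ∈ W, ContinuousAt F x := by
    intro x hxW
    rw [hFd]
    exact ContinuousAt.comp (hBd _ ((hmW x).1 hxW)).continuousAt hf.continuousAt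
  obtain ⟨β, hβd⟩ : ∃ β : E n → Y, β = invFunOn B V := ⟨_, rfl⟩
  have hβ : ∀ y ∈ V, β (B y) = y := by
    intro y hy
    rw [hβd]
    exact hBi.leftInvOn_invFunOn hy
  have hβL : ∀ y ∈ V, LD n β (B y) := fun y hy => LD.inverse hV hBd hβ hy
  have hF'Cx : ∀ x, x ∉ C → F' x = F x := fun x hx => by rw [hF'C x hx, hFx]
  have hHV : ∀ q : unitInterval × X, q.2 ∈ W →
      ∃ y ∈ V, B y = F q.2 + (q.1 : ℝ) • (F' q.2 - F q.2) := by
    intro q hq
    by_cases hqC : q.2 ∈ C
    · obtain ⟨y, hy, hyB⟩ := hseg q.2 hqC q.1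
      exact ⟨y, hy, by rw [hyB, hFx]⟩
    · rw [hF'Cx q.2 hqC, sub_self, smul_zero, add_zero, hFx]
      exact ⟨f q.2, (hmW _).1 hq, rfl⟩
  have e1 : ((1 : unitInterval) : ℝ) = 1 := rfl
  have e0 : ((0 : unitInterval) : ℝ) = 0 := rfl
  obtain ⟨f', hf'd⟩ : ∃ f' : X → Y, f' = fun x => if x ∈ C then β (F' x) else f x := ⟨_, rfl⟩
  have h'C : ∀ x, x ∉ C → f' x = f x := fun x hx => by rw [hf'd]; exact if_neg hx
  have h'C' : ∀ x, x ∈ C → f' x = β (F' x) := fun x hx => by rw [hf'd]; exact if_pos hx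
  have hF'V : ∀ x ∈ W, ∃ y ∈ V, F' x = B y ∧ f' x = y := by
    intro x hxW
    by_cases hxC : x ∈ C
    · obtain ⟨y, hy, hyF⟩ := hHV (1, x) hxW
      have hyF' : B y = F' x := by
        rw [hyF]
        change F x + ((1 : unitInterval) : ℝ) • (F' x - F x) = F' x
        rw [e1, one_smul, add_sub_cancel]
      refine ⟨y, hy, hyF'.symm, ?_⟩
      rw [h'C' x hxC, ← hyF', hβ y hy]
    · exact ⟨f x, (hmW x).1 hxW, by rw [hF'Cx x hxC, hFx], h'C x hxC⟩
  have hF'B : ∀ x ∈ W, B (f' x) = F' x := by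
    intro x hxW
    obtain ⟨y, hy, h1, h2⟩ := hF'V x hxW
    rw [h2, h1]
  have hF'β : ∀ x ∈ W, f' x = β (F' x) := by
    intro x hxW
    obtain ⟨y, hy, h1, h2⟩ := hF'V x hxW
    rw [h2, h1, hβ y hy]
  have hf'V : ∀ x ∈ W, f' x ∈ V := by
    intro x hxW
    obtain ⟨y, hy, h1, h2⟩ := hF'V x hxW
    rw [h2]
    exact hy
  have hβF : ∀ x ∈ W, LD n β (F' x) := by
    intro x hxW
    rw [← hF'B x hxW]
    exact hβL _ (hf'V x hxW)
  have hevW : ∀ x ∈ W, f' =ᶠ[𝓝 x] fun y => β (F' y) := by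
    intro x hxW
    filter_upwards [hWo.mem_nhds hxW] with y hy
    exact hF'β y hy
  have hevC : ∀ x, x ∉ C → f' =ᶠ[𝓝 x] f := by
    intro x hxC
    filter_upwards [hC.isOpen_compl.mem_nhds hxC] with y hy
    exact h'C y hy
  have hnC : ∀ x, x ∉ W → x ∉ C := fun x hxW hxC => hxW (hCW hxC)
  obtain ⟨H, hHd⟩ : ∃ H : unitInterval × X → Y, H = fun q =>
      if q.2 ∈ C then β (F q.2 + (q.1 : ℝ) • (F' q.2 - F q.2)) else f q.2 := ⟨_, rfl⟩
  have hHC : ∀ q : unitInterval × X, q.2 ∈ C →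
      H q = β (F q.2 + (q.1 : ℝ) • (F' q.2 - F q.2)) := fun q hq => by rw [hHd]; exact if_pos hq
  have hHn : ∀ q : unitInterval × X, q.2 ∉ C → H q = f q.2 :=
    fun q hq => by rw [hHd]; exact if_neg hq
  have hHW : ∀ q : unitInterval × X, q.2 ∈ W →
      H q = β (F q.2 + (q.1 : ℝ) • (F' q.2 - F q.2)) := by
    intro q hq
    by_cases hqC : q.2 ∈ C
    · exact hHC q hqC
    · rw [hHn q hqC, hF'Cx q.2 hqC, sub_self, smul_zero, add_zero, hFx, hβ _ ((hmW _).1 hq)]
  have hHc : Continuous H := by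
    rw [continuous_iff_continuousAt]
    rintro ⟨s, x⟩
    by_cases hxW : x ∈ W
    · have h1 : H =ᶠ[𝓝 (s, x)] fun q => β (F q.2 + (q.1 : ℝ) • (F' q.2 - F q.2)) := by
        filter_upwards [(hWo.preimage continuous_snd).mem_nhds
          (show (s, x) ∈ Prod.snd ⁻¹' W from hxW)] with q hq
        exact hHW q hq
      rw [continuousAt_congr h1]
      obtain ⟨y, hy, hyF⟩ := hHV (s, x) hxW
      have h2 : ContinuousAt β (F x + (s : ℝ) • (F' x - F x)) := by
        change B y = F x + (s : ℝ) • (F' x - F x) at hyF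
        rw [← hyF]
        exact (hβL y hy).continuousAt
      have h3 : ContinuousAt (fun q : unitInterval × X => F q.2) (s, x) :=
        ContinuousAt.comp (g := F) (hFca x hxW) continuousAt_snd
      have h4 : ContinuousAt (fun q : unitInterval × X => F' q.2) (s, x) :=
        ContinuousAt.comp (g := F') (hF'c x ((hmW x).1 hxW)) continuousAt_snd
      have h5 : ContinuousAt (fun q : unitInterval × X => (q.1 : ℝ)) (s, x) :=
        (continuous_subtype_val.comp continuous_fst).continuousAt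
      exact ContinuousAt.comp (g := β)
        (f := fun q : unitInterval × X => F q.2 + (q.1 : ℝ) • (F' q.2 - F q.2)) h2
        (h3.add (h5.smul (h4.sub h3)))
    · have h1 : H =ᶠ[𝓝 (s, x)] fun q => f q.2 := by
        filter_upwards [(hC.isOpen_compl.preimage continuous_snd).mem_nhds
          (show (s, x) ∈ Prod.snd ⁻¹' Cᶜ from hnC x hxW)] with q hq
        exact hHn q hq
      rw [continuousAt_congr h1]
      exact (hf.comp continuous_snd).continuousAt
  have hf'c : Continuous f' := by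
    rw [continuous_iff_continuousAt]
    intro x
    by_cases hxW : x ∈ W
    · rw [continuousAt_congr (hevW x hxW)]
      exact ContinuousAt.comp (g := β) (hβF x hxW).continuousAt (hF'c x ((hmW x).1 hxW))
    · rw [continuousAt_congr (hevC x (hnC x hxW))]
      exact hf.continuousAt
  refine ⟨⟨f', hf'c⟩, fun x hx => ?_, fun x hx => ?_, fun O hO hOs => ?_⟩
  · change f' x = f₀ x
    rw [h'C x hx, hff]
  · rw [← hff] at hx
    exact ⟨hf'V x ((hmW x).2 hx), hF'B x ((hmW x).2 hx)⟩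
  · rw [← hff] at hOs hO
    refine HomRel.of_fun H hHc (fun x => ?_) (fun x => ?_) (fun s x => ?_)
      (fun s x hxC => by rw [← hff]; exact hHn (s, x) hxC)
    · rw [← hff]
      by_cases hxC : x ∈ C
      · rw [hHC (0, x) hxC]
        change β (F x + (((0 : unitInterval) : ℝ)) • (F' x - F x)) = f x
        rw [e0, zero_smul, add_zero, hFx, hβ _ ((hmW x).1 (hCW hxC))]
      · exact hHn (0, x) hxC
    · change H (1, x) = f' x
      by_cases hxC : x ∈ C
      · rw [hHC (1, x) hxC, h'C' x hxC]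
        change β (F x + (((1 : unitInterval) : ℝ)) • (F' x - F x)) = β (F' x)
        rw [e1, one_smul, add_sub_cancel]
      · rw [hHn (1, x) hxC, h'C x hxC]
    · by_cases hxC : x ∈ C
      · rw [hHC (s, x) hxC]
        obtain ⟨y, hy, hyB, hyO⟩ := hOs x hxC s
        change (x, β (F x + (s : ℝ) • (F' x - F x))) ∈ O
        rw [hFx, ← hyB, hβ y hy]
        exact hyO
      · rw [hHn (s, x) hxC]
        exact hO x

/-- mollification is close to the map -/
lemma mo_close {n : ℕ} {g : E n → E n} {ε e : ℝ} (hε : 0 < ε) {w : E n}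
    (hg : ContinuousOn g (closedBall w (2 * ε)))
    (he : ∀ y : E n, ‖y‖ ≤ ε → ‖g (w + y) - g w‖ ≤ e) : ‖mo g ε w - g w‖ ≤ e := by
  have hgc : ContinuousOn (fun s : E n => g (w + ε • s)) (closedBall 0 1) := by
    apply hg.comp (by fun_prop)
    intro s hs
    rw [mem_closedBall_zero_iff] at hs
    rw [mem_closedBall, dist_eq_norm, add_sub_cancel_left, norm_smul, Real.norm_of_nonneg hε.le]
    nlinarith
  have i1 : Integrable (fun s : E n => kr n s • g (w + ε • s)) := by
    have e1 : (fun s : E n => kr n s • g (w + ε • s)) =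
        (closedBall (0 : E n) 1).indicator (fun s => kr n s • g (w + ε • s)) := by
      funext s
      by_cases hs : s ∈ closedBall (0 : E n) 1
      · rw [indicator_of_mem hs]
      · rw [indicator_of_notMem hs]
        rw [mem_closedBall_zero_iff, not_le] at hs
        rw [kr_zero hs.le, zero_smul]
    rw [e1, integrable_indicator_iff measurableSet_closedBall]
    apply ContinuousOn.integrableOn_compact (isCompact_closedBall _ _)
    exact (kr_smooth.continuous.continuousOn).smul hgc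
  have i2 : Integrable (fun s : E n => kr n s • g w) := kr_integrable.smul_const _
  have h1 : mo g ε w - g w = ∫ s, kr n s • (g (w + ε • s) - g w) := by
    simp only [smul_sub]
    rw [integral_sub i1 i2, integral_smul_const, kr_int, one_smul]
    rfl
  rw [h1]
  have h3 : ‖∫ s, kr n s • (g (w + ε • s) - g w)‖ ≤ ∫ s, kr n s * e := by
    apply norm_integral_le_of_norm_le (kr_integrable.mul_const _)
    apply Eventually.of_forall
    intro s
    rw [norm_smul, Real.norm_of_nonneg (kr_nonneg s)]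
    by_cases hs : kr n s = 0
    · rw [hs]; simp
    · have hs1 := (kr_lt hs).le
      have e0 : ‖ε • s‖ ≤ ε := by
        rw [norm_smul, Real.norm_of_nonneg hε.le]
        nlinarith
      exact mul_le_mul_of_nonneg_left (he _ e0) (kr_nonneg s)
  rwa [integral_mul_const, kr_int, one_mul] at h3

/-- uniformly on compact balls -/
lemma mo_close_unif {n : ℕ} {ε : ℕ → ℝ} (hε : ∀ m, 0 < ε m) (hε0 : Tendsto ε atTop (𝓝 0))
    {g : E n → E n} {r : ℝ} (hr : 0 < r) (hg : ContinuousOn g (closedBall 0 (2 * r))) {e : ℝ}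
    (he : 0 < e) : ∀ᶠ m in atTop, ∀ z ∈ closedBall (0 : E n) (3 / 2 * r),
      ContinuousOn g (closedBall z (2 * ε m)) ∧ ContDiffAt ℝ ∞ (mo g (ε m)) z ∧
        ‖mo g (ε m) z - g z‖ ≤ e := by
  have h1 := (isCompact_closedBall (0 : E n) (2 * r)).uniformContinuousOn_of_continuous hg
  rw [Metric.uniformContinuousOn_iff] at h1
  obtain ⟨δ, hδ, h2⟩ := h1 e he
  have h3 : ∀ᶠ m in atTop, ε m < min (δ / 2) (r / 4) :=
    hε0.eventually_lt_const (by positivity)
  filter_upwards [h3] with m hm z hz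
  rw [lt_min_iff] at hm
  rw [mem_closedBall_zero_iff] at hz
  have hsub : closedBall z (2 * ε m) ⊆ closedBall 0 (2 * r) := by
    intro w hw
    rw [mem_closedBall, dist_eq_norm] at hw
    rw [mem_closedBall_zero_iff]
    calc ‖w‖ = ‖(w - z) + z‖ := by rw [sub_add_cancel]
      _ ≤ ‖w - z‖ + ‖z‖ := norm_add_le _ _
      _ ≤ 2 * (r / 4) + 3 / 2 * r := by
          refine add_le_add (hw.trans ?_) hz
          linarith [hm.2]
      _ = 2 * r := by ring
  have hc := hg.mono hsub
  refine ⟨hc, mo_smooth (hε m) hc, mo_close (hε m) hc fun y hy => ?_⟩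
  have h4 := h2 (z + y) (hsub (by
    rw [mem_closedBall, dist_eq_norm, add_sub_cancel_left]
    linarith [hε m])) z (hsub (mem_closedBall_self (by linarith [hε m]))) (by
    rw [dist_eq_norm, add_sub_cancel_left]
    linarith [hm.1])
  rw [dist_eq_norm] at h4
  exact h4.le

end Run7.h60.Sc
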