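import Pool.Agent.Run7.h60.AACmp
import Pool.Agent.Y207.SH.MStepA

/-!
# Almost affine maps at small scales: local statements near a point
-/

set_option autoImplicit false

open Set Filter Topology Metric Function MeasureTheory
open scoped Manifold ContDiff

noncomputable section

namespace Run7.h60.Sc

open Pool.Agent.Y522

variable {n : ℕ}


/-- the derivative as an equivalence -/
def Dq (μ : E n → E n) (y : E n) : E n ≃L[ℝ] E n := by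
  classical
  exact if h : ∃ A : E n ≃L[ℝ] E n, (A : E n →L[ℝ] E n) = fderiv ℝ μ y then h.choose
    else ContinuousLinearEquiv.refl ℝ (E n)

lemma Dq_coe {μ : E n → E n} {y : E n} (h : LD n μ y) :
    (Dq μ y : E n →L[ℝ] E n) = fderiv ℝ μ y := by
  have h1 : ∃ A : E n ≃L[ℝ] E n, (A : E n →L[ℝ] E n) = fderiv ℝ μ y := by
    obtain ⟨A, hA⟩ := h.exists_equiv
    exact ⟨A, hA.fderiv.symm⟩
  unfold Dq
  rw [dif_pos h1]
  exact h1.choose_spec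

/-- second order estimates for a local diffeomorphism -/
lemma quad {μ : E n → E n} {y₀ : E n} (h : LD n μ y₀) :
    ∃ Q ρ : ℝ, 1 ≤ Q ∧ 0 < ρ ∧ ∀ p ∈ ball y₀ ρ, LD n μ p ∧ ‖(Dq μ p : E n →L[ℝ] E n)‖ ≤ Q ∧
      ‖((Dq μ p).symm : E n →L[ℝ] E n)‖ ≤ Q ∧ ∀ a ∈ ball y₀ ρ,
        ‖μ a - μ p - Dq μ p (a - p)‖ ≤ Q * ‖a - p‖ ^ 2 ∧
        ‖fderiv ℝ μ a - (Dq μ p : E n →L[ℝ] E n)‖ ≤ Q * ‖a - p‖ := by
  have hc1 : ContDiffAt ℝ 1 (fderiv ℝ μ) y₀ :=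
    (h.contDiffAt.fderiv_right (m := ∞) (by simp)).of_le (by simp)
  obtain ⟨K, t, ht, hK⟩ := hc1.exists_lipschitzOnWith
  have hcont : ContinuousAt (fderiv ℝ μ) y₀ := hc1.continuousAt
  obtain ⟨A₀, hA₀⟩ := h.exists_equiv
  have hinv : ContinuousAt (fun p => (fderiv ℝ μ p).inverse) y₀ := by
    have h1 : ContinuousAt (ContinuousLinearMap.inverse : (E n →L[ℝ] E n) → (E n →L[ℝ] E n))
        (fderiv ℝ μ y₀) := by
      rw [hA₀.fderiv]
      exact (contDiffAt_map_inverse (n := 0) A₀).continuousAt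
    exact ContinuousAt.comp (f := fderiv ℝ μ) h1 hcont
  have h2 : ∀ᶠ p in 𝓝 y₀, ‖fderiv ℝ μ p‖ ≤ ‖fderiv ℝ μ y₀‖ + 1 :=
    hcont.norm.eventually_le_const (by linarith)
  have h3 : ∀ᶠ p in 𝓝 y₀, ‖(fderiv ℝ μ p).inverse‖ ≤ ‖(fderiv ℝ μ y₀).inverse‖ + 1 :=
    hinv.norm.eventually_le_const (by linarith)
  obtain ⟨ρ, hρ, hb⟩ := Metric.eventually_nhds_iff_ball.1
    (h.eventually.and (h2.and (h3.and ht)))
  obtain ⟨Q, hQd⟩ : ∃ Q, Q = max (max 1 (K : ℝ)) (max (‖fderiv ℝ μ y₀‖ + 1)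
    (‖(fderiv ℝ μ y₀).inverse‖ + 1)) := ⟨_, rfl⟩
  have hQ1 : 1 ≤ Q := by rw [hQd]; exact (le_max_left _ _).trans (le_max_left _ _)
  have hQ2 : (K : ℝ) ≤ Q := by rw [hQd]; exact (le_max_right _ _).trans (le_max_left _ _)
  have hQ3 : ‖fderiv ℝ μ y₀‖ + 1 ≤ Q := by
    rw [hQd]; exact (le_max_left _ _).trans (le_max_right _ _)
  have hQ4 : ‖(fderiv ℝ μ y₀).inverse‖ + 1 ≤ Q := by
    rw [hQd]; exact (le_max_right _ _).trans (le_max_right _ _)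
  refine ⟨Q, ρ, hQ1, hρ, fun p hp => ?_⟩
  obtain ⟨g1, g2, g3, g4⟩ := hb p hp
  have hDp := Dq_coe g1
  refine ⟨g1, ?_, ?_, fun a ha => ?_⟩
  · rw [hDp]
    exact g2.trans hQ3
  · have e1 : ((Dq μ p).symm : E n →L[ℝ] E n) = (fderiv ℝ μ p).inverse := by
      rw [← hDp, ContinuousLinearMap.inverse_equiv]
    rw [e1]
    exact g3.trans hQ4
  · have hlip : ∀ x ∈ ball y₀ ρ, ‖fderiv ℝ μ x - fderiv ℝ μ p‖ ≤ Q * ‖x - p‖ := by
      intro x hx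
      have := hK.dist_le_mul x (hb x hx).2.2.2 p g4
      rw [dist_eq_norm, dist_eq_norm] at this
      refine this.trans ?_
      gcongr
    refine ⟨?_, ?_⟩
    · have hseg : segment ℝ p a ⊆ ball y₀ ρ := (convex_ball _ _).segment_subset hp ha
      have h5 := (convex_segment p a).norm_image_sub_le_of_norm_hasFDerivWithin_le'
        (f := μ) (f' := fderiv ℝ μ) (φ := fderiv ℝ μ p) (C := Q * ‖a - p‖) (x := p) (y := a)
        (fun x hx => (((hb x (hseg hx)).1.contDiffAt.differentiableAt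
          (by simp)).hasFDerivAt).hasFDerivWithinAt)
        (fun x hx => by
          refine (hlip x (hseg hx)).trans ?_
          have : ‖x - p‖ ≤ ‖a - p‖ := by
            obtain ⟨s, s', hs, hs', hss, rfl⟩ := hx
            have e1 : s • p + s' • a - p = s' • (a - p) := by
              have e2 : s = 1 - s' := by linarith
              rw [e2, sub_smul, one_smul, smul_sub]
              abel
            rw [e1, norm_smul, Real.norm_of_nonneg hs']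
            calc s' * ‖a - p‖ ≤ 1 * ‖a - p‖ := by
                  gcongr
                  linarith
              _ = ‖a - p‖ := one_mul _
          gcongr) (left_mem_segment _ _ _) (right_mem_segment _ _ _)
      have e1 : Dq μ p (a - p) = fderiv ℝ μ p (a - p) := by rw [← hDp]; rfl
      rw [e1]
      refine h5.trans (le_of_eq ?_)
      ring
    · rw [hDp]
      exact hlip a ha

/-! ### Families -/

/-- `h` is almost affine near `z₀` at the scales `ε m`, `m → ∞` -/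
def AAF (ε : ℕ → ℝ) (h : E n → E n) (z₀ : E n) (η : ℝ) (L : E n × ℕ → (E n ≃L[ℝ] E n)) : Prop :=
  (∀ᶠ p in 𝓝 z₀ ×ˢ atTop, AA h p.1 (ε p.2) (L p) η) ∧
    Tendsto (fun p => sg (L p) (ε p.2)) (𝓝 z₀ ×ˢ atTop) (𝓝 0)

/-- the maps `G m` are smooth near `z₀` and close to `h` relative to `L` -/
def NrF (ε : ℕ → ℝ) (h : E n → E n) (z₀ : E n) (L : E n × ℕ → (E n ≃L[ℝ] E n))
    (G : ℕ → E n → E n) (C θ : ℝ) : Prop :=
  ∀ᶠ p in 𝓝 z₀ ×ˢ atTop, ContDiffAt ℝ ∞ (G p.2) p.1 ∧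
    Nr (L p) (ε p.2) (h p.1) (G p.2 p.1) (fderiv ℝ (G p.2) p.1) C θ

lemma norm_mul_le_sg (L : E n ≃L[ℝ] E n) {ε : ℝ} (hε : 0 ≤ ε) :
    ‖(L : E n →L[ℝ] E n)‖ * ε ≤ sg L ε := by
  unfold sg
  rcases subsingleton_or_nontrivial (E n) with h | h
  · have : (L : E n →L[ℝ] E n) = 0 := Subsingleton.elim _ _
    rw [this]
    simp
  · have h1 := L.one_le_norm_mul_norm_symm
    have h2 : 0 ≤ ‖(L : E n →L[ℝ] E n)‖ := norm_nonneg _
    calc ‖(L : E n →L[ℝ] E n)‖ * ε = 1 * (‖(L : E n →L[ℝ] E n)‖ * ε) := (one_mul _).symm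
      _ ≤ (‖(L : E n →L[ℝ] E n)‖ * ‖(L.symm : E n →L[ℝ] E n)‖) *
          (‖(L : E n →L[ℝ] E n)‖ * ε) := by gcongr
      _ = _ := by ring

lemma AA.mono {h : E n → E n} {z : E n} {ε η η' : ℝ} {L : E n ≃L[ℝ] E n} (hA : AA h z ε L η)
    (hε : 0 ≤ ε) (hη : η ≤ η') : AA h z ε L η' := fun y hy =>
  (hA y hy).trans (mul_le_mul_of_nonneg_right hη hε)

lemma AAF.small {ε : ℕ → ℝ} (hε : ∀ m, 0 < ε m) {h : E n → E n} {z₀ : E n} {η : ℝ}
    {L : E n × ℕ → (E n ≃L[ℝ] E n)} (hA : AAF ε h z₀ η L) :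
    Tendsto (fun p => ‖(L p : E n →L[ℝ] E n)‖ * ε p.2) (𝓝 z₀ ×ˢ atTop) (𝓝 0) := by
  refine squeeze_zero (fun p => ?_) (fun p => norm_mul_le_sg _ (hε _).le) hA.2
  have := (hε p.2).le
  positivity

lemma tendsto_val {h : E n → E n} {z₀ : E n} (hc : ContinuousAt h z₀) :
    Tendsto (fun p : E n × ℕ => h p.1) (𝓝 z₀ ×ˢ atTop) (𝓝 (h z₀)) :=
  hc.tendsto.comp tendsto_fst

lemma tendsto_scale {ε : ℕ → ℝ} (hε0 : Tendsto ε atTop (𝓝 0)) (z₀ : E n) :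
    Tendsto (fun p : E n × ℕ => ε p.2) (𝓝 z₀ ×ˢ atTop) (𝓝 0) := hε0.comp tendsto_snd

/-- the values of `G` are close to the values of `h` -/
lemma NrF.tendsto {ε : ℕ → ℝ} (hε : ∀ m, 0 < ε m) {h : E n → E n} {z₀ : E n} {η C θ : ℝ}
    {L : E n × ℕ → (E n ≃L[ℝ] E n)} {G : ℕ → E n → E n} (hA : AAF ε h z₀ η L)
    (hG : NrF ε h z₀ L G C θ) (hc : ContinuousAt h z₀) :
    Tendsto (fun p : E n × ℕ => G p.2 p.1) (𝓝 z₀ ×ˢ atTop) (𝓝 (h z₀)) := by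
  have h1 : Tendsto (fun p : E n × ℕ => G p.2 p.1 - h p.1) (𝓝 z₀ ×ˢ atTop) (𝓝 0) := by
    have h2 := (hA.small hε).const_mul C
    rw [mul_zero] at h2
    refine squeeze_zero_norm' ?_ h2
    filter_upwards [hG] with p hp
    have := norm_sub_le_of_Nr hp.2.1
    refine this.trans (le_of_eq ?_)
    ring
  have h3 := h1.add (tendsto_val hc)
  simpa using h3

/-- change of the coordinates of the target -/
lemma AAF.change {ε : ℕ → ℝ} (hε : ∀ m, 0 < ε m) {h μ : E n → E n} {z₀ : E n} {η η' : ℝ}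
    {L : E n × ℕ → (E n ≃L[ℝ] E n)} (hA : AAF ε h z₀ η L) (hη : 0 ≤ η) (hη' : η < η')
    (hc : ContinuousAt h z₀) (hμ : LD n μ (h z₀)) :
    AAF ε (fun z => μ (h z)) z₀ η' (fun p => (L p).trans (Dq μ (h p.1))) := by
  obtain ⟨Q, ρ, hQ1, hρ, hq⟩ := quad hμ
  have hQ0 : 0 ≤ Q := by linarith
  have e1 : ∀ᶠ p in 𝓝 z₀ ×ˢ atTop, h p.1 ∈ ball (h z₀) (ρ / 2) :=
    (tendsto_val hc).eventually (ball_mem_nhds _ (by linarith))
  have e2 : ∀ᶠ p in 𝓝 z₀ ×ˢ atTop, (1 + η) * (‖(L p : E n →L[ℝ] E n)‖ * ε p.2) < ρ / 2 := by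
    have := (hA.small hε).const_mul (1 + η)
    rw [mul_zero] at this
    exact this.eventually_lt_const (by linarith)
  have e3 : ∀ᶠ p in 𝓝 z₀ ×ˢ atTop,
      η + Q ^ 2 * (1 + η) ^ 2 * sg (L p) (ε p.2) < η' := by
    have := (hA.2.const_mul (Q ^ 2 * (1 + η) ^ 2)).const_add η
    rw [mul_zero, add_zero] at this
    exact this.eventually_lt_const hη'
  constructor
  · filter_upwards [e1, e2, e3, hA.1] with p h1 h2 h3 h4
    have hp := hq (h p.1) (ball_subset_ball (by linarith) h1)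
    refine AA.mono (AA.change h4 (hε _).le hη hQ0 hp.2.2.1 ?_ le_rfl) (hε _).le h3.le
    intro a ha
    refine (hp.2.2.2 a ?_).1
    rw [mem_ball, dist_eq_norm] at h1 ⊢
    calc ‖a - h z₀‖ = ‖(a - h p.1) + (h p.1 - h z₀)‖ := by congr 1; abel
      _ ≤ ‖a - h p.1‖ + ‖h p.1 - h z₀‖ := norm_add_le _ _
      _ < ρ / 2 + ρ / 2 := by
          refine add_lt_add_of_le_of_lt ?_ h1
          refine ha.trans (le_of_lt (lt_of_eq_of_lt ?_ h2))
          ring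
      _ = ρ := by ring
  · have h5 := hA.2.const_mul (Q * Q ^ 2)
    rw [mul_zero] at h5
    refine squeeze_zero' (Eventually.of_forall fun p => ?_) ?_ h5
    · unfold sg
      have := (hε p.2).le
      positivity
    · filter_upwards [e1] with p h1
      have hp := hq (h p.1) (ball_subset_ball (by linarith) h1)
      have hεp := (hε p.2).le
      have g1 : ‖((L p).trans (Dq μ (h p.1)) : E n →L[ℝ] E n)‖ ≤
          Q * ‖(L p : E n →L[ℝ] E n)‖ := by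
        have : ((L p).trans (Dq μ (h p.1)) : E n →L[ℝ] E n) =
          (Dq μ (h p.1) : E n →L[ℝ] E n) ∘L (L p : E n →L[ℝ] E n) := rfl
        rw [this]
        refine (ContinuousLinearMap.opNorm_comp_le _ _).trans ?_
        have := hp.2.1
        gcongr
      have g2 : ‖(((L p).trans (Dq μ (h p.1))).symm : E n →L[ℝ] E n)‖ ≤
          ‖((L p).symm : E n →L[ℝ] E n)‖ * Q := by
        have : (((L p).trans (Dq μ (h p.1))).symm : E n →L[ℝ] E n) =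
          ((L p).symm : E n →L[ℝ] E n) ∘L ((Dq μ (h p.1)).symm : E n →L[ℝ] E n) := rfl
        rw [this]
        refine (ContinuousLinearMap.opNorm_comp_le _ _).trans ?_
        have := hp.2.2.1
        gcongr
      unfold sg
      calc _ ≤ (‖((L p).symm : E n →L[ℝ] E n)‖ * Q) * (Q * ‖(L p : E n →L[ℝ] E n)‖) ^ 2 *
            ε p.2 := by gcongr
        _ = _ := by ring

lemma NrF.change {ε : ℕ → ℝ} (hε : ∀ m, 0 < ε m) {h μ : E n → E n} {z₀ : E n}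
    {η C C' θ θ' : ℝ} {L : E n × ℕ → (E n ≃L[ℝ] E n)} {G : ℕ → E n → E n}
    (hA : AAF ε h z₀ η L) (hG : NrF ε h z₀ L G C θ) (hC : 0 ≤ C) (hC' : C < C') (hθ : θ < θ')
    (hc : ContinuousAt h z₀) (hμ : LD n μ (h z₀)) :
    NrF ε (fun z => μ (h z)) z₀ (fun p => (L p).trans (Dq μ (h p.1)))
      (fun m z => μ (G m z)) C' θ' := by
  obtain ⟨Q, ρ, hQ1, hρ, hq⟩ := quad hμ
  have hQ0 : 0 ≤ Q := by linarith
  have e1 : ∀ᶠ p in 𝓝 z₀ ×ˢ atTop, h p.1 ∈ ball (h z₀) ρ :=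
    (tendsto_val hc).eventually (ball_mem_nhds _ hρ)
  have e2 : ∀ᶠ p in 𝓝 z₀ ×ˢ atTop, G p.2 p.1 ∈ ball (h z₀) ρ :=
    (hG.tendsto hε hA hc).eventually (ball_mem_nhds _ hρ)
  have e3 : ∀ᶠ p in 𝓝 z₀ ×ˢ atTop, C + Q ^ 2 * C ^ 2 * sg (L p) (ε p.2) < C' := by
    have := (hA.2.const_mul (Q ^ 2 * C ^ 2)).const_add C
    rw [mul_zero, add_zero] at this
    exact this.eventually_lt_const hC'
  have e4 : ∀ᶠ p in 𝓝 z₀ ×ˢ atTop, θ + Q ^ 2 * C * (1 + θ) * sg (L p) (ε p.2) < θ' := by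
    have := (hA.2.const_mul (Q ^ 2 * C * (1 + θ))).const_add θ
    rw [mul_zero, add_zero] at this
    exact this.eventually_lt_const hθ
  filter_upwards [e1, e2, e3, e4, hG] with p h1 h2 h3 h4 h5
  have hp := hq _ h1
  have hp2 := hq _ h2
  have hp3 := hp.2.2.2 _ h2
  have hd : fderiv ℝ (fun z => μ (G p.2 z)) p.1 =
      fderiv ℝ μ (G p.2 p.1) ∘L fderiv ℝ (G p.2) p.1 :=
    fderiv_comp (𝕜 := ℝ) (g := μ) (f := G p.2) p.1
      (hp2.1.contDiffAt.differentiableAt (by simp)) (h5.1.differentiableAt (by simp))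
  refine ⟨ContDiffAt.comp p.1 (g := μ) hp2.1.contDiffAt h5.1, ?_⟩
  rw [hd]
  exact (Nr.change h5.2 (hε _).le hC hQ0 hp.2.2.1 hp3.1 hp3.2 le_rfl).mono (hε _).le h3.le h4.le

lemma NrF.congr {ε : ℕ → ℝ} {h h' : E n → E n} {z₀ : E n} {C θ : ℝ}
    {L L' : E n × ℕ → (E n ≃L[ℝ] E n)} {G G' : ℕ → E n → E n} (hG : NrF ε h z₀ L G C θ)
    (hh : h =ᶠ[𝓝 z₀] h') (hL : ∀ᶠ p in 𝓝 z₀ ×ˢ atTop, L p = L' p)
    (hGG : ∀ᶠ p in 𝓝 z₀ ×ˢ atTop, G p.2 p.1 = G' p.2 p.1) : NrF ε h' z₀ L' G' C θ := by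
  have h1 : ∀ᶠ p : E n × ℕ in 𝓝 z₀ ×ˢ atTop, h p.1 = h' p.1 := tendsto_fst.eventually hh
  have h2 : ∀ᶠ p : E n × ℕ in 𝓝 z₀ ×ˢ atTop, G p.2 =ᶠ[𝓝 p.1] G' p.2 := by
    obtain ⟨P1, hP1, P2, hP2, hP⟩ := eventually_prod_iff.1 hGG
    have h3 : ∀ᶠ p : E n × ℕ in 𝓝 z₀ ×ˢ atTop, ∀ᶠ y in 𝓝 p.1, P1 y :=
      tendsto_fst.eventually (eventually_eventually_nhds.2 hP1)
    have h4 : ∀ᶠ p : E n × ℕ in 𝓝 z₀ ×ˢ atTop, P2 p.2 := tendsto_snd.eventually hP2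
    filter_upwards [h3, h4] with p g1 g2
    filter_upwards [g1] with y hy
    exact hP hy g2
  filter_upwards [hG, h1, h2, hL] with p g1 g2 g3 g4
  refine ⟨g1.1.congr_of_eventuallyEq g3.symm, ?_⟩
  rw [← g2, ← g4, ← g3.fderiv_eq, ← g3.self_of_nhds]
  exact g1.2

/-- interpolation -/
lemma NrF.interp {ε : ℕ → ℝ} (hε : ∀ m, 0 < ε m) (hε0 : Tendsto ε atTop (𝓝 0))
    {h : E n → E n} {z₀ : E n} {C θ θ' : ℝ}
    {L : E n × ℕ → (E n ≃L[ℝ] E n)} {G G' : ℕ → E n → E n} {t : E n → ℝ}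
    (hG : NrF ε h z₀ L G C θ) (hG' : NrF ε h z₀ L G' C θ) (hC : 0 ≤ C) (hθ : θ < θ')
    (ht : ∀ᶠ z in 𝓝 z₀, ContDiffAt ℝ ∞ t z) (ht0 : ∀ z, 0 ≤ t z) (ht1 : ∀ z, t z ≤ 1) :
    NrF ε h z₀ L (fun m z => G m z + t z • (G' m z - G m z)) C θ' := by
  have hc : ContinuousAt (fderiv ℝ t) z₀ :=
    (ht.self_of_nhds.fderiv_right (m := 0) (by simp)).continuousAt
  have e1 : ∀ᶠ z in 𝓝 z₀, ‖fderiv ℝ t z‖ ≤ ‖fderiv ℝ t z₀‖ + 1 :=
    hc.norm.eventually_le_const (by linarith)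
  have e3 : ∀ᶠ p : E n × ℕ in 𝓝 z₀ ×ˢ atTop,
      θ + 2 * C * ε p.2 * (‖fderiv ℝ t z₀‖ + 1) < θ' := by
    have := (((tendsto_scale hε0 z₀).const_mul (2 * C)).mul_const (‖fderiv ℝ t z₀‖ + 1)).const_add θ
    rw [mul_zero, zero_mul, add_zero] at this
    exact this.eventually_lt_const hθ
  filter_upwards [hG, hG', tendsto_fst.eventually e1, tendsto_fst.eventually ht, e3] with
    p g1 g2 g3 g4 g5
  have d1 := (g1.1.differentiableAt (by simp)).hasFDerivAt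
  have d2 := (g2.1.differentiableAt (by simp)).hasFDerivAt
  have d3 := (g4.differentiableAt (by simp)).hasFDerivAt
  have d4 := d1.add (d3.smul (d2.sub d1))
  refine ⟨g1.1.add (g4.smul (g2.1.sub g1.1)), ?_⟩
  have e4 : fderiv ℝ (fun z => G p.2 z + t z • (G' p.2 z - G p.2 z)) p.1 =
      fderiv ℝ (G p.2) p.1 + t p.1 • (fderiv ℝ (G' p.2) p.1 - fderiv ℝ (G p.2) p.1) +
        (fderiv ℝ t p.1).smulRight (G' p.2 p.1 - G p.2 p.1) := by
    have := d4.fderiv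
    rw [add_assoc]
    exact this
  rw [e4]
  exact (Nr.interp g1.2 g2.2 (hε _).le hC (ht0 _) (ht1 _) g3).mono (hε _).le le_rfl g5.le

lemma AAF.mono {ε : ℕ → ℝ} (hε : ∀ m, 0 < ε m) {h : E n → E n} {z₀ : E n} {η η' : ℝ}
    {L : E n × ℕ → (E n ≃L[ℝ] E n)} (hA : AAF ε h z₀ η L) (hη : η ≤ η') : AAF ε h z₀ η' L :=
  ⟨hA.1.mono fun _ hp => hp.mono (hε _).le hη, hA.2⟩

lemma NrF.mono {ε : ℕ → ℝ} (hε : ∀ m, 0 < ε m) {h : E n → E n} {z₀ : E n} {C C' θ θ' : ℝ}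
    {L : E n × ℕ → (E n ≃L[ℝ] E n)} {G : ℕ → E n → E n} (hG : NrF ε h z₀ L G C θ)
    (hC : C ≤ C') (hθ : θ ≤ θ') : NrF ε h z₀ L G C' θ' :=
  Eventually.mono hG fun _ hp => ⟨hp.1, hp.2.mono (hε _).le hC hθ⟩

/-- the mollification in other coordinates of the source -/
lemma NrF.source {ε : ℕ → ℝ} (hε : ∀ m, 0 < ε m) (hε0 : Tendsto ε atTop (𝓝 0))
    {h g lam : E n → E n} {z₀ : E n} {η K θ : ℝ}
    {L L' : E n × ℕ → (E n ≃L[ℝ] E n)} (hA : AAF ε h z₀ η L) (hA' : AAF ε g (lam z₀) η L')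
    (hη : 0 ≤ η) (hK : 1 ≤ K) (hlam : LD n lam z₀)
    (hlK : ∀ᶠ z in 𝓝 z₀, ‖(Dq lam z : E n →L[ℝ] E n)‖ ≤ K ∧
      ‖((Dq lam z).symm : E n →L[ℝ] E n)‖ ≤ K)
    (hgl : ∀ᶠ z in 𝓝 z₀, g (lam z) = h z) (hgc : ∀ᶠ w in 𝓝 (lam z₀), ContinuousAt g w)
    (h8 : 8 * K ^ 2 * η < 1) (hθ : (8 + 2 * kc n) * K ^ 2 * η < θ) :
    NrF ε h z₀ L (fun m z => mo g (ε m) (lam z)) (4 * K) θ := by
  obtain ⟨ζ, hζη, hζ8, hζθ⟩ : ∃ ζ, η < ζ ∧ 8 * K ^ 2 * ζ < 1 ∧ (8 + 2 * kc n) * K ^ 2 * ζ < θ := by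
    have c1 : ∀ᶠ ζ in 𝓝 η, 8 * K ^ 2 * ζ < 1 :=
      (Continuous.continuousAt (by fun_prop : Continuous fun ζ : ℝ => 8 * K ^ 2 * ζ)
        ).eventually_lt_const h8
    have c2 : ∀ᶠ ζ in 𝓝 η, (8 + 2 * kc n) * K ^ 2 * ζ < θ :=
      (Continuous.continuousAt (by fun_prop : Continuous fun ζ : ℝ => (8 + 2 * kc n) * K ^ 2 * ζ)
        ).eventually_lt_const hθ
    have c0 : ∀ᶠ ζ in 𝓝[>] η, η < ζ := self_mem_nhdsWithin
    obtain ⟨ζ, h1, h2, h3⟩ := (c0.and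
      ((c1.filter_mono nhdsWithin_le_nhds).and (c2.filter_mono nhdsWithin_le_nhds))).exists
    exact ⟨ζ, h1, h2, h3⟩
  obtain ⟨Q, ρ, hQ1, hρ, hq⟩ := quad hlam
  have hQ0 : 0 ≤ Q := by linarith
  obtain ⟨r, hr, hgl'⟩ := Metric.eventually_nhds_iff_ball.1 hgl
  obtain ⟨r', hr', hgc'⟩ := Metric.eventually_nhds_iff_ball.1 hgc
  have tl : Tendsto (fun p : E n × ℕ => (lam p.1, p.2)) (𝓝 z₀ ×ˢ atTop)
      (𝓝 (lam z₀) ×ˢ atTop) := (tendsto_val hlam.continuousAt).prodMk tendsto_snd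
  have e1 : ∀ᶠ p : E n × ℕ in 𝓝 z₀ ×ˢ atTop, p.1 ∈ ball z₀ (min ρ r / 2) :=
    tendsto_fst.eventually (ball_mem_nhds _ (by positivity))
  have e2 : ∀ᶠ p : E n × ℕ in 𝓝 z₀ ×ˢ atTop, ε p.2 < min ρ r / 2 :=
    (tendsto_scale hε0 z₀).eventually_lt_const (by positivity)
  have e3 : ∀ᶠ p : E n × ℕ in 𝓝 z₀ ×ˢ atTop, ε p.2 < r' / 4 :=
    (tendsto_scale hε0 z₀).eventually_lt_const (by positivity)
  have e4 : ∀ᶠ p : E n × ℕ in 𝓝 z₀ ×ˢ atTop, lam p.1 ∈ ball (lam z₀) (r' / 2) :=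
    (tendsto_val hlam.continuousAt).eventually (ball_mem_nhds _ (by positivity))
  have e5 : ∀ᶠ p : E n × ℕ in 𝓝 z₀ ×ˢ atTop, η + Q * ε p.2 < ζ := by
    have := ((tendsto_scale hε0 z₀).const_mul Q).const_add η
    rw [mul_zero, add_zero] at this
    exact this.eventually_lt_const hζη
  have e6 : ∀ᶠ p : E n × ℕ in 𝓝 z₀ ×ˢ atTop, Q * ε p.2 < 1 := by
    have := (tendsto_scale hε0 z₀).const_mul Q
    rw [mul_zero] at this
    exact this.eventually_lt_const one_pos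
  filter_upwards [e1, e2, e3, e4, e5, e6, hA.1, tl.eventually hA'.1,
    tendsto_fst.eventually hlK] with p h1 h2 h3 h4 h5 h6 h7 h8' h9
  have hmem : ∀ y : E n, ‖y‖ ≤ ε p.2 → dist (p.1 + y) z₀ < min ρ r := by
    intro y hy
    rw [mem_ball] at h1
    calc dist (p.1 + y) z₀ ≤ dist (p.1 + y) p.1 + dist p.1 z₀ := dist_triangle _ _ _
      _ < min ρ r / 2 + min ρ r / 2 := by
          apply add_lt_add _ h1
          rw [dist_eq_norm, add_sub_cancel_left]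
          exact hy.trans_lt h2
      _ = min ρ r := by ring
  have hp0 := hmem 0 (by rw [norm_zero]; exact (hε _).le)
  rw [add_zero] at hp0
  have hp := hq p.1 (mem_ball.2 (hp0.trans_le (min_le_left _ _)))
  have hcg : ContinuousOn g (closedBall (lam p.1) (2 * ε p.2)) := by
    intro w hw
    refine (hgc' w ?_).continuousWithinAt
    rw [mem_closedBall] at hw
    rw [mem_ball] at h4 ⊢
    calc dist w (lam z₀) ≤ dist w (lam p.1) + dist (lam p.1) (lam z₀) := dist_triangle _ _ _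
      _ < r' / 2 + r' / 2 := by
          apply add_lt_add_of_le_of_lt _ h4
          linarith
      _ = r' := by ring
  have key := cmp_mo (lam := lam) (z := p.1) (w := lam p.1) (T := Dq lam p.1) (ζ := ζ) (Q := Q)
    (hε p.2) hK hη h5.le hQ0 h6.le h7 h8' h9.1 h9.2
    (by
      intro y hy
      have g1 := (hp.2.2.2 (p.1 + y) (mem_ball.2 ((hmem y hy).trans_le (min_le_left _ _)))).1
      rwa [add_sub_cancel_left] at g1)
    (fun y hy => hgl' _ (mem_ball.2 ((hmem y hy).trans_le (min_le_right _ _))))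
    (hgl' _ (mem_ball.2 (hp0.trans_le (min_le_right _ _)))) hζ8.le hcg
  have hs := mo_smooth (hε p.2) hcg
  have hd : fderiv ℝ (fun z => mo g (ε p.2) (lam z)) p.1 =
      fderiv ℝ (mo g (ε p.2)) (lam p.1) ∘L (Dq lam p.1 : E n →L[ℝ] E n) := by
    rw [Dq_coe hp.1]
    exact fderiv_comp (𝕜 := ℝ) (g := mo g (ε p.2)) (f := lam) p.1
      (hs.differentiableAt (by simp)) (hp.1.contDiffAt.differentiableAt (by simp))
  refine ⟨ContDiffAt.comp p.1 (g := mo g (ε p.2)) hs hp.1.contDiffAt, ?_⟩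
  rw [hd]
  exact key.mono (hε _).le le_rfl hζθ.le

/-- the mollification in its own coordinates -/
lemma NrF.self {ε : ℕ → ℝ} (hε : ∀ m, 0 < ε m) (hε0 : Tendsto ε atTop (𝓝 0))
    {g : E n → E n} {z₀ : E n} {η : ℝ} {L : E n × ℕ → (E n ≃L[ℝ] E n)} (hA : AAF ε g z₀ η L)
    (hgc : ∀ᶠ w in 𝓝 z₀, ContinuousAt g w) :
    NrF ε g z₀ L (fun m => mo g (ε m)) (1 + η) (kc n * η) := by
  obtain ⟨r', hr', hgc'⟩ := Metric.eventually_nhds_iff_ball.1 hgc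
  have e1 : ∀ᶠ p : E n × ℕ in 𝓝 z₀ ×ˢ atTop, p.1 ∈ ball z₀ (r' / 2) :=
    tendsto_fst.eventually (ball_mem_nhds _ (by positivity))
  have e3 : ∀ᶠ p : E n × ℕ in 𝓝 z₀ ×ˢ atTop, ε p.2 < r' / 4 :=
    (tendsto_scale hε0 z₀).eventually_lt_const (by positivity)
  filter_upwards [e1, e3, hA.1] with p h1 h3 h4
  have hcg : ContinuousOn g (closedBall p.1 (2 * ε p.2)) := by
    intro w hw
    refine (hgc' w ?_).continuousWithinAt
    rw [mem_closedBall] at hw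
    rw [mem_ball] at h1 ⊢
    calc dist w z₀ ≤ dist w p.1 + dist p.1 z₀ := dist_triangle _ _ _
      _ < r' / 2 + r' / 2 := by
          apply add_lt_add_of_le_of_lt _ h1
          linarith
      _ = r' := by ring
  exact ⟨mo_smooth (hε _) hcg, mo_aa_val (hε _) hcg h4, mo_aa (hε _) hcg h4⟩

/-- local diffeomorphisms are almost affine -/
lemma AAF.of_LD {ε : ℕ → ℝ} (hε : ∀ m, 0 < ε m) (hε0 : Tendsto ε atTop (𝓝 0))
    {h : E n → E n} {z₀ : E n} {η : ℝ} (hh : LD n h z₀) (hη : 0 < η) :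
    AAF ε h z₀ η (fun p => Dq h p.1) := by
  obtain ⟨Q, ρ, hQ1, hρ, hq⟩ := quad hh
  have hQ0 : 0 ≤ Q := by linarith
  have e1 : ∀ᶠ p : E n × ℕ in 𝓝 z₀ ×ˢ atTop, p.1 ∈ ball z₀ (ρ / 2) :=
    tendsto_fst.eventually (ball_mem_nhds _ (by positivity))
  have e2 : ∀ᶠ p : E n × ℕ in 𝓝 z₀ ×ˢ atTop, ε p.2 < ρ / 2 :=
    (tendsto_scale hε0 z₀).eventually_lt_const (by positivity)
  have e3 : ∀ᶠ p : E n × ℕ in 𝓝 z₀ ×ˢ atTop, Q * Q * ε p.2 < η := by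
    have := (tendsto_scale hε0 z₀).const_mul (Q * Q)
    rw [mul_zero] at this
    exact this.eventually_lt_const hη
  constructor
  · filter_upwards [e1, e2, e3] with p h1 h2 h3 y hy
    have hp := hq p.1 (ball_subset_ball (by linarith) h1)
    have hy' : p.1 + y ∈ ball z₀ ρ := by
      rw [mem_ball] at h1 ⊢
      calc dist (p.1 + y) z₀ ≤ dist (p.1 + y) p.1 + dist p.1 z₀ := dist_triangle _ _ _
        _ < ρ / 2 + ρ / 2 := by
            apply add_lt_add _ h1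
            rw [dist_eq_norm, add_sub_cancel_left]
            exact hy.trans_lt h2
        _ = ρ := by ring
    have g1 := (hp.2.2.2 _ hy').1
    rw [add_sub_cancel_left] at g1
    have g2 : (Dq h p.1).symm (h (p.1 + y) - h p.1) - y =
        (Dq h p.1).symm (h (p.1 + y) - h p.1 - Dq h p.1 y) := by
      rw [map_sub (Dq h p.1).symm (h (p.1 + y) - h p.1), (Dq h p.1).symm_apply_apply]
    rw [g2]
    calc _ ≤ ‖((Dq h p.1).symm : E n →L[ℝ] E n)‖ * ‖h (p.1 + y) - h p.1 - Dq h p.1 y‖ :=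
          ((Dq h p.1).symm : E n →L[ℝ] E n).le_opNorm _
      _ ≤ Q * (Q * ‖y‖ ^ 2) := by
          have := hp.2.2.1
          gcongr
      _ ≤ Q * (Q * ε p.2 ^ 2) := by gcongr
      _ = (Q * Q * ε p.2) * ε p.2 := by ring
      _ ≤ η * ε p.2 := by
          have := (hε p.2).le
          gcongr
  · have h5 := (tendsto_scale hε0 z₀).const_mul (Q * Q ^ 2)
    rw [mul_zero] at h5
    refine squeeze_zero' (Eventually.of_forall fun p => ?_) ?_ h5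
    · unfold sg
      have := (hε p.2).le
      positivity
    · filter_upwards [e1] with p h1
      have hp := hq p.1 (ball_subset_ball (by linarith) h1)
      have h2 := hp.2.1
      have h3 := hp.2.2.1
      have h4 := (hε p.2).le
      unfold sg
      gcongr

lemma NrF.of_LD {ε : ℕ → ℝ} {h : E n → E n} {z₀ : E n} (hh : LD n h z₀) :
    NrF ε h z₀ (fun p => Dq h p.1) (fun _ => h) 0 0 := by
  have h1 : ∀ᶠ p : E n × ℕ in 𝓝 z₀ ×ˢ atTop, LD n h p.1 := tendsto_fst.eventually hh.eventually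
  filter_upwards [h1] with p hp
  refine ⟨hp.contDiffAt, ?_, ?_⟩
  · rw [sub_self, map_zero, norm_zero, zero_mul]
  · rw [← Dq_coe hp]
    have : ((Dq h p.1).symm : E n →L[ℝ] E n) ∘L (Dq h p.1 : E n →L[ℝ] E n) = (ContinuousLinearMap.id ℝ (E n)) := by
      ext1 v
      simp
    rw [this, sub_self, norm_zero]

/-- the maps are local diffeomorphisms -/
lemma NrF.ld {ε : ℕ → ℝ} {h : E n → E n} {z₀ : E n} {C θ : ℝ}
    {L : E n × ℕ → (E n ≃L[ℝ] E n)} {G : ℕ → E n → E n} (hG : NrF ε h z₀ L G C θ) (hθ : θ < 1) :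
    ∀ᶠ p : E n × ℕ in 𝓝 z₀ ×ˢ atTop, LD n (G p.2) p.1 := by
  obtain ⟨P1, hP1, P2, hP2, hP⟩ := eventually_prod_iff.1 hG
  have h3 : ∀ᶠ p : E n × ℕ in 𝓝 z₀ ×ˢ atTop, ∀ᶠ y in 𝓝 p.1, P1 y :=
    tendsto_fst.eventually (eventually_eventually_nhds.2 hP1)
  have h4 : ∀ᶠ p : E n × ℕ in 𝓝 z₀ ×ˢ atTop, P2 p.2 := tendsto_snd.eventually hP2
  filter_upwards [h3, h4] with p g1 g2
  refine Pool.Agent.Y207.SH3.LD_of_pos ?_ fun u hu h0 => ?_
  · filter_upwards [g1] with y hy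
    exact (hP hy g2).1
  · have h5 := (hP g1.self_of_nhds g2).2.2
    have h6 := (((L (p.1, p.2)).symm : E n →L[ℝ] E n) ∘L fderiv ℝ (G p.2) p.1 - (ContinuousLinearMap.id ℝ (E n))).le_opNorm u
    have h7 : (((L (p.1, p.2)).symm : E n →L[ℝ] E n) ∘L fderiv ℝ (G p.2) p.1 - (ContinuousLinearMap.id ℝ (E n))) u = - u := by
      simp [h0]
    rw [h7, norm_neg, hu, mul_one] at h6
    linarith

/-- one full step, in a fixed coordinate system -/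
lemma NrF.step {ε : ℕ → ℝ} (hε : ∀ m, 0 < ε m) (hε0 : Tendsto ε atTop (𝓝 0))
    {h g lam μ ν : E n → E n} {z₀ : E n} {η K C θ : ℝ} {G : ℕ → E n → E n} {t : E n → ℝ}
    {L L' : E n × ℕ → (E n ≃L[ℝ] E n)} (hA : AAF ε h z₀ η L) (hA' : AAF ε g (lam z₀) η L')
    (hη : 0 ≤ η) (hK : 1 ≤ K) (hlam : LD n lam z₀)
    (hlK : ∀ᶠ z in 𝓝 z₀, ‖(Dq lam z : E n →L[ℝ] E n)‖ ≤ K ∧
      ‖((Dq lam z).symm : E n →L[ℝ] E n)‖ ≤ K)
    (hc : ContinuousAt h z₀) (hμ : LD n μ (h z₀)) (hν : LD n ν (μ (h z₀)))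
    (hνμ : ∀ᶠ y in 𝓝 (h z₀), ν (μ y) = y)
    (hgl : ∀ᶠ z in 𝓝 z₀, g (lam z) = μ (h z)) (hgc : ∀ᶠ w in 𝓝 (lam z₀), ContinuousAt g w)
    (ht : ∀ᶠ z in 𝓝 z₀, ContDiffAt ℝ ∞ t z) (ht0 : ∀ z, 0 ≤ t z) (ht1 : ∀ z, t z ≤ 1)
    (h8 : 8 * K ^ 2 * η < 1) (hθ1 : (8 + 2 * kc n) * K ^ 2 * η < 1) (hC : 0 ≤ C) (hθ : θ < 1)
    (hG : NrF ε h z₀ L G C θ) :
    ∃ C' θ' : ℝ, 0 ≤ C' ∧ θ' < 1 ∧ NrF ε h z₀ L
      (fun m z => ν (μ (G m z) + t z • (mo g (ε m) (lam z) - μ (G m z)))) C' θ' := by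
  obtain ⟨θ₁, h11, h12⟩ := exists_between (max_lt hθ hθ1)
  obtain ⟨θ₂, h21, h22⟩ := exists_between h12
  obtain ⟨θ₃, h31, h32⟩ := exists_between h22
  rw [max_lt_iff] at h11
  obtain ⟨η', hη'1, hη'2, hη'3⟩ : ∃ ζ, η < ζ ∧ 8 * K ^ 2 * ζ < 1 ∧
      (8 + 2 * kc n) * K ^ 2 * ζ < θ₁ := by
    have c1 : ∀ᶠ ζ in 𝓝 η, 8 * K ^ 2 * ζ < 1 :=
      (Continuous.continuousAt (by fun_prop : Continuous fun ζ : ℝ => 8 * K ^ 2 * ζ)
        ).eventually_lt_const h8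
    have c2 : ∀ᶠ ζ in 𝓝 η, (8 + 2 * kc n) * K ^ 2 * ζ < θ₁ :=
      (Continuous.continuousAt (by fun_prop : Continuous fun ζ : ℝ => (8 + 2 * kc n) * K ^ 2 * ζ)
        ).eventually_lt_const h11.2
    have c0 : ∀ᶠ ζ in 𝓝[>] η, η < ζ := self_mem_nhdsWithin
    obtain ⟨ζ, h1, h2, h3⟩ := (c0.and
      ((c1.filter_mono nhdsWithin_le_nhds).and (c2.filter_mono nhdsWithin_le_nhds))).exists
    exact ⟨ζ, h1, h2, h3⟩
  have hA1 := hA.change hε hη hη'1 hc hμ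
  have hc1 : ContinuousAt (fun z => μ (h z)) z₀ :=
    ContinuousAt.comp (f := h) (g := μ) hμ.continuousAt hc
  obtain ⟨C₁, hC₁⟩ : ∃ C₁, C₁ = max C (4 * K) + 1 := ⟨_, rfl⟩
  have hC1 : C < C₁ := by rw [hC₁]; linarith [le_max_left C (4 * K)]
  have hC2 : 4 * K ≤ C₁ := by rw [hC₁]; linarith [le_max_right C (4 * K)]
  have hC0 : 0 ≤ C₁ := hC.trans hC1.le
  have a1 := NrF.change hε hA hG hC hC1 h11.1 hc hμ
  have a2 := (NrF.source hε hε0 hA1 (hA'.mono hε hη'1.le) (hη.trans hη'1.le) hK hlam hlK hgl hgc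
    hη'2 hη'3).mono hε hC2 le_rfl
  have a3 := NrF.interp hε hε0 a1 a2 hC0 h21 ht ht0 ht1
  have a4 := NrF.change hε hA1 a3 hC0 (lt_add_one C₁) h31 hc1 hν
  refine ⟨C₁ + 1, θ₃, by linarith, h32, a4.congr ?_ ?_ (Eventually.of_forall fun _ => rfl)⟩
  · filter_upwards [hc.eventually hνμ] with z hz
    exact hz
  · have b1 : ∀ᶠ y in 𝓝 (h z₀), LD n ν (μ y) := hμ.continuousAt.eventually hν.eventually
    have b2 : ∀ᶠ y in 𝓝 (h z₀), ∀ᶠ y' in 𝓝 y, ν (μ y') = y' := eventually_eventually_nhds.2 hνμ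
    have b3 := (tendsto_val hc).eventually (b1.and (b2.and hμ.eventually))
    filter_upwards [b3] with p hp
    obtain ⟨g1, g2, g3⟩ := hp
    have g4 : (Dq ν (μ (h p.1)) : E n →L[ℝ] E n) ∘L (Dq μ (h p.1) : E n →L[ℝ] E n) = (ContinuousLinearMap.id ℝ (E n)) := by
      rw [Dq_coe g1, Dq_coe g3]
      have g5 : HasFDerivAt (fun y => ν (μ y))
          (fderiv ℝ ν (μ (h p.1)) ∘L fderiv ℝ μ (h p.1)) (h p.1) :=
        HasFDerivAt.comp (h p.1) (g := ν) (f := μ)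
          (g1.contDiffAt.differentiableAt (by simp)).hasFDerivAt
          (g3.contDiffAt.differentiableAt (by simp)).hasFDerivAt
      have g6 : HasFDerivAt (fun y => ν (μ y)) (ContinuousLinearMap.id ℝ (E n)) (h p.1) :=
        (hasFDerivAt_id (h p.1)).congr_of_eventuallyEq g2
      exact g5.unique g6
    refine ContinuousLinearEquiv.ext (funext fun v => ?_)
    exact DFunLike.congr_fun g4 (L p v)

end Run7.h60.Sc
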