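import Pool.Agent.Y954.SH.MollS

/-!
# Almost affine maps at a scale: mollification

`AA h z ε L η`: on the ball of radius `ε` about `z` the map `h` differs from an affine map with the
linear part `L` by at most `η ε`, measured after applying the inverse of `L`.
-/

set_option autoImplicit false

open Set Filter Topology Metric Function MeasureTheory
open scoped Manifold ContDiff Convolution

noncomputable section

namespace Run7.h60.Sc

open Pool.Agent.Y522 Pool.Agent.Y954.SH

variable {n : ℕ}

/-- `h` is almost affine on the ball of radius `ε` about `z`, with the linear part `L` -/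
def AA (h : E n → E n) (z : E n) (ε : ℝ) (L : E n ≃L[ℝ] E n) (η : ℝ) : Prop :=
  ∀ y : E n, ‖y‖ ≤ ε → ‖L.symm (h (z + y) - h z) - y‖ ≤ η * ε

/-- mollification with the radius `ε` -/
def mo (g : E n → E n) (ε : ℝ) (z : E n) : E n := ∫ s, kr n s • g (z + ε • s)

/-- the constant of the kernel -/
def kc (n : ℕ) : ℝ := ∫ s, ‖fderiv ℝ (kr n) s‖

lemma kr_compact : HasCompactSupport (kr n) := by
  unfold kr
  exact (bmp n).hasCompactSupport_normed

lemma dkr_zero {s : E n} (hs : 1 < ‖s‖) : fderiv ℝ (kr n) s = 0 := by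
  have h1 : kr n =ᶠ[𝓝 s] fun _ => 0 := by
    filter_upwards [(isOpen_lt continuous_const continuous_norm).mem_nhds hs] with y hy
    exact kr_zero (le_of_lt hy)
  rw [h1.fderiv_eq]
  exact fderiv_const_apply _

lemma dkr_cont : Continuous (fderiv ℝ (kr n)) := kr_smooth.continuous_fderiv (by simp)

lemma dkr_compact : HasCompactSupport (fderiv ℝ (kr n)) := kr_compact.fderiv ℝ

lemma dkr_integrable : Integrable (fderiv ℝ (kr n)) :=
  dkr_cont.integrable_of_hasCompactSupport dkr_compact

lemma kc_nonneg : 0 ≤ kc n := integral_nonneg fun _ => norm_nonneg _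

/-- the scaled kernel -/
lemma gk_smooth (ε : ℝ) : ContDiff ℝ ∞ (gk n ε) := by
  unfold gk
  exact contDiff_const.mul (kr_smooth.comp (contDiff_const_smul _))

lemma gk_compact {ε : ℝ} (hε : 0 < ε) : HasCompactSupport (gk n ε) := by
  apply HasCompactSupport.intro (isCompact_closedBall (0 : E n) ε)
  intro x hx
  rw [mem_closedBall_zero_iff, not_le] at hx
  unfold gk
  rw [kr_zero, mul_zero]
  rw [norm_smul, norm_inv, Real.norm_of_nonneg hε.le, inv_mul_eq_div, le_div_iff₀ hε]
  linarith

lemma mo_smooth' {g : E n → E n} {ε : ℝ} (hε : 0 < ε) (hg : LocallyIntegrable g) :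
    ContDiff ℝ ∞ (mo g ε) := by
  have h1 : mo g ε = g ⋆[LL n, volume] gk n ε := by
    funext y
    exact moll_conv g y hε
  rw [h1]
  exact (gk_compact hε).contDiff_convolution_right (LL n) hg (gk_smooth ε)

/-- the derivative of the mollification -/
lemma mo_deriv' {g : E n → E n} {ε : ℝ} (hε : 0 < ε) (hg : LocallyIntegrable g) (w v : E n) :
    fderiv ℝ (mo g ε) w v = - (ε⁻¹ • ∫ s, (fderiv ℝ (kr n) s v) • g (w + ε • s)) := by
  have h1 : mo g ε = g ⋆[LL n, volume] gk n ε := by
    funext y
    exact moll_conv g y hε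
  have h2 := (gk_compact hε).hasFDerivAt_convolution_right (LL n) hg
    ((gk_smooth ε).of_le (by simp)) w
  rw [h1, h2.fderiv]
  have h3 : ∀ y : E n, fderiv ℝ (gk n ε) y = ((ε ^ n)⁻¹ * ε⁻¹) • fderiv ℝ (kr n) (ε⁻¹ • y) := by
    intro y
    have e1 : HasFDerivAt (kr n) (fderiv ℝ (kr n) (ε⁻¹ • y)) (ε⁻¹ • y) :=
      ((kr_smooth.differentiable (by simp)) _).hasFDerivAt
    have e2 : HasFDerivAt (fun y : E n => ε⁻¹ • y) (ε⁻¹ • ContinuousLinearMap.id ℝ (E n)) y :=
      (hasFDerivAt_id y).const_smul ε⁻¹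
    have e3 := (e1.comp y e2).const_mul ((ε ^ n)⁻¹)
    have e4 : gk n ε = fun y => (ε ^ n)⁻¹ * (kr n ∘ fun y : E n => ε⁻¹ • y) y := rfl
    rw [e4, e3.fderiv]
    ext v
    simp only [ContinuousLinearMap.smul_apply, ContinuousLinearMap.comp_apply,
      ContinuousLinearMap.id_apply, map_smul, smul_eq_mul]
    ring
  unfold convolution
  rw [ContinuousLinearMap.integral_apply]
  · simp only [ContinuousLinearMap.precompR_apply, h3, ContinuousLinearMap.compL_apply,
      ContinuousLinearMap.comp_apply, LL_apply]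
    have h4 : ∫ t, (((ε ^ n)⁻¹ * ε⁻¹) • fderiv ℝ (kr n) (ε⁻¹ • (w - t))) v • g t =
        ∫ t, (((ε ^ n)⁻¹ * ε⁻¹) • fderiv ℝ (kr n) (ε⁻¹ • (-t))) v • g (w + t) := by
      rw [← integral_add_left_eq_self (fun t => (((ε ^ n)⁻¹ * ε⁻¹) •
        fderiv ℝ (kr n) (ε⁻¹ • (w - t))) v • g t) w]
      congr 1
      funext t
      rw [sub_add_cancel_left]
    rw [h4]
    have h5 := Measure.integral_comp_smul_of_nonneg (volume : Measure (E n))
      (fun t => (((ε ^ n)⁻¹ * ε⁻¹) • fderiv ℝ (kr n) (ε⁻¹ • (-t))) v • g (w + t)) ε (hR := hε.le)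
    rw [finrank_euclideanSpace, Fintype.card_fin] at h5
    have hodd : ∀ s : E n, fderiv ℝ (kr n) (-s) = - fderiv ℝ (kr n) s := by
      intro s
      have e1 : HasFDerivAt (kr n) (fderiv ℝ (kr n) (-s)) (-s) :=
        ((kr_smooth.differentiable (by simp)) _).hasFDerivAt
      have e2 : HasFDerivAt (fun y : E n => -y) (-ContinuousLinearMap.id ℝ (E n)) s :=
        (hasFDerivAt_id s).neg
      have e3 := e1.comp s e2
      have e4 : (kr n ∘ fun y : E n => -y) = kr n := by
        funext y
        exact kr_neg y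
      rw [e4] at e3
      rw [e3.fderiv]
      ext v
      simp
    have h6 : ∀ s : E n, (((ε ^ n)⁻¹ * ε⁻¹) • fderiv ℝ (kr n) (ε⁻¹ • (-(ε • s)))) v •
        g (w + ε • s) = (ε ^ n)⁻¹ • (- (ε⁻¹ • (fderiv ℝ (kr n) s v • g (w + ε • s)))) := by
      intro s
      rw [smul_neg, smul_smul ε⁻¹ ε, inv_mul_cancel₀ hε.ne', one_smul, hodd]
      simp only [ContinuousLinearMap.smul_apply, ContinuousLinearMap.neg_apply, smul_eq_mul,
        smul_smul, smul_neg, neg_smul, mul_neg]
      ring_nf
    simp only [h6] at h5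
    rw [integral_smul] at h5
    have h7 := smul_right_injective _ (inv_ne_zero (pow_ne_zero n hε.ne')) h5
    rw [← h7, integral_neg, integral_smul]
  · exact ((gk_compact hε).fderiv ℝ).convolutionExists_right
      ((LL n).precompR (E n)) hg ((gk_smooth ε).continuous_fderiv (by simp)) w

/-- mollification only depends on the values near the point -/
lemma mo_congr {g g' : E n → E n} {ε : ℝ} {z : E n}
    (h : ∀ s, ‖s‖ ≤ 1 → g (z + ε • s) = g' (z + ε • s)) : mo g ε z = mo g' ε z := by
  unfold mo
  congr 1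
  funext s
  by_cases hs : kr n s = 0
  · rw [hs, zero_smul, zero_smul]
  · rw [h s (kr_lt hs).le]

/-- localisation -/
lemma mo_local {g : E n → E n} {ε : ℝ} (hε : 0 < ε) {w : E n}
    (hg : ContinuousOn g (closedBall w (2 * ε))) :
    ∃ g' : E n → E n, LocallyIntegrable g' ∧ mo g ε =ᶠ[𝓝 w] mo g' ε ∧
      ∀ s : E n, ‖s‖ ≤ 1 → g' (w + ε • s) = g (w + ε • s) := by
  refine ⟨(closedBall w (2 * ε)).indicator g, ?_, ?_, ?_⟩
  · apply Integrable.locallyIntegrable
    rw [integrable_indicator_iff measurableSet_closedBall]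
    exact hg.integrableOn_compact (isCompact_closedBall _ _)
  · filter_upwards [ball_mem_nhds w hε] with y hy
    apply mo_congr
    intro s hs
    rw [indicator_of_mem]
    rw [mem_ball, dist_eq_norm] at hy
    rw [mem_closedBall, dist_eq_norm]
    calc ‖y + ε • s - w‖ = ‖(y - w) + ε • s‖ := by congr 1; abel
      _ ≤ ‖y - w‖ + ‖ε • s‖ := norm_add_le _ _
      _ = ‖y - w‖ + ε * ‖s‖ := by rw [norm_smul, Real.norm_of_nonneg hε.le]
      _ ≤ ε + ε * 1 := by gcongr
      _ = 2 * ε := by ring
  · intro s hs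
    rw [indicator_of_mem]
    rw [mem_closedBall, dist_eq_norm, add_sub_cancel_left, norm_smul, Real.norm_of_nonneg hε.le]
    nlinarith

lemma mo_smooth {g : E n → E n} {ε : ℝ} (hε : 0 < ε) {w : E n}
    (hg : ContinuousOn g (closedBall w (2 * ε))) : ContDiffAt ℝ ∞ (mo g ε) w := by
  obtain ⟨g', h1, h2, -⟩ := mo_local hε hg
  exact (mo_smooth' hε h1).contDiffAt.congr_of_eventuallyEq h2

lemma mo_deriv {g : E n → E n} {ε : ℝ} (hε : 0 < ε) {w : E n}
    (hg : ContinuousOn g (closedBall w (2 * ε))) (v : E n) :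
    fderiv ℝ (mo g ε) w v = - (ε⁻¹ • ∫ s, (fderiv ℝ (kr n) s v) • g (w + ε • s)) := by
  obtain ⟨g', h1, h2, h3⟩ := mo_local hε hg
  rw [h2.fderiv_eq, mo_deriv' hε h1]
  congr 2
  apply integral_congr_ae
  apply Eventually.of_forall
  intro s
  beta_reduce
  by_cases hs : ‖s‖ ≤ 1
  · rw [h3 s hs]
  · rw [dkr_zero (not_le.1 hs)]
    simp

/-- the moments of the derivative of the kernel -/
lemma dkr_moment (v c : E n) (L : E n →L[ℝ] E n) {ε : ℝ} (hε : 0 < ε) :
    ∫ s, (fderiv ℝ (kr n) s v) • (c + L (ε • s)) = - (ε • L v) := by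
  have hc : Continuous fun y : E n => c + L y := by fun_prop
  have h1 := mo_deriv hε (w := (0 : E n)) (g := fun y => c + L y) hc.continuousOn v
  have h2 : mo (fun y : E n => c + L y) ε = fun z => c + L z := by
    funext z
    unfold mo
    have e1 : ∀ s : E n, kr n s • (c + L (z + ε • s)) =
        kr n s • (c + L z) + (ε • L) (kr n s • s) := by
      intro s
      simp only [map_add, map_smul, smul_add, ContinuousLinearMap.smul_apply]
      rw [smul_comm (kr n s) ε]
      abel
    simp only [e1]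
    have i1 : Integrable (fun s : E n => kr n s • (c + L z)) := kr_integrable.smul_const _
    have i2 : Integrable (fun s : E n => kr n s • s) :=
      (kr_smooth.continuous.smul continuous_id).integrable_of_hasCompactSupport
        (kr_compact.smul_right (f' := fun s : E n => s))
    rw [integral_add i1 ((ε • L).integrable_comp i2), integral_smul_const, kr_int, one_smul,
      (ε • L).integral_comp_comm i2]
    have e2 : ∫ s : E n, kr n s • s = 0 := by
      have e3 : ∫ s : E n, kr n s • s = ∫ s : E n, kr n (-s) • (-s) :=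
        (integral_neg_eq_self (fun s : E n => kr n s • s) volume).symm
      simp only [kr_neg, smul_neg] at e3
      rw [integral_neg] at e3
      have e4 : (2 : ℝ) • ∫ s : E n, kr n s • s = 0 := by
        rw [two_smul]
        nth_rewrite 2 [e3]
        exact add_neg_cancel _
      exact (smul_eq_zero.1 e4).resolve_left two_ne_zero
    rw [e2, map_zero, add_zero]
  rw [h2] at h1
  have h3 : fderiv ℝ (fun z : E n => c + L z) 0 = L := by
    rw [fderiv_const_add]
    exact L.fderiv
  rw [h3] at h1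
  simp only [zero_add] at h1
  rw [h1, smul_neg, smul_smul, mul_inv_cancel₀ hε.ne', one_smul, neg_neg]

/-- the derivative of the mollification of an almost affine map -/
lemma mo_aa {g : E n → E n} {ε η : ℝ} (hε : 0 < ε) {w : E n} {L : E n ≃L[ℝ] E n}
    (hg : ContinuousOn g (closedBall w (2 * ε))) (hA : AA g w ε L η) :
    ‖(L.symm : E n →L[ℝ] E n) ∘L fderiv ℝ (mo g ε) w - ContinuousLinearMap.id ℝ (E n)‖ ≤
      kc n * η := by
  have hη : 0 ≤ η * ε := (norm_nonneg _).trans (hA 0 (by simpa using hε.le))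
  have hη' : 0 ≤ η := nonneg_of_mul_nonneg_left hη hε
  apply ContinuousLinearMap.opNorm_le_bound _ (mul_nonneg kc_nonneg hη')
  intro v
  have hgc : ContinuousOn (fun s : E n => g (w + ε • s)) (closedBall 0 1) := by
    apply hg.comp (by fun_prop)
    intro s hs
    rw [mem_closedBall_zero_iff] at hs
    rw [mem_closedBall, dist_eq_norm, add_sub_cancel_left, norm_smul, Real.norm_of_nonneg hε.le]
    nlinarith
  have i1 : Integrable (fun s : E n => (fderiv ℝ (kr n) s v) • g (w + ε • s)) := by
    have e1 : (fun s : E n => (fderiv ℝ (kr n) s v) • g (w + ε • s)) =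
        (closedBall (0 : E n) 1).indicator (fun s => (fderiv ℝ (kr n) s v) • g (w + ε • s)) := by
      funext s
      by_cases hs : s ∈ closedBall (0 : E n) 1
      · rw [indicator_of_mem hs]
      · rw [indicator_of_notMem hs]
        rw [mem_closedBall_zero_iff, not_le] at hs
        rw [dkr_zero hs]
        simp
    rw [e1, integrable_indicator_iff measurableSet_closedBall]
    apply ContinuousOn.integrableOn_compact (isCompact_closedBall _ _)
    exact ((dkr_cont.clm_apply continuous_const).continuousOn).smul hgc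
  have i2 : Integrable (fun s : E n => (fderiv ℝ (kr n) s v) • (g w + L (ε • s))) := by
    apply Continuous.integrable_of_hasCompactSupport
    · exact (dkr_cont.clm_apply continuous_const).smul (by fun_prop)
    · apply HasCompactSupport.intro (isCompact_closedBall (0 : E n) 1)
      intro s hs
      rw [mem_closedBall_zero_iff, not_le] at hs
      rw [dkr_zero hs, ContinuousLinearMap.zero_apply, zero_smul]
  have h1 : fderiv ℝ (mo g ε) w v - L v =
      - (ε⁻¹ • ∫ s, (fderiv ℝ (kr n) s v) • (g (w + ε • s) - (g w + L (ε • s)))) := by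
    have h2 := dkr_moment v (g w) (L : E n →L[ℝ] E n) hε
    have h3 : ∫ s, (fderiv ℝ (kr n) s v) • (g (w + ε • s) - (g w + L (ε • s))) =
        (∫ s, (fderiv ℝ (kr n) s v) • g (w + ε • s)) + ε • L v := by
      simp only [smul_sub]
      rw [integral_sub i1 i2]
      have h4 : ∫ s, (fderiv ℝ (kr n) s v) • (g w + L (ε • s)) = - (ε • L v) := h2
      rw [h4, sub_neg_eq_add]
    rw [h3, mo_deriv hε hg, smul_add, smul_smul, inv_mul_cancel₀ hε.ne', one_smul, neg_add,
      sub_eq_add_neg]
  have h5 : ((L.symm : E n →L[ℝ] E n) ∘L fderiv ℝ (mo g ε) w - ContinuousLinearMap.id ℝ (E n)) v =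
      - (ε⁻¹ • ∫ s, (fderiv ℝ (kr n) s v) • (L.symm (g (w + ε • s) - g w) - ε • s)) := by
    have e1 : ((L.symm : E n →L[ℝ] E n) ∘L fderiv ℝ (mo g ε) w -
        ContinuousLinearMap.id ℝ (E n)) v = L.symm (fderiv ℝ (mo g ε) w v - L v) := by
      simp [map_sub]
    rw [e1, h1, map_neg, map_smul]
    have e2 := ((L.symm : E n →L[ℝ] E n)).integral_comp_comm
      (φ := fun s => (fderiv ℝ (kr n) s v) • (g (w + ε • s) - (g w + L (ε • s)))) (by
        simp only [smul_sub]
        exact i1.sub i2)
    have e3 : L.symm (∫ s, (fderiv ℝ (kr n) s v) • (g (w + ε • s) - (g w + L (ε • s)))) =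
        (L.symm : E n →L[ℝ] E n) (∫ s, (fderiv ℝ (kr n) s v) •
          (g (w + ε • s) - (g w + L (ε • s)))) := rfl
    rw [e3, ← e2]
    congr 3
    funext s
    rw [map_smul]
    congr 1
    have e4 : g (w + ε • s) - (g w + L (ε • s)) = (g (w + ε • s) - g w) - L (ε • s) := by abel
    rw [e4]
    change L.symm ((g (w + ε • s) - g w) - L (ε • s)) = _
    rw [map_sub, L.symm_apply_apply]
  rw [h5, norm_neg, norm_smul, norm_inv, Real.norm_of_nonneg hε.le]
  have h6 : ‖∫ s, (fderiv ℝ (kr n) s v) • (L.symm (g (w + ε • s) - g w) - ε • s)‖ ≤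
      ∫ s, ‖fderiv ℝ (kr n) s‖ * (‖v‖ * (η * ε)) := by
    apply norm_integral_le_of_norm_le (dkr_integrable.norm.mul_const _)
    apply Eventually.of_forall
    intro s
    rw [norm_smul]
    by_cases hs : ‖s‖ ≤ 1
    · have e1 := hA (ε • s) (by
        rw [norm_smul, Real.norm_of_nonneg hε.le]
        nlinarith)
      calc ‖fderiv ℝ (kr n) s v‖ * ‖L.symm (g (w + ε • s) - g w) - ε • s‖
          ≤ (‖fderiv ℝ (kr n) s‖ * ‖v‖) * (η * ε) :=
            mul_le_mul (ContinuousLinearMap.le_opNorm _ _) e1 (norm_nonneg _) (by positivity)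
        _ = _ := by ring
    · rw [dkr_zero (not_le.1 hs)]
      simp
  rw [integral_mul_const] at h6
  change ‖_‖ ≤ kc n * (‖v‖ * (η * ε)) at h6
  calc ε⁻¹ * ‖∫ s, (fderiv ℝ (kr n) s v) • (L.symm (g (w + ε • s) - g w) - ε • s)‖
      ≤ ε⁻¹ * (kc n * (‖v‖ * (η * ε))) := by gcongr
    _ = kc n * η * ‖v‖ := by field_simp

/-- the values of the mollification of an almost affine map -/
lemma mo_aa_val {g : E n → E n} {ε η : ℝ} (hε : 0 < ε) {w : E n} {L : E n ≃L[ℝ] E n}
    (hg : ContinuousOn g (closedBall w (2 * ε))) (hA : AA g w ε L η) :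
    ‖L.symm (mo g ε w - g w)‖ ≤ (1 + η) * ε := by
  have hgc : ContinuousOn (fun s : E n => g (w + ε • s)) (closedBall 0 1) := by
    apply hg.comp (by fun_prop)
    intro s hs
    rw [mem_closedBall_zero_iff] at hs
    rw [mem_closedBall, dist_eq_norm, add_sub_cancel_left, norm_smul, Real.norm_of_nonneg hε.le]
    nlinarith
  have i1 : Integrable (fun s : E n => kr n s • g (w + ε • s)) := by
    have e1 : (fun s : E n => kr n s • g (w + ε • s)) =
        (closedBall (0 : E n) 1).indicator (fun s => kr n s • g (w + ε • s)) := by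
      funext s
      by_cases hs : s ∈ closedBall (0 : E n) 1
      · rw [indicator_of_mem hs]
      · rw [indicator_of_notMem hs]
        rw [mem_closedBall_zero_iff, not_le] at hs
        rw [kr_zero hs.le]
        simp
    rw [e1, integrable_indicator_iff measurableSet_closedBall]
    apply ContinuousOn.integrableOn_compact (isCompact_closedBall _ _)
    exact (kr_smooth.continuous.continuousOn).smul hgc
  have i2 : Integrable (fun s : E n => kr n s • g w) := kr_integrable.smul_const _
  have h1 : mo g ε w - g w = ∫ s, kr n s • (g (w + ε • s) - g w) := by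
    simp only [smul_sub]
    rw [integral_sub i1 i2, integral_smul_const, kr_int, one_smul]
    rfl
  have h2 : L.symm (mo g ε w - g w) = ∫ s, kr n s • L.symm (g (w + ε • s) - g w) := by
    rw [h1]
    have e2 := ((L.symm : E n →L[ℝ] E n)).integral_comp_comm
      (φ := fun s => kr n s • (g (w + ε • s) - g w)) (by
        simp only [smul_sub]
        exact i1.sub i2)
    have e3 : L.symm (∫ s, kr n s • (g (w + ε • s) - g w)) =
        (L.symm : E n →L[ℝ] E n) (∫ s, kr n s • (g (w + ε • s) - g w)) := rfl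
    rw [e3, ← e2]
    congr 1
    funext s
    rw [map_smul]
    rfl
  rw [h2]
  have h3 : ‖∫ s, kr n s • L.symm (g (w + ε • s) - g w)‖ ≤ ∫ s, kr n s * ((1 + η) * ε) := by
    apply norm_integral_le_of_norm_le (kr_integrable.mul_const _)
    apply Eventually.of_forall
    intro s
    rw [norm_smul, Real.norm_of_nonneg (kr_nonneg s)]
    by_cases hs : kr n s = 0
    · rw [hs]; simp
    · have hs1 := (kr_lt hs).le
      have e0 : ‖ε • s‖ ≤ ε := by
        rw [norm_smul, Real.norm_of_nonneg hε.le]
        nlinarith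
      have e1 := hA (ε • s) e0
      apply mul_le_mul_of_nonneg_left _ (kr_nonneg s)
      calc ‖L.symm (g (w + ε • s) - g w)‖ = ‖(L.symm (g (w + ε • s) - g w) - ε • s) + ε • s‖ := by
            rw [sub_add_cancel]
        _ ≤ ‖L.symm (g (w + ε • s) - g w) - ε • s‖ + ‖ε • s‖ := norm_add_le _ _
        _ ≤ η * ε + ε := add_le_add e1 e0
        _ = (1 + η) * ε := by ring
  rwa [integral_mul_const, kr_int, one_mul] at h3

end Run7.h60.Sc
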