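import Pool.Agent.Run7.h60.AAGlue

/-!
# Almost affine maps at small scales: one stage
-/

set_option autoImplicit false

open Set Filter Topology Metric Function MeasureTheory
open scoped Manifold ContDiff

noncomputable section

namespace Run7.h60.Sc

open Pool.Agent.Y522 Pool.Agent.R765

/-- coordinates of the source and of the target of `f` -/
structure Bx (n : ℕ) {X Y : Type} [TopologicalSpace X] [TopologicalSpace Y] [ChartedSpace (E n) X]
    [ChartedSpace (E n) Y] (f : C(X, Y)) where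
  /-- parametrization of the source -/
  A : E n → X
  /-- coordinates of the target -/
  B : Y → E n
  /-- domain of `B` -/
  V : Set Y
  /-- radius -/
  r : ℝ
  hr : 0 < r
  hAi : InjOn A (closedBall 0 (2 * r))
  hAd : ∀ z ∈ closedBall (0 : E n) (2 * r), LD n A z
  hV : IsOpen V
  hBi : InjOn B V
  hBd : ∀ y ∈ V, LD n B y
  hfV : ∀ z ∈ closedBall (0 : E n) (2 * r), f (A z) ∈ V

namespace Bx

variable {n : ℕ} {X Y : Type} [TopologicalSpace X] [TopologicalSpace Y] [ChartedSpace (E n) X]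
    [ChartedSpace (E n) Y] {f : C(X, Y)} (b : Bx n f)

/-- the map in the coordinates -/
def h (z : E n) : E n := b.B (f (b.A z))

/-- the image of the ball -/
def C : Set X := b.A '' closedBall 0 b.r

/-- the cut-off function -/
def χ : ContDiffBump (0 : E n) := ⟨b.r / 2, b.r, by linarith [b.hr], by linarith [b.hr]⟩

/-- the inverse of `A` -/
def α : X → E n := invFunOn b.A (closedBall 0 (2 * b.r))

lemma α_A {z : E n} (hz : z ∈ closedBall (0 : E n) (2 * b.r)) : b.α (b.A z) = z :=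
  b.hAi.leftInvOn_invFunOn hz

lemma sub_closedBall {z : E n} (hz : z ∈ ball (0 : E n) (3 / 2 * b.r)) :
    z ∈ closedBall (0 : E n) (2 * b.r) := by
  have := b.hr
  exact ball_subset_closedBall (ball_subset_ball (by linarith) hz)

lemma sub_closedBall' {z : E n} (hz : z ∈ closedBall (0 : E n) (3 / 2 * b.r)) :
    z ∈ closedBall (0 : E n) (2 * b.r) := by
  have := b.hr
  exact closedBall_subset_closedBall (by linarith) hz

lemma hcont {z : E n} (hz : z ∈ closedBall (0 : E n) (2 * b.r)) : ContinuousAt b.h z := by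
  have h1 : ContinuousAt (fun z => f (b.A z)) z :=
    f.continuous.continuousAt.comp (b.hAd z hz).continuousAt
  exact ContinuousAt.comp (g := b.B) (f := fun z => f (b.A z)) (b.hBd _ (b.hfV z hz)).continuousAt h1

lemma hcontOn : ContinuousOn b.h (closedBall 0 (2 * b.r)) := fun _ hz =>
  (b.hcont hz).continuousWithinAt

lemma α_LD {z : E n} (hz : z ∈ ball (0 : E n) (2 * b.r)) : LD n b.α (b.A z) :=
  LD.inverse isOpen_ball (fun x hx => b.hAd x (ball_subset_closedBall hx))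
    (fun x hx => b.α_A (ball_subset_closedBall hx)) hz

lemma isOpen_image : IsOpen (b.A '' ball 0 (3 / 2 * b.r)) :=
  isOpen_image_of_LD isOpen_ball fun x hx => b.hAd x (b.sub_closedBall hx)

lemma isCompact_C : IsCompact b.C := by
  apply (isCompact_closedBall _ _).image_of_continuousOn
  intro z hz
  refine (b.hAd z ?_).continuousAt.continuousWithinAt
  have := b.hr
  exact closedBall_subset_closedBall (by linarith) hz

lemma χ_zero {z : E n} (hz : b.r ≤ ‖z‖) : b.χ z = 0 :=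
  b.χ.zero_of_le_dist (by rw [dist_zero_right]; exact hz)

lemma χ_one {z : E n} (hz : ‖z‖ ≤ b.r / 2) : b.χ z = 1 :=
  b.χ.one_of_mem_closedBall (by rw [mem_closedBall_zero_iff]; exact hz)

/-- the margin -/
lemma margin (O : Set (X × Y)) (hO : IsOpen O) (hfO : ∀ x, (x, f x) ∈ O) :
    ∃ e : ℝ, 0 < e ∧ ∀ z ∈ closedBall (0 : E n) (3 / 2 * b.r), ∀ w : E n, ‖w - b.h z‖ ≤ e →
      ∃ y ∈ b.V, b.B y = w ∧ (b.A z, y) ∈ O := by
  have hr := b.hr
  have hY : Nonempty Y := ⟨f (b.A 0)⟩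
  obtain ⟨β, hβd⟩ : ∃ β : E n → Y, β = invFunOn b.B b.V := ⟨_, rfl⟩
  have hβ : ∀ y ∈ b.V, β (b.B y) = y := by
    intro y hy
    rw [hβd]
    exact b.hBi.leftInvOn_invFunOn hy
  have hβL : ∀ y ∈ b.V, LD n β (b.B y) := fun y hy => LD.inverse b.hV b.hBd hβ hy
  have hU : IsOpen (b.B '' b.V) := isOpen_image_of_LD b.hV b.hBd
  have hG : ∀ z ∈ closedBall (0 : E n) (3 / 2 * b.r), ∀ᶠ q : E n × E n in 𝓝 (z, b.h z),
      q.2 ∈ b.B '' b.V ∧ (b.A q.1, β q.2) ∈ O := by
    intro z hz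
    have hxV := b.hfV z (b.sub_closedBall' hz)
    have h1 : ∀ᶠ q : E n × E n in 𝓝 (z, b.h z), q.2 ∈ b.B '' b.V :=
      continuousAt_snd.eventually (hU.mem_nhds ⟨_, hxV, rfl⟩)
    have h2 : ContinuousAt (fun q : E n × E n => (b.A q.1, β q.2)) (z, b.h z) := by
      refine ContinuousAt.prodMk ?_ ?_
      · exact ContinuousAt.comp (g := b.A) (b.hAd z (b.sub_closedBall' hz)).continuousAt
          continuousAt_fst
      · refine ContinuousAt.comp (g := β) ?_ continuousAt_snd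
        exact (hβL _ hxV).continuousAt
    have h3 : (b.A z, β (b.h z)) ∈ O := by
      change (b.A z, β (b.B (f (b.A z)))) ∈ O
      rw [hβ _ hxV]
      exact hfO _
    exact h1.and (h2.eventually (hO.mem_nhds h3))
  have hmar : ∃ e : ℝ, 0 < e ∧ ∀ x ∈ closedBall (0 : E n) (3 / 2 * b.r), ∀ w : E n,
      ‖w - b.h x‖ ≤ e → w ∈ b.B '' b.V ∧ (b.A x, β w) ∈ O := by
    refine (isCompact_closedBall (0 : E n) (3 / 2 * b.r)).induction_on
      (p := fun s => ∃ e : ℝ, 0 < e ∧ ∀ x ∈ s, ∀ w : E n, ‖w - b.h x‖ ≤ e →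
      w ∈ b.B '' b.V ∧ (b.A x, β w) ∈ O) ?_ ?_ ?_ ?_
    · exact ⟨1, one_pos, fun x hx => absurd hx (notMem_empty x)⟩
    · rintro s t hst ⟨e, he, h⟩
      exact ⟨e, he, fun x hx => h x (hst hx)⟩
    · rintro s t ⟨e, he, h⟩ ⟨e', he', h'⟩
      refine ⟨min e e', lt_min he he', fun x hx w hw => ?_⟩
      rcases hx with hx | hx
      · exact h x hx w (hw.trans (min_le_left _ _))
      · exact h' x hx w (hw.trans (min_le_right _ _))
    · intro x hxC
      have h1 := hG x hxC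
      rw [nhds_prod_eq] at h1
      obtain ⟨P1, hP1, P2, hP2, hP⟩ := eventually_prod_iff.1 h1
      obtain ⟨e, he, h2⟩ := Metric.eventually_nhds_iff_ball.1 hP2
      have h3 : ∀ᶠ x' in 𝓝 x, P1 x' ∧ b.h x' ∈ ball (b.h x) (e / 2) :=
        hP1.and ((b.hcont (b.sub_closedBall' hxC)).eventually (ball_mem_nhds _ (by linarith)))
      refine ⟨{x' | P1 x' ∧ b.h x' ∈ ball (b.h x) (e / 2)}, mem_nhdsWithin_of_mem_nhds h3, e / 3,
        by linarith, ?_⟩
      rintro x' ⟨h4, h5⟩ w hw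
      refine hP h4 (h2 w ?_)
      rw [mem_ball, dist_eq_norm] at h5 ⊢
      have h6 : w - b.h x = (w - b.h x') + (b.h x' - b.h x) := by abel
      rw [h6]
      refine (norm_add_le _ _).trans_lt ?_
      linarith
  obtain ⟨e, he, hm⟩ := hmar
  refine ⟨e, he, fun z hz w hw => ?_⟩
  obtain ⟨⟨y, hy, hyw⟩, h2⟩ := hm z hz w hw
  refine ⟨y, hy, hyw, ?_⟩
  rwa [← hyw, hβ y hy] at h2

/-- the neighbourhood of the graph -/
def nb (e : ℝ) : Set (X × Y) := {p | p.1 ∉ b.A '' closedBall 0 (3 / 2 * b.r) ∨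
  (f p.1 ∈ b.V ∧ p.2 ∈ b.V ∧ ‖b.B p.2 - b.B (f p.1)‖ < e)}

lemma nb_open [T2Space X] (e : ℝ) : IsOpen (b.nb e) := by
  have h0 : IsCompact (b.A '' closedBall 0 (3 / 2 * b.r)) := by
    apply (isCompact_closedBall _ _).image_of_continuousOn
    intro z hz
    exact (b.hAd z (b.sub_closedBall' hz)).continuousAt.continuousWithinAt
  have h1 : IsOpen {p : X × Y | p.1 ∉ b.A '' closedBall 0 (3 / 2 * b.r)} :=
    h0.isClosed.isOpen_compl.preimage continuous_fst
  have h2 : IsOpen {p : X × Y | f p.1 ∈ b.V ∧ p.2 ∈ b.V ∧ ‖b.B p.2 - b.B (f p.1)‖ < e} := by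
    rw [isOpen_iff_mem_nhds]
    rintro p ⟨g1, g2, g3⟩
    have c1 : ContinuousAt (fun p : X × Y => f p.1) p := by fun_prop
    have c2 : ContinuousAt (fun p : X × Y => b.B p.2 - b.B (f p.1)) p :=
      (ContinuousAt.comp (g := b.B) (f := Prod.snd) (b.hBd _ g2).continuousAt
        continuousAt_snd).sub
        (ContinuousAt.comp (g := b.B) (f := fun p : X × Y => f p.1) (b.hBd _ g1).continuousAt c1)
    filter_upwards [c1.eventually (b.hV.mem_nhds g1), continuousAt_snd.eventually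
      (b.hV.mem_nhds g2), c2.norm.eventually_lt_const g3] with q q1 q2 q3
    exact ⟨q1, q2, q3⟩
  exact h1.union h2

lemma nb_mem {e : ℝ} (he : 0 < e) (x : X) : (x, f x) ∈ b.nb e := by
  by_cases hx : x ∈ b.A '' closedBall 0 (3 / 2 * b.r)
  · right
    obtain ⟨z, hz, rfl⟩ := hx
    refine ⟨b.hfV z (b.sub_closedBall' hz), b.hfV z (b.sub_closedBall' hz), ?_⟩
    rw [sub_self, norm_zero]
    exact he
  · exact Or.inl hx

lemma nb_of {e : ℝ} {z : E n} {y : Y} (hz : z ∈ closedBall (0 : E n) (3 / 2 * b.r))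
    (h : (b.A z, y) ∈ b.nb e) : y ∈ b.V ∧ ‖b.B y - b.h z‖ < e := by
  rcases h with h | h
  · exact absurd ⟨z, hz, rfl⟩ h
  · exact h.2

/-- the cut-off function on the manifold -/
def χX (x : X) : ℝ := by
  classical
  exact if x ∈ b.A '' ball 0 (3 / 2 * b.r) then b.χ (b.α x) else 0

lemma χX_A {z : E n} (hz : z ∈ ball (0 : E n) (3 / 2 * b.r)) : b.χX (b.A z) = b.χ z := by
  unfold χX
  rw [if_pos ⟨z, hz, rfl⟩, b.α_A (b.sub_closedBall hz)]

lemma χX_zero {x : X} (hx : x ∉ b.C) : b.χX x = 0 := by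
  by_cases h : x ∈ b.A '' ball 0 (3 / 2 * b.r)
  · obtain ⟨z, hz, rfl⟩ := h
    rw [b.χX_A hz]
    apply b.χ_zero
    by_contra hc
    exact hx ⟨z, mem_closedBall_zero_iff.2 (not_le.1 hc).le, rfl⟩
  · unfold χX
    rw [if_neg h]

end Bx

section stage

variable {n : ℕ} {X Y : Type} [TopologicalSpace X] [T2Space X] [TopologicalSpace Y]
    [ChartedSpace (E n) X] [ChartedSpace (E n) Y]

/-- one stage of the smoothing -/
theorem stage (f : C(X, Y)) (b : Bx n f) {ε : ℕ → ℝ} (hε : ∀ m, 0 < ε m)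
    (hε0 : Tendsto ε atTop (𝓝 0)) (G : ℕ → C(X, Y)) (K : Set X)
    (hG : ∀ O : Set (X × Y), IsOpen O → (∀ x, (x, f x) ∈ O) → ∀ᶠ m in atTop, HomRel O K f (G m)) :
    ∃ G' : ℕ → C(X, Y),
      (∀ O : Set (X × Y), IsOpen O → (∀ x, (x, f x) ∈ O) →
        ∀ᶠ m in atTop, HomRel O (K ∪ b.C) f (G' m)) ∧
      (∀ᶠ m in atTop, ∀ x, x ∉ b.C → G' m x = G m x) ∧
      ∀ᶠ m in atTop, ∀ z ∈ ball (0 : E n) (3 / 2 * b.r), G m (b.A z) ∈ b.V ∧
        G' m (b.A z) ∈ b.V ∧ b.B (G' m (b.A z)) =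
          b.B (G m (b.A z)) + b.χ z • (mo b.h (ε m) z - b.B (G m (b.A z))) := by
  classical
  have hr := b.hr
  have hCb : ∀ z ∈ closedBall (0 : E n) b.r, z ∈ closedBall (0 : E n) (3 / 2 * b.r) := fun z hz =>
    closedBall_subset_closedBall (by linarith) hz
  have hCb' : ∀ z ∈ closedBall (0 : E n) b.r, z ∈ ball (0 : E n) (3 / 2 * b.r) := fun z hz =>
    closedBall_subset_ball (by linarith) hz
  -- the segments
  have hsegs : ∀ O : Set (X × Y), IsOpen O → (∀ x, (x, f x) ∈ O) → ∀ᶠ m in atTop,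
      (∀ z ∈ closedBall (0 : E n) (3 / 2 * b.r), G m (b.A z) ∈ b.V) ∧
      (∀ z ∈ closedBall (0 : E n) (3 / 2 * b.r), ContDiffAt ℝ ∞ (mo b.h (ε m)) z) ∧
      ∀ z ∈ closedBall (0 : E n) b.r, ∀ s : ℝ, 0 ≤ s → s ≤ 1 → ∃ y ∈ b.V, b.B y =
        b.B (G m (b.A z)) + s • (mo b.h (ε m) z - b.B (G m (b.A z))) ∧ (b.A z, y) ∈ O := by
    intro O hO hfO
    obtain ⟨e, he, hm⟩ := b.margin O hO hfO
    have h1 := hG (b.nb e) (b.nb_open e) (b.nb_mem he)
    have h2 := mo_close_unif hε hε0 hr b.hcontOn he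
    filter_upwards [h1, h2] with m g1 g2
    refine ⟨fun z hz => (b.nb_of hz (g1.off _).1).1, fun z hz => (g2 z hz).2.1,
      fun z hz s hs0 hs1 => ?_⟩
    refine hm z (hCb z hz) _ ?_
    have g3 := (b.nb_of (hCb z hz) (g1.off _).1).2
    have g4 := (g2 z (hCb z hz)).2.2
    have e1 : b.B (G m (b.A z)) + s • (mo b.h (ε m) z - b.B (G m (b.A z))) - b.h z =
        (1 - s) • (b.B (G m (b.A z)) - b.h z) + s • (mo b.h (ε m) z - b.h z) := by
      module
    rw [e1]
    refine (norm_add_le _ _).trans ?_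
    rw [norm_smul, norm_smul, Real.norm_of_nonneg hs0, Real.norm_of_nonneg (by linarith)]
    have h1s : 0 ≤ 1 - s := by linarith
    calc _ ≤ (1 - s) * e + s * e :=
          add_le_add (mul_le_mul_of_nonneg_left g3.le h1s) (mul_le_mul_of_nonneg_left g4 hs0)
      _ = e := by ring
  obtain ⟨F', hF'⟩ : ∃ F' : ℕ → X → E n, ∀ m x, F' m x = b.B (G m x) +
      b.χX x • (mo b.h (ε m) (b.α x) - b.B (G m x)) := ⟨_, fun _ _ => rfl⟩
  have hFA : ∀ m, ∀ z ∈ ball (0 : E n) (3 / 2 * b.r), F' m (b.A z) = b.B (G m (b.A z)) +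
      b.χ z • (mo b.h (ε m) z - b.B (G m (b.A z))) := by
    intro m z hz
    rw [hF', b.χX_A hz, b.α_A (b.sub_closedBall hz)]
  have hFC : ∀ m x, x ∉ b.C → F' m x = b.B (G m x) := by
    intro m x hx
    rw [hF', b.χX_zero hx, zero_smul, add_zero]
  have key : ∀ᶠ m in atTop, ∃ g : C(X, Y), (∀ x, x ∉ b.C → g x = G m x) ∧
      (∀ x, G m x ∈ b.V → g x ∈ b.V ∧ b.B (g x) = F' m x) ∧
      ∀ O : Set (X × Y), (∀ x, (x, G m x) ∈ O) → (∀ x ∈ b.C, ∀ s : unitInterval, ∃ y ∈ b.V,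
        b.B y = b.B (G m x) + (s : ℝ) • (F' m x - b.B (G m x)) ∧ (x, y) ∈ O) →
          HomRel O b.C (G m) g := by
    filter_upwards [hsegs univ isOpen_univ (fun _ => mem_univ _)] with m hm
    obtain ⟨h1, h2, h3⟩ := hm
    refine glueSeg (G m) b.C b.V b.B (F' m) b.isCompact_C.isClosed b.hV b.hBi b.hBd ?_ ?_
      (fun x hx => hFC m x hx) ?_
    · rintro _ ⟨z, hz, rfl⟩
      exact h1 z (hCb z hz)
    · intro x hx
      by_cases hxb : x ∈ b.A '' ball 0 (3 / 2 * b.r)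
      · have he : F' m =ᶠ[𝓝 x] fun x => b.B (G m x) +
            b.χ (b.α x) • (mo b.h (ε m) (b.α x) - b.B (G m x)) := by
          filter_upwards [b.isOpen_image.mem_nhds hxb] with y hy
          obtain ⟨z, hz, rfl⟩ := hy
          rw [hFA m z hz, b.α_A (b.sub_closedBall hz)]
        rw [continuousAt_congr he]
        have c1 : ContinuousAt (fun x => b.B (G m x)) x :=
          ContinuousAt.comp (g := b.B) (f := G m) (b.hBd _ hx).continuousAt
            (G m).continuous.continuousAt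
        obtain ⟨z, hz, rfl⟩ := hxb
        have hz2 : z ∈ ball (0 : E n) (2 * b.r) := ball_subset_ball (by linarith) hz
        have c2 : ContinuousAt b.α (b.A z) := (b.α_LD hz2).continuousAt
        have c3 : ContinuousAt (fun x => b.χ (b.α x)) (b.A z) :=
          ContinuousAt.comp (g := b.χ) (f := b.α) b.χ.continuous.continuousAt c2
        have c4 : ContinuousAt (fun x => mo b.h (ε m) (b.α x)) (b.A z) := by
          refine ContinuousAt.comp (g := mo b.h (ε m)) (f := b.α) ?_ c2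
          rw [b.α_A (b.sub_closedBall hz)]
          exact (h2 z (ball_subset_closedBall hz)).continuousAt
        exact c1.add (c3.smul (c4.sub c1))
      · have hxC : x ∉ b.C := by
          rintro ⟨z, hz, rfl⟩
          exact hxb ⟨z, hCb' z hz, rfl⟩
        have he : F' m =ᶠ[𝓝 x] fun x => b.B (G m x) := by
          filter_upwards [b.isCompact_C.isClosed.isOpen_compl.mem_nhds hxC] with y hy
          exact hFC m y hy
        rw [continuousAt_congr he]
        exact ContinuousAt.comp (g := b.B) (f := G m) (b.hBd _ hx).continuousAt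
          (G m).continuous.continuousAt
    · rintro _ ⟨z, hz, rfl⟩ s
      rw [hFA m z (hCb' z hz), add_sub_cancel_left, smul_smul]
      obtain ⟨y, hy, hyB, -⟩ := h3 z hz ((s : ℝ) * b.χ z) (mul_nonneg s.2.1 b.χ.nonneg)
        (mul_le_one₀ s.2.2 b.χ.nonneg b.χ.le_one)
      exact ⟨y, hy, hyB⟩
  obtain ⟨G', hG'⟩ : ∃ G' : ℕ → C(X, Y), ∀ᶠ m in atTop, (∀ x, x ∉ b.C → G' m x = G m x) ∧
      (∀ x, G m x ∈ b.V → G' m x ∈ b.V ∧ b.B (G' m x) = F' m x) ∧
      ∀ O : Set (X × Y), (∀ x, (x, G m x) ∈ O) → (∀ x ∈ b.C, ∀ s : unitInterval, ∃ y ∈ b.V,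
        b.B y = b.B (G m x) + (s : ℝ) • (F' m x - b.B (G m x)) ∧ (x, y) ∈ O) →
          HomRel O b.C (G m) (G' m) := by
    refine ⟨fun m => if h : ∃ g : C(X, Y), (∀ x, x ∉ b.C → g x = G m x) ∧
      (∀ x, G m x ∈ b.V → g x ∈ b.V ∧ b.B (g x) = F' m x) ∧
      ∀ O : Set (X × Y), (∀ x, (x, G m x) ∈ O) → (∀ x ∈ b.C, ∀ s : unitInterval, ∃ y ∈ b.V,
        b.B y = b.B (G m x) + (s : ℝ) • (F' m x - b.B (G m x)) ∧ (x, y) ∈ O) →
          HomRel O b.C (G m) g then h.choose else f, ?_⟩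
    filter_upwards [key] with m hm
    rw [dif_pos hm]
    exact hm.choose_spec
  refine ⟨G', fun O hO hfO => ?_, hG'.mono fun _ h => h.1, ?_⟩
  · filter_upwards [hG', hG O hO hfO, hsegs O hO hfO] with m g1 g2 g3
    refine g2.trans (g1.2.2 O (fun x => (g2.off x).1) ?_)
    rintro _ ⟨z, hz, rfl⟩ s
    rw [hFA m z (hCb' z hz), add_sub_cancel_left, smul_smul]
    exact g3.2.2 z hz ((s : ℝ) * b.χ z) (mul_nonneg s.2.1 b.χ.nonneg)
      (mul_le_one₀ s.2.2 b.χ.nonneg b.χ.le_one)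
  · filter_upwards [hG', hsegs univ isOpen_univ (fun _ => mem_univ _)] with m g1 g2 z hz
    have g3 := g2.1 z (ball_subset_closedBall hz)
    have g4 := g1.2.1 _ g3
    exact ⟨g3, g4.1, by rw [g4.2, hFA m z hz]⟩

end stage

end Run7.h60.Sc
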