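import Mathlib

/-! Angle functions for curves on the unit circle. -/

open Set MeasureTheory intervalIntegral Filter
open scoped Topology

namespace Run7.h60

lemma exists_primitive {h : ℝ → ℝ} (hh : Continuous h) (a₀ : ℝ) :
    ∃ a : ℝ → ℝ, a 0 = a₀ ∧ ∀ t, HasDerivAt a (h t) t := by
  refine ⟨fun t => a₀ + ∫ s in (0:ℝ)..t, h s, by simp, ?_⟩
  intro t
  exact (intervalIntegral.integral_hasDerivAt_right (hh.intervalIntegrable _ _)
    (hh.stronglyMeasurableAtFilter _ _) hh.continuousAt).const_add a₀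

/-- On `[0,∞)`. -/
lemma angle_eq {p q h a : ℝ → ℝ} (hp : ∀ t, 0 ≤ t → HasDerivAt p (-(h t * q t)) t)
    (hq : ∀ t, 0 ≤ t → HasDerivAt q (h t * p t) t) (hn : ∀ t, 0 ≤ t → p t ^ 2 + q t ^ 2 = 1)
    (ha : ∀ t, HasDerivAt a (h t) t) (hp0 : p 0 = Real.cos (a 0)) (hq0 : q 0 = Real.sin (a 0)) :
    ∀ t, 0 ≤ t → p t = Real.cos (a t) ∧ q t = Real.sin (a t) := by
  intro t ht
  have hd : ∀ s, 0 ≤ s → HasDerivAt (fun t => p t * Real.cos (a t) + q t * Real.sin (a t)) 0 s := by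
    intro s hs
    refine (((hp s hs).mul (ha s).cos).add ((hq s hs).mul (ha s).sin)).congr_deriv ?_
    ring
  have h1 : p t * Real.cos (a t) + q t * Real.sin (a t) = 1 := by
    have h2 := constant_of_has_deriv_right_zero (a := 0) (b := t)
      (f := fun t => p t * Real.cos (a t) + q t * Real.sin (a t))
      (fun s hs => (hd s hs.1).continuousAt.continuousWithinAt)
      (fun s hs => (hd s hs.1).hasDerivWithinAt) t ⟨ht, le_rfl⟩
    rw [h2, hp0, hq0]
    have := Real.sin_sq_add_cos_sq (a 0)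
    nlinarith
  have h3 := hn t ht
  have h4 := Real.sin_sq_add_cos_sq (a t)
  have h5 : (p t - Real.cos (a t)) ^ 2 + (q t - Real.sin (a t)) ^ 2 = 0 := by nlinarith
  constructor
  · nlinarith [sq_nonneg (p t - Real.cos (a t)), sq_nonneg (q t - Real.sin (a t))]
  · nlinarith [sq_nonneg (p t - Real.cos (a t)), sq_nonneg (q t - Real.sin (a t))]

lemma exists_angle {x y : ℝ} (h : x ^ 2 + y ^ 2 = 1) : ∃ a, x = Real.cos a ∧ y = Real.sin a := by
  have h1 : Complex.normSq ⟨x, y⟩ = 1 := by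
    rw [Complex.normSq_mk]; nlinarith
  have h2 : ‖(⟨x, y⟩ : ℂ)‖ = 1 := by
    have := Complex.normSq_eq_norm_sq (⟨x, y⟩ : ℂ)
    rw [h1] at this
    have h3 := norm_nonneg (⟨x, y⟩ : ℂ)
    nlinarith
  refine ⟨Complex.arg ⟨x, y⟩, ?_, ?_⟩
  · have h3 := Complex.norm_mul_cos_arg ⟨x, y⟩
    rw [h2, one_mul] at h3; exact h3.symm
  · have h3 := Complex.norm_mul_sin_arg ⟨x, y⟩
    rw [h2, one_mul] at h3; exact h3.symm

/-- A continuous function on `[0,∞)` with `c ≤ |h|` is `≥ c` or `≤ -c`. -/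
lemma sign_of_abs_ge {h : ℝ → ℝ} {c : ℝ} (hh : Continuous h) (hc : 0 < c)
    (hb : ∀ t, 0 ≤ t → c ≤ |h t|) : (∀ t, 0 ≤ t → c ≤ h t) ∨ (∀ t, 0 ≤ t → h t ≤ -c) := by
  rcases le_abs'.1 (hb 0 le_rfl) with h0 | h0
  · right
    intro t ht
    by_contra hcon
    have h1 : c ≤ h t := by
      rcases le_abs'.1 (hb t ht) with h2 | h2
      · exact absurd h2 hcon
      · exact h2
    have h3 : (0:ℝ) ∈ Icc (h 0) (h t) := ⟨by linarith, by linarith⟩
    obtain ⟨s, hs, hs0⟩ := intermediate_value_Icc ht hh.continuousOn h3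
    have := hb s hs.1
    rw [hs0, abs_zero] at this
    linarith
  · left
    intro t ht
    by_contra hcon
    have h1 : h t ≤ -c := by
      rcases le_abs'.1 (hb t ht) with h2 | h2
      · exact h2
      · exact absurd h2 hcon
    have h3 : (0:ℝ) ∈ Icc (h t) (h 0) := ⟨by linarith, by linarith⟩
    obtain ⟨s, hs, hs0⟩ := intermediate_value_Icc' ht hh.continuousOn h3
    have := hb s hs.1
    rw [hs0, abs_zero] at this
    linarith

lemma exists_neg_one_aux {p q h : ℝ → ℝ} {c : ℝ} (hh : Continuous h) (hc : 0 < c)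
    (hb : ∀ t, 0 ≤ t → c ≤ h t) (hp : ∀ t, 0 ≤ t → HasDerivAt p (-(h t * q t)) t)
    (hq : ∀ t, 0 ≤ t → HasDerivAt q (h t * p t) t) (hn : ∀ t, 0 ≤ t → p t ^ 2 + q t ^ 2 = 1) :
    ∃ t, 0 ≤ t ∧ p t = -1 := by
  obtain ⟨a₀, h1, h2⟩ := exists_angle (hn 0 le_rfl)
  obtain ⟨a, ha0, ha⟩ := exists_primitive hh a₀
  have h3 := angle_eq hp hq hn ha (by rw [ha0]; exact h1) (by rw [ha0]; exact h2)
  -- choose an integer
  obtain ⟨n, hn'⟩ := exists_nat_ge (a₀ / (2 * Real.pi))
  have hpi := Real.pi_pos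
  have hn2 : a₀ ≤ n * (2 * Real.pi) + Real.pi := by
    rw [div_le_iff₀ (by positivity)] at hn'
    linarith
  obtain ⟨T, hT⟩ : ∃ T, T = (n * (2 * Real.pi) + Real.pi - a₀) / c := ⟨_, rfl⟩
  have hT0 : 0 ≤ T := by rw [hT]; apply div_nonneg _ hc.le; linarith
  have hac : Continuous a := continuous_iff_continuousAt.2 fun t => (ha t).continuousAt
  have haT : n * (2 * Real.pi) + Real.pi ≤ a T := by
    have h4 : ∀ x ∈ Icc 0 T, a₀ + c * x ≤ a x := by
      have := image_le_of_deriv_right_le_deriv_boundary (f := fun x => a₀ + c * x)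
        (f' := fun _ => c) (a := 0) (b := T) (B := a) (B' := h)
        (by fun_prop)
        (fun x _ => by
          have : HasDerivAt (fun x : ℝ => a₀ + c * x) c x := by
            simpa using ((hasDerivAt_id x).const_mul c).const_add a₀
          exact this.hasDerivWithinAt)
        (by simp [ha0]) hac.continuousOn (fun x _ => (ha x).hasDerivWithinAt)
        (fun x hx => hb x hx.1)
      intro x hx
      exact this hx
    have h5 := h4 T ⟨hT0, le_rfl⟩
    have h6 : c * T = n * (2 * Real.pi) + Real.pi - a₀ := by rw [hT]; field_simp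
    linarith
  have h7 : n * (2 * Real.pi) + Real.pi ∈ Icc (a 0) (a T) := ⟨by rw [ha0]; exact hn2, haT⟩
  obtain ⟨s, hs, hs1⟩ := intermediate_value_Icc hT0 hac.continuousOn h7
  refine ⟨s, hs.1, ?_⟩
  rw [(h3 s hs.1).1, hs1, Real.cos_nat_mul_two_pi_add_pi]

/-- A curve on the circle with angular speed bounded below reaches `(-1,0)`. -/
lemma exists_neg_one {p q h : ℝ → ℝ} {c : ℝ} (hh : Continuous h) (hc : 0 < c)
    (hb : ∀ t, 0 ≤ t → c ≤ |h t|) (hp : ∀ t, 0 ≤ t → HasDerivAt p (-(h t * q t)) t)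
    (hq : ∀ t, 0 ≤ t → HasDerivAt q (h t * p t) t) (hn : ∀ t, 0 ≤ t → p t ^ 2 + q t ^ 2 = 1) :
    ∃ t, 0 ≤ t ∧ p t = -1 := by
  rcases sign_of_abs_ge hh hc hb with h1 | h1
  · exact exists_neg_one_aux hh hc h1 hp hq hn
  · apply exists_neg_one_aux (h := fun t => - h t) (q := fun t => - q t) hh.neg hc
      (fun t ht => by linarith [h1 t ht])
    · intro t ht
      refine (hp t ht).congr_deriv ?_
      ring
    · intro t ht
      refine (hq t ht).neg.congr_deriv ?_
      ring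
    · intro t ht
      rw [← hn t ht]; ring

end Run7.h60
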