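import Pool.Agent.Run7.h60.Exit

/-! Geodesics in the circle `z = 0`, and the first exit from `z > 0`. -/

set_option maxSynthPendingDepth 3

open Set MeasureTheory intervalIntegral Filter
open scoped Topology ContDiff RealInnerProductSpace NNReal

namespace Run7.h60

variable {g : R3 → R3 →L[ℝ] R3 →L[ℝ] ℝ}

lemma UGeod.norm_deriv_ge (hg : SphMetric g) :
    ∃ c : ℝ, 0 < c ∧ ∀ γ, UGeod g γ → ∀ t, c ≤ ‖deriv γ t‖ := by
  have hS : IsCompact (Metric.sphere (0 : R3) 1) := isCompact_sphere _ _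
  obtain ⟨r, m, M, C, hr, hm, hM, hC, H⟩ := (metricOn_ext hg).exists_bounds hS sphere_subset
  refine ⟨1 / M, by positivity, ?_⟩
  intro γ h s
  have h1 := ((H (γ s) (h.mem s) (γ s) (by simpa using hr.le)).2 (deriv γ s)).2.1
  rw [h.speed s] at h1
  rw [div_le_iff₀ hM]
  linarith

/-- A geodesic tangent to the circle `z = 0` stays in it. -/
lemma in_circle (hg : SphMetric g) (hZ : Preserves g sZ) {η : ℝ → R3} (h : UGeod g η)
    (h0 : η 0 2 = 0) (h1 : deriv η 0 2 = 0) (t : ℝ) : η t 2 = 0 := by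
  have h2 := h.map hg hZ
  have h3 := UGeod.unique hg h2 h (by
    apply ext3
    · simp only [sZ_0]
    · simp only [sZ_1]
    · simp only [sZ_2]; rw [h0, neg_zero]) (by
    rw [h.deriv_map]
    apply ext3
    · simp only [sZ_0]
    · simp only [sZ_1]
    · simp only [sZ_2]; rw [h1, neg_zero])
  have h4 := congrArg (fun f => f t 2) h3
  simp only [sZ_2] at h4
  linarith

/-- Angular velocity in the circle `z = 0`. -/
noncomputable def av (η : ℝ → R3) (t : ℝ) : ℝ := η t 0 * deriv η t 1 - η t 1 * deriv η t 0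

lemma continuous_av {η : ℝ → R3} (h : UGeod g η) : Continuous (av η) :=
  ((cont_coord h 0).mul ((continuous_coord 1).comp h.continuous_deriv)).sub
    ((cont_coord h 1).mul ((continuous_coord 0).comp h.continuous_deriv))

lemma deriv_coord_zero {η : ℝ → R3} (h : UGeod g η) (hz : ∀ t, η t 2 = 0) (t : ℝ) :
    deriv η t 2 = 0 := by
  have e1 := hasDerivAt_coord (h.hasDerivAt t) 2
  have e2 : (fun t => η t 2) = fun _ => (0:ℝ) := funext hz
  rw [e2] at e1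
  exact (e1.unique (hasDerivAt_const t (0:ℝ)))

lemma circ_eqs {η : ℝ → R3} (h : UGeod g η) (hz : ∀ t, η t 2 = 0) (t : ℝ) :
    η t 0 ^ 2 + η t 1 ^ 2 = 1 ∧ η t 0 * deriv η t 0 + η t 1 * deriv η t 1 = 0 ∧
      deriv η t 0 = -(av η t * η t 1) ∧ deriv η t 1 = av η t * η t 0 ∧
      av η t ^ 2 = ‖deriv η t‖ ^ 2 ∧ deriv η t = (-(av η t)) • jv (η t) := by
  have h1 := mem_S2.1 (h.mem t)
  have h2 := h.tangent t
  have h3 := deriv_coord_zero h hz t
  rw [inner3, hz t] at h2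
  rw [hz t] at h1
  have a1 : η t 0 ^ 2 + η t 1 ^ 2 = 1 := by linarith
  have a2 : η t 0 * deriv η t 0 + η t 1 * deriv η t 1 = 0 := by linarith
  have a3 : deriv η t 0 = -(av η t * η t 1) := by
    unfold av; linear_combination (-deriv η t 0) * a1 + η t 0 * a2
  have a4 : deriv η t 1 = av η t * η t 0 := by
    unfold av; linear_combination (-deriv η t 1) * a1 + η t 1 * a2
  refine ⟨a1, a2, a3, a4, ?_, ?_⟩
  · rw [norm3, h3]
    unfold av
    linear_combination (deriv η t 0 ^ 2 + deriv η t 1 ^ 2) * a1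
      - (η t 0 * deriv η t 0 + η t 1 * deriv η t 1) * a2
  · apply ext3
    · simp only [jv, PiLp.smul_apply, smul_eq_mul]
      rw [a3]; simp
    · simp only [jv, PiLp.smul_apply, smul_eq_mul]
      rw [a4]; simp
    · rw [h3]; simp [jv]

lemma av_abs_ge (hg : SphMetric g) : ∃ c : ℝ, 0 < c ∧ ∀ η, UGeod g η → (∀ t, η t 2 = 0) →
    ∀ t, c ≤ |av η t| := by
  obtain ⟨c, hc, H⟩ := UGeod.norm_deriv_ge hg
  refine ⟨c, hc, ?_⟩
  intro η h hz t
  obtain ⟨a1, a2, a3, a4, a5, a6⟩ := circ_eqs h hz t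
  have e2 : |av η t| = ‖deriv η t‖ := by
    rw [← abs_of_nonneg (norm_nonneg (deriv η t))]
    exact (sq_eq_sq_iff_abs_eq_abs _ _).1 a5
  rw [e2]; exact H η h t

/-- First exit time from `z > 0`. -/
def IsExit (γ : ℝ → R3) (T : ℝ) : Prop :=
  0 < T ∧ (∀ t ∈ Ico 0 T, 0 < γ t 2) ∧ γ T 2 = 0

lemma exists_isExit (hg : SphMetric g) (hQ : Signed g) {γ : ℝ → R3} (h : UGeod g γ)
    (hx0 : γ 0 0 = 0) (hz0 : 0 < γ 0 2) (hvx : 0 < deriv γ 0 0) : ∃ T, IsExit γ T := by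
  obtain ⟨s, hs0, hs⟩ := exists_exit hg hQ h hx0 hz0 hvx
  have hAc : IsCompact (Icc 0 s ∩ {t | γ t 2 ≤ 0}) :=
    isCompact_Icc.inter_right (isClosed_le (cont_coord h 2) continuous_const)
  obtain ⟨T, hT, hleast⟩ := hAc.exists_isLeast ⟨s, ⟨hs0, le_rfl⟩, hs⟩
  have hT2 : γ T 2 ≤ 0 := hT.2
  have hT0 : 0 < T := by
    rcases hT.1.1.eq_or_lt with h1 | h1
    · rw [← h1] at hT2; exact absurd hT2 (not_le.2 hz0)
    · exact h1
  have hpos : ∀ t ∈ Ico 0 T, 0 < γ t 2 := by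
    intro t ht
    by_contra hcon
    push Not at hcon
    exact absurd (hleast ⟨⟨ht.1, ht.2.le.trans hT.1.2⟩, hcon⟩) (not_le.2 ht.2)
  refine ⟨T, hT0, hpos, le_antisymm hT2 ?_⟩
  have h1 : (T:ℝ) ∈ closure (Ico 0 T) := by
    rw [closure_Ico hT0.ne]; exact ⟨hT0.le, le_rfl⟩
  have h2 : closure (Ico 0 T) ⊆ {t | 0 ≤ γ t 2} :=
    closure_minimal (fun t ht => (hpos t ht).le) (isClosed_le continuous_const (cont_coord h 2))
  exact h2 h1

/-- At the exit. -/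
lemma at_exit (hg : SphMetric g) (hQ : Signed g) {γ : ℝ → R3} (h : UGeod g γ)
    (hx0 : γ 0 0 = 0) (hz0 : 0 < γ 0 2) (hvx : 0 < deriv γ 0 0) {T : ℝ} (hT : IsExit γ T) :
    0 < γ T 0 ∧ deriv γ T 2 < 0 ∧ (∀ t ∈ Icc 0 T, 0 ≤ γ t 0) := by
  obtain ⟨h1, h2⟩ := quarter hg hQ h hx0 hz0 hvx hT.2.1
  have hx : ∀ t ∈ Ico 0 T, 0 ≤ γ t 0 := by
    intro t ht
    rcases ht.1.eq_or_lt with h3 | h3
    · rw [← h3, hx0]
    · exact (h1 t ⟨h3, ht.2⟩).le
  have h3 : 0 ≤ γ T 0 := by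
    have h4 : (T:ℝ) ∈ closure (Ico 0 T) := by
      rw [closure_Ico hT.1.ne]; exact ⟨hT.1.le, le_rfl⟩
    have h5 : closure (Ico 0 T) ⊆ {t | 0 ≤ γ t 0} :=
      closure_minimal hx (isClosed_le continuous_const (cont_coord h 0))
    exact h5 h4
  have h4 := h2 T ⟨hT.1.le, le_rfl⟩
  unfold zt at h4
  rw [hT.2.2, zero_mul, zero_sub] at h4
  have h5 : 0 < γ T 0 := by
    rcases h3.eq_or_lt with h6 | h6
    · rw [← h6, zero_mul, neg_zero] at h4; exact absurd h4 (lt_irrefl _)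
    · exact h6
  refine ⟨h5, by nlinarith, ?_⟩
  intro t ht
  rcases ht.2.eq_or_lt with h6 | h6
  · rw [h6]; exact h3
  · exact hx t ⟨ht.1, h6⟩

end Run7.h60
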