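import Mathlib

/-! Definitions used in the statements: Riemannian metrics on the unit 2-sphere, geodesic arcs,
and stationary Theta-graphs. -/

set_option autoImplicit false

namespace Run7.h60

/-- Euclidean 3-space. -/
abbrev R3 : Type := EuclideanSpace ℝ (Fin 3)

/-- The unit sphere of Euclidean 3-space. -/
abbrev S2 : Set R3 := Metric.sphere (0 : R3) 1

/-- Bilinear forms on Euclidean 3-space. -/
abbrev Form : Type := R3 →L[ℝ] R3 →L[ℝ] ℝ

/-- The value of a bilinear form. -/
noncomputable def Form.val (B : Form) (v w : R3) : ℝ := B v w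

/-- A smooth family of bilinear forms. -/
def SmoothFamily (g : R3 → Form) : Prop := ContDiff ℝ ((⊤ : ℕ∞) : WithTop ℕ∞) g

/-- A smooth curve. -/
def SmoothCurve (γ : ℝ → R3) : Prop := ContDiff ℝ ((⊤ : ℕ∞) : WithTop ℕ∞) γ

/-- A continuously differentiable curve. -/
def C1Curve (c : ℝ → R3) : Prop := ContDiff ℝ 1 c

/-- The velocity of a curve. -/
noncomputable def vel (γ : ℝ → R3) (t : ℝ) : R3 := deriv γ t

/-- `v` is tangent to the unit sphere at `x`. -/
def Tangent (x v : R3) : Prop := inner ℝ x v = (0 : ℝ)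

/-- `g` is a smooth family of bilinear forms on Euclidean 3-space which restricts, on the tangent
planes of the unit sphere, to a Riemannian metric of the sphere. -/
structure IsMetric (g : R3 → Form) : Prop where
  smooth : SmoothFamily g
  symm : ∀ x ∈ S2, ∀ v w : R3, Tangent x v → Tangent x w → (g x).val v w = (g x).val w v
  pos : ∀ x ∈ S2, ∀ v : R3, Tangent x v → v ≠ 0 → 0 < (g x).val v v

/-- The `g`-length of the velocity of the curve `c` at the time `t`. -/
noncomputable def speed (g : R3 → Form) (c : ℝ → R3) (t : ℝ) : ℝ :=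
  Real.sqrt ((g (c t)).val (vel c t) (vel c t))

/-- The `g`-length of the curve `c` between the times `a` and `b`. -/
noncomputable def len (g : R3 → Form) (c : ℝ → R3) (a b : ℝ) : ℝ :=
  ∫ s in a..b, speed g c s

/-- The restriction of the smooth curve `γ` to `[0,1]` is a regular, locally length-minimizing
arc of the sphere, i.e. a geodesic arc. -/
structure IsGeodesicArc (g : R3 → Form) (γ : ℝ → R3) : Prop where
  smooth : SmoothCurve γ
  mem : ∀ t ∈ Set.Icc (0:ℝ) 1, γ t ∈ S2 ∧ vel γ t ≠ 0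
  minimizing : ∀ t ∈ Set.Icc (0:ℝ) 1, ∃ ε > 0, ∀ a b : ℝ, 0 ≤ a → a < b → b ≤ 1 →
    t - ε < a → b < t + ε → ∀ c : ℝ → R3, C1Curve c → (∀ s ∈ Set.Icc (0:ℝ) 1, c s ∈ S2) →
      c 0 = γ a → c 1 = γ b → len g γ a b ≤ len g c 0 1

/-- The `g`-unit tangent vector of the curve `γ` at the time `t`. -/
noncomputable def unitTangent (g : R3 → Form) (γ : ℝ → R3) (t : ℝ) : R3 :=
  (speed g γ t)⁻¹ • vel γ t

/-- The three curves form a stationary Theta-graph of `g`: they are geodesic arcs joining the same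
two distinct points, embedded and disjoint away from these, and their unit tangent vectors sum to
zero at both endpoints. -/
structure IsStationaryTheta (g : R3 → Form) (γ : Fin 3 → ℝ → R3) : Prop where
  ne : γ 0 0 ≠ γ 0 1
  geodesic : ∀ i, IsGeodesicArc g (γ i)
  ends : ∀ i, γ i 0 = γ 0 0 ∧ γ i 1 = γ 0 1
  disjoint : ∀ i j, ∀ s ∈ Set.Icc (0:ℝ) 1, ∀ t ∈ Set.Icc (0:ℝ) 1, γ i s = γ j t →
    (i = j ∧ s = t) ∨ (s = 0 ∧ t = 0) ∨ (s = 1 ∧ t = 1)
  balanced_zero : unitTangent g (γ 0) 0 + unitTangent g (γ 1) 0 + unitTangent g (γ 2) 0 = 0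
  balanced_one : unitTangent g (γ 0) 1 + unitTangent g (γ 1) 1 + unitTangent g (γ 2) 1 = 0

/-- A smooth self-map of Euclidean 3-space. -/
def SmoothMap (φ : R3 → R3) : Prop := ContDiff ℝ ((⊤ : ℕ∞) : WithTop ℕ∞) φ

/-- The differential of a self-map of Euclidean 3-space. -/
noncomputable def dmap (φ : R3 → R3) (x v : R3) : R3 := fderiv ℝ φ x v

/-- The smooth map `φ` restricts to an isometric self-map of the unit sphere with the metric
`g`. -/
structure IsIsometry (g : R3 → Form) (φ : R3 → R3) : Prop where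
  smooth : SmoothMap φ
  maps : ∀ x ∈ S2, φ x ∈ S2
  iso : ∀ x ∈ S2, ∀ v w : R3, Tangent x v → Tangent x w →
    (g (φ x)).val (dmap φ x v) (dmap φ x w) = (g x).val v w

end Run7.h60
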