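import Pool.Agent.Run7.h60.Reflect
import Pool.Agent.Run7.h60.Defs

/-! Coordinates in Euclidean 3-space. -/

set_option maxSynthPendingDepth 3

open Set MeasureTheory intervalIntegral Filter
open scoped Topology ContDiff RealInnerProductSpace NNReal

namespace Run7.h60

lemma inner3 (v w : R3) : ⟪v, w⟫ = v 0 * w 0 + v 1 * w 1 + v 2 * w 2 := by
  rw [PiLp.inner_apply, Fin.sum_univ_three]
  simp only [RCLike.inner_apply, conj_trivial]
  ring

lemma norm3 (v : R3) : ‖v‖ ^ 2 = v 0 ^ 2 + v 1 ^ 2 + v 2 ^ 2 := by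
  rw [← real_inner_self_eq_norm_sq, inner3]; ring

lemma mem_S2 {X : R3} : X ∈ Metric.sphere (0 : R3) 1 ↔ X 0 ^ 2 + X 1 ^ 2 + X 2 ^ 2 = 1 := by
  rw [mem_sphere_zero_iff_norm, ← norm3]
  constructor
  · intro h; rw [h]; norm_num
  · intro h
    have := norm_nonneg X
    nlinarith

lemma coord_le (v : R3) (i : Fin 3) : |v i| ≤ ‖v‖ := by
  have h := norm3 v
  apply abs_le_of_sq_le_sq _ (norm_nonneg v)
  rw [h]
  fin_cases i
  · show v 0 ^ 2 ≤ _; nlinarith [sq_nonneg (v 1), sq_nonneg (v 2)]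
  · show v 1 ^ 2 ≤ _; nlinarith [sq_nonneg (v 0), sq_nonneg (v 2)]
  · show v 2 ^ 2 ≤ _; nlinarith [sq_nonneg (v 0), sq_nonneg (v 1)]

/-- `z v_x - x v_z`. -/
def zt (X v : R3) : ℝ := X 2 * v 0 - X 0 * v 2

/-- The tangential part of the second basis vector: tangent to the half great circles through
`(0,±1,0)`. -/
noncomputable def ev (X : R3) : R3 := !₂[-(X 0 * X 1), 1 - X 1 ^ 2, -(X 2 * X 1)]

/-- The rotation field of the circle `z = 0`. -/
noncomputable def jv (X : R3) : R3 := !₂[X 1, -X 0, 0]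

/-- Reflection in the plane `x = 0`. -/
noncomputable def sX : R3 ≃ₗᵢ[ℝ] R3 :=
  LinearIsometryEquiv.piLpCongrRight 2
    (fun i : Fin 3 => if i = 0 then LinearIsometryEquiv.neg ℝ else LinearIsometryEquiv.refl ℝ ℝ)

/-- Reflection in the plane `z = 0`. -/
noncomputable def sZ : R3 ≃ₗᵢ[ℝ] R3 :=
  LinearIsometryEquiv.piLpCongrRight 2
    (fun i : Fin 3 => if i = 2 then LinearIsometryEquiv.neg ℝ else LinearIsometryEquiv.refl ℝ ℝ)

lemma sX_0 (v : R3) : sX v 0 = - v 0 := by simp [sX]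
lemma sX_1 (v : R3) : sX v 1 = v 1 := by simp [sX]
lemma sX_2 (v : R3) : sX v 2 = v 2 := by simp [sX]
lemma sZ_0 (v : R3) : sZ v 0 = v 0 := by simp [sZ]
lemma sZ_1 (v : R3) : sZ v 1 = v 1 := by simp [sZ]
lemma sZ_2 (v : R3) : sZ v 2 = - v 2 := by simp [sZ]

lemma ext3 {v w : R3} (h0 : v 0 = w 0) (h1 : v 1 = w 1) (h2 : v 2 = w 2) : v = w := by
  ext i
  fin_cases i
  · exact h0
  · exact h1
  · exact h2

lemma sX_sX (v : R3) : sX (sX v) = v := by
  apply ext3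
  · rw [sX_0, sX_0, neg_neg]
  · rw [sX_1, sX_1]
  · rw [sX_2, sX_2]

lemma sZ_sZ (v : R3) : sZ (sZ v) = v := by
  apply ext3
  · rw [sZ_0, sZ_0]
  · rw [sZ_1, sZ_1]
  · rw [sZ_2, sZ_2, neg_neg]

lemma hasDerivAt_coord {c : ℝ → R3} {v : R3} {t : ℝ} (h : HasDerivAt c v t) (i : Fin 3) :
    HasDerivAt (fun t => c t i) (v i) t :=
  (EuclideanSpace.proj (𝕜 := ℝ) i).hasFDerivAt.comp_hasDerivAt t h

lemma continuous_coord (i : Fin 3) : Continuous (fun v : R3 => v i) :=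
  (EuclideanSpace.proj (𝕜 := ℝ) i).continuous

lemma abs_zt_le {X : R3} (v : R3) : |zt X v| ≤ Real.sqrt (X 0 ^ 2 + X 2 ^ 2) * ‖v‖ := by
  have h1 : (zt X v) ^ 2 ≤ (X 0 ^ 2 + X 2 ^ 2) * ‖v‖ ^ 2 := by
    rw [norm3]; unfold zt
    nlinarith [sq_nonneg (X 2 * v 2 + X 0 * v 0), sq_nonneg (X 0 * v 1), sq_nonneg (X 2 * v 1)]
  have h2 : (Real.sqrt (X 0 ^ 2 + X 2 ^ 2) * ‖v‖) ^ 2 = (X 0 ^ 2 + X 2 ^ 2) * ‖v‖ ^ 2 := by
    rw [mul_pow, Real.sq_sqrt (by positivity)]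
  apply abs_le_of_sq_le_sq _ (by positivity)
  rw [h2]; exact h1

/-- Decomposition of a tangent vector. -/
lemma tangent_decomp {X v : R3} (hX : X ∈ Metric.sphere (0 : R3) 1) (hv : ⟪X, v⟫ = 0) :
    (X 0 ^ 2 + X 2 ^ 2) • v = v 1 • ev X + zt X v • !₂[X 2, 0, -X 0] := by
  rw [mem_S2] at hX
  rw [inner3] at hv
  apply ext3
  · simp [ev, zt]
    linear_combination (X 0) * hv
  · simp [ev]
    linear_combination (v 1) * hX
  · simp [ev, zt]
    linear_combination (X 2) * hv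

/-- Lipschitz estimate for the acceleration in the velocity. -/
lemma chr_lipschitz {E : Type*} [NormedAddCommGroup E] [InnerProductSpace ℝ E]
    [FiniteDimensional ℝ E] {g : E → E →L[ℝ] E →L[ℝ] ℝ} (hg : SphMetric g) (R : ℝ) :
    ∃ K : ℝ, 0 ≤ K ∧ ∀ x ∈ Metric.sphere (0 : E) 1, ∀ v w : E, ‖v‖ ≤ R → ‖w‖ ≤ R →
      ‖chr (ext g) x v - chr (ext g) x w‖ ≤ K * ‖v - w‖ := by
  have hprop : ProperSpace E := FiniteDimensional.proper ℝ E
  have h := metricOn_ext hg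
  have hS : IsCompact (Metric.sphere (0 : E) 1) := isCompact_sphere _ _
  have hK : IsCompact (Metric.sphere (0 : E) 1 ×ˢ Metric.closedBall (0 : E) R) :=
    hS.prod (isCompact_closedBall _ _)
  have hΩ : IsOpen (({0}ᶜ : Set E) ×ˢ (univ : Set E)) := h.isOpen.prod isOpen_univ
  obtain ⟨χ, hχ, hχc, hχΩ, hχ1⟩ := exists_cutoff hK hΩ
    (Set.prod_mono sphere_subset (subset_univ _))
  have hYs : tsupport (fun z => χ z • geo (ext g) z) ⊆ tsupport χ :=
    tsupport_smul_subset_left χ (geo (ext g))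
  have hYd : ContDiff ℝ ∞ (fun z => χ z • geo (ext g) z) := by
    rw [contDiff_iff_contDiffAt]
    intro x
    by_cases hx : x ∈ tsupport χ
    · exact hχ.contDiffAt.smul ((contDiffOn_geo h).contDiffAt (hΩ.mem_nhds (hχΩ hx)))
    · have h1 : (fun z => χ z • geo (ext g) z) =ᶠ[𝓝 x] fun _ => 0 := by
        have h2 : (tsupport χ)ᶜ ∈ 𝓝 x := (isClosed_tsupport χ).isOpen_compl.mem_nhds hx
        filter_upwards [h2] with y hy
        by_contra hcon
        exact hy (hYs (subset_tsupport _ hcon))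
      exact contDiffAt_const.congr_of_eventuallyEq h1
  have hYc : HasCompactSupport (fun z => χ z • geo (ext g) z) :=
    hχc.of_isClosed_subset (isClosed_tsupport _) hYs
  obtain ⟨K, hKl⟩ := ContDiff.lipschitzWith_of_hasCompactSupport hYc hYd (by simp)
  refine ⟨K, K.coe_nonneg, ?_⟩
  intro x hx v w hv hw
  have h1 := hKl.dist_le_mul (x, v) (x, w)
  rw [hχ1 (x, v) ⟨hx, by simpa using hv⟩, hχ1 (x, w) ⟨hx, by simpa using hw⟩, one_smul,
    one_smul, dist_eq_norm, dist_eq_norm] at h1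
  have h2 : ‖(x, v) - (x, w)‖ = ‖v - w‖ := by
    rw [Prod.mk_sub_mk, sub_self, Prod.norm_mk, norm_zero, max_eq_right (norm_nonneg _)]
  rw [h2] at h1
  refine le_trans ?_ h1
  exact norm_snd_le (geo (ext g) (x, v) - geo (ext g) (x, w))

end Run7.h60
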