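import Mathlib

/-! Lengths of curves for a (pseudo-)metric `G` on a normed space, and connectability by
`C^1` curves of bounded length. -/

open Set MeasureTheory intervalIntegral Filter
open scoped Topology

namespace Run7.h60

variable {E : Type*} [NormedAddCommGroup E] [NormedSpace ℝ E]

/-- The length of the vector `v` at the point `x` for the metric `G`. -/
noncomputable def nrm (G : E → E →L[ℝ] E →L[ℝ] ℝ) (x v : E) : ℝ := Real.sqrt (G x v v)

/-- The length of the curve `c` between the times `a` and `b`. -/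
noncomputable def Len (G : E → E →L[ℝ] E →L[ℝ] ℝ) (c : ℝ → E) (a b : ℝ) : ℝ :=
  ∫ t in a..b, nrm G (c t) (deriv c t)

/-- `x` and `y` are joined by a `C^1` curve in `U`, stopped at both ends, of length at most `ℓ`. -/
def Conn (G : E → E →L[ℝ] E →L[ℝ] ℝ) (U : Set E) (x y : E) (ℓ : ℝ) : Prop :=
  ∃ c : ℝ → E, ContDiff ℝ 1 c ∧ (∀ t, c t ∈ U) ∧ (∀ t, t ≤ 0 → c t = x) ∧
    (∀ t, 1 ≤ t → c t = y) ∧ Len G c 0 1 ≤ ℓ

lemma nrm_nonneg (G : E → E →L[ℝ] E →L[ℝ] ℝ) (x v : E) : 0 ≤ nrm G x v := Real.sqrt_nonneg _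

lemma nrm_smul (G : E → E →L[ℝ] E →L[ℝ] ℝ) (x v : E) (r : ℝ) :
    nrm G x (r • v) = |r| * nrm G x v := by
  unfold nrm
  have : G x (r • v) (r • v) = r ^ 2 * G x v v := by
    simp only [map_smul, smul_apply, smul_eq_mul]; ring
  rw [this, Real.sqrt_mul (sq_nonneg r), Real.sqrt_sq_eq_abs]

lemma nrm_zero (G : E → E →L[ℝ] E →L[ℝ] ℝ) (x : E) : nrm G x 0 = 0 := by
  simp [nrm]

lemma Conn.mono {G : E → E →L[ℝ] E →L[ℝ] ℝ} {U V : Set E} {x y : E} {ℓ ℓ' : ℝ}
    (h : Conn G U x y ℓ) (hUV : U ⊆ V) (hl : ℓ ≤ ℓ') : Conn G V x y ℓ' := by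
  obtain ⟨c, h1, h2, h3, h4, h5⟩ := h
  exact ⟨c, h1, fun t => hUV (h2 t), h3, h4, h5.trans hl⟩

lemma continuousOn_nrm {G : E → E →L[ℝ] E →L[ℝ] ℝ} {U : Set E} (hG : ContinuousOn G U)
    {s : Set ℝ} {c v : ℝ → E} (hc : ContinuousOn c s) (hcU : ∀ t ∈ s, c t ∈ U)
    (hv : ContinuousOn v s) : ContinuousOn (fun t => nrm G (c t) (v t)) s := by
  unfold nrm
  apply Real.continuous_sqrt.comp_continuousOn
  have h1 : ContinuousOn (fun t => G (c t)) s := hG.comp hc hcU
  exact (h1.clm_apply hv).clm_apply hv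

/-- If `c` is `C^1` near each point of `[a,b]`, its derivative is continuous on `[a,b]`. -/
lemma continuousOn_deriv_of_contDiffAt {c : ℝ → E} {s : Set ℝ}
    (hc : ∀ t ∈ s, ContDiffAt ℝ 1 c t) : ContinuousOn (deriv c) s := by
  intro t ht
  apply ContinuousAt.continuousWithinAt
  have h := (hc t ht).fderiv_right (m := 0) (by norm_num)
  have h2 : ContinuousAt (fderiv ℝ c) t := h.continuousAt
  have h3 : deriv c = fun t => fderiv ℝ c t 1 := by
    ext t; simp
  rw [h3]
  exact h2.clm_apply continuousAt_const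

lemma continuousOn_of_contDiffAt {c : ℝ → E} {s : Set ℝ}
    (hc : ∀ t ∈ s, ContDiffAt ℝ 1 c t) : ContinuousOn c s :=
  fun t ht => (hc t ht).continuousAt.continuousWithinAt

/-- A curve which is `C^1` near `[a,b]` can be reparametrised and stopped. -/
lemma conn_of_curve {G : E → E →L[ℝ] E →L[ℝ] ℝ} {U : Set E} (hG : ContinuousOn G U)
    {c : ℝ → E} {a b : ℝ} (hab : a ≤ b) (hc : ∀ t ∈ Icc a b, ContDiffAt ℝ 1 c t)
    (hcU : ∀ t ∈ Icc a b, c t ∈ U) : Conn G U (c a) (c b) (Len G c a b) := by
  set σ : ℝ → ℝ := fun t => a + (b - a) * Real.smoothTransition t with hσ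
  have hσmem : ∀ t, σ t ∈ Icc a b := by
    intro t
    have h0 := Real.smoothTransition.nonneg t
    have h1 := Real.smoothTransition.le_one t
    constructor
    · simp only [hσ]; nlinarith
    · simp only [hσ]; nlinarith
  have hσd : ContDiff ℝ 1 σ := by
    simp only [hσ]
    exact contDiff_const.add (contDiff_const.mul Real.smoothTransition.contDiff)
  have hσmono : Monotone σ := by
    intro s t hst
    simp only [hσ]
    have := Real.smoothTransition.monotone hst
    nlinarith
  have hσ0 : σ 0 = a := by simp [hσ]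
  have hσ1 : σ 1 = b := by simp [hσ]
  have hder : ∀ t, deriv (fun t => c (σ t)) t = deriv σ t • deriv c (σ t) := by
    intro t
    have h1 : HasDerivAt σ (deriv σ t) t :=
      ((hσd.differentiable (by norm_num)) t).hasDerivAt
    have h2 : HasDerivAt c (deriv c (σ t)) (σ t) :=
      ((hc _ (hσmem t)).differentiableAt (by norm_num)).hasDerivAt
    exact (h2.scomp t h1).deriv
  refine ⟨fun t => c (σ t), ?_, fun t => hcU _ (hσmem t), ?_, ?_, ?_⟩
  · rw [contDiff_iff_contDiffAt]
    intro t
    exact (hc _ (hσmem t)).comp t hσd.contDiffAt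
  · intro t ht
    have : σ t = a := by simp [hσ, Real.smoothTransition.zero_of_nonpos ht]
    simp [this]
  · intro t ht
    have : σ t = b := by simp [hσ, Real.smoothTransition.one_of_one_le ht]
    simp [this]
  · have hnn : ∀ t, 0 ≤ deriv σ t := fun t => hσmono.deriv_nonneg
    have heq : Len G (fun t => c (σ t)) 0 1
        = ∫ t in (0:ℝ)..1, ((fun s => nrm G (c s) (deriv c s)) ∘ σ) t * deriv σ t := by
      unfold Len
      apply intervalIntegral.integral_congr
      intro t _
      simp only [Function.comp]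
      rw [hder, nrm_smul, abs_of_nonneg (hnn t), mul_comm]
    rw [heq]
    have hcont : ContinuousOn (fun s => nrm G (c s) (deriv c s)) (Icc a b) :=
      continuousOn_nrm hG (continuousOn_of_contDiffAt hc) hcU (continuousOn_deriv_of_contDiffAt hc)
    have := intervalIntegral.integral_comp_mul_deriv' (a := (0:ℝ)) (b := 1) (f := σ)
      (f' := deriv σ) (g := fun s => nrm G (c s) (deriv c s))
      (fun t _ => ((hσd.differentiable (by norm_num)) t).hasDerivAt)
      ((hσd.continuous_deriv (by norm_num)).continuousOn)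
      (hcont.mono (by rintro _ ⟨t, _, rfl⟩; exact hσmem t))
    rw [this, hσ0, hσ1]
    exact le_rfl

lemma len_nonneg (G : E → E →L[ℝ] E →L[ℝ] ℝ) (c : ℝ → E) {a b : ℝ} (hab : a ≤ b) :
    0 ≤ Len G c a b :=
  intervalIntegral.integral_nonneg hab (fun _ _ => nrm_nonneg _ _ _)

lemma Conn.nonneg {G : E → E →L[ℝ] E →L[ℝ] ℝ} {U : Set E} {x y : E} {ℓ : ℝ}
    (h : Conn G U x y ℓ) : 0 ≤ ℓ := by
  obtain ⟨c, -, -, -, -, h5⟩ := h
  exact (len_nonneg G c (by norm_num)).trans h5

lemma Conn.symm {G : E → E →L[ℝ] E →L[ℝ] ℝ} {U : Set E} {x y : E} {ℓ : ℝ}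
    (h : Conn G U x y ℓ) : Conn G U y x ℓ := by
  obtain ⟨c, h1, h2, h3, h4, h5⟩ := h
  refine ⟨fun t => c (1 - t), h1.comp (contDiff_const.sub contDiff_id), fun t => h2 _,
    fun t ht => h4 _ (by linarith), fun t ht => h3 _ (by linarith), ?_⟩
  have : Len G (fun t => c (1 - t)) 0 1 = Len G c 0 1 := by
    unfold Len
    have hd : ∀ t, deriv (fun t => c (1 - t)) t = - deriv c (1 - t) := by
      intro t
      have h2 : HasDerivAt c (deriv c (1 - t)) (1 - t) :=
        ((h1.differentiable (by norm_num)) _).hasDerivAt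
      have h3 : HasDerivAt (fun t : ℝ => 1 - t) (-1) t := by
        simpa using (hasDerivAt_id t).const_sub 1
      have h4 : HasDerivAt (fun t => c (1 - t)) ((-1:ℝ) • deriv c (1 - t)) t := h2.scomp t h3
      rw [h4.deriv]; simp
    have : ∀ t, nrm G (c (1 - t)) (deriv (fun t => c (1 - t)) t)
        = (fun s => nrm G (c s) (deriv c s)) (1 - t) := by
      intro t
      rw [hd]
      have := nrm_smul G (c (1 - t)) (deriv c (1 - t)) (-1)
      simpa using this
    simp_rw [this]
    rw [intervalIntegral.integral_comp_sub_left (fun s => nrm G (c s) (deriv c s)) 1]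
    norm_num
  rw [this]; exact h5

lemma Conn.trans {G : E → E →L[ℝ] E →L[ℝ] ℝ} {U : Set E} (hG : ContinuousOn G U)
    {x y z : E} {ℓ₁ ℓ₂ : ℝ}
    (h : Conn G U x y ℓ₁) (h' : Conn G U y z ℓ₂) : Conn G U x z (ℓ₁ + ℓ₂) := by
  obtain ⟨c, h1, h2, h3, h4, h5⟩ := h
  obtain ⟨e, g1, g2, g3, g4, g5⟩ := h'
  set f : ℝ → E := fun t => c (2 * t) + e (2 * t - 1) - y with hf
  have hleft : ∀ t, t ≤ 1/2 → f t = c (2 * t) := by
    intro t ht
    simp only [hf]; rw [g3 _ (by linarith)]; abel
  have hright : ∀ t, 1/2 ≤ t → f t = e (2 * t - 1) := by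
    intro t ht
    simp only [hf]; rw [h4 _ (by linarith)]; abel
  have hdc : ∀ t, HasDerivAt (fun t => c (2 * t)) ((2:ℝ) • deriv c (2 * t)) t := by
    intro t
    have a1 : HasDerivAt c (deriv c (2 * t)) (2 * t) :=
      ((h1.differentiable (by norm_num)) _).hasDerivAt
    have a2 : HasDerivAt (fun t : ℝ => 2 * t) 2 t := by
      simpa using (hasDerivAt_id t).const_mul 2
    exact a1.scomp t a2
  have hde : ∀ t, HasDerivAt (fun t => e (2 * t - 1)) ((2:ℝ) • deriv e (2 * t - 1)) t := by
    intro t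
    have a1 : HasDerivAt e (deriv e (2 * t - 1)) (2 * t - 1) :=
      ((g1.differentiable (by norm_num)) _).hasDerivAt
    have a2 : HasDerivAt (fun t : ℝ => 2 * t - 1) 2 t := by
      simpa using ((hasDerivAt_id t).const_mul 2).sub_const 1
    exact a1.scomp t a2
  have hfd : ContDiff ℝ 1 f := by
    simp only [hf]
    exact ((h1.comp (contDiff_const.mul contDiff_id)).add
      (g1.comp ((contDiff_const.mul contDiff_id).sub contDiff_const))).sub contDiff_const
  have hfU : ∀ t, f t ∈ U := by
    intro t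
    rcases le_total t (1/2) with ht | ht
    · rw [hleft t ht]; exact h2 _
    · rw [hright t ht]; exact g2 _
  refine ⟨f, hfd, hfU, ?_, ?_, ?_⟩
  · intro t ht
    rw [hleft t (by linarith)]; exact h3 _ (by linarith)
  · intro t ht
    rw [hright t (by linarith)]; exact g4 _ (by linarith)
  · have hcont : Continuous (fun t => nrm G (f t) (deriv f t)) := by
      rw [← continuousOn_univ]
      exact continuousOn_nrm hG hfd.continuous.continuousOn (fun t _ => hfU t)
        (hfd.continuous_deriv (by norm_num)).continuousOn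
    have hsplit : Len G f 0 1 = Len G f 0 (1/2) + Len G f (1/2) 1 := by
      unfold Len
      rw [intervalIntegral.integral_add_adjacent_intervals]
      · exact hcont.intervalIntegrable _ _
      · exact hcont.intervalIntegrable _ _
    have hL : Len G f 0 (1/2) = Len G c 0 1 := by
      unfold Len
      have : ∫ t in (0:ℝ)..(1/2), nrm G (f t) (deriv f t)
          = ∫ t in (0:ℝ)..(1/2), 2 * (fun s => nrm G (c s) (deriv c s)) (2 * t) := by
        apply intervalIntegral.integral_congr_ae
        have hne : ∀ᵐ t : ℝ, t ≠ 1/2 := by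
          simp [ae_iff, measure_singleton]
        filter_upwards [hne] with t ht1 ht
        rw [uIoc_of_le (by norm_num)] at ht
        have ht2 : t < 1/2 := lt_of_le_of_ne ht.2 ht1
        have heq : f =ᶠ[𝓝 t] fun t => c (2 * t) := by
          filter_upwards [Iio_mem_nhds ht2] with s hs
          exact hleft s (le_of_lt hs)
        rw [heq.deriv_eq, (hdc t).deriv, hleft t ht2.le, nrm_smul]
        simp
      rw [this, intervalIntegral.integral_const_mul,
        intervalIntegral.integral_comp_mul_left (fun s => nrm G (c s) (deriv c s)) (by norm_num)]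
      norm_num
      ring
    have hR : Len G f (1/2) 1 = Len G e 0 1 := by
      unfold Len
      have : ∫ t in (1/2:ℝ)..1, nrm G (f t) (deriv f t)
          = ∫ t in (1/2:ℝ)..1, 2 * (fun s => nrm G (e s) (deriv e s)) (2 * t - 1) := by
        apply intervalIntegral.integral_congr_ae
        filter_upwards with t ht
        rw [uIoc_of_le (by norm_num)] at ht
        have ht2 : 1/2 < t := ht.1
        have heq : f =ᶠ[𝓝 t] fun t => e (2 * t - 1) := by
          filter_upwards [Ioi_mem_nhds ht2] with s hs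
          exact hright s (le_of_lt hs)
        rw [heq.deriv_eq, (hde t).deriv, hright t ht2.le, nrm_smul]
        simp
      rw [this, intervalIntegral.integral_const_mul,
        intervalIntegral.integral_comp_mul_sub (fun s => nrm G (e s) (deriv e s)) (by norm_num)]
      norm_num
      ring
    rw [hsplit, hL, hR]
    linarith

end Run7.h60
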