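import Pool.Agent.Run7.h60.SymTheta

/-! Stationary Theta-graphs for metrics with two reflection symmetries and signed leaves. -/

set_option maxSynthPendingDepth 3

open Set MeasureTheory intervalIntegral Filter
open scoped Topology ContDiff RealInnerProductSpace NNReal

namespace Run7.h60

variable {g : R3 → Form} {Γ : ℝ → ℝ → R3}

lemma angle_eq_all {p q h a : ℝ → ℝ} (hp : ∀ t, HasDerivAt p (-(h t * q t)) t)
    (hq : ∀ t, HasDerivAt q (h t * p t) t) (hn : ∀ t, p t ^ 2 + q t ^ 2 = 1)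
    (ha : ∀ t, HasDerivAt a (h t) t) (hp0 : p 0 = Real.cos (a 0)) (hq0 : q 0 = Real.sin (a 0)) :
    ∀ t, p t = Real.cos (a t) ∧ q t = Real.sin (a t) := by
  intro t
  have hd : ∀ s, HasDerivAt (fun t => p t * Real.cos (a t) + q t * Real.sin (a t)) 0 s := by
    intro s
    refine (((hp s).mul (ha s).cos).add ((hq s).mul (ha s).sin)).congr_deriv ?_
    ring
  have h1 : p t * Real.cos (a t) + q t * Real.sin (a t) = 1 := by
    have h2 := is_const_of_deriv_eq_zero (fun t => (hd t).differentiableAt)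
      (fun t => (hd t).deriv) t 0
    rw [h2, hp0, hq0]
    have := Real.sin_sq_add_cos_sq (a 0)
    nlinarith
  have h3 := hn t
  have h4 := Real.sin_sq_add_cos_sq (a t)
  have h5 : (p t - Real.cos (a t)) ^ 2 + (q t - Real.sin (a t)) ^ 2 = 0 := by nlinarith
  constructor
  · nlinarith [sq_nonneg (p t - Real.cos (a t)), sq_nonneg (q t - Real.sin (a t))]
  · nlinarith [sq_nonneg (p t - Real.cos (a t)), sq_nonneg (q t - Real.sin (a t))]

lemma sym_family (hg : SphMetric g) (hX : Preserves g sX)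
    (hΓ : ∀ θ, UGeod g (Γ θ) ∧ Γ θ 0 = st θ ∧ deriv (Γ θ) 0 = vst g θ) (θ t : ℝ) :
    Γ θ (-t) = sX (Γ θ t) := by
  have h1 := (hΓ θ).1.reverse
  have h2 := h1.map hg hX
  have h3 := UGeod.unique hg h2 (hΓ θ).1 (by
    simp only [neg_zero]
    rw [(hΓ θ).2.1]
    apply ext3
    · rw [sX_0, st_0, neg_zero]
    · rw [sX_1]
    · rw [sX_2]) (by
    rw [h1.deriv_map, (hΓ θ).1.deriv_reverse]
    simp only [neg_zero]
    rw [(hΓ θ).2.2, vst]
    apply ext3
    · rw [sX_0]; simp [e0_0]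
    · rw [sX_1]; simp [e0_1]
    · rw [sX_2]; simp [e0_2])
  have h4 := congrFun h3 t
  rw [← h4, sX_sX]

/-- The arc of the family in the circle `z = 0`, through `(0,-1,0)`, reaches every point with
`x > 0`. -/
lemma circle_arc (hg : SphMetric g) (hX : Preserves g sX) (hZ : Preserves g sZ)
    (hΓ : ∀ θ, UGeod g (Γ θ) ∧ Γ θ 0 = st θ ∧ deriv (Γ θ) 0 = vst g θ) {p : R3}
    (hpS : p ∈ Metric.sphere (0 : R3) 1) (hp2 : p 2 = 0) (hp0 : 0 < p 0) :
    (∀ t, Γ Real.pi t 2 = 0) ∧ ∃ τ, 0 < τ ∧ Γ Real.pi τ = p ∧ 0 < av (Γ Real.pi) τ ∧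
      ∀ s ∈ Icc (-τ) τ, ∀ t ∈ Icc (-τ) τ, Γ Real.pi s = Γ Real.pi t → s = t := by
  have hpi := Real.pi_pos
  obtain ⟨b0, b2, bv⟩ := start_data hg hΓ Real.pi
  have h := (hΓ Real.pi).1
  obtain ⟨ζ, hζ⟩ : ∃ ζ, ζ = Γ Real.pi := ⟨_, rfl⟩
  have hsym := sym_family hg hX hΓ Real.pi
  have hst1 : Γ Real.pi 0 1 = -1 := by rw [(hΓ Real.pi).2.1, st_1, Real.cos_pi]
  have hz : ∀ t, Γ Real.pi t 2 = 0 := by
    apply in_circle hg hZ h
    · rw [b2, Real.sin_pi]
    · rw [(hΓ Real.pi).2.2, vst]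
      simp only [PiLp.smul_apply, smul_eq_mul, e0_2, mul_zero]
  rw [← hζ] at h hsym hst1 hz b0 bv ⊢
  refine ⟨hz, ?_⟩
  obtain ⟨c, hc, hav⟩ := av_abs_ge hg
  have hav0 : 0 < av ζ 0 := by
    unfold av; rw [b0, hst1]; linarith
  have hE := fun t => circ_eqs h hz t
  have hcont := continuous_av h
  have hpos : ∀ t, 0 ≤ t → c ≤ av ζ t := by
    rcases sign_of_abs_ge hcont hc (fun t _ => hav _ h hz t) with h3 | h3
    · exact h3
    · have := h3 0 le_rfl; linarith
  have heven : ∀ t, av ζ (-t) = av ζ t := by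
    intro t
    have h1 := deriv_of_sym h hsym t
    have d0 : deriv ζ (-t) 0 = deriv ζ t 0 := by
      have := congrArg (fun v : R3 => v 0) h1
      simp only [PiLp.neg_apply, sX_0] at this
      linarith
    have d1 : deriv ζ (-t) 1 = - deriv ζ t 1 := by
      have := congrArg (fun v : R3 => v 1) h1
      simp only [PiLp.neg_apply, sX_1] at this
      linarith
    unfold av
    rw [d0, d1, hsym, sX_0, sX_1]; ring
  have hpos' : ∀ t, c ≤ av ζ t := by
    intro t
    rcases le_total 0 t with h1 | h1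
    · exact hpos t h1
    · rw [← heven t]; exact hpos _ (by linarith)
  obtain ⟨b, hb0, hb⟩ := exists_primitive hcont (-(Real.pi / 2))
  have hbc : Continuous b := continuous_iff_continuousAt.2 fun t => (hb t).continuousAt
  have hang := angle_eq_all (p := fun t => ζ t 0) (q := fun t => ζ t 1) (h := av ζ) (a := b)
    (fun t => (hasDerivAt_coord (h.hasDerivAt t) 0).congr_deriv (hE t).2.2.1)
    (fun t => (hasDerivAt_coord (h.hasDerivAt t) 1).congr_deriv (hE t).2.2.2.1)
    (fun t => (hE t).1) hb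
    (by simp only; rw [hb0, b0, Real.cos_neg, Real.cos_pi_div_two])
    (by simp only; rw [hb0, hst1, Real.sin_neg, Real.sin_pi_div_two])
  have hmono : StrictMono b := by
    apply strictMono_of_deriv_pos
    intro t
    rw [(hb t).deriv]; linarith [hpos' t]
  have hbneg : ∀ t, b (-t) = -Real.pi - b t := by
    intro t
    have hd : ∀ s, HasDerivAt (fun t => b (-t) + b t) 0 s := by
      intro s
      have h1 : HasDerivAt (fun t : ℝ => -t) (-1) s := (hasDerivAt_id s).neg
      refine (((hb (-s)).comp s h1).add (hb s)).congr_deriv ?_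
      rw [heven]; ring
    have h2 := is_const_of_deriv_eq_zero (fun t => (hd t).differentiableAt)
      (fun t => (hd t).deriv) t 0
    simp only [neg_zero] at h2
    rw [hb0] at h2
    linarith
  -- the target angle
  have hpS' := mem_S2.1 hpS
  rw [hp2] at hpS'
  have hy1 : -1 < p 1 := by nlinarith [sq_nonneg (p 1)]
  have hy2 : p 1 < 1 := by nlinarith [sq_nonneg (p 1)]
  obtain ⟨ψ, hψ⟩ : ∃ ψ, ψ = Real.arcsin (p 1) := ⟨_, rfl⟩
  have hψ1 : -(Real.pi / 2) < ψ := by rw [hψ]; exact Real.neg_pi_div_two_lt_arcsin.2 hy1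
  have hψ2 : ψ < Real.pi / 2 := by rw [hψ]; exact Real.arcsin_lt_pi_div_two.2 hy2
  have hsψ : Real.sin ψ = p 1 := by rw [hψ]; exact Real.sin_arcsin hy1.le hy2.le
  have hcψ : Real.cos ψ = p 0 := by
    rw [hψ, Real.cos_arcsin, Real.sqrt_eq_iff_mul_self_eq (by nlinarith) hp0.le]
    linarith
  have hreach : Real.pi / 2 ≤ b (Real.pi / c) := by
    have h4 : ∀ x ∈ Icc 0 (Real.pi / c), -(Real.pi / 2) + c * x ≤ b x := by
      have := image_le_of_deriv_right_le_deriv_boundary
        (f := fun x => -(Real.pi / 2) + c * x)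
        (f' := fun _ => c) (a := 0) (b := Real.pi / c) (B := b) (B' := av ζ)
        (by fun_prop)
        (fun x _ => by
          have : HasDerivAt (fun x : ℝ => -(Real.pi / 2) + c * x) c x := by
            simpa using ((hasDerivAt_id x).const_mul c).const_add (-(Real.pi / 2))
          exact this.hasDerivWithinAt)
        (by simp [hb0]) hbc.continuousOn (fun x _ => (hb x).hasDerivWithinAt)
        (fun x hx => hpos' x)
      intro x hx
      exact this hx
    have h5 := h4 (Real.pi / c) ⟨by positivity, le_rfl⟩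
    have h6 : c * (Real.pi / c) = Real.pi := by field_simp
    linarith
  obtain ⟨τ, hτ, hτb⟩ := intermediate_value_Icc (show 0 ≤ Real.pi / c by positivity)
    hbc.continuousOn (show ψ ∈ Icc (b 0) (b (Real.pi / c)) from
      ⟨by rw [hb0]; exact hψ1.le, hψ2.le.trans hreach⟩)
  have hτ0 : 0 < τ := by
    rcases hτ.1.eq_or_lt with h1 | h1
    · rw [← h1, hb0] at hτb; linarith
    · exact h1
  refine ⟨τ, hτ0, ?_, by linarith [hpos' τ], ?_⟩
  · apply ext3
    · have := (hang τ).1; simp only at this; rw [this, hτb, hcψ]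
    · have := (hang τ).2; simp only at this; rw [this, hτb, hsψ]
    · rw [hz, hp2]
  · intro s hs t ht hst
    have k1 : b s ≤ ψ := by rw [← hτb]; exact hmono.monotone hs.2
    have k2 : b t ≤ ψ := by rw [← hτb]; exact hmono.monotone ht.2
    have k3 : -Real.pi - ψ ≤ b s := by
      rw [← hτb, ← hbneg]; exact hmono.monotone hs.1
    have k4 : -Real.pi - ψ ≤ b t := by
      rw [← hτb, ← hbneg]; exact hmono.monotone ht.1
    have e1 : Real.cos (b s) = Real.cos (b t) := by
      have u1 := (hang s).1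
      have u2 := (hang t).1
      simp only at u1 u2
      rw [← u1, ← u2, hst]
    have e2 : Real.sin (b s) = Real.sin (b t) := by
      have u1 := (hang s).2
      have u2 := (hang t).2
      simp only at u1 u2
      rw [← u1, ← u2, hst]
    have e3 : Real.cos (b s - b t) = 1 := by
      rw [Real.cos_sub, e1, e2]
      have := Real.sin_sq_add_cos_sq (b t)
      nlinarith
    have e4 := (Real.cos_eq_one_iff_of_lt_of_lt (by linarith) (by linarith)).1 e3
    exact hmono.injective (by linarith)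

/-- Interior of the exit interval. -/
lemma interior_data (hg : SphMetric g) (hX : Preserves g sX) (hQ : Signed g)
    (hΓ : ∀ θ, UGeod g (Γ θ) ∧ Γ θ 0 = st θ ∧ deriv (Γ θ) 0 = vst g θ)
    {θ : ℝ} (hθ : θ ∈ Ioo 0 Real.pi) {T : ℝ} (hT : IsExit (Γ θ) T) :
    ∀ t ∈ Ioo (-T) T, 0 < Γ θ t 2 ∧ 0 < zt (Γ θ t) (deriv (Γ θ) t) := by
  obtain ⟨b0, b2, bv⟩ := start_data hg hΓ θ
  have h := (hΓ θ).1
  have hsym := sym_family hg hX hΓ θ
  have hq := quarter hg hQ h b0 (by rw [b2]; exact Real.sin_pos_of_mem_Ioo hθ) bv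
    (T := T) hT.2.1
  intro t ht
  rcases le_total 0 t with h1 | h1
  · exact ⟨hT.2.1 t ⟨h1, ht.2⟩, hq.2 t ⟨h1, ht.2.le⟩⟩
  · have h2 : 0 ≤ -t := by linarith
    have h3 : -t < T := by linarith [ht.1]
    have h4 := hT.2.1 (-t) ⟨h2, h3⟩
    have h5 := hq.2 (-t) ⟨h2, h3.le⟩
    have h6 := deriv_of_sym h hsym t
    have e0 : Γ θ (-t) 0 = - Γ θ t 0 := by rw [hsym, sX_0]
    have e2 : Γ θ (-t) 2 = Γ θ t 2 := by rw [hsym, sX_2]
    have d0 : deriv (Γ θ) (-t) 0 = deriv (Γ θ) t 0 := by
      have := congrArg (fun v : R3 => v 0) h6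
      simp only [PiLp.neg_apply, sX_0] at this
      linarith
    have d2 : deriv (Γ θ) (-t) 2 = - deriv (Γ θ) t 2 := by
      have := congrArg (fun v : R3 => v 2) h6
      simp only [PiLp.neg_apply, sX_2] at this
      linarith
    unfold zt at h5 ⊢
    rw [e0, e2, d0, d2] at h5
    rw [e2] at h4
    exact ⟨h4, by linarith⟩

theorem theta_of_signed (hg : SphMetric g) (hX : Preserves g sX) (hZ : Preserves g sZ)
    (hQ : Signed g) : ∃ γ : Fin 3 → ℝ → R3, IsStationaryTheta g γ := by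
  obtain ⟨Γ, hΓ⟩ := exists_family hg
  obtain ⟨Tf, hTf⟩ := exists_T hg hQ hΓ
  obtain ⟨θ, hθ, hbal⟩ := exists_balanced hg hZ hQ hΓ hTf
  obtain ⟨T, hTdef⟩ : ∃ T, T = Tf θ := ⟨_, rfl⟩
  obtain ⟨γ, hγdef⟩ : ∃ γ, γ = Γ θ := ⟨_, rfl⟩
  obtain ⟨p, hpdef⟩ : ∃ p, p = γ T := ⟨_, rfl⟩
  obtain ⟨v, hvdef⟩ : ∃ v, v = deriv γ T := ⟨_, rfl⟩
  have hT : IsExit γ T := by rw [hγdef, hTdef]; exact hTf θ hθ
  have h : UGeod g γ := by rw [hγdef]; exact (hΓ θ).1
  have hint : ∀ t ∈ Ioo (-T) T, 0 < γ t 2 ∧ 0 < zt (γ t) (deriv γ t) := by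
    rw [hγdef]; exact interior_data hg hX hQ hΓ hθ (hγdef ▸ hT)
  have hex : 0 < γ T 0 := by
    rw [hγdef]; exact (exit_data hg hQ hΓ hθ (hγdef ▸ hT)).1
  have hsym : ∀ t, γ (-t) = sX (γ t) := by rw [hγdef]; exact sym_family hg hX hΓ θ
  have hbal' : 2 * g p v (jv p) = Real.sqrt (g p (jv p) (jv p)) := by
    have : bal g (p, v) = 0 := by
      rw [hpdef, hvdef, hγdef, hTdef]; exact hbal
    unfold bal at this
    simp only at this
    linarith
  have hpS : p ∈ Metric.sphere (0 : R3) 1 := by rw [hpdef]; exact h.mem T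
  have hp2 : p 2 = 0 := by rw [hpdef]; exact hT.2.2
  have hp0 : 0 < p 0 := by rw [hpdef]; exact hex
  have hT0 : 0 < T := hT.1
  have hpne : p ≠ sX p := by
    intro hcon
    have := congrArg (fun v : R3 => v 0) hcon
    simp only [sX_0] at this
    linarith
  -- the third geodesic
  obtain ⟨hζz, τ, hτ, hζp, hζav, hζinj⟩ := circle_arc hg hX hZ hΓ hpS hp2 hp0
  obtain ⟨ζ, hζdef⟩ : ∃ ζ, ζ = Γ Real.pi := ⟨_, rfl⟩
  have hζ : UGeod g ζ := by rw [hζdef]; exact (hΓ Real.pi).1
  have hζsym : ∀ t, ζ (-t) = sX (ζ t) := by rw [hζdef]; exact sym_family hg hX hΓ Real.pi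
  rw [← hζdef] at hζz hζp hζav hζinj
  -- the reflected geodesic
  have h' := h.map hg hZ
  have hsym' : ∀ t, (fun t => sZ (γ t)) (-t) = sX ((fun t => sZ (γ t)) t) := by
    intro t
    simp only
    rw [hsym]
    apply ext3
    · rw [sZ_0, sX_0, sX_0, sZ_0]
    · rw [sZ_1, sX_1, sX_1, sZ_1]
    · rw [sZ_2, sX_2, sX_2, sZ_2]
  have hmp : γ (-T) = sX p := by rw [hsym, hpdef]
  have hfix : ∀ q : R3, q 2 = 0 → sZ q = q := by
    intro q hq
    apply ext3
    · rw [sZ_0]
    · rw [sZ_1]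
    · rw [sZ_2, hq, neg_zero]
  -- points with `z = 0`
  have hzero : ∀ t ∈ Icc (-T) T, γ t 2 = 0 → γ t = p ∨ γ t = sX p := by
    intro t ht h0
    by_cases h1 : t = T
    · left; rw [h1, hpdef]
    · by_cases h2 : t = -T
      · right; rw [h2, hmp]
      · exfalso
        have h3 : t ∈ Ioo (-T) T :=
          ⟨lt_of_le_of_ne ht.1 (Ne.symm h2), lt_of_le_of_ne ht.2 h1⟩
        have := (hint t h3).1
        rw [h0] at this
        exact lt_irrefl _ this
  have hnn : ∀ t ∈ Icc (-T) T, 0 ≤ γ t 2 := by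
    intro t ht
    by_cases h1 : t = T
    · rw [h1, ← hpdef, hp2]
    · by_cases h2 : t = -T
      · rw [h2, hmp, sX_2, hp2]
      · exact (hint t ⟨lt_of_le_of_ne ht.1 (Ne.symm h2), lt_of_le_of_ne ht.2 h1⟩).1.le
  have hinjlt : ∀ s ∈ Icc (-T) T, ∀ t ∈ Icc (-T) T, s < t → γ s ≠ γ t := by
    intro s hs t ht hlt heq
    by_cases h0 : γ s 2 = 0
    · have h1 : s = -T := by
        by_contra hcon
        have := (hint s ⟨lt_of_le_of_ne hs.1 (Ne.symm hcon), lt_of_lt_of_le hlt ht.2⟩).1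
        linarith
      have h2 : t = T := by
        by_contra hcon
        have := (hint t ⟨lt_of_le_of_lt hs.1 hlt, lt_of_le_of_ne ht.2 hcon⟩).1
        rw [← heq] at this
        linarith
      rw [h1, h2, hmp, ← hpdef] at heq
      exact hpne heq.symm
    · have h1 : s ≠ -T := by
        intro hcon; apply h0; rw [hcon, hmp, sX_2, hp2]
      have h2 : t ≠ T := by
        intro hcon; apply h0; rw [heq, hcon, ← hpdef, hp2]
      have hs' : -T < s := lt_of_le_of_ne hs.1 (Ne.symm h1)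
      have ht' : t < T := lt_of_le_of_ne ht.2 h2
      have h3 := ratio_lt h hlt
        (fun r hr => (hint r ⟨lt_of_lt_of_le hs' hr.1, lt_of_le_of_lt hr.2 ht'⟩).1)
        (fun r hr => (hint r ⟨lt_of_lt_of_le hs' hr.1, lt_of_le_of_lt hr.2 ht'⟩).2)
      rw [heq] at h3
      exact lt_irrefl _ h3
  have hinj : ∀ s ∈ Icc (-T) T, ∀ t ∈ Icc (-T) T, γ s = γ t → s = t := by
    intro s hs t ht heq
    rcases lt_trichotomy s t with h1 | h1 | h1
    · exact absurd heq (hinjlt s hs t ht h1)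
    · exact h1
    · exact absurd heq.symm (hinjlt t ht s hs h1)
  -- the balance of velocities
  have hvt : ⟪p, v⟫ = 0 := by rw [hpdef, hvdef]; exact h.tangent T
  have hpS' := mem_S2.1 hpS
  rw [hp2] at hpS'
  have hjt : ⟪p, jv p⟫ = 0 := by
    rw [inner3]; simp [jv]; ring
  have hsum : deriv ζ τ + v + sZ v = 0 := by
    obtain ⟨a1, a2, a3, a4, a5, a6⟩ := circ_eqs hζ hζz τ
    rw [hζp] at a6
    obtain ⟨κ, hκ⟩ : ∃ κ, κ = v 0 * p 1 - v 1 * p 0 := ⟨_, rfl⟩
    rw [inner3, hp2] at hvt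
    have e1 : v + sZ v = (2 * κ) • jv p := by
      apply ext3
      · simp only [PiLp.add_apply, PiLp.smul_apply, smul_eq_mul, sZ_0]
        simp [jv]
        rw [hκ]
        linear_combination (-2 * v 0) * hpS' + 2 * p 0 * hvt
      · simp only [PiLp.add_apply, PiLp.smul_apply, smul_eq_mul, sZ_1]
        simp [jv]
        rw [hκ]
        linear_combination (-2 * v 1) * hpS' + 2 * p 1 * hvt
      · simp only [PiLp.add_apply, PiLp.smul_apply, smul_eq_mul, sZ_2]
        simp [jv]
    obtain ⟨q, hq⟩ : ∃ q, q = g p (jv p) (jv p) := ⟨_, rfl⟩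
    have hwq : av ζ τ ^ 2 * q = 1 := by
      have h1 := hζ.sq_speed τ
      rw [a6, hζp] at h1
      simp only [map_smul, smul_apply, smul_eq_mul] at h1
      rw [hq]; linear_combination h1
    have hq0 : 0 < q := by
      by_contra hcon
      push Not at hcon
      nlinarith [sq_nonneg (av ζ τ)]
    have hsq : Real.sqrt q = av ζ τ * q := by
      rw [Real.sqrt_eq_iff_mul_self_eq hq0.le (by positivity)]
      linear_combination (-q) * hwq
    have hgs : g p (sZ v) (jv p) = g p v (jv p) := by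
      have h1 := hZ p hpS v (jv p) (by rw [hpdef, hvdef]; exact h.tangent T) hjt
      rw [hfix p hp2, hfix (jv p) (by simp [jv])] at h1
      exact h1
    have h2 : g p (v + sZ v) (jv p) = 2 * κ * q := by
      rw [e1]
      simp only [map_smul, smul_apply, smul_eq_mul]
      rw [hq]
    have h3 : g p (v + sZ v) (jv p) = g p v (jv p) + g p (sZ v) (jv p) := by
      simp only [map_add, add_apply]
    rw [h3, hgs] at h2
    rw [← hq, hsq] at hbal'
    have h4 : 2 * κ = av ζ τ := by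
      have h5 : (2 * κ) * q = av ζ τ * q := by linarith
      exact mul_right_cancel₀ hq0.ne' h5
    rw [add_assoc, e1, a6, h4, ← add_smul]
    simp
  -- assembly
  refine theta_of_sym hg ![ζ, γ, fun t => sZ (γ t)] ![τ, T, T] p ?_ ?_ ?_ ?_ hp0 ?_ ?_ ?_
  · intro i; fin_cases i
    · exact hτ
    · exact hT0
    · exact hT0
  · intro i; fin_cases i
    · exact hζ
    · exact h
    · exact h'
  · intro i; fin_cases i
    · exact hζsym
    · exact hsym
    · exact hsym'
  · intro i; fin_cases i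
    · exact hζp
    · exact hpdef.symm
    · show sZ (γ T) = p
      rw [← hpdef]; exact hfix p hp2
  · intro i; fin_cases i
    · exact hζinj
    · exact hinj
    · intro s hs t ht hst
      exact hinj s hs t ht (sZ.injective hst)
  · have hz12 : ∀ t ∈ Icc (-T) T, (sZ (γ t)) 2 = 0 → sZ (γ t) = p ∨ sZ (γ t) = sX p := by
      intro t ht h0
      rw [sZ_2, neg_eq_zero] at h0
      rw [hfix _ h0]
      exact hzero t ht h0
    intro i j hij s hs t ht hst
    fin_cases i <;> fin_cases j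
    · exact absurd rfl hij
    · change ζ s = γ t at hst
      change ζ s = p ∨ ζ s = sX p
      rw [hst]
      exact hzero t ht (by rw [← hst]; exact hζz s)
    · change ζ s = sZ (γ t) at hst
      change ζ s = p ∨ ζ s = sX p
      rw [hst]
      exact hz12 t ht (by rw [← hst]; exact hζz s)
    · change γ s = ζ t at hst
      change γ s = p ∨ γ s = sX p
      exact hzero s hs (by rw [hst]; exact hζz t)
    · exact absurd rfl hij
    · change γ s = sZ (γ t) at hst
      change γ s = p ∨ γ s = sX p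
      apply hzero s hs
      have h1 : γ s 2 = - γ t 2 := by rw [hst, sZ_2]
      have h2 := hnn s hs
      have h3 := hnn t ht
      linarith
    · change sZ (γ s) = ζ t at hst
      change sZ (γ s) = p ∨ sZ (γ s) = sX p
      exact hz12 s hs (by rw [hst]; exact hζz t)
    · change sZ (γ s) = γ t at hst
      change sZ (γ s) = p ∨ sZ (γ s) = sX p
      apply hz12 s hs
      have h1 : γ t 2 = - γ s 2 := by rw [← hst, sZ_2]
      have h2 := hnn s hs
      have h3 := hnn t ht
      rw [sZ_2]; linarith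
    · exact absurd rfl hij
  · show deriv ζ τ + deriv γ T + deriv (fun t => sZ (γ t)) T = 0
    have h1 := congrFun (h.deriv_map sZ) T
    rw [h1, ← hvdef]
    exact hsum

end Run7.h60
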