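import Pool.Agent.Run7.h60.Local2

/-! Existence of minimising metric geodesics. -/

set_option maxSynthPendingDepth 3

open Set MeasureTheory intervalIntegral Filter
open scoped Topology ContDiff

namespace Run7.h60

variable {E : Type*} [NormedAddCommGroup E] [NormedSpace ℝ E]

/-- `γ` restricted to `[0,1]` is a minimising metric geodesic of speed `D`. -/
structure MGeod (G : E → E →L[ℝ] E →L[ℝ] ℝ) (U : Set E) (γ : ℝ → E) (D : ℝ) : Prop where
  conn : ∀ s t, 0 ≤ s → s ≤ t → t ≤ 1 → ∀ ε, 0 < ε → Conn G U (γ s) (γ t) (D * (t - s) + ε)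
  lower : ∀ s t, 0 ≤ s → s ≤ t → t ≤ 1 → ∀ ℓ, Conn G U (γ s) (γ t) ℓ → D * (t - s) ≤ ℓ

/-- Points at proportional arc length along a curve. -/
lemma exists_points {G : E → E →L[ℝ] E →L[ℝ] ℝ} {U S : Set E} (hG : ContinuousOn G U)
    (hSU : S ⊆ U) {x y : E} {ℓ : ℝ} (h : Conn G S x y ℓ) :
    ∃ (p : ℝ → E) (L : ℝ), 0 ≤ L ∧ L ≤ ℓ ∧ (∀ t, p t ∈ S) ∧ p 0 = x ∧ p 1 = y ∧
      ∀ s t, 0 ≤ s → s ≤ t → t ≤ 1 → Conn G U (p s) (p t) ((t - s) * L) := by
  obtain ⟨c, hc, hcS, hc0, hc1, hℓ⟩ := h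
  have hcont : Continuous (fun t => nrm G (c t) (deriv c t)) := by
    rw [← continuousOn_univ]
    exact continuousOn_nrm hG hc.continuous.continuousOn (fun t _ => hSU (hcS t))
      (hc.continuous_deriv (by norm_num)).continuousOn
  set L := Len G c 0 1 with hL
  have hL0 : 0 ≤ L := len_nonneg G c zero_le_one
  have hlam : Continuous (fun τ => Len G c 0 τ) := by
    unfold Len
    exact intervalIntegral.continuous_primitive (fun a b => hcont.intervalIntegrable a b) 0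
  have hex : ∀ t : ℝ, ∃ τ : ℝ, τ ∈ Icc (0:ℝ) 1 ∧ (t ∈ Icc (0:ℝ) 1 → Len G c 0 τ = t * L) ∧
      (t = 0 → τ = 0) ∧ (t = 1 → τ = 1) := by
    intro t
    by_cases h0 : t = 0
    · refine ⟨0, by simp, ?_, fun _ => rfl, fun h1 => by rw [h0] at h1; norm_num at h1⟩
      intro _; simp [h0, Len]
    by_cases h1 : t = 1
    · refine ⟨1, by simp, ?_, fun h0' => absurd h0' h0, fun _ => rfl⟩
      intro _; simp [h1, hL]
    by_cases ht : t ∈ Icc (0:ℝ) 1
    · have hmem : t * L ∈ Icc (Len G c 0 0) (Len G c 0 1) := by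
        constructor
        · have : Len G c 0 0 = 0 := by simp [Len]
          rw [this]; exact mul_nonneg ht.1 hL0
        · exact mul_le_of_le_one_left hL0 ht.2
      obtain ⟨τ, hτ, hτe⟩ := intermediate_value_Icc zero_le_one hlam.continuousOn hmem
      exact ⟨τ, hτ, fun _ => hτe, fun h => absurd h h0, fun h => absurd h h1⟩
    · exact ⟨0, by simp, fun h => absurd h ht, fun h => absurd h h0, fun h => absurd h h1⟩
  choose τ hτ1 hτ2 hτ3 hτ4 using hex
  have hlen : ∀ a b : ℝ, Len G c a b = Len G c 0 b - Len G c 0 a := by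
    intro a b
    unfold Len
    rw [intervalIntegral.integral_interval_sub_left]
    · exact hcont.intervalIntegrable _ _
    · exact hcont.intervalIntegrable _ _
  refine ⟨fun t => c (τ t), L, hL0, hℓ, fun t => hcS _, ?_, ?_, ?_⟩
  · simp only [hτ3 0 rfl]; exact hc0 0 le_rfl
  · simp only [hτ4 1 rfl]; exact hc1 1 le_rfl
  · intro s t hs hst ht
    have es := hτ2 s ⟨hs, hst.trans ht⟩
    have et := hτ2 t ⟨hs.trans hst, ht⟩
    rcases le_total (τ s) (τ t) with hle | hle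
    · have := conn_of_curve (G := G) hG hle (fun u _ => hc.contDiffAt) (fun u _ => hSU (hcS u))
      refine this.mono le_rfl ?_
      rw [hlen, es, et]; linarith
    · have := (conn_of_curve (G := G) hG hle (fun u _ => hc.contDiffAt)
        (fun u _ => hSU (hcS u))).symm
      refine this.mono le_rfl ?_
      rw [hlen, es, et]
      have h1 : (s - t) * L ≤ 0 := mul_nonpos_of_nonpos_of_nonneg (by linarith) hL0
      have h2 : 0 ≤ (t - s) * L := mul_nonneg (by linarith) hL0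
      linarith

namespace MetricOn

variable {G : E → E →L[ℝ] E →L[ℝ] ℝ} {U : Set E}

theorem exists_mgeod [FiniteDimensional ℝ E] (h : MetricOn G U) {S : Set E} (hS : IsCompact S)
    (hSU : S ⊆ U) (hproj : ∀ x ∈ S, ∀ y ∈ S, ∀ ℓ, Conn G U x y ℓ → Conn G S x y ℓ)
    {x y : E} (hx : x ∈ S) (hy : y ∈ S) {ℓ₀ : ℝ} (hℓ₀ : Conn G U x y ℓ₀) :
    ∃ (γ : ℝ → E) (D : ℝ), 0 ≤ D ∧ (∀ t, γ t ∈ S) ∧ γ 0 = x ∧ γ 1 = y ∧ MGeod G U γ D := by
  set A : Set ℝ := {ℓ | Conn G U x y ℓ} with hA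
  have hAne : A.Nonempty := ⟨ℓ₀, hℓ₀⟩
  have hAbdd : BddBelow A := ⟨0, fun ℓ hℓ => Conn.nonneg hℓ⟩
  set D := sInf A with hD
  have hD0 : 0 ≤ D := le_csInf hAne (fun ℓ hℓ => Conn.nonneg hℓ)
  have hDle : ∀ ℓ, Conn G U x y ℓ → D ≤ ℓ := fun ℓ hℓ => csInf_le hAbdd hℓ
  have hnear : ∀ n : ℕ, ∃ (p : ℝ → E) (L : ℝ), 0 ≤ L ∧ L ≤ D + 1 / (n + 1) ∧
      (∀ t, p t ∈ S) ∧ p 0 = x ∧ p 1 = y ∧
      ∀ s t, 0 ≤ s → s ≤ t → t ≤ 1 → Conn G U (p s) (p t) ((t - s) * L) := by
    intro n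
    have hpos : (0:ℝ) < 1 / (n + 1) := by positivity
    obtain ⟨ℓ, hℓA, hℓlt⟩ := exists_lt_of_csInf_lt hAne (show sInf A < D + 1 / (n + 1) by linarith)
    have := hproj x hx y hy _ (hℓA : Conn G U x y ℓ)
    obtain ⟨p, L, h1, h2, h3⟩ := exists_points h.contOn hSU this
    exact ⟨p, L, h1, h2.trans hℓlt.le, h3⟩
  choose p L hL0 hLle hpS hp0 hp1 hpconn using hnear
  -- compactness in the product space
  set 𝒰 : Ultrafilter ℕ := Ultrafilter.of atTop with h𝒰
  have h𝒰le : (𝒰 : Filter ℕ) ≤ atTop := Ultrafilter.of_le atTop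
  have hK : IsCompact (Set.pi (univ : Set ℝ) (fun _ => S)) := isCompact_univ_pi (fun _ => hS)
  obtain ⟨γ, hγK, hγ⟩ := hK.ultrafilter_le_nhds (𝒰.map p) (by
    rw [le_principal_iff, Ultrafilter.mem_coe, Ultrafilter.mem_map]
    exact univ_mem' (fun n t _ => hpS n t))
  have hlim : ∀ t, Tendsto (fun n => p n t) 𝒰 (𝓝 (γ t)) := by
    intro t
    have : Tendsto p 𝒰 (𝓝 γ) := by
      rw [Tendsto]; exact_mod_cast hγ
    exact (tendsto_pi_nhds.1 this) t
  have hγS : ∀ t, γ t ∈ S := fun t => hγK t (mem_univ t)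
  have hγ0 : γ 0 = x := by
    have h1 := hlim 0
    simp_rw [hp0] at h1
    exact tendsto_nhds_unique h1 tendsto_const_nhds
  have hγ1 : γ 1 = y := by
    have h1 := hlim 1
    simp_rw [hp1] at h1
    exact tendsto_nhds_unique h1 tendsto_const_nhds
  have hconn : ∀ s t, 0 ≤ s → s ≤ t → t ≤ 1 → ∀ ε, 0 < ε →
      Conn G U (γ s) (γ t) (D * (t - s) + ε) := by
    intro s t hs hst ht ε hε
    obtain ⟨r, m, M, C, hr, hm, hM, hC, H⟩ := h.exists_local hS hSU
    set δ := min r (min 1 (ε / (3 * ((1 + C) * M)))) with hδ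
    have hδ0 : 0 < δ := by
      simp only [hδ]; refine lt_min hr (lt_min one_pos (by positivity))
    have hsmall : ∀ z w : E, z ∈ S → ‖w - z‖ < δ → Conn G U z w (ε / 3) := by
      intro z w hz hw
      have hwr : ‖w - z‖ ≤ r := hw.le.trans (min_le_left _ _)
      have hw1 : ‖w - z‖ ≤ 1 := hw.le.trans ((min_le_right _ _).trans (min_le_left _ _))
      have hw2 : ‖w - z‖ ≤ ε / (3 * ((1 + C) * M)) :=
        hw.le.trans ((min_le_right _ _).trans (min_le_right _ _))
      have hzz := (H z hz z (by simpa using hr.le)).2.1 (w - z)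
      refine ((H z hz w hwr).2.2.1).mono le_rfl ?_
      calc (1 + C * ‖w - z‖) * nrm G z (w - z) ≤ (1 + C * 1) * (M * ‖w - z‖) := by
            have := nrm_nonneg G z (w - z)
            have h2 := hzz.2.1
            gcongr
        _ = ((1 + C) * M) * ‖w - z‖ := by ring
        _ ≤ ((1 + C) * M) * (ε / (3 * ((1 + C) * M))) := by gcongr
        _ = ε / 3 := by field_simp
    have ev1 : ∀ᶠ n in (𝒰 : Filter ℕ), ‖p n s - γ s‖ < δ := by
      have := (hlim s).sub_const (γ s)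
      rw [sub_self] at this
      have := this.norm
      rw [norm_zero] at this
      exact this.eventually (gt_mem_nhds hδ0)
    have ev2 : ∀ᶠ n in (𝒰 : Filter ℕ), ‖p n t - γ t‖ < δ := by
      have := (hlim t).sub_const (γ t)
      rw [sub_self] at this
      have := this.norm
      rw [norm_zero] at this
      exact this.eventually (gt_mem_nhds hδ0)
    have ev3 : ∀ᶠ n : ℕ in (𝒰 : Filter ℕ), (1:ℝ) / (n + 1) < ε / 3 := by
      apply h𝒰le
      exact (tendsto_one_div_add_atTop_nhds_zero_nat (𝕜 := ℝ)).eventually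
        (gt_mem_nhds (by positivity))
    obtain ⟨n, hn1, hn2, hn3⟩ := (ev1.and (ev2.and ev3)).exists
    have a1 := hsmall (γ s) (p n s) (hγS s) hn1
    have a2 := (hsmall (γ t) (p n t) (hγS t) hn2).symm
    have a3 := hpconn n s t hs hst ht
    refine ((a1.trans h.contOn a3).trans h.contOn a2).mono le_rfl ?_
    have h1 : (t - s) * L n ≤ (t - s) * (D + 1 / (n + 1)) :=
      mul_le_mul_of_nonneg_left (hLle n) (by linarith)
    have h2 : (t - s) * (1 / ((n:ℝ) + 1)) ≤ 1 * (1 / ((n:ℝ) + 1)) :=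
      mul_le_mul_of_nonneg_right (by linarith) (by positivity)
    nlinarith
  refine ⟨γ, D, hD0, hγS, hγ0, hγ1, hconn, ?_⟩
  intro s t hs hst ht ℓ hℓ
  apply le_of_forall_pos_le_add
  intro ε hε
  have a1 := hconn 0 s le_rfl hs (hst.trans ht) (ε / 2) (by positivity)
  have a2 := hconn t 1 (hs.trans hst) ht le_rfl (ε / 2) (by positivity)
  rw [hγ0] at a1
  rw [hγ1] at a2
  have := hDle _ ((a1.trans h.contOn hℓ).trans h.contOn a2)
  linarith

end MetricOn

end Run7.h60
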