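import Pool.Agent.Run7.h60.Leaf
import Pool.Agent.Run7.h60.Angle

/-! The geodesics starting orthogonally to `x = 0` leave the hemisphere `z > 0`. -/

set_option maxSynthPendingDepth 3

open Set MeasureTheory intervalIntegral Filter
open scoped Topology ContDiff RealInnerProductSpace NNReal

namespace Run7.h60

variable {g : R3 → R3 →L[ℝ] R3 →L[ℝ] ℝ}

/-- A unit speed geodesic does not stay forever in a half great circle. -/
lemma not_on_half (hg : SphMetric g) {η : ℝ → R3} (h : UGeod g η) {α β : ℝ}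
    (hab : α ^ 2 + β ^ 2 = 1) (hline : ∀ s, 0 ≤ s → η s 0 * β = η s 2 * α)
    (hpos : ∀ s, 0 ≤ s → 0 ≤ α * η s 0 + β * η s 2) : False := by
  have hS : IsCompact (Metric.sphere (0 : R3) 1) := isCompact_sphere _ _
  obtain ⟨r, m, M, C, hr, hm, hM, hC, H⟩ := (metricOn_ext hg).exists_bounds hS sphere_subset
  have hv0 : ∀ s, 1 ≤ M * ‖deriv η s‖ := by
    intro s
    have h1 := ((H (η s) (h.mem s) (η s) (by simpa using hr.le)).2 (deriv η s)).2.1
    rwa [h.speed s] at h1
  have d0 : ∀ s, HasDerivAt (fun t => η t 0) (deriv η s 0) s := fun s =>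
    hasDerivAt_coord (h.hasDerivAt s) 0
  have d1 : ∀ s, HasDerivAt (fun t => η t 1) (deriv η s 1) s := fun s =>
    hasDerivAt_coord (h.hasDerivAt s) 1
  have d2 : ∀ s, HasDerivAt (fun t => η t 2) (deriv η s 2) s := fun s =>
    hasDerivAt_coord (h.hasDerivAt s) 2
  -- the velocity is tangent to the circle
  have hl' : ∀ s, 0 ≤ s → deriv η s 0 * β = deriv η s 2 * α := by
    intro s hs
    have e1 : HasDerivWithinAt (fun t => η t 0 * β - η t 2 * α)
        (deriv η s 0 * β - deriv η s 2 * α) (Ici s) s :=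
      (((d0 s).mul_const β).sub ((d2 s).mul_const α)).hasDerivWithinAt
    have e2 : HasDerivWithinAt (fun t => η t 0 * β - η t 2 * α) 0 (Ici s) s := by
      apply (hasDerivWithinAt_const s (Ici s) (0:ℝ)).congr
      · intro t ht
        have := hline t (hs.trans ht)
        linarith
      · have := hline s hs
        linarith
    have e3 := (uniqueDiffOn_Ici s s (mem_Ici.2 le_rfl)).eq_deriv _ e1 e2
    linarith
  obtain ⟨P, hP⟩ : ∃ P : ℝ → ℝ, P = fun s => α * η s 0 + β * η s 2 := ⟨_, rfl⟩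
  obtain ⟨P', hP'⟩ : ∃ P' : ℝ → ℝ, P' = fun s => α * deriv η s 0 + β * deriv η s 2 := ⟨_, rfl⟩
  have hPd : ∀ s, HasDerivAt P (P' s) s := by
    intro s
    rw [hP, hP']
    exact ((d0 s).const_mul α).add ((d2 s).const_mul β)
  have x0 : ∀ s, 0 ≤ s → η s 0 = α * P s := by
    intro s hs
    rw [hP]; simp only
    have := hline s hs
    linear_combination (-η s 0) * hab + β * this
  have x2 : ∀ s, 0 ≤ s → η s 2 = β * P s := by
    intro s hs
    rw [hP]; simp only
    have := hline s hs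
    linear_combination (-η s 2) * hab - α * this
  have v0 : ∀ s, 0 ≤ s → deriv η s 0 = α * P' s := by
    intro s hs
    rw [hP']; simp only
    have := hl' s hs
    linear_combination (-deriv η s 0) * hab + β * this
  have v2 : ∀ s, 0 ≤ s → deriv η s 2 = β * P' s := by
    intro s hs
    rw [hP']; simp only
    have := hl' s hs
    linear_combination (-deriv η s 2) * hab - α * this
  have hn : ∀ s, 0 ≤ s → P s ^ 2 + η s 1 ^ 2 = 1 := by
    intro s hs
    have h1 := mem_S2.1 (h.mem s)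
    rw [x0 s hs, x2 s hs] at h1
    linear_combination h1 - P s ^ 2 * hab
  have ht : ∀ s, 0 ≤ s → P s * P' s + η s 1 * deriv η s 1 = 0 := by
    intro s hs
    have h1 := h.tangent s
    rw [inner3, x0 s hs, x2 s hs, v0 s hs, v2 s hs] at h1
    linear_combination h1 - P s * P' s * hab
  obtain ⟨w, hw⟩ : ∃ w : ℝ → ℝ, w = fun s => P s * deriv η s 1 - η s 1 * P' s := ⟨_, rfl⟩
  have hP'c : Continuous P' := by
    rw [hP']
    have := h.continuous_deriv
    exact (continuous_const.mul ((continuous_coord 0).comp this)).add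
      (continuous_const.mul ((continuous_coord 2).comp this))
  have hwc : Continuous w := by
    rw [hw]
    have e0 : Continuous P := continuous_iff_continuousAt.2 fun s => (hPd s).continuousAt
    have e1 : Continuous (fun s => deriv η s 1) := (continuous_coord 1).comp h.continuous_deriv
    exact (e0.mul e1).sub ((cont_coord h 1).mul hP'c)
  have hwb : ∀ s, 0 ≤ s → 1 / M ≤ |w s| := by
    intro s hs
    have e1 : w s ^ 2 = ‖deriv η s‖ ^ 2 := by
      rw [norm3, v0 s hs, v2 s hs, hw]; simp only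
      have f1 := hn s hs
      have f2 := ht s hs
      linear_combination (P' s ^ 2 + deriv η s 1 ^ 2) * f1
        - (P s * P' s + η s 1 * deriv η s 1) * f2 - P' s ^ 2 * hab
    have e2 : |w s| = ‖deriv η s‖ := by
      rw [← abs_of_nonneg (norm_nonneg (deriv η s))]
      exact (sq_eq_sq_iff_abs_eq_abs _ _).1 e1
    rw [e2, div_le_iff₀ hM]
    have := hv0 s
    linarith
  obtain ⟨t, ht0, ht1⟩ := exists_neg_one (p := P) (q := fun s => η s 1) (h := w) (c := 1 / M)
    hwc (by positivity) hwb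
    (by
      intro s hs
      refine (hPd s).congr_deriv ?_
      rw [hw]; simp only
      have f1 := hn s hs
      have f2 := ht s hs
      linear_combination (- P' s) * f1 + P s * f2)
    (by
      intro s hs
      refine (d1 s).congr_deriv ?_
      rw [hw]; simp only
      have f1 := hn s hs
      have f2 := ht s hs
      linear_combination (- deriv η s 1) * f1 + η s 1 * f2)
    hn
  have := hpos t ht0
  have h2 : P t = α * η t 0 + β * η t 2 := by rw [hP]
  rw [← h2, ht1] at this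
  linarith

section

variable {E : Type*} [NormedAddCommGroup E] [InnerProductSpace ℝ E]

lemma continuousOn_nrm' {G : E → E →L[ℝ] E →L[ℝ] ℝ} {U : Set E} (hG : ContinuousOn G U) :
    ContinuousOn (fun z : E × E => nrm G z.1 z.2) (U ×ˢ (univ : Set E)) := by
  unfold nrm
  apply Real.continuous_sqrt.comp_continuousOn
  have h1 : ContinuousOn (fun z : E × E => G z.1) (U ×ˢ (univ : Set E)) :=
    hG.comp continuousOn_fst (fun z hz => hz.1)
  exact (h1.clm_apply continuousOn_snd).clm_apply continuousOn_snd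

lemma nrm_of_tendsto {G : E → E →L[ℝ] E →L[ℝ] ℝ} {U : Set E} (h : MetricOn G U)
    {x v : ℕ → E} {Y V : E}
    (hY : Y ∈ U) (hx : Tendsto x atTop (𝓝 Y)) (hv : Tendsto v atTop (𝓝 V))
    (h1 : ∀ n, nrm G (x n) (v n) = 1) : nrm G Y V = 1 := by
  have h2 : ContinuousAt (fun z : E × E => nrm G z.1 z.2) (Y, V) :=
    (continuousOn_nrm' h.contOn).continuousAt
      ((h.isOpen.prod isOpen_univ).mem_nhds ⟨hY, mem_univ _⟩)
  have h3 : Tendsto (fun n => nrm G (x n) (v n)) atTop (𝓝 (nrm G Y V)) :=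
    h2.tendsto.comp (hx.prodMk_nhds hv)
  have h4 : (fun n => nrm G (x n) (v n)) = fun _ => (1:ℝ) := by
    funext n; exact h1 n
  rw [h4] at h3
  exact (tendsto_const_nhds_iff.1 h3).symm

lemma tendsto_ugeod [FiniteDimensional ℝ E] {g : E → E →L[ℝ] E →L[ℝ] ℝ} (hg : SphMetric g) {γ : ℕ → ℝ → E} {η : ℝ → E}
    (hγ : ∀ n, UGeod g (γ n)) (hη : UGeod g η)
    (hlim : Tendsto (fun n => (γ n 0, deriv (γ n) 0)) atTop (𝓝 (η 0, deriv η 0))) {s : ℝ}
    (hs : 0 ≤ s) : Tendsto (fun n => γ n s) atTop (𝓝 (η s)) := by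
  obtain ⟨K, hK, hdist⟩ := UGeod.exists_dist_le hg
  rw [tendsto_iff_dist_tendsto_zero]
  have h1 : Tendsto (fun n => dist (γ n 0, deriv (γ n) 0) (η 0, deriv η 0) * Real.exp (K * s))
      atTop (𝓝 0) := by
    have := (tendsto_iff_dist_tendsto_zero.1 hlim).mul_const (Real.exp (K * s))
    rw [zero_mul] at this
    exact this
  apply squeeze_zero (fun n => dist_nonneg) _ h1
  intro n
  have h2 := hdist _ _ (hγ n) hη s hs
  refine le_trans ?_ h2
  rw [Prod.dist_eq]; exact le_max_left _ _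

end

/-- A geodesic starting orthogonally from `x = 0` reaches `z ≤ 0`. -/
lemma exists_exit (hg : SphMetric g) (hQ : Signed g) {γ : ℝ → R3} (h : UGeod g γ)
    (hx0 : γ 0 0 = 0) (hz0 : 0 < γ 0 2) (hvx : 0 < deriv γ 0 0) :
    ∃ t, 0 ≤ t ∧ γ t 2 ≤ 0 := by
  by_contra hcon
  push Not at hcon
  have hprop : ProperSpace R3 := FiniteDimensional.proper ℝ R3
  have hx : ∀ t, 0 ≤ t → 0 ≤ γ t 0 := by
    intro t ht
    rcases ht.eq_or_lt with h1 | h1
    · rw [← h1, hx0]
    · exact ((quarter hg hQ h hx0 hz0 hvx (T := t + 1) (fun s hs => hcon s hs.1)).1 t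
        ⟨h1, by linarith⟩).le
  have hW : ∀ t, 0 ≤ t → 0 < zt (γ t) (deriv γ t) := by
    intro t ht
    exact (quarter hg hQ h hx0 hz0 hvx (T := t) (fun s hs => hcon s hs.1)).2 t ⟨ht, le_rfl⟩
  -- the angle
  obtain ⟨A, hA⟩ : ∃ A : ℝ → ℝ, A = fun t => Real.arctan (γ (max t 0) 0 / γ (max t 0) 2) :=
    ⟨_, rfl⟩
  have hmono : Monotone A := by
    intro a b hab
    rw [hA]; simp only
    apply Real.arctan_strictMono.monotone
    rcases (max_le_max_right 0 hab).eq_or_lt with h1 | h1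
    · rw [h1]
    · refine (ratio_lt h h1 ?_ ?_).le
      · intro t ht; exact hcon t ((le_max_right a 0).trans ht.1)
      · intro t ht; exact hW t ((le_max_right a 0).trans ht.1)
  have hbdd : BddAbove (range A) := by
    refine ⟨Real.pi / 2, ?_⟩
    rintro _ ⟨t, rfl⟩
    rw [hA]; exact (Real.arctan_lt_pi_div_two _).le
  obtain ⟨Θ, hΘ⟩ : ∃ Θ, Tendsto A atTop (𝓝 Θ) := ⟨_, tendsto_atTop_ciSup hmono hbdd⟩
  have hA0 : ∀ t, 0 ≤ A t := by
    intro t
    rw [hA]; simp only
    rw [Real.arctan_nonneg]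
    exact div_nonneg (hx _ (le_max_right _ _)) (hcon _ (le_max_right _ _)).le
  have hAle : ∀ t, A t ≤ Real.pi / 2 := by
    intro t; rw [hA]; exact (Real.arctan_lt_pi_div_two _).le
  have hΘ0 : 0 ≤ Θ := ge_of_tendsto' hΘ hA0
  have hΘ1 : Θ ≤ Real.pi / 2 := le_of_tendsto' hΘ hAle
  have hpi := Real.pi_pos
  have hsin : 0 ≤ Real.sin Θ := Real.sin_nonneg_of_nonneg_of_le_pi hΘ0 (by linarith)
  have hcos : 0 ≤ Real.cos Θ := Real.cos_nonneg_of_neg_pi_div_two_le_of_le (by linarith) hΘ1
  -- the line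
  have hlineA : ∀ t, 0 ≤ t → γ t 0 * Real.cos (A t) = γ t 2 * Real.sin (A t) := by
    intro t ht
    have h1 : Real.tan (A t) = γ t 0 / γ t 2 := by
      rw [hA]; simp only; rw [Real.tan_arctan, max_eq_left ht]
    have hc : 0 < Real.cos (A t) := by rw [hA]; exact Real.cos_arctan_pos _
    have hz := hcon t ht
    rw [Real.tan_eq_sin_div_cos] at h1
    field_simp at h1
    linarith
  have hgap : Tendsto (fun t => γ t 0 * Real.cos Θ - γ t 2 * Real.sin Θ) atTop (𝓝 0) := by
    have h1 : Tendsto (fun t => 2 * (|Real.cos Θ - Real.cos (A t)|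
        + |Real.sin Θ - Real.sin (A t)|)) atTop (𝓝 (2 * (|Real.cos Θ - Real.cos Θ|
        + |Real.sin Θ - Real.sin Θ|))) := by
      have c1 := (Real.continuous_cos.tendsto Θ).comp hΘ
      have c2 := (Real.continuous_sin.tendsto Θ).comp hΘ
      exact (((tendsto_const_nhds.sub c1).abs).add ((tendsto_const_nhds.sub c2).abs)).const_mul 2
    rw [sub_self, sub_self, abs_zero, add_zero, mul_zero] at h1
    apply squeeze_zero_norm' _ h1
    filter_upwards [eventually_ge_atTop (0:ℝ)] with t ht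
    have hline := hlineA t ht
    have e1 : γ t 0 * Real.cos Θ - γ t 2 * Real.sin Θ
        = γ t 0 * (Real.cos Θ - Real.cos (A t)) - γ t 2 * (Real.sin Θ - Real.sin (A t)) := by
      linear_combination hline
    have hn := mem_S2.1 (h.mem t)
    have b0 : |γ t 0| ≤ 1 := by
      rw [abs_le_one_iff_mul_self_le_one]; nlinarith [sq_nonneg (γ t 1), sq_nonneg (γ t 2)]
    have b2 : |γ t 2| ≤ 1 := by
      rw [abs_le_one_iff_mul_self_le_one]; nlinarith [sq_nonneg (γ t 1), sq_nonneg (γ t 0)]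
    rw [e1, Real.norm_eq_abs]
    have a0 := abs_nonneg (Real.cos Θ - Real.cos (A t))
    have a1 := abs_nonneg (Real.sin Θ - Real.sin (A t))
    calc |γ t 0 * (Real.cos Θ - Real.cos (A t)) - γ t 2 * (Real.sin Θ - Real.sin (A t))|
        ≤ |γ t 0 * (Real.cos Θ - Real.cos (A t))| + |γ t 2 * (Real.sin Θ - Real.sin (A t))| :=
          abs_sub _ _
      _ = |γ t 0| * |Real.cos Θ - Real.cos (A t)| + |γ t 2| * |Real.sin Θ - Real.sin (A t)| := by
          rw [abs_mul, abs_mul]
      _ ≤ _ := by nlinarith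
  -- a limit geodesic
  obtain ⟨R, hR0, hR⟩ := UGeod.norm_deriv_le hg
  have hcpt : IsCompact (Metric.sphere (0 : R3) 1 ×ˢ Metric.closedBall (0 : R3) R) :=
    (isCompact_sphere _ _).prod (isCompact_closedBall _ _)
  obtain ⟨⟨Y, V⟩, hYV, φ, hφ, hlim⟩ := hcpt.tendsto_subseq
    (x := fun n : ℕ => (γ n, deriv γ n)) (fun n => ⟨h.mem _, by
      simpa using hR _ (h.mem _) _ (h.speed (n:ℝ))⟩)
  have hlim1 : Tendsto (fun n => γ (φ n)) atTop (𝓝 Y) :=
    (continuous_fst.tendsto _).comp hlim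
  have hlim2 : Tendsto (fun n => deriv γ (φ n)) atTop (𝓝 V) :=
    (continuous_snd.tendsto _).comp hlim
  have hYS : Y ∈ Metric.sphere (0 : R3) 1 := hYV.1
  have hYVt : ⟪Y, V⟫ = 0 := by
    have h1 : Tendsto (fun n => ⟪γ (φ n), deriv γ (φ n)⟫) atTop (𝓝 ⟪Y, V⟫) :=
      hlim1.inner hlim2
    have h2 : (fun n => ⟪γ (φ n), deriv γ (φ n)⟫) = fun _ => (0:ℝ) := by
      funext n; exact h.tangent _
    rw [h2] at h1
    exact (tendsto_const_nhds_iff.1 h1).symm
  have hVn : nrm (ext g) Y V = 1 :=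
    nrm_of_tendsto (metricOn_ext hg) (sphere_subset hYS) hlim1 hlim2 (fun n => h.speed _)
  obtain ⟨η, hη, hη0, hη1⟩ := exists_ugeod hg hYS hYVt hVn
  have hconv : ∀ s, 0 ≤ s → Tendsto (fun n => γ (φ n + s)) atTop (𝓝 (η s)) := by
    intro s hs
    refine tendsto_ugeod hg (fun n => h.shift (φ n)) hη ?_ hs
    rw [hη0, hη1]
    refine hlim.congr ?_
    intro n
    rw [h.deriv_shift]
    simp only [add_zero, Function.comp]
  have hcoord : ∀ s, 0 ≤ s → ∀ i : Fin 3, Tendsto (fun n => γ (φ n + s) i) atTop (𝓝 (η s i)) :=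
    fun s hs i => ((continuous_coord i).tendsto _).comp (hconv s hs)
  have htop : ∀ s : ℝ, Tendsto (fun n => ((φ n : ℕ) : ℝ) + s) atTop atTop := by
    intro s
    exact tendsto_atTop_add_const_right _ _
      (tendsto_natCast_atTop_atTop.comp hφ.tendsto_atTop)
  refine not_on_half hg hη (α := Real.sin Θ) (β := Real.cos Θ) (Real.sin_sq_add_cos_sq Θ) ?_ ?_
  · intro s hs
    have h1 := ((hcoord s hs 0).mul_const (Real.cos Θ)).sub
      ((hcoord s hs 2).mul_const (Real.sin Θ))
    have h2 := hgap.comp (htop s)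
    have h3 := tendsto_nhds_unique h1 h2
    linarith
  · intro s hs
    have h0 : 0 ≤ η s 0 := ge_of_tendsto' (hcoord s hs 0) (fun n => hx _ (by positivity))
    have h2 : 0 ≤ η s 2 := ge_of_tendsto' (hcoord s hs 2) (fun n => (hcon _ (by positivity)).le)
    positivity

end Run7.h60
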