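import Pool.Agent.Run7.h60.Gamma

/-! For the extended metric the sphere is totally geodesic. -/

set_option maxSynthPendingDepth 3

open Set MeasureTheory intervalIntegral Filter
open scoped Topology ContDiff RealInnerProductSpace

namespace Run7.h60

variable {E : Type*} [NormedAddCommGroup E] [InnerProductSpace ℝ E]

lemma drad_self {x : E} (hx : x ≠ 0) : drad x x = 0 := by
  have hn : ‖x‖ ≠ 0 := norm_ne_zero_iff.2 hx
  rw [drad_apply, real_inner_self_eq_norm_sq, ← sub_smul]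
  have : ‖x‖⁻¹ - ‖x‖⁻¹ ^ 3 * ‖x‖ ^ 2 = 0 := by field_simp; ring
  rw [this, zero_smul]

lemma hasDerivAt_ext [FiniteDimensional ℝ E] {g : E → E →L[ℝ] E →L[ℝ] ℝ} (hg : SphMetric g)
    {x : E} (hx : x ≠ 0) (η v w : E) :
    HasDerivAt (fun s : ℝ => ext g (x + s • η) v w) (fderiv ℝ (ext g) x η v w) 0 := by
  have h := metricOn_ext hg
  have h1 : HasFDerivAt (ext g) (fderiv ℝ (ext g) x) (x + (0:ℝ) • η) := by
    rw [zero_smul, add_zero]
    exact ((h.smooth.contDiffAt (h.isOpen.mem_nhds hx)).differentiableAt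
      (by norm_num)).hasFDerivAt
  have h2 : HasDerivAt (fun s : ℝ => x + s • η) η 0 := by
    simpa using ((hasDerivAt_id (0:ℝ)).smul_const η).const_add x
  have h3 := h1.comp_hasDerivAt (0:ℝ) h2
  have h4 := (h3.clm_apply (hasDerivAt_const (0:ℝ) v)).clm_apply (hasDerivAt_const (0:ℝ) w)
  simpa using h4

/-- Radial derivative of the extended metric. -/
lemma fderiv_ext_radial [FiniteDimensional ℝ E] {g : E → E →L[ℝ] E →L[ℝ] ℝ}
    (hg : SphMetric g) {x : E} (hx0 : x ≠ 0) (v : E) :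
    fderiv ℝ (ext g) x x v v = -2 * g (rad x) (drad x v) (drad x v) + 2 * ⟪x, v⟫ ^ 2 := by
  have hn : ‖x‖ ≠ 0 := norm_ne_zero_iff.2 hx0
  have h1 := hasDerivAt_ext hg hx0 x v v
  have h2 : HasDerivAt (fun s : ℝ => (1 + s)⁻¹ ^ 2 * g (rad x) (drad x v) (drad x v)
      + (1 + s) ^ 2 * ⟪x, v⟫ ^ 2) (-2 * g (rad x) (drad x v) (drad x v) + 2 * ⟪x, v⟫ ^ 2) 0 := by
    have a1 : HasDerivAt (fun s : ℝ => 1 + s) 1 0 := by
      simpa using (hasDerivAt_id (0:ℝ)).const_add 1
    have a2 := ((a1.inv (by norm_num)).pow 2).mul_const (g (rad x) (drad x v) (drad x v))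
    have a3 := (a1.pow 2).mul_const (⟪x, v⟫ ^ 2)
    have a4 := a2.add a3
    refine a4.congr_deriv ?_
    simp
  have h3 : HasDerivAt (fun s : ℝ => ext g (x + s • x) v v)
      (-2 * g (rad x) (drad x v) (drad x v) + 2 * ⟪x, v⟫ ^ 2) 0 := by
    apply h2.congr_of_eventuallyEq
    have : Ioi (-1:ℝ) ∈ 𝓝 (0:ℝ) := Ioi_mem_nhds (by norm_num)
    filter_upwards [this] with s hs
    have hs1 : 0 < 1 + s := by have : -1 < s := hs; linarith
    have e1 : x + s • x = (1 + s) • x := by rw [add_smul, one_smul]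
    have e2 : rad ((1 + s) • x) = rad x := by
      rw [rad, rad, norm_smul, Real.norm_eq_abs, abs_of_pos hs1, smul_smul]
      congr 1
      field_simp
    have e3 : drad ((1 + s) • x) v = (1 + s)⁻¹ • drad x v := by
      rw [drad_apply, drad_apply, norm_smul, Real.norm_eq_abs, abs_of_pos hs1,
        real_inner_smul_left, smul_sub, smul_smul, smul_smul, smul_smul]
      congr 2
      · field_simp
      · field_simp
    rw [e1, ext_apply, e2, e3]
    simp only [map_smul, smul_apply, smul_eq_mul, real_inner_smul_left]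
    ring
  exact h1.unique h3

/-- Derivative of the extended metric paired with the radial vector. -/
lemma fderiv_ext_mixed [FiniteDimensional ℝ E] {g : E → E →L[ℝ] E →L[ℝ] ℝ}
    (hg : SphMetric g) {x : E} (hx0 : x ≠ 0) (v : E) :
    fderiv ℝ (ext g) x v v x
      = - g (rad x) (drad x v) (drad x v) + ⟪v, v⟫ * ⟪x, x⟫ + ⟪x, v⟫ ^ 2 := by
  have h1 := hasDerivAt_ext hg hx0 v v x
  obtain ⟨k, hk⟩ : ∃ k : ℝ → ℝ, k = fun s => g (rad (x + s • v)) (drad (x + s • v) v)
    (drad (x + s • v) v) := ⟨_, rfl⟩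
  have hev : ∀ᶠ s : ℝ in 𝓝 0, x + s • v ≠ 0 := by
    have h2 : Continuous (fun s : ℝ => x + s • v) := by fun_prop
    have h3 : ∀ᶠ y in 𝓝 (x + (0:ℝ) • v), y ≠ 0 := by
      apply isOpen_compl_singleton.mem_nhds
      simpa using hx0
    exact h2.continuousAt.eventually h3
  have hkd : ContinuousAt k 0 := by
    rw [hk]
    have h2 : ContinuousAt (fun s : ℝ => x + s • v) 0 := by fun_prop
    have hmem : ({0}ᶜ : Set E) ∈ 𝓝 (x + (0:ℝ) • v) := by
      apply isOpen_compl_singleton.mem_nhds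
      simpa using hx0
    have c1 : ContinuousAt (fun s : ℝ => rad (x + s • v)) 0 :=
      ContinuousAt.comp (f := fun s : ℝ => x + s • v)
        (contDiffOn_rad.continuousOn.continuousAt hmem) h2
    have c2 : ContinuousAt (fun s : ℝ => drad (x + s • v)) 0 :=
      ContinuousAt.comp (f := fun s : ℝ => x + s • v)
        (contDiffOn_drad.continuousOn.continuousAt hmem) h2
    have c3 : ContinuousAt (fun s : ℝ => g (rad (x + s • v))) 0 :=
      hg.smooth.continuous.continuousAt.comp c1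
    have c4 : ContinuousAt (fun s : ℝ => drad (x + s • v) v) 0 := c2.clm_apply continuousAt_const
    exact (c3.clm_apply c4).clm_apply c4
  have h3 : HasDerivAt (fun s : ℝ => -(s * k s) + ⟪x + s • v, v⟫ * ⟪x + s • v, x⟫)
      (- g (rad x) (drad x v) (drad x v) + ⟪v, v⟫ * ⟪x, x⟫ + ⟪x, v⟫ ^ 2) 0 := by
    have a1 : HasDerivAt (fun s : ℝ => s * k s) (k 0) 0 := by
      rw [hasDerivAt_iff_tendsto_slope_zero]
      have : Tendsto k (𝓝[≠] 0) (𝓝 (k 0)) := hkd.tendsto.mono_left nhdsWithin_le_nhds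
      refine this.congr' ?_
      filter_upwards [self_mem_nhdsWithin] with s hs
      have hs0 : s ≠ 0 := hs
      simp only [zero_add, zero_mul, sub_zero, smul_eq_mul]
      field_simp
    have hk0 : k 0 = g (rad x) (drad x v) (drad x v) := by
      rw [hk]; simp
    have a2 : HasDerivAt (fun s : ℝ => ⟪x + s • v, v⟫) ⟪v, v⟫ 0 := by
      have : (fun s : ℝ => ⟪x + s • v, v⟫) = fun s => ⟪x, v⟫ + s * ⟪v, v⟫ := by
        funext s; rw [inner_add_left, real_inner_smul_left]
      rw [this]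
      simpa using ((hasDerivAt_id (0:ℝ)).mul_const ⟪v, v⟫).const_add ⟪x, v⟫
    have a3 : HasDerivAt (fun s : ℝ => ⟪x + s • v, x⟫) ⟪v, x⟫ 0 := by
      have : (fun s : ℝ => ⟪x + s • v, x⟫) = fun s => ⟪x, x⟫ + s * ⟪v, x⟫ := by
        funext s; rw [inner_add_left, real_inner_smul_left]
      rw [this]
      simpa using ((hasDerivAt_id (0:ℝ)).mul_const ⟪v, x⟫).const_add ⟪x, x⟫
    have a4 := a1.neg.add (a2.mul a3)
    refine a4.congr_deriv ?_
    rw [hk0]
    simp only [zero_smul, add_zero]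
    rw [real_inner_comm x v]
    ring
  have h4 : HasDerivAt (fun s : ℝ => ext g (x + s • v) v x)
      (- g (rad x) (drad x v) (drad x v) + ⟪v, v⟫ * ⟪x, x⟫ + ⟪x, v⟫ ^ 2) 0 := by
    apply h3.congr_of_eventuallyEq
    filter_upwards [hev] with s hs
    have e1 : drad (x + s • v) x = -(s • drad (x + s • v) v) := by
      have h5 := drad_self hs
      rw [map_add, map_smul] at h5
      exact eq_neg_of_add_eq_zero_left h5
    rw [ext_apply, e1, hk]
    simp only [map_neg, map_smul, smul_eq_mul]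
  exact h1.unique h4

/-- Along geodesics of the extended metric, the radial acceleration is that of the sphere. -/
lemma inner_chr [FiniteDimensional ℝ E] {g : E → E →L[ℝ] E →L[ℝ] ℝ} (hg : SphMetric g)
    {x : E} (hx0 : x ≠ 0) (v : E) : ⟪v, v⟫ + ⟪x, chr (ext g) x v⟫ = 0 := by
  have h1 := chr_spec (metricOn_ext hg) (show x ∈ ({0}ᶜ : Set E) from hx0) v x
  rw [fderiv_ext_radial hg hx0, fderiv_ext_mixed hg hx0, ext_apply, drad_self hx0] at h1
  simp only [map_zero] at h1
  have h2 : 0 < ⟪x, x⟫ := real_inner_self_pos.2 hx0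
  have h3 : ⟪x, x⟫ * (⟪v, v⟫ + ⟪x, chr (ext g) x v⟫) = 0 := by linarith
  rcases mul_eq_zero.1 h3 with h4 | h4
  · exact absurd h4 h2.ne'
  · exact h4

end Run7.h60
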