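import Pool.Agent.Run7.h60.FALoc2

/-!
# Families of almost affine maps: averages over the parameter space
-/

set_option autoImplicit false

open Set Filter Topology Metric Function MeasureTheory
open scoped Manifold ContDiff

noncomputable section

namespace Run7.h60.Sc

open Pool.Agent.Y522

variable {n : ℕ} {P : Type} [NormedAddCommGroup P] [NormedSpace ℝ P]

lemma exists_pu [FiniteDimensional ℝ P] {δ : ℝ} (hδ : 0 < δ) :
    ∃ ρ : SmoothPartitionOfUnity P 𝓘(ℝ, P) P univ, ρ.IsSubordinate (fun j => ball j δ) :=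
  SmoothPartitionOfUnity.exists_isSubordinate 𝓘(ℝ, P) isClosed_univ _ (fun _ => isOpen_ball)
    (fun x _ => mem_iUnion.2 ⟨x, mem_ball_self hδ⟩)

/-- the average of the family -/
def av (ρ : SmoothPartitionOfUnity P 𝓘(ℝ, P) P univ) (h : P × E n → E n) (q : P × E n) : E n :=
  ∑ᶠ j, ρ j q.1 • h (j, q.2)

variable {ρ : SmoothPartitionOfUnity P 𝓘(ℝ, P) P univ} {δ : ℝ}

lemma av_mem (hρ : ρ.IsSubordinate (fun j => ball j δ)) {h : P × E n → E n} {p : P} {z : E n}
    {t : Set (E n)} (ht : Convex ℝ t) (hj : ∀ j, dist j p < δ → h (j, z) ∈ t) :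
    av ρ h (p, z) ∈ t := by
  refine ρ.finsum_smul_mem_convex (g := fun j _ => h (j, z)) (mem_univ p) (fun j hj0 => ?_) ht
  refine hj j ?_
  rw [dist_comm]
  exact hρ j (subset_tsupport _ hj0)

lemma av_sum {h : P × E n → E n} {p : P} {s : Finset P} (hs : ρ.finsupport p ⊆ s) (z : E n) :
    av ρ h (p, z) = ∑ j ∈ s, ρ j p • h (j, z) := by
  refine finsum_eq_sum_of_support_subset _ ?_
  intro j hj
  apply hs
  rw [SmoothPartitionOfUnity.mem_finsupport]
  intro h0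
  have h1 : ρ j p = 0 := h0
  exact hj (by change ρ j p • h (j, z) = 0; rw [h1, zero_smul])

lemma av_smooth (hρ : ρ.IsSubordinate (fun j => ball j δ)) {h : P × E n → E n} {q : P × E n}
    {ε : ℝ} (hε : 0 < ε)
    (hc : ∀ j, dist j q.1 < δ → ContinuousOn (fun z => h (j, z)) (closedBall q.2 (2 * ε))) :
    ContinuousOn (fun z => av ρ h (q.1, z)) (closedBall q.2 (2 * ε)) ∧
    ContDiffAt ℝ ∞ (fun q' : P × E n => mo (fun z => av ρ h (q'.1, z)) ε q'.2) q := by
  have hs : ∀ j ∈ ρ.fintsupport q.1, dist j q.1 < δ := by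
    intro j hj
    rw [dist_comm]
    exact hρ j ((ρ.mem_fintsupport_iff q.1 j).1 hj)
  constructor
  · have e1 : (fun z => av ρ h (q.1, z)) = fun z => ∑ j ∈ ρ.fintsupport q.1, ρ j q.1 • h (j, z) := by
      funext z
      exact av_sum (ρ.finsupport_subset_fintsupport q.1) z
    rw [e1]
    exact continuousOn_finset_sum _ fun j hj => (hc j (hs j hj)).const_smul (ρ j q.1)
  · have e1 : (fun q' : P × E n => mo (fun z => av ρ h (q'.1, z)) ε q'.2) =ᶠ[𝓝 q]
        fun q' => ∑ j ∈ ρ.fintsupport q.1, ρ j q'.1 • mo (fun z => h (j, z)) ε q'.2 := by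
      have c1 : ∀ᶠ q' : P × E n in 𝓝 q, ρ.finsupport q'.1 ⊆ ρ.fintsupport q.1 :=
        continuousAt_fst.eventually (ρ.eventually_finsupport_subset q.1)
      have c2 : ∀ᶠ q' : P × E n in 𝓝 q, q'.2 ∈ ball q.2 ε :=
        continuousAt_snd.eventually (ball_mem_nhds q.2 hε)
      filter_upwards [c1, c2] with q' g1 g2
      have e2 : (fun z => av ρ h (q'.1, z)) =
          fun z => ∑ j ∈ ρ.fintsupport q.1, ρ j q'.1 • h (j, z) := by
        funext z
        exact av_sum g1 z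
      rw [e2]
      refine mo_sum _ _ (fun j z => h (j, z)) hε fun j hj => (hc j (hs j hj)).mono ?_
      intro w hw
      rw [mem_closedBall] at hw ⊢
      rw [mem_ball] at g2
      calc dist w q.2 ≤ dist w q'.2 + dist q'.2 q.2 := dist_triangle _ _ _
        _ ≤ ε + ε := add_le_add hw g2.le
        _ = 2 * ε := by ring
    refine ContDiffAt.congr_of_eventuallyEq ?_ e1
    refine ContDiffAt.sum fun j hj => ?_
    have c1 : ContDiffAt ℝ ∞ (fun q' : P × E n => ρ j q'.1) q := by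
      have : ContDiff ℝ ∞ (ρ j) := (ρ j).contMDiff.contDiff
      exact ContDiffAt.comp (g := ρ j) (f := Prod.fst) q this.contDiffAt contDiffAt_fst
    have c2 : ContDiffAt ℝ ∞ (fun q' : P × E n => mo (fun z => h (j, z)) ε q'.2) q :=
      ContDiffAt.comp (g := mo (fun z => h (j, z)) ε) (f := Prod.snd) q
        (mo_smooth hε (hc j (hs j hj))) contDiffAt_snd
    exact c1.smul c2

section box

variable {h : P × E n → E n} {c : P} {r : ℝ} {ε δ : ℕ → ℝ}
  {ρ : ℕ → SmoothPartitionOfUnity P 𝓘(ℝ, P) P univ}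

/-- smoothness in a box -/
lemma box_SMQ (hr : 0 < r) (hh : ∀ p ∈ closedBall c (2 * r), ∀ z ∈ closedBall (0 : E n) (2 * r),
      ContinuousAt h (p, z)) (hε : ∀ m, 0 < ε m) (hε0 : Tendsto ε atTop (𝓝 0))
    (hδ0 : Tendsto δ atTop (𝓝 0)) (hρ : ∀ m, (ρ m).IsSubordinate (fun j => ball j (δ m)))
    {q₀ : P × E n} (h1 : q₀.1 ∈ ball c (3 / 2 * r)) (h2 : q₀.2 ∈ ball (0 : E n) (3 / 2 * r)) :
    SMQ ε q₀ (fun m => av (ρ m) h) := by
  have a1 : ∀ᶠ q : (P × E n) × ℕ in 𝓝 q₀ ×ˢ atTop, q.1.1 ∈ ball c (3 / 2 * r) :=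
    (tendsto_valQ (h := Prod.fst) continuousAt_fst).eventually (isOpen_ball.mem_nhds h1)
  have a2 : ∀ᶠ q : (P × E n) × ℕ in 𝓝 q₀ ×ˢ atTop, q.1.2 ∈ ball (0 : E n) (3 / 2 * r) :=
    (tendsto_valQ (h := Prod.snd) continuousAt_snd).eventually (isOpen_ball.mem_nhds h2)
  have a3 : ∀ᶠ q : (P × E n) × ℕ in 𝓝 q₀ ×ˢ atTop, ε q.2 < r / 4 :=
    (tendsto_scaleQ hε0 q₀).eventually_lt_const (by positivity)
  have a4 : ∀ᶠ q : (P × E n) × ℕ in 𝓝 q₀ ×ˢ atTop, δ q.2 < r / 4 :=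
    (tendsto_scaleQ hδ0 q₀).eventually_lt_const (by positivity)
  filter_upwards [a1, a2, a3, a4] with q g1 g2 g3 g4
  refine av_smooth (hρ q.2) (hε q.2) fun j hj => ?_
  intro w hw
  have k1 : j ∈ closedBall c (2 * r) := by
    rw [mem_closedBall]
    rw [mem_ball] at g1
    have := dist_triangle j q.1.1 c
    linarith
  have k2 : w ∈ closedBall (0 : E n) (2 * r) := by
    rw [mem_closedBall] at hw ⊢
    rw [mem_ball] at g2
    have := dist_triangle w q.1.2 0
    linarith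
  have k3 : ContinuousAt (fun z : E n => ((j, z) : P × E n)) w := by fun_prop
  exact (ContinuousAt.comp (g := h) (f := fun z : E n => ((j, z) : P × E n)) (hh j k1 w k2)
    k3).continuousWithinAt

/-- closeness in a box -/
lemma box_CLQ {Λ κ : ℕ → ℝ} (hr : 0 < r)
    (hε : ∀ m, 0 < ε m) (hε0 : Tendsto ε atTop (𝓝 0))
    (hδ0 : Tendsto δ atTop (𝓝 0)) (hρ : ∀ m, (ρ m).IsSubordinate (fun j => ball j (δ m)))
    (hκ : ∀ m, ∀ p ∈ closedBall c (2 * r), ∀ p' ∈ closedBall c (2 * r), dist p' p < δ m →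
      ∀ z ∈ closedBall (0 : E n) (2 * r), ‖h (p', z) - h (p, z)‖ ≤ κ m * ε m)
    (hκ0 : ∀ m, 0 ≤ κ m)
    (hΛ : Tendsto (fun m => Λ m * κ m) atTop (𝓝 0))
    {q₀ : P × E n} (h1 : q₀.1 ∈ ball c (3 / 2 * r)) (h2 : q₀.2 ∈ ball (0 : E n) (3 / 2 * r))
    {L : (P × E n) × ℕ → (E n ≃L[ℝ] E n)}
    (hL : ∀ᶠ q in 𝓝 q₀ ×ˢ atTop, ‖((L q).symm : E n →L[ℝ] E n)‖ ≤ Λ q.2) :
    CLQ ε h q₀ L (fun m => av (ρ m) h) := by
  intro e he
  have a1 : ∀ᶠ q : (P × E n) × ℕ in 𝓝 q₀ ×ˢ atTop, q.1.1 ∈ ball c (3 / 2 * r) :=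
    (tendsto_valQ (h := Prod.fst) continuousAt_fst).eventually (isOpen_ball.mem_nhds h1)
  have a2 : ∀ᶠ q : (P × E n) × ℕ in 𝓝 q₀ ×ˢ atTop, q.1.2 ∈ ball (0 : E n) (3 / 2 * r) :=
    (tendsto_valQ (h := Prod.snd) continuousAt_snd).eventually (isOpen_ball.mem_nhds h2)
  have a3 : ∀ᶠ q : (P × E n) × ℕ in 𝓝 q₀ ×ˢ atTop, ε q.2 < r / 4 :=
    (tendsto_scaleQ hε0 q₀).eventually_lt_const (by positivity)
  have a4 : ∀ᶠ q : (P × E n) × ℕ in 𝓝 q₀ ×ˢ atTop, δ q.2 < r / 4 :=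
    (tendsto_scaleQ hδ0 q₀).eventually_lt_const (by positivity)
  have a5 : ∀ᶠ q : (P × E n) × ℕ in 𝓝 q₀ ×ˢ atTop, Λ q.2 * κ q.2 < e :=
    tendsto_snd.eventually (hΛ.eventually_lt_const he)
  filter_upwards [a1, a2, a3, a4, a5, hL] with q g1 g2 g3 g4 g5 g6 y hy
  have k2 : q.1.2 + y ∈ closedBall (0 : E n) (2 * r) := by
    rw [mem_closedBall]
    rw [mem_ball] at g2
    have k3 : dist (q.1.2 + y) q.1.2 ≤ ε q.2 := by
      rw [dist_eq_norm, add_sub_cancel_left]
      exact hy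
    have := dist_triangle (q.1.2 + y) q.1.2 0
    linarith
  have k1 : q.1.1 ∈ closedBall c (2 * r) := ball_subset_closedBall (ball_subset_ball (by linarith) g1)
  have k3 : av (ρ q.2) h (q.1.1, q.1.2 + y) ∈
      closedBall (h (q.1.1, q.1.2 + y)) (κ q.2 * ε q.2) := by
    refine av_mem (hρ q.2) (convex_closedBall _ _) fun j hj => ?_
    rw [mem_closedBall, dist_eq_norm]
    refine hκ q.2 _ k1 j ?_ hj _ k2
    rw [mem_closedBall]
    rw [mem_ball] at g1
    have := dist_triangle j q.1.1 c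
    linarith
  rw [mem_closedBall, dist_eq_norm] at k3
  have hεq := hε q.2
  have hκq := hκ0 q.2
  calc _ ≤ ‖((L q).symm : E n →L[ℝ] E n)‖ * ‖av (ρ q.2) h (q.1.1, q.1.2 + y) -
        h (q.1.1, q.1.2 + y)‖ := ((L q).symm : E n →L[ℝ] E n).le_opNorm _
    _ ≤ Λ q.2 * (κ q.2 * ε q.2) :=
        mul_le_mul g6 k3 (norm_nonneg _) ((norm_nonneg _).trans g6)
    _ = (Λ q.2 * κ q.2) * ε q.2 := by ring
    _ ≤ e * ε q.2 := by gcongr

/-- the mollified averages are uniformly close to the map -/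
lemma box_unif [FiniteDimensional ℝ P] (hr : 0 < r)
    (hh : ∀ p ∈ closedBall c (2 * r), ∀ z ∈ closedBall (0 : E n) (2 * r),
      ContinuousAt h (p, z)) (hε : ∀ m, 0 < ε m) (hε0 : Tendsto ε atTop (𝓝 0))
    (hδ0 : Tendsto δ atTop (𝓝 0)) (hρ : ∀ m, (ρ m).IsSubordinate (fun j => ball j (δ m)))
    {e : ℝ} (he : 0 < e) :
    ∀ᶠ m in atTop, ∀ p ∈ closedBall c (3 / 2 * r), ∀ z ∈ closedBall (0 : E n) (3 / 2 * r),
      ContDiffAt ℝ ∞ (fun q' : P × E n => mo (fun z => av (ρ m) h (q'.1, z)) (ε m) q'.2) (p, z) ∧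
      ‖mo (fun z => av (ρ m) h (p, z)) (ε m) z - h (p, z)‖ ≤ e := by
  have hprop : ProperSpace P := FiniteDimensional.proper ℝ P
  have hK : IsCompact (closedBall c (2 * r) ×ˢ closedBall (0 : E n) (2 * r)) :=
    (isCompact_closedBall _ _).prod (isCompact_closedBall _ _)
  have hu : UniformContinuousOn h (closedBall c (2 * r) ×ˢ closedBall (0 : E n) (2 * r)) :=
    hK.uniformContinuousOn_of_continuous fun q hq => (hh q.1 hq.1 q.2 hq.2).continuousWithinAt
  obtain ⟨d, hd, hdu⟩ := Metric.uniformContinuousOn_iff.1 hu e he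
  have a3 : ∀ᶠ m in atTop, ε m < min (r / 4) d := hε0.eventually_lt_const (by positivity)
  have a4 : ∀ᶠ m in atTop, δ m < min (r / 4) d := hδ0.eventually_lt_const (by positivity)
  filter_upwards [a3, a4] with m g3 g4 p hp z hz
  have g3a := g3.trans_le (min_le_left _ _)
  have g3b := g3.trans_le (min_le_right _ _)
  have g4a := g4.trans_le (min_le_left _ _)
  have g4b := g4.trans_le (min_le_right _ _)
  have kj : ∀ j, dist j p < δ m → j ∈ closedBall c (2 * r) := by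
    intro j hj
    rw [mem_closedBall] at hp ⊢
    have := dist_triangle j p c
    linarith
  have kw : ∀ w ∈ closedBall z (2 * ε m), w ∈ closedBall (0 : E n) (2 * r) := by
    intro w hw
    rw [mem_closedBall] at hw hz ⊢
    have := dist_triangle w z 0
    linarith
  have hsm := av_smooth (hρ m) (q := (p, z)) (hε m) (h := h) fun j hj w hw => by
    have k3 : ContinuousAt (fun z : E n => ((j, z) : P × E n)) w := by fun_prop
    exact (ContinuousAt.comp (g := h) (f := fun z : E n => ((j, z) : P × E n))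
      (hh j (kj j hj) w (kw w hw)) k3).continuousWithinAt
  refine ⟨hsm.2, mo_near (hε m) (hsm.1.mono (closedBall_subset_closedBall (by
    have := hε m
    linarith))) fun s hs => ?_⟩
  have hεm := hε m
  have k4 : dist (z + ε m • s) z ≤ ε m := by
    rw [dist_eq_norm, add_sub_cancel_left, norm_smul, Real.norm_of_nonneg hεm.le]
    nlinarith
  have k5 : av (ρ m) h (p, z + ε m • s) ∈ closedBall (h (p, z)) e := by
    refine av_mem (hρ m) (convex_closedBall _ _) fun j hj => ?_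
    rw [mem_closedBall]
    refine (hdu (j, z + ε m • s) ⟨kj j hj, kw _ ?_⟩ (p, z) ⟨?_, ?_⟩ ?_).le
    · rw [mem_closedBall]
      linarith
    · exact closedBall_subset_closedBall (by linarith) hp
    · exact closedBall_subset_closedBall (by linarith) hz
    · rw [Prod.dist_eq]
      exact max_lt (hj.trans g4b) (k4.trans_lt g3b)
  rw [mem_closedBall, dist_eq_norm] at k5
  exact k5

/-- the choice of the radii -/
lemma box_radius [FiniteDimensional ℝ P] (r : ℝ)
    (hh : ∀ p ∈ closedBall c (2 * r), ∀ z ∈ closedBall (0 : E n) (2 * r),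
      ContinuousAt h (p, z)) {e : ℝ} (he : 0 < e) :
    ∃ d : ℝ, 0 < d ∧ ∀ p ∈ closedBall c (2 * r), ∀ p' ∈ closedBall c (2 * r), dist p' p < d →
      ∀ z ∈ closedBall (0 : E n) (2 * r), ‖h (p', z) - h (p, z)‖ ≤ e := by
  have hprop : ProperSpace P := FiniteDimensional.proper ℝ P
  have hK : IsCompact (closedBall c (2 * r) ×ˢ closedBall (0 : E n) (2 * r)) :=
    (isCompact_closedBall _ _).prod (isCompact_closedBall _ _)
  have hu : UniformContinuousOn h (closedBall c (2 * r) ×ˢ closedBall (0 : E n) (2 * r)) :=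
    hK.uniformContinuousOn_of_continuous fun q hq => (hh q.1 hq.1 q.2 hq.2).continuousWithinAt
  obtain ⟨d, hd, hdu⟩ := Metric.uniformContinuousOn_iff.1 hu e he
  refine ⟨d, hd, fun p hp p' hp' hpp z hz => ?_⟩
  rw [← dist_eq_norm]
  refine (hdu (p', z) ⟨hp', hz⟩ (p, z) ⟨hp, hz⟩ ?_).le
  rw [Prod.dist_eq, dist_self]
  exact max_lt hpp hd

end box

end Run7.h60.Sc
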