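import Pool.Agent.Run7.h60.FAGlob

/-!
# Families of almost affine maps: bounds for the linear parts, boxes, changes of coordinates
-/

set_option autoImplicit false

open Set Filter Topology Metric Function MeasureTheory
open scoped Manifold ContDiff

noncomputable section

namespace Run7.h60.Sc

open Pool.Agent.Y522 Pool.Agent.R765

section bound

variable {n : ℕ} {P X Y : Type} [NormedAddCommGroup P] [NormedSpace ℝ P] [FiniteDimensional ℝ P]
    [TopologicalSpace X] [TopologicalSpace Y]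
    [ChartedSpace (E n) X] [ChartedSpace (E n) Y] {f : C(P × X, Y)}

lemma norm_symm_le {h : E n → E n} {z : E n} {ε η τ : ℝ} {L : E n ≃L[ℝ] E n}
    (hA : AA h z ε L η) (hτ : 0 < τ) (hη : 0 ≤ (1 + η) * ε)
    (hb : ball (h z) τ ⊆ h '' ball z ε) :
    ‖(L.symm : E n →L[ℝ] E n)‖ ≤ (1 + η) * ε * (2 / τ) := by
  apply ContinuousLinearMap.opNorm_le_bound _ (by positivity)
  intro v
  rcases eq_or_ne v 0 with rfl | hv
  · simp
  · have hv0 : 0 < ‖v‖ := norm_pos_iff.2 hv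
    have h1 : h z + (τ / 2 * ‖v‖⁻¹) • v ∈ ball (h z) τ := by
      rw [mem_ball, dist_eq_norm, add_sub_cancel_left, norm_smul, norm_mul, norm_inv, norm_norm,
        mul_assoc, inv_mul_cancel₀ hv0.ne', mul_one, Real.norm_of_nonneg (by positivity)]
      linarith
    obtain ⟨w, hw, hwe⟩ := hb h1
    rw [mem_ball, dist_eq_norm] at hw
    have h2 := hA (w - z) hw.le
    rw [add_sub_cancel, hwe, add_sub_cancel_left] at h2
    have h3 : ‖L.symm ((τ / 2 * ‖v‖⁻¹) • v)‖ ≤ (1 + η) * ε := by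
      calc ‖L.symm ((τ / 2 * ‖v‖⁻¹) • v)‖ = ‖(L.symm ((τ / 2 * ‖v‖⁻¹) • v) - (w - z)) + (w - z)‖ := by
            rw [sub_add_cancel]
        _ ≤ ‖L.symm ((τ / 2 * ‖v‖⁻¹) • v) - (w - z)‖ + ‖w - z‖ := norm_add_le _ _
        _ ≤ η * ε + ε := add_le_add h2 hw.le
        _ = (1 + η) * ε := by ring
    rw [map_smul, norm_smul, norm_mul, norm_inv, norm_norm,
      Real.norm_of_nonneg (by positivity : (0:ℝ) ≤ τ / 2)] at h3
    have e2 : τ / 2 * ‖v‖⁻¹ * ‖L.symm v‖ * (2 / τ * ‖v‖) = ‖L.symm v‖ := by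
      field_simp
    rw [ContinuousLinearEquiv.coe_coe, ← e2]
    calc τ / 2 * ‖v‖⁻¹ * ‖L.symm v‖ * (2 / τ * ‖v‖)
        ≤ ((1 + η) * ε) * (2 / τ * ‖v‖) := by gcongr
      _ = (1 + η) * ε * (2 / τ) * ‖v‖ := by ring

/-- the images of small balls contain balls, locally uniformly -/
lemma loc_ball (b : By n f) (hop : ∀ p, IsOpenMap fun x => f (p, x))
    (hin : ∀ p, Injective fun x => f (p, x)) {p₀ : P} (hp₀ : p₀ ∈ closedBall b.c (3 / 2 * b.r))
    {z₀ : E n} (hz₀ : z₀ ∈ closedBall (0 : E n) (3 / 2 * b.r)) {e : ℝ} (he : 0 < e)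
    (her : e ≤ b.r / 2) :
    ∃ τ : ℝ, 0 < τ ∧ ∀ᶠ q : P × E n in 𝓝 (p₀, z₀),
      q.1 ∈ closedBall b.c (3 / 2 * b.r) → ball (b.h q) τ ⊆
        (fun z => b.h (q.1, z)) '' ball q.2 e := by
  have hr := b.hr
  have hprop : ProperSpace P := FiniteDimensional.proper ℝ P
  have hsub : ∀ z ∈ closedBall z₀ (e / 2), z ∈ closedBall (0 : E n) (2 * b.r) := by
    intro z hz
    rw [mem_closedBall] at hz hz₀ ⊢
    have := dist_triangle z z₀ 0
    linarith
  have hp₀2 := b.subP hp₀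
  have hinj : ∀ p ∈ closedBall b.c (2 * b.r), InjOn (fun z => b.h (p, z))
      (closedBall (0 : E n) (2 * b.r)) := by
    intro p hp z hz w hw hzw
    have h1 : f (p, b.A z) = f (p, b.A w) := b.hBi (b.hfV p hp z hz) (b.hfV p hp w hw) hzw
    exact b.hAi hz hw (hin p h1)
  have hcz : ∀ p ∈ closedBall b.c (2 * b.r), ContinuousOn (fun z => b.h (p, z))
      (closedBall z₀ (e / 2)) := by
    intro p hp z hz
    have k3 : ContinuousAt (fun z : E n => ((p, z) : P × E n)) z := by fun_prop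
    exact (ContinuousAt.comp (g := b.h) (f := fun z : E n => ((p, z) : P × E n))
      (b.hcont hp (hsub z hz)) k3).continuousWithinAt
  -- the lower bound on the sphere
  obtain ⟨t, ht, hts⟩ : ∃ t : ℝ, 0 < t ∧ ∀ s ∈ sphere z₀ (e / 2), t ≤ ‖b.h (p₀, s) - b.h (p₀, z₀)‖ := by
    rcases (sphere z₀ (e / 2)).eq_empty_or_nonempty with hS | hS
    · exact ⟨1, one_pos, fun s hs => by rw [hS] at hs; exact absurd hs (notMem_empty s)⟩
    · have hc : ContinuousOn (fun s => ‖b.h (p₀, s) - b.h (p₀, z₀)‖) (sphere z₀ (e / 2)) :=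
        (((hcz p₀ hp₀2).mono sphere_subset_closedBall).sub continuousOn_const).norm
      obtain ⟨s, hs, hmin⟩ := (isCompact_sphere z₀ (e / 2)).exists_isMinOn hS hc
      refine ⟨‖b.h (p₀, s) - b.h (p₀, z₀)‖, ?_, fun s' hs' => hmin hs'⟩
      rw [norm_pos_iff, sub_ne_zero]
      intro h1
      have h2 := hinj p₀ hp₀2 (hsub s (sphere_subset_closedBall hs))
        (hsub z₀ (mem_closedBall_self (by positivity))) h1
      rw [h2, mem_sphere, dist_self] at hs
      linarith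
  obtain ⟨d, hd, hdu⟩ := box_radius (h := b.h) (c := b.c) b.r (fun p hp z hz => b.hcont hp hz)
    (e := t / 8) (by positivity)
  have a1 : ∀ᶠ q : P × E n in 𝓝 (p₀, z₀), q.1 ∈ ball p₀ d :=
    continuousAt_fst.eventually (ball_mem_nhds p₀ hd)
  have a2 : ∀ᶠ q : P × E n in 𝓝 (p₀, z₀), q.2 ∈ ball z₀ (e / 2) :=
    continuousAt_snd.eventually (ball_mem_nhds z₀ (by positivity))
  have a3 : ∀ᶠ q : P × E n in 𝓝 (p₀, z₀), b.h q ∈ ball (b.h (p₀, z₀)) (t / 4) :=
    (b.hcont hp₀2 (b.sub_closedBall' hz₀)).eventually (ball_mem_nhds _ (by positivity))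
  refine ⟨t / 4, by positivity, ?_⟩
  filter_upwards [a1, a2, a3] with q g1 g2 g3 hq
  have hq2 := b.subP hq
  obtain ⟨W, hW⟩ : ∃ W : Set (E n), W = (fun z => b.h (q.1, z)) '' ball z₀ (e / 2) := ⟨_, rfl⟩
  have hWo : IsOpen W := by
    have h1 : IsOpen (b.A '' ball z₀ (e / 2)) := isOpen_image_of_LD isOpen_ball fun z hz =>
      b.hAd z (hsub z (ball_subset_closedBall hz))
    have h2 : IsOpen ((fun x => f (q.1, x)) '' (b.A '' ball z₀ (e / 2))) := hop q.1 _ h1
    have h3 : IsOpen (b.B '' ((fun x => f (q.1, x)) '' (b.A '' ball z₀ (e / 2)))) := by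
      refine isOpen_image_of_LD (n := n) (M := Y) (N := E n) h2 ?_
      rintro _ ⟨_, ⟨z, hz, rfl⟩, rfl⟩
      exact b.hBd _ (b.hfV q.1 hq2 z (hsub z (ball_subset_closedBall hz)))
    rw [image_image, image_image] at h3
    rw [hW]
    exact h3
  have hWc : closure W ⊆ (fun z => b.h (q.1, z)) '' closedBall z₀ (e / 2) := by
    have h1 : IsClosed ((fun z => b.h (q.1, z)) '' closedBall z₀ (e / 2)) :=
      ((isCompact_closedBall z₀ (e / 2)).image_of_continuousOn (hcz q.1 hq2)).isClosed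
    refine closure_minimal ?_ h1
    rw [hW]
    exact image_mono ball_subset_closedBall
  have hz₀m : z₀ ∈ closedBall (0 : E n) (2 * b.r) := hsub z₀ (mem_closedBall_self (by positivity))
  have hclose : ∀ z ∈ closedBall (0 : E n) (2 * b.r), ‖b.h (q.1, z) - b.h (p₀, z)‖ ≤ t / 8 :=
    fun z hz => hdu p₀ hp₀2 q.1 hq2 g1 z hz
  have hkey : ball (b.h (p₀, z₀)) (t / 2) ⊆ W := by
    refine (convex_ball _ _).isPreconnected.subset_of_closure_inter_subset hWo ?_ ?_
    · refine ⟨b.h (q.1, z₀), ?_, ?_⟩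
      · rw [mem_ball, dist_eq_norm]
        have := hclose z₀ hz₀m
        linarith
      · rw [hW]
        exact ⟨z₀, mem_ball_self (by positivity), rfl⟩
    · rintro y ⟨hy1, hy2⟩
      obtain ⟨z, hz, hzy⟩ := hWc hy1
      change b.h (q.1, z) = y at hzy
      rw [hW]
      refine ⟨z, ?_, hzy⟩
      by_contra hzb
      have hzs : z ∈ sphere z₀ (e / 2) := by
        rw [mem_sphere]
        rw [mem_closedBall] at hz
        rw [mem_ball, not_lt] at hzb
        exact le_antisymm hz hzb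
      have h1 := hts z hzs
      have h2 := hclose z (hsub z hz)
      rw [mem_ball, dist_eq_norm, ← hzy] at hy2
      have h3 : ‖b.h (p₀, z) - b.h (p₀, z₀)‖ ≤ ‖b.h (q.1, z) - b.h (p₀, z₀)‖ +
          ‖b.h (q.1, z) - b.h (p₀, z)‖ := by
        have e1 : b.h (p₀, z) - b.h (p₀, z₀) = (b.h (q.1, z) - b.h (p₀, z₀)) -
            (b.h (q.1, z) - b.h (p₀, z)) := by abel
        rw [e1]
        exact norm_sub_le _ _
      linarith
  intro y hy
  have hy2 : y ∈ ball (b.h (p₀, z₀)) (t / 2) := by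
    rw [mem_ball] at hy g3 ⊢
    have := dist_triangle y (b.h q) (b.h (p₀, z₀))
    linarith
  have hy3 := hkey hy2
  rw [hW] at hy3
  refine image_mono ?_ hy3
  intro w hw
  rw [mem_ball] at hw g2 ⊢
  have := dist_triangle w z₀ q.2
  rw [dist_comm z₀ q.2] at this
  linarith

/-- a bound for the inverses of the linear parts -/
lemma box_bound (b : By n f) (hop : ∀ p, IsOpenMap fun x => f (p, x))
    (hin : ∀ p, Injective fun x => f (p, x)) {e η : ℝ} (he : 0 < e)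
    (her : e ≤ b.r / 2) (hη : 0 ≤ η) :
    ∃ Λ : ℝ, 0 ≤ Λ ∧ ∀ p ∈ closedBall b.c (3 / 2 * b.r),
      ∀ z ∈ closedBall (0 : E n) (3 / 2 * b.r), ∀ L : E n ≃L[ℝ] E n,
        AA (fun z => b.h (p, z)) z e L η → ‖(L.symm : E n →L[ℝ] E n)‖ ≤ Λ := by
  have hprop : ProperSpace P := FiniteDimensional.proper ℝ P
  have hKc : IsCompact (closedBall b.c (3 / 2 * b.r) ×ˢ closedBall (0 : E n) (3 / 2 * b.r)) :=
    (isCompact_closedBall _ _).prod (isCompact_closedBall _ _)
  have hmain : ∃ Λ : ℝ, 0 ≤ Λ ∧ ∀ q ∈ (closedBall b.c (3 / 2 * b.r) ×ˢ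
      closedBall (0 : E n) (3 / 2 * b.r)), q.1 ∈ closedBall b.c (3 / 2 * b.r) →
      ∀ L : E n ≃L[ℝ] E n,
        AA (fun z => b.h (q.1, z)) q.2 e L η → ‖(L.symm : E n →L[ℝ] E n)‖ ≤ Λ := by
    refine hKc.induction_on (p := fun s => ∃ Λ : ℝ, 0 ≤ Λ ∧ ∀ q ∈ s,
      q.1 ∈ closedBall b.c (3 / 2 * b.r) → ∀ L : E n ≃L[ℝ] E n,
        AA (fun z => b.h (q.1, z)) q.2 e L η → ‖(L.symm : E n →L[ℝ] E n)‖ ≤ Λ) ?_ ?_ ?_ ?_
    · exact ⟨0, le_rfl, fun x hx => absurd hx (notMem_empty x)⟩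
    · rintro s t hst ⟨Λ, h0, h⟩
      exact ⟨Λ, h0, fun x hx => h x (hst hx)⟩
    · rintro s t ⟨Λ, h0, h⟩ ⟨Λ', h0', h'⟩
      refine ⟨max Λ Λ', h0.trans (le_max_left _ _), fun x hx hx' L hL => ?_⟩
      rcases hx with hx | hx
      · exact (h x hx hx' L hL).trans (le_max_left _ _)
      · exact (h' x hx hx' L hL).trans (le_max_right _ _)
    · rintro q ⟨hq1, hq2⟩
      obtain ⟨τ, hτ, hev⟩ := loc_ball b hop hin hq1 hq2 he her
      refine ⟨_, mem_nhdsWithin_of_mem_nhds hev, (1 + η) * e * (2 / τ), by positivity, ?_⟩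
      intro q' hq' hq'1 L hL
      exact norm_symm_le hL hτ (by positivity) (hq' hq'1)
  obtain ⟨Λ, h0, h⟩ := hmain
  exact ⟨Λ, h0, fun p hp z hz L hL => h (p, z) ⟨hp, hz⟩ hp L hL⟩

end bound

section chg

variable {n : ℕ} {P X Y : Type} [NormedAddCommGroup P] [NormedSpace ℝ P]
    [TopologicalSpace X] [T2Space X] [TopologicalSpace Y]
    [ChartedSpace (E n) X] [ChartedSpace (E n) Y] {f : C(P × X, Y)}

/-- the changes of the coordinates -/
lemma transF_lip [FiniteDimensional ℝ P] {d : X → X → ℝ} {K : ℝ} (hK : 1 ≤ K) {b b' : By n f}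
    (hb : ∀ z ∈ closedBall (0 : E n) (2 * b.r), ∀ w ∈ closedBall (0 : E n) (2 * b.r),
      d (b.A z) (b.A w) ≤ K * ‖z - w‖)
    (hb' : ∀ z ∈ closedBall (0 : E n) (2 * b'.r), ∀ w ∈ closedBall (0 : E n) (2 * b'.r),
      ‖z - w‖ ≤ K * d (b'.A z) (b'.A w)) {z w : E n} (hz : z ∈ closedBall (0 : E n) b.r)
    (hw : w ∈ closedBall (0 : E n) b'.r) (hzw : b.A z = b'.A w) :
    ∀ᶠ z' in 𝓝 z, ‖(Dq (fun y => b'.α (b.A y)) z' : E n →L[ℝ] E n)‖ ≤ K ^ 2 := by
  have hz2 := ballF_sub2 hz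
  have hw2 := ballF_sub2 hw
  have hlam : LD n (fun y => b'.α (b.A y)) z := by
    refine LD.comp_fun ?_ (b.hAd z (ball_subset_closedBall hz2))
    rw [hzw]
    exact b'.α_LD hw2
  refine norm_fderiv_le_of_lip (by positivity) hlam ?_
  have h1 : ∀ᶠ y in 𝓝 z, y ∈ closedBall (0 : E n) (2 * b.r) ∧
      b'.α (b.A y) ∈ closedBall (0 : E n) (2 * b'.r) ∧ b'.A (b'.α (b.A y)) = b.A y := by
    have h2 : ∀ᶠ y in 𝓝 z, b.A y ∈ b'.A '' ball 0 (3 / 2 * b'.r) :=
      (b.hAd z (ball_subset_closedBall hz2)).continuousAt.eventually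
        (b'.isOpen_image.mem_nhds (by
          rw [hzw]
          exact ⟨w, ballF_sub hw, rfl⟩))
    filter_upwards [h2, isOpen_ball.mem_nhds hz2] with y hy hy2
    obtain ⟨w', hw', hwy⟩ := hy
    have e1 : b'.α (b.A y) = w' := by rw [← hwy, b'.α_A (b'.sub_closedBall hw')]
    rw [e1]
    exact ⟨ball_subset_closedBall hy2, b'.sub_closedBall hw', hwy⟩
  rw [nhds_prod_eq]
  filter_upwards [tendsto_fst.eventually h1, tendsto_snd.eventually h1] with q g1 g2
  have e1 := hb' _ g1.2.1 _ g2.2.1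
  rw [g1.2.2, g2.2.2] at e1
  have e2 := hb _ g1.1 _ g2.1
  calc _ ≤ K * d (b.A q.1) (b.A q.2) := e1
    _ ≤ K * (K * ‖q.1 - q.2‖) := by gcongr
    _ = K ^ 2 * ‖q.1 - q.2‖ := by ring

/-- the inverse of the derivative of a change of the coordinates -/
lemma transF_symm [FiniteDimensional ℝ P] {b b' : By n f} {z w : E n}
    (hz : z ∈ closedBall (0 : E n) b.r)
    (hw : w ∈ closedBall (0 : E n) b'.r) (hzw : b.A z = b'.A w) :
    ∀ᶠ z' in 𝓝 z, ((Dq (fun y => b'.α (b.A y)) z').symm : E n →L[ℝ] E n) =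
      (Dq (fun y => b.α (b'.A y)) (b'.α (b.A z')) : E n →L[ℝ] E n) := by
  have hz2 := ballF_sub2 hz
  have hw2 := ballF_sub2 hw
  have hlam : LD n (fun y => b'.α (b.A y)) z := by
    refine LD.comp_fun ?_ (b.hAd z (ball_subset_closedBall hz2))
    rw [hzw]
    exact b'.α_LD hw2
  have hlam' : LD n (fun y => b.α (b'.A y)) w := by
    refine LD.comp_fun ?_ (b'.hAd w (ball_subset_closedBall hw2))
    rw [← hzw]
    exact b.α_LD hz2
  have hzw' : b'.α (b.A z) = w := by rw [hzw, b'.α_A (ball_subset_closedBall hw2)]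
  have h1 : ∀ᶠ y in 𝓝 z, b.α (b'.A (b'.α (b.A y))) = y := by
    have h2 : ∀ᶠ y in 𝓝 z, b.A y ∈ b'.A '' ball 0 (3 / 2 * b'.r) :=
      (b.hAd z (ball_subset_closedBall hz2)).continuousAt.eventually
        (b'.isOpen_image.mem_nhds (by
          rw [hzw]
          exact ⟨w, ballF_sub hw, rfl⟩))
    filter_upwards [h2, isOpen_ball.mem_nhds hz2] with y hy hy2
    obtain ⟨w', hw', hwy⟩ := hy
    rw [← hwy, b'.α_A (b'.sub_closedBall hw'), hwy, b.α_A (ball_subset_closedBall hy2)]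
  have h3 : ∀ᶠ y in 𝓝 z, LD n (fun y => b.α (b'.A y)) (b'.α (b.A y)) := by
    have c1 : ContinuousAt (fun y => b'.α (b.A y)) z := hlam.continuousAt
    have := hlam'.eventually
    rw [← hzw'] at this
    exact c1.eventually this
  filter_upwards [hlam.eventually, eventually_eventually_nhds.2 h1, h3] with z' g1 g2 g3
  have g4 : (Dq (fun y => b.α (b'.A y)) (b'.α (b.A z')) : E n →L[ℝ] E n) ∘L
      (Dq (fun y => b'.α (b.A y)) z' : E n →L[ℝ] E n) = ContinuousLinearMap.id ℝ (E n) := by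
    rw [Dq_coe g1, Dq_coe g3]
    have g5 := HasFDerivAt.comp z' (g := fun y => b.α (b'.A y)) (f := fun y => b'.α (b.A y))
        (g3.contDiffAt.differentiableAt (by simp)).hasFDerivAt
        (g1.contDiffAt.differentiableAt (by simp)).hasFDerivAt
    have g6 : HasFDerivAt ((fun y => b.α (b'.A y)) ∘ fun y => b'.α (b.A y))
        (ContinuousLinearMap.id ℝ (E n)) z' :=
      (hasFDerivAt_id z').congr_of_eventuallyEq g2
    exact g5.unique g6
  ext1 v
  have g7 := DFunLike.congr_fun g4 ((Dq (fun y => b'.α (b.A y)) z').symm v)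
  simp only [ContinuousLinearMap.comp_apply, ContinuousLinearEquiv.coe_coe,
    ContinuousLinearEquiv.apply_symm_apply, ContinuousLinearMap.id_apply] at g7
  exact g7.symm

end chg

end Run7.h60.Sc
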