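import Pool.Agent.Run7.h60.FAEst
import Pool.Agent.Run7.h60.AABdry

/-!
# Families which are almost affine at all small scales
-/

set_option autoImplicit false

open Set Filter Topology Metric Function MeasureTheory
open scoped Manifold ContDiff

noncomputable section

namespace Run7.h60.Sc

open Pool.Agent.Y522

variable {n : ℕ}

/-- nearby points at the same scale, with a weaker estimate at one of them -/
lemma cmp_point' {h : E n → E n} {z z' : E n} {L L' : E n ≃L[ℝ] E n} {ε η : ℝ}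
    (hη : 0 ≤ η) (hη' : η ≤ 1 / 40) (hε : 0 < ε) (hz : ‖z' - z‖ ≤ ε / 4)
    (hA : AA h z ε L (2 * η)) (hA' : AA h z' ε L' η) :
    sg L' ε ≤ 13 * sg L ε := by
  have hA'' : AA h z' ε L' (2 * η) := fun y hy => (hA' y hy).trans (by nlinarith)
  have h3 := cmp_two (z' := z') (s := ε / 4) (a := 16 * η) (b := 8 * η)
    (by linarith : 0 ≤ 2 * η) (by positivity) hA hA''
    (fun y hy => by
      have e1 := hA (z' - z + y) (by
        refine (norm_add_le _ _).trans ?_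
        linarith)
      have e2 := hA (z' - z) (by linarith)
      have e3 : z + (z' - z + y) = z' + y := by abel
      have e4 : z + (z' - z) = z' := by abel
      rw [e3] at e1
      rw [e4] at e2
      have e5 : L.symm (h (z' + y) - h z') - y = (L.symm (h (z' + y) - h z) - (z' - z + y)) -
          (L.symm (h z' - h z) - (z' - z)) := by
        have : h (z' + y) - h z' = (h (z' + y) - h z) - (h z' - h z) := by abel
        rw [this, map_sub L.symm (h (z' + y) - h z)]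
        abel
      rw [e5]
      refine (norm_sub_le _ _).trans ?_
      linarith) (by linarith) (by linarith) (by linarith)
  have h4 : (16 * η + 8 * η) / (1 - 8 * η) ≤ 3 / 4 := by
    rw [div_le_iff₀ (by linarith)]
    linarith
  have h5 := cmp_sg (m := 3 / 4) (by norm_num) hε.le (h3.trans h4) le_rfl
  refine h5.trans ?_
  have hs : 0 ≤ sg L ε := by
    unfold sg
    positivity
  rw [div_self hε.ne', mul_one]
  have h6 : ((1 + 3 / 4 : ℝ)) ^ 2 / (1 - 3 / 4) ≤ 13 := by norm_num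
  gcongr

/-- decrease at the dyadic scales -/
lemma sg_dy {h : E n → E n} {z : E n} {ε₀ ε₁ η S : ℝ} {L : ℝ → (E n ≃L[ℝ] E n)}
    (hη : 0 ≤ η) (hη' : η ≤ 1 / 40) (h10 : 0 < ε₁) (h11 : ε₁ < ε₀)
    (hA : ∀ ε, 0 < ε → ε < ε₀ → AA h z ε (L ε) η) (hS : sg (L ε₁) ε₁ ≤ S) (J : ℕ)
    {ε : ℝ} (hε : 0 < ε) (hεJ : ε < ε₁ * (1 / 2) ^ J) :
    sg (L ε) ε ≤ 4 / 3 * ((2 / 3) ^ J * S) := by
  have hS0 : 0 ≤ S := le_trans (by unfold sg; positivity) hS
  have hdy : ∀ j : ℕ, sg (L (ε₁ * (1 / 2) ^ j)) (ε₁ * (1 / 2) ^ j) ≤ (2 / 3) ^ j * S := by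
    intro j
    induction j with
    | zero => simpa using hS
    | succ j ih =>
      have hp : 0 < ε₁ * (1 / 2) ^ j := by positivity
      have hp1 : ε₁ * (1 / 2 : ℝ) ^ j ≤ ε₁ := by
        have : (1 / 2 : ℝ) ^ j ≤ 1 := pow_le_one₀ (by norm_num) (by norm_num)
        nlinarith
      have e1 : ε₁ * (1 / 2 : ℝ) ^ (j + 1) = ε₁ * (1 / 2) ^ j / 2 := by
        rw [pow_succ]
        ring
      rw [e1]
      have h1 := cmp_scale (ε := ε₁ * (1 / 2) ^ j) (ε' := ε₁ * (1 / 2) ^ j / 2) hη hη'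
        (by positivity) (by linarith) (by linarith)
        (hA _ hp (by linarith))
        (hA _ (by positivity) (by linarith))
      refine h1.trans ?_
      have e2 : ε₁ * (1 / 2 : ℝ) ^ j / 2 / (ε₁ * (1 / 2) ^ j) = 1 / 2 := by
        field_simp
      rw [e2]
      calc 4 / 3 * (1 / 2) * sg (L (ε₁ * (1 / 2) ^ j)) (ε₁ * (1 / 2) ^ j)
          ≤ 4 / 3 * (1 / 2) * ((2 / 3) ^ j * S) := by gcongr
        _ = (2 / 3) ^ (j + 1) * S := by rw [pow_succ]; ring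
  obtain ⟨j, hj1, hj2⟩ := exists_nat_pow_near_of_lt_one (x := ε / ε₁) (y := (1 / 2 : ℝ))
    (by positivity) (by
      rw [div_le_one h10]
      have : (1 / 2 : ℝ) ^ J ≤ 1 := pow_le_one₀ (by norm_num) (by norm_num)
      nlinarith) (by norm_num) (by norm_num)
  rw [lt_div_iff₀ h10] at hj1
  rw [div_le_iff₀ h10] at hj2
  have hJj : J ≤ j := by
    by_contra hcon
    have h1 : j + 1 ≤ J := by omega
    have h2 : (1 / 2 : ℝ) ^ J ≤ (1 / 2) ^ (j + 1) :=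
      pow_le_pow_of_le_one (by norm_num) (by norm_num) h1
    have h3 : ε₁ * (1 / 2 : ℝ) ^ J ≤ (1 / 2) ^ (j + 1) * ε₁ := by nlinarith
    linarith
  have hp : 0 < ε₁ * (1 / 2) ^ j := by positivity
  have hp1 : ε₁ * (1 / 2 : ℝ) ^ j ≤ ε₁ := by
    have : (1 / 2 : ℝ) ^ j ≤ 1 := pow_le_one₀ (by norm_num) (by norm_num)
    nlinarith
  have h1 := cmp_scale (ε := ε₁ * (1 / 2) ^ j) (ε' := ε) hη hη' hε (by linarith) (by
      rw [pow_succ] at hj1
      linarith)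
    (hA _ hp (by linarith))
    (hA _ hε (by
      have : ε ≤ ε₁ * (1 / 2) ^ j := by linarith
      linarith))
  refine h1.trans ?_
  have h2 : ε / (ε₁ * (1 / 2) ^ j) ≤ 1 := by
    rw [div_le_one hp]
    linarith
  have h3 : (2 / 3 : ℝ) ^ j ≤ (2 / 3) ^ J := pow_le_pow_of_le_one (by norm_num) (by norm_num) hJj
  have h4 := hdy j
  have h5 : 0 ≤ sg (L (ε₁ * (1 / 2) ^ j)) (ε₁ * (1 / 2) ^ j) := by
    unfold sg
    positivity
  calc 4 / 3 * (ε / (ε₁ * (1 / 2) ^ j)) * sg (L (ε₁ * (1 / 2) ^ j)) (ε₁ * (1 / 2) ^ j)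
      ≤ 4 / 3 * 1 * ((2 / 3) ^ j * S) := by gcongr
    _ ≤ 4 / 3 * 1 * ((2 / 3) ^ J * S) := by gcongr
    _ = 4 / 3 * ((2 / 3) ^ J * S) := by ring

variable {P : Type} [NormedAddCommGroup P] [NormedSpace ℝ P]

/-- almost affine at all small scales -/
theorem sg_smallF {h : P × E n → E n} {p₀ : P} {ρ ε₀ η : ℝ}
    {L : P → E n → ℝ → (E n ≃L[ℝ] E n)}
    (hη : 0 < η) (hη' : η ≤ 1 / 40) (hρ : 0 < ρ) (hε₀ : 0 < ε₀)
    (hc : ∀ z : E n, ‖z‖ < ρ → ContinuousAt h (p₀, z))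
    (hA : ∀ p : P, dist p p₀ < ρ → ∀ z : E n, ‖z‖ < ρ → ∀ ε, 0 < ε → ε < ε₀ →
      AA (fun z => h (p, z)) z ε (L p z ε) η) :
    ∃ ρ' : ℝ, 0 < ρ' ∧ ρ' ≤ ρ ∧ ∀ δ : ℝ, 0 < δ → ∃ ε₂ : ℝ, 0 < ε₂ ∧
      ∀ p : P, dist p p₀ < ρ' → ∀ z : E n, ‖z‖ < ρ' → ∀ ε, 0 < ε → ε < ε₂ →
        sg (L p z ε) ε ≤ δ := by
  obtain ⟨ε₁, hε₁⟩ : ∃ ε₁, ε₁ = min ε₀ ρ / 2 := ⟨_, rfl⟩
  have hmin : 0 < min ε₀ ρ := lt_min hε₀ hρ
  have h10 : 0 < ε₁ := by linarith
  have h11 : ε₁ < ε₀ := by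
    have := min_le_left ε₀ ρ
    linarith
  have h12 : ε₁ < ρ := by
    have := min_le_right ε₀ ρ
    linarith
  obtain ⟨L₀, hL₀⟩ : ∃ L₀, L₀ = L p₀ 0 ε₁ := ⟨_, rfl⟩
  obtain ⟨e, he⟩ : ∃ e, e = η / 2 * ε₁ / (‖(L₀.symm : E n →L[ℝ] E n)‖ + 1) := ⟨_, rfl⟩
  have he0 : 0 < e := by
    rw [he]
    positivity
  have hcl : ∀ᶠ p in 𝓝 p₀, ∀ y ∈ closedBall (0 : E n) ε₁, ‖h (p, y) - h (p₀, y)‖ < e := by
    refine (isCompact_closedBall (0 : E n) ε₁).eventually_forall_of_forall_eventually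
      (fun y hy => ?_)
    have hy' : ‖y‖ < ρ := by
      rw [mem_closedBall_zero_iff] at hy
      linarith
    have c1 := hc y hy'
    have c2 : ContinuousAt (fun q : P × E n => h (p₀, q.2)) (p₀, y) := by
      have c3 : ContinuousAt (fun q : P × E n => ((p₀, q.2) : P × E n)) (p₀, y) := by fun_prop
      exact ContinuousAt.comp (g := h) (f := fun q : P × E n => ((p₀, q.2) : P × E n)) c1 c3
    have c4 : ContinuousAt (fun q : P × E n => ‖h q - h (p₀, q.2)‖) (p₀, y) := (c1.sub c2).norm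
    exact c4.eventually_lt_const (by
      beta_reduce
      rw [sub_self, norm_zero]
      exact he0)
  obtain ⟨ρ₁, hρ₁, hcl'⟩ := Metric.eventually_nhds_iff_ball.1 hcl
  obtain ⟨S, hS⟩ : ∃ S, S = 13 * sg L₀ ε₁ := ⟨_, rfl⟩
  have hS0 : 0 ≤ S := by
    rw [hS]
    unfold sg
    positivity
  refine ⟨min (min ρ ρ₁) (ε₁ / 4), by positivity, (min_le_left _ _).trans (min_le_left _ _),
    fun δ hδ => ?_⟩
  have hinit : ∀ p : P, dist p p₀ < min (min ρ ρ₁) (ε₁ / 4) → ∀ z : E n,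
      ‖z‖ < min (min ρ ρ₁) (ε₁ / 4) → sg (L p z ε₁) ε₁ ≤ S := by
    intro p hp z hz
    have hp1 := hp.trans_le ((min_le_left _ _).trans (min_le_left _ _))
    have hp2 := hp.trans_le ((min_le_left _ _).trans (min_le_right _ _))
    have hz1 := hz.trans_le ((min_le_left _ _).trans (min_le_left _ _))
    have hz2 := hz.trans_le (min_le_right _ _)
    rw [hS]
    refine cmp_point' hη.le hη' h10 ?_ (h := fun z => h (p, z)) (z := 0) (z' := z) ?_
      (hA p hp1 z hz1 ε₁ h10 h11)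
    · rw [sub_zero]
      exact hz2.le
    · have h2 := (hA p₀ (by rw [dist_self]; exact hρ) 0 (by rw [norm_zero]; exact hρ) ε₁ h10
        h11).perturb (g := fun z => h (p, z)) (c := η / 2) h10.le (fun y hy => by
          have h3 := hcl' p (mem_ball.2 hp2) y (by rw [mem_closedBall_zero_iff]; exact hy)
          rw [← hL₀, zero_add]
          calc ‖L₀.symm (h (p, y) - h (p₀, y))‖
              ≤ ‖(L₀.symm : E n →L[ℝ] E n)‖ * ‖h (p, y) - h (p₀, y)‖ :=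
                (L₀.symm : E n →L[ℝ] E n).le_opNorm _
            _ ≤ (‖(L₀.symm : E n →L[ℝ] E n)‖ + 1) * e := by
                gcongr
                linarith
            _ = η / 2 * ε₁ := by
                rw [he]
                field_simp)
      rw [← hL₀] at h2
      have e2 : η + 2 * (η / 2) = 2 * η := by ring
      rw [e2] at h2
      exact h2
  obtain ⟨J, hJ⟩ : ∃ J : ℕ, (4 / 3) * ((2 / 3 : ℝ) ^ J * S) ≤ δ := by
    have h1 : Tendsto (fun j : ℕ => (4 / 3) * ((2 / 3 : ℝ) ^ j * S)) atTop (𝓝 0) := by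
      have := ((tendsto_pow_atTop_nhds_zero_of_lt_one (by norm_num : (0 : ℝ) ≤ 2 / 3)
        (by norm_num)).mul_const S).const_mul (4 / 3)
      simpa using this
    obtain ⟨J, hJ⟩ := (h1.eventually_lt_const hδ).exists
    exact ⟨J, hJ.le⟩
  refine ⟨ε₁ * (1 / 2) ^ J, by positivity, fun p hp z hz ε hε hεJ => ?_⟩
  have hp1 := hp.trans_le ((min_le_left _ _).trans (min_le_left _ _))
  have hz1 := hz.trans_le ((min_le_left _ _).trans (min_le_left _ _))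
  exact (sg_dy hη.le hη' h10 h11 (hA p hp1 z hz1) (hinit p hp z hz) J hε hεJ).trans hJ

/-- the family `h` is almost affine near `(p₀, 0)`, for the parameters in `S` -/
def AlmF {n : ℕ} {P : Type} [NormedAddCommGroup P] (S : Set P) (p₀ : P) (η : ℝ) (ε : ℕ → ℝ) (h : P × E n → E n) : Prop :=
  ∃ (ρ : ℝ) (L : P → E n → ℝ → (E n ≃L[ℝ] E n)), 0 < ρ ∧
    ((∀ᶠ r in 𝓝[>] (0 : ℝ), ∀ p ∈ S, dist p p₀ < ρ → ∀ z : E n, ‖z‖ < ρ →
        AA (fun z => h (p, z)) z r (L p z r) η) ∨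
      ((∀ᶠ m in atTop, ∀ p ∈ S, dist p p₀ < ρ → ∀ z : E n, ‖z‖ < ρ →
          AA (fun z => h (p, z)) z (ε m) (L p z (ε m)) η) ∧
        ∀ δ : ℝ, 0 < δ → ∀ᶠ m in atTop, ∀ p ∈ S, dist p p₀ < ρ → ∀ z : E n, ‖z‖ < ρ →
          sg (L p z (ε m)) (ε m) ≤ δ))

lemma AlmF.aff {η : ℝ} {ε : ℕ → ℝ} {h : P × E n → E n} {p₀ : P} (hA : AlmF univ p₀ η ε h)
    (hc : ∀ᶠ z in 𝓝 (0 : E n), ContinuousAt h (p₀, z))
    (hε : ∀ m, 0 < ε m) (hε0 : Tendsto ε atTop (𝓝 0)) (hη : 0 < η) (hη' : η ≤ 1 / 40) :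
    ∃ (ρ : ℝ) (L : (P × E n) × ℕ → (E n ≃L[ℝ] E n)), 0 < ρ ∧
      (∀ᶠ m in atTop, ∀ p : P, dist p p₀ < ρ → ∀ z : E n, ‖z‖ < ρ →
        AA (fun z => h (p, z)) z (ε m) (L ((p, z), m)) η) ∧
      ∀ δ : ℝ, 0 < δ → ∀ᶠ m in atTop, ∀ p : P, dist p p₀ < ρ → ∀ z : E n, ‖z‖ < ρ →
        sg (L ((p, z), m)) (ε m) ≤ δ := by
  obtain ⟨ρ, L, hρ, hL⟩ := hA
  rcases hL with h1 | ⟨h1, h2⟩
  · obtain ⟨ε₀, hε₀, h2⟩ := mem_nhdsGT_iff_exists_Ioo_subset.1 h1
    have hε₀' : 0 < ε₀ := hε₀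
    obtain ⟨ρ₁, hρ₁, hc'⟩ := Metric.eventually_nhds_iff_ball.1 hc
    have h3 : ∀ p : P, dist p p₀ < min ρ ρ₁ → ∀ z : E n, ‖z‖ < min ρ ρ₁ → ∀ r, 0 < r → r < ε₀ →
        AA (fun z => h (p, z)) z r (L p z r) η :=
      fun p hp z hz r hr hr' => h2 ⟨hr, hr'⟩ p (mem_univ p) (hp.trans_le (min_le_left _ _)) z
        (hz.trans_le (min_le_left _ _))
    obtain ⟨ρ', hρ', hρρ, h4⟩ := sg_smallF hη hη' (by positivity : 0 < min ρ ρ₁) hε₀'
      (fun z hz => hc' z (by rw [mem_ball_zero_iff]; exact hz.trans_le (min_le_right _ _))) h3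
    refine ⟨ρ', fun p => L p.1.1 p.1.2 (ε p.2), hρ', ?_, fun δ hδ => ?_⟩
    · filter_upwards [hε0.eventually_lt_const hε₀'] with m hm p hp z hz
      exact h3 p (hp.trans_le hρρ) z (hz.trans_le hρρ) _ (hε m) hm
    · obtain ⟨ε₂, hε₂, h5⟩ := h4 δ hδ
      filter_upwards [hε0.eventually_lt_const hε₂] with m hm p hp z hz
      exact h5 p hp z hz _ (hε m) hm
  · refine ⟨ρ, fun p => L p.1.1 p.1.2 (ε p.2), hρ, ?_, fun δ hδ => ?_⟩
    · filter_upwards [h1] with m hm p hp z hz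
      exact hm p (mem_univ p) hp z hz
    · filter_upwards [h2 δ hδ] with m hm p hp z hz
      exact hm p (mem_univ p) hp z hz

/-- change of the parameters -/
lemma AlmF.comp {Q : Type} [NormedAddCommGroup Q] {S : Set P} {T : Set Q} {η : ℝ} {ε : ℕ → ℝ}
    {h : P × E n → E n} {τ : Q → P} {q₀ : Q} (hA : AlmF S (τ q₀) η ε h)
    (hτ : ContinuousAt τ q₀) (hτS : ∀ q ∈ T, τ q ∈ S) :
    AlmF T q₀ η ε fun q : Q × E n => h (τ q.1, q.2) := by
  obtain ⟨ρ, L, hρ, hL⟩ := hA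
  obtain ⟨ρ₁, hρ₁, h1⟩ := Metric.continuousAt_iff.1 hτ ρ hρ
  refine ⟨min ρ ρ₁, fun q z r => L (τ q) z r, by positivity, ?_⟩
  have hd : ∀ q, dist q q₀ < min ρ ρ₁ → dist (τ q) (τ q₀) < ρ :=
    fun q hq => h1 (hq.trans_le (min_le_right _ _))
  have hz' : ∀ z : E n, ‖z‖ < min ρ ρ₁ → ‖z‖ < ρ := fun z hz => hz.trans_le (min_le_left _ _)
  rcases hL with hL | ⟨hL, hL2⟩
  · left
    filter_upwards [hL] with r hr q hqT hq z hz
    exact hr (τ q) (hτS q hqT) (hd q hq) z (hz' z hz)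
  · right
    constructor
    · filter_upwards [hL] with m hm q hqT hq z hz
      exact hm (τ q) (hτS q hqT) (hd q hq) z (hz' z hz)
    · intro δ hδ
      filter_upwards [hL2 δ hδ] with m hm q hqT hq z hz
      exact hm (τ q) (hτS q hqT) (hd q hq) z (hz' z hz)

end Run7.h60.Sc
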