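import Pool.Agent.Run7.h60.FAMain
import Pool.Agent.Run7.h60.FAScale

/-!
# Families of almost affine maps over a disc
-/

set_option autoImplicit false

open Set Filter Topology Metric Function MeasureTheory
open scoped Manifold ContDiff

noncomputable section

namespace Run7.h60.Sc

open Pool.Agent.Y522 Pool.Agent.R765

section defs

variable {n : ℕ} {P X Y : Type} [NormedAddCommGroup P] [NormedSpace ℝ P]
    [TopologicalSpace X] [TopologicalSpace Y]
    [ChartedSpace (E n) X] [ChartedSpace (E n) Y]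

/-- `f` is a smooth family of local diffeomorphisms near the point `q`, for the parameters in
`S` -/
def SFW (n : ℕ) {P X Y : Type} [NormedAddCommGroup P] [NormedSpace ℝ P]
    [TopologicalSpace X] [TopologicalSpace Y] [ChartedSpace (E n) X] [ChartedSpace (E n) Y]
    (S : Set P) (f : P × X → Y) (q : P × X) : Prop :=
  (∀ᶠ q' in 𝓝[S ×ˢ univ] q,
    ContMDiffWithinAt ((𝓘(ℝ, P)).prod (𝓡 n)) (𝓡 n) ∞ f (S ×ˢ univ) q') ∧
    LD n (fun x => f (q.1, x)) q.2

/-- `f` is almost affine at `q`, for the parameters in `S` -/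
def AffD (S : Set P) (d : X → X → ℝ) (K η : ℝ) (ε : ℕ → ℝ) (f : P × X → Y) (q : P × X) : Prop :=
  ∃ (A : E n → X) (B : Y → E n), A 0 = q.2 ∧ LD n A 0 ∧ LD n B (f q) ∧ BiLip d K A ∧
    AlmF S q.1 η ε fun w : P × E n => B (f (w.1, A w.2))

lemma SFW_univ {f : P × X → Y} {q : P × X} : SFW n univ f q ↔ SF n f q := by
  unfold SFW SF
  simp only [univ_prod_univ, nhdsWithin_univ, contMDiffWithinAt_univ]

lemma SFW.comp {Q : Type} [NormedAddCommGroup Q] [NormedSpace ℝ Q] {S : Set P} {T : Set Q}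
    {f : P × X → Y} {τ : Q → P} {q₀ : Q} {x : X} (h : SFW n S f (τ q₀, x))
    (hτ : ∀ᶠ q in 𝓝 q₀, ContDiffAt ℝ ∞ τ q) (hTS : ∀ q ∈ T, τ q ∈ S) :
    SFW n T (fun w : Q × X => f (τ w.1, w.2)) (q₀, x) := by
  have c1 : ContinuousAt (fun w : Q × X => (τ w.1, w.2)) (q₀, x) :=
    (ContinuousAt.comp (g := τ) (f := Prod.fst) hτ.self_of_nhds.continuousAt
      continuousAt_fst).prodMk continuousAt_snd
  refine ⟨?_, h.2⟩
  have c2 : Tendsto (fun w : Q × X => (τ w.1, w.2)) (𝓝[T ×ˢ univ] (q₀, x))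
      (𝓝[S ×ˢ univ] (τ q₀, x)) := by
    refine tendsto_nhdsWithin_of_tendsto_nhds_of_eventually_within _
      (c1.tendsto.mono_left nhdsWithin_le_nhds) ?_
    filter_upwards [self_mem_nhdsWithin] with w hw
    exact ⟨hTS _ hw.1, mem_univ _⟩
  have c3 : ∀ᶠ w : Q × X in 𝓝[T ×ˢ univ] (q₀, x), ContDiffAt ℝ ∞ τ w.1 := by
    have : Tendsto (Prod.fst : Q × X → Q) (𝓝[T ×ˢ univ] (q₀, x)) (𝓝 q₀) :=
      continuousAt_fst.tendsto.mono_left nhdsWithin_le_nhds
    exact this.eventually hτ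
  filter_upwards [c2.eventually h.1, c3] with w h1 h2
  have d1 : ContMDiffWithinAt ((𝓘(ℝ, Q)).prod (𝓡 n)) ((𝓘(ℝ, P)).prod (𝓡 n)) ∞
      (fun w : Q × X => (τ w.1, w.2)) (T ×ˢ univ) w := by
    have e1 : ContMDiffAt ((𝓘(ℝ, Q)).prod (𝓡 n)) (𝓘(ℝ, P)) ∞ (fun w : Q × X => τ w.1) w :=
      ContMDiffAt.comp w (g := τ) (f := Prod.fst) h2.contMDiffAt contMDiffAt_fst
    exact (e1.prodMk contMDiffAt_snd).contMDiffWithinAt
  exact ContMDiffWithinAt.comp (g := f) (f := fun w : Q × X => (τ w.1, w.2)) w h1 d1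
    fun w hw => ⟨hTS _ hw.1, mem_univ _⟩

lemma AffD.comp {Q : Type} [NormedAddCommGroup Q] [NormedSpace ℝ Q] {S : Set P} {T : Set Q}
    {d : X → X → ℝ} {K η : ℝ} {ε : ℕ → ℝ}
    {f : P × X → Y} {τ : Q → P} {q₀ : Q} {x : X} (h : AffD (n := n) S d K η ε f (τ q₀, x))
    (hτ : ContinuousAt τ q₀) (hTS : ∀ q ∈ T, τ q ∈ S) :
    AffD (n := n) T d K η ε (fun w : Q × X => f (τ w.1, w.2)) (q₀, x) := by
  obtain ⟨A, B, h1, h2, h3, h4, h5⟩ := h
  have h6 := AlmF.comp (τ := τ) (q₀ := q₀) (T := T) (h := fun w : P × E n => B (f (w.1, A w.2)))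
    h5 hτ hTS
  exact ⟨A, B, h1, h2, h3, h4, h6⟩

lemma AffD.aff {d : X → X → ℝ} {K η : ℝ} {ε : ℕ → ℝ}
    {f : P × X → Y} {q : P × X} (h : AffD (n := n) univ d K η ε f q) (hf : Continuous f)
    (hε : ∀ m, 0 < ε m) (hε0 : Tendsto ε atTop (𝓝 0)) (hη : 0 < η) (hη' : η ≤ 1 / 40) :
    AffAtF (n := n) d K η ε f q := by
  obtain ⟨A, B, h1, h2, h3, h4, h5⟩ := h
  refine ⟨A, B, h1, h2, h3, h4, h5.aff ?_ hε hε0 hη hη'⟩
  have c1 : ContinuousAt (fun z => f (q.1, A z)) 0 := by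
    refine hf.continuousAt.comp ?_
    exact continuousAt_const.prodMk h2.continuousAt
  have c2 : ∀ᶠ z in 𝓝 (0 : E n), LD n B (f (q.1, A z)) := by
    refine c1.eventually ?_
    change ∀ᶠ y in 𝓝 (f (q.1, A 0)), LD n B y
    rw [h1]
    exact h3.eventually
  filter_upwards [h2.eventually, c2] with z g1 g2
  have c3 : ContinuousAt (fun w : P × E n => f (w.1, A w.2)) (q.1, z) := by
    refine hf.continuousAt.comp ?_
    exact continuousAt_fst.prodMk (ContinuousAt.comp (g := A) (f := Prod.snd)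
      g1.continuousAt continuousAt_snd)
  exact ContinuousAt.comp (g := B) (f := fun w : P × E n => f (w.1, A w.2)) g2.continuousAt c3

lemma SF.eventually [IsManifold (𝓡 n) ∞ X] [IsManifold (𝓡 n) ∞ Y] {G : P × X → Y} {q : P × X}
    (h : SF n G q) : ∀ᶠ q' in 𝓝 q, SF n G q' := by
  obtain ⟨p, x⟩ := q
  obtain ⟨α, hα⟩ : ∃ α : OpenPartialHomeomorph X (E n), α = chartAt (E n) x := ⟨_, rfl⟩
  obtain ⟨B, hB⟩ : ∃ B : OpenPartialHomeomorph Y (E n), B = chartAt (E n) (G (p, x)) := ⟨_, rfl⟩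
  have hαd : ∀ y ∈ α.source, LD n α y := by
    rw [hα]
    exact fun y hy => Pool.Agent.Y66.CM.LD_chart _ y hy
  have hBd : ∀ y ∈ B.source, LD n B y := by
    rw [hB]
    exact fun y hy => Pool.Agent.Y66.CM.LD_chart _ y hy
  have hxα : x ∈ α.source := by
    rw [hα]
    exact mem_chart_source _ _
  have hyB : G (p, x) ∈ B.source := by
    rw [hB]
    exact mem_chart_source _ _
  have hαi : ∀ y ∈ α.source, LD n α.symm (α y) := fun y hy =>
    LD.inverse α.open_source hαd (fun x hx => α.left_inv hx) hy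
  have hBi : ∀ y ∈ B.source, LD n B.symm (B y) := fun y hy =>
    LD.inverse B.open_source hBd (fun x hx => B.left_inv hx) hy
  have hcG : ContinuousAt G (p, x) := h.1.self_of_nhds.continuousAt
  have h1 : SL (fun q : P × E n => B (G (q.1, α.symm q.2))) (p, α x) := by
    refine SF.coord (A := α.symm) ?_ (hαi x hxα) ?_
    · rw [α.left_inv hxα]
      exact h
    · rw [α.left_inv hxα]
      exact hBd _ hyB
  have c1 : ContinuousAt (fun w : P × X => ((w.1, α w.2) : P × E n)) (p, x) :=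
    continuousAt_fst.prodMk (ContinuousAt.comp (g := α) (f := Prod.snd)
      (hαd x hxα).continuousAt continuousAt_snd)
  have e1 := c1.eventually h1.eventually
  have e2 : ∀ᶠ w : P × X in 𝓝 (p, x), w.2 ∈ α.source :=
    continuousAt_snd.eventually (α.open_source.mem_nhds hxα)
  have e3 : ∀ᶠ w : P × X in 𝓝 (p, x), G w ∈ B.source :=
    hcG.eventually (B.open_source.mem_nhds hyB)
  filter_upwards [e1, e2, e3, eventually_eventually_nhds.2 e2, eventually_eventually_nhds.2 e3]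
    with w g1 g2 g3 g4 g5
  have g6 := SF.of_coord (G := G) (A := α.symm) (α := α) (B := B) (β := B.symm) (p := w.1)
    (z := α w.2) g1 (by
      rw [α.left_inv g2]
      exact hαd _ g2) (by rw [α.left_inv g2]) (by
      rw [α.left_inv g2]
      exact hBi _ g3) (by
      rw [α.left_inv g2]
      filter_upwards [g4, g5] with v k1 k2
      exact ⟨α.left_inv k1, B.left_inv k2⟩)
  rw [α.left_inv g2] at g6
  exact g6

/-- constant families -/
lemma SF.of_LD {φ : X → Y} {p : P} {x : X} (h : LD n φ x) :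
    SF n (fun q : P × X => φ q.2) (p, x) := by
  refine ⟨?_, h⟩
  have h1 : ∀ᶠ q : P × X in 𝓝 (p, x), LD n φ q.2 := continuousAt_snd.eventually h.eventually
  filter_upwards [h1] with q hq
  exact ContMDiffAt.comp q (g := φ) (f := Prod.snd) hq.contMDiffAt contMDiffAt_snd

end defs

section radial

variable {P : Type} [NormedAddCommGroup P] [InnerProductSpace ℝ P]

/-- the cut-off function near the unit sphere -/
def om (a : ℝ) (p : P) : ℝ := Real.smoothTransition ((‖p‖ - (1 - 2 * a)) / a)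

/-- the radial map -/
def rad (a : ℝ) (p : P) : P := ((1 - om a p) + om a p * ‖p‖⁻¹) • p

variable {a : ℝ}

lemma om_zero (ha : 0 < a) {p : P} (hp : ‖p‖ ≤ 1 - 2 * a) : om a p = 0 :=
  Real.smoothTransition.zero_of_nonpos (div_nonpos_of_nonpos_of_nonneg (by linarith) ha.le)

lemma om_one (ha : 0 < a) {p : P} (hp : 1 - a ≤ ‖p‖) : om a p = 1 :=
  Real.smoothTransition.one_of_one_le (by rw [le_div_iff₀ ha]; linarith)

lemma om_nonneg (p : P) : 0 ≤ om a p := Real.smoothTransition.nonneg _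

lemma om_le_one (p : P) : om a p ≤ 1 := Real.smoothTransition.le_one _

lemma rad_outer (ha : 0 < a) {p : P} (hp : 1 - a ≤ ‖p‖) : rad a p = ‖p‖⁻¹ • p := by
  unfold rad
  rw [om_one ha hp]
  congr 1
  ring

lemma norm_rad_le (ha : 0 < a) (p : P) : ‖rad a p‖ ≤ 1 := by
  have h0 := om_nonneg (a := a) p
  have h1 := om_le_one (a := a) p
  have h2 : ‖rad a p‖ = (1 - om a p) * ‖p‖ + om a p * (‖p‖⁻¹ * ‖p‖) := by
    unfold rad
    rw [norm_smul, Real.norm_of_nonneg (add_nonneg (by linarith)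
      (mul_nonneg h0 (inv_nonneg.2 (norm_nonneg p))))]
    ring
  have h3 : ‖p‖⁻¹ * ‖p‖ ≤ 1 := inv_mul_le_one
  rw [h2]
  rcases le_total ‖p‖ 1 with hp | hp
  · nlinarith [norm_nonneg p]
  · rw [om_one ha (by linarith : 1 - a ≤ ‖p‖)]
    linarith

lemma dist_rad_le (ha : 0 < a) {p : P} (hp : ‖p‖ ≤ 1) : dist (rad a p) p ≤ 2 * a := by
  have h0 := om_nonneg (a := a) p
  have h1 := om_le_one (a := a) p
  rcases le_or_gt ‖p‖ (1 - 2 * a) with hpa | hpa
  · unfold rad
    rw [om_zero ha hpa]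
    simp
    positivity
  · rcases eq_or_ne p 0 with rfl | hp0
    · unfold rad
      simp
      positivity
    have hn : 0 < ‖p‖ := norm_pos_iff.2 hp0
    have e1 : rad a p - p = (om a p * (‖p‖⁻¹ - 1)) • p := by
      have e2 : ((1 - om a p) + om a p * ‖p‖⁻¹) • p - p =
          (((1 - om a p) + om a p * ‖p‖⁻¹) - 1) • p := by rw [sub_smul, one_smul]
      unfold rad
      rw [e2]
      congr 1
      ring
    have h3 : 1 ≤ ‖p‖⁻¹ := (one_le_inv₀ hn).2 hp
    rw [dist_eq_norm, e1, norm_smul, Real.norm_of_nonneg (mul_nonneg h0 (by linarith))]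
    have h4 : ‖p‖⁻¹ * ‖p‖ = 1 := inv_mul_cancel₀ hn.ne'
    calc om a p * (‖p‖⁻¹ - 1) * ‖p‖ = om a p * (‖p‖⁻¹ * ‖p‖ - ‖p‖) := by ring
      _ = om a p * (1 - ‖p‖) := by rw [h4]
      _ ≤ 1 * (1 - ‖p‖) := by
          apply mul_le_mul_of_nonneg_right h1
          linarith
      _ ≤ 2 * a := by linarith

lemma rad_smooth (ha : 0 < a) (ha' : a < 1 / 2) : ContDiff ℝ ∞ (rad a : P → P) := by
  rw [contDiff_iff_contDiffAt]
  intro p
  rcases eq_or_ne p 0 with rfl | hp
  · have h1 : (rad a : P → P) =ᶠ[𝓝 0] id := by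
      filter_upwards [ball_mem_nhds (0 : P) (by linarith : 0 < 1 - 2 * a)] with q hq
      unfold rad
      rw [om_zero ha (mem_ball_zero_iff.1 hq).le]
      simp
    exact contDiffAt_id.congr_of_eventuallyEq h1
  · have hn : ContDiffAt ℝ ∞ (fun p : P => ‖p‖) p := contDiffAt_norm ℝ hp
    have ho : ContDiffAt ℝ ∞ (om a : P → ℝ) p := by
      refine ContDiffAt.comp (g := Real.smoothTransition)
        (f := fun p : P => (‖p‖ - (1 - 2 * a)) / a) p Real.smoothTransition.contDiffAt ?_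
      exact (hn.sub contDiffAt_const).div_const a
    have hi : ContDiffAt ℝ ∞ (fun p : P => ‖p‖⁻¹) p := hn.inv (norm_ne_zero_iff.2 hp)
    exact ((contDiffAt_const.sub ho).add (ho.mul hi)).smul contDiffAt_id

end radial

end Run7.h60.Sc
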