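import Pool.Agent.Run7.h60.FADisc

/-!
# Families of almost affine maps over a disc: the theorem
-/

set_option autoImplicit false

open Set Filter Topology Metric Function MeasureTheory
open scoped Manifold ContDiff

noncomputable section

namespace Run7.h60.Sc

open Pool.Agent.Y522 Pool.Agent.R765

section disc

variable {n : ℕ} {P X Y : Type} [NormedAddCommGroup P] [InnerProductSpace ℝ P]
    [FiniteDimensional ℝ P] [TopologicalSpace X] [TopologicalSpace Y]

/-- uniformity over the disc -/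
lemma disc_unif {f : P × X → Y} (hf : ContinuousOn f (closedBall 0 1 ×ˢ univ))
    {O : Set ((P × X) × Y)} (hO : IsOpen O) {C : Set X} (hC : IsCompact C)
    (hfO : ∀ p ∈ closedBall (0 : P) 1, ∀ x, ((p, x), f (p, x)) ∈ O) :
    ∃ δ : ℝ, 0 < δ ∧ ∀ p ∈ closedBall (0 : P) 1, ∀ p' ∈ closedBall (0 : P) 1, dist p' p < δ →
      ∀ x ∈ C, ((p, x), f (p', x)) ∈ O := by
  have hprop : ProperSpace P := FiniteDimensional.proper ℝ P
  obtain ⟨ρ, hρ⟩ : ∃ ρ : P → P, ρ = fun p => (max 1 ‖p‖)⁻¹ • p := ⟨_, rfl⟩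
  have hρc : Continuous ρ := by
    rw [hρ]
    refine Continuous.smul (Continuous.inv₀ (by fun_prop) fun p => ?_) continuous_id
    have : (1 : ℝ) ≤ max 1 ‖p‖ := le_max_left _ _
    positivity
  have hρm : ∀ p, ρ p ∈ closedBall (0 : P) 1 := by
    intro p
    rw [mem_closedBall_zero_iff, hρ]
    change ‖(max 1 ‖p‖)⁻¹ • p‖ ≤ 1
    have h1 : (1 : ℝ) ≤ max 1 ‖p‖ := le_max_left _ _
    have h2 : ‖p‖ ≤ max 1 ‖p‖ := le_max_right _ _
    rw [norm_smul, Real.norm_of_nonneg (by positivity), inv_mul_le_one₀ (by positivity)]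
    exact h2
  have hρe : ∀ p ∈ closedBall (0 : P) 1, ρ p = p := by
    intro p hp
    rw [hρ]
    change (max 1 ‖p‖)⁻¹ • p = p
    rw [max_eq_left (mem_closedBall_zero_iff.1 hp), inv_one, one_smul]
  have hG : Continuous fun w : P × X => f (ρ w.1, w.2) :=
    hf.comp_continuous (f := fun w : P × X => (ρ w.1, w.2)) (by fun_prop)
      fun w => ⟨hρm _, mem_univ _⟩
  have hloc : ∀ p ∈ closedBall (0 : P) 1, ∃ r : ℝ, 0 < r ∧ ∀ p₁ ∈ ball p r, ∀ p₂ ∈ ball p r,
      ∀ x ∈ C, ((p₁, x), f (ρ p₂, x)) ∈ O := by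
    intro p hp
    have h1 : ∀ᶠ w : P × P in 𝓝 (p, p), ∀ x ∈ C, ((w.1, x), f (ρ w.2, x)) ∈ O := by
      refine hC.eventually_forall_of_forall_eventually fun x _ => ?_
      have c1 : ContinuousAt (fun v : (P × P) × X => ((v.1.1, v.2), f (ρ v.1.2, v.2)))
          ((p, p), x) := by
        have c2 : Continuous fun v : (P × P) × X => f (ρ v.1.2, v.2) :=
          hG.comp (g := fun w : P × X => f (ρ w.1, w.2))
            (f := fun v : (P × P) × X => (v.1.2, v.2)) (by fun_prop)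
        exact (Continuous.prodMk (by fun_prop) c2).continuousAt
      refine c1.eventually (hO.mem_nhds ?_)
      change ((p, x), f (ρ p, x)) ∈ O
      rw [hρe p hp]
      exact hfO p hp x
    obtain ⟨r, hr, h2⟩ := Metric.eventually_nhds_iff_ball.1 h1
    refine ⟨r, hr, fun p₁ h3 p₂ h4 x hx => h2 (p₁, p₂) ?_ x hx⟩
    rw [mem_ball, Prod.dist_eq]
    exact max_lt h3 h4
  choose! r hr hr2 using hloc
  obtain ⟨δ, hδ, h1⟩ := lebesgue_number_lemma_of_metric (ι := closedBall (0 : P) 1)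
    (c := fun p => ball (p : P) (r p)) (isCompact_closedBall (0 : P) 1) (fun p => isOpen_ball)
    (fun p hp => mem_iUnion.2 ⟨⟨p, hp⟩, mem_ball_self (hr p hp)⟩)
  refine ⟨δ, hδ, fun p hp p' hp' hpp x hx => ?_⟩
  obtain ⟨c, hc⟩ := h1 p hp
  have h2 := hr2 c.1 c.2 p (hc (mem_ball_self hδ)) p' (hc (mem_ball.2 hpp)) x hx
  rwa [hρe p' hp'] at h2

variable [T2Space X] [T2Space Y]
    [ChartedSpace (E n) X] [ChartedSpace (E n) Y] [IsManifold (𝓡 n) ∞ X] [IsManifold (𝓡 n) ∞ Y]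

/-- **Families over a disc**, constant in the parameter off a compact set. -/
theorem affDiscRel (f : P × X → Y) (hf : ContinuousOn f (closedBall 0 1 ×ˢ univ))
    (hb : ∀ p ∈ closedBall (0 : P) 1, ∃ e : X ≃ₜ Y, ∀ x, e x = f (p, x))
    {C : Set X} (hC : IsCompact C) {φ : X → Y} (hφ : ∀ x, x ∉ C → LD n φ x)
    (hfC : ∀ p ∈ closedBall (0 : P) 1, ∀ x, x ∉ C → f (p, x) = φ x)
    (d : X → X → ℝ) {K : ℝ} (hK : 1 ≤ K)
    {ε : ℕ → ℝ} (hε : ∀ m, 0 < ε m) (hε0 : Tendsto ε atTop (𝓝 0))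
    (hs : ∀ p : P, ‖p‖ = 1 → ∀ x ∈ C, SF n (fun q : P × X => f (‖q.1‖⁻¹ • q.1, q.2)) (p, x))
    (hx : ∀ p ∈ closedBall (0 : P) 1, ∀ x ∈ C, SFW n (closedBall (0 : P) 1) f (p, x) ∨
      AffD (n := n) (closedBall (0 : P) 1) d K (eta n K) ε f (p, x))
    (O : Set ((P × X) × Y)) (hO : IsOpen O)
    (hfO : ∀ p ∈ closedBall (0 : P) 1, ∀ x, ((p, x), f (p, x)) ∈ O)
    {U : Set X} (hU : IsOpen U) (hCU : C ⊆ U) :
    ∃ (F : P × X → Y) (C' : Set X), (∀ q, SF n F q) ∧ (∀ p, Bijective fun x => F (p, x)) ∧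
      (∀ p : P, ‖p‖ = 1 → ∀ x, F (p, x) = f (p, x)) ∧
      (∀ p ∈ closedBall (0 : P) 1, ∀ x, ((p, x), F (p, x)) ∈ O) ∧
      IsCompact C' ∧ C' ⊆ U ∧ ∀ p, ∀ x, x ∉ C' → F (p, x) = φ x := by
  classical
  have hprop : ProperSpace P := FiniteDimensional.proper ℝ P
  obtain ⟨δ, hδ, hδO'⟩ := disc_unif hf hO hC hfO
  have hδO : ∀ p ∈ closedBall (0 : P) 1, ∀ p' ∈ closedBall (0 : P) 1, dist p' p < δ →
      ∀ x, ((p, x), f (p', x)) ∈ O := by
    intro p hp p' hp' hpp x
    by_cases hxC : x ∈ C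
    · exact hδO' p hp p' hp' hpp x hxC
    · have h1 := hfO p hp x
      rw [hfC p hp x hxC] at h1
      rw [hfC p' hp' x hxC]
      exact h1
  have hCc : IsOpen Cᶜ := hC.isClosed.isOpen_compl
  obtain ⟨a, ha, ha4, haδ⟩ : ∃ a : ℝ, 0 < a ∧ a ≤ 1 / 4 ∧ 2 * a < δ := by
    refine ⟨min (δ / 4) (1 / 4), by positivity, min_le_right _ _, ?_⟩
    have := min_le_left (δ / 4) (1 / 4 : ℝ)
    linarith
  -- the radial projection
  obtain ⟨N, hN⟩ : ∃ N : P → P, N = fun p => ‖p‖⁻¹ • p := ⟨_, rfl⟩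
  have hN1 : ∀ p : P, p ≠ 0 → ‖N p‖ = 1 := by
    intro p hp
    rw [hN]
    change ‖‖p‖⁻¹ • p‖ = 1
    rw [norm_smul, norm_inv, norm_norm, inv_mul_cancel₀ (norm_ne_zero_iff.2 hp)]
  have hN2 : ∀ p : P, ‖p‖ = 1 → N p = p := by
    intro p hp
    rw [hN]
    change ‖p‖⁻¹ • p = p
    rw [hp, inv_one, one_smul]
  have hNs : ∀ p : P, p ≠ 0 → ContDiffAt ℝ ∞ N p := by
    intro p hp
    rw [hN]
    exact ((contDiffAt_norm ℝ hp).inv (norm_ne_zero_iff.2 hp)).smul contDiffAt_id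
  have hs' : ∀ p : P, p ≠ 0 → ∀ x : X, SF n (fun q : P × X => f (N q.1, q.2)) (p, x) := by
    intro p hp x
    by_cases hxC : x ∉ C
    · refine (SF.of_LD (p := p) (hφ x hxC)).congr ?_
      have c1 : ContinuousAt (Prod.fst : P × X → P) (p, x) := continuousAt_fst
      have c2 : ContinuousAt (Prod.snd : P × X → X) (p, x) := continuousAt_snd
      filter_upwards [c1.eventually (isOpen_ne.mem_nhds hp), c2.eventually (hCc.mem_nhds hxC)]
        with w h1 h2
      exact hfC _ (by rw [mem_closedBall_zero_iff, hN1 _ h1]) _ h2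
    rw [not_not] at hxC
    have h1 : SF n (fun q : P × X => f (N q.1, q.2)) (N p, x) := by
      rw [hN]
      exact hs _ (by have := hN1 p hp; rwa [hN] at this) x hxC
    rw [← SFW_univ] at h1
    have h0 : ∀ᶠ q in 𝓝 p, q ≠ 0 := isOpen_ne.mem_nhds hp
    have h2 := SFW.comp (T := univ) h1 (h0.mono fun q hq => hNs q hq) (fun _ _ => mem_univ _)
    rw [SFW_univ] at h2
    refine h2.congr ?_
    have h3 : ∀ᶠ w : P × X in 𝓝 (p, x), w.1 ≠ 0 := by
      have c1 : ContinuousAt (Prod.fst : P × X → P) (p, x) := continuousAt_fst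
      exact c1.eventually h0
    filter_upwards [h3] with w hw
    rw [hN2 _ (hN1 _ hw)]
  -- the parameters
  obtain ⟨τ, hτ⟩ : ∃ τ : OpenPartialHomeomorph P P,
      τ = OpenPartialHomeomorph.univUnitBall := ⟨_, rfl⟩
  have hτs : ContDiff ℝ ∞ τ := by
    rw [hτ]
    exact OpenPartialHomeomorph.contDiff_univUnitBall
  have hτi : ContDiffOn ℝ ∞ τ.symm (ball (0 : P) 1) := by
    rw [hτ]
    exact OpenPartialHomeomorph.contDiffOn_univUnitBall_symm
  have hτu : ∀ u, u ∈ τ.source := by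
    rw [hτ]
    exact fun u => mem_univ u
  have hτt : τ.target = ball (0 : P) 1 := by
    rw [hτ]
    rfl
  have hτb : ∀ u, τ u ∈ ball (0 : P) 1 := fun u => by
    rw [← hτt]
    exact τ.map_source (hτu u)
  have hτl : ∀ u, τ.symm (τ u) = u := fun u => τ.left_inv (hτu u)
  have hτr : ∀ p ∈ ball (0 : P) 1, τ (τ.symm p) = p := fun p hp => τ.right_inv (by rw [hτt]; exact hp)
  have hR : ∀ p : P, rad a p ∈ closedBall (0 : P) 1 := fun p => by
    rw [mem_closedBall_zero_iff]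
    exact norm_rad_le ha p
  obtain ⟨T, hT⟩ : ∃ T : P → P, T = fun u => rad a (τ u) := ⟨_, rfl⟩
  have hTs : ContDiff ℝ ∞ T := by
    rw [hT]
    exact (rad_smooth ha (by linarith)).comp hτs
  have hTm : ∀ u, T u ∈ closedBall (0 : P) 1 := fun u => by
    rw [hT]
    exact hR _
  -- the family
  obtain ⟨g, hg⟩ : ∃ g : P → X ≃ₜ Y, ∀ u x, g u x = f (T u, x) := by
    choose e he using fun u => hb (T u) (hTm u)
    exact ⟨e, he⟩
  have hgf : (fun w : P × X => g w.1 w.2) = fun w => f (T w.1, w.2) :=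
    funext fun w => hg w.1 w.2
  have hgc : Continuous fun w : P × X => g w.1 w.2 := by
    rw [hgf]
    exact hf.comp_continuous (f := fun w : P × X => (T w.1, w.2))
      ((hTs.continuous.comp continuous_fst).prodMk continuous_snd) fun w => ⟨hTm _, mem_univ _⟩
  have hgx : ∀ w : P × X, SF n (fun w => g w.1 w.2) w ∨
      AffAtF (n := n) d K (eta n K) ε (fun w => g w.1 w.2) w := by
    rintro ⟨u, x⟩
    by_cases hxC : x ∉ C
    · left
      refine (SF.of_LD (p := u) (hφ x hxC)).congr ?_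
      have c2 : ContinuousAt (Prod.snd : P × X → X) (u, x) := continuousAt_snd
      filter_upwards [c2.eventually (hCc.mem_nhds hxC)] with w h2
      rw [hg]
      exact hfC _ (hTm _) _ h2
    rw [not_not] at hxC
    rcases hx (T u) (hTm u) x hxC with h | h
    · left
      rw [hgf, ← SFW_univ]
      exact SFW.comp h (Eventually.of_forall fun u => hTs.contDiffAt) fun u _ => hTm u
    · right
      have h1 := AffD.comp (T := univ) h hTs.continuous.continuousAt fun u _ => hTm u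
      rw [hgf]
      exact h1.aff (by rw [← hgf]; exact hgc) hε hε0 (eta_pos hK) (eta_le hK)
  have hgo : ∀ w : P × X, 1 - a < ‖τ w.1‖ → SF n (fun w => g w.1 w.2) w := by
    rintro ⟨u, x⟩ hu
    have hu' : 1 - a < ‖τ u‖ := hu
    have h0 : τ u ≠ 0 := by
      rw [← norm_pos_iff]
      linarith
    have h1 := hs' (τ u) h0 x
    rw [← SFW_univ] at h1
    have h2 := SFW.comp (T := univ) h1 (Eventually.of_forall fun u => hτs.contDiffAt)
      (fun _ _ => mem_univ _)
    rw [SFW_univ] at h2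
    refine h2.congr ?_
    have h3 : ∀ᶠ w : P × X in 𝓝 (u, x), 1 - a < ‖τ w.1‖ := by
      have c1 : ContinuousAt (fun w : P × X => ‖τ w.1‖) (u, x) :=
        ((hτs.continuous.comp continuous_fst).norm).continuousAt
      exact c1.eventually_const_lt hu'
    filter_upwards [h3] with w hw
    rw [hg, hT, hN]
    change f (rad a (τ w.1), w.2) = f (‖τ w.1‖⁻¹ • τ w.1, w.2)
    rw [rad_outer ha hw.le]
  have hgC : ∀ w : P × X, ¬ SF n (fun w => g w.1 w.2) w → w.2 ∈ C := by
    rintro ⟨u, x⟩ hu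
    by_contra hxC
    refine hu ((SF.of_LD (p := u) (hφ x hxC)).congr ?_)
    have c2 : ContinuousAt (Prod.snd : P × X → X) (u, x) := continuousAt_snd
    filter_upwards [c2.eventually (hCc.mem_nhds hxC)] with w h2
    rw [hg]
    exact hfC _ (hTm _) _ h2
  have hbad : IsCompact {w : P × X | ¬ SF n (fun w => g w.1 w.2) w} := by
    have h1 : IsCompact ((τ.symm '' closedBall (0 : P) (1 - a)) ×ˢ C) := by
      refine IsCompact.prod ?_ hC
      refine (isCompact_closedBall _ _).image_of_continuousOn ?_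
      exact hτi.continuousOn.mono (closedBall_subset_ball (by linarith))
    refine h1.of_isClosed_subset ?_ ?_
    · rw [← isOpen_compl_iff]
      have e1 : {w : P × X | ¬ SF n (fun w => g w.1 w.2) w}ᶜ =
          {w | SF n (fun w => g w.1 w.2) w} := by
        ext w
        simp
      rw [e1, isOpen_iff_mem_nhds]
      exact fun w hw => SF.eventually hw
    · rintro ⟨u, x⟩ hu
      refine ⟨⟨τ u, ?_, hτl u⟩, hgC _ hu⟩
      rw [mem_closedBall_zero_iff]
      by_contra hcon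
      exact hu (hgo (u, x) (by
        rw [not_le] at hcon
        exact hcon))
  obtain ⟨O', hO'⟩ : ∃ O' : Set ((P × X) × Y), O' = {w | ((τ w.1.1, w.1.2), w.2) ∈ O} := ⟨_, rfl⟩
  have hO'o : IsOpen O' := by
    rw [hO']
    refine hO.preimage ?_
    have := hτs.continuous
    fun_prop
  have hgO' : ∀ w : P × X, (w, g w.1 w.2) ∈ O' := by
    rintro ⟨u, x⟩
    rw [hO']
    change ((τ u, x), g u x) ∈ O
    rw [hg, hT]
    have h1 := hτb u
    have h2 : ‖τ u‖ ≤ 1 := (mem_ball_zero_iff.1 h1).le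
    exact hδO (τ u) (by rwa [mem_closedBall_zero_iff]) _ (hR _)
      ((dist_rad_le ha h2).trans_lt haδ) x
  obtain ⟨F, D, hD, hDW, hFb, hFs, hFH⟩ := affFamily g hgc d hK hε hε0 O' hgx hbad hO'o hgO'
    (Prod.snd ⁻¹' U) (hU.preimage continuous_snd) (fun w hw => hCU (hgC w hw))
  -- the radius
  obtain ⟨b, hb1, hbD⟩ : ∃ b : ℝ, b < 1 ∧ ∀ w ∈ D, ‖τ w.1‖ ≤ b := by
    rcases D.eq_empty_or_nonempty with h | h
    · exact ⟨0, one_pos, fun w hw => by rw [h] at hw; exact absurd hw (notMem_empty w)⟩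
    · have c1 : ContinuousOn (fun w : P × X => ‖τ w.1‖) D :=
        ((hτs.continuous.comp continuous_fst).norm).continuousOn
      obtain ⟨w, hw, hmax⟩ := hD.exists_isMaxOn h c1
      exact ⟨‖τ w.1‖, mem_ball_zero_iff.1 (hτb w.1), fun w' hw' => hmax hw'⟩
  obtain ⟨c, hc1, hcb, hca⟩ : ∃ c : ℝ, c < 1 ∧ b < c ∧ 1 - a < c := by
    refine ⟨(max b (1 - a) + 1) / 2, ?_, ?_, ?_⟩
    · have : max b (1 - a) < 1 := max_lt hb1 (by linarith)
      linarith
    · have h1 : max b (1 - a) < 1 := max_lt hb1 (by linarith)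
      have h2 := le_max_left b (1 - a)
      linarith
    · have h1 : max b (1 - a) < 1 := max_lt hb1 (by linarith)
      have h2 := le_max_right b (1 - a)
      linarith
  obtain ⟨Φ, hΦ⟩ : ∃ Φ : P × X → Y, Φ = fun w =>
      if ‖w.1‖ < 1 then F (τ.symm w.1, w.2) else f (N w.1, w.2) := ⟨_, rfl⟩
  have hΦi : ∀ w : P × X, ‖w.1‖ < 1 → Φ w = F (τ.symm w.1, w.2) := by
    intro w hw
    rw [hΦ]
    exact if_pos hw
  have hΦo : ∀ w : P × X, c < ‖w.1‖ → Φ w = f (N w.1, w.2) := by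
    intro w hw
    by_cases h1 : ‖w.1‖ < 1
    · rw [hΦi w h1]
      have h2 : (τ.symm w.1, w.2) ∉ D := by
        intro h3
        have h4 := hbD _ h3
        change ‖τ (τ.symm w.1)‖ ≤ b at h4
        rw [hτr _ (mem_ball_zero_iff.2 h1)] at h4
        linarith
      have h5 := (hFH.off (τ.symm w.1, w.2)).2 h2
      rw [h5]
      change g (τ.symm w.1) w.2 = _
      rw [hg, hT, hN]
      change f (rad a (τ (τ.symm w.1)), w.2) = _
      rw [hτr _ (mem_ball_zero_iff.2 h1), rad_outer ha (by linarith)]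
    · rw [hΦ]
      exact if_neg h1
  have hc0 : 0 < c := by linarith
  refine ⟨Φ, C ∪ Prod.snd '' D, ?_, ?_, ?_, ?_, hC.union (hD.image continuous_snd),
    union_subset hCU (by
      rintro _ ⟨w, hw, rfl⟩
      exact hDW hw), ?_⟩
  · rintro ⟨p, x⟩
    by_cases hp : ‖p‖ < 1
    · have h1 := hFs (τ.symm p, x)
      rw [← SFW_univ] at h1
      have h3 : ∀ᶠ q in 𝓝 p, ContDiffAt ℝ ∞ τ.symm q := by
        filter_upwards [isOpen_ball.mem_nhds (mem_ball_zero_iff.2 hp)] with q hq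
        exact hτi.contDiffAt (isOpen_ball.mem_nhds hq)
      have h2 := SFW.comp (T := univ) h1 h3 (fun _ _ => mem_univ _)
      rw [SFW_univ] at h2
      refine h2.congr ?_
      have h4 : ∀ᶠ w : P × X in 𝓝 (p, x), ‖w.1‖ < 1 := by
        have c1 : ContinuousAt (fun w : P × X => ‖w.1‖) (p, x) := by fun_prop
        exact c1.eventually_lt_const hp
      filter_upwards [h4] with w hw
      exact hΦi w hw
    · have h0 : p ≠ 0 := by
        rintro rfl
        rw [norm_zero] at hp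
        exact hp one_pos
      refine (hs' p h0 x).congr ?_
      have h4 : ∀ᶠ w : P × X in 𝓝 (p, x), c < ‖w.1‖ := by
        have c1 : ContinuousAt (fun w : P × X => ‖w.1‖) (p, x) := by fun_prop
        exact c1.eventually_const_lt (by
          change c < ‖p‖
          linarith)
      filter_upwards [h4] with w hw
      exact hΦo w hw
  · intro p
    by_cases hp : ‖p‖ < 1
    · have e1 : (fun x => Φ (p, x)) = fun x => F (τ.symm p, x) := funext fun x => hΦi (p, x) hp
      rw [e1]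
      exact hFb _
    · have hp' : c < ‖p‖ := by linarith
      have h0 : p ≠ 0 := by
        rintro rfl
        rw [norm_zero] at hp
        exact hp one_pos
      have e1 : (fun x => Φ (p, x)) = fun x => f (N p, x) := funext fun x => hΦo (p, x) hp'
      rw [e1]
      obtain ⟨e, he⟩ := hb (N p) (by rw [mem_closedBall_zero_iff, hN1 p h0])
      have e2 : (fun x => f (N p, x)) = e := funext fun x => (he x).symm
      rw [e2]
      exact e.bijective
  · intro p hp x
    rw [hΦo (p, x) (by rw [hp]; exact hc1)]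
    change f (N p, x) = f (p, x)
    rw [hN2 p hp]
  · intro p hp x
    by_cases hp1 : ‖p‖ < 1
    · rw [hΦi (p, x) hp1]
      have h1 := (hFH.off (τ.symm p, x)).1
      rw [hO'] at h1
      change ((τ (τ.symm p), x), F (τ.symm p, x)) ∈ O at h1
      rwa [hτr _ (mem_ball_zero_iff.2 hp1)] at h1
    · have hp2 : ‖p‖ = 1 := le_antisymm (mem_closedBall_zero_iff.1 hp) (not_lt.1 hp1)
      rw [hΦo (p, x) (by rw [hp2]; exact hc1)]
      change ((p, x), f (N p, x)) ∈ O
      rw [hN2 p hp2]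
      exact hfO p hp x
  · intro p x hxC
    rw [mem_union, not_or] at hxC
    by_cases hp1 : ‖p‖ < 1
    · rw [hΦi (p, x) hp1]
      have h1 := (hFH.off (τ.symm p, x)).2 (fun h => hxC.2 ⟨_, h, rfl⟩)
      change F (τ.symm p, x) = g (τ.symm p) x at h1
      change F (τ.symm p, x) = φ x
      rw [h1, hg]
      exact hfC _ (hTm _) x hxC.1
    · rw [hΦo (p, x) (by change c < ‖p‖; linarith)]
      refine hfC _ ?_ x hxC.1
      have h0 : p ≠ 0 := by
        rintro rfl
        rw [norm_zero] at hp1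
        exact hp1 one_pos
      rw [mem_closedBall_zero_iff]
      exact (hN1 p h0).le

/-- **Families over a disc**, closed manifolds. -/
theorem affDisc [CompactSpace X] (f : P × X → Y) (hf : ContinuousOn f (closedBall 0 1 ×ˢ univ))
    (hb : ∀ p ∈ closedBall (0 : P) 1, Bijective fun x => f (p, x))
    (d : X → X → ℝ) {K : ℝ} (hK : 1 ≤ K)
    {ε : ℕ → ℝ} (hε : ∀ m, 0 < ε m) (hε0 : Tendsto ε atTop (𝓝 0))
    (hs : ∀ p : P, ‖p‖ = 1 → ∀ x : X, SF n (fun q : P × X => f (‖q.1‖⁻¹ • q.1, q.2)) (p, x))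
    (hx : ∀ p ∈ closedBall (0 : P) 1, ∀ x : X, SFW n (closedBall (0 : P) 1) f (p, x) ∨
      AffD (n := n) (closedBall (0 : P) 1) d K (eta n K) ε f (p, x))
    (O : Set ((P × X) × Y)) (hO : IsOpen O)
    (hfO : ∀ p ∈ closedBall (0 : P) 1, ∀ x, ((p, x), f (p, x)) ∈ O) :
    ∃ F : P × X → Y, (∀ q, SF n F q) ∧ (∀ p, Bijective fun x => F (p, x)) ∧
      (∀ p : P, ‖p‖ = 1 → ∀ x, F (p, x) = f (p, x)) ∧
      ∀ p ∈ closedBall (0 : P) 1, ∀ x, ((p, x), F (p, x)) ∈ O := by
  have hcf : ∀ p ∈ closedBall (0 : P) 1, Continuous fun x => f (p, x) := fun p hp =>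
    hf.comp_continuous (f := fun x : X => (p, x)) (by fun_prop) fun x => ⟨hp, mem_univ _⟩
  obtain ⟨F, C', h1, h2, h3, h4, -, -, -⟩ := affDiscRel (n := n) f hf
    (fun p hp => ⟨Continuous.homeoOfEquivCompactToT2
      (f := Equiv.ofBijective _ (hb p hp)) (hcf p hp), fun x => rfl⟩)
    (C := univ) isCompact_univ (φ := fun x => f (0, x)) (fun x hx => absurd (mem_univ x) hx)
    (fun p _ x hx => absurd (mem_univ x) hx) d hK hε hε0 (fun p hp x _ => hs p hp x)
    (fun p hp x _ => hx p hp x) O hO hfO isOpen_univ (subset_univ _)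
  exact ⟨F, h1, h2, h3, h4⟩

end disc

end Run7.h60.Sc
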