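import Pool.Agent.Run7.h60.AAMain

/-!
# Families of almost affine maps: estimates at a point
-/

set_option autoImplicit false

open Set Filter Topology Metric Function MeasureTheory
open scoped Manifold ContDiff

noncomputable section

namespace Run7.h60.Sc

open Pool.Agent.Y522 Pool.Agent.Y954.SH

variable {n : ℕ}

/-- maps close to an almost affine map -/
lemma AA.perturb {h g : E n → E n} {z : E n} {ε η c : ℝ} {L : E n ≃L[ℝ] E n} (hA : AA h z ε L η)
    (hε : 0 ≤ ε) (hc : ∀ y : E n, ‖y‖ ≤ ε → ‖L.symm (g (z + y) - h (z + y))‖ ≤ c * ε) :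
    AA g z ε L (η + 2 * c) := by
  intro y hy
  have h0 := hc 0 (by rw [norm_zero]; exact hε)
  rw [add_zero] at h0
  have e1 : L.symm (g (z + y) - g z) - y = (L.symm (h (z + y) - h z) - y) +
      (L.symm (g (z + y) - h (z + y)) - L.symm (g z - h z)) := by
    simp only [map_sub]
    abel
  rw [e1]
  refine (norm_add_le _ _).trans ?_
  have e2 := norm_sub_le (L.symm (g (z + y) - h (z + y))) (L.symm (g z - h z))
  have e3 := hA y hy
  have e4 := hc y hy
  linarith

/-- The mollification in other coordinates of the source, for a map close to `g`. -/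
lemma cmp_mo2 {h g gh lam : E n → E n} {z w : E n} {L L' T : E n ≃L[ℝ] E n} {ε η ζ K Q c : ℝ}
    (hε : 0 < ε) (hK : 1 ≤ K) (hη : 0 ≤ η) (hc : 0 ≤ c) (hζ : η + 2 * c + Q * ε ≤ ζ)
    (hQ : 0 ≤ Q) (hQε : Q * ε ≤ 1) (hA : AA h z ε L η) (hA' : AA g w ε L' η)
    (hT : ‖(T : E n →L[ℝ] E n)‖ ≤ K) (hT' : ‖(T.symm : E n →L[ℝ] E n)‖ ≤ K)
    (hlam : ∀ y : E n, ‖y‖ ≤ ε → ‖lam (z + y) - w - T y‖ ≤ Q * ‖y‖ ^ 2)
    (hg : ∀ y : E n, ‖y‖ ≤ ε → g (lam (z + y)) = h (z + y)) (hg0 : g w = h z)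
    (hsm : 8 * K ^ 2 * ζ ≤ 1) (hgc : ContinuousOn gh (closedBall w (2 * ε)))
    (hcl : ∀ y : E n, ‖y‖ ≤ ε → ‖L'.symm (gh (w + y) - g (w + y))‖ ≤ c * ε) :
    Nr L ε (h z) (mo gh ε w) (fderiv ℝ (mo gh ε) w ∘L (T : E n →L[ℝ] E n)) (4 * K)
      ((8 + 2 * kc n) * K ^ 2 * ζ) := by
  have hM := cmp_M hε hK hη (by linarith : η + Q * ε ≤ ζ) hQ hQε hA hA' hT hT' hlam hg hg0 (by
    have : 0 ≤ ζ := le_trans (by positivity) hζ
    nlinarith [mul_nonneg (sq_nonneg K) this])
  obtain ⟨M, hMd⟩ : ∃ M : E n →L[ℝ] E n, M = (L.symm : E n →L[ℝ] E n) ∘L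
    ((L' : E n →L[ℝ] E n) ∘L (T : E n →L[ℝ] E n)) := ⟨_, rfl⟩
  rw [← hMd] at hM
  have hζ0 : 0 ≤ ζ := le_trans (by positivity) hζ
  have hMa : ∀ v, M v = L.symm (L' (T v)) := fun v => by rw [hMd]; rfl
  have hK0 : 0 < K := by linarith
  have hMn : ‖M‖ ≤ 2 := by
    have e1 : M = (M - (ContinuousLinearMap.id ℝ (E n))) + (ContinuousLinearMap.id ℝ (E n)) := by abel
    calc ‖M‖ = ‖(M - (ContinuousLinearMap.id ℝ (E n))) + (ContinuousLinearMap.id ℝ (E n))‖ := by rw [← e1]
      _ ≤ ‖M - (ContinuousLinearMap.id ℝ (E n))‖ + ‖(ContinuousLinearMap.id ℝ (E n))‖ := norm_add_le _ _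
      _ ≤ 8 * K ^ 2 * ζ + 1 := add_le_add hM ContinuousLinearMap.norm_id_le
      _ ≤ 2 := by linarith
  have hηζ : η + 2 * c ≤ ζ := by
    have : 0 ≤ Q * ε := by positivity
    linarith
  have hζ1 : 8 * ζ ≤ 1 := by
    have e1 : 1 ≤ K ^ 2 := one_le_pow₀ hK
    nlinarith
  have hA2 := hA'.perturb hε.le hcl
  have hv := mo_aa_val hε hgc hA2
  have hd := mo_aa hε hgc hA2
  have hv2 : ‖L'.symm (mo gh ε w - g w)‖ ≤ 2 * ε := by
    have e0 := hcl 0 (by rw [norm_zero]; exact hε.le)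
    rw [add_zero] at e0
    have e1 : L'.symm (mo gh ε w - g w) = L'.symm (mo gh ε w - gh w) + L'.symm (gh w - g w) := by
      simp only [map_sub]
      abel
    rw [e1]
    refine (norm_add_le _ _).trans ?_
    nlinarith
  constructor
  · have e1 : L.symm (mo gh ε w - h z) = M (T.symm (L'.symm (mo gh ε w - g w))) := by
      rw [hMa, T.apply_symm_apply, L'.apply_symm_apply, hg0]
    rw [e1]
    calc ‖M (T.symm (L'.symm (mo gh ε w - g w)))‖ ≤ ‖M‖ * ‖T.symm (L'.symm (mo gh ε w - g w))‖ :=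
          M.le_opNorm _
      _ ≤ ‖M‖ * (‖(T.symm : E n →L[ℝ] E n)‖ * ‖L'.symm (mo gh ε w - g w)‖) := by
          gcongr
          exact (T.symm : E n →L[ℝ] E n).le_opNorm _
      _ ≤ 2 * (K * (2 * ε)) := by gcongr
      _ = 4 * K * ε := by ring
  · obtain ⟨S, hS⟩ : ∃ S, S = fderiv ℝ (mo gh ε) w := ⟨_, rfl⟩
    rw [← hS] at hd ⊢
    have e1 : (L.symm : E n →L[ℝ] E n) ∘L (S ∘L (T : E n →L[ℝ] E n)) - (ContinuousLinearMap.id ℝ (E n)) =
        (M - (ContinuousLinearMap.id ℝ (E n))) + M ∘L ((T.symm : E n →L[ℝ] E n) ∘L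
          (((L'.symm : E n →L[ℝ] E n) ∘L S - (ContinuousLinearMap.id ℝ (E n))) ∘L (T : E n →L[ℝ] E n))) := by
      ext1 v
      simp only [ContinuousLinearMap.sub_apply, ContinuousLinearMap.add_apply,
        ContinuousLinearMap.comp_apply, ContinuousLinearEquiv.coe_coe, map_sub,
        ContinuousLinearMap.id_apply, hMa, ContinuousLinearEquiv.apply_symm_apply,
        ContinuousLinearEquiv.symm_apply_apply]
      abel
    rw [e1]
    refine (norm_add_le _ _).trans ?_
    have e2 : ‖M ∘L ((T.symm : E n →L[ℝ] E n) ∘L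
          (((L'.symm : E n →L[ℝ] E n) ∘L S - (ContinuousLinearMap.id ℝ (E n))) ∘L (T : E n →L[ℝ] E n)))‖ ≤
        2 * (K * ((kc n * (η + 2 * c)) * K)) := by
      refine (ContinuousLinearMap.opNorm_comp_le _ _).trans ?_
      apply mul_le_mul hMn _ (norm_nonneg _) (by norm_num)
      refine (ContinuousLinearMap.opNorm_comp_le _ _).trans ?_
      apply mul_le_mul hT' _ (norm_nonneg _) hK0.le
      refine (ContinuousLinearMap.opNorm_comp_le _ _).trans ?_
      apply mul_le_mul hd hT (norm_nonneg _) (mul_nonneg kc_nonneg (by positivity))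
    have e3 : 2 * (K * ((kc n * (η + 2 * c)) * K)) ≤ 2 * kc n * K ^ 2 * ζ := by
      have e4 : 0 ≤ kc n := kc_nonneg
      calc 2 * (K * ((kc n * (η + 2 * c)) * K)) = 2 * kc n * K ^ 2 * (η + 2 * c) := by ring
        _ ≤ 2 * kc n * K ^ 2 * ζ := by gcongr
    calc _ ≤ 8 * K ^ 2 * ζ + 2 * kc n * K ^ 2 * ζ := add_le_add hM (e2.trans e3)
      _ = _ := by ring

lemma mo_integrable {g : E n → E n} {ε : ℝ} (hε : 0 < ε) {w : E n}
    (hg : ContinuousOn g (closedBall w ε)) :
    Integrable (fun s : E n => kr n s • g (w + ε • s)) := by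
  have hgc : ContinuousOn (fun s : E n => g (w + ε • s)) (closedBall 0 1) := by
    apply hg.comp (by fun_prop)
    intro s hs
    rw [mem_closedBall_zero_iff] at hs
    rw [mem_closedBall, dist_eq_norm, add_sub_cancel_left, norm_smul, Real.norm_of_nonneg hε.le]
    nlinarith
  have e1 : (fun s : E n => kr n s • g (w + ε • s)) =
      (closedBall (0 : E n) 1).indicator (fun s => kr n s • g (w + ε • s)) := by
    funext s
    by_cases hs : s ∈ closedBall (0 : E n) 1
    · rw [indicator_of_mem hs]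
    · rw [indicator_of_notMem hs]
      rw [mem_closedBall_zero_iff, not_le] at hs
      rw [kr_zero hs.le]
      simp
  rw [e1, integrable_indicator_iff measurableSet_closedBall]
  apply ContinuousOn.integrableOn_compact (isCompact_closedBall _ _)
  exact (kr_smooth.continuous.continuousOn).smul hgc

/-- the mollification of a finite linear combination -/
lemma mo_sum {ι : Type} (s : Finset ι) (a : ι → ℝ) (g : ι → E n → E n) {ε : ℝ} (hε : 0 < ε) {w : E n}
    (hg : ∀ j ∈ s, ContinuousOn (g j) (closedBall w ε)) :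
    mo (fun z => ∑ j ∈ s, a j • g j z) ε w = ∑ j ∈ s, a j • mo (g j) ε w := by
  unfold mo
  have e1 : ∀ x : E n, kr n x • (∑ j ∈ s, a j • g j (w + ε • x)) =
      ∑ j ∈ s, a j • (kr n x • g j (w + ε • x)) := by
    intro x
    rw [Finset.smul_sum]
    refine Finset.sum_congr rfl fun j _ => ?_
    rw [smul_comm]
  simp only [e1]
  have h1 : ∀ j ∈ s, Integrable (fun x : E n => a j • (kr n x • g j (w + ε • x))) := fun j hj =>
    (mo_integrable hε (hg j hj)).smul (a j)
  rw [integral_finsetSum s h1]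
  refine Finset.sum_congr rfl fun j _ => ?_
  rw [integral_smul]

/-- values of the mollification -/
lemma mo_near {g : E n → E n} {ε e : ℝ} (hε : 0 < ε) {w v : E n}
    (hg : ContinuousOn g (closedBall w ε)) (h : ∀ s : E n, ‖s‖ ≤ 1 → ‖g (w + ε • s) - v‖ ≤ e) :
    ‖mo g ε w - v‖ ≤ e := by
  have i1 := mo_integrable hε hg
  have i2 : Integrable (fun s : E n => kr n s • v) := kr_integrable.smul_const _
  have h1 : mo g ε w - v = ∫ s, kr n s • (g (w + ε • s) - v) := by
    simp only [smul_sub]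
    rw [integral_sub i1 i2, integral_smul_const, kr_int, one_smul]
    rfl
  rw [h1]
  have h2 : ∀ s : E n, ‖kr n s • (g (w + ε • s) - v)‖ ≤ kr n s * e := by
    intro s
    rw [norm_smul, Real.norm_of_nonneg (kr_nonneg s)]
    by_cases hs : kr n s = 0
    · rw [hs, zero_mul, zero_mul]
    · exact mul_le_mul_of_nonneg_left (h s (kr_lt hs).le) (kr_nonneg s)
  calc ‖∫ s, kr n s • (g (w + ε • s) - v)‖ ≤ ∫ s, kr n s * e :=
        norm_integral_le_of_norm_le (kr_integrable.mul_const e) (Eventually.of_forall h2)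
    _ = e := by rw [integral_mul_const, kr_int, one_mul]

end Run7.h60.Sc
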