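import Pool.Agent.Run7.h60.FAStage

/-!
# Families of almost affine maps: all stages
-/

set_option autoImplicit false

open Set Filter Topology Metric Function MeasureTheory
open scoped Manifold ContDiff

noncomputable section

namespace Run7.h60.Sc

open Pool.Agent.Y522 Pool.Agent.R765

section sf

variable {n : ℕ} {P X Y : Type} [NormedAddCommGroup P] [NormedSpace ℝ P]
    [TopologicalSpace X] [TopologicalSpace Y] [ChartedSpace (E n) X] [ChartedSpace (E n) Y]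

/-- `G` is a smooth family of local diffeomorphisms near the point `q` -/
def SF (n : ℕ) {P X Y : Type} [NormedAddCommGroup P] [NormedSpace ℝ P]
    [TopologicalSpace X] [TopologicalSpace Y] [ChartedSpace (E n) X] [ChartedSpace (E n) Y]
    (G : P × X → Y) (q : P × X) : Prop :=
  (∀ᶠ q' in 𝓝 q, ContMDiffAt ((𝓘(ℝ, P)).prod (𝓡 n)) (𝓡 n) ∞ G q') ∧
    LD n (fun x => G (q.1, x)) q.2

lemma tendsto_fib {A : Type*} [TopologicalSpace A] {B : Type*} [TopologicalSpace B] (q : A × B) :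
    Tendsto (fun x : B => (q.1, x)) (𝓝 q.2) (𝓝 q) :=
  Continuous.tendsto (by fun_prop : Continuous fun x : B => (q.1, x)) q.2

lemma SF.congr {G G' : P × X → Y} {q : P × X} (h : SF n G q) (hG : G' =ᶠ[𝓝 q] G) : SF n G' q := by
  refine ⟨?_, ?_⟩
  · filter_upwards [h.1, eventually_eventually_nhds.2 hG] with q' h1 h2
    exact h1.congr_of_eventuallyEq h2
  · refine h.2.congr ?_
    exact (tendsto_fib q).eventually hG

/-- smooth families in coordinates -/
lemma SF.coord {G : P × X → Y} {A : E n → X} {B : Y → E n} {p : P} {z : E n}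
    (h : SF n G (p, A z)) (hA : LD n A z) (hB : LD n B (G (p, A z))) :
    SL (fun q : P × E n => B (G (q.1, A q.2))) (p, z) := by
  have hc0 : ContinuousAt (fun q : P × E n => (q.1, A q.2)) (p, z) :=
    continuousAt_fst.prodMk (ContinuousAt.comp (g := A) (f := Prod.snd)
      hA.continuousAt continuousAt_snd)
  have hcG : ContinuousAt G (p, A z) := h.1.self_of_nhds.continuousAt
  refine ⟨?_, ?_⟩
  · have c1 := hc0.eventually h.1
    have c2 : ∀ᶠ q : P × E n in 𝓝 (p, z), LD n A q.2 :=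
      continuousAt_snd.eventually hA.eventually
    have c4 : ContinuousAt (fun q : P × E n => G (q.1, A q.2)) (p, z) :=
      ContinuousAt.comp (g := G) (f := fun q : P × E n => (q.1, A q.2)) hcG hc0
    have c3 : ∀ᶠ q : P × E n in 𝓝 (p, z), LD n B (G (q.1, A q.2)) := c4.eventually hB.eventually
    filter_upwards [c1, c2, c3] with q g1 g2 g3
    have d1 : ContMDiffAt 𝓘(ℝ, P × E n) ((𝓘(ℝ, P)).prod (𝓡 n)) ∞
        (fun q : P × E n => (q.1, A q.2)) q := by
      refine ContMDiffAt.prodMk contDiff_fst.contMDiff.contMDiffAt ?_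
      exact ContMDiffAt.comp q (g := A) (f := Prod.snd) g2.contMDiffAt
        contDiff_snd.contMDiff.contMDiffAt
    have d2 : ContMDiffAt 𝓘(ℝ, P × E n) (𝓡 n) ∞ (fun q : P × E n => G (q.1, A q.2)) q :=
      ContMDiffAt.comp q (g := G) (f := fun q : P × E n => (q.1, A q.2)) g1 d1
    have d3 : ContMDiffAt 𝓘(ℝ, P × E n) (𝓡 n) ∞ (fun q : P × E n => B (G (q.1, A q.2))) q :=
      ContMDiffAt.comp q (g := B) (f := fun q : P × E n => G (q.1, A q.2)) g3.contMDiffAt d2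
    exact d3.contDiffAt
  · refine LD.comp_fun (g := B) ?_ (LD.comp_fun (g := fun x => G (p, x)) h.2 hA)
    exact hB

/-- smooth families from coordinates -/
lemma SF.of_coord {G : P × X → Y} {A : E n → X} {α : X → E n} {B : Y → E n} {β : E n → Y} {p : P}
    {z : E n} (h : SL (fun q : P × E n => B (G (q.1, A q.2))) (p, z)) (hα : LD n α (A z))
    (hαz : α (A z) = z) (hβ : LD n β (B (G (p, A z))))
    (he : ∀ᶠ q in 𝓝 (p, A z), A (α q.2) = q.2 ∧ β (B (G q)) = G q) : SF n G (p, A z) := by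
  have he' : G =ᶠ[𝓝 (p, A z)] fun q => β (B (G (q.1, A (α q.2)))) := by
    filter_upwards [he] with q hq
    rw [hq.1, hq.2]
  refine SF.congr ?_ he'
  have hc0 : ContinuousAt (fun q : P × X => ((q.1, α q.2) : P × E n)) (p, A z) :=
    continuousAt_fst.prodMk (ContinuousAt.comp (g := α) (f := Prod.snd)
      hα.continuousAt continuousAt_snd)
  have hc1 : ContinuousAt (fun q : P × E n => B (G (q.1, A q.2))) (p, z) :=
    h.1.self_of_nhds.continuousAt
  have hc2 : ContinuousAt (fun q : P × X => B (G (q.1, A (α q.2)))) (p, A z) := by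
    refine ContinuousAt.comp (g := fun q : P × E n => B (G (q.1, A q.2)))
      (f := fun q : P × X => ((q.1, α q.2) : P × E n)) ?_ hc0
    beta_reduce
    rw [hαz]
    exact hc1
  refine ⟨?_, ?_⟩
  · have c1 : ∀ᶠ q : P × X in 𝓝 (p, A z),
        ContDiffAt ℝ ∞ (fun q : P × E n => B (G (q.1, A q.2))) (q.1, α q.2) := by
      refine hc0.eventually ?_
      beta_reduce
      rw [hαz]
      exact h.1
    have c2 : ∀ᶠ q : P × X in 𝓝 (p, A z), LD n α q.2 :=
      continuousAt_snd.eventually hα.eventually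
    have c3 : ∀ᶠ q : P × X in 𝓝 (p, A z), LD n β (B (G (q.1, A (α q.2)))) := by
      refine hc2.eventually ?_
      beta_reduce
      rw [hαz]
      exact hβ.eventually
    filter_upwards [c1, c2, c3] with q g1 g2 g3
    have d1 : ContMDiffAt ((𝓘(ℝ, P)).prod (𝓡 n)) 𝓘(ℝ, P × E n) ∞
        (fun q : P × X => ((q.1, α q.2) : P × E n)) q := by
      refine ContMDiffAt.prodMk_space contMDiffAt_fst ?_
      exact ContMDiffAt.comp q (g := α) (f := Prod.snd) g2.contMDiffAt contMDiffAt_snd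
    have d2 : ContMDiffAt ((𝓘(ℝ, P)).prod (𝓡 n)) (𝓡 n) ∞
        (fun q : P × X => B (G (q.1, A (α q.2)))) q :=
      ContMDiffAt.comp q (g := fun q : P × E n => B (G (q.1, A q.2)))
        (f := fun q : P × X => ((q.1, α q.2) : P × E n)) g1.contMDiffAt d1
    exact ContMDiffAt.comp q (g := β) (f := fun q : P × X => B (G (q.1, A (α q.2))))
      g3.contMDiffAt d2
  · refine LD.comp_fun (g := β) (f := fun x => B (G (p, A (α x)))) ?_ ?_
    · beta_reduce
      rw [hαz]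
      exact hβ
    · refine LD.comp_fun (g := fun z => B (G (p, A z))) (f := α) ?_ hα
      rw [hαz]
      exact h.2

end sf

section glob

variable {n : ℕ} {P X Y : Type} [NormedAddCommGroup P] [NormedSpace ℝ P] [FiniteDimensional ℝ P]
    [TopologicalSpace X] [T2Space X] [TopologicalSpace Y]
    [ChartedSpace (E n) X] [ChartedSpace (E n) Y] {f : C(P × X, Y)} {ι : Type}

/-- the coordinates are compatible at `q`, and `f` is almost affine in them -/
def GdF (b : ι → By n f) (ε : ℕ → ℝ) (gh : ι → ℕ → P × E n → E n) (q : P × X) (K η : ℝ) : Prop :=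
  1 ≤ K ∧ 0 < η ∧ 8 * K ^ 2 * η < 1 ∧ (8 + 2 * kc n) * K ^ 2 * η < 1 ∧
    (∀ i, q.1 ∈ closedBall (b i).c (b i).r → ∀ z ∈ closedBall (0 : E n) (b i).r,
      (b i).A z = q.2 → ∃ L, AAQ ε (b i).h (q.1, z) η L ∧ CLQ ε (b i).h (q.1, z) L (gh i)) ∧
    ∀ i j, ∀ z ∈ closedBall (0 : E n) (b i).r, ∀ w ∈ closedBall (0 : E n) (b j).r,
      (b i).A z = q.2 → (b j).A w = q.2 → ∀ᶠ z' in 𝓝 z,
        ‖(Dq (fun y => (b j).α ((b i).A y)) z' : E n →L[ℝ] E n)‖ ≤ K ∧
        ‖((Dq (fun y => (b j).α ((b i).A y)) z').symm : E n →L[ℝ] E n)‖ ≤ K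

/-- the maps `G m` are smooth near `q`, and close to `f` -/
def IvF (b : ι → By n f) (ε : ℕ → ℝ) (q : P × X) (η : ℝ) (G : ℕ → C(P × X, Y)) : Prop :=
  ∃ j, q.1 ∈ closedBall (b j).c (b j).r ∧ ∃ z ∈ closedBall (0 : E n) (b j).r, (b j).A z = q.2 ∧
    ∃ L C θ, 0 ≤ C ∧ θ < 1 ∧
    AAQ ε (b j).h (q.1, z) η L ∧
    NrQ ε (b j).h (q.1, z) L (fun m q' => (b j).B (G m (q'.1, (b j).A q'.2))) C θ

lemma ballF_sub {b : By n f} {z : E n} (hz : z ∈ closedBall (0 : E n) b.r) :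
    z ∈ ball (0 : E n) (3 / 2 * b.r) := by
  have := b.hr
  exact closedBall_subset_ball (by linarith) hz

lemma ballF_sub2 {b : By n f} {z : E n} (hz : z ∈ closedBall (0 : E n) b.r) :
    z ∈ ball (0 : E n) (2 * b.r) := by
  have := b.hr
  exact closedBall_subset_ball (by linarith) hz

lemma ballP_sub {b : By n f} {p : P} (hp : p ∈ closedBall b.c b.r) :
    p ∈ ball b.c (3 / 2 * b.r) := by
  have := b.hr
  exact closedBall_subset_ball (by linarith) hp

lemma ballP_sub2 {b : By n f} {p : P} (hp : p ∈ closedBall b.c b.r) :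
    p ∈ closedBall b.c (2 * b.r) := by
  have := b.hr
  exact closedBall_subset_closedBall (by linarith) hp

/-- the values in the coordinates -/
lemma evF_V (b : By n f) {G : ℕ → C(P × X, Y)} {D : Set (P × X)}
    (hG : ∀ O : Set ((P × X) × Y), IsOpen O → (∀ x, (x, f x) ∈ O) →
      ∀ᶠ m in atTop, HomRel O D f (G m)) :
    ∀ᶠ m in atTop, ∀ p ∈ closedBall b.c (3 / 2 * b.r), ∀ z ∈ closedBall (0 : E n) (3 / 2 * b.r),
      G m (p, b.A z) ∈ b.V := by
  filter_upwards [hG (b.nb 1) (b.nb_open 1) (b.nb_mem one_pos)] with m hm p hp z hz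
  exact (b.nb_of hp hz (hm.off _).1).1

lemma tendsto_pA {b : By n f} {p : P} {z : E n} (hz : z ∈ closedBall (0 : E n) (2 * b.r)) :
    ContinuousAt (fun q : P × E n => (q.1, b.A q.2)) (p, z) :=
  continuousAt_fst.prodMk (ContinuousAt.comp (g := b.A) (f := Prod.snd)
    (b.hAd z hz).continuousAt continuousAt_snd)

/-- one stage preserves the invariant outside the box -/
lemma IvF.off {b : ι → By n f} {ε : ℕ → ℝ} {q : P × X} {η : ℝ} {G G' : ℕ → C(P × X, Y)}
    (h : IvF b ε q η G) {S : Set (P × X)} (hS : IsClosed S) (hx : q ∉ S)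
    (hGG : ∀ᶠ m in atTop, ∀ y, y ∉ S → G' m y = G m y) : IvF b ε q η G' := by
  obtain ⟨j, hp, z, hz, hzx, L, C, θ, hC, hθ, hA, hN⟩ := h
  refine ⟨j, hp, z, hz, hzx, L, C, θ, hC, hθ, hA, hN.congr EventuallyEq.rfl
    (Eventually.of_forall fun _ => rfl) ?_⟩
  have hc := tendsto_pA (p := q.1) ((b j).sub_closedBall (ballF_sub hz))
  have h1 : ∀ᶠ y : P × E n in 𝓝 (q.1, z), (y.1, (b j).A y.2) ∈ Sᶜ :=
    hc.eventually (hS.isOpen_compl.mem_nhds (by
      beta_reduce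
      rw [hzx]
      exact hx))
  have h2 : ∀ᶠ p : (P × E n) × ℕ in 𝓝 (q.1, z) ×ˢ atTop, (p.1.1, (b j).A p.1.2) ∈ Sᶜ :=
    tendsto_fst.eventually h1
  have h3 : ∀ᶠ p : (P × E n) × ℕ in 𝓝 (q.1, z) ×ˢ atTop, ∀ y, y ∉ S → G' p.2 y = G p.2 y :=
    tendsto_snd.eventually hGG
  filter_upwards [h2, h3] with p g1 g2
  rw [g2 _ g1]

/-- the invariant at a newly smoothed point -/
lemma IvF.new {b : ι → By n f} {ε δ : ℕ → ℝ} (hε : ∀ m, 0 < ε m)
    (hε0 : Tendsto ε atTop (𝓝 0)) (hδ0 : Tendsto δ atTop (𝓝 0))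
    {ρ : ℕ → SmoothPartitionOfUnity P 𝓘(ℝ, P) P univ}
    (hρ : ∀ m, (ρ m).IsSubordinate (fun j => ball j (δ m))) {q : P × X} {K η : ℝ}
    {G G' : ℕ → C(P × X, Y)}
    (hg : GdF b ε (fun i m => av (ρ m) (b i).h) q K η) (i : ι)
    (hp : dist q.1 (b i).c < (b i).r / 2) {w : E n} (hw : ‖w‖ < (b i).r / 2)
    (hwx : (b i).A w = q.2)
    (hGG : ∀ᶠ m in atTop, ∀ p ∈ ball (b i).c (3 / 2 * (b i).r),
      ∀ z ∈ ball (0 : E n) (3 / 2 * (b i).r), G m (p, (b i).A z) ∈ (b i).V ∧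
        G' m (p, (b i).A z) ∈ (b i).V ∧ (b i).B (G' m (p, (b i).A z)) =
          (b i).B (G m (p, (b i).A z)) + (b i).χ (p, z) •
            (mo (fun z => av (ρ m) (b i).h (p, z)) (ε m) z - (b i).B (G m (p, (b i).A z)))) :
    IvF b ε q η G' := by
  have hr := (b i).hr
  have hwc : w ∈ closedBall (0 : E n) (b i).r := mem_closedBall_zero_iff.2 (by linarith)
  have hpc : q.1 ∈ closedBall (b i).c (b i).r := mem_closedBall.2 (by linarith)
  obtain ⟨hK, hη, h8, hθ, hA, -⟩ := hg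
  obtain ⟨L, hL, hCL⟩ := hA i hpc w hwc hwx
  have hk : 0 ≤ kc n := kc_nonneg
  have hlt : kc n * η < 1 := by
    refine lt_of_le_of_lt ?_ hθ
    have hK2 : 1 ≤ K ^ 2 := one_le_pow₀ hK
    calc kc n * η ≤ (8 + 2 * kc n) * η := by gcongr; linarith
      _ = (8 + 2 * kc n) * 1 * η := by ring
      _ ≤ (8 + 2 * kc n) * K ^ 2 * η := by gcongr
  obtain ⟨θ, hθ1, hθ2⟩ := exists_between hlt
  have hsm := box_SMQ hr (fun p hp z hz => (b i).hcont hp hz) hε hε0 hδ0 hρ
    (q₀ := (q.1, w)) (ballP_sub hpc) (ballF_sub hwc)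
  have h1 := NrQ.self hε hL hCL hsm (lt_add_one (1 + η)) hθ1
  refine ⟨i, hpc, w, hwc, hwx, L, 1 + η + 1, θ, by linarith, hθ2, hL, ?_⟩
  refine h1.congr EventuallyEq.rfl (Eventually.of_forall fun _ => rfl) ?_
  have h2 : ∀ᶠ p : (P × E n) × ℕ in 𝓝 (q.1, w) ×ˢ atTop, p.1.2 ∈ ball (0 : E n) ((b i).r / 2) :=
    (tendsto_valQ (h := Prod.snd) continuousAt_snd).eventually
      (isOpen_ball.mem_nhds (mem_ball_zero_iff.2 hw))
  have h3 : ∀ᶠ p : (P × E n) × ℕ in 𝓝 (q.1, w) ×ˢ atTop, p.1.1 ∈ ball (b i).c ((b i).r / 2) :=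
    (tendsto_valQ (h := Prod.fst) continuousAt_fst).eventually
      (isOpen_ball.mem_nhds (mem_ball.2 hp))
  filter_upwards [h2, h3, tendsto_snd.eventually hGG] with p g1 g2 g3
  have g4 := (g3 p.1.1 (ball_subset_ball (by linarith) g2) p.1.2
    (ball_subset_ball (by linarith) g1)).2.2
  rw [g4, (b i).χ_one (mem_ball.1 g2).le (mem_ball_zero_iff.1 g1).le, one_smul, add_sub_cancel]

/-- one stage preserves the invariant in the box -/
lemma IvF.step {b : ι → By n f} {ε δ : ℕ → ℝ} (hε : ∀ m, 0 < ε m)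
    (hε0 : Tendsto ε atTop (𝓝 0)) (hδ0 : Tendsto δ atTop (𝓝 0))
    {ρ : ℕ → SmoothPartitionOfUnity P 𝓘(ℝ, P) P univ}
    (hρ : ∀ m, (ρ m).IsSubordinate (fun j => ball j (δ m))) {q : P × X} {K η : ℝ}
    {G G' : ℕ → C(P × X, Y)} {D : Set (P × X)}
    (hG : ∀ O : Set ((P × X) × Y), IsOpen O → (∀ x, (x, f x) ∈ O) →
      ∀ᶠ m in atTop, HomRel O D f (G m))
    (hg : GdF b ε (fun i m => av (ρ m) (b i).h) q K η) (i : ι) (hx : q ∈ (b i).C)
    (hGG : ∀ᶠ m in atTop, ∀ p ∈ ball (b i).c (3 / 2 * (b i).r),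
      ∀ z ∈ ball (0 : E n) (3 / 2 * (b i).r), G m (p, (b i).A z) ∈ (b i).V ∧
        G' m (p, (b i).A z) ∈ (b i).V ∧ (b i).B (G' m (p, (b i).A z)) =
          (b i).B (G m (p, (b i).A z)) + (b i).χ (p, z) •
            (mo (fun z => av (ρ m) (b i).h (p, z)) (ε m) z - (b i).B (G m (p, (b i).A z))))
    (h : IvF b ε q η G) : IvF b ε q η G' := by
  obtain ⟨j, hpj, z, hz, hzx, L, C, θ, hC, hθ, hA, hN⟩ := h
  obtain ⟨p₀, x⟩ := q
  obtain ⟨hpi, w, hw, hwx⟩ := hx
  change (b i).A w = x at hwx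
  change (b j).A z = x at hzx
  change p₀ ∈ closedBall (b i).c (b i).r at hpi
  change p₀ ∈ closedBall (b j).c (b j).r at hpj
  obtain ⟨hK, hη, h8, hθ1, hAA, hKK⟩ := hg
  obtain ⟨L', hL', hCL'⟩ := hAA i hpi w hw hwx
  have hY : Nonempty Y := ⟨f (p₀, x)⟩
  have hri := (b i).hr
  have hrj := (b j).hr
  -- the inverses of the target coordinates
  have hβ : ∀ k, ∃ β : E n → Y, (∀ y ∈ (b k).V, β ((b k).B y) = y) ∧
      ∀ y ∈ (b k).V, LD n β ((b k).B y) := by
    intro k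
    have e1 : ∀ y ∈ (b k).V, invFunOn (b k).B (b k).V ((b k).B y) = y := by
      intro y hy
      exact (b k).hBi.leftInvOn_invFunOn hy
    exact ⟨_, e1, fun y hy => LD.inverse (b k).hV (b k).hBd e1 hy⟩
  obtain ⟨βj, hβj, hβjL⟩ := hβ j
  obtain ⟨βi, hβi, hβiL⟩ := hβ i
  have hz2 := ballF_sub2 hz
  have hw2 := ballF_sub2 hw
  have hz2' := ball_subset_closedBall hz2
  have hw2' := ball_subset_closedBall hw2
  have hpi2 := ballP_sub2 hpi
  have hpj2 := ballP_sub2 hpj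
  have hfj : f (p₀, x) ∈ (b j).V := by rw [← hzx]; exact (b j).hfV p₀ hpj2 z hz2'
  have hfi : f (p₀, x) ∈ (b i).V := by rw [← hwx]; exact (b i).hfV p₀ hpi2 w hw2'
  obtain ⟨lam, hlamd⟩ : ∃ lam : E n → E n, lam = fun y => (b i).α ((b j).A y) := ⟨_, rfl⟩
  have hlam_app : ∀ y, lam y = (b i).α ((b j).A y) := fun y => by rw [hlamd]
  obtain ⟨μ, hμd⟩ : ∃ μ : E n → E n, μ = fun y => (b i).B (βj y) := ⟨_, rfl⟩
  have hμa : ∀ y, μ y = (b i).B (βj y) := fun y => by rw [hμd]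
  obtain ⟨ν, hνd⟩ : ∃ ν : E n → E n, ν = fun y => (b j).B (βi y) := ⟨_, rfl⟩
  have hνa : ∀ y, ν y = (b j).B (βi y) := fun y => by rw [hνd]
  have hlamz : lam z = w := by rw [hlam_app, hzx, ← hwx, (b i).α_A hw2']
  have hlam : LD n lam z := by
    rw [hlamd]
    refine LD.comp_fun ?_ ((b j).hAd z hz2')
    rw [hzx, ← hwx]
    exact (b i).α_LD hw2
  have hhz : (b j).h (p₀, z) = (b j).B (f (p₀, x)) := by
    change (b j).B (f (p₀, (b j).A z)) = _
    rw [hzx]
  have hβhz : βj ((b j).h (p₀, z)) = f (p₀, x) := by rw [hhz, hβj _ hfj]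
  have hμ : LD n μ ((b j).h (p₀, z)) := by
    rw [hμd]
    refine LD.comp_fun ?_ ?_
    · rw [hβhz]
      exact (b i).hBd _ hfi
    · rw [hhz]
      exact hβjL _ hfj
  have hμz : μ ((b j).h (p₀, z)) = (b i).B (f (p₀, x)) := by rw [hμa, hβhz]
  have hν : LD n ν (μ ((b j).h (p₀, z))) := by
    rw [hνd, hμz]
    refine LD.comp_fun ?_ (hβiL _ hfi)
    rw [hβi _ hfi]
    exact (b j).hBd _ hfj
  have hνμ : ∀ᶠ y in 𝓝 ((b j).h (p₀, z)), ν (μ y) = y := by
    have e1 : (b j).B '' ((b j).V ∩ (b i).V) ∈ 𝓝 ((b j).h (p₀, z)) := by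
      rw [hhz]
      exact ((b j).hBd _ hfj).image_mem_nhds
        (((b j).hV.inter (b i).hV).mem_nhds ⟨hfj, hfi⟩)
    filter_upwards [e1] with y hy
    obtain ⟨y', ⟨hy1, hy2⟩, rfl⟩ := hy
    rw [hνa, hμa, hβj _ hy1, hβi _ hy2]
  -- the points near `z`
  have hAc : ContinuousAt (b j).A z := ((b j).hAd z hz2').continuousAt
  have hin : ∀ᶠ y in 𝓝 z, (b j).A y ∈ (b i).A '' ball 0 (3 / 2 * (b i).r) :=
    hAc.eventually ((b i).isOpen_image.mem_nhds (by
      rw [hzx, ← hwx]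
      exact ⟨w, ballF_sub hw, rfl⟩))
  have hin' : ∀ᶠ y in 𝓝 z, lam y ∈ ball (0 : E n) (3 / 2 * (b i).r) ∧
      (b i).A (lam y) = (b j).A y := by
    filter_upwards [hin] with y hy
    obtain ⟨w', hw', hw'y⟩ := hy
    have e1 : lam y = w' := by rw [hlam_app, ← hw'y, (b i).α_A ((b i).sub_closedBall hw')]
    rw [e1]
    exact ⟨hw', hw'y⟩
  have hzn : ∀ᶠ y in 𝓝 z, y ∈ ball (0 : E n) (3 / 2 * (b j).r) :=
    isOpen_ball.mem_nhds (ballF_sub hz)
  have hpn : ∀ᶠ p in 𝓝 p₀, p ∈ ball (b j).c (3 / 2 * (b j).r) :=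
    isOpen_ball.mem_nhds (ballP_sub hpj)
  have hpn' : ∀ᶠ p in 𝓝 p₀, p ∈ ball (b i).c (3 / 2 * (b i).r) :=
    isOpen_ball.mem_nhds (ballP_sub hpi)
  have hin2 : ∀ᶠ q : P × E n in 𝓝 (p₀, z), lam q.2 ∈ ball (0 : E n) (3 / 2 * (b i).r) ∧
      (b i).A (lam q.2) = (b j).A q.2 := by
    have c0 : Tendsto (Prod.snd : P × E n → E n) (𝓝 (p₀, z)) (𝓝 z) := continuousAt_snd
    exact c0.eventually hin'
  have hzn2 : ∀ᶠ q : P × E n in 𝓝 (p₀, z), q.2 ∈ ball (0 : E n) (3 / 2 * (b j).r) :=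
    continuousAt_snd.eventually hzn
  have hpn2 : ∀ᶠ q : P × E n in 𝓝 (p₀, z), q.1 ∈ ball (b j).c (3 / 2 * (b j).r) :=
    continuousAt_fst.eventually hpn
  have hpn2' : ∀ᶠ q : P × E n in 𝓝 (p₀, z), q.1 ∈ ball (b i).c (3 / 2 * (b i).r) :=
    continuousAt_fst.eventually hpn'
  have hgl : ∀ᶠ q : P × E n in 𝓝 (p₀, z), (b i).h (q.1, lam q.2) = μ ((b j).h q) := by
    filter_upwards [hin2, hzn2, hpn2] with q hy hy2 hy3
    change (b i).B (f (q.1, (b i).A (lam q.2))) = μ ((b j).B (f (q.1, (b j).A q.2)))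
    rw [hy.2, hμa, hβj _ ((b j).hfV q.1 ((b j).subP (ball_subset_closedBall hy3)) q.2
      ((b j).sub_closedBall hy2))]
  have hsm : SMQ ε (p₀, lam z) (fun m => av (ρ m) (b i).h) := by
    rw [hlamz]
    exact box_SMQ hri (fun p hp z hz => (b i).hcont hp hz) hε hε0 hδ0 hρ
      (q₀ := (p₀, w)) (ballP_sub hpi) (ballF_sub hw)
  obtain ⟨t, htd⟩ : ∃ t : P × E n → ℝ, t = fun q => (b i).χ (q.1, lam q.2) := ⟨_, rfl⟩
  have ht : ∀ᶠ q in 𝓝 (p₀, z), ContDiffAt ℝ ∞ t q := by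
    have e1 : ∀ᶠ q : P × E n in 𝓝 (p₀, z), LD n lam q.2 :=
      continuousAt_snd.eventually hlam.eventually
    filter_upwards [e1] with q hy
    rw [htd]
    have e2 : ContDiffAt ℝ ∞ (fun q : P × E n => ((q.1, lam q.2) : P × E n)) q :=
      contDiffAt_fst.prodMk (ContDiffAt.comp (g := lam) (f := Prod.snd) q hy.contDiffAt
        contDiffAt_snd)
    exact ContDiffAt.comp q (g := (b i).χ) (f := fun q : P × E n => ((q.1, lam q.2) : P × E n))
      (b i).χ_smooth.contDiffAt e2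
  have hlK := hKK j i z hz w hw hzx hwx
  rw [← hlamd] at hlK
  have hL'' : AAQ ε (b i).h (p₀, lam z) η L' := by rw [hlamz]; exact hL'
  have hCL'' : CLQ ε (b i).h (p₀, lam z) L' (fun m => av (ρ m) (b i).h) := by
    rw [hlamz]; exact hCL'
  obtain ⟨C', θ', hC', hθ', hN'⟩ := NrQ.step hε hε0 hA hL'' hη.le hK hlam hlK
    ((b j).hcont hpj2 hz2') hμ hν hνμ hgl hCL'' hsm ht
    (fun y => by rw [htd]; exact (b i).χ_nonneg _)
    (fun y => by rw [htd]; exact (b i).χ_le_one _) h8 hθ1 hC hθ hN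
  refine ⟨j, hpj, z, hz, hzx, L, C', θ', hC', hθ', hA, hN'.congr EventuallyEq.rfl
    (Eventually.of_forall fun _ => rfl) ?_⟩
  have hVj := evF_V (b j) hG
  filter_upwards [tendsto_fst.eventually hin2, tendsto_fst.eventually hzn2,
    tendsto_fst.eventually hpn2, tendsto_fst.eventually hpn2',
    tendsto_snd.eventually hGG, tendsto_snd.eventually hVj] with p g1 g2 g2' g2'' g3 g4
  have g5 := g3 p.1.1 g2'' (lam p.1.2) g1.1
  rw [g1.2] at g5
  have g6 := g4 p.1.1 (ball_subset_closedBall g2') p.1.2 (ball_subset_closedBall g2)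
  beta_reduce
  have e1 : μ ((b j).B (G p.2 (p.1.1, (b j).A p.1.2))) =
      (b i).B (G p.2 (p.1.1, (b j).A p.1.2)) := by
    rw [hμa, hβj _ g6]
  have e2 : t p.1 = (b i).χ (p.1.1, lam p.1.2) := by rw [htd]
  rw [e1, e2, ← g5.2.2, hνa, hβi _ g5.2.1]

/-- all stages -/
theorem globF [Finite ι] (b : ι → By n f) {ε δ : ℕ → ℝ} (hε : ∀ m, 0 < ε m)
    (hε0 : Tendsto ε atTop (𝓝 0)) (hδ0 : Tendsto δ atTop (𝓝 0))
    {ρ : ℕ → SmoothPartitionOfUnity P 𝓘(ℝ, P) P univ}
    (hρ : ∀ m, (ρ m).IsSubordinate (fun j => ball j (δ m)))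
    (hg : ∀ x, ∃ K η, GdF b ε (fun i m => av (ρ m) (b i).h) x K η)
    (hcov : ∀ q : P × X, ¬ SF n f q → ∃ i, dist q.1 (b i).c < (b i).r / 2 ∧
      ∃ z : E n, ‖z‖ < (b i).r / 2 ∧ (b i).A z = q.2) :
    ∃ (G : ℕ → C(P × X, Y)) (D : Set (P × X)), IsCompact D ∧ (D ⊆ ⋃ i, (b i).C) ∧
      (∀ O : Set ((P × X) × Y), IsOpen O → (∀ x, (x, f x) ∈ O) →
        ∀ᶠ m in atTop, HomRel O D f (G m)) ∧ ∀ᶠ m in atTop, ∀ x, SF n (G m) x := by
  classical
  have : Fintype ι := Fintype.ofFinite ι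
  choose K η hKη using hg
  obtain ⟨D, hD⟩ : ∃ D : Set (P × X), D = ⋃ i, (b i).C := ⟨_, rfl⟩
  have hDc : IsCompact D := by
    rw [hD]
    exact isCompact_iUnion fun i => (b i).isCompact_C
  have hCD : ∀ i, (b i).C ⊆ D := fun i => by
    rw [hD]; exact subset_iUnion (fun i => (b i).C) i
  have key : ∀ s : Finset ι, ∃ G : ℕ → C(P × X, Y),
      (∀ O : Set ((P × X) × Y), IsOpen O → (∀ x, (x, f x) ∈ O) →
        ∀ᶠ m in atTop, HomRel O D f (G m)) ∧
      ∀ q ∈ D, (SF n f q ∨ ∃ i ∈ s, dist q.1 (b i).c < (b i).r / 2 ∧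
        ∃ z : E n, ‖z‖ < (b i).r / 2 ∧ (b i).A z = q.2) →
        IvF b ε q (η q) G := by
    intro s
    induction s using Finset.induction_on with
    | empty =>
      refine ⟨fun _ => f, fun O _ hfO => Eventually.of_forall fun _ => HomRel.refl hfO, ?_⟩
      intro q hxD hx
      rcases hx with hx | ⟨i, hi, -⟩
      · rw [hD, mem_iUnion] at hxD
        obtain ⟨j, hpj, z, hz, hzx⟩ := hxD
        have hz2' := ball_subset_closedBall (ballF_sub2 hz)
        have hq : q = (q.1, (b j).A z) := by rw [hzx]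
        have hh : SL (b j).h (q.1, z) := by
          refine SF.coord (G := f) ?_ ((b j).hAd z hz2')
            ((b j).hBd _ ((b j).hfV q.1 (ballP_sub2 hpj) z hz2'))
          rw [← hq]
          exact hx
        exact ⟨j, hpj, z, hz, hzx, _, 0, 0, le_rfl, one_pos,
          AAQ.of_SL hε hε0 hh (hKη q).2.1, NrQ.of_SL hh⟩
      · exact absurd hi (Finset.notMem_empty i)
    | insert a s ha ih =>
      obtain ⟨G, hG1, hG2⟩ := ih
      obtain ⟨G', h1, h2, h3⟩ := stageF f (b a) hε hε0 hδ0 hρ G D hG1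
      refine ⟨G', fun O hO hfO => ?_, fun x hxD hx => ?_⟩
      · have := h1 O hO hfO
        rwa [union_eq_self_of_subset_right (hCD a)] at this
      · by_cases hst : SF n f x ∨ ∃ i ∈ s, dist x.1 (b i).c < (b i).r / 2 ∧
            ∃ z : E n, ‖z‖ < (b i).r / 2 ∧ (b i).A z = x.2
        · by_cases hxa : x ∈ (b a).C
          · exact IvF.step hε hε0 hδ0 hρ hG1 (hKη x) a hxa h3 (hG2 x hxD hst)
          · exact (hG2 x hxD hst).off (b a).isCompact_C.isClosed hxa h2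
        · rcases hx with hx | ⟨i, hi, hpi, z, hz, hzx⟩
          · exact absurd (Or.inl hx) hst
          · rcases Finset.mem_insert.1 hi with rfl | hi
            · exact IvF.new hε hε0 hδ0 hρ (hKη x) i hpi hz hzx h3
            · exact absurd (Or.inr ⟨i, hi, hpi, z, hz, hzx⟩) hst
  obtain ⟨G, hG1, hG2⟩ := key Finset.univ
  refine ⟨G, D, hDc, hD.subset, hG1, ?_⟩
  have hloc : ∀ x ∈ D, ∀ᶠ p : (P × X) × ℕ in 𝓝 x ×ˢ atTop, SF n (G p.2) p.1 := by
    intro x hxD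
    have h1 : IvF b ε x (η x) G := by
      refine hG2 x hxD ?_
      by_cases hx : SF n f x
      · exact Or.inl hx
      · obtain ⟨i, hpi, z, hz⟩ := hcov x hx
        exact Or.inr ⟨i, Finset.mem_univ i, hpi, z, hz⟩
    obtain ⟨j, hpj, z, hz, hzx, L, C, θ, hC, hθ, hA, hN⟩ := h1
    have hY : Nonempty Y := ⟨f x⟩
    have hrj := (b j).hr
    have h2 := hN.sl hθ
    have hV := evF_V (b j) hG1
    have hzn : ∀ᶠ y : P × E n in 𝓝 (x.1, z), y.2 ∈ ball (0 : E n) (3 / 2 * (b j).r) :=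
      continuousAt_snd.eventually (isOpen_ball.mem_nhds (ballF_sub hz))
    have hpn : ∀ᶠ y : P × E n in 𝓝 (x.1, z), y.1 ∈ ball (b j).c (3 / 2 * (b j).r) :=
      continuousAt_fst.eventually (isOpen_ball.mem_nhds (ballP_sub hpj))
    have h3 : ∀ᶠ p : (P × E n) × ℕ in 𝓝 (x.1, z) ×ˢ atTop,
        SF n (G p.2) (p.1.1, (b j).A p.1.2) := by
      filter_upwards [h2, tendsto_snd.eventually hV, tendsto_fst.eventually hzn,
        tendsto_fst.eventually hpn] with p g1 g2 g3 g3p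
      have g3c := ball_subset_closedBall g3
      have hGV := g2 p.1.1 (ball_subset_closedBall g3p) p.1.2 g3c
      have e1 : ∀ y ∈ (b j).V, invFunOn (b j).B (b j).V ((b j).B y) = y := by
        intro y hy
        exact (b j).hBi.leftInvOn_invFunOn hy
      have e2 := LD.inverse (b j).hV (b j).hBd e1 hGV
      have g3' : p.1.2 ∈ ball (0 : E n) (2 * (b j).r) := ball_subset_ball (by linarith) g3
      have e3 := (b j).α_LD g3'
      refine SF.of_coord (α := (b j).α) (B := (b j).B) (β := invFunOn (b j).B (b j).V) g1 e3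
        ((b j).α_A ((b j).sub_closedBall g3)) e2 ?_
      have c1 : ∀ᶠ q : P × X in 𝓝 (p.1.1, (b j).A p.1.2),
          q.2 ∈ (b j).A '' ball 0 (3 / 2 * (b j).r) :=
        continuousAt_snd.eventually ((b j).isOpen_image.mem_nhds ⟨p.1.2, g3, rfl⟩)
      have c2 : ∀ᶠ q : P × X in 𝓝 (p.1.1, (b j).A p.1.2), G p.2 q ∈ (b j).V :=
        (G p.2).continuous.continuousAt.eventually ((b j).hV.mem_nhds hGV)
      filter_upwards [c1, c2] with q k1 k2
      obtain ⟨y', hy', hyq⟩ := k1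
      refine ⟨?_, e1 _ k2⟩
      rw [← hyq, (b j).α_A ((b j).sub_closedBall hy')]
    obtain ⟨P1, hP1, P2, hP2, hP⟩ := eventually_prod_iff.1 h3
    have h4 : ∀ᶠ q : P × X in 𝓝 x, ∃ y : P × E n, P1 y ∧ (y.1, (b j).A y.2) = q := by
      have hα := (b j).α_LD (ballF_sub2 hz)
      have hαz : (b j).α ((b j).A z) = z := (b j).α_A (ball_subset_closedBall (ballF_sub2 hz))
      have c0 : ContinuousAt (fun q : P × X => ((q.1, (b j).α q.2) : P × E n)) (x.1, (b j).A z) :=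
        continuousAt_fst.prodMk (ContinuousAt.comp (g := (b j).α) (f := Prod.snd)
          hα.continuousAt continuousAt_snd)
      have c1 : ∀ᶠ q : P × X in 𝓝 (x.1, (b j).A z), P1 (q.1, (b j).α q.2) := by
        refine c0.eventually ?_
        beta_reduce
        rw [hαz]
        exact hP1
      have c2 : ∀ᶠ q : P × X in 𝓝 (x.1, (b j).A z), q.2 ∈ (b j).A '' ball 0 (3 / 2 * (b j).r) :=
        continuousAt_snd.eventually ((b j).isOpen_image.mem_nhds ⟨z, ballF_sub hz, rfl⟩)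
      have hx' : x = (x.1, (b j).A z) := by rw [hzx]
      rw [hx']
      filter_upwards [c1, c2] with q k1 k2
      obtain ⟨y', hy', hyq⟩ := k2
      refine ⟨(q.1, (b j).α q.2), k1, ?_⟩
      beta_reduce
      rw [← hyq, (b j).α_A ((b j).sub_closedBall hy')]
      exact Prod.ext rfl hyq
    have h5 : ∀ᶠ p : (P × X) × ℕ in 𝓝 x ×ˢ atTop,
        ∃ y : P × E n, P1 y ∧ (y.1, (b j).A y.2) = p.1 := tendsto_fst.eventually h4
    filter_upwards [h5, tendsto_snd.eventually hP2] with p g1 g2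
    obtain ⟨y, hy, hyp⟩ := g1
    rw [← hyp]
    exact hP hy g2
  have hunif : ∀ᶠ m in atTop, ∀ x ∈ D, SF n (G m) x := by
    refine hDc.induction_on (p := fun s => ∀ᶠ m in atTop, ∀ x ∈ s, SF n (G m) x) ?_ ?_ ?_ ?_
    · exact Eventually.of_forall fun m x hx => absurd hx (notMem_empty x)
    · intro s t hst h
      filter_upwards [h] with m hm x hx
      exact hm x (hst hx)
    · intro s t h1 h2
      filter_upwards [h1, h2] with m g1 g2 x hx
      rcases hx with hx | hx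
      · exact g1 x hx
      · exact g2 x hx
    · intro x hx
      obtain ⟨P1, hP1, P2, hP2, hP⟩ := eventually_prod_iff.1 (hloc x hx)
      refine ⟨{y | P1 y}, mem_nhdsWithin_of_mem_nhds hP1, ?_⟩
      filter_upwards [hP2] with m hm y hy
      exact hP hy hm
  filter_upwards [hunif, hG1 univ isOpen_univ (fun _ => mem_univ _)] with m g1 g2 x
  by_cases hx : x ∈ D
  · exact g1 x hx
  · have h1 : SF n f x := by
      by_contra h
      obtain ⟨i, hpi, z, hz, hzx⟩ := hcov x h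
      apply hx
      apply hCD i
      have hri := (b i).hr
      refine ⟨mem_closedBall.2 (by linarith), z, mem_closedBall_zero_iff.2 (by linarith), hzx⟩
    refine h1.congr ?_
    filter_upwards [hDc.isClosed.isOpen_compl.mem_nhds hx] with y hy
    exact (g2.off y).2 hy

end glob

end Run7.h60.Sc
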