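import Pool.Agent.Run7.h60.FADisc2

/-!
# Paths of almost affine maps
-/

set_option autoImplicit false

open Set Filter Topology Metric Function MeasureTheory
open scoped Manifold ContDiff

noncomputable section

namespace Run7.h60.Sc

open Pool.Agent.Y522 Pool.Agent.R765

section iso

variable {n : ℕ} {X Y : Type} [TopologicalSpace X] [TopologicalSpace Y]
    [T2Space X] [T2Space Y]
    [ChartedSpace (E n) X] [ChartedSpace (E n) Y] [IsManifold (𝓡 n) ∞ X] [IsManifold (𝓡 n) ∞ Y]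

/-- **Paths**, constant off a compact set. -/
theorem affIsoRel (f : ℝ × X → Y) (hf : ContinuousOn f (Icc 0 1 ×ˢ univ))
    (hb : ∀ t ∈ Icc (0 : ℝ) 1, ∃ e : X ≃ₜ Y, ∀ x, e x = f (t, x))
    {C : Set X} (hC : IsCompact C) (hfC : ∀ t ∈ Icc (0 : ℝ) 1, ∀ x, x ∉ C → f (t, x) = f (0, x))
    (h0 : ∀ x, LD n (fun x => f (0, x)) x) (h1 : ∀ x, LD n (fun x => f (1, x)) x)
    (d : X → X → ℝ) {K : ℝ} (hK : 1 ≤ K)
    {ε : ℕ → ℝ} (hε : ∀ m, 0 < ε m) (hε0 : Tendsto ε atTop (𝓝 0))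
    (hx : ∀ t ∈ Icc (0 : ℝ) 1, ∀ x ∈ C, SFW n (Icc (0 : ℝ) 1) f (t, x) ∨
      AffD (n := n) (Icc (0 : ℝ) 1) d K (eta n K) ε f (t, x))
    (O : Set ((ℝ × X) × Y)) (hO : IsOpen O)
    (hfO : ∀ t ∈ Icc (0 : ℝ) 1, ∀ x, ((t, x), f (t, x)) ∈ O)
    {U : Set X} (hU : IsOpen U) (hCU : C ⊆ U) :
    ∃ (F : ℝ × X → Y) (C' : Set X), (∀ q, SF n F q) ∧ (∀ t, Bijective fun x => F (t, x)) ∧
      (∀ x, F (0, x) = f (0, x)) ∧ (∀ x, F (1, x) = f (1, x)) ∧
      (∀ t ∈ Icc (0 : ℝ) 1, ∀ x, ((t, x), F (t, x)) ∈ O) ∧ IsCompact C' ∧ C' ⊆ U ∧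
      ∀ t, ∀ x, x ∉ C' → F (t, x) = f (0, x) := by
  obtain ⟨τ, hτ⟩ : ∃ τ : ℝ → ℝ, ∀ t, τ t = (t + 1) / 2 := ⟨_, fun _ => rfl⟩
  have hτs : ContDiff ℝ ∞ τ := by
    have e1 : τ = fun t => (t + 1) / 2 := funext hτ
    rw [e1]
    fun_prop
  have hcb : closedBall (0 : ℝ) 1 = Icc (-1) 1 := by
    rw [Real.closedBall_eq_Icc]
    norm_num
  have hτm : ∀ t ∈ closedBall (0 : ℝ) 1, τ t ∈ Icc (0 : ℝ) 1 := by
    intro t ht
    rw [hcb, mem_Icc] at ht
    rw [hτ, mem_Icc]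
    constructor <;> linarith
  obtain ⟨f', hf'⟩ : ∃ f' : ℝ × X → Y, f' = fun w => f (τ w.1, w.2) := ⟨_, rfl⟩
  have hc : ContinuousOn f' (closedBall 0 1 ×ˢ univ) := by
    rw [hf']
    refine hf.comp (f := fun w : ℝ × X => (τ w.1, w.2)) ?_ fun w hw => ⟨hτm _ hw.1, mem_univ _⟩
    exact ((hτs.continuous.comp continuous_fst).prodMk continuous_snd).continuousOn
  obtain ⟨O', hO'⟩ : ∃ O' : Set ((ℝ × X) × Y), O' = {w | ((τ w.1.1, w.1.2), w.2) ∈ O} := ⟨_, rfl⟩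
  have hO'o : IsOpen O' := by
    rw [hO']
    refine hO.preimage ?_
    have := hτs.continuous
    fun_prop
  obtain ⟨F, C', hF1, hF2, hF3, hF4, hC', hC'U, hF5⟩ := affDiscRel (n := n) f' hc
    (fun t ht => by rw [hf']; exact hb _ (hτm t ht)) hC (φ := fun x => f (0, x))
    (fun x _ => h0 x) (fun t ht x hx => by rw [hf']; exact hfC _ (hτm t ht) x hx) d hK hε hε0 (by
      intro p hp x _
      have hp' : p = 1 ∨ p = -1 := by
        rw [Real.norm_eq_abs] at hp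
        exact (abs_eq one_pos.le).1 hp
      rcases hp' with rfl | rfl
      · refine (SF.of_LD (P := ℝ) (p := 1) (h1 x)).congr ?_
        have h3 : ∀ᶠ w : ℝ × X in 𝓝 (1, x), 0 < w.1 := by
          have c1 : ContinuousAt (Prod.fst : ℝ × X → ℝ) (1, x) := continuousAt_fst
          exact c1.eventually_const_lt one_pos
        filter_upwards [h3] with w hw
        rw [hf']
        change f (τ (‖w.1‖⁻¹ • w.1), w.2) = f (1, w.2)
        rw [hτ, Real.norm_of_nonneg hw.le, smul_eq_mul, inv_mul_cancel₀ hw.ne']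
        norm_num
      · refine (SF.of_LD (P := ℝ) (p := -1) (h0 x)).congr ?_
        have h3 : ∀ᶠ w : ℝ × X in 𝓝 (-1, x), w.1 < 0 := by
          have c1 : ContinuousAt (Prod.fst : ℝ × X → ℝ) (-1, x) := continuousAt_fst
          exact c1.eventually_lt_const (by norm_num)
        filter_upwards [h3] with w hw
        rw [hf']
        change f (τ (‖w.1‖⁻¹ • w.1), w.2) = f (0, w.2)
        rw [hτ, Real.norm_of_nonpos hw.le, smul_eq_mul, inv_neg, neg_mul, inv_mul_cancel₀ hw.ne]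
        norm_num)
    (by
      intro t ht x hxC
      rw [hf']
      rcases hx (τ t) (hτm t ht) x hxC with h | h
      · exact Or.inl (SFW.comp h (Eventually.of_forall fun u => hτs.contDiffAt) hτm)
      · exact Or.inr (AffD.comp h hτs.continuous.continuousAt hτm))
    O' hO'o (by
      intro t ht x
      rw [hO', hf']
      exact hfO _ (hτm t ht) x) hU hCU
  obtain ⟨σ, hσ⟩ : ∃ σ : ℝ → ℝ, ∀ t, σ t = 2 * t - 1 := ⟨_, fun _ => rfl⟩
  have hσs : ContDiff ℝ ∞ σ := by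
    have e1 : σ = fun t => 2 * t - 1 := funext hσ
    rw [e1]
    fun_prop
  have hτσ : ∀ t, τ (σ t) = t := fun t => by
    rw [hτ, hσ]
    ring
  refine ⟨fun w => F (σ w.1, w.2), C', ?_, fun t => hF2 (σ t), ?_, ?_, ?_, hC', hC'U, ?_⟩
  · rintro ⟨t, x⟩
    have h2 := hF1 (σ t, x)
    rw [← SFW_univ] at h2 ⊢
    exact SFW.comp h2 (Eventually.of_forall fun u => hσs.contDiffAt) (fun _ _ => mem_univ _)
  · intro x
    change F (σ 0, x) = f (0, x)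
    rw [hF3 (σ 0) (by rw [hσ]; norm_num) x, hf']
    change f (τ (σ 0), x) = f (0, x)
    rw [hτσ]
  · intro x
    change F (σ 1, x) = f (1, x)
    rw [hF3 (σ 1) (by rw [hσ]; norm_num) x, hf']
    change f (τ (σ 1), x) = f (1, x)
    rw [hτσ]
  · intro t ht x
    have h2 := hF4 (σ t) (by
      rw [hcb, hσ, mem_Icc]
      rw [mem_Icc] at ht
      constructor <;> linarith) x
    rw [hO'] at h2
    change ((τ (σ t), x), F (σ t, x)) ∈ O at h2
    rwa [hτσ] at h2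
  · intro t x hxC
    exact hF5 (σ t) x hxC

/-- **Paths**, closed manifolds. -/
theorem affIso [CompactSpace X] (f : ℝ × X → Y) (hf : ContinuousOn f (Icc 0 1 ×ˢ univ))
    (hb : ∀ t ∈ Icc (0 : ℝ) 1, Bijective fun x => f (t, x))
    (h0 : ∀ x, LD n (fun x => f (0, x)) x) (h1 : ∀ x, LD n (fun x => f (1, x)) x)
    (d : X → X → ℝ) {K : ℝ} (hK : 1 ≤ K)
    {ε : ℕ → ℝ} (hε : ∀ m, 0 < ε m) (hε0 : Tendsto ε atTop (𝓝 0))
    (hx : ∀ t ∈ Icc (0 : ℝ) 1, ∀ x : X, SFW n (Icc (0 : ℝ) 1) f (t, x) ∨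
      AffD (n := n) (Icc (0 : ℝ) 1) d K (eta n K) ε f (t, x))
    (O : Set ((ℝ × X) × Y)) (hO : IsOpen O)
    (hfO : ∀ t ∈ Icc (0 : ℝ) 1, ∀ x, ((t, x), f (t, x)) ∈ O) :
    ∃ F : ℝ × X → Y, (∀ q, SF n F q) ∧ (∀ t, Bijective fun x => F (t, x)) ∧
      (∀ x, F (0, x) = f (0, x)) ∧ (∀ x, F (1, x) = f (1, x)) ∧
      ∀ t ∈ Icc (0 : ℝ) 1, ∀ x, ((t, x), F (t, x)) ∈ O := by
  have hcf : ∀ t ∈ Icc (0 : ℝ) 1, Continuous fun x => f (t, x) := fun p hp =>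
    hf.comp_continuous (f := fun x : X => (p, x)) (by fun_prop) fun x => ⟨hp, mem_univ _⟩
  obtain ⟨F, C', e1, e2, e3, e4, e5, -, -, -⟩ := affIsoRel (n := n) f hf
    (fun p hp => ⟨Continuous.homeoOfEquivCompactToT2
      (f := Equiv.ofBijective _ (hb p hp)) (hcf p hp), fun x => rfl⟩)
    (C := univ) isCompact_univ (fun p _ x hx => absurd (mem_univ x) hx) h0 h1 d hK hε hε0
    (fun p hp x _ => hx p hp x) O hO hfO isOpen_univ (subset_univ _)
  exact ⟨F, e1, e2, e3, e4, e5⟩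

end iso

end Run7.h60.Sc
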