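import Pool.Agent.Run7.h60.FAEst

/-!
# Families of almost affine maps: local statements near a point

The parameter space is a normed space `P`.
-/

set_option autoImplicit false

open Set Filter Topology Metric Function MeasureTheory
open scoped Manifold ContDiff

noncomputable section

namespace Run7.h60.Sc

open Pool.Agent.Y522

variable {n : ℕ} {P : Type} [NormedAddCommGroup P] [NormedSpace ℝ P]

/-- the map of the fibre -/
lemma part_contDiffAt {F : Type*} [NormedAddCommGroup F] [NormedSpace ℝ F] {G : P × E n → F}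
    {q : P × E n} (h : ContDiffAt ℝ ∞ G q) : ContDiffAt ℝ ∞ (fun z => G (q.1, z)) q.2 := by
  have h1 : ContDiffAt ℝ ∞ (fun z : E n => ((q.1, z) : P × E n)) q.2 :=
    contDiffAt_const.prodMk contDiffAt_id
  exact ContDiffAt.comp (f := fun z : E n => ((q.1, z) : P × E n)) q.2 h h1

lemma part_fderiv {F : Type*} [NormedAddCommGroup F] [NormedSpace ℝ F] {G : P × E n → F}
    {q : P × E n} (h : DifferentiableAt ℝ G q) :
    HasFDerivAt (fun z => G (q.1, z)) (fderiv ℝ G q ∘L ContinuousLinearMap.inr ℝ P (E n)) q.2 := by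
  have h1 : HasFDerivAt (fun z : E n => ((q.1, z) : P × E n)) (ContinuousLinearMap.inr ℝ P (E n))
      q.2 := hasFDerivAt_prodMk_right q.1 q.2
  exact HasFDerivAt.comp (f := fun z : E n => ((q.1, z) : P × E n)) q.2 h.hasFDerivAt h1

lemma norm_inr_le : ‖ContinuousLinearMap.inr ℝ P (E n)‖ ≤ 1 := by
  apply ContinuousLinearMap.opNorm_le_bound _ zero_le_one
  intro v
  rw [one_mul]
  change ‖((0 : P), v)‖ ≤ ‖v‖
  rw [Prod.norm_mk, norm_zero]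
  exact max_le (norm_nonneg _) le_rfl

/-- the family `h` is almost affine near `q₀` at the scales `ε m`, `m → ∞` -/
def AAQ (ε : ℕ → ℝ) (h : P × E n → E n) (q₀ : P × E n) (η : ℝ)
    (L : (P × E n) × ℕ → (E n ≃L[ℝ] E n)) : Prop :=
  (∀ᶠ q in 𝓝 q₀ ×ˢ atTop, AA (fun z => h (q.1.1, z)) q.1.2 (ε q.2) (L q) η) ∧
    Tendsto (fun q => sg (L q) (ε q.2)) (𝓝 q₀ ×ˢ atTop) (𝓝 0)

/-- the maps `G m` are smooth near `q₀` and close to `h` relative to `L` -/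
def NrQ (ε : ℕ → ℝ) (h : P × E n → E n) (q₀ : P × E n) (L : (P × E n) × ℕ → (E n ≃L[ℝ] E n))
    (G : ℕ → P × E n → E n) (C θ : ℝ) : Prop :=
  ∀ᶠ q in 𝓝 q₀ ×ˢ atTop, ContDiffAt ℝ ∞ (G q.2) q.1 ∧
    Nr (L q) (ε q.2) (h q.1) (G q.2 q.1) (fderiv ℝ (fun z => G q.2 (q.1.1, z)) q.1.2) C θ

/-- the maps `gh m` are close to `g` relative to `L` -/
def CLQ (ε : ℕ → ℝ) (g : P × E n → E n) (q₀ : P × E n) (L : (P × E n) × ℕ → (E n ≃L[ℝ] E n))
    (gh : ℕ → P × E n → E n) : Prop :=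
  ∀ c : ℝ, 0 < c → ∀ᶠ q in 𝓝 q₀ ×ˢ atTop, ∀ y : E n, ‖y‖ ≤ ε q.2 →
    ‖(L q).symm (gh q.2 (q.1.1, q.1.2 + y) - g (q.1.1, q.1.2 + y))‖ ≤ c * ε q.2

/-- the mollifications are smooth -/
def SMQ (ε : ℕ → ℝ) (q₀ : P × E n) (gh : ℕ → P × E n → E n) : Prop :=
  ∀ᶠ q in 𝓝 q₀ ×ˢ atTop,
    ContinuousOn (fun z => gh q.2 (q.1.1, z)) (closedBall q.1.2 (2 * ε q.2)) ∧
    ContDiffAt ℝ ∞ (fun q' : P × E n => mo (fun z => gh q.2 (q'.1, z)) (ε q.2) q'.2) q.1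

lemma AAQ.small {ε : ℕ → ℝ} (hε : ∀ m, 0 < ε m) {h : P × E n → E n} {q₀ : P × E n} {η : ℝ}
    {L : (P × E n) × ℕ → (E n ≃L[ℝ] E n)} (hA : AAQ ε h q₀ η L) :
    Tendsto (fun p => ‖(L p : E n →L[ℝ] E n)‖ * ε p.2) (𝓝 q₀ ×ˢ atTop) (𝓝 0) := by
  refine squeeze_zero (fun p => ?_) (fun p => norm_mul_le_sg _ (hε _).le) hA.2
  have := (hε p.2).le
  positivity

lemma tendsto_valQ {F : Type*} [TopologicalSpace F] {h : P × E n → F} {q₀ : P × E n}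
    (hc : ContinuousAt h q₀) :
    Tendsto (fun p : (P × E n) × ℕ => h p.1) (𝓝 q₀ ×ˢ atTop) (𝓝 (h q₀)) :=
  hc.tendsto.comp tendsto_fst

lemma tendsto_scaleQ {ε : ℕ → ℝ} (hε0 : Tendsto ε atTop (𝓝 0)) (q₀ : P × E n) :
    Tendsto (fun p : (P × E n) × ℕ => ε p.2) (𝓝 q₀ ×ˢ atTop) (𝓝 0) := hε0.comp tendsto_snd

/-- the values of `G` are close to the values of `h` -/
lemma NrQ.tendsto {ε : ℕ → ℝ} (hε : ∀ m, 0 < ε m) {h : P × E n → E n} {q₀ : P × E n} {η C θ : ℝ}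
    {L : (P × E n) × ℕ → (E n ≃L[ℝ] E n)} {G : ℕ → P × E n → E n} (hA : AAQ ε h q₀ η L)
    (hG : NrQ ε h q₀ L G C θ) (hc : ContinuousAt h q₀) :
    Tendsto (fun p : (P × E n) × ℕ => G p.2 p.1) (𝓝 q₀ ×ˢ atTop) (𝓝 (h q₀)) := by
  have h1 : Tendsto (fun p : (P × E n) × ℕ => G p.2 p.1 - h p.1) (𝓝 q₀ ×ˢ atTop) (𝓝 0) := by
    have h2 := (hA.small hε).const_mul C
    rw [mul_zero] at h2
    refine squeeze_zero_norm' ?_ h2
    filter_upwards [hG] with p hp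
    have := norm_sub_le_of_Nr hp.2.1
    refine this.trans (le_of_eq ?_)
    ring
  have h3 := h1.add (tendsto_valQ hc)
  simpa using h3

/-- change of the coordinates of the target -/
lemma AAQ.change {ε : ℕ → ℝ} (hε : ∀ m, 0 < ε m) {h : P × E n → E n} {μ : E n → E n}
    {q₀ : P × E n} {η η' : ℝ}
    {L : (P × E n) × ℕ → (E n ≃L[ℝ] E n)} (hA : AAQ ε h q₀ η L) (hη : 0 ≤ η) (hη' : η < η')
    (hc : ContinuousAt h q₀) (hμ : LD n μ (h q₀)) :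
    AAQ ε (fun z => μ (h z)) q₀ η' (fun p => (L p).trans (Dq μ (h p.1))) := by
  obtain ⟨Q, ρ, hQ1, hρ, hq⟩ := quad hμ
  have hQ0 : 0 ≤ Q := by linarith
  have e1 : ∀ᶠ p in 𝓝 q₀ ×ˢ atTop, h p.1 ∈ ball (h q₀) (ρ / 2) :=
    (tendsto_valQ hc).eventually (ball_mem_nhds _ (by linarith))
  have e2 : ∀ᶠ p in 𝓝 q₀ ×ˢ atTop, (1 + η) * (‖(L p : E n →L[ℝ] E n)‖ * ε p.2) < ρ / 2 := by
    have := (hA.small hε).const_mul (1 + η)
    rw [mul_zero] at this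
    exact this.eventually_lt_const (by linarith)
  have e3 : ∀ᶠ p in 𝓝 q₀ ×ˢ atTop,
      η + Q ^ 2 * (1 + η) ^ 2 * sg (L p) (ε p.2) < η' := by
    have := (hA.2.const_mul (Q ^ 2 * (1 + η) ^ 2)).const_add η
    rw [mul_zero, add_zero] at this
    exact this.eventually_lt_const hη'
  constructor
  · filter_upwards [e1, e2, e3, hA.1] with p h1 h2 h3 h4
    have hp := hq (h p.1) (ball_subset_ball (by linarith) h1)
    refine AA.mono (AA.change h4 (hε _).le hη hQ0 hp.2.2.1 ?_ le_rfl) (hε _).le h3.le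
    intro a ha
    refine (hp.2.2.2 a ?_).1
    rw [mem_ball, dist_eq_norm] at h1 ⊢
    calc ‖a - h q₀‖ = ‖(a - h p.1) + (h p.1 - h q₀)‖ := by congr 1; abel
      _ ≤ ‖a - h p.1‖ + ‖h p.1 - h q₀‖ := norm_add_le _ _
      _ < ρ / 2 + ρ / 2 := by
          refine add_lt_add_of_le_of_lt ?_ h1
          refine ha.trans (le_of_lt (lt_of_eq_of_lt ?_ h2))
          ring
      _ = ρ := by ring
  · have h5 := hA.2.const_mul (Q * Q ^ 2)
    rw [mul_zero] at h5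
    refine squeeze_zero' (Eventually.of_forall fun p => ?_) ?_ h5
    · unfold sg
      have := (hε p.2).le
      positivity
    · filter_upwards [e1] with p h1
      have hp := hq (h p.1) (ball_subset_ball (by linarith) h1)
      have hεp := (hε p.2).le
      have g1 : ‖((L p).trans (Dq μ (h p.1)) : E n →L[ℝ] E n)‖ ≤
          Q * ‖(L p : E n →L[ℝ] E n)‖ := by
        have : ((L p).trans (Dq μ (h p.1)) : E n →L[ℝ] E n) =
          (Dq μ (h p.1) : E n →L[ℝ] E n) ∘L (L p : E n →L[ℝ] E n) := rfl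
        rw [this]
        refine (ContinuousLinearMap.opNorm_comp_le _ _).trans ?_
        have := hp.2.1
        gcongr
      have g2 : ‖(((L p).trans (Dq μ (h p.1))).symm : E n →L[ℝ] E n)‖ ≤
          ‖((L p).symm : E n →L[ℝ] E n)‖ * Q := by
        have : (((L p).trans (Dq μ (h p.1))).symm : E n →L[ℝ] E n) =
          ((L p).symm : E n →L[ℝ] E n) ∘L ((Dq μ (h p.1)).symm : E n →L[ℝ] E n) := rfl
        rw [this]
        refine (ContinuousLinearMap.opNorm_comp_le _ _).trans ?_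
        have := hp.2.2.1
        gcongr
      unfold sg
      calc _ ≤ (‖((L p).symm : E n →L[ℝ] E n)‖ * Q) * (Q * ‖(L p : E n →L[ℝ] E n)‖) ^ 2 *
            ε p.2 := by gcongr
        _ = _ := by ring

lemma NrQ.change {ε : ℕ → ℝ} (hε : ∀ m, 0 < ε m) {h : P × E n → E n} {μ : E n → E n}
    {q₀ : P × E n}
    {η C C' θ θ' : ℝ} {L : (P × E n) × ℕ → (E n ≃L[ℝ] E n)} {G : ℕ → P × E n → E n}
    (hA : AAQ ε h q₀ η L) (hG : NrQ ε h q₀ L G C θ) (hC : 0 ≤ C) (hC' : C < C') (hθ : θ < θ')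
    (hc : ContinuousAt h q₀) (hμ : LD n μ (h q₀)) :
    NrQ ε (fun z => μ (h z)) q₀ (fun p => (L p).trans (Dq μ (h p.1)))
      (fun m z => μ (G m z)) C' θ' := by
  obtain ⟨Q, ρ, hQ1, hρ, hq⟩ := quad hμ
  have hQ0 : 0 ≤ Q := by linarith
  have e1 : ∀ᶠ p in 𝓝 q₀ ×ˢ atTop, h p.1 ∈ ball (h q₀) ρ :=
    (tendsto_valQ hc).eventually (ball_mem_nhds _ hρ)
  have e2 : ∀ᶠ p in 𝓝 q₀ ×ˢ atTop, G p.2 p.1 ∈ ball (h q₀) ρ :=
    (hG.tendsto hε hA hc).eventually (ball_mem_nhds _ hρ)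
  have e3 : ∀ᶠ p in 𝓝 q₀ ×ˢ atTop, C + Q ^ 2 * C ^ 2 * sg (L p) (ε p.2) < C' := by
    have := (hA.2.const_mul (Q ^ 2 * C ^ 2)).const_add C
    rw [mul_zero, add_zero] at this
    exact this.eventually_lt_const hC'
  have e4 : ∀ᶠ p in 𝓝 q₀ ×ˢ atTop, θ + Q ^ 2 * C * (1 + θ) * sg (L p) (ε p.2) < θ' := by
    have := (hA.2.const_mul (Q ^ 2 * C * (1 + θ))).const_add θ
    rw [mul_zero, add_zero] at this
    exact this.eventually_lt_const hθ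
  filter_upwards [e1, e2, e3, e4, hG] with p h1 h2 h3 h4 h5
  have hp := hq _ h1
  have hp2 := hq _ h2
  have hp3 := hp.2.2.2 _ h2
  have hd : fderiv ℝ (fun z => μ (G p.2 (p.1.1, z))) p.1.2 =
      fderiv ℝ μ (G p.2 p.1) ∘L fderiv ℝ (fun z => G p.2 (p.1.1, z)) p.1.2 :=
    fderiv_comp (𝕜 := ℝ) (g := μ) (f := fun z => G p.2 (p.1.1, z)) p.1.2
      (hp2.1.contDiffAt.differentiableAt (by simp))
      ((part_contDiffAt h5.1).differentiableAt (by simp))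
  refine ⟨ContDiffAt.comp p.1 (g := μ) hp2.1.contDiffAt h5.1, ?_⟩
  rw [hd]
  exact (Nr.change h5.2 (hε _).le hC hQ0 hp.2.2.1 hp3.1 hp3.2 le_rfl).mono (hε _).le h3.le h4.le

lemma NrQ.congr {ε : ℕ → ℝ} {h h' : P × E n → E n} {q₀ : P × E n} {C θ : ℝ}
    {L L' : (P × E n) × ℕ → (E n ≃L[ℝ] E n)} {G G' : ℕ → P × E n → E n}
    (hG : NrQ ε h q₀ L G C θ)
    (hh : h =ᶠ[𝓝 q₀] h') (hL : ∀ᶠ p in 𝓝 q₀ ×ˢ atTop, L p = L' p)
    (hGG : ∀ᶠ p in 𝓝 q₀ ×ˢ atTop, G p.2 p.1 = G' p.2 p.1) : NrQ ε h' q₀ L' G' C θ := by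
  have h1 : ∀ᶠ p : (P × E n) × ℕ in 𝓝 q₀ ×ˢ atTop, h p.1 = h' p.1 := tendsto_fst.eventually hh
  have h2 : ∀ᶠ p : (P × E n) × ℕ in 𝓝 q₀ ×ˢ atTop, G p.2 =ᶠ[𝓝 p.1] G' p.2 := by
    obtain ⟨P1, hP1, P2, hP2, hP⟩ := eventually_prod_iff.1 hGG
    have h3 : ∀ᶠ p : (P × E n) × ℕ in 𝓝 q₀ ×ˢ atTop, ∀ᶠ y in 𝓝 p.1, P1 y :=
      tendsto_fst.eventually (eventually_eventually_nhds.2 hP1)
    have h4 : ∀ᶠ p : (P × E n) × ℕ in 𝓝 q₀ ×ˢ atTop, P2 p.2 := tendsto_snd.eventually hP2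
    filter_upwards [h3, h4] with p g1 g2
    filter_upwards [g1] with y hy
    exact hP hy g2
  filter_upwards [hG, h1, h2, hL] with p g1 g2 g3 g4
  refine ⟨g1.1.congr_of_eventuallyEq g3.symm, ?_⟩
  have g5 : (fun z => G p.2 (p.1.1, z)) =ᶠ[𝓝 p.1.2] fun z => G' p.2 (p.1.1, z) := by
    have c1 : Tendsto (fun z : E n => ((p.1.1, z) : P × E n)) (𝓝 p.1.2) (𝓝 p.1) :=
      Continuous.tendsto (by fun_prop : Continuous fun z : E n => ((p.1.1, z) : P × E n)) p.1.2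
    exact c1.eventually g3
  rw [← g2, ← g4, ← g5.fderiv_eq, ← g3.self_of_nhds]
  exact g1.2

/-- interpolation -/
lemma NrQ.interp {ε : ℕ → ℝ} (hε : ∀ m, 0 < ε m) (hε0 : Tendsto ε atTop (𝓝 0))
    {h : P × E n → E n} {q₀ : P × E n} {C θ θ' : ℝ}
    {L : (P × E n) × ℕ → (E n ≃L[ℝ] E n)} {G G' : ℕ → P × E n → E n} {t : P × E n → ℝ}
    (hG : NrQ ε h q₀ L G C θ) (hG' : NrQ ε h q₀ L G' C θ) (hC : 0 ≤ C) (hθ : θ < θ')
    (ht : ∀ᶠ z in 𝓝 q₀, ContDiffAt ℝ ∞ t z) (ht0 : ∀ z, 0 ≤ t z) (ht1 : ∀ z, t z ≤ 1) :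
    NrQ ε h q₀ L (fun m z => G m z + t z • (G' m z - G m z)) C θ' := by
  have hc : ContinuousAt (fderiv ℝ t) q₀ :=
    (ht.self_of_nhds.fderiv_right (m := 0) (by simp)).continuousAt
  have e1 : ∀ᶠ z in 𝓝 q₀, ‖fderiv ℝ t z‖ ≤ ‖fderiv ℝ t q₀‖ + 1 :=
    hc.norm.eventually_le_const (by linarith)
  have e3 : ∀ᶠ p : (P × E n) × ℕ in 𝓝 q₀ ×ˢ atTop,
      θ + 2 * C * ε p.2 * (‖fderiv ℝ t q₀‖ + 1) < θ' := by
    have := (((tendsto_scaleQ hε0 q₀).const_mul (2 * C)).mul_const (‖fderiv ℝ t q₀‖ + 1)).const_add θ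
    rw [mul_zero, zero_mul, add_zero] at this
    exact this.eventually_lt_const hθ
  filter_upwards [hG, hG', tendsto_fst.eventually e1, tendsto_fst.eventually ht, e3] with
    p g1 g2 g3 g4 g5
  have d1 := ((part_contDiffAt g1.1).differentiableAt (by simp)).hasFDerivAt
  have d2 := ((part_contDiffAt g2.1).differentiableAt (by simp)).hasFDerivAt
  have d3 := part_fderiv (g4.differentiableAt (by simp))
  have d4 := d1.add (d3.smul (d2.sub d1))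
  refine ⟨g1.1.add (g4.smul (g2.1.sub g1.1)), ?_⟩
  have e4 : fderiv ℝ (fun z => G p.2 (p.1.1, z) + t (p.1.1, z) • (G' p.2 (p.1.1, z) -
      G p.2 (p.1.1, z))) p.1.2 = fderiv ℝ (fun z => G p.2 (p.1.1, z)) p.1.2 +
        t p.1 • (fderiv ℝ (fun z => G' p.2 (p.1.1, z)) p.1.2 -
          fderiv ℝ (fun z => G p.2 (p.1.1, z)) p.1.2) +
        (fderiv ℝ t p.1 ∘L ContinuousLinearMap.inr ℝ P (E n)).smulRight
          (G' p.2 p.1 - G p.2 p.1) := by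
    have := d4.fderiv
    rw [add_assoc]
    exact this
  rw [e4]
  refine (Nr.interp g1.2 g2.2 (hε _).le hC (ht0 _) (ht1 _) (τ := ‖fderiv ℝ t q₀‖ + 1) ?_).mono
    (hε _).le le_rfl g5.le
  refine (ContinuousLinearMap.opNorm_comp_le _ _).trans ?_
  calc _ ≤ (‖fderiv ℝ t q₀‖ + 1) * 1 := by
        have := norm_inr_le (n := n) (P := P)
        gcongr
    _ = _ := mul_one _

lemma AAQ.mono {ε : ℕ → ℝ} (hε : ∀ m, 0 < ε m) {h : P × E n → E n} {q₀ : P × E n} {η η' : ℝ}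
    {L : (P × E n) × ℕ → (E n ≃L[ℝ] E n)} (hA : AAQ ε h q₀ η L) (hη : η ≤ η') :
    AAQ ε h q₀ η' L :=
  ⟨hA.1.mono fun _ hp => hp.mono (hε _).le hη, hA.2⟩

lemma NrQ.mono {ε : ℕ → ℝ} (hε : ∀ m, 0 < ε m) {h : P × E n → E n} {q₀ : P × E n}
    {C C' θ θ' : ℝ} {L : (P × E n) × ℕ → (E n ≃L[ℝ] E n)} {G : ℕ → P × E n → E n}
    (hG : NrQ ε h q₀ L G C θ)
    (hC : C ≤ C') (hθ : θ ≤ θ') : NrQ ε h q₀ L G C' θ' :=
  Eventually.mono hG fun _ hp => ⟨hp.1, hp.2.mono (hε _).le hC hθ⟩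

/-- the mollification in other coordinates of the source -/
lemma NrQ.source {ε : ℕ → ℝ} (hε : ∀ m, 0 < ε m) (hε0 : Tendsto ε atTop (𝓝 0))
    {h g : P × E n → E n} {lam : E n → E n} {p₀ : P} {z₀ : E n} {η K θ : ℝ}
    {L L' : (P × E n) × ℕ → (E n ≃L[ℝ] E n)} {gh : ℕ → P × E n → E n}
    (hA : AAQ ε h (p₀, z₀) η L) (hA' : AAQ ε g (p₀, lam z₀) η L')
    (hη : 0 ≤ η) (hK : 1 ≤ K) (hlam : LD n lam z₀)
    (hlK : ∀ᶠ z in 𝓝 z₀, ‖(Dq lam z : E n →L[ℝ] E n)‖ ≤ K ∧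
      ‖((Dq lam z).symm : E n →L[ℝ] E n)‖ ≤ K)
    (hgl : ∀ᶠ q in 𝓝 (p₀, z₀), g (q.1, lam q.2) = h q)
    (hcl : CLQ ε g (p₀, lam z₀) L' gh) (hsm : SMQ ε (p₀, lam z₀) gh)
    (h8 : 8 * K ^ 2 * η < 1) (hθ : (8 + 2 * kc n) * K ^ 2 * η < θ) :
    NrQ ε h (p₀, z₀) L (fun m q => mo (fun z => gh m (q.1, z)) (ε m) (lam q.2)) (4 * K) θ := by
  obtain ⟨ζ, hζη, hζ8, hζθ⟩ : ∃ ζ, η < ζ ∧ 8 * K ^ 2 * ζ < 1 ∧ (8 + 2 * kc n) * K ^ 2 * ζ < θ := by
    have c1 : ∀ᶠ ζ in 𝓝 η, 8 * K ^ 2 * ζ < 1 :=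
      (Continuous.continuousAt (by fun_prop : Continuous fun ζ : ℝ => 8 * K ^ 2 * ζ)
        ).eventually_lt_const h8
    have c2 : ∀ᶠ ζ in 𝓝 η, (8 + 2 * kc n) * K ^ 2 * ζ < θ :=
      (Continuous.continuousAt (by fun_prop : Continuous fun ζ : ℝ => (8 + 2 * kc n) * K ^ 2 * ζ)
        ).eventually_lt_const hθ
    have c0 : ∀ᶠ ζ in 𝓝[>] η, η < ζ := self_mem_nhdsWithin
    obtain ⟨ζ, h1, h2, h3⟩ := (c0.and
      ((c1.filter_mono nhdsWithin_le_nhds).and (c2.filter_mono nhdsWithin_le_nhds))).exists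
    exact ⟨ζ, h1, h2, h3⟩
  obtain ⟨c, hc0, hcd⟩ : ∃ c : ℝ, 0 < c ∧ η + 2 * c < ζ := ⟨(ζ - η) / 4, by linarith, by linarith⟩
  obtain ⟨Q, ρ, hQ1, hρ, hq⟩ := quad hlam
  have hQ0 : 0 ≤ Q := by linarith
  obtain ⟨r, hr, hgl'⟩ := Metric.eventually_nhds_iff_ball.1 hgl
  have hlc : ContinuousAt (fun q : P × E n => (q.1, lam q.2)) (p₀, z₀) :=
    continuousAt_fst.prodMk (ContinuousAt.comp (g := lam) (f := Prod.snd) hlam.continuousAt
      continuousAt_snd)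
  have tl : Tendsto (fun p : (P × E n) × ℕ => ((p.1.1, lam p.1.2), p.2)) (𝓝 (p₀, z₀) ×ˢ atTop)
      (𝓝 (p₀, lam z₀) ×ˢ atTop) := (tendsto_valQ hlc).prodMk tendsto_snd
  have e1 : ∀ᶠ p : (P × E n) × ℕ in 𝓝 (p₀, z₀) ×ˢ atTop, p.1 ∈ ball (p₀, z₀) (min ρ r / 2) :=
    tendsto_fst.eventually (ball_mem_nhds _ (by positivity))
  have e2 : ∀ᶠ p : (P × E n) × ℕ in 𝓝 (p₀, z₀) ×ˢ atTop, ε p.2 < min ρ r / 2 :=
    (tendsto_scaleQ hε0 _).eventually_lt_const (by positivity)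
  have e5 : ∀ᶠ p : (P × E n) × ℕ in 𝓝 (p₀, z₀) ×ˢ atTop, η + 2 * c + Q * ε p.2 < ζ := by
    have := ((tendsto_scaleQ hε0 (p₀, z₀)).const_mul Q).const_add (η + 2 * c)
    rw [mul_zero, add_zero] at this
    exact this.eventually_lt_const hcd
  have e6 : ∀ᶠ p : (P × E n) × ℕ in 𝓝 (p₀, z₀) ×ˢ atTop, Q * ε p.2 < 1 := by
    have := (tendsto_scaleQ hε0 (p₀, z₀)).const_mul Q
    rw [mul_zero] at this
    exact this.eventually_lt_const one_pos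
  have hlK' : ∀ᶠ p : (P × E n) × ℕ in 𝓝 (p₀, z₀) ×ˢ atTop,
      ‖(Dq lam p.1.2 : E n →L[ℝ] E n)‖ ≤ K ∧ ‖((Dq lam p.1.2).symm : E n →L[ℝ] E n)‖ ≤ K := by
    have : Tendsto (fun p : (P × E n) × ℕ => p.1.2) (𝓝 (p₀, z₀) ×ˢ atTop) (𝓝 z₀) :=
      tendsto_valQ (h := Prod.snd) continuousAt_snd
    exact this.eventually hlK
  filter_upwards [e1, e2, tl.eventually hsm, tl.eventually (hcl c hc0), e5, e6, hA.1,
    tl.eventually hA'.1, hlK'] with p h1 h2 h3 h4 h5 h6 h7 h8' h9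
  have h1a : dist p.1.1 p₀ < min ρ r / 2 := by
    rw [mem_ball, Prod.dist_eq] at h1
    exact (le_max_left _ _).trans_lt h1
  have h1b : dist p.1.2 z₀ < min ρ r / 2 := by
    rw [mem_ball, Prod.dist_eq] at h1
    exact (le_max_right _ _).trans_lt h1
  have hmem : ∀ y : E n, ‖y‖ ≤ ε p.2 → dist (p.1.2 + y) z₀ < min ρ r := by
    intro y hy
    calc dist (p.1.2 + y) z₀ ≤ dist (p.1.2 + y) p.1.2 + dist p.1.2 z₀ := dist_triangle _ _ _
      _ < min ρ r / 2 + min ρ r / 2 := by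
          apply add_lt_add _ h1b
          rw [dist_eq_norm, add_sub_cancel_left]
          exact hy.trans_lt h2
      _ = min ρ r := by ring
  have hmem2 : ∀ y : E n, ‖y‖ ≤ ε p.2 → ((p.1.1, p.1.2 + y) : P × E n) ∈ ball (p₀, z₀) r := by
    intro y hy
    rw [mem_ball, Prod.dist_eq]
    refine max_lt ?_ ((hmem y hy).trans_le (min_le_right _ _))
    have h0 : 0 < min ρ r := by positivity
    have h00 : dist p.1.1 p₀ < min ρ r := by linarith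
    exact h00.trans_le (min_le_right _ _)
  have hp0 := hmem 0 (by rw [norm_zero]; exact (hε _).le)
  rw [add_zero] at hp0
  have hp := hq p.1.2 (mem_ball.2 (hp0.trans_le (min_le_left _ _)))
  have key := cmp_mo2 (h := fun z => h (p.1.1, z)) (g := fun z => g (p.1.1, z))
    (gh := fun z => gh p.2 (p.1.1, z)) (lam := lam) (z := p.1.2) (w := lam p.1.2)
    (T := Dq lam p.1.2) (ζ := ζ) (Q := Q) (c := c)
    (hε p.2) hK hη hc0.le h5.le hQ0 h6.le h7 h8' h9.1 h9.2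
    (by
      intro y hy
      have g1 := (hp.2.2.2 (p.1.2 + y) (mem_ball.2 ((hmem y hy).trans_le (min_le_left _ _)))).1
      rwa [add_sub_cancel_left] at g1)
    (fun y hy => hgl' _ (hmem2 y hy))
    (by
      have := hgl' _ (hmem2 0 (by rw [norm_zero]; exact (hε _).le))
      simpa using this) hζ8.le h3.1 h4
  have hs := part_contDiffAt h3.2
  have hd : fderiv ℝ (fun z => mo (fun z => gh p.2 (p.1.1, z)) (ε p.2) (lam z)) p.1.2 =
      fderiv ℝ (mo (fun z => gh p.2 (p.1.1, z)) (ε p.2)) (lam p.1.2) ∘L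
        (Dq lam p.1.2 : E n →L[ℝ] E n) := by
    rw [Dq_coe hp.1]
    exact fderiv_comp (𝕜 := ℝ) (g := mo (fun z => gh p.2 (p.1.1, z)) (ε p.2)) (f := lam) p.1.2
      (hs.differentiableAt (by simp)) (hp.1.contDiffAt.differentiableAt (by simp))
  have hjs : ContDiffAt ℝ ∞ (fun q : P × E n => ((q.1, lam q.2) : P × E n)) p.1 := by
    refine contDiffAt_fst.prodMk ?_
    exact ContDiffAt.comp (g := lam) (f := Prod.snd) p.1 hp.1.contDiffAt contDiffAt_snd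
  refine ⟨ContDiffAt.comp p.1
    (g := fun q' : P × E n => mo (fun z => gh p.2 (q'.1, z)) (ε p.2) q'.2)
    (f := fun q : P × E n => ((q.1, lam q.2) : P × E n)) h3.2 hjs, ?_⟩
  beta_reduce
  rw [hd]
  exact key.mono (hε _).le le_rfl hζθ.le

/-- the mollification in its own coordinates -/
lemma NrQ.self {ε : ℕ → ℝ} (hε : ∀ m, 0 < ε m)
    {g : P × E n → E n} {q₀ : P × E n} {η C θ : ℝ} {L : (P × E n) × ℕ → (E n ≃L[ℝ] E n)}
    {gh : ℕ → P × E n → E n} (hA : AAQ ε g q₀ η L) (hcl : CLQ ε g q₀ L gh) (hsm : SMQ ε q₀ gh)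
    (hC : 1 + η < C) (hθ : kc n * η < θ) :
    NrQ ε g q₀ L (fun m q => mo (fun z => gh m (q.1, z)) (ε m) q.2) C θ := by
  have hk : 0 ≤ kc n := kc_nonneg
  obtain ⟨c, hc0, hc1, hc2⟩ : ∃ c : ℝ, 0 < c ∧ 1 + η + 3 * c < C ∧ kc n * (η + 2 * c) < θ := by
    have c1 : ∀ᶠ c in 𝓝 (0 : ℝ), 1 + η + 3 * c < C := by
      refine (Continuous.continuousAt (by fun_prop : Continuous fun c : ℝ => 1 + η + 3 * c)
        ).eventually_lt_const ?_
      linarith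
    have c2 : ∀ᶠ c in 𝓝 (0 : ℝ), kc n * (η + 2 * c) < θ := by
      refine (Continuous.continuousAt (by fun_prop : Continuous fun c : ℝ => kc n * (η + 2 * c))
        ).eventually_lt_const ?_
      beta_reduce
      rw [mul_zero, add_zero]
      exact hθ
    have c0 : ∀ᶠ c in 𝓝[>] (0 : ℝ), 0 < c := self_mem_nhdsWithin
    obtain ⟨ζ, h1, h2, h3⟩ := (c0.and
      ((c1.filter_mono nhdsWithin_le_nhds).and (c2.filter_mono nhdsWithin_le_nhds))).exists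
    exact ⟨ζ, h1, h2, h3⟩
  filter_upwards [hA.1, hcl c hc0, hsm] with p h1 h2 h3
  have hA2 := h1.perturb (g := fun z => gh p.2 (p.1.1, z)) (hε _).le h2
  have h4 := mo_aa_val (hε _) h3.1 hA2
  have h5 := mo_aa (hε _) h3.1 hA2
  refine ⟨h3.2, ?_, h5.trans hc2.le⟩
  have e0 := h2 0 (by rw [norm_zero]; exact (hε _).le)
  rw [add_zero] at e0
  have e1 : (L p).symm (mo (fun z => gh p.2 (p.1.1, z)) (ε p.2) p.1.2 - g p.1) =
      (L p).symm (mo (fun z => gh p.2 (p.1.1, z)) (ε p.2) p.1.2 - gh p.2 (p.1.1, p.1.2)) +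
        (L p).symm (gh p.2 (p.1.1, p.1.2) - g (p.1.1, p.1.2)) := by
    simp only [map_sub]
    abel
  rw [e1]
  refine (norm_add_le _ _).trans ?_
  have := hε p.2
  calc _ ≤ (1 + (η + 2 * c)) * ε p.2 + c * ε p.2 := add_le_add h4 e0
    _ = (1 + η + 3 * c) * ε p.2 := by ring
    _ ≤ C * ε p.2 := by gcongr

end Run7.h60.Sc
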