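import Pool.Agent.Run7.h60.FALoc

/-!
# Families of almost affine maps: local statements near a point, second part
-/

set_option autoImplicit false

open Set Filter Topology Metric Function MeasureTheory
open scoped Manifold ContDiff

noncomputable section

namespace Run7.h60.Sc

open Pool.Agent.Y522

variable {n : ℕ} {P : Type} [NormedAddCommGroup P] [NormedSpace ℝ P]

/-- a smooth family of local diffeomorphisms near `q₀` -/
def SL (h : P × E n → E n) (q₀ : P × E n) : Prop :=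
  (∀ᶠ q in 𝓝 q₀, ContDiffAt ℝ ∞ h q) ∧ LD n (fun z => h (q₀.1, z)) q₀.2

/-- second order estimates for a family of local diffeomorphisms -/
lemma quadQ {h : P × E n → E n} {q₀ : P × E n} (hs : SL h q₀) :
    ∃ Q ρ : ℝ, 1 ≤ Q ∧ 0 < ρ ∧ ∀ q ∈ ball q₀ ρ, SL h q ∧
      ‖(Dq (fun z => h (q.1, z)) q.2 : E n →L[ℝ] E n)‖ ≤ Q ∧
      ‖((Dq (fun z => h (q.1, z)) q.2).symm : E n →L[ℝ] E n)‖ ≤ Q ∧
      ∀ a : E n, ((q.1, a) : P × E n) ∈ ball q₀ ρ →
        ‖h (q.1, a) - h q - Dq (fun z => h (q.1, z)) q.2 (a - q.2)‖ ≤ Q * ‖a - q.2‖ ^ 2 := by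
  obtain ⟨hs, hl⟩ := hs
  have hs0 := hs.self_of_nhds
  have hc1 : ContDiffAt ℝ 1 (fderiv ℝ h) q₀ :=
    (hs0.fderiv_right (m := ∞) (by simp)).of_le (by simp)
  obtain ⟨K, t, ht, hK⟩ := hc1.exists_lipschitzOnWith
  obtain ⟨D, hD⟩ : ∃ D : P × E n → (E n →L[ℝ] E n),
      D = fun q => fderiv ℝ h q ∘L ContinuousLinearMap.inr ℝ P (E n) := ⟨_, rfl⟩
  have hDa : ∀ q, D q = fderiv ℝ h q ∘L ContinuousLinearMap.inr ℝ P (E n) := fun q => by rw [hD]
  have hDf : ∀ q, ContDiffAt ℝ ∞ h q → HasFDerivAt (fun z => h (q.1, z)) (D q) q.2 := by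
    intro q hq
    rw [hDa]
    exact part_fderiv (hq.differentiableAt (by simp))
  have hcont : ContinuousAt D q₀ := by
    rw [hD]
    exact hc1.continuousAt.clm_comp continuousAt_const
  obtain ⟨A₀, hA₀⟩ := hl.exists_equiv
  have hDA : (A₀ : E n →L[ℝ] E n) = D q₀ := hA₀.unique (hDf q₀ hs0)
  have hinv : ContinuousAt (fun p => (D p).inverse) q₀ := by
    have h1 : ContinuousAt (ContinuousLinearMap.inverse : (E n →L[ℝ] E n) → (E n →L[ℝ] E n))
        (D q₀) := by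
      rw [← hDA]
      exact (contDiffAt_map_inverse (n := 0) A₀).continuousAt
    exact ContinuousAt.comp (f := D) h1 hcont
  have h2 : ∀ᶠ p in 𝓝 q₀, ‖D p‖ ≤ ‖D q₀‖ + 1 :=
    hcont.norm.eventually_le_const (by linarith)
  have h3 : ∀ᶠ p in 𝓝 q₀, ‖(D p).inverse‖ ≤ ‖(D q₀).inverse‖ + 1 :=
    hinv.norm.eventually_le_const (by linarith)
  have h4 : ∀ᶠ p in 𝓝 q₀, LD n (fun z => h (p.1, z)) p.2 := by
    have hB : 0 < ‖(A₀.symm : E n →L[ℝ] E n)‖ + 1 := by positivity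
    have c1 : ∀ᶠ p in 𝓝 q₀, ‖D p - D q₀‖ < 1 / (2 * (‖(A₀.symm : E n →L[ℝ] E n)‖ + 1)) := by
      have c2 : ContinuousAt (fun p => ‖D p - D q₀‖) q₀ := (hcont.sub continuousAt_const).norm
      refine c2.eventually_lt_const ?_
      beta_reduce
      rw [sub_self, norm_zero]
      positivity
    filter_upwards [c1, eventually_eventually_nhds.2 hs] with p g1 g2
    refine Pool.Agent.Y207.SH3.LD_of_pos ?_ fun u hu h0 => ?_
    · have c3 : Tendsto (fun z : E n => ((p.1, z) : P × E n)) (𝓝 p.2) (𝓝 p) :=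
        Continuous.tendsto (by fun_prop : Continuous fun z : E n => ((p.1, z) : P × E n)) p.2
      filter_upwards [c3.eventually g2] with z hz
      exact part_contDiffAt (q := (p.1, z)) hz
    · rw [(hDf p g2.self_of_nhds).fderiv] at h0
      have g3 := (D p - D q₀).le_opNorm u
      rw [ContinuousLinearMap.sub_apply, h0, zero_sub, norm_neg, hu, mul_one, ← hDA] at g3
      have g4 := (A₀.symm : E n →L[ℝ] E n).le_opNorm (A₀ u)
      rw [ContinuousLinearEquiv.coe_coe, A₀.symm_apply_apply, hu] at g4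
      have g5 : ‖A₀ u‖ < 1 / (2 * (‖(A₀.symm : E n →L[ℝ] E n)‖ + 1)) := by
        refine lt_of_le_of_lt g3 ?_
        rw [hDA]
        exact g1
      have g6 : (‖(A₀.symm : E n →L[ℝ] E n)‖ + 1) *
          (1 / (2 * (‖(A₀.symm : E n →L[ℝ] E n)‖ + 1))) = 1 / 2 := by
        field_simp
      nlinarith [norm_nonneg (A₀ u), norm_nonneg (A₀.symm : E n →L[ℝ] E n)]
  obtain ⟨ρ, hρ, hb⟩ := Metric.eventually_nhds_iff_ball.1
    ((eventually_eventually_nhds.2 hs).and (h2.and (h3.and (h4.and ht))))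
  obtain ⟨Q, hQd⟩ : ∃ Q, Q = max (max 1 (K : ℝ)) (max (‖D q₀‖ + 1)
    (‖(D q₀).inverse‖ + 1)) := ⟨_, rfl⟩
  have hQ1 : 1 ≤ Q := by rw [hQd]; exact (le_max_left _ _).trans (le_max_left _ _)
  have hQ2 : (K : ℝ) ≤ Q := by rw [hQd]; exact (le_max_right _ _).trans (le_max_left _ _)
  have hQ3 : ‖D q₀‖ + 1 ≤ Q := by
    rw [hQd]; exact (le_max_left _ _).trans (le_max_right _ _)
  have hQ4 : ‖(D q₀).inverse‖ + 1 ≤ Q := by
    rw [hQd]; exact (le_max_right _ _).trans (le_max_right _ _)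
  refine ⟨Q, ρ, hQ1, hρ, fun p hp => ?_⟩
  obtain ⟨g1, g2, g3, g4, g5⟩ := hb p hp
  have hDp : (Dq (fun z => h (p.1, z)) p.2 : E n →L[ℝ] E n) = D p := by
    rw [Dq_coe g4, (hDf p g1.self_of_nhds).fderiv]
  refine ⟨⟨g1, g4⟩, ?_, ?_, fun a ha => ?_⟩
  · rw [hDp]
    exact g2.trans hQ3
  · have e1 : ((Dq (fun z => h (p.1, z)) p.2).symm : E n →L[ℝ] E n) = (D p).inverse := by
      rw [← hDp, ContinuousLinearMap.inverse_equiv]
    rw [e1]
    exact g3.trans hQ4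
  · have hlip : ∀ x : E n, ((p.1, x) : P × E n) ∈ ball q₀ ρ →
        ‖D (p.1, x) - D p‖ ≤ Q * ‖x - p.2‖ := by
      intro x hx
      have h5 := hK.dist_le_mul (p.1, x) (hb _ hx).2.2.2.2 p g5
      rw [dist_eq_norm, dist_eq_norm] at h5
      have h6 : ‖((p.1, x) : P × E n) - p‖ = ‖x - p.2‖ := by
        have : ((p.1, x) : P × E n) - p = (0, x - p.2) := by
          ext <;> simp
        rw [this, Prod.norm_mk, norm_zero]
        exact max_eq_right (norm_nonneg _)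
      rw [h6] at h5
      have h7 : D (p.1, x) - D p = (fderiv ℝ h (p.1, x) - fderiv ℝ h p) ∘L
          ContinuousLinearMap.inr ℝ P (E n) := by
        rw [hDa, hDa]
        ext v
        simp
      rw [h7]
      refine (ContinuousLinearMap.opNorm_comp_le _ _).trans ?_
      calc _ ≤ ((K : ℝ) * ‖x - p.2‖) * 1 := by
            have := norm_inr_le (n := n) (P := P)
            gcongr
        _ ≤ Q * ‖x - p.2‖ := by
            rw [mul_one]
            gcongr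
    have hsegm : ∀ x ∈ segment ℝ p.2 a, ((p.1, x) : P × E n) ∈ ball q₀ ρ := by
      intro x hx
      have h5 : ((p.1, x) : P × E n) ∈ segment ℝ ((p.1, p.2) : P × E n) (p.1, a) := by
        obtain ⟨s, s', hs, hs', hss, rfl⟩ := hx
        refine ⟨s, s', hs, hs', hss, ?_⟩
        ext1
        · change s • p.1 + s' • p.1 = p.1
          rw [← add_smul, hss, one_smul]
        · rfl
      exact (convex_ball q₀ ρ).segment_subset hp ha h5
    have h5 := (convex_segment p.2 a).norm_image_sub_le_of_norm_hasFDerivWithin_le'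
      (f := fun z => h (p.1, z)) (f' := fun z => D (p.1, z)) (φ := D p) (C := Q * ‖a - p.2‖)
      (x := p.2) (y := a)
      (fun x hx => (hDf (p.1, x) (hb _ (hsegm x hx)).1.self_of_nhds).hasFDerivWithinAt)
      (fun x hx => by
        refine (hlip x (hsegm x hx)).trans ?_
        have : ‖x - p.2‖ ≤ ‖a - p.2‖ := by
          obtain ⟨s, s', hs, hs', hss, rfl⟩ := hx
          have e1 : s • p.2 + s' • a - p.2 = s' • (a - p.2) := by
            have e2 : s = 1 - s' := by linarith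
            rw [e2, sub_smul, one_smul, smul_sub]
            abel
          rw [e1, norm_smul, Real.norm_of_nonneg hs']
          calc s' * ‖a - p.2‖ ≤ 1 * ‖a - p.2‖ := by
                gcongr
                linarith
            _ = ‖a - p.2‖ := one_mul _
        gcongr) (left_mem_segment _ _ _) (right_mem_segment _ _ _)
    have e1 : Dq (fun z => h (p.1, z)) p.2 (a - p.2) = D p (a - p.2) := by rw [← hDp]; rfl
    rw [e1]
    refine h5.trans (le_of_eq ?_)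
    ring

/-- smooth families are almost affine -/
lemma AAQ.of_SL {ε : ℕ → ℝ} (hε : ∀ m, 0 < ε m) (hε0 : Tendsto ε atTop (𝓝 0))
    {h : P × E n → E n} {q₀ : P × E n} {η : ℝ} (hh : SL h q₀) (hη : 0 < η) :
    AAQ ε h q₀ η (fun p => Dq (fun z => h (p.1.1, z)) p.1.2) := by
  obtain ⟨Q, ρ, hQ1, hρ, hq⟩ := quadQ hh
  have hQ0 : 0 ≤ Q := by linarith
  have e1 : ∀ᶠ p : (P × E n) × ℕ in 𝓝 q₀ ×ˢ atTop, p.1 ∈ ball q₀ (ρ / 2) :=
    tendsto_fst.eventually (ball_mem_nhds _ (by positivity))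
  have e2 : ∀ᶠ p : (P × E n) × ℕ in 𝓝 q₀ ×ˢ atTop, ε p.2 < ρ / 2 :=
    (tendsto_scaleQ hε0 q₀).eventually_lt_const (by positivity)
  have e3 : ∀ᶠ p : (P × E n) × ℕ in 𝓝 q₀ ×ˢ atTop, Q * Q * ε p.2 < η := by
    have := (tendsto_scaleQ hε0 q₀).const_mul (Q * Q)
    rw [mul_zero] at this
    exact this.eventually_lt_const hη
  constructor
  · filter_upwards [e1, e2, e3] with p h1 h2 h3 y hy
    have hp := hq p.1 (ball_subset_ball (by linarith) h1)
    have hy' : ((p.1.1, p.1.2 + y) : P × E n) ∈ ball q₀ ρ := by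
      rw [mem_ball] at h1 ⊢
      calc dist ((p.1.1, p.1.2 + y) : P × E n) q₀
          ≤ dist ((p.1.1, p.1.2 + y) : P × E n) p.1 + dist p.1 q₀ := dist_triangle _ _ _
        _ < ρ / 2 + ρ / 2 := by
            apply add_lt_add _ h1
            rw [Prod.dist_eq, dist_self, dist_eq_norm, add_sub_cancel_left]
            exact max_lt (by positivity) (hy.trans_lt h2)
        _ = ρ := by ring
    have g1 := hp.2.2.2 _ hy'
    rw [add_sub_cancel_left] at g1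
    have g2 : (Dq (fun z => h (p.1.1, z)) p.1.2).symm (h (p.1.1, p.1.2 + y) - h (p.1.1, p.1.2)) -
        y = (Dq (fun z => h (p.1.1, z)) p.1.2).symm (h (p.1.1, p.1.2 + y) - h (p.1.1, p.1.2) -
          Dq (fun z => h (p.1.1, z)) p.1.2 y) := by
      rw [map_sub (Dq (fun z => h (p.1.1, z)) p.1.2).symm
        (h (p.1.1, p.1.2 + y) - h (p.1.1, p.1.2)),
        (Dq (fun z => h (p.1.1, z)) p.1.2).symm_apply_apply]
    rw [g2]
    calc _ ≤ ‖((Dq (fun z => h (p.1.1, z)) p.1.2).symm : E n →L[ℝ] E n)‖ *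
          ‖h (p.1.1, p.1.2 + y) - h (p.1.1, p.1.2) - Dq (fun z => h (p.1.1, z)) p.1.2 y‖ :=
          ((Dq (fun z => h (p.1.1, z)) p.1.2).symm : E n →L[ℝ] E n).le_opNorm _
      _ ≤ Q * (Q * ‖y‖ ^ 2) := by
          have := hp.2.2.1
          gcongr
      _ ≤ Q * (Q * ε p.2 ^ 2) := by gcongr
      _ = (Q * Q * ε p.2) * ε p.2 := by ring
      _ ≤ η * ε p.2 := by
          have := (hε p.2).le
          gcongr
  · have h5 := (tendsto_scaleQ hε0 q₀).const_mul (Q * Q ^ 2)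
    rw [mul_zero] at h5
    refine squeeze_zero' (Eventually.of_forall fun p => ?_) ?_ h5
    · unfold sg
      have := (hε p.2).le
      positivity
    · filter_upwards [e1] with p h1
      have hp := hq p.1 (ball_subset_ball (by linarith) h1)
      have h2 := hp.2.1
      have h3 := hp.2.2.1
      have h4 := (hε p.2).le
      unfold sg
      gcongr

/-- the bound for the inverse of the derivative -/
lemma SL.bound {h : P × E n → E n} {q₀ : P × E n} (hh : SL h q₀) :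
    ∃ Q : ℝ, 0 ≤ Q ∧ ∀ᶠ q in 𝓝 q₀,
      ‖((Dq (fun z => h (q.1, z)) q.2).symm : E n →L[ℝ] E n)‖ ≤ Q := by
  obtain ⟨Q, ρ, hQ1, hρ, hq⟩ := quadQ hh
  refine ⟨Q, by linarith, ?_⟩
  filter_upwards [ball_mem_nhds q₀ hρ] with q h1
  exact (hq q h1).2.2.1

lemma SL.eventually {h : P × E n → E n} {q₀ : P × E n} (hh : SL h q₀) :
    ∀ᶠ q in 𝓝 q₀, SL h q := by
  obtain ⟨Q, ρ, hQ1, hρ, hq⟩ := quadQ hh
  filter_upwards [ball_mem_nhds q₀ hρ] with q h1
  exact (hq q h1).1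

lemma NrQ.of_SL {ε : ℕ → ℝ} {h : P × E n → E n} {q₀ : P × E n} (hh : SL h q₀) :
    NrQ ε h q₀ (fun p => Dq (fun z => h (p.1.1, z)) p.1.2) (fun _ => h) 0 0 := by
  have h1 : ∀ᶠ p : (P × E n) × ℕ in 𝓝 q₀ ×ˢ atTop, SL h p.1 :=
    tendsto_fst.eventually hh.eventually
  filter_upwards [h1] with p hp
  refine ⟨hp.1.self_of_nhds, ?_, ?_⟩
  · rw [sub_self, map_zero, norm_zero, zero_mul]
  · rw [← Dq_coe hp.2]
    have : ((Dq (fun z => h (p.1.1, z)) p.1.2).symm : E n →L[ℝ] E n) ∘L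
        (Dq (fun z => h (p.1.1, z)) p.1.2 : E n →L[ℝ] E n) = (ContinuousLinearMap.id ℝ (E n)) := by
      ext1 v
      simp
    rw [this, sub_self, norm_zero]

/-- the maps are smooth families of local diffeomorphisms -/
lemma NrQ.sl {ε : ℕ → ℝ} {h : P × E n → E n} {q₀ : P × E n} {C θ : ℝ}
    {L : (P × E n) × ℕ → (E n ≃L[ℝ] E n)} {G : ℕ → P × E n → E n} (hG : NrQ ε h q₀ L G C θ)
    (hθ : θ < 1) :
    ∀ᶠ p : (P × E n) × ℕ in 𝓝 q₀ ×ˢ atTop, SL (G p.2) p.1 := by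
  obtain ⟨P1, hP1, P2, hP2, hP⟩ := eventually_prod_iff.1 hG
  have h3 : ∀ᶠ p : (P × E n) × ℕ in 𝓝 q₀ ×ˢ atTop, ∀ᶠ y in 𝓝 p.1, P1 y :=
    tendsto_fst.eventually (eventually_eventually_nhds.2 hP1)
  have h4 : ∀ᶠ p : (P × E n) × ℕ in 𝓝 q₀ ×ˢ atTop, P2 p.2 := tendsto_snd.eventually hP2
  filter_upwards [h3, h4] with p g1 g2
  refine ⟨?_, Pool.Agent.Y207.SH3.LD_of_pos ?_ fun u hu h0 => ?_⟩
  · filter_upwards [g1] with y hy
    exact (hP hy g2).1
  · have c3 : Tendsto (fun z : E n => ((p.1.1, z) : P × E n)) (𝓝 p.1.2) (𝓝 p.1) :=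
      Continuous.tendsto (by fun_prop : Continuous fun z : E n => ((p.1.1, z) : P × E n)) p.1.2
    filter_upwards [c3.eventually g1] with z hz
    exact part_contDiffAt (q := (p.1.1, z)) (hP hz g2).1
  · have h5 := (hP g1.self_of_nhds g2).2.2
    have h6 := (((L (p.1, p.2)).symm : E n →L[ℝ] E n) ∘L
      fderiv ℝ (fun z => G p.2 (p.1.1, z)) p.1.2 - (ContinuousLinearMap.id ℝ (E n))).le_opNorm u
    have h7 : (((L (p.1, p.2)).symm : E n →L[ℝ] E n) ∘L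
      fderiv ℝ (fun z => G p.2 (p.1.1, z)) p.1.2 - (ContinuousLinearMap.id ℝ (E n))) u = - u := by
      simp [h0]
    rw [h7, norm_neg, hu, mul_one] at h6
    linarith

/-- one full step, in a fixed coordinate system -/
lemma NrQ.step {ε : ℕ → ℝ} (hε : ∀ m, 0 < ε m) (hε0 : Tendsto ε atTop (𝓝 0))
    {h g : P × E n → E n} {lam μ ν : E n → E n} {p₀ : P} {z₀ : E n} {η K C θ : ℝ}
    {G gh : ℕ → P × E n → E n} {t : P × E n → ℝ}
    {L L' : (P × E n) × ℕ → (E n ≃L[ℝ] E n)} (hA : AAQ ε h (p₀, z₀) η L)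
    (hA' : AAQ ε g (p₀, lam z₀) η L')
    (hη : 0 ≤ η) (hK : 1 ≤ K) (hlam : LD n lam z₀)
    (hlK : ∀ᶠ z in 𝓝 z₀, ‖(Dq lam z : E n →L[ℝ] E n)‖ ≤ K ∧
      ‖((Dq lam z).symm : E n →L[ℝ] E n)‖ ≤ K)
    (hc : ContinuousAt h (p₀, z₀)) (hμ : LD n μ (h (p₀, z₀))) (hν : LD n ν (μ (h (p₀, z₀))))
    (hνμ : ∀ᶠ y in 𝓝 (h (p₀, z₀)), ν (μ y) = y)
    (hgl : ∀ᶠ q in 𝓝 (p₀, z₀), g (q.1, lam q.2) = μ (h q))
    (hcl : CLQ ε g (p₀, lam z₀) L' gh) (hsm : SMQ ε (p₀, lam z₀) gh)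
    (ht : ∀ᶠ z in 𝓝 (p₀, z₀), ContDiffAt ℝ ∞ t z) (ht0 : ∀ z, 0 ≤ t z) (ht1 : ∀ z, t z ≤ 1)
    (h8 : 8 * K ^ 2 * η < 1) (hθ1 : (8 + 2 * kc n) * K ^ 2 * η < 1) (hC : 0 ≤ C) (hθ : θ < 1)
    (hG : NrQ ε h (p₀, z₀) L G C θ) :
    ∃ C' θ' : ℝ, 0 ≤ C' ∧ θ' < 1 ∧ NrQ ε h (p₀, z₀) L
      (fun m q => ν (μ (G m q) + t q • (mo (fun z => gh m (q.1, z)) (ε m) (lam q.2) -
        μ (G m q)))) C' θ' := by
  obtain ⟨θ₁, h11, h12⟩ := exists_between (max_lt hθ hθ1)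
  obtain ⟨θ₂, h21, h22⟩ := exists_between h12
  obtain ⟨θ₃, h31, h32⟩ := exists_between h22
  rw [max_lt_iff] at h11
  obtain ⟨η', hη'1, hη'2, hη'3⟩ : ∃ ζ, η < ζ ∧ 8 * K ^ 2 * ζ < 1 ∧
      (8 + 2 * kc n) * K ^ 2 * ζ < θ₁ := by
    have c1 : ∀ᶠ ζ in 𝓝 η, 8 * K ^ 2 * ζ < 1 :=
      (Continuous.continuousAt (by fun_prop : Continuous fun ζ : ℝ => 8 * K ^ 2 * ζ)
        ).eventually_lt_const h8
    have c2 : ∀ᶠ ζ in 𝓝 η, (8 + 2 * kc n) * K ^ 2 * ζ < θ₁ :=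
      (Continuous.continuousAt (by fun_prop : Continuous fun ζ : ℝ => (8 + 2 * kc n) * K ^ 2 * ζ)
        ).eventually_lt_const h11.2
    have c0 : ∀ᶠ ζ in 𝓝[>] η, η < ζ := self_mem_nhdsWithin
    obtain ⟨ζ, h1, h2, h3⟩ := (c0.and
      ((c1.filter_mono nhdsWithin_le_nhds).and (c2.filter_mono nhdsWithin_le_nhds))).exists
    exact ⟨ζ, h1, h2, h3⟩
  have hA1 := hA.change hε hη hη'1 hc hμ
  have hc1 : ContinuousAt (fun z => μ (h z)) (p₀, z₀) :=
    ContinuousAt.comp (f := h) (g := μ) hμ.continuousAt hc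
  obtain ⟨C₁, hC₁⟩ : ∃ C₁, C₁ = max C (4 * K) + 1 := ⟨_, rfl⟩
  have hC1 : C < C₁ := by rw [hC₁]; linarith [le_max_left C (4 * K)]
  have hC2 : 4 * K ≤ C₁ := by rw [hC₁]; linarith [le_max_right C (4 * K)]
  have hC0 : 0 ≤ C₁ := hC.trans hC1.le
  have a1 := NrQ.change hε hA hG hC hC1 h11.1 hc hμ
  have a2 := (NrQ.source hε hε0 hA1 (hA'.mono hε hη'1.le) (hη.trans hη'1.le) hK hlam hlK hgl hcl
    hsm hη'2 hη'3).mono hε hC2 le_rfl
  have a3 := NrQ.interp hε hε0 a1 a2 hC0 h21 ht ht0 ht1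
  have a4 := NrQ.change hε hA1 a3 hC0 (lt_add_one C₁) h31 hc1 hν
  refine ⟨C₁ + 1, θ₃, by linarith, h32, a4.congr ?_ ?_ (Eventually.of_forall fun _ => rfl)⟩
  · filter_upwards [hc.eventually hνμ] with z hz
    exact hz
  · have b1 : ∀ᶠ y in 𝓝 (h (p₀, z₀)), LD n ν (μ y) := hμ.continuousAt.eventually hν.eventually
    have b2 : ∀ᶠ y in 𝓝 (h (p₀, z₀)), ∀ᶠ y' in 𝓝 y, ν (μ y') = y' :=
      eventually_eventually_nhds.2 hνμ
    have b3 := (tendsto_valQ hc).eventually (b1.and (b2.and hμ.eventually))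
    filter_upwards [b3] with p hp
    obtain ⟨g1, g2, g3⟩ := hp
    have g4 : (Dq ν (μ (h p.1)) : E n →L[ℝ] E n) ∘L (Dq μ (h p.1) : E n →L[ℝ] E n) = (ContinuousLinearMap.id ℝ (E n)) := by
      rw [Dq_coe g1, Dq_coe g3]
      have g5 : HasFDerivAt (fun y => ν (μ y))
          (fderiv ℝ ν (μ (h p.1)) ∘L fderiv ℝ μ (h p.1)) (h p.1) :=
        HasFDerivAt.comp (h p.1) (g := ν) (f := μ)
          (g1.contDiffAt.differentiableAt (by simp)).hasFDerivAt
          (g3.contDiffAt.differentiableAt (by simp)).hasFDerivAt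
      have g6 : HasFDerivAt (fun y => ν (μ y)) (ContinuousLinearMap.id ℝ (E n)) (h p.1) :=
        (hasFDerivAt_id (h p.1)).congr_of_eventuallyEq g2
      exact g5.unique g6
    refine ContinuousLinearEquiv.ext (funext fun v => ?_)
    exact DFunLike.congr_fun g4 (L p v)

end Run7.h60.Sc
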