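import Pool.Agent.Run7.h60.FABox
import Pool.Agent.Run7.h60.AAMain

/-!
# Families of almost affine maps: the main theorem
-/

set_option autoImplicit false

open Set Filter Topology Metric Function MeasureTheory
open scoped Manifold ContDiff

noncomputable section

namespace Run7.h60.Sc

open Pool.Agent.Y522 Pool.Agent.R765

section main

variable {n : ℕ} {P X Y : Type} [NormedAddCommGroup P] [NormedSpace ℝ P]
    [TopologicalSpace X] [TopologicalSpace Y]
    [ChartedSpace (E n) X] [ChartedSpace (E n) Y]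

/-- the family `f` is almost affine at `q₀` at the scales `ε m` -/
def AffAtF (d : X → X → ℝ) (K η : ℝ) (ε : ℕ → ℝ) (f : P × X → Y) (q₀ : P × X) : Prop :=
  ∃ (A : E n → X) (B : Y → E n), A 0 = q₀.2 ∧ LD n A 0 ∧ LD n B (f q₀) ∧ BiLip d K A ∧
    ∃ (ρ : ℝ) (L : (P × E n) × ℕ → (E n ≃L[ℝ] E n)), 0 < ρ ∧
      (∀ᶠ m in atTop, ∀ p : P, dist p q₀.1 < ρ → ∀ z : E n, ‖z‖ < ρ →
        AA (fun z => B (f (p, A z))) z (ε m) (L ((p, z), m)) η) ∧
      ∀ δ : ℝ, 0 < δ → ∀ᶠ m in atTop, ∀ p : P, dist p q₀.1 < ρ → ∀ z : E n, ‖z‖ < ρ →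
        sg (L ((p, z), m)) (ε m) ≤ δ

/-- a box -/
lemma exists_boxF {f : C(P × X, Y)} {d : X → X → ℝ} {K η : ℝ} {ε : ℕ → ℝ} (hε : ∀ m, 0 < ε m)
    {q₀ : P × X} (h : AffAtF (n := n) d K η ε f q₀) {W : Set (P × X)} (hW : W ∈ 𝓝 q₀) :
    ∃ b : By n f, b.c = q₀.1 ∧ b.A 0 = q₀.2 ∧ b.C ⊆ W ∧ (∀ z ∈ closedBall (0 : E n) (2 * b.r),
        ∀ w ∈ closedBall (0 : E n) (2 * b.r), d (b.A z) (b.A w) ≤ K * ‖z - w‖ ∧
          ‖z - w‖ ≤ K * d (b.A z) (b.A w)) ∧
      ∃ L : (P × E n) × ℕ → (E n ≃L[ℝ] E n), ∀ q : P × E n, q.1 ∈ closedBall b.c b.r →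
        q.2 ∈ closedBall (0 : E n) b.r → AAQ ε b.h q η L := by
  obtain ⟨A, B, hA0, hA, hB, hd, ρ, L, hρ, h1, h2⟩ := h
  obtain ⟨u, hu, hui⟩ := hB.eventually_injOn
  obtain ⟨V, hV, hVo, hxV⟩ := mem_nhds_iff.1 (Filter.inter_mem hu hB.eventually)
  obtain ⟨v, hv, hvi⟩ := hA.eventually_injOn
  have hfA : ∀ᶠ q in 𝓝 ((q₀.1, 0) : P × E n), f (q.1, A q.2) ∈ V ∧ (q.1, A q.2) ∈ W := by
    have c0 : ContinuousAt (fun q : P × E n => (q.1, A q.2)) (q₀.1, 0) :=
      continuousAt_fst.prodMk (ContinuousAt.comp (g := A) (f := Prod.snd)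
        hA.continuousAt continuousAt_snd)
    have c1 : ContinuousAt (fun q : P × E n => f (q.1, A q.2)) (q₀.1, 0) :=
      f.continuous.continuousAt.comp c0
    refine (c1.eventually (hVo.mem_nhds ?_)).and (c0.eventually ?_)
    · change f (q₀.1, A 0) ∈ V
      rw [hA0]
      exact hxV
    · change ∀ᶠ y in 𝓝 (q₀.1, A 0), y ∈ W
      rw [hA0]
      exact hW
  obtain ⟨s₀, hs₀, hsb₀⟩ := Metric.eventually_nhds_iff_ball.1 hfA
  obtain ⟨s, hs, hsb⟩ := Metric.eventually_nhds_iff_ball.1 (hA.eventually.and hv)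
  unfold BiLip at hd
  rw [← Prod.mk_zero_zero, nhds_prod_eq] at hd
  obtain ⟨P1, hP1, P2, hP2, hP⟩ := eventually_prod_iff.1 hd
  obtain ⟨s', hs', hsb'⟩ := Metric.eventually_nhds_iff_ball.1 (hP1.and hP2)
  obtain ⟨r, hr, hr0, hr1, hr2, hr3⟩ : ∃ r : ℝ, 0 < r ∧ 2 * r < s₀ ∧ 2 * r < s ∧ 2 * r < s' ∧
      2 * r < ρ := by
    refine ⟨min (min s₀ s) (min s' ρ) / 4, by positivity, ?_, ?_, ?_, ?_⟩
    · have := (min_le_left (min s₀ s) (min s' ρ)).trans (min_le_left s₀ s)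
      linarith
    · have := (min_le_left (min s₀ s) (min s' ρ)).trans (min_le_right s₀ s)
      linarith
    · have := (min_le_right (min s₀ s) (min s' ρ)).trans (min_le_left s' ρ)
      linarith
    · have := (min_le_right (min s₀ s) (min s' ρ)).trans (min_le_right s' ρ)
      linarith
  have hin : ∀ z ∈ closedBall (0 : E n) (2 * r), z ∈ ball (0 : E n) s := fun z hz =>
    closedBall_subset_ball hr1 hz
  have hin' : ∀ z ∈ closedBall (0 : E n) (2 * r), z ∈ ball (0 : E n) s' := fun z hz =>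
    closedBall_subset_ball hr2 hz
  refine ⟨{ c := q₀.1, A := A, B := B, V := V, r := r, hr := hr
            hAi := fun a ha a' ha' haa => hvi (hsb a (hin a ha)).2 (hsb a' (hin a' ha')).2 haa
            hAd := fun z hz => (hsb z (hin z hz)).1
            hV := hVo
            hBi := hui.mono fun y hy => (hV hy).1
            hBd := fun y hy => (hV hy).2
            hfV := fun p hp z hz => (hsb₀ (p, z) (by
              rw [mem_ball, Prod.dist_eq]
              rw [mem_closedBall] at hp hz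
              exact max_lt (hp.trans_lt hr0) (hz.trans_lt hr0))).1 }, rfl, hA0, ?_, ?_, L, ?_⟩
  · rintro ⟨p, x⟩ ⟨hp, z, hz, hzx⟩
    have hp' : dist p q₀.1 ≤ r := mem_closedBall.1 hp
    have hz' : dist z 0 ≤ r := mem_closedBall.1 hz
    have hzx' : A z = x := hzx
    have h3 := (hsb₀ (p, z) (by
      rw [mem_ball, Prod.dist_eq]
      exact max_lt (hp'.trans_lt (by linarith)) (hz'.trans_lt (by linarith)))).2
    change (p, A z) ∈ W at h3
    rwa [hzx'] at h3
  · intro z hz w hw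
    exact hP (hsb' z (hin' z hz)).1 (hsb' w (hin' w hw)).2
  · intro q hq1 hq2
    have hq1' : dist q.1 q₀.1 < ρ := by
      have := mem_closedBall.1 hq1
      change dist q.1 q₀.1 ≤ r at this
      linarith
    have hz' : ‖q.2‖ < ρ := by
      have := mem_closedBall_zero_iff.1 hq2
      change ‖q.2‖ ≤ r at this
      linarith
    have h3 : ∀ᶠ p : (P × E n) × ℕ in 𝓝 q ×ˢ atTop, dist p.1.1 q₀.1 < ρ ∧ ‖p.1.2‖ < ρ := by
      have c1 : ContinuousAt (fun p : P × E n => dist p.1 q₀.1) q := by fun_prop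
      have c2 : ContinuousAt (fun p : P × E n => ‖p.2‖) q := by fun_prop
      exact tendsto_fst.eventually ((c1.eventually_lt_const hq1').and
        (c2.eventually_lt_const hz'))
    constructor
    · filter_upwards [h3, tendsto_snd.eventually h1] with p g1 g2
      exact g2 p.1.1 g1.1 p.1.2 g1.2
    · rw [Metric.tendsto_nhds]
      intro δ hδ
      filter_upwards [h3, tendsto_snd.eventually (h2 (δ / 2) (by linarith))] with p g1 g2
      rw [Real.dist_0_eq_abs, abs_of_nonneg]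
      · have := g2 p.1.1 g1.1 p.1.2 g1.2
        change sg (L ((p.1.1, p.1.2), p.2)) (ε p.2) < δ
        linarith
      · unfold sg
        have := (hε p.2).le
        positivity

/-- restriction of a homotopy to a fibre -/
lemma HomRel.fib {O : Set ((P × X) × Y)} {D : Set (P × X)} {f g : C(P × X, Y)}
    (h : HomRel O D f g) (p : P) :
    HomRel {w : X × Y | ((p, w.1), w.2) ∈ O} {x | (p, x) ∈ D}
      (⟨fun x => f (p, x), by fun_prop⟩ : C(X, Y)) ⟨fun x => g (p, x), by fun_prop⟩ := by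
  obtain ⟨H⟩ := h
  refine HomRel.of_fun (fun w => H.toHomotopy (w.1, (p, w.2))) ?_ ?_ ?_ ?_ ?_
  · exact H.toHomotopy.continuous.comp (by fun_prop)
  · intro x
    exact H.apply_zero (p, x)
  · intro x
    exact H.apply_one (p, x)
  · intro s x
    exact (H.prop' s (p, x)).1
  · intro s x hx
    exact (H.prop' s (p, x)).2 hx

lemma exists_lower {ι : Type} [Finite ι] (d : ι → ℝ) (hd : ∀ i, 0 < d i) {e : ℝ} (he : 0 < e) :
    ∃ δ : ℝ, 0 < δ ∧ δ ≤ e ∧ ∀ i, δ ≤ d i := by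
  have h1 : ∀ᶠ δ : ℝ in 𝓝[>] 0, ∀ i, δ ≤ d i :=
    eventually_all.2 fun i => eventually_nhdsWithin_of_eventually_nhds
      ((eventually_lt_nhds (hd i)).mono fun _ h => h.le)
  have h2 : ∀ᶠ δ : ℝ in 𝓝[>] 0, δ ≤ e := eventually_nhdsWithin_of_eventually_nhds
      ((eventually_lt_nhds he).mono fun _ h => h.le)
  have h3 : ∀ᶠ δ : ℝ in 𝓝[>] 0, 0 < δ := self_mem_nhdsWithin
  obtain ⟨δ, h⟩ := (h1.and (h2.and h3)).exists
  exact ⟨δ, h.2.2, h.2.1, h.1⟩

variable [FiniteDimensional ℝ P] [T2Space X]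

/-- **Families of homeomorphisms which are almost affine at small scales.** -/
theorem affFamily (f : P → X ≃ₜ Y) (hf : Continuous fun q : P × X => f q.1 q.2)
    (d : X → X → ℝ) {K : ℝ} (hK : 1 ≤ K)
    {ε : ℕ → ℝ} (hε : ∀ m, 0 < ε m) (hε0 : Tendsto ε atTop (𝓝 0)) (O : Set ((P × X) × Y))
    (hx : ∀ q : P × X, SF n (fun q => f q.1 q.2) q ∨
      AffAtF (n := n) d K (eta n K) ε (fun q => f q.1 q.2) q)
    (hB : IsCompact {q : P × X | ¬ SF n (fun q => f q.1 q.2) q})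
    (hO : IsOpen O) (hfO : ∀ q : P × X, (q, f q.1 q.2) ∈ O)
    (W : Set (P × X)) (hW : IsOpen W)
    (hBW : ∀ q : P × X, ¬ SF n (fun q => f q.1 q.2) q → q ∈ W) :
    ∃ (F : C(P × X, Y)) (D : Set (P × X)), IsCompact D ∧ (D ⊆ W) ∧
      (∀ p, Bijective fun x => F (p, x)) ∧
      (∀ q, SF n F q) ∧ HomRel O D (⟨_, hf⟩ : C(P × X, Y)) F := by
  classical
  obtain ⟨F, hF⟩ : ∃ F : C(P × X, Y), F = ⟨_, hf⟩ := ⟨_, rfl⟩
  have hFf : ∀ q : P × X, F q = f q.1 q.2 := fun q => by rw [hF]; rfl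
  have hFf' : (F : P × X → Y) = fun q => f q.1 q.2 := funext hFf
  have hop : ∀ p, IsOpenMap fun x => F (p, x) := by
    intro p
    have e1 : (fun x => F (p, x)) = f p := funext fun x => hFf (p, x)
    rw [e1]
    exact (f p).isOpenMap
  have hin : ∀ p, Injective fun x => F (p, x) := by
    intro p
    have e1 : (fun x => F (p, x)) = f p := funext fun x => hFf (p, x)
    rw [e1]
    exact (f p).injective
  have hbox : ∀ q ∈ {q | ¬ SF n F q}, ∃ b : By n F, b.c = q.1 ∧ b.A 0 = q.2 ∧ b.C ⊆ W ∧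
      (∀ z ∈ closedBall (0 : E n) (2 * b.r),
        ∀ w ∈ closedBall (0 : E n) (2 * b.r), d (b.A z) (b.A w) ≤ K * ‖z - w‖ ∧
          ‖z - w‖ ≤ K * d (b.A z) (b.A w)) ∧
      ∃ L : (P × E n) × ℕ → (E n ≃L[ℝ] E n), ∀ q : P × E n, q.1 ∈ closedBall b.c b.r →
        q.2 ∈ closedBall (0 : E n) b.r → AAQ ε b.h q (eta n K) L := by
    intro q hq
    refine exists_boxF (f := F) hε ?_ (hW.mem_nhds (hBW q (by rw [← hFf']; exact hq)))
    rw [hFf']
    refine (hx q).resolve_left ?_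
    rw [← hFf']
    exact hq
  choose b hbc hb0 hbW hb1 hb2 using hbox
  have hU : ∀ q (hq : q ∈ {q | ¬ SF n F q}),
      ball (b q hq).c ((b q hq).r / 2) ×ˢ ((b q hq).A '' ball 0 ((b q hq).r / 2)) ∈ 𝓝 q := by
    intro q hq
    have hr := (b q hq).hr
    have h2 : LD n (b q hq).A 0 := (b q hq).hAd 0 (by
      rw [mem_closedBall_zero_iff, norm_zero]
      linarith)
    have h3 := h2.image_mem_nhds (ball_mem_nhds (0 : E n) (by linarith : 0 < (b q hq).r / 2))
    rw [hb0 q hq] at h3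
    refine prod_mem_nhds ?_ h3
    rw [hbc q hq]
    exact ball_mem_nhds _ (by linarith)
  have hB' : IsCompact {q | ¬ SF n F q} := by
    rw [hFf']
    exact hB
  obtain ⟨t, ht⟩ := hB'.elim_nhds_subcover' (fun q hq =>
    ball (b q hq).c ((b q hq).r / 2) ×ˢ ((b q hq).A '' ball 0 ((b q hq).r / 2))) hU
  obtain ⟨c, hc⟩ : ∃ c : ↥t → By n F, ∀ i, c i = b i.1.1 i.1.2 := ⟨_, fun _ => rfl⟩
  have hcov : ∀ q : P × X, ¬ SF n F q → ∃ i, dist q.1 (c i).c < (c i).r / 2 ∧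
      ∃ z : E n, ‖z‖ < (c i).r / 2 ∧ (c i).A z = q.2 := by
    intro x hx
    obtain ⟨y, hy, h1, z, hz, hzx⟩ := mem_iUnion₂.1 (ht hx)
    refine ⟨⟨y, hy⟩, ?_, z, ?_, ?_⟩
    · rw [hc]
      exact mem_ball.1 h1
    · rw [hc]
      exact mem_ball_zero_iff.1 hz
    · rw [hc]
      exact hzx
  have hd1 : ∀ i, ∀ z ∈ closedBall (0 : E n) (2 * (c i).r),
        ∀ w ∈ closedBall (0 : E n) (2 * (c i).r), d ((c i).A z) ((c i).A w) ≤ K * ‖z - w‖ := by
    intro i
    rw [hc]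
    exact fun z hz w hw => (hb1 _ i.1.2 z hz w hw).1
  have hd2 : ∀ i, ∀ z ∈ closedBall (0 : E n) (2 * (c i).r),
        ∀ w ∈ closedBall (0 : E n) (2 * (c i).r), ‖z - w‖ ≤ K * d ((c i).A z) ((c i).A w) := by
    intro i
    rw [hc]
    exact fun z hz w hw => (hb1 _ i.1.2 z hz w hw).2
  have hAA : ∀ i, ∃ L : (P × E n) × ℕ → (E n ≃L[ℝ] E n), ∀ q : P × E n,
      q.1 ∈ closedBall (c i).c (c i).r →
        q.2 ∈ closedBall (0 : E n) (c i).r → AAQ ε (c i).h q (eta n K) L := by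
    intro i
    rw [hc]
    exact hb2 _ i.1.2
  -- the bounds
  have hΛ : ∀ i : ↥t, ∀ m : ℕ, ∃ Λ : ℝ, 0 ≤ Λ ∧ (ε m ≤ (c i).r / 2 →
      ∀ p ∈ closedBall (c i).c (3 / 2 * (c i).r),
      ∀ z ∈ closedBall (0 : E n) (3 / 2 * (c i).r), ∀ L : E n ≃L[ℝ] E n,
        AA (fun z => (c i).h (p, z)) z (ε m) L (eta n K) → ‖(L.symm : E n →L[ℝ] E n)‖ ≤ Λ) := by
    intro i m
    by_cases h : ε m ≤ (c i).r / 2
    · obtain ⟨Λ, h0, h1⟩ := box_bound (c i) hop hin (hε m) h (eta_pos (n := n) hK).le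
      exact ⟨Λ, h0, fun _ => h1⟩
    · exact ⟨0, le_rfl, fun h' => absurd h' h⟩
  choose Λi hΛi0 hΛi using hΛ
  have htf : Fintype ↥t := inferInstance
  obtain ⟨Λ, hΛd⟩ : ∃ Λ : ℕ → ℝ, ∀ m, Λ m = ∑ i, Λi i m + m := ⟨_, fun _ => rfl⟩
  have hΛm : ∀ m : ℕ, (m : ℝ) ≤ Λ m := by
    intro m
    rw [hΛd]
    have : 0 ≤ ∑ i, Λi i m := Finset.sum_nonneg fun i _ => hΛi0 i m
    linarith
  have hΛ0 : ∀ m, 0 ≤ Λ m := fun m => (Nat.cast_nonneg m).trans (hΛm m)
  have hΛle : ∀ i m, Λi i m ≤ Λ m := by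
    intro i m
    rw [hΛd]
    have := Finset.single_le_sum (f := fun i => Λi i m) (fun i _ => hΛi0 i m) (Finset.mem_univ i)
    have h2 : (0 : ℝ) ≤ m := Nat.cast_nonneg m
    linarith
  obtain ⟨κ, hκd⟩ : ∃ κ : ℕ → ℝ, ∀ m, κ m = 1 / (((m : ℝ) + 1) * (1 + Λ m)) := ⟨_, fun _ => rfl⟩
  have hκ0 : ∀ m, 0 < κ m := by
    intro m
    rw [hκd]
    have := hΛ0 m
    positivity
  have hΛκ : Tendsto (fun m => Λ m * κ m) atTop (𝓝 0) := by
    refine squeeze_zero (fun m => mul_nonneg (hΛ0 m) (hκ0 m).le) (fun m => ?_)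
      tendsto_one_div_add_atTop_nhds_zero_nat
    rw [hκd]
    have h1 := hΛ0 m
    rw [mul_one_div, div_le_div_iff₀ (by positivity) (by positivity)]
    have h2 : (0 : ℝ) ≤ m := Nat.cast_nonneg m
    nlinarith
  have hδ : ∀ m : ℕ, ∃ δ : ℝ, 0 < δ ∧ δ ≤ 1 / ((m : ℝ) + 1) ∧ ∀ i : ↥t,
      ∀ p ∈ closedBall (c i).c (2 * (c i).r), ∀ p' ∈ closedBall (c i).c (2 * (c i).r),
      dist p' p < δ →
      ∀ z ∈ closedBall (0 : E n) (2 * (c i).r), ‖(c i).h (p', z) - (c i).h (p, z)‖ ≤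
        κ m * ε m := by
    intro m
    have h1 : ∀ i : ↥t, ∃ d : ℝ, 0 < d ∧ ∀ p ∈ closedBall (c i).c (2 * (c i).r),
        ∀ p' ∈ closedBall (c i).c (2 * (c i).r), dist p' p < d →
        ∀ z ∈ closedBall (0 : E n) (2 * (c i).r), ‖(c i).h (p', z) - (c i).h (p, z)‖ ≤
          κ m * ε m := fun i =>
      box_radius (h := (c i).h) (c := (c i).c) (c i).r (fun p hp z hz => (c i).hcont hp hz)
        (mul_pos (hκ0 m) (hε m))
    choose di hdi hdi2 using h1
    obtain ⟨δ, hδ, hδ1, hδ2⟩ := exists_lower di hdi (e := 1 / ((m : ℝ) + 1)) (by positivity)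
    exact ⟨δ, hδ, hδ1, fun i p hp p' hp' hpp => hdi2 i p hp p' hp' (hpp.trans_le (hδ2 i))⟩
  choose δ hδ hδ1 hδ2 using hδ
  have hδ0 : Tendsto δ atTop (𝓝 0) :=
    squeeze_zero (fun m => (hδ m).le) hδ1 tendsto_one_div_add_atTop_nhds_zero_nat
  choose ρ hρ using fun m => exists_pu (P := P) (hδ m)
  have hCL : ∀ (i : ↥t) (q : P × E n), q.1 ∈ closedBall (c i).c (c i).r →
      q.2 ∈ closedBall (0 : E n) (c i).r → ∀ L : (P × E n) × ℕ → (E n ≃L[ℝ] E n),
      (∀ᶠ q in 𝓝 q ×ˢ atTop, ‖((L q).symm : E n →L[ℝ] E n)‖ ≤ Λ q.2) →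
      CLQ ε (c i).h q L (fun m => av (ρ m) (c i).h) := by
    intro i q hq1 hq2 L hL
    exact box_CLQ (c i).hr hε hε0 hδ0 hρ (fun m => hδ2 m i) (fun m => (hκ0 m).le) hΛκ
      (ballP_sub hq1) (ballF_sub hq2) hL
  have hg : ∀ x, ∃ K' η, GdF c ε (fun i m => av (ρ m) (c i).h) x K' η := by
    intro x
    by_cases hx' : SF n F x
    · -- a good point: the constants depend on the point
      have hQ : ∀ p : ↥t × ↥t, ∃ Q : ℝ, ∀ z ∈ closedBall (0 : E n) (c p.1).r,
          ∀ w ∈ closedBall (0 : E n) (c p.2).r, (c p.1).A z = x.2 → (c p.2).A w = x.2 →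
          ∀ᶠ z' in 𝓝 z, ‖(Dq (fun y => (c p.2).α ((c p.1).A y)) z' : E n →L[ℝ] E n)‖ ≤ Q ∧
          ‖((Dq (fun y => (c p.2).α ((c p.1).A y)) z').symm : E n →L[ℝ] E n)‖ ≤ Q := by
        intro p
        by_cases hp : ∃ z ∈ closedBall (0 : E n) (c p.1).r, ∃ w ∈ closedBall (0 : E n) (c p.2).r,
            (c p.1).A z = x.2 ∧ (c p.2).A w = x.2
        · obtain ⟨z, hz, w, hw, hzx, hwx⟩ := hp
          have hlam : LD n (fun y => (c p.2).α ((c p.1).A y)) z := by
            refine LD.comp_fun ?_ ((c p.1).hAd z (ball_subset_closedBall (ballF_sub2 hz)))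
            rw [hzx, ← hwx]
            exact (c p.2).α_LD (ballF_sub2 hw)
          obtain ⟨Q, ρ, -, hρ, hq⟩ := quad hlam
          refine ⟨Q, fun z₁ hz₁ w₁ hw₁ hz₁x hw₁x => ?_⟩
          have e1 : z₁ = z := (c p.1).hAi (ball_subset_closedBall (ballF_sub2 hz₁))
            (ball_subset_closedBall (ballF_sub2 hz)) (by rw [hz₁x, hzx])
          rw [e1]
          filter_upwards [ball_mem_nhds z hρ] with z' hz'
          exact ⟨(hq z' hz').2.1, (hq z' hz').2.2.1⟩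
        · exact ⟨0, fun z hz w hw hzx hwx => absurd ⟨z, hz, w, hw, hzx, hwx⟩ hp⟩
      choose Q hQ using hQ
      obtain ⟨K', hK'1, hK'⟩ : ∃ K' : ℝ, 1 ≤ K' ∧ ∀ p, Q p ≤ K' := by
        obtain ⟨M, hM⟩ := (Set.finite_range Q).bddAbove
        exact ⟨max M 1, le_max_right _ _, fun p => (hM (mem_range_self p)).trans (le_max_left _ _)⟩
      have hkc : 0 ≤ kc n := kc_nonneg
      have hK'0 : 0 < K' := by linarith
      refine ⟨K', 1 / ((9 + 2 * kc n) * K' ^ 2), hK'1, by positivity, ?_, ?_, ?_, ?_⟩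
      · rw [mul_one_div, div_lt_one (by positivity)]
        have : 0 < K' ^ 2 := by positivity
        nlinarith
      · rw [mul_one_div, div_lt_one (by positivity)]
        have : 0 < K' ^ 2 := by positivity
        nlinarith
      · intro i hpi z hz hzx
        have hz2' := ball_subset_closedBall (ballF_sub2 hz)
        have hq : x = (x.1, (c i).A z) := by rw [hzx]
        have hh : SL (c i).h (x.1, z) := by
          refine SF.coord (G := F) ?_ ((c i).hAd z hz2')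
            ((c i).hBd _ ((c i).hfV x.1 (ballP_sub2 hpi) z hz2'))
          rw [← hq]
          exact hx'
        refine ⟨_, AAQ.of_SL hε hε0 hh (by positivity), ?_⟩
        refine hCL i (x.1, z) hpi hz _ ?_
        obtain ⟨Q', -, hQ'⟩ := hh.bound
        have h4 : ∀ᶠ m : ℕ in atTop, Q' ≤ (m : ℝ) :=
          tendsto_natCast_atTop_atTop.eventually_ge_atTop Q'
        filter_upwards [tendsto_fst.eventually hQ', tendsto_snd.eventually h4] with q g1 g2
        exact g1.trans (g2.trans (hΛm _))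
      · intro i j z hz w hw hzx hwx
        filter_upwards [hQ (i, j) z hz w hw hzx hwx] with z' hz'
        exact ⟨hz'.1.trans (hK' _), hz'.2.trans (hK' _)⟩
    · -- a bad point
      refine ⟨K ^ 2, eta n K, one_le_pow₀ hK, eta_pos hK, (eta_lt hK).1, (eta_lt hK).2, ?_, ?_⟩
      · intro i hpi z hz hzx
        obtain ⟨L, hL⟩ := hAA i
        refine ⟨L, hL (x.1, z) hpi hz, ?_⟩
        refine hCL i (x.1, z) hpi hz _ ?_
        have a1 : ∀ᶠ q : (P × E n) × ℕ in 𝓝 (x.1, z) ×ˢ atTop,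
            q.1.1 ∈ ball (c i).c (3 / 2 * (c i).r) :=
          (tendsto_valQ (h := Prod.fst) continuousAt_fst).eventually
            (isOpen_ball.mem_nhds (ballP_sub hpi))
        have a2 : ∀ᶠ q : (P × E n) × ℕ in 𝓝 (x.1, z) ×ˢ atTop,
            q.1.2 ∈ ball (0 : E n) (3 / 2 * (c i).r) :=
          (tendsto_valQ (h := Prod.snd) continuousAt_snd).eventually
            (isOpen_ball.mem_nhds (ballF_sub hz))
        have a3 : ∀ᶠ q : (P × E n) × ℕ in 𝓝 (x.1, z) ×ˢ atTop, ε q.2 < (c i).r / 2 :=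
          (tendsto_scaleQ hε0 _).eventually_lt_const (by
            have := (c i).hr
            positivity)
        filter_upwards [a1, a2, a3, (hL (x.1, z) hpi hz).1] with q g1 g2 g3 g4
        exact (hΛi i q.2 g3.le q.1.1 (ball_subset_closedBall g1) q.1.2
          (ball_subset_closedBall g2) (L q) g4).trans (hΛle i q.2)
      · intro i j z hz w hw hzx hwx
        have h1 := transF_lip hK (hd1 i) (hd2 j) hz hw (hzx.trans hwx.symm)
        have h2 := transF_lip hK (hd1 j) (hd2 i) hw hz (hwx.trans hzx.symm)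
        have h3 := transF_symm hz hw (hzx.trans hwx.symm)
        have c1 : ContinuousAt (fun y => (c j).α ((c i).A y)) z := by
          have : ContinuousAt (c j).α ((c i).A z) := by
            rw [hzx, ← hwx]
            exact ((c j).α_LD (ballF_sub2 hw)).continuousAt
          exact ContinuousAt.comp (g := (c j).α) (f := (c i).A) this
            ((c i).hAd z (ball_subset_closedBall (ballF_sub2 hz))).continuousAt
        have e1 : (c j).α ((c i).A z) = w := by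
          rw [hzx, ← hwx, (c j).α_A (ball_subset_closedBall (ballF_sub2 hw))]
        rw [← e1] at h2
        filter_upwards [h1, c1.eventually h2, h3] with z' g1 g2 g3
        refine ⟨g1, ?_⟩
        rw [g3]
        exact g2
  obtain ⟨G, D, hD, hDc, hG1, hG2⟩ := globF c hε hε0 hδ0 hρ hg hcov
  obtain ⟨m, hm1, hm2⟩ := ((hG1 O hO (fun x => by rw [hFf]; exact hfO x)).and hG2).exists
  refine ⟨G m, D, hD, hDc.trans (iUnion_subset fun i => by rw [hc]; exact hbW _ _), fun p => ?_,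
    hm2, by rw [← hF]; exact hm1⟩
  have : T2Space Y := (f p).t2Space
  have hl : IsLocalDiffeomorph (𝓡 n) (𝓡 n) ∞ (fun x => G m (p, x)) := fun x => (hm2 (p, x)).2
  have hD' : IsCompact {x | (p, x) ∈ D} := by
    have e1 : {x | (p, x) ∈ D} = Prod.snd '' (D ∩ (Prod.fst ⁻¹' {p})) := by
      ext x
      constructor
      · intro hx
        exact ⟨(p, x), ⟨hx, rfl⟩, rfl⟩
      · rintro ⟨⟨p', x'⟩, ⟨h1, h2⟩, h3⟩
        have h2' : p' = p := h2
        have h3' : x' = x := h3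
        rw [h2', h3'] at h1
        exact h1
    rw [e1]
    exact (hD.inter_right (isClosed_singleton.preimage continuous_fst)).image continuous_snd
  have hfib := HomRel.fib hm1 p
  have e2 : (⟨fun x => F (p, x), by fun_prop⟩ : C(X, Y)) = ⟨f p, (f p).continuous⟩ := by
    ext x
    exact hFf (p, x)
  rw [e2] at hfib
  exact bijective_of_homRel (f p) (⟨fun x => G m (p, x), by fun_prop⟩ : C(X, Y))
    hl.isLocalHomeomorph _ _ hD' hfib

end main

end Run7.h60.Sc
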