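import Pool.Agent.Run7.h60.FAAvg

/-!
# Families of almost affine maps: one stage
-/

set_option autoImplicit false

open Set Filter Topology Metric Function MeasureTheory
open scoped Manifold ContDiff

noncomputable section

namespace Run7.h60.Sc

open Pool.Agent.Y522 Pool.Agent.R765

/-- coordinates of the source and of the target of the family `f` -/
structure By (n : ℕ) {P X Y : Type} [NormedAddCommGroup P] [NormedSpace ℝ P]
    [TopologicalSpace X] [TopologicalSpace Y] [ChartedSpace (E n) X]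
    [ChartedSpace (E n) Y] (f : C(P × X, Y)) where
  /-- centre in the parameter space -/
  c : P
  /-- parametrization of the source -/
  A : E n → X
  /-- coordinates of the target -/
  B : Y → E n
  /-- domain of `B` -/
  V : Set Y
  /-- radius -/
  r : ℝ
  hr : 0 < r
  hAi : InjOn A (closedBall 0 (2 * r))
  hAd : ∀ z ∈ closedBall (0 : E n) (2 * r), LD n A z
  hV : IsOpen V
  hBi : InjOn B V
  hBd : ∀ y ∈ V, LD n B y
  hfV : ∀ p ∈ closedBall c (2 * r), ∀ z ∈ closedBall (0 : E n) (2 * r), f (p, A z) ∈ V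

namespace By

variable {n : ℕ} {P X Y : Type} [NormedAddCommGroup P] [NormedSpace ℝ P]
    [TopologicalSpace X] [TopologicalSpace Y] [ChartedSpace (E n) X]
    [ChartedSpace (E n) Y] {f : C(P × X, Y)} (b : By n f)

/-- the map in the coordinates -/
def h (q : P × E n) : E n := b.B (f (q.1, b.A q.2))

/-- the image of the ball in the source -/
def CX : Set X := b.A '' closedBall 0 b.r

/-- the image of the product of the balls -/
def C : Set (P × X) := closedBall b.c b.r ×ˢ b.CX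

/-- the inverse of `A` -/
def α : X → E n := invFunOn b.A (closedBall 0 (2 * b.r))

lemma α_A {z : E n} (hz : z ∈ closedBall (0 : E n) (2 * b.r)) : b.α (b.A z) = z :=
  b.hAi.leftInvOn_invFunOn hz

lemma sub_closedBall {z : E n} (hz : z ∈ ball (0 : E n) (3 / 2 * b.r)) :
    z ∈ closedBall (0 : E n) (2 * b.r) := by
  have := b.hr
  exact ball_subset_closedBall (ball_subset_ball (by linarith) hz)

lemma sub_closedBall' {z : E n} (hz : z ∈ closedBall (0 : E n) (3 / 2 * b.r)) :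
    z ∈ closedBall (0 : E n) (2 * b.r) := by
  have := b.hr
  exact closedBall_subset_closedBall (by linarith) hz

lemma subP {p : P} (hp : p ∈ closedBall b.c (3 / 2 * b.r)) :
    p ∈ closedBall b.c (2 * b.r) := by
  have := b.hr
  exact closedBall_subset_closedBall (by linarith) hp

lemma hcont {p : P} (hp : p ∈ closedBall b.c (2 * b.r)) {z : E n}
    (hz : z ∈ closedBall (0 : E n) (2 * b.r)) : ContinuousAt b.h (p, z) := by
  have h0 : ContinuousAt (fun q : P × E n => (q.1, b.A q.2)) (p, z) :=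
    continuousAt_fst.prodMk (ContinuousAt.comp (g := b.A) (f := Prod.snd)
      (b.hAd z hz).continuousAt continuousAt_snd)
  have h1 : ContinuousAt (fun q : P × E n => f (q.1, b.A q.2)) (p, z) :=
    f.continuous.continuousAt.comp h0
  exact ContinuousAt.comp (g := b.B) (f := fun q : P × E n => f (q.1, b.A q.2))
    (b.hBd _ (b.hfV p hp z hz)).continuousAt h1

lemma α_LD {z : E n} (hz : z ∈ ball (0 : E n) (2 * b.r)) : LD n b.α (b.A z) :=
  LD.inverse isOpen_ball (fun x hx => b.hAd x (ball_subset_closedBall hx))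
    (fun x hx => b.α_A (ball_subset_closedBall hx)) hz

lemma isOpen_image : IsOpen (b.A '' ball 0 (3 / 2 * b.r)) :=
  isOpen_image_of_LD isOpen_ball fun x hx => b.hAd x (b.sub_closedBall hx)

lemma isCompact_CX : IsCompact b.CX := by
  apply (isCompact_closedBall _ _).image_of_continuousOn
  intro z hz
  refine (b.hAd z ?_).continuousAt.continuousWithinAt
  have := b.hr
  exact closedBall_subset_closedBall (by linarith) hz

lemma isCompact_C [FiniteDimensional ℝ P] : IsCompact b.C := by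
  have hprop : ProperSpace P := FiniteDimensional.proper ℝ P
  exact (isCompact_closedBall _ _).prod b.isCompact_CX

/-- the cut-off function of the source -/
def χE : ContDiffBump (0 : E n) := ⟨b.r / 2, b.r, by linarith [b.hr], by linarith [b.hr]⟩

lemma χE_zero {z : E n} (hz : b.r ≤ ‖z‖) : b.χE z = 0 :=
  b.χE.zero_of_le_dist (by rw [dist_zero_right]; exact hz)

lemma χE_one {z : E n} (hz : ‖z‖ ≤ b.r / 2) : b.χE z = 1 :=
  b.χE.one_of_mem_closedBall (by rw [mem_closedBall_zero_iff]; exact hz)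

/-- the margin -/
lemma margin [FiniteDimensional ℝ P] (O : Set ((P × X) × Y)) (hO : IsOpen O)
    (hfO : ∀ q, (q, f q) ∈ O) :
    ∃ e : ℝ, 0 < e ∧ ∀ p ∈ closedBall b.c (3 / 2 * b.r),
      ∀ z ∈ closedBall (0 : E n) (3 / 2 * b.r), ∀ w : E n, ‖w - b.h (p, z)‖ ≤ e →
      ∃ y ∈ b.V, b.B y = w ∧ ((p, b.A z), y) ∈ O := by
  have hprop : ProperSpace P := FiniteDimensional.proper ℝ P
  have hr := b.hr
  have hY : Nonempty Y := ⟨f (b.c, b.A 0)⟩
  obtain ⟨β, hβd⟩ : ∃ β : E n → Y, β = invFunOn b.B b.V := ⟨_, rfl⟩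
  have hβ : ∀ y ∈ b.V, β (b.B y) = y := by
    intro y hy
    rw [hβd]
    exact b.hBi.leftInvOn_invFunOn hy
  have hβL : ∀ y ∈ b.V, LD n β (b.B y) := fun y hy => LD.inverse b.hV b.hBd hβ hy
  have hU : IsOpen (b.B '' b.V) := isOpen_image_of_LD b.hV b.hBd
  obtain ⟨KK, hKK⟩ : ∃ KK : Set (P × E n), KK = closedBall b.c (3 / 2 * b.r) ×ˢ
      closedBall (0 : E n) (3 / 2 * b.r) := ⟨_, rfl⟩
  have hKc : IsCompact KK := by
    rw [hKK]
    exact (isCompact_closedBall _ _).prod (isCompact_closedBall _ _)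
  have hG : ∀ x ∈ KK, ∀ᶠ q : (P × E n) × E n in 𝓝 (x, b.h x),
      q.2 ∈ b.B '' b.V ∧ ((q.1.1, b.A q.1.2), β q.2) ∈ O := by
    intro x hx
    rw [hKK] at hx
    have hxV := b.hfV x.1 (b.subP hx.1) x.2 (b.sub_closedBall' hx.2)
    have h1 : ∀ᶠ q : (P × E n) × E n in 𝓝 (x, b.h x), q.2 ∈ b.B '' b.V :=
      continuousAt_snd.eventually (hU.mem_nhds ⟨_, hxV, rfl⟩)
    have h2 : ContinuousAt (fun q : (P × E n) × E n => ((q.1.1, b.A q.1.2), β q.2))
        (x, b.h x) := by
      refine ContinuousAt.prodMk (ContinuousAt.prodMk (by fun_prop) ?_) ?_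
      · exact ContinuousAt.comp (g := b.A) (f := fun q : (P × E n) × E n => q.1.2)
          (b.hAd x.2 (b.sub_closedBall' hx.2)).continuousAt (by fun_prop)
      · refine ContinuousAt.comp (g := β) ?_ continuousAt_snd
        exact (hβL _ hxV).continuousAt
    have h3 : ((x.1, b.A x.2), β (b.h x)) ∈ O := by
      change ((x.1, b.A x.2), β (b.B (f (x.1, b.A x.2)))) ∈ O
      rw [hβ _ hxV]
      exact hfO _
    exact h1.and (h2.eventually (hO.mem_nhds h3))
  have hmar : ∃ e : ℝ, 0 < e ∧ ∀ x ∈ KK, ∀ w : E n,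
      ‖w - b.h x‖ ≤ e → w ∈ b.B '' b.V ∧ ((x.1, b.A x.2), β w) ∈ O := by
    refine hKc.induction_on
      (p := fun s => ∃ e : ℝ, 0 < e ∧ ∀ x ∈ s, ∀ w : E n, ‖w - b.h x‖ ≤ e →
      w ∈ b.B '' b.V ∧ ((x.1, b.A x.2), β w) ∈ O) ?_ ?_ ?_ ?_
    · exact ⟨1, one_pos, fun x hx => absurd hx (notMem_empty x)⟩
    · rintro s t hst ⟨e, he, h⟩
      exact ⟨e, he, fun x hx => h x (hst hx)⟩
    · rintro s t ⟨e, he, h⟩ ⟨e', he', h'⟩
      refine ⟨min e e', lt_min he he', fun x hx w hw => ?_⟩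
      rcases hx with hx | hx
      · exact h x hx w (hw.trans (min_le_left _ _))
      · exact h' x hx w (hw.trans (min_le_right _ _))
    · intro x hxC
      have h1 := hG x hxC
      rw [nhds_prod_eq] at h1
      obtain ⟨P1, hP1, P2, hP2, hP⟩ := eventually_prod_iff.1 h1
      obtain ⟨e, he, h2⟩ := Metric.eventually_nhds_iff_ball.1 hP2
      have hxc : ContinuousAt b.h x := by
        rw [hKK] at hxC
        exact b.hcont (b.subP hxC.1) (b.sub_closedBall' hxC.2)
      have h3 : ∀ᶠ x' in 𝓝 x, P1 x' ∧ b.h x' ∈ ball (b.h x) (e / 2) :=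
        hP1.and (hxc.eventually (ball_mem_nhds _ (by linarith)))
      refine ⟨{x' | P1 x' ∧ b.h x' ∈ ball (b.h x) (e / 2)}, mem_nhdsWithin_of_mem_nhds h3, e / 3,
        by linarith, ?_⟩
      rintro x' ⟨h4, h5⟩ w hw
      refine hP h4 (h2 w ?_)
      rw [mem_ball, dist_eq_norm] at h5 ⊢
      have h6 : w - b.h x = (w - b.h x') + (b.h x' - b.h x) := by abel
      rw [h6]
      refine (norm_add_le _ _).trans_lt ?_
      linarith
  obtain ⟨e, he, hm⟩ := hmar
  refine ⟨e, he, fun p hp z hz w hw => ?_⟩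
  obtain ⟨⟨y, hy, hyw⟩, h2⟩ := hm (p, z) (by rw [hKK]; exact ⟨hp, hz⟩) w hw
  refine ⟨y, hy, hyw, ?_⟩
  rwa [← hyw, hβ y hy] at h2

/-- the neighbourhood of the graph -/
def nb (e : ℝ) : Set ((P × X) × Y) :=
  {p | p.1 ∉ closedBall b.c (3 / 2 * b.r) ×ˢ (b.A '' closedBall 0 (3 / 2 * b.r)) ∨
    (f p.1 ∈ b.V ∧ p.2 ∈ b.V ∧ ‖b.B p.2 - b.B (f p.1)‖ < e)}

lemma nb_open [T2Space X] (e : ℝ) : IsOpen (b.nb e) := by
  have h0 : IsCompact (b.A '' closedBall 0 (3 / 2 * b.r)) := by
    apply (isCompact_closedBall _ _).image_of_continuousOn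
    intro z hz
    exact (b.hAd z (b.sub_closedBall' hz)).continuousAt.continuousWithinAt
  have h1 : IsOpen {p : (P × X) × Y | p.1 ∉ closedBall b.c (3 / 2 * b.r) ×ˢ
      (b.A '' closedBall 0 (3 / 2 * b.r))} :=
    (isClosed_closedBall.prod h0.isClosed).isOpen_compl.preimage continuous_fst
  have h2 : IsOpen {p : (P × X) × Y | f p.1 ∈ b.V ∧ p.2 ∈ b.V ∧
      ‖b.B p.2 - b.B (f p.1)‖ < e} := by
    rw [isOpen_iff_mem_nhds]
    rintro p ⟨g1, g2, g3⟩
    have c1 : ContinuousAt (fun p : (P × X) × Y => f p.1) p := by fun_prop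
    have c2 : ContinuousAt (fun p : (P × X) × Y => b.B p.2 - b.B (f p.1)) p :=
      (ContinuousAt.comp (g := b.B) (f := Prod.snd) (b.hBd _ g2).continuousAt
        continuousAt_snd).sub
        (ContinuousAt.comp (g := b.B) (f := fun p : (P × X) × Y => f p.1)
          (b.hBd _ g1).continuousAt c1)
    filter_upwards [c1.eventually (b.hV.mem_nhds g1), continuousAt_snd.eventually
      (b.hV.mem_nhds g2), c2.norm.eventually_lt_const g3] with q q1 q2 q3
    exact ⟨q1, q2, q3⟩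
  exact h1.union h2

lemma nb_mem {e : ℝ} (he : 0 < e) (q : P × X) : (q, f q) ∈ b.nb e := by
  by_cases hx : q ∈ closedBall b.c (3 / 2 * b.r) ×ˢ (b.A '' closedBall 0 (3 / 2 * b.r))
  · right
    obtain ⟨p, x⟩ := q
    obtain ⟨hp, z, hz, hzx⟩ := hx
    change b.A z = x at hzx
    change p ∈ closedBall b.c (3 / 2 * b.r) at hp
    rw [← hzx]
    refine ⟨b.hfV p (b.subP hp) z (b.sub_closedBall' hz),
      b.hfV p (b.subP hp) z (b.sub_closedBall' hz), ?_⟩
    rw [sub_self, norm_zero]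
    exact he
  · exact Or.inl hx

lemma nb_of {e : ℝ} {p : P} {z : E n} {y : Y} (hp : p ∈ closedBall b.c (3 / 2 * b.r))
    (hz : z ∈ closedBall (0 : E n) (3 / 2 * b.r))
    (h : ((p, b.A z), y) ∈ b.nb e) : y ∈ b.V ∧ ‖b.B y - b.h (p, z)‖ < e := by
  rcases h with h | h
  · exact absurd ⟨hp, z, hz, rfl⟩ h
  · exact h.2

variable [FiniteDimensional ℝ P]

/-- the cut-off function of the parameter space -/
def χP : ContDiffBump b.c := ⟨b.r / 2, b.r, by linarith [b.hr], by linarith [b.hr]⟩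

/-- the cut-off function -/
def χ (q : P × E n) : ℝ := b.χP q.1 * b.χE q.2

lemma χ_nonneg (q : P × E n) : 0 ≤ b.χ q := mul_nonneg b.χP.nonneg b.χE.nonneg

lemma χ_le_one (q : P × E n) : b.χ q ≤ 1 := mul_le_one₀ b.χP.le_one b.χE.nonneg b.χE.le_one

lemma χ_smooth : ContDiff ℝ ∞ b.χ :=
  (b.χP.contDiff.comp contDiff_fst).mul (b.χE.contDiff.comp contDiff_snd)

lemma χ_one {q : P × E n} (h1 : dist q.1 b.c ≤ b.r / 2) (h2 : ‖q.2‖ ≤ b.r / 2) : b.χ q = 1 := by
  unfold χ
  rw [b.χE_one h2, b.χP.one_of_mem_closedBall (mem_closedBall.2 h1), one_mul]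

/-- the cut-off function on the manifold -/
def χX (q : P × X) : ℝ := by
  classical
  exact if q.2 ∈ b.A '' ball 0 (3 / 2 * b.r) then b.χ (q.1, b.α q.2) else 0

lemma χX_A (p : P) {z : E n} (hz : z ∈ ball (0 : E n) (3 / 2 * b.r)) :
    b.χX (p, b.A z) = b.χ (p, z) := by
  unfold χX
  rw [if_pos ⟨z, hz, rfl⟩]
  beta_reduce
  rw [b.α_A (b.sub_closedBall hz)]

lemma χX_zero {q : P × X} (hx : q ∉ b.C) : b.χX q = 0 := by
  by_cases h : q.2 ∈ b.A '' ball 0 (3 / 2 * b.r)
  · obtain ⟨p, x⟩ := q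
    obtain ⟨z, hz, hzx⟩ := h
    change b.A z = x at hzx
    rw [← hzx] at hx ⊢
    rw [b.χX_A p hz]
    unfold χ
    by_cases hp : p ∈ closedBall b.c b.r
    · have h1 : b.χE z = 0 := by
        apply b.χE_zero
        by_contra hc
        exact hx ⟨hp, z, mem_closedBall_zero_iff.2 (not_le.1 hc).le, rfl⟩
      beta_reduce
      rw [h1, mul_zero]
    · have h1 : b.χP p = 0 := by
        apply b.χP.zero_of_le_dist
        rw [mem_closedBall, not_le] at hp
        exact hp.le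
      beta_reduce
      rw [h1, zero_mul]
  · unfold χX
    rw [if_neg h]

end By

section stage

variable {n : ℕ} {P X Y : Type} [NormedAddCommGroup P] [NormedSpace ℝ P] [FiniteDimensional ℝ P]
    [TopologicalSpace X] [T2Space X] [TopologicalSpace Y]
    [ChartedSpace (E n) X] [ChartedSpace (E n) Y]

/-- one stage of the smoothing -/
theorem stageF (f : C(P × X, Y)) (b : By n f) {ε δ : ℕ → ℝ} (hε : ∀ m, 0 < ε m)
    (hε0 : Tendsto ε atTop (𝓝 0)) (hδ0 : Tendsto δ atTop (𝓝 0))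
    {ρ : ℕ → SmoothPartitionOfUnity P 𝓘(ℝ, P) P univ}
    (hρ : ∀ m, (ρ m).IsSubordinate (fun j => ball j (δ m)))
    (G : ℕ → C(P × X, Y)) (K : Set (P × X))
    (hG : ∀ O : Set ((P × X) × Y), IsOpen O → (∀ x, (x, f x) ∈ O) →
      ∀ᶠ m in atTop, HomRel O K f (G m)) :
    ∃ G' : ℕ → C(P × X, Y),
      (∀ O : Set ((P × X) × Y), IsOpen O → (∀ x, (x, f x) ∈ O) →
        ∀ᶠ m in atTop, HomRel O (K ∪ b.C) f (G' m)) ∧
      (∀ᶠ m in atTop, ∀ x, x ∉ b.C → G' m x = G m x) ∧
      ∀ᶠ m in atTop, ∀ p ∈ ball b.c (3 / 2 * b.r), ∀ z ∈ ball (0 : E n) (3 / 2 * b.r),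
        G m (p, b.A z) ∈ b.V ∧
        G' m (p, b.A z) ∈ b.V ∧ b.B (G' m (p, b.A z)) =
          b.B (G m (p, b.A z)) + b.χ (p, z) •
            (mo (fun z => av (ρ m) b.h (p, z)) (ε m) z - b.B (G m (p, b.A z))) := by
  classical
  have hr := b.hr
  have hCb : ∀ z ∈ closedBall (0 : E n) b.r, z ∈ closedBall (0 : E n) (3 / 2 * b.r) := fun z hz =>
    closedBall_subset_closedBall (by linarith) hz
  have hCb' : ∀ z ∈ closedBall (0 : E n) b.r, z ∈ ball (0 : E n) (3 / 2 * b.r) := fun z hz =>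
    closedBall_subset_ball (by linarith) hz
  have hPb : ∀ p ∈ closedBall b.c b.r, p ∈ closedBall b.c (3 / 2 * b.r) := fun z hz =>
    closedBall_subset_closedBall (by linarith) hz
  -- the segments
  have hsegs : ∀ O : Set ((P × X) × Y), IsOpen O → (∀ x, (x, f x) ∈ O) → ∀ᶠ m in atTop,
      (∀ p ∈ closedBall b.c (3 / 2 * b.r), ∀ z ∈ closedBall (0 : E n) (3 / 2 * b.r),
        G m (p, b.A z) ∈ b.V) ∧
      (∀ p ∈ closedBall b.c (3 / 2 * b.r), ∀ z ∈ closedBall (0 : E n) (3 / 2 * b.r),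
        ContDiffAt ℝ ∞ (fun q' : P × E n =>
          mo (fun z => av (ρ m) b.h (q'.1, z)) (ε m) q'.2) (p, z)) ∧
      ∀ p ∈ closedBall b.c b.r, ∀ z ∈ closedBall (0 : E n) b.r, ∀ s : ℝ, 0 ≤ s → s ≤ 1 →
        ∃ y ∈ b.V, b.B y = b.B (G m (p, b.A z)) + s •
          (mo (fun z => av (ρ m) b.h (p, z)) (ε m) z - b.B (G m (p, b.A z))) ∧
          ((p, b.A z), y) ∈ O := by
    intro O hO hfO
    obtain ⟨e, he, hm⟩ := b.margin O hO hfO
    have h1 := hG (b.nb e) (b.nb_open e) (b.nb_mem he)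
    have h2 := box_unif hr (fun p hp z hz => b.hcont hp hz) hε hε0 hδ0 hρ he
    filter_upwards [h1, h2] with m g1 g2
    refine ⟨fun p hp z hz => (b.nb_of hp hz (g1.off _).1).1, fun p hp z hz => (g2 p hp z hz).1,
      fun p hp z hz s hs0 hs1 => ?_⟩
    refine hm p (hPb p hp) z (hCb z hz) _ ?_
    have g3 := (b.nb_of (hPb p hp) (hCb z hz) (g1.off _).1).2
    have g4 := (g2 p (hPb p hp) z (hCb z hz)).2
    have e1 : b.B (G m (p, b.A z)) + s • (mo (fun z => av (ρ m) b.h (p, z)) (ε m) z -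
        b.B (G m (p, b.A z))) - b.h (p, z) =
        (1 - s) • (b.B (G m (p, b.A z)) - b.h (p, z)) +
          s • (mo (fun z => av (ρ m) b.h (p, z)) (ε m) z - b.h (p, z)) := by
      module
    rw [e1]
    refine (norm_add_le _ _).trans ?_
    rw [norm_smul, norm_smul, Real.norm_of_nonneg hs0, Real.norm_of_nonneg (by linarith)]
    have h1s : 0 ≤ 1 - s := by linarith
    calc _ ≤ (1 - s) * e + s * e :=
          add_le_add (mul_le_mul_of_nonneg_left g3.le h1s) (mul_le_mul_of_nonneg_left g4 hs0)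
      _ = e := by ring
  obtain ⟨F', hF'⟩ : ∃ F' : ℕ → P × X → E n, ∀ m q, F' m q = b.B (G m q) +
      b.χX q • (mo (fun z => av (ρ m) b.h (q.1, z)) (ε m) (b.α q.2) - b.B (G m q)) :=
    ⟨_, fun _ _ => rfl⟩
  have hFA : ∀ m p, ∀ z ∈ ball (0 : E n) (3 / 2 * b.r), F' m (p, b.A z) =
      b.B (G m (p, b.A z)) + b.χ (p, z) •
        (mo (fun z => av (ρ m) b.h (p, z)) (ε m) z - b.B (G m (p, b.A z))) := by
    intro m p z hz
    rw [hF', b.χX_A p hz]
    beta_reduce
    rw [b.α_A (b.sub_closedBall hz)]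
  have hFC : ∀ m x, x ∉ b.C → F' m x = b.B (G m x) := by
    intro m x hx
    rw [hF', b.χX_zero hx, zero_smul, add_zero]
  have key : ∀ᶠ m in atTop, ∃ g : C(P × X, Y), (∀ x, x ∉ b.C → g x = G m x) ∧
      (∀ x, G m x ∈ b.V → g x ∈ b.V ∧ b.B (g x) = F' m x) ∧
      ∀ O : Set ((P × X) × Y), (∀ x, (x, G m x) ∈ O) →
        (∀ x ∈ b.C, ∀ s : unitInterval, ∃ y ∈ b.V,
        b.B y = b.B (G m x) + (s : ℝ) • (F' m x - b.B (G m x)) ∧ (x, y) ∈ O) →
          HomRel O b.C (G m) g := by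
    filter_upwards [hsegs univ isOpen_univ (fun _ => mem_univ _)] with m hm
    obtain ⟨h1, h2, h3⟩ := hm
    refine glueSeg (G m) b.C b.V b.B (F' m) b.isCompact_C.isClosed b.hV b.hBi b.hBd ?_ ?_
      (fun x hx => hFC m x hx) ?_
    · rintro ⟨p, x⟩ ⟨hp, z, hz, hzx⟩
      change b.A z = x at hzx
      rw [← hzx]
      exact h1 p (hPb p hp) z (hCb z hz)
    · rintro ⟨p, x⟩ hx
      by_cases hxb : p ∈ ball b.c (3 / 2 * b.r) ∧ x ∈ b.A '' ball 0 (3 / 2 * b.r)
      · obtain ⟨hp, hxb⟩ := hxb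
        have he : F' m =ᶠ[𝓝 (p, x)] fun q => b.B (G m q) +
            b.χ (q.1, b.α q.2) • (mo (fun z => av (ρ m) b.h (q.1, z)) (ε m) (b.α q.2) -
              b.B (G m q)) := by
          have h4 : ∀ᶠ q : P × X in 𝓝 (p, x), q.2 ∈ b.A '' ball 0 (3 / 2 * b.r) :=
            continuousAt_snd.eventually (b.isOpen_image.mem_nhds hxb)
          filter_upwards [h4] with q hy
          obtain ⟨p', y⟩ := q
          obtain ⟨z, hz, hzy⟩ := hy
          change b.A z = y at hzy
          rw [← hzy, hFA m p' z hz]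
          beta_reduce
          rw [b.α_A (b.sub_closedBall hz)]
        rw [continuousAt_congr he]
        have c1 : ContinuousAt (fun q => b.B (G m q)) (p, x) :=
          ContinuousAt.comp (g := b.B) (f := G m) (b.hBd _ hx).continuousAt
            (G m).continuous.continuousAt
        obtain ⟨z, hz, rfl⟩ := hxb
        have hz2 : z ∈ ball (0 : E n) (2 * b.r) := ball_subset_ball (by linarith) hz
        have c2 : ContinuousAt (fun q : P × X => b.α q.2) (p, b.A z) :=
          ContinuousAt.comp (g := b.α) (f := Prod.snd) (b.α_LD hz2).continuousAt continuousAt_snd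
        have c5 : ContinuousAt (fun q : P × X => ((q.1, b.α q.2) : P × E n)) (p, b.A z) :=
          continuousAt_fst.prodMk c2
        have c3 : ContinuousAt (fun q : P × X => b.χ (q.1, b.α q.2)) (p, b.A z) :=
          ContinuousAt.comp (g := b.χ) (f := fun q : P × X => ((q.1, b.α q.2) : P × E n))
            b.χ_smooth.continuous.continuousAt c5
        have c4 : ContinuousAt (fun q : P × X =>
            mo (fun z => av (ρ m) b.h (q.1, z)) (ε m) (b.α q.2)) (p, b.A z) := by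
          refine ContinuousAt.comp (g := fun q' : P × E n =>
            mo (fun z => av (ρ m) b.h (q'.1, z)) (ε m) q'.2)
            (f := fun q : P × X => ((q.1, b.α q.2) : P × E n)) ?_ c5
          beta_reduce
          rw [b.α_A (b.sub_closedBall hz)]
          exact (h2 p (ball_subset_closedBall hp) z (ball_subset_closedBall hz)).continuousAt
        exact c1.add (c3.smul (c4.sub c1))
      · have hxC : (p, x) ∉ b.C := by
          rintro ⟨hp, z, hz, hzx⟩
          exact hxb ⟨closedBall_subset_ball (by linarith) hp, z, hCb' z hz, hzx⟩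
        have he : F' m =ᶠ[𝓝 (p, x)] fun x => b.B (G m x) := by
          filter_upwards [b.isCompact_C.isClosed.isOpen_compl.mem_nhds hxC] with y hy
          exact hFC m y hy
        rw [continuousAt_congr he]
        exact ContinuousAt.comp (g := b.B) (f := G m) (b.hBd _ hx).continuousAt
          (G m).continuous.continuousAt
    · rintro ⟨p, x⟩ ⟨hp, z, hz, hzx⟩ s
      change b.A z = x at hzx
      rw [← hzx, hFA m p z (hCb' z hz), add_sub_cancel_left, smul_smul]
      obtain ⟨y, hy, hyB, -⟩ := h3 p hp z hz ((s : ℝ) * b.χ (p, z))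
        (mul_nonneg s.2.1 (b.χ_nonneg _))
        (mul_le_one₀ s.2.2 (b.χ_nonneg _) (b.χ_le_one _))
      exact ⟨y, hy, hyB⟩
  obtain ⟨G', hG'⟩ : ∃ G' : ℕ → C(P × X, Y), ∀ᶠ m in atTop,
      (∀ x, x ∉ b.C → G' m x = G m x) ∧
      (∀ x, G m x ∈ b.V → G' m x ∈ b.V ∧ b.B (G' m x) = F' m x) ∧
      ∀ O : Set ((P × X) × Y), (∀ x, (x, G m x) ∈ O) →
        (∀ x ∈ b.C, ∀ s : unitInterval, ∃ y ∈ b.V,
        b.B y = b.B (G m x) + (s : ℝ) • (F' m x - b.B (G m x)) ∧ (x, y) ∈ O) →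
          HomRel O b.C (G m) (G' m) := by
    refine ⟨fun m => if h : ∃ g : C(P × X, Y), (∀ x, x ∉ b.C → g x = G m x) ∧
      (∀ x, G m x ∈ b.V → g x ∈ b.V ∧ b.B (g x) = F' m x) ∧
      ∀ O : Set ((P × X) × Y), (∀ x, (x, G m x) ∈ O) →
        (∀ x ∈ b.C, ∀ s : unitInterval, ∃ y ∈ b.V,
        b.B y = b.B (G m x) + (s : ℝ) • (F' m x - b.B (G m x)) ∧ (x, y) ∈ O) →
          HomRel O b.C (G m) g then h.choose else f, ?_⟩
    filter_upwards [key] with m hm
    rw [dif_pos hm]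
    exact hm.choose_spec
  refine ⟨G', fun O hO hfO => ?_, hG'.mono fun _ h => h.1, ?_⟩
  · filter_upwards [hG', hG O hO hfO, hsegs O hO hfO] with m g1 g2 g3
    refine g2.trans (g1.2.2 O (fun x => (g2.off x).1) ?_)
    rintro ⟨p, x⟩ ⟨hp, z, hz, hzx⟩ s
    change b.A z = x at hzx
    rw [← hzx, hFA m p z (hCb' z hz), add_sub_cancel_left, smul_smul]
    exact g3.2.2 p hp z hz ((s : ℝ) * b.χ (p, z)) (mul_nonneg s.2.1 (b.χ_nonneg _))
      (mul_le_one₀ s.2.2 (b.χ_nonneg _) (b.χ_le_one _))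
  · filter_upwards [hG', hsegs univ isOpen_univ (fun _ => mem_univ _)] with m g1 g2 p hp z hz
    have g3 := g2.1 p (ball_subset_closedBall hp) z (ball_subset_closedBall hz)
    have g4 := g1.2.1 _ g3
    exact ⟨g3, g4.1, by rw [g4.2, hFA m p z hz]⟩

end stage

end Run7.h60.Sc
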