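import Pool.Agent.Run7.h60.Circ

/-! The one-parameter family of geodesics starting orthogonally from `x = 0`. -/

set_option maxSynthPendingDepth 3

open Set MeasureTheory intervalIntegral Filter
open scoped Topology ContDiff RealInnerProductSpace NNReal

namespace Run7.h60

variable {g : R3 → R3 →L[ℝ] R3 →L[ℝ] ℝ}

noncomputable def e0 : R3 := !₂[1, 0, 0]

noncomputable def st (θ : ℝ) : R3 := !₂[0, Real.cos θ, Real.sin θ]

lemma e0_0 : e0 0 = 1 := by simp [e0]
lemma e0_1 : e0 1 = 0 := by simp [e0]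
lemma e0_2 : e0 2 = 0 := by simp [e0]
lemma st_0 (θ : ℝ) : st θ 0 = 0 := by simp [st]
lemma st_1 (θ : ℝ) : st θ 1 = Real.cos θ := by simp [st]
lemma st_2 (θ : ℝ) : st θ 2 = Real.sin θ := by simp [st]

lemma e0_ne : e0 ≠ 0 := by
  intro h
  have := e0_0
  rw [h] at this
  simp at this

lemma st_mem (θ : ℝ) : st θ ∈ Metric.sphere (0 : R3) 1 := by
  rw [mem_S2, st_0, st_1, st_2]
  have := Real.sin_sq_add_cos_sq θ
  linarith

lemma continuous_st : Continuous st := by
  have h1 : Continuous (fun θ : ℝ => (![0, Real.cos θ, Real.sin θ] : Fin 3 → ℝ)) := by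
    apply continuous_pi
    intro i
    fin_cases i
    · exact continuous_const
    · exact Real.continuous_cos
    · exact Real.continuous_sin
  exact (PiLp.continuous_toLp 2 _).comp h1

noncomputable def vst (g : R3 → R3 →L[ℝ] R3 →L[ℝ] ℝ) (θ : ℝ) : R3 :=
  (nrm (ext g) (st θ) e0)⁻¹ • e0

lemma nrm_e0_pos (hg : SphMetric g) (θ : ℝ) : 0 < nrm (ext g) (st θ) e0 := by
  unfold nrm
  apply Real.sqrt_pos.2
  exact (metricOn_ext hg).pos _ (sphere_subset (st_mem θ)) _ e0_ne

lemma continuous_vst (hg : SphMetric g) : Continuous (vst g) := by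
  have h1 : ContinuousOn (fun θ => nrm (ext g) (st θ) e0) univ :=
    continuousOn_nrm (metricOn_ext hg).contOn continuous_st.continuousOn
      (fun t _ => sphere_subset (st_mem t)) continuousOn_const
  have h2 : Continuous (fun θ => nrm (ext g) (st θ) e0) := continuousOn_univ.1 h1
  exact (h2.inv₀ (fun θ => (nrm_e0_pos hg θ).ne')).smul continuous_const

lemma exists_family (hg : SphMetric g) :
    ∃ Γ : ℝ → ℝ → R3, ∀ θ, UGeod g (Γ θ) ∧ Γ θ 0 = st θ ∧ deriv (Γ θ) 0 = vst g θ := by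
  have h : ∀ θ, ∃ γ, UGeod g γ ∧ γ 0 = st θ ∧ deriv γ 0 = vst g θ := by
    intro θ
    apply exists_ugeod hg (st_mem θ)
    · rw [vst, real_inner_smul_right, inner3, st_0, e0_1, e0_2]; ring
    · rw [vst, nrm_smul, abs_of_pos (inv_pos.2 (nrm_e0_pos hg θ)),
        inv_mul_cancel₀ (nrm_e0_pos hg θ).ne']
  choose Γ hΓ using h
  exact ⟨Γ, hΓ⟩

/-- The family is jointly continuous. -/
lemma continuousOn_state (hg : SphMetric g) {Γ : ℝ → ℝ → R3}
    (hΓ : ∀ θ, UGeod g (Γ θ) ∧ Γ θ 0 = st θ ∧ deriv (Γ θ) 0 = vst g θ) :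
    ContinuousOn (fun z : ℝ × ℝ => (Γ z.1 z.2, deriv (Γ z.1) z.2)) {z | 0 ≤ z.2} := by
  obtain ⟨K, hK, hdist⟩ := UGeod.exists_dist_le hg
  rintro ⟨θ₀, t₀⟩ hz₀
  show Tendsto _ _ _
  rw [tendsto_iff_dist_tendsto_zero]
  have h1 : Continuous (fun z : ℝ × ℝ => dist (st z.1, vst g z.1) (st θ₀, vst g θ₀)
      * Real.exp (K * z.2) + dist (Γ θ₀ z.2, deriv (Γ θ₀) z.2) (Γ θ₀ t₀, deriv (Γ θ₀) t₀)) := by
    have c1 : Continuous (fun z : ℝ × ℝ => (st z.1, vst g z.1)) :=
      (continuous_st.comp continuous_fst).prodMk ((continuous_vst hg).comp continuous_fst)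
    have c2 : Continuous (fun z : ℝ × ℝ => (Γ θ₀ z.2, deriv (Γ θ₀) z.2)) :=
      ((hΓ θ₀).1.smooth.continuous.comp continuous_snd).prodMk
        ((hΓ θ₀).1.continuous_deriv.comp continuous_snd)
    have c3 : Continuous (fun z : ℝ × ℝ => Real.exp (K * z.2)) := by fun_prop
    exact ((c1.dist continuous_const).mul c3).add (c2.dist continuous_const)
  have h2 := (h1.continuousWithinAt (s := {z : ℝ × ℝ | 0 ≤ z.2}) (x := (θ₀, t₀))).tendsto
  simp only [dist_self, zero_mul, add_zero] at h2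
  refine squeeze_zero' (Eventually.of_forall fun z => dist_nonneg) ?_ h2
  filter_upwards [self_mem_nhdsWithin] with z hz
  refine (dist_triangle _ (Γ θ₀ z.2, deriv (Γ θ₀) z.2) _).trans ?_
  have h3 := hdist _ _ (hΓ z.1).1 (hΓ θ₀).1 z.2 hz
  rw [(hΓ z.1).2.1, (hΓ z.1).2.2, (hΓ θ₀).2.1, (hΓ θ₀).2.2] at h3
  linarith

/-- `2 g(v, j) - |j|` at the point `X`. -/
noncomputable def bal (g : R3 → R3 →L[ℝ] R3 →L[ℝ] ℝ) (z : R3 × R3) : ℝ :=
  2 * g z.1 z.2 (jv z.1) - Real.sqrt (g z.1 (jv z.1) (jv z.1))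

lemma continuous_jv : Continuous jv := by
  have h1 : Continuous (fun X : R3 => (![X 1, -X 0, 0] : Fin 3 → ℝ)) := by
    apply continuous_pi
    intro i
    fin_cases i
    · exact continuous_coord 1
    · exact (continuous_coord 0).neg
    · exact continuous_const
  exact (PiLp.continuous_toLp 2 _).comp h1

lemma continuous_bal (hg : SphMetric g) : Continuous (bal g) := by
  have h0 : Continuous g := hg.smooth.continuous
  have h1 : Continuous (fun z : R3 × R3 => g z.1) := h0.comp continuous_fst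
  have h2 : Continuous (fun z : R3 × R3 => jv z.1) := continuous_jv.comp continuous_fst
  exact (((h1.clm_apply continuous_snd).clm_apply h2).const_mul 2).sub
    (((h1.clm_apply h2).clm_apply h2).sqrt)

end Run7.h60
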