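import Pool.Agent.Run7.h60.AAGlue
import Pool.Agent.Y270.SH.MollP

/-!
# Mollification of maps between open subsets of Euclidean space

Near the bad points the mollifications at the scales `ε k` are assumed to be local diffeomorphisms; this
is proved for maps which are almost affine at these scales, and for directionally monotone maps.
-/

set_option autoImplicit false

open Set Filter Topology Metric Function MeasureTheory
open scoped Manifold ContDiff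

noncomputable section

namespace Run7.h60.Sc

open Pool.Agent.Y522 Pool.Agent.R765 Pool.Agent.Y954.SH

section loc

variable {n : ℕ} {ε : ℕ → ℝ}

/-- the balls of radius `2 ε` about the points near `x` are in the domain of continuity -/
lemma cont_near (hε0 : Tendsto ε atTop (𝓝 0)) {g : E n → E n} {x : E n}
    (hgc : ∀ᶠ w in 𝓝 x, ContinuousAt g w) :
    ∀ᶠ p : E n × ℕ in 𝓝 x ×ˢ atTop, ContinuousOn g (closedBall p.1 (2 * ε p.2)) := by
  obtain ⟨r', hr', hgc'⟩ := Metric.eventually_nhds_iff_ball.1 hgc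
  have e1 : ∀ᶠ p : E n × ℕ in 𝓝 x ×ˢ atTop, p.1 ∈ ball x (r' / 2) :=
    tendsto_fst.eventually (ball_mem_nhds _ (by positivity))
  have e3 : ∀ᶠ p : E n × ℕ in 𝓝 x ×ˢ atTop, ε p.2 < r' / 4 :=
    (tendsto_scale hε0 x).eventually_lt_const (by positivity)
  filter_upwards [e1, e3] with p h1 h2 w hw
  refine (hgc' w ?_).continuousWithinAt
  rw [mem_ball] at h1 ⊢
  rw [mem_closedBall] at hw
  calc dist w x ≤ dist w p.1 + dist p.1 x := dist_triangle _ _ _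
    _ < 2 * (r' / 4) + r' / 2 := by linarith
    _ = r' := by ring

lemma smooth_near (hε : ∀ m, 0 < ε m) (hε0 : Tendsto ε atTop (𝓝 0)) {g : E n → E n} {x : E n}
    (hgc : ∀ᶠ w in 𝓝 x, ContinuousAt g w) :
    ∀ᶠ p : E n × ℕ in 𝓝 x ×ˢ atTop, ∀ᶠ y in 𝓝 p.1, ContDiffAt ℝ ∞ (mo g (ε p.2)) y := by
  obtain ⟨P1, hP1, P2, hP2, hP⟩ := eventually_prod_iff.1 (cont_near hε0 hgc)
  have h3 : ∀ᶠ p : E n × ℕ in 𝓝 x ×ˢ atTop, ∀ᶠ y in 𝓝 p.1, P1 y :=
    tendsto_fst.eventually (eventually_eventually_nhds.2 hP1)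
  have h4 : ∀ᶠ p : E n × ℕ in 𝓝 x ×ˢ atTop, P2 p.2 := tendsto_snd.eventually hP2
  filter_upwards [h3, h4] with p g1 g2
  filter_upwards [g1] with y hy
  exact mo_smooth (hε _) (hP hy g2)

/-- maps which are almost affine at the scales `ε k` -/
lemma ld_of_aa (hε : ∀ m, 0 < ε m) (hε0 : Tendsto ε atTop (𝓝 0)) {g : E n → E n} {x : E n}
    {η ρ : ℝ} (hη : kc n * η < 1) (hρ : 0 < ρ) (hgc : ∀ᶠ w in 𝓝 x, ContinuousAt g w)
    (h : ∀ᶠ k in atTop, ∀ z, ‖z - x‖ < ρ → ∃ L : E n ≃L[ℝ] E n, AA g z (ε k) L η) :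
    ∀ᶠ p : E n × ℕ in 𝓝 x ×ˢ atTop, LD n (mo g (ε p.2)) p.1 := by
  have e1 : ∀ᶠ p : E n × ℕ in 𝓝 x ×ˢ atTop, ‖p.1 - x‖ < ρ := by
    have e0 : ∀ᶠ y in 𝓝 x, ‖y - x‖ < ρ := by
      filter_upwards [ball_mem_nhds x hρ] with y hy
      rwa [mem_ball, dist_eq_norm] at hy
    exact tendsto_fst.eventually e0
  have e2 : ∀ᶠ p : E n × ℕ in 𝓝 x ×ˢ atTop, ∀ z, ‖z - x‖ < ρ →
      ∃ L : E n ≃L[ℝ] E n, AA g z (ε p.2) L η := tendsto_snd.eventually h
  filter_upwards [e1, e2, cont_near hε0 hgc, smooth_near hε hε0 hgc] with p h1 h2 h3 h4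
  obtain ⟨L, hL⟩ := h2 p.1 h1
  refine Pool.Agent.Y207.SH3.LD_of_pos h4 fun u hu h0 => ?_
  have h5 := mo_aa (hε p.2) h3 hL
  have h6 := ((L.symm : E n →L[ℝ] E n) ∘L fderiv ℝ (mo g (ε p.2)) p.1 -
    (ContinuousLinearMap.id ℝ (E n))).le_opNorm u
  have h7 : ((L.symm : E n →L[ℝ] E n) ∘L fderiv ℝ (mo g (ε p.2)) p.1 -
      (ContinuousLinearMap.id ℝ (E n))) u = - u := by
    simp [h0]
  rw [h7, norm_neg, hu, mul_one] at h6
  linarith

/-- a uniform version of directional monotonicity -/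
lemma dmon_unif {g : E n → E n} {x : E n}
    (h : ∀ v : E n, v ≠ 0 → ∃ (r : ℝ) (ℓ : E n →L[ℝ] ℝ), 0 < r ∧
      ∀ p q : E n, ‖p - x‖ ≤ r → ‖q - x‖ ≤ r → ∀ t : ℝ, 0 < t → ‖q - p - t • v‖ ≤ r * t →
        ℓ (g p) < ℓ (g q)) :
    ∃ ρ κ : ℝ, 0 < ρ ∧ 0 < κ ∧ ∀ u : E n, ‖u‖ = 1 → ∃ ℓ : E n →L[ℝ] ℝ,
      ∀ p q : E n, ‖p - x‖ ≤ ρ → ‖q - x‖ ≤ ρ → ∀ t : ℝ, 0 < t → ‖q - p - t • u‖ ≤ κ * t →
        ℓ (g p) < ℓ (g q) := by
  have hK : IsCompact (sphere (0 : E n) 1) := isCompact_sphere 0 1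
  obtain ⟨ρ, hρ, hρ2⟩ : ∃ ρ : ℝ, 0 < ρ ∧ ∀ u ∈ sphere (0 : E n) 1, ∃ ℓ : E n →L[ℝ] ℝ,
      ∀ p q : E n, ‖p - x‖ ≤ ρ → ‖q - x‖ ≤ ρ → ∀ t : ℝ, 0 < t → ‖q - p - t • u‖ ≤ ρ * t →
        ℓ (g p) < ℓ (g q) := by
    refine hK.induction_on (p := fun S : Set (E n) => ∃ ρ : ℝ, 0 < ρ ∧ ∀ u ∈ S,
      ∃ ℓ : E n →L[ℝ] ℝ, ∀ p q : E n, ‖p - x‖ ≤ ρ → ‖q - x‖ ≤ ρ → ∀ t : ℝ, 0 < t →
        ‖q - p - t • u‖ ≤ ρ * t → ℓ (g p) < ℓ (g q)) ?_ ?_ ?_ ?_
    · exact ⟨1, one_pos, fun u hu => absurd hu (notMem_empty _)⟩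
    · rintro S T hST ⟨ρ, hρ, h1⟩
      exact ⟨ρ, hρ, fun u hu => h1 u (hST hu)⟩
    · rintro S T ⟨ρ, hρ, h1⟩ ⟨ρ', hρ', h1'⟩
      refine ⟨min ρ ρ', lt_min hρ hρ', fun u hu => ?_⟩
      rcases hu with hu | hu
      · obtain ⟨ℓ, hℓ⟩ := h1 u hu
        refine ⟨ℓ, fun p q hp hq t ht hpq => hℓ p q (hp.trans (min_le_left _ _))
          (hq.trans (min_le_left _ _)) t ht (hpq.trans ?_)⟩
        exact mul_le_mul_of_nonneg_right (min_le_left _ _) ht.le
      · obtain ⟨ℓ, hℓ⟩ := h1' u hu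
        refine ⟨ℓ, fun p q hp hq t ht hpq => hℓ p q (hp.trans (min_le_right _ _))
          (hq.trans (min_le_right _ _)) t ht (hpq.trans ?_)⟩
        exact mul_le_mul_of_nonneg_right (min_le_right _ _) ht.le
    · intro v hv
      have hv0 : v ≠ 0 := by
        rintro rfl
        rw [mem_sphere_zero_iff_norm, norm_zero] at hv
        exact zero_ne_one hv
      obtain ⟨r, ℓ, hr, hℓ⟩ := h v hv0
      refine ⟨ball v (r / 2), mem_nhdsWithin_of_mem_nhds (ball_mem_nhds _ (by linarith)),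
        r / 2, by linarith, fun u hu => ⟨ℓ, fun p q hp hq t ht hpq =>
          hℓ p q (by linarith) (by linarith) t ht ?_⟩⟩
      rw [mem_ball, dist_eq_norm] at hu
      calc ‖q - p - t • v‖ = ‖(q - p - t • u) + t • (u - v)‖ := by
            congr 1
            rw [smul_sub]
            abel
        _ ≤ ‖q - p - t • u‖ + ‖t • (u - v)‖ := norm_add_le _ _
        _ = ‖q - p - t • u‖ + t * ‖u - v‖ := by rw [norm_smul, Real.norm_of_nonneg ht.le]
        _ ≤ r / 2 * t + t * (r / 2) := by gcongr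
        _ = r * t := by ring
  exact ⟨ρ, ρ, hρ, hρ, fun u hu => hρ2 u (mem_sphere_zero_iff_norm.2 hu)⟩

/-- directionally monotone maps -/
lemma ld_of_dmon (hε : ∀ m, 0 < ε m) (hε0 : Tendsto ε atTop (𝓝 0)) {g : E n → E n} {x : E n}
    (hgc : ∀ᶠ w in 𝓝 x, ContinuousAt g w)
    (h : ∀ v : E n, v ≠ 0 → ∃ (r : ℝ) (ℓ : E n →L[ℝ] ℝ), 0 < r ∧
      ∀ p q : E n, ‖p - x‖ ≤ r → ‖q - x‖ ≤ r → ∀ t : ℝ, 0 < t → ‖q - p - t • v‖ ≤ r * t →
        ℓ (g p) < ℓ (g q)) :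
    ∀ᶠ p : E n × ℕ in 𝓝 x ×ˢ atTop, LD n (mo g (ε p.2)) p.1 := by
  obtain ⟨ρ₀, κ, hρ₀, hκ, hm⟩ := dmon_unif h
  obtain ⟨r', hr', hgc'⟩ := Metric.eventually_nhds_iff_ball.1 hgc
  obtain ⟨σ, hσ, hσ1, hσ2⟩ : ∃ σ : ℝ, 0 < σ ∧ 3 / 2 * σ ≤ ρ₀ ∧ 2 * σ < r' := by
    refine ⟨min ρ₀ r' / 3, by positivity, ?_, ?_⟩
    · have := min_le_left ρ₀ r'
      linarith
    · have := min_le_right ρ₀ r'
      linarith
  obtain ⟨G, hG⟩ : ∃ G : E n → E n, G = fun w => g (x + σ • w) := ⟨_, rfl⟩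
  have hGc : ContinuousOn G (closedBall 0 2) := by
    intro w hw
    rw [mem_closedBall_zero_iff] at hw
    have h1 : ContinuousAt g (x + σ • w) := by
      refine hgc' _ ?_
      rw [mem_ball, dist_eq_norm, add_sub_cancel_left, norm_smul, Real.norm_of_nonneg hσ.le]
      nlinarith
    rw [hG]
    have h2 : ContinuousAt (fun w : E n => x + σ • w) w := by fun_prop
    exact (ContinuousAt.comp (g := g) (f := fun w : E n => x + σ • w) h1 h2).continuousWithinAt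
  have hGm : ∀ u : E n, ‖u‖ = 1 → ∃ ℓ : E n →L[ℝ] ℝ,
      ∀ p q : E n, ‖p‖ ≤ 3 / 2 → ‖q‖ ≤ 3 / 2 → ∀ t : ℝ, 0 < t → ‖q - p - t • u‖ ≤ κ * t →
        ℓ (G p) < ℓ (G q) := by
    intro u hu
    obtain ⟨ℓ, hℓ⟩ := hm u hu
    refine ⟨ℓ, fun p q hp hq t ht hpq => ?_⟩
    rw [hG]
    refine hℓ _ _ ?_ ?_ (σ * t) (by positivity) ?_
    · rw [add_sub_cancel_left, norm_smul, Real.norm_of_nonneg hσ.le]
      nlinarith
    · rw [add_sub_cancel_left, norm_smul, Real.norm_of_nonneg hσ.le]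
      nlinarith
    · have e1 : x + σ • q - (x + σ • p) - (σ * t) • u = σ • (q - p - t • u) := by
        simp only [smul_sub, smul_smul]
        abel
      rw [e1, norm_smul, Real.norm_of_nonneg hσ.le]
      nlinarith
  -- the bump function
  obtain ⟨χ, hχ⟩ : ∃ χ : E n → ℝ, χ = fun z => bmp n z := ⟨_, rfl⟩
  have hχs : ContDiff ℝ ∞ χ := by
    rw [hχ]
    exact (bmp n).contDiff
  have hχ0 : ∀ z, 0 ≤ χ z := by
    intro z
    rw [hχ]
    exact (bmp n).nonneg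
  have hχ1 : ∀ z, χ z ≤ 1 := by
    intro z
    rw [hχ]
    exact (bmp n).le_one
  have hχz : ∀ z, 1 ≤ ‖z‖ → χ z = 0 := by
    intro z hz
    rw [hχ]
    exact (bmp n).zero_of_le_dist (by rw [dist_zero_right]; exact hz)
  have hχe : ∀ z, ‖z‖ ≤ 1 / 2 → χ z = 1 := by
    intro z hz
    rw [hχ]
    exact (bmp n).one_of_mem_closedBall (by rw [mem_closedBall_zero_iff]; exact hz)
  obtain ⟨K, hK⟩ : ∃ K : NNReal, LipschitzWith K χ := by
    refine hχs.lipschitzWith_of_hasCompactSupport ?_ (by simp)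
    rw [hχ]
    exact (bmp n).hasCompactSupport
  have e1 : ∀ᶠ p : E n × ℕ in 𝓝 x ×ˢ atTop, p.1 ∈ ball x (σ / 2) :=
    tendsto_fst.eventually (ball_mem_nhds _ (by positivity))
  have e2 : ∀ᶠ p : E n × ℕ in 𝓝 x ×ˢ atTop, ε p.2 < min (σ / 4) (σ * κ / (2 * (K + 1))) :=
    (tendsto_scale hε0 x).eventually_lt_const (by positivity)
  filter_upwards [e1, e2, cont_near hε0 hgc, smooth_near hε hε0 hgc] with p h1 h2 h3 h4
  rw [lt_min_iff] at h2
  refine Pool.Agent.Y207.SH3.LD_of_pos h4 fun u hu h0 => ?_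
  obtain ⟨a, ha⟩ : ∃ a : ℝ, a = ε p.2 / σ := ⟨_, rfl⟩
  have hε2 := hε p.2
  have ha0 : 0 < a := by rw [ha]; positivity
  have ha1 : a ≤ 1 / 4 := by
    rw [ha, div_le_iff₀ hσ]
    linarith [h2.1]
  have haK : a * K ≤ κ / 2 := by
    have h5 := h2.2
    rw [lt_div_iff₀ (by positivity)] at h5
    rw [ha, div_mul_eq_mul_div, div_le_iff₀ hσ]
    nlinarith [K.2]
  obtain ⟨ℓ, hℓ⟩ := hGm u hu
  obtain ⟨w, hw⟩ : ∃ w : E n, w = σ⁻¹ • (p.1 - x) := ⟨_, rfl⟩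
  have hxw : x + σ • w = p.1 := by
    rw [hw, smul_smul, mul_inv_cancel₀ hσ.ne', one_smul, add_sub_cancel]
  have hwn : ‖w‖ < 1 / 2 := by
    rw [mem_ball, dist_eq_norm] at h1
    rw [hw, norm_smul, norm_inv, Real.norm_of_nonneg hσ.le, inv_mul_lt_iff₀ hσ]
    linarith
  have hpos := Pool.Agent.Y270.SH.mollP Pool.Agent.Y954.SH.mollS n G (fun z => a * χ z) κ u ℓ hκ hGc
    (contDiff_const.mul hχs) (fun z => mul_nonneg ha0.le (hχ0 z))
    (fun z => by nlinarith [hχ0 z, hχ1 z]) (fun z hz => by rw [hχz z hz.le, mul_zero])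
    (fun y z => by
      rw [← mul_sub, abs_mul, abs_of_pos ha0]
      have h5 := hK.dist_le_mul y z
      rw [Real.dist_eq, dist_eq_norm] at h5
      calc a * |χ y - χ z| ≤ a * (K * ‖y - z‖) := by gcongr
        _ = (a * K) * ‖y - z‖ := by ring
        _ ≤ κ / 2 * ‖y - z‖ := by gcongr) hu (fun p q hp hq t ht => hℓ p q hp hq t ht) w
    (by
      rw [hχe w hwn.le, mul_one]
      exact ha0)
  have hmoll : (fun z => mo g (ε p.2) (x + σ • z)) =ᶠ[𝓝 w] Moll n G fun z => a * χ z := by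
    have h5 : ∀ᶠ z in 𝓝 w, ‖z‖ < 1 / 2 := continuous_norm.continuousAt.eventually_lt_const hwn
    filter_upwards [h5] with z hz
    unfold mo Moll
    congr 1
    funext s
    beta_reduce
    rw [hχe z hz.le, mul_one, hG]
    congr 2
    rw [smul_add, smul_smul, ha, mul_div_cancel₀ _ hσ.ne', add_assoc]
  have hd : HasFDerivAt (fun z => mo g (ε p.2) (x + σ • z))
      ((fderiv ℝ (mo g (ε p.2)) p.1).comp (σ • ContinuousLinearMap.id ℝ (E n))) w := by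
    have h5 : HasFDerivAt (mo g (ε p.2)) (fderiv ℝ (mo g (ε p.2)) p.1) (x + σ • w) := by
      rw [hxw]
      exact (h4.self_of_nhds.differentiableAt (by simp)).hasFDerivAt
    exact h5.comp w (((hasFDerivAt_id w).const_smul σ).const_add x)
  rw [← hmoll.fderiv_eq, hd.fderiv] at hpos
  simp only [ContinuousLinearMap.comp_apply, smul_apply,
    ContinuousLinearMap.id_apply, map_smul, h0, smul_zero, map_zero] at hpos
  exact lt_irrefl _ hpos

/-- mollifications converge -/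
lemma mo_tendsto (hε : ∀ m, 0 < ε m) (hε0 : Tendsto ε atTop (𝓝 0)) {g : E n → E n} {x : E n}
    (hgc : ∀ᶠ w in 𝓝 x, ContinuousAt g w) {e : ℝ} (he : 0 < e) :
    ∀ᶠ p : E n × ℕ in 𝓝 x ×ˢ atTop, ‖mo g (ε p.2) p.1 - g p.1‖ ≤ e := by
  have hx := hgc.self_of_nhds
  obtain ⟨r, hr, hr2⟩ := Metric.continuousAt_iff.1 hx (e / 2) (by linarith)
  have e1 : ∀ᶠ p : E n × ℕ in 𝓝 x ×ˢ atTop, p.1 ∈ ball x (r / 2) :=
    tendsto_fst.eventually (ball_mem_nhds _ (by positivity))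
  have e3 : ∀ᶠ p : E n × ℕ in 𝓝 x ×ˢ atTop, ε p.2 < r / 2 :=
    (tendsto_scale hε0 x).eventually_lt_const (by positivity)
  filter_upwards [e1, e3, cont_near hε0 hgc] with p h1 h2 h3
  refine mo_close (hε _) h3 fun y hy => ?_
  rw [mem_ball] at h1
  have h4 : dist (g (p.1 + y)) (g x) < e / 2 := by
    refine hr2 ?_
    calc dist (p.1 + y) x ≤ dist (p.1 + y) p.1 + dist p.1 x := dist_triangle _ _ _
      _ < r / 2 + r / 2 := by
        refine add_lt_add_of_le_of_lt ?_ h1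
        rw [dist_eq_norm, add_sub_cancel_left]
        linarith
      _ = r := by ring
  have h5 : dist (g p.1) (g x) < e / 2 := hr2 (by linarith)
  rw [← dist_eq_norm]
  calc dist (g (p.1 + y)) (g p.1) ≤ dist (g (p.1 + y)) (g x) + dist (g p.1) (g x) :=
        dist_triangle_right _ _ _
    _ ≤ e := by linarith

lemma compact_ev {C : Set (E n)} (hC : IsCompact C) {P : E n × ℕ → Prop}
    (h : ∀ x ∈ C, ∀ᶠ p in 𝓝 x ×ˢ atTop, P p) : ∀ᶠ k in atTop, ∀ x ∈ C, P (x, k) := by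
  refine hC.induction_on (p := fun S => ∀ᶠ k in atTop, ∀ x ∈ S, P (x, k)) ?_ ?_ ?_ ?_
  · exact Eventually.of_forall fun k x hx => absurd hx (notMem_empty _)
  · intro S T hST h1
    filter_upwards [h1] with k hk x hx
    exact hk x (hST hx)
  · intro S T h1 h2
    filter_upwards [h1, h2] with k hk hk' x hx
    exact hx.elim (hk x) (hk' x)
  · intro x hx
    obtain ⟨P1, hP1, P2, hP2, hP⟩ := eventually_prod_iff.1 (h x hx)
    refine ⟨{y | P1 y}, mem_nhdsWithin_of_mem_nhds hP1, ?_⟩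
    filter_upwards [hP2] with k hk y hy
    exact hP hy hk

/-- **Gluing.** -/
theorem flat {H : E n → E n} {U B : Set (E n)} (hU : IsOpen U) (hc : ContinuousOn H U)
    (hε : ∀ m, 0 < ε m) (hε0 : Tendsto ε atTop (𝓝 0)) (hB : IsCompact B) (hBU : B ⊆ U)
    (hg : ∀ x ∈ U, x ∉ B → LD n H x)
    (hm : ∀ x ∈ B, ∀ᶠ p : E n × ℕ in 𝓝 x ×ˢ atTop, LD n (mo H (ε p.2)) p.1) :
    ∃ (C : Set (E n)) (χ : E n → ℝ), IsCompact C ∧ C ⊆ U ∧ (∀ x, 0 ≤ χ x) ∧ (∀ x, χ x ≤ 1) ∧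
      (∀ x, x ∉ C → χ x = 0) ∧
      (∀ e : ℝ, 0 < e → ∀ᶠ k in atTop, ∀ x ∈ C, ‖mo H (ε k) x - H x‖ ≤ e) ∧
      ∀ᶠ k in atTop, ∀ x ∈ U, LD n (fun z => H z + χ z • (mo H (ε k) z - H z)) x := by
  obtain ⟨C, hC, hBC, hCU⟩ := exists_compact_between hB hU hBU
  obtain ⟨χ, h1, h2, h3⟩ := exists_contMDiffMap_one_nhds_of_subset_interior (n := ⊤) (𝓡 n)
    hB.isClosed hBC
  have hχs : ContDiff ℝ ∞ χ := χ.contMDiff.contDiff
  have hca : ∀ x ∈ U, ∀ᶠ w in 𝓝 x, ContinuousAt H w := fun x hx => by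
    filter_upwards [hU.mem_nhds hx] with w hw
    exact hc.continuousAt (hU.mem_nhds hw)
  refine ⟨C, χ, hC, hCU, fun x => (h3 x).1, fun x => (h3 x).2, h2, ?_, ?_⟩
  · intro e he
    exact compact_ev hC fun x hx => mo_tendsto hε hε0 (hca x (hCU hx)) he
  · have hC1 : ∀ x ∈ C, ∀ᶠ p : E n × ℕ in 𝓝 x ×ˢ atTop,
        LD n (fun z => H z + χ z • (mo H (ε p.2) z - H z)) p.1 := by
      intro x hx
      by_cases hxB : x ∈ B
      · have e1 : ∀ᶠ y in 𝓝 x, χ y = 1 := h1.filter_mono (nhds_le_nhdsSet hxB)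
        have e2 : ∀ᶠ p : E n × ℕ in 𝓝 x ×ˢ atTop, ∀ᶠ y in 𝓝 p.1, χ y = 1 :=
          tendsto_fst.eventually (eventually_eventually_nhds.2 e1)
        filter_upwards [hm x hxB, e2] with p g1 g2
        refine g1.congr ?_
        filter_upwards [g2] with y hy
        rw [hy, one_smul, add_sub_cancel]
      · have hL := hg x (hCU hx) hxB
        obtain ⟨η, hη, hη1⟩ : ∃ η : ℝ, 0 < η ∧ kc n * η < 1 / 2 := by
          have := kc_nonneg (n := n)
          refine ⟨1 / (2 * kc n + 3), by positivity, ?_⟩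
          rw [mul_one_div, div_lt_iff₀ (by positivity)]
          linarith
        have hA := AAF.of_LD hε hε0 hL hη
        have hN := NrF.self hε hε0 hA (hca x (hCU hx))
        have hN0 := (NrF.of_LD (ε := ε) hL).mono hε (C' := 1 + η) (θ' := kc n * η)
          (by linarith) (by have := kc_nonneg (n := n); positivity)
        have hI := NrF.interp hε hε0 hN0 hN (by linarith) hη1
          (Eventually.of_forall fun z => hχs.contDiffAt) (fun z => (h3 z).1) (fun z => (h3 z).2)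
        exact hI.ld (by norm_num)
    filter_upwards [compact_ev hC hC1] with k hk x hx
    by_cases hxC : x ∈ C
    · exact hk x hxC
    · have hxB : x ∉ B := fun h => hxC (interior_subset (hBC h))
      refine (hg x hx hxB).congr ?_
      filter_upwards [hC.isClosed.isOpen_compl.mem_nhds hxC] with y hy
      rw [h2 y hy, zero_smul, add_zero]

end loc

end Run7.h60.Sc
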