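import Pool.Agent.Run7.h60.Ode

/-! Global solutions of Lipschitz bounded fields. -/

open Set MeasureTheory intervalIntegral Filter
open scoped Topology ContDiff NNReal

namespace Run7.h60

variable {V : Type*} [NormedAddCommGroup V] [NormedSpace ℝ V]

lemma exists_global [CompleteSpace V] {Y : V → V} {K L : ℝ≥0} (hY : LipschitzWith K Y)
    (hL : ∀ x, ‖Y x‖ ≤ L) (z₀ : V) :
    ∃ z : ℝ → V, z 0 = z₀ ∧ ∀ t, HasDerivAt z (Y (z t)) t := by
  have hex : ∀ n : ℕ, ∃ α : ℝ → V, α 0 = z₀ ∧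
      ∀ t ∈ Ioo (-((n:ℝ) + 1)) ((n:ℝ) + 1), HasDerivAt α (Y (α t)) t := by
    intro n
    have h0 : (0:ℝ) ∈ Icc (-((n:ℝ) + 1)) ((n:ℝ) + 1) := by
      constructor <;> linarith [(Nat.cast_nonneg n : (0:ℝ) ≤ n)]
    have hPL : IsPicardLindelof (fun _ => Y)
        (⟨0, h0⟩ : Icc (-((n:ℝ) + 1)) ((n:ℝ) + 1)) z₀ (L * (n + 1)) 0 L K :=
      { lipschitzOnWith := fun t _ => hY.lipschitzOnWith
        continuousOn := fun x _ => continuousOn_const
        norm_le := fun t _ x _ => hL x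
        mul_max_le := by
          simp only [sub_zero, zero_sub, neg_neg, max_self]
          push_cast
          simp }
    obtain ⟨α, hα0, hα⟩ := hPL.exists_eq_forall_mem_Icc_hasDerivWithinAt (x := z₀) (by simp)
    refine ⟨α, hα0, ?_⟩
    intro t ht
    exact (hα t ⟨ht.1.le, ht.2.le⟩).hasDerivAt (Icc_mem_nhds ht.1 ht.2)
  choose α hα0 hα using hex
  have hagree : ∀ (n m : ℕ), n ≤ m → ∀ t ∈ Ioo (-((n:ℝ) + 1)) ((n:ℝ) + 1), α n t = α m t := by
    intro n m hnm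
    have hnm' : (n:ℝ) ≤ m := by exact_mod_cast hnm
    apply ODE_solution_unique_of_mem_Ioo (v := fun _ => Y) (s := fun _ => univ) (K := K)
      (t₀ := 0)
    · exact fun t _ => hY.lipschitzOnWith
    · constructor <;> linarith [(Nat.cast_nonneg n : (0:ℝ) ≤ n)]
    · intro t ht; exact ⟨hα n t ht, mem_univ _⟩
    · intro t ht; exact ⟨hα m t ⟨by linarith [ht.1], by linarith [ht.2]⟩, mem_univ _⟩
    · rw [hα0, hα0]
  have hagree2 : ∀ (n m : ℕ) (t : ℝ), t ∈ Ioo (-((n:ℝ) + 1)) ((n:ℝ) + 1) →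
      t ∈ Ioo (-((m:ℝ) + 1)) ((m:ℝ) + 1) → α n t = α m t := by
    intro n m t hn hm
    rcases le_total n m with h | h
    · exact hagree n m h t hn
    · exact (hagree m n h t hm).symm
  have hceil : ∀ t : ℝ, t ∈ Ioo (-((⌈|t|⌉₊:ℝ) + 1)) ((⌈|t|⌉₊:ℝ) + 1) := by
    intro t
    have h1 := Nat.le_ceil |t|
    have h2 := abs_le.1 h1
    constructor <;> linarith [h2.1, h2.2]
  refine ⟨fun t => α ⌈|t|⌉₊ t, ?_, ?_⟩
  · simp [hα0]
  · intro t
    have h1 := hα ⌈|t|⌉₊ t (hceil t)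
    apply h1.congr_of_eventuallyEq
    filter_upwards [isOpen_Ioo.mem_nhds (hceil t)] with s hs
    exact hagree2 _ _ s (hceil s) hs

lemma contDiff_of_solution [CompleteSpace V] {Y : V → V} (hY : ContDiff ℝ ∞ Y) {z : ℝ → V}
    (hz : ∀ t, HasDerivAt z (Y (z t)) t) : ContDiff ℝ ∞ z := by
  rw [contDiff_iff_contDiffAt]
  intro t
  have h1 : ContDiffOn ℝ ∞ z (Icc (t-1) (t+1)) :=
    ODE.contDiffOn_enat_Icc_of_hasDerivWithinAt (f := fun _ => Y) (u := univ) (n := ⊤)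
      ((hY.comp contDiff_snd).contDiffOn) (fun s _ => (hz s).hasDerivWithinAt)
      (fun _ _ => mem_univ _)
  exact h1.contDiffAt (Icc_mem_nhds (by linarith) (by linarith))

lemma dist_solution_le {Y : V → V} {K : ℝ≥0} (hY : LipschitzWith K Y) {z₁ z₂ : ℝ → V}
    (h1 : ∀ t, HasDerivAt z₁ (Y (z₁ t)) t) (h2 : ∀ t, HasDerivAt z₂ (Y (z₂ t)) t) {t : ℝ}
    (ht : 0 ≤ t) : dist (z₁ t) (z₂ t) ≤ dist (z₁ 0) (z₂ 0) * Real.exp (K * t) := by
  have := dist_le_of_trajectories_ODE (v := fun _ => Y) (K := K) (a := 0) (b := t)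
    (f := z₁) (g := z₂) (δ := dist (z₁ 0) (z₂ 0)) (fun _ => hY)
    (fun s _ => (h1 s).continuousAt.continuousWithinAt)
    (fun s _ => (h1 s).hasDerivWithinAt)
    (fun s _ => (h2 s).continuousAt.continuousWithinAt)
    (fun s _ => (h2 s).hasDerivWithinAt) le_rfl t ⟨ht, le_rfl⟩
  simpa using this

lemma solution_unique {Y : V → V} {K : ℝ≥0} (hY : LipschitzWith K Y) {z₁ z₂ : ℝ → V}
    (h1 : ∀ t, HasDerivAt z₁ (Y (z₁ t)) t) (h2 : ∀ t, HasDerivAt z₂ (Y (z₂ t)) t)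
    (h0 : z₁ 0 = z₂ 0) : z₁ = z₂ := by
  apply ODE_solution_unique_univ (v := fun _ => Y) (s := fun _ => univ) (K := K) (t₀ := 0)
  · exact fun t => hY.lipschitzOnWith
  · exact fun t => ⟨h1 t, mem_univ _⟩
  · exact fun t => ⟨h2 t, mem_univ _⟩
  · exact h0

end Run7.h60
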