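import Pool.Agent.Run7.h60.SphGeo

/-! The acceleration of geodesics. -/

set_option maxSynthPendingDepth 3

open Set MeasureTheory intervalIntegral Filter
open scoped Topology ContDiff

namespace Run7.h60

variable {E : Type*} [NormedAddCommGroup E] [NormedSpace ℝ E]

/-- The acceleration of the geodesic through `x` with velocity `v`. -/
noncomputable def chr (G : E → E →L[ℝ] E →L[ℝ] ℝ) (x v : E) : E :=
  (G x).inverse (force G x v - (fderiv ℝ G x v) v)

lemma apply_inverse [FiniteDimensional ℝ E] {G : E → E →L[ℝ] E →L[ℝ] ℝ} {U : Set E}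
    (h : MetricOn G U) {x : E} (hx : x ∈ U) (p : E →L[ℝ] ℝ) : G x ((G x).inverse p) = p := by
  obtain ⟨e, he⟩ := h.exists_equiv hx
  rw [← he, ContinuousLinearMap.inverse_equiv]
  simp

lemma chr_spec [FiniteDimensional ℝ E] {G : E → E →L[ℝ] E →L[ℝ] ℝ} {U : Set E}
    (h : MetricOn G U) {x : E} (hx : x ∈ U) (v w : E) :
    G x (chr G x v) w = 1/2 * fderiv ℝ G x w v v - fderiv ℝ G x v v w := by
  unfold chr
  rw [apply_inverse h hx, sub_apply, force_apply]

lemma force_smul (G : E → E →L[ℝ] E →L[ℝ] ℝ) (x v : E) (r : ℝ) :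
    force G x (r • v) = r ^ 2 • force G x v := by
  ext e
  simp only [force_apply, map_smul, smul_apply, smul_eq_mul]
  ring

lemma chr_smul (G : E → E →L[ℝ] E →L[ℝ] ℝ) (x v : E) (r : ℝ) :
    chr G x (r • v) = r ^ 2 • chr G x v := by
  unfold chr
  rw [force_smul]
  simp only [map_smul, smul_apply]
  rw [smul_smul, ← sq, ← smul_sub, map_smul]

lemma contDiffOn_chr [FiniteDimensional ℝ E] {G : E → E →L[ℝ] E →L[ℝ] ℝ} {U : Set E}
    (h : MetricOn G U) :
    ContDiffOn ℝ ∞ (fun z : E × E => chr G z.1 z.2) (U ×ˢ (univ : Set E)) := by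
  have h1 : MapsTo (fun z : E × E => z.1) (U ×ˢ (univ : Set E)) U := fun z hz => hz.1
  have h2 : ContDiffOn ℝ ∞ (fun z : E × E => (G z.1).inverse) (U ×ˢ (univ : Set E)) :=
    h.contDiffOn_inverse.comp contDiffOn_fst h1
  have h0 : ContDiffOn ℝ ∞ (fderiv ℝ G) U := h.smooth.fderiv_of_isOpen h.isOpen (by simp)
  have h3 : ContDiffOn ℝ ∞ (fun z : E × E => (fderiv ℝ G z.1 z.2) z.2)
      (U ×ˢ (univ : Set E)) :=
    ((h0.comp contDiffOn_fst h1).clm_apply contDiffOn_snd).clm_apply contDiffOn_snd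
  exact h2.clm_apply ((contDiffOn_force h contDiffOn_fst contDiffOn_snd h1).sub h3)

/-- The geodesic field in velocity variables. -/
noncomputable def geo (G : E → E →L[ℝ] E →L[ℝ] ℝ) (z : E × E) : E × E :=
  (z.2, chr G z.1 z.2)

lemma contDiffOn_geo [FiniteDimensional ℝ E] {G : E → E →L[ℝ] E →L[ℝ] ℝ} {U : Set E}
    (h : MetricOn G U) : ContDiffOn ℝ ∞ (geo G) (U ×ˢ (univ : Set E)) :=
  contDiffOn_snd.prodMk (contDiffOn_chr h)

/-- Energy identity. -/
lemma chr_energy [FiniteDimensional ℝ E] {G : E → E →L[ℝ] E →L[ℝ] ℝ} {U : Set E}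
    (h : MetricOn G U) {x : E} (hx : x ∈ U) (v : E) :
    fderiv ℝ G x v v v + 2 * G x (chr G x v) v = 0 := by
  rw [chr_spec h hx]; ring

/-- The acceleration is determined by its products. -/
lemma eq_of_inner [FiniteDimensional ℝ E] {G : E → E →L[ℝ] E →L[ℝ] ℝ} {U : Set E}
    (h : MetricOn G U) {x : E} (hx : x ∈ U) {a b : E} (hab : ∀ w, G x a w = G x b w) :
    a = b := by
  have h1 : G x a = G x b := by ext w; exact hab w
  have h2 := congrArg (fun p => (G x).inverse p) h1
  simp only [h.inverse_apply hx] at h2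
  exact h2

/-- From the momentum equation to the acceleration equation. -/
lemma acc_of_momentum [FiniteDimensional ℝ E] {G : E → E →L[ℝ] E →L[ℝ] ℝ} {U : Set E}
    (h : MetricOn G U) {c : ℝ → E} (hc : ContDiff ℝ ∞ c) {t : ℝ} (hct : c t ∈ U)
    (hm : HasDerivAt (fun t => G (c t) (deriv c t)) (force G (c t) (deriv c t)) t) :
    deriv (deriv c) t = chr G (c t) (deriv c t) := by
  have hd : ContDiff ℝ ∞ (deriv c) := by
    have := (contDiff_infty_iff_deriv.1 hc).2
    exact this
  have h1 : HasDerivAt c (deriv c t) t := ((hc.differentiable (by simp)) t).hasDerivAt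
  have h2 : HasDerivAt (deriv c) (deriv (deriv c) t) t :=
    ((hd.differentiable (by simp)) t).hasDerivAt
  have h3 : HasFDerivAt G (fderiv ℝ G (c t)) (c t) :=
    ((h.smooth.contDiffAt (h.isOpen.mem_nhds hct)).differentiableAt (by norm_num)).hasFDerivAt
  have h4 : HasDerivAt (fun t => G (c t)) (fderiv ℝ G (c t) (deriv c t)) t :=
    h3.comp_hasDerivAt t h1
  have h5 := h4.clm_apply h2
  have h6 := hm.unique h5
  apply eq_of_inner h hct
  intro w
  rw [chr_spec h hct]
  have h7 := congrArg (fun p : E →L[ℝ] ℝ => p w) h6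
  simp only [force_apply, add_apply] at h7
  linarith

end Run7.h60
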