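import Mathlib

/-!
# Lagrangian submanifolds of the cotangent bundles of closed flat manifolds which are transverse to a
foliation by parallel, not necessarily Lagrangian, leaves
-/

set_option autoImplicit false

open Set Filter Topology Metric Function
open scoped ContDiff RealInnerProductSpace

noncomputable section

namespace Pool.Agent.Run7.h60.Lag

/-- Euclidean space -/
abbrev E (n : ℕ) := EuclideanSpace ℝ (Fin n)

variable {n : ℕ}

/-- the symplectic form -/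
def om (a b : E n × E n) : ℝ := ⟪a.2, b.1⟫ - ⟪b.2, a.1⟫

/-- the action of `x ↦ O x + b` on the cotangent bundle -/
def act (γ : (E n → E n) × E n) (z : E n × E n) : E n × E n := (γ.1 z.1 + γ.2, γ.1 z.2)

/-- lifts of closed Lagrangian submanifolds of `T*N`, `N = ℝⁿ/Γ` -/
structure LagT (Γ : Set ((E n → E n) × E n)) (Λ : Set (E n × E n)) : Prop where
  closed : IsClosed Λ
  nonempty : Λ.Nonempty
  inv : ∀ γ ∈ Γ, ∀ z ∈ Λ, act γ z ∈ Λ
  bdd : ∃ R : ℝ, ∀ z ∈ Λ, ‖z.2‖ ≤ R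
  par : ∀ z ∈ Λ, ∃ F : E n → E n × E n, ContDiff ℝ ∞ F ∧ F 0 = z ∧
    (∀ V : Set (E n), IsOpen V → ∃ U : Set (E n × E n), IsOpen U ∧ F '' V = Λ ∩ U) ∧
    (∀ s v, fderiv ℝ F s v = 0 → v = 0) ∧
    ∀ s v w, om (fderiv ℝ F s v) (fderiv ℝ F s w) = 0

/-- proper local homeomorphisms of connected spaces to Euclidean spaces are injective -/
theorem inj_of_proper {X : Type} [TopologicalSpace X] [T2Space X] [PreconnectedSpace X]
    {G : X → E n} (hG : IsLocalHomeomorph G) (hproper : IsProperMap G) : Injective G := by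
  have hc : Continuous G := hG.continuous
  have hfin : ∀ x ∈ (univ : Set (E n)), (G ⁻¹' {x}).Finite := by
    intro x _
    refine (hproper.isCompact_preimage isCompact_singleton).finite ?_
    exact IsDiscrete.of_openPartialHomeomorph G subset_rfl fun e _ => by
      obtain ⟨φ, h1, h2⟩ := hG e
      exact ⟨φ, h1, h2.symm⟩
  have hcov : IsCoveringMap G := by
    rw [isCoveringMap_iff_isCoveringMapOn_univ]
    exact hproper.isClosedMap.isCoveringMapOn_of_isLocalHomeomorphOn hfin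
      (by rw [preimage_univ]; exact isLocalHomeomorph_iff_isLocalHomeomorphOn_univ.1 hG)
  have : LocallyPathConnectedSpace (E n) := inferInstance
  have : SimplyConnectedSpace (E n) := inferInstance
  intro a b hab
  obtain ⟨F, ⟨hF1, hF2⟩, -⟩ := hcov.existsUnique_continuousMap_lifts
    (ContinuousMap.id (E n)) (G a) a rfl
  have h1 : F ∘ G = id := by
    refine hcov.eq_of_comp_eq (F.continuous.comp hc) continuous_id ?_ a hF1
    rw [← comp_assoc, hF2]
    rfl
  have h2 := congrFun h1 b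
  simp only [comp_apply, id] at h2
  rw [← h2, ← hab]
  exact hF1.symm

/-- proper local homeomorphisms of Euclidean spaces are bijective -/
theorem bij_of_proper {G : E n → E n} (hG : IsLocalHomeomorph G)
    (hp : Tendsto G (cocompact _) (cocompact _)) : Bijective G := by
  have hc : Continuous G := hG.continuous
  have hproper : IsProperMap G := isProperMap_iff_tendsto_cocompact.2 ⟨hc, hp⟩
  refine ⟨inj_of_proper hG hproper, ?_⟩
  have h1 : IsOpen (range G) := hG.isOpenMap.isOpen_range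
  have h2 : IsClosed (range G) := hproper.isClosedMap.isClosed_range
  rcases isClopen_iff.1 ⟨h2, h1⟩ with h | h
  · exact absurd h (range_nonempty G).ne_empty
  · exact range_eq_univ.1 h

/-- smooth maps with injective derivatives at bounded distance from the identity are
diffeomorphisms -/
theorem diffeo_of_bdd {g : E n → E n} (hg : ContDiff ℝ ∞ g) {C : ℝ} (hC : ∀ x, ‖g x - x‖ ≤ C)
    (hd : ∀ x v, fderiv ℝ g x v = 0 → v = 0) :
    ∃ e : E n ≃ E n, (∀ x, e x = g x) ∧ ContDiff ℝ ∞ e.symm := by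
  have hn : (∞ : WithTop ℕ∞) ≠ 0 := by simp
  have hB : ∀ x, ∃ B : E n ≃L[ℝ] E n, HasFDerivAt g (B : E n →L[ℝ] E n) x := by
    intro x
    have hi : Injective (fderiv ℝ g x : E n →ₗ[ℝ] E n) := by
      rw [← LinearMap.ker_eq_bot, LinearMap.ker_eq_bot']
      intro v hv
      exact hd x v hv
    refine ⟨(LinearEquiv.ofInjectiveEndo _ hi).toContinuousLinearEquiv, ?_⟩
    have h2 : ((LinearEquiv.ofInjectiveEndo _ hi).toContinuousLinearEquiv : E n →L[ℝ] E n) =
        fderiv ℝ g x := by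
      ext1 v
      rfl
    rw [h2]
    exact ((hg.differentiable (by simp)).differentiableAt).hasFDerivAt
  choose B hB using hB
  have hloc : IsLocalHomeomorph g := by
    intro x
    exact ⟨hg.contDiffAt.toOpenPartialHomeomorph g (hB x) hn,
      hg.contDiffAt.mem_toOpenPartialHomeomorph_source (hB x) hn, rfl⟩
  have hp : Tendsto g (cocompact _) (cocompact _) := by
    rw [← Metric.cobounded_eq_cocompact, ← tendsto_norm_atTop_iff_cobounded]
    refine tendsto_atTop_mono (f := fun x : E n => ‖x‖ - C) (fun x => ?_) ?_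
    · have h1 := norm_sub_norm_le x (x - g x)
      rw [sub_sub_cancel, norm_sub_rev] at h1
      have h2 := hC x
      show ‖x‖ - C ≤ ‖g x‖
      linarith
    · exact tendsto_atTop_add_const_right _ (-C) tendsto_norm_cobounded_atTop
  have hbij := bij_of_proper hloc hp
  refine ⟨Equiv.ofBijective g hbij, fun _ => rfl, ?_⟩
  let h : E n ≃ₜ E n :=
    (Equiv.ofBijective g hbij).toHomeomorphOfContinuousOpen hg.continuous hloc.isOpenMap
  exact h.contDiff_symm (f₀' := B) hB hg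

/-- tangent vectors -/
def Tan (Λ : Set (E n × E n)) (z a : E n × E n) : Prop :=
  ∃ γ : ℝ → E n × E n, ContDiff ℝ ∞ γ ∧ γ 0 = z ∧ (∀ t, γ t ∈ Λ) ∧ deriv γ 0 = a

/-- local charts -/
theorem loc_chart {Γ : Set ((E n → E n) × E n)} {Λ : Set (E n × E n)} (hΛ : LagT Γ Λ)
    (k : E n → E n) (hk : ContDiff ℝ ∞ k)
    (hT : ∀ z ∈ Λ, ∀ a, Tan Λ z a → a.1 + fderiv ℝ k z.2 a.2 = 0 → a = 0)
    {z : E n × E n} (hz : z ∈ Λ) :
    ∃ F : E n → E n × E n, ContDiff ℝ ∞ F ∧ F 0 = z ∧ (∀ s, F s ∈ Λ) ∧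
      (∀ V : Set (E n), IsOpen V → ∃ U : Set (E n × E n), IsOpen U ∧ F '' V = Λ ∩ U) ∧
      ∃ e : E n ≃L[ℝ] E n,
        HasStrictFDerivAt (fun s => (F s).1 + k (F s).2) (e : E n →L[ℝ] E n) 0 := by
  have hkd : ∀ x, HasFDerivAt k (fderiv ℝ k x) x := fun x =>
    ((hk.differentiable (by simp)).differentiableAt).hasFDerivAt
  obtain ⟨F, hF, hF0, hU, himm, -⟩ := hΛ.par z hz
  have hFΛ : ∀ s, F s ∈ Λ := by
    intro s
    obtain ⟨U, -, hU'⟩ := hU univ isOpen_univ
    have : F s ∈ F '' univ := mem_image_of_mem _ (mem_univ s)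
    rw [hU'] at this
    exact this.1
  obtain ⟨G, hGd⟩ : ∃ G : E n → E n, G = fun s => (F s).1 + k (F s).2 := ⟨_, rfl⟩
  have hG : ContDiff ℝ ∞ G := by
    rw [hGd]
    exact (contDiff_fst.comp hF).add (hk.comp (contDiff_snd.comp hF))
  have hFd : HasFDerivAt F (fderiv ℝ F 0) 0 :=
    ((hF.differentiable (by simp)).differentiableAt).hasFDerivAt
  have hinj : Injective (fderiv ℝ G 0 : E n →ₗ[ℝ] E n) := by
    rw [← LinearMap.ker_eq_bot, LinearMap.ker_eq_bot']
    intro v hv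
    have hv' : fderiv ℝ G 0 v = 0 := hv
    have h1 : fderiv ℝ G 0 v = (fderiv ℝ F 0 v).1 + fderiv ℝ k z.2 (fderiv ℝ F 0 v).2 := by
      have g1 : HasFDerivAt (fun s => (F s).1)
          ((ContinuousLinearMap.fst ℝ (E n) (E n)).comp (fderiv ℝ F 0)) 0 :=
        hasFDerivAt_fst.comp 0 hFd
      have g2 : HasFDerivAt (fun s => (F s).2)
          ((ContinuousLinearMap.snd ℝ (E n) (E n)).comp (fderiv ℝ F 0)) 0 :=
        hasFDerivAt_snd.comp 0 hFd
      have g3 : HasFDerivAt (fun s => k (F s).2)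
          ((fderiv ℝ k (F 0).2).comp
            ((ContinuousLinearMap.snd ℝ (E n) (E n)).comp (fderiv ℝ F 0))) 0 :=
        (hkd (F 0).2).comp 0 g2
      have g5 : HasFDerivAt (fun s => (F s).1 + k (F s).2)
          ((ContinuousLinearMap.fst ℝ (E n) (E n)).comp (fderiv ℝ F 0) +
            (fderiv ℝ k (F 0).2).comp
            ((ContinuousLinearMap.snd ℝ (E n) (E n)).comp (fderiv ℝ F 0))) 0 := g1.add g3
      rw [hGd, g5.fderiv, hF0]
      rfl
    have h2 : Tan Λ z (fderiv ℝ F 0 v) := by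
      refine ⟨fun t => F (t • v), hF.comp (contDiff_id.smul contDiff_const), ?_, fun t => hFΛ _,
        ?_⟩
      · simp only [zero_smul, hF0]
      · have g1 : HasDerivAt (fun t : ℝ => t • v) v 0 := by
          simpa using (hasDerivAt_id (0 : ℝ)).smul_const v
        have g0 : HasFDerivAt F (fderiv ℝ F 0) ((0 : ℝ) • v) := by
          rw [zero_smul]
          exact hFd
        exact (g0.comp_hasDerivAt (0 : ℝ) g1).deriv
    have h3 := hT z hz _ h2 (by rw [← h1, hv'])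
    exact himm 0 v h3
  let e : E n ≃L[ℝ] E n := (LinearEquiv.ofInjectiveEndo _ hinj).toContinuousLinearEquiv
  have h2 : (e : E n →L[ℝ] E n) = fderiv ℝ G 0 := by
    ext1 v
    rfl
  refine ⟨F, hF, hF0, hFΛ, hU, e, ?_⟩
  rw [h2, ← hGd]
  exact hG.contDiffAt.hasStrictFDerivAt (by simp)

/-- a connected transverse submanifold meets every leaf at most once -/
theorem uniq_of_conn {Γ : Set ((E n → E n) × E n)} {Λ : Set (E n × E n)} (hΛ : LagT Γ Λ)
    (hcon : IsPreconnected Λ) (k : E n → E n) (hk : ContDiff ℝ ∞ k)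
    (hT : ∀ z ∈ Λ, ∀ a, Tan Λ z a → a.1 + fderiv ℝ k z.2 a.2 = 0 → a = 0) :
    ∀ z ∈ Λ, ∀ z' ∈ Λ, z.1 + k z.2 = z'.1 + k z'.2 → z = z' := by
  classical
  have hpc : PreconnectedSpace Λ := isPreconnected_iff_preconnectedSpace.1 hcon
  obtain ⟨G, hG⟩ : ∃ G : Λ → E n, ∀ z, G z = z.1.1 + k z.1.2 := ⟨_, fun _ => rfl⟩
  have hAc : Continuous (fun z : E n × E n => z.1 + k z.2) :=
    continuous_fst.add (hk.continuous.comp continuous_snd)
  have hGc : Continuous G := by
    have : G = fun z => z.1.1 + k z.1.2 := funext hG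
    rw [this]
    exact hAc.comp continuous_subtype_val
  have hopen : IsOpenMap G := by
    rw [isOpenMap_iff_nhds_le]
    rintro ⟨z, hz⟩
    obtain ⟨F, hF, hF0, hFΛ, hU, e, he⟩ := loc_chart hΛ k hk hT hz
    have h1 : map (fun s => (F s).1 + k (F s).2) (𝓝 0) = 𝓝 ((F 0).1 + k (F 0).2) :=
      he.map_nhds_eq_of_equiv
    obtain ⟨F', hF'⟩ : ∃ F' : E n → Λ, F' = fun s => ⟨F s, hFΛ s⟩ := ⟨_, rfl⟩
    have hF'c : Continuous F' := by
      rw [hF']
      exact hF.continuous.subtype_mk _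
    have h2 : F' 0 = ⟨z, hz⟩ := by rw [hF']; exact Subtype.ext hF0
    have h3 : (fun s => (F s).1 + k (F s).2) = G ∘ F' := by
      funext s
      rw [comp_apply, hG, hF']
    have h4 : G ⟨z, hz⟩ = (F 0).1 + k (F 0).2 := by rw [hG, hF0]
    rw [h4, ← h1, h3, ← Filter.map_map]
    refine map_mono ?_
    rw [← h2]
    exact hF'c.continuousAt
  have hlh : IsLocalHomeomorph G := by
    rw [isLocalHomeomorph_iff_isOpenEmbedding_restrict]
    rintro ⟨z, hz⟩
    obtain ⟨F, hF, hF0, hFΛ, hU, e, he⟩ := loc_chart hΛ k hk hT hz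
    obtain ⟨V, hVo, hV0, hVi⟩ : ∃ V : Set (E n), IsOpen V ∧ (0 : E n) ∈ V ∧
        InjOn (fun s => (F s).1 + k (F s).2) V :=
      ⟨_, (he.toOpenPartialHomeomorph _).open_source, he.mem_toOpenPartialHomeomorph_source,
        (he.toOpenPartialHomeomorph _).injOn⟩
    obtain ⟨U, hUo, hUV⟩ := hU V hVo
    refine ⟨Subtype.val ⁻¹' U, (hUo.preimage continuous_subtype_val).mem_nhds ?_, ?_⟩
    · have : F 0 ∈ F '' V := ⟨0, hV0, rfl⟩
      rw [hUV, hF0] at this
      exact this.2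
    · refine IsOpenEmbedding.of_continuous_injective_isOpenMap
        (hGc.comp continuous_subtype_val) ?_ (hopen.restrict (hUo.preimage continuous_subtype_val))
      rw [← injOn_iff_injective]
      rintro ⟨a, ha⟩ haU ⟨b, hb⟩ hbU hab
      have ha' : a ∈ F '' V := by rw [hUV]; exact ⟨ha, haU⟩
      have hb' : b ∈ F '' V := by rw [hUV]; exact ⟨hb, hbU⟩
      obtain ⟨s, hs, rfl⟩ := ha'
      obtain ⟨t, ht, rfl⟩ := hb'
      rw [hG, hG] at hab
      have := hVi hs ht hab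
      subst this
      rfl
  have hproper : IsProperMap G := by
    rw [isProperMap_iff_isCompact_preimage]
    refine ⟨hGc, fun K hK => ?_⟩
    rw [Subtype.isCompact_iff]
    obtain ⟨R, hR⟩ := hΛ.bdd
    obtain ⟨M, hM⟩ :=
      ((isCompact_closedBall (0 : E n) R).image hk.continuous).isBounded.exists_norm_le
    obtain ⟨N, hN⟩ := hK.isBounded.exists_norm_le
    have h1 : Subtype.val '' (G ⁻¹' K) = Λ ∩ (fun z : E n × E n => z.1 + k z.2) ⁻¹' K := by
      ext z
      constructor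
      · rintro ⟨w, hw, rfl⟩
        refine ⟨w.2, ?_⟩
        have h2 : G w ∈ K := hw
        rw [hG] at h2
        exact h2
      · rintro ⟨h, h'⟩
        refine ⟨⟨z, h⟩, ?_, rfl⟩
        show G ⟨z, h⟩ ∈ K
        rw [hG]
        exact h'
    rw [h1]
    refine (isCompact_closedBall (0 : E n × E n) (max (N + M) R)).of_isClosed_subset
      (hΛ.closed.inter (hK.isClosed.preimage hAc)) ?_
    rintro z ⟨hz, hzK⟩
    rw [mem_closedBall_zero_iff, Prod.norm_def]
    refine max_le_max ?_ (hR _ hz)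
    have h2 : z.1 = (z.1 + k z.2) - k z.2 := by abel
    rw [h2]
    exact (norm_sub_le _ _).trans (add_le_add (hN _ hzK)
      (hM _ ⟨_, by rw [mem_closedBall_zero_iff]; exact hR _ hz, rfl⟩))
  have hinj := inj_of_proper hlh hproper
  intro z hz z' hz' he
  have h1 : (⟨z, hz⟩ : Λ) = ⟨z', hz'⟩ := hinj (by rw [hG, hG]; exact he)
  exact congrArg Subtype.val h1

/-- a closed Lagrangian submanifold which meets the leaves `q + k(p) = const` transversally and at
most once is a section -/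
theorem sect {Γ : Set ((E n → E n) × E n)} (hΓ : ∀ γ ∈ Γ, ∀ v w, γ.1 (v + w) = γ.1 v + γ.1 w)
    {Λ : Set (E n × E n)} (hΛ : LagT Γ Λ) (k : E n → E n) (hk : ContDiff ℝ ∞ k)
    (hkΓ : ∀ γ ∈ Γ, ∀ p, k (γ.1 p) = γ.1 (k p))
    (hT : ∀ z ∈ Λ, ∀ a, Tan Λ z a → a.1 + fderiv ℝ k z.2 a.2 = 0 → a = 0)
    (hu : ∀ z ∈ Λ, ∀ z' ∈ Λ, z.1 + k z.2 = z'.1 + k z'.2 → z = z') :
    ∃ u : E n → E n, ContDiff ℝ ∞ u ∧ (∀ x, (x - k (u x), u x) ∈ Λ) ∧
      (∀ z ∈ Λ, z = (z.1 + k z.2 - k (u (z.1 + k z.2)), u (z.1 + k z.2))) ∧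
      (∀ γ ∈ Γ, ∀ x, u (γ.1 x + γ.2) = γ.1 (u x)) ∧ (∃ R, ∀ x, ‖u x‖ ≤ R) ∧
      ∀ x v w, ⟪fderiv ℝ u x v, w - fderiv ℝ k (u x) (fderiv ℝ u x w)⟫ -
        ⟪fderiv ℝ u x w, v - fderiv ℝ k (u x) (fderiv ℝ u x v)⟫ = 0 := by
  classical
  obtain ⟨A, hAd⟩ : ∃ A : E n × E n → E n, ∀ z, A z = z.1 + k z.2 := ⟨_, fun _ => rfl⟩
  have hAs : ContDiff ℝ ∞ A := by
    have : A = fun z => z.1 + k z.2 := funext hAd
    rw [this]
    exact contDiff_fst.add (hk.comp contDiff_snd)
  have hkd : ∀ x, HasFDerivAt k (fderiv ℝ k x) x := fun x =>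
    ((hk.differentiable (by simp)).differentiableAt).hasFDerivAt
  have hAf : ∀ z a, fderiv ℝ A z a = a.1 + fderiv ℝ k z.2 a.2 := by
    intro z a
    have h1 : A = fun z => z.1 + k z.2 := funext hAd
    have h2 : HasFDerivAt (fun z : E n × E n => z.1 + k z.2)
        (ContinuousLinearMap.fst ℝ (E n) (E n) +
          (fderiv ℝ k z.2).comp (ContinuousLinearMap.snd ℝ (E n) (E n))) z :=
      hasFDerivAt_fst.add ((hkd z.2).comp z hasFDerivAt_snd)
    rw [h1, h2.fderiv]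
    rfl
  have huniq : ∀ z ∈ Λ, ∀ z' ∈ Λ, A z = A z' → z = z' := by
    intro z hz z' hz' he
    rw [hAd, hAd] at he
    exact hu z hz z' hz' he
  -- local inverses
  have hloc : ∀ z ∈ Λ, ∃ (F : E n → E n × E n) (I : E n → E n), ContDiff ℝ ∞ F ∧
      ContDiffAt ℝ ∞ I (A z) ∧ (∀ s, F s ∈ Λ) ∧ F (I (A z)) = z ∧
      (∀ᶠ x in 𝓝 (A z), A (F (I x)) = x) ∧
      ∀ s v w, om (fderiv ℝ F s v) (fderiv ℝ F s w) = 0 := by
    intro z hz
    obtain ⟨F, hF, hF0, hU, himm, hom⟩ := hΛ.par z hz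
    have hFΛ : ∀ s, F s ∈ Λ := by
      intro s
      obtain ⟨U, -, hU'⟩ := hU univ isOpen_univ
      have : F s ∈ F '' univ := mem_image_of_mem _ (mem_univ s)
      rw [hU'] at this
      exact this.1
    obtain ⟨G, hGd⟩ : ∃ G : E n → E n, G = fun s => A (F s) := ⟨_, rfl⟩
    have hG : ContDiff ℝ ∞ G := by
      rw [hGd]
      exact hAs.comp hF
    have hFd : HasFDerivAt F (fderiv ℝ F 0) 0 :=
      ((hF.differentiable (by simp)).differentiableAt).hasFDerivAt
    have hinj : Injective (fderiv ℝ G 0 : E n →ₗ[ℝ] E n) := by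
      rw [← LinearMap.ker_eq_bot, LinearMap.ker_eq_bot']
      intro v hv
      have hv' : fderiv ℝ G 0 v = 0 := hv
      have h1 : fderiv ℝ G 0 v = fderiv ℝ A z (fderiv ℝ F 0 v) := by
        have g1 : HasFDerivAt A (fderiv ℝ A (F 0)) (F 0) :=
          ((hAs.differentiable (by simp)).differentiableAt).hasFDerivAt
        have g2 := g1.comp 0 hFd
        have g3 : G = A ∘ F := hGd
        rw [g3, g2.fderiv, hF0]
        rfl
      have h2 : Tan Λ z (fderiv ℝ F 0 v) := by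
        refine ⟨fun t => F (t • v), hF.comp (contDiff_id.smul contDiff_const), ?_, fun t => hFΛ _,
          ?_⟩
        · simp only [zero_smul, hF0]
        · have g1 : HasDerivAt (fun t : ℝ => t • v) v 0 := by
            simpa using (hasDerivAt_id (0 : ℝ)).smul_const v
          have g0 : HasFDerivAt F (fderiv ℝ F 0) ((0 : ℝ) • v) := by
            rw [zero_smul]
            exact hFd
          exact (g0.comp_hasDerivAt (0 : ℝ) g1).deriv
      have h3 := hT z hz _ h2 (by rw [← hAf, ← h1, hv'])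
      exact himm 0 v h3
    let e : E n ≃L[ℝ] E n := (LinearEquiv.ofInjectiveEndo _ hinj).toContinuousLinearEquiv
    have he : HasFDerivAt G (e : E n →L[ℝ] E n) 0 := by
      have h1 := ((hG.differentiable (by simp)).differentiableAt (x := (0 : E n))).hasFDerivAt
      have h2 : (e : E n →L[ℝ] E n) = fderiv ℝ G 0 := by
        ext1 v
        rfl
      rw [h2]
      exact h1
    have hGa : ContDiffAt ℝ ∞ G 0 := hG.contDiffAt
    have hn : (∞ : WithTop ℕ∞) ≠ 0 := by simp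
    have hG0 : G 0 = A z := by rw [hGd]; simp only [hF0]
    refine ⟨F, hGa.localInverse he hn, hF, ?_, hFΛ, ?_, ?_, hom⟩
    · rw [← hG0]
      exact hGa.to_localInverse he hn
    · rw [← hG0, hGa.localInverse_apply_image he hn, hF0]
    · rw [← hG0]
      have h3 := (hGa.hasStrictFDerivAt' he hn).eventually_right_inverse
      filter_upwards [h3] with x hx
      have h4 : G (hGa.localInverse he hn x) = x := hx
      exact (congrFun hGd _).symm.trans h4
  -- surjectivity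
  have hsurj : A '' Λ = univ := by
    refine IsClopen.eq_univ ⟨?_, ?_⟩ (hΛ.nonempty.image A)
    · rw [← isSeqClosed_iff_isClosed]
      intro x y hx hxy
      obtain ⟨R, hR⟩ := hΛ.bdd
      choose z hz hzx using hx
      obtain ⟨M, hM⟩ := ((isCompact_closedBall (0 : E n) R).image hk.continuous).isBounded.exists_norm_le
      obtain ⟨N, hN⟩ := (Metric.isBounded_range_of_tendsto x hxy).exists_norm_le
      have hb : ∀ i, z i ∈ closedBall (0 : E n × E n) (max (N + M) R) := by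
        intro i
        rw [mem_closedBall_zero_iff, Prod.norm_def]
        refine max_le_max ?_ (hR _ (hz i))
        have h1 : (z i).1 = x i - k (z i).2 := by
          rw [← hzx i, hAd]
          abel
        rw [h1]
        refine (norm_sub_le _ _).trans (add_le_add (hN _ (mem_range_self i)) (hM _ ⟨_, ?_, rfl⟩))
        rw [mem_closedBall_zero_iff]
        exact hR _ (hz i)
      obtain ⟨w, -, φ, hφ, hw⟩ := (isCompact_closedBall (0 : E n × E n) (max (N + M) R)).tendsto_subseq hb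
      have hwΛ : w ∈ Λ := hΛ.closed.mem_of_tendsto hw (Eventually.of_forall fun i => hz _)
      refine ⟨w, hwΛ, ?_⟩
      have h1 : Tendsto (fun i => A (z (φ i))) atTop (𝓝 (A w)) :=
        (hAs.continuous.tendsto w).comp hw
      have h2 : Tendsto (fun i => A (z (φ i))) atTop (𝓝 y) := by
        have h3 : (fun i => A (z (φ i))) = fun i => x (φ i) := funext fun i => hzx _
        rw [h3]
        exact hxy.comp hφ.tendsto_atTop
      exact tendsto_nhds_unique h1 h2
    · rw [isOpen_iff_mem_nhds]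
      rintro _ ⟨z, hz, rfl⟩
      obtain ⟨F, I, -, -, hFΛ, -, hr, -⟩ := hloc z hz
      filter_upwards [hr] with x hx
      exact ⟨F (I x), hFΛ _, hx⟩
  have hex : ∀ x, ∃ z, z ∈ Λ ∧ A z = x := by
    intro x
    have : x ∈ A '' Λ := by rw [hsurj]; trivial
    obtain ⟨z, hz, hzx⟩ := this
    exact ⟨z, hz, hzx⟩
  choose B hBΛ hBA using hex
  obtain ⟨u, hu⟩ : ∃ u : E n → E n, ∀ x, u x = (B x).2 := ⟨_, fun _ => rfl⟩
  have hB1 : ∀ x, (B x).1 = x - k (u x) := by
    intro x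
    have := hBA x
    rw [hAd] at this
    rw [hu, eq_sub_iff_add_eq]
    exact this
  have hBe : ∀ x, B x = (x - k (u x), u x) := fun x => Prod.ext (hB1 x) (hu x).symm
  -- smoothness and the Lagrangian condition
  have hBloc : ∀ x, ContDiffAt ℝ ∞ B x ∧ ∀ v w, om (fderiv ℝ B x v) (fderiv ℝ B x w) = 0 := by
    intro x
    obtain ⟨F, I, hF, hI, hFΛ, hFI, hr, hom⟩ := hloc (B x) (hBΛ x)
    rw [hBA] at hI hr hFI
    have he : B =ᶠ[𝓝 x] fun y => F (I y) := by
      filter_upwards [hr] with y hy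
      exact huniq _ (hBΛ y) _ (hFΛ _) ((hBA y).trans hy.symm)
    have hc : ContDiffAt ℝ ∞ (fun y => F (I y)) x := hF.contDiffAt.comp x hI
    refine ⟨hc.congr_of_eventuallyEq he, fun v w => ?_⟩
    have hd : fderiv ℝ B x = (fderiv ℝ F (I x)).comp (fderiv ℝ I x) := by
      rw [he.fderiv_eq]
      exact fderiv_comp x ((hF.differentiable (by simp)).differentiableAt)
        (hI.differentiableAt (by simp))
    rw [hd]
    exact hom _ _ _
  have hBs : ContDiff ℝ ∞ B := contDiff_iff_contDiffAt.2 fun x => (hBloc x).1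
  have hus : ContDiff ℝ ∞ u := by
    have : u = fun x => (B x).2 := funext hu
    rw [this]
    exact contDiff_snd.comp hBs
  have hud : ∀ x, HasFDerivAt u (fderiv ℝ u x) x := fun x =>
    ((hus.differentiable (by simp)).differentiableAt).hasFDerivAt
  refine ⟨u, hus, fun x => hBe x ▸ hBΛ x, fun z hz => ?_, fun γ hγ x => ?_, ?_,
    fun x v w => ?_⟩
  · have h1 := huniq _ hz _ (hBΛ (A z)) (hBA (A z)).symm
    rw [hBe, hAd] at h1
    exact h1
  · have h1 : act γ (B x) ∈ Λ := hΛ.inv γ hγ _ (hBΛ x)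
    have h2 : A (act γ (B x)) = A (B (γ.1 x + γ.2)) := by
      rw [hBA, hAd]
      show γ.1 (B x).1 + γ.2 + k (γ.1 (B x).2) = _
      rw [hkΓ γ hγ, hBe]
      have h3 : γ.1 (x - k (u x)) + γ.1 (k (u x)) = γ.1 x := by
        rw [← hΓ γ hγ, sub_add_cancel]
      show γ.1 (x - k (u x)) + γ.2 + γ.1 (k (u x)) = _
      rw [← h3]
      abel
    have h4 := huniq _ h1 _ (hBΛ _) h2
    have h5 := congrArg Prod.snd h4
    rw [hu, ← h5]
    show γ.1 (B x).2 = _
    rw [hu]
  · obtain ⟨R, hR⟩ := hΛ.bdd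
    exact ⟨R, fun x => hu x ▸ hR _ (hBΛ x)⟩
  · have hBd : HasFDerivAt B (((ContinuousLinearMap.id ℝ (E n)) -
        (fderiv ℝ k (u x)).comp (fderiv ℝ u x)).prod (fderiv ℝ u x)) x := by
      have h1 : B = fun x => (x - k (u x), u x) := funext hBe
      rw [h1]
      exact ((hasFDerivAt_id x).sub ((hkd (u x)).comp x (hud x))).prodMk (hud x)
    have h2 := (hBloc x).2 v w
    rw [hBd.fderiv] at h2
    exact h2

/-- the main theorem -/
theorem mainT {Γ : Set ((E n → E n) × E n)} (hΓ : ∀ γ ∈ Γ, ∀ v w, γ.1 (v + w) = γ.1 v + γ.1 w)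
    {Λ : Set (E n × E n)} (hΛ : LagT Γ Λ) (h : E n → E n) (hh : ContDiff ℝ ∞ h)
    (hsym : ∀ p v w, ⟪fderiv ℝ h p v, w⟫ = ⟪v, fderiv ℝ h p w⟫)
    (A : E n →L[ℝ] E n) (hA : ∀ v w, ⟪A v, w⟫ = -⟪v, A w⟫)
    (hhΓ : ∀ γ ∈ Γ, ∀ p, h (γ.1 p) = γ.1 (h p)) (hAΓ : ∀ γ ∈ Γ, ∀ p, A (γ.1 p) = γ.1 (A p))
    (hT : ∀ z ∈ Λ, ∀ a, Tan Λ z a → a.1 + (fderiv ℝ h z.2 a.2 + A a.2) = 0 → a = 0)
    (hu : ∀ z ∈ Λ, ∀ z' ∈ Λ, z.1 + (h z.2 + A z.2) = z'.1 + (h z'.2 + A z'.2) → z = z') :
    ∃ ψ : (E n × E n) ≃ (E n × E n), ContDiff ℝ ∞ ψ ∧ ContDiff ℝ ∞ ψ.symm ∧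
      (∀ γ ∈ Γ, ∀ z, ψ (act γ z) = act γ (ψ z)) ∧
      (∀ z a b, om (fderiv ℝ ψ z a) (fderiv ℝ ψ z b) = om a b) ∧
      ψ '' {z | z.2 = 0} = Λ := by
  have hhd : ∀ x, HasFDerivAt h (fderiv ℝ h x) x := fun x =>
    ((hh.differentiable (by simp)).differentiableAt).hasFDerivAt
  have hkf : ∀ p v, fderiv ℝ (fun p => h p + A p) p v = fderiv ℝ h p v + A v := by
    intro p v
    have h1 : HasFDerivAt (fun p => h p + A p) (fderiv ℝ h p + A) p := (hhd p).add A.hasFDerivAt
    rw [h1.fderiv]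
    rfl
  obtain ⟨u, hus, huΛ, hΛu, huΓ, ⟨R, hR⟩, hlag⟩ := sect hΓ hΛ (fun p => h p + A p)
    (hh.add A.contDiff)
    (fun γ hγ p => by
      show h (γ.1 p) + A (γ.1 p) = γ.1 (h p + A p)
      rw [hhΓ γ hγ, hAΓ γ hγ, hΓ γ hγ])
    (fun z hz a ha he => hT z hz a ha (by rw [← hkf]; exact he)) hu
  have hud : ∀ x, HasFDerivAt u (fderiv ℝ u x) x := fun x =>
    ((hus.differentiable (by simp)).differentiableAt).hasFDerivAt
  -- the identity
  have key : ∀ x v w, ⟪fderiv ℝ u x v, w⟫ - ⟪fderiv ℝ u x w, v⟫ =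
      2 * ⟪fderiv ℝ u x v, A (fderiv ℝ u x w)⟫ := by
    intro x v w
    have h1 := hlag x v w
    rw [hkf, hkf, inner_sub_right, inner_sub_right, inner_add_right, inner_add_right] at h1
    have h2 := hsym (u x) (fderiv ℝ u x v) (fderiv ℝ u x w)
    rw [real_inner_comm] at h2
    have h3 := hA (fderiv ℝ u x v) (fderiv ℝ u x w)
    rw [real_inner_comm] at h3
    linarith
  -- the auxiliary diffeomorphism
  obtain ⟨g, hgd⟩ : ∃ g : E n → E n, ∀ y, g y = y - (2 : ℝ) • A (u y) := ⟨_, fun _ => rfl⟩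
  have hgf : g = fun y => y - (2 : ℝ) • A (u y) := funext hgd
  have hgs : ContDiff ℝ ∞ g := by
    rw [hgf]
    exact contDiff_id.sub ((A.contDiff.comp hus).const_smul (2 : ℝ))
  have hgd' : ∀ x v, fderiv ℝ g x v = v - (2 : ℝ) • A (fderiv ℝ u x v) := by
    intro x v
    have h1 : HasFDerivAt (fun y => y - (2 : ℝ) • A (u y))
        (ContinuousLinearMap.id ℝ (E n) - (2 : ℝ) • (A.comp (fderiv ℝ u x))) x :=
      (hasFDerivAt_id x).sub ((A.hasFDerivAt.comp x (hud x)).const_smul (2 : ℝ))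
    rw [hgf, h1.fderiv]
    rfl
  obtain ⟨e, he, hes⟩ := diffeo_of_bdd hgs (C := 2 * (‖A‖ * R))
    (fun x => by
      rw [hgd, sub_sub_cancel_left, norm_neg, norm_smul, Real.norm_two]
      refine mul_le_mul_of_nonneg_left ?_ (by norm_num)
      exact (A.le_opNorm _).trans (mul_le_mul_of_nonneg_left (hR x) (norm_nonneg _)))
    (fun x z hz => by
      rw [hgd', sub_eq_zero] at hz
      have h1 : fderiv ℝ u x z = 0 := by
        refine inner_self_eq_zero (𝕜 := ℝ).1 ?_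
        have h2 := key x (fderiv ℝ u x z) z
        have h3 := congrArg (fun w => ⟪fderiv ℝ u x (fderiv ℝ u x z), w⟫) hz
        simp only [real_inner_smul_right] at h3
        linarith
      rw [hz, h1, map_zero, smul_zero])
  have heg : ∀ x, g (e.symm x) = x := fun x => by rw [← he, e.apply_symm_apply]
  have hge : ∀ x, e.symm (g x) = x := fun x => by rw [← he, e.symm_apply_apply]
  -- the map
  let f : E n × E n → E n × E n := fun z =>
    (z.1 - A (u (z.1 - A z.2)) - h (z.2 + u (z.1 - A z.2)), z.2 + u (z.1 - A z.2))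
  let fi : E n × E n → E n × E n := fun z =>
    (z.1 + h z.2 + A (u (e.symm (z.1 + h z.2 - A z.2))), z.2 - u (e.symm (z.1 + h z.2 - A z.2)))
  have hf : ∀ z, f z =
    (z.1 - A (u (z.1 - A z.2)) - h (z.2 + u (z.1 - A z.2)), z.2 + u (z.1 - A z.2)) :=
    fun _ => rfl
  have hfi : ∀ z, fi z =
    (z.1 + h z.2 + A (u (e.symm (z.1 + h z.2 - A z.2))), z.2 - u (e.symm (z.1 + h z.2 - A z.2))) :=
    fun _ => rfl
  have hl : LeftInverse fi f := by
    rintro ⟨q, p⟩
    have h1 : e.symm ((f (q, p)).1 + h (f (q, p)).2 - A (f (q, p)).2) = q - A p := by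
      rw [← hge (q - A p), hgd]
      congr 1
      simp only [hf, map_add]
      rw [two_smul]
      abel
    rw [hfi, h1]
    simp only [hf]
    refine Prod.ext ?_ ?_
    · show q - A (u (q - A p)) - h (p + u (q - A p)) + h (p + u (q - A p)) + A (u (q - A p)) = q
      abel
    · show p + u (q - A p) - u (q - A p) = p
      abel
  have hr : RightInverse fi f := by
    rintro ⟨q, p⟩
    have h1 : (fi (q, p)).1 - A (fi (q, p)).2 = e.symm (q + h p - A p) := by
      have h2 := heg (q + h p - A p)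
      rw [hgd, sub_eq_iff_eq_add] at h2
      simp only [hfi, map_sub]
      conv_rhs => rw [h2]
      rw [two_smul]
      abel
    rw [hf, h1]
    simp only [hfi]
    have h3 : p - u (e.symm (q + h p - A p)) + u (e.symm (q + h p - A p)) = p := by abel
    refine Prod.ext ?_ ?_
    · show q + h p + A (u (e.symm (q + h p - A p))) - A (u (e.symm (q + h p - A p))) -
        h (p - u (e.symm (q + h p - A p)) + u (e.symm (q + h p - A p))) = q
      rw [h3]
      abel
    · exact h3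
  have hy : ContDiff ℝ ∞ (fun z : E n × E n => z.1 - A z.2) :=
    contDiff_fst.sub (A.contDiff.comp contDiff_snd)
  have hfs : ContDiff ℝ ∞ f := by
    have h1 : ContDiff ℝ ∞ (fun z : E n × E n => u (z.1 - A z.2)) := hus.comp hy
    have h2 : ContDiff ℝ ∞ (fun z : E n × E n => z.2 + u (z.1 - A z.2)) := contDiff_snd.add h1
    exact ((contDiff_fst.sub (A.contDiff.comp h1)).sub (hh.comp h2)).prodMk h2
  have hfis : ContDiff ℝ ∞ fi := by
    have h0 : ContDiff ℝ ∞ (fun z : E n × E n => z.1 + h z.2) :=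
      contDiff_fst.add (hh.comp contDiff_snd)
    have h1 : ContDiff ℝ ∞ (fun z : E n × E n => u (e.symm (z.1 + h z.2 - A z.2))) :=
      hus.comp (hes.comp (h0.sub (A.contDiff.comp contDiff_snd)))
    exact (h0.add (A.contDiff.comp h1)).prodMk (contDiff_snd.sub h1)
  -- derivative
  have hfd : ∀ z a, fderiv ℝ f z a =
      (a.1 - A (fderiv ℝ u (z.1 - A z.2) (a.1 - A a.2)) -
        fderiv ℝ h (z.2 + u (z.1 - A z.2)) (a.2 + fderiv ℝ u (z.1 - A z.2) (a.1 - A a.2)),
        a.2 + fderiv ℝ u (z.1 - A z.2) (a.1 - A a.2)) := by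
    intro z a
    have g1 : HasFDerivAt (fun z : E n × E n => z.1 - A z.2)
        (ContinuousLinearMap.fst ℝ (E n) (E n) - A.comp (ContinuousLinearMap.snd ℝ (E n) (E n)))
        z := hasFDerivAt_fst.sub (A.hasFDerivAt.comp z hasFDerivAt_snd)
    have g2 := (hud (z.1 - A z.2)).comp z g1
    have g3 := (hasFDerivAt_snd (𝕜 := ℝ) (p := z)).add g2
    have g4 := ((hasFDerivAt_fst (𝕜 := ℝ) (p := z)).sub (A.hasFDerivAt.comp z g2)).sub
      ((hhd (z.2 + u (z.1 - A z.2))).comp z g3)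
    have g5 := g4.prodMk g3
    have g6 : HasFDerivAt f _ z := g5
    rw [g6.fderiv]
    rfl
  refine ⟨⟨f, fi, hl, hr⟩, hfs, hfis, fun γ hγ z => ?_, fun z a b => ?_, ?_⟩
  · have hsub : ∀ v w, γ.1 (v - w) = γ.1 v - γ.1 w := fun v w => by
      rw [eq_sub_iff_add_eq, ← hΓ γ hγ, sub_add_cancel]
    have h1 : (act γ z).1 - A (act γ z).2 = γ.1 (z.1 - A z.2) + γ.2 := by
      show γ.1 z.1 + γ.2 - A (γ.1 z.2) = _
      rw [hAΓ γ hγ, hsub]
      abel
    show f (act γ z) = act γ (f z)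
    rw [hf, h1, huΓ γ hγ]
    have h2 : (act γ z).2 + γ.1 (u (z.1 - A z.2)) = γ.1 (z.2 + u (z.1 - A z.2)) :=
      (hΓ γ hγ _ _).symm
    rw [h2, hhΓ γ hγ, hAΓ γ hγ]
    refine Prod.ext ?_ rfl
    show γ.1 z.1 + γ.2 - γ.1 (A (u (z.1 - A z.2))) - γ.1 (h (z.2 + u (z.1 - A z.2))) =
      γ.1 (z.1 - A (u (z.1 - A z.2)) - h (z.2 + u (z.1 - A z.2))) + γ.2
    rw [hsub, hsub]
    abel
  · show om (fderiv ℝ f z a) (fderiv ℝ f z b) = om a b
    rw [hfd, hfd]
    obtain ⟨x, hx⟩ : ∃ x, x = z.1 - A z.2 := ⟨_, rfl⟩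
    obtain ⟨a1, a2⟩ := a
    obtain ⟨b1, b2⟩ := b
    simp only [om, ← hx]
    obtain ⟨ya, hya⟩ : ∃ y, y = a1 - A a2 := ⟨_, rfl⟩
    obtain ⟨yb, hyb⟩ : ∃ y, y = b1 - A b2 := ⟨_, rfl⟩
    rw [← hya, ← hyb]
    have ha1 : a1 = ya + A a2 := by rw [hya]; abel
    have hb1 : b1 = yb + A b2 := by rw [hyb]; abel
    rw [ha1, hb1]
    have k1 := key x ya yb
    have k2 := hsym (z.2 + u x) (a2 + fderiv ℝ u x ya) (b2 + fderiv ℝ u x yb)
    rw [real_inner_comm] at k2
    have k3 := hA a2 (fderiv ℝ u x yb)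
    have k4 := hA b2 (fderiv ℝ u x ya)
    have k5 := hA (fderiv ℝ u x ya) (fderiv ℝ u x yb)
    have k6 := hA a2 b2
    simp only [inner_sub_right, inner_add_right, inner_add_left] at *
    have c1 := real_inner_comm (A a2) (fderiv ℝ u x yb)
    have c2 := real_inner_comm (A b2) (fderiv ℝ u x ya)
    have c3 := real_inner_comm (A (fderiv ℝ u x ya)) (fderiv ℝ u x yb)
    have c4 := real_inner_comm (A a2) b2
    linarith
  · ext z
    constructor
    · rintro ⟨w, hw, rfl⟩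
      have hw' : w.2 = 0 := hw
      have h1 : f w = (w.1 - (h (u w.1) + A (u w.1)), u w.1) := by
        rw [hf, hw', map_zero, sub_zero, zero_add]
        refine Prod.ext ?_ rfl
        show w.1 - A (u w.1) - h (u w.1) = w.1 - (h (u w.1) + A (u w.1))
        abel
      show f w ∈ Λ
      rw [h1]
      exact huΛ w.1
    · intro hz
      refine ⟨(z.1 + (h z.2 + A z.2), 0), rfl, ?_⟩
      show f (z.1 + (h z.2 + A z.2), 0) = z
      have h2 := hΛu z hz
      rw [hf]
      conv_rhs => rw [h2]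
      simp only [map_zero, sub_zero, zero_add]
      refine Prod.ext ?_ rfl
      show z.1 + (h z.2 + A z.2) - A (u (z.1 + (h z.2 + A z.2))) - h (u (z.1 + (h z.2 + A z.2))) =
        z.1 + (h z.2 + A z.2) - (h (u (z.1 + (h z.2 + A z.2))) + A (u (z.1 + (h z.2 + A z.2))))
      abel

/-- the main theorem for connected preimages -/
theorem mainC {Γ : Set ((E n → E n) × E n)} (hΓ : ∀ γ ∈ Γ, ∀ v w, γ.1 (v + w) = γ.1 v + γ.1 w)
    {Λ : Set (E n × E n)} (hΛ : LagT Γ Λ) (hcon : IsPreconnected Λ)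
    (h : E n → E n) (hh : ContDiff ℝ ∞ h)
    (hsym : ∀ p v w, ⟪fderiv ℝ h p v, w⟫ = ⟪v, fderiv ℝ h p w⟫)
    (A : E n →L[ℝ] E n) (hA : ∀ v w, ⟪A v, w⟫ = -⟪v, A w⟫)
    (hhΓ : ∀ γ ∈ Γ, ∀ p, h (γ.1 p) = γ.1 (h p)) (hAΓ : ∀ γ ∈ Γ, ∀ p, A (γ.1 p) = γ.1 (A p))
    (hT : ∀ z ∈ Λ, ∀ a, Tan Λ z a → a.1 + (fderiv ℝ h z.2 a.2 + A a.2) = 0 → a = 0) :
    ∃ ψ : (E n × E n) ≃ (E n × E n), ContDiff ℝ ∞ ψ ∧ ContDiff ℝ ∞ ψ.symm ∧
      (∀ γ ∈ Γ, ∀ z, ψ (act γ z) = act γ (ψ z)) ∧
      (∀ z a b, om (fderiv ℝ ψ z a) (fderiv ℝ ψ z b) = om a b) ∧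
      ψ '' {z | z.2 = 0} = Λ := by
  refine mainT hΓ hΛ h hh hsym A hA hhΓ hAΓ hT ?_
  have hkf : ∀ p v, fderiv ℝ (fun p => h p + A p) p v = fderiv ℝ h p v + A v := by
    intro p v
    have h1 : HasFDerivAt (fun p => h p + A p) (fderiv ℝ h p + A) p :=
      (((hh.differentiable (by simp)).differentiableAt).hasFDerivAt).add A.hasFDerivAt
    rw [h1.fderiv]
    rfl
  exact uniq_of_conn hΛ hcon (fun p => h p + A p) (hh.add A.contDiff)
    (fun z hz a ha he => hT z hz a ha (by rw [← hkf]; exact he))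

end Pool.Agent.Run7.h60.Lag
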