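import Pool.Agent.Run7.h60.Coord

/-! Geodesics crossing the half great circles through `(0,±1,0)`. -/

set_option maxSynthPendingDepth 3

open Set MeasureTheory intervalIntegral Filter
open scoped Topology ContDiff RealInnerProductSpace NNReal

namespace Run7.h60

/-- The half great circles through `(0,±1,0)` in the closed quarter `x, z ≥ 0` are curved in the
same direction. -/
def Signed (g : R3 → R3 →L[ℝ] R3 →L[ℝ] ℝ) : Prop :=
  ∀ X ∈ Metric.sphere (0 : R3) 1, 0 ≤ X 0 → 0 ≤ X 2 → 0 ≤ zt X (chr (ext g) X (ev X))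

lemma zt_smul (X v : R3) (r : ℝ) : zt X (r • v) = r * zt X v := by
  simp [zt]; ring

lemma zt_add (X v w : R3) : zt X (v + w) = zt X v + zt X w := by
  simp [zt]; ring

lemma rho_sq_norm {X v : R3} (hX : X ∈ Metric.sphere (0 : R3) 1) (hv : ⟪X, v⟫ = 0) :
    (X 0 ^ 2 + X 2 ^ 2) * ‖v‖ ^ 2 = v 1 ^ 2 + zt X v ^ 2 := by
  rw [mem_S2] at hX
  rw [inner3] at hv
  rw [norm3, zt]
  linear_combination (v 1 ^ 2) * hX + (X 0 * v 0 + X 2 * v 2 - X 1 * v 1) * hv

lemma norm_ev {X : R3} (hX : X ∈ Metric.sphere (0 : R3) 1) : ‖ev X‖ ^ 2 = X 0 ^ 2 + X 2 ^ 2 := by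
  rw [mem_S2] at hX
  rw [norm3]
  simp [ev]
  linear_combination (-(1 - X 1 ^ 2)) * hX

/-- The angular acceleration in the closed quarter is bounded below by a multiple of the angular
velocity. -/
lemma zt_chr_ge {g : R3 → R3 →L[ℝ] R3 →L[ℝ] ℝ} (hg : SphMetric g) (hQ : Signed g) (R : ℝ) :
    ∃ K : ℝ, 0 ≤ K ∧ ∀ X ∈ Metric.sphere (0 : R3) 1, 0 ≤ X 0 → 0 ≤ X 2 → ∀ v : R3, ⟪X, v⟫ = 0 →
      ‖v‖ ≤ R → -(K * |zt X v|) ≤ zt X (chr (ext g) X v) := by
  obtain ⟨K, hK, H⟩ := chr_lipschitz hg R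
  refine ⟨K, hK, ?_⟩
  intro X hX h0 h2 v hv hR
  obtain ⟨q, hq⟩ : ∃ q, q = X 0 ^ 2 + X 2 ^ 2 := ⟨_, rfl⟩
  have hq0 : 0 ≤ q := by rw [hq]; positivity
  rcases hq0.eq_or_lt with hz | hpos
  · have e0 : X 0 = 0 := by nlinarith [sq_nonneg (X 2), sq_nonneg (X 0)]
    have e2 : X 2 = 0 := by nlinarith [sq_nonneg (X 2), sq_nonneg (X 0)]
    simp [zt, e0, e2]
  · obtain ⟨r, hr⟩ : ∃ r, r = Real.sqrt q := ⟨_, rfl⟩
    have hrq : r ^ 2 = q := by rw [hr]; exact Real.sq_sqrt hq0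
    have hr0 : 0 < r := by rw [hr]; exact Real.sqrt_pos.2 hpos
    have hn := rho_sq_norm hX hv
    rw [← hq] at hn
    have hw : ‖(v 1 / q) • ev X‖ ^ 2 = v 1 ^ 2 / q := by
      rw [norm_smul, mul_pow, norm_ev hX, ← hq, Real.norm_eq_abs, sq_abs]
      field_simp
    have hwv : ‖(v 1 / q) • ev X‖ ≤ ‖v‖ := by
      apply (pow_le_pow_iff_left₀ (norm_nonneg _) (norm_nonneg _) two_ne_zero).1
      rw [hw, div_le_iff₀ hpos]
      nlinarith [sq_nonneg (zt X v)]
    have hd : v - (v 1 / q) • ev X = (zt X v / q) • !₂[X 2, 0, -X 0] := by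
      have h3 := tangent_decomp hX hv
      rw [← hq] at h3
      have h4 : v = q⁻¹ • (v 1 • ev X + zt X v • !₂[X 2, 0, -X 0]) := by
        rw [← h3, smul_smul, inv_mul_cancel₀ hpos.ne', one_smul]
      nth_rewrite 1 [h4]
      rw [smul_add, smul_smul, smul_smul, div_eq_inv_mul, div_eq_inv_mul]
      abel
    have hx : ‖(!₂[X 2, 0, -X 0] : R3)‖ ^ 2 = q := by
      rw [norm3, hq]; simp; ring
    have hx' : ‖(!₂[X 2, 0, -X 0] : R3)‖ = r := by
      have h5 : ‖(!₂[X 2, 0, -X 0] : R3)‖ ^ 2 = r ^ 2 := by rw [hx, hrq]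
      exact (pow_left_inj₀ (norm_nonneg _) hr0.le two_ne_zero).1 h5
    have hdn : ‖v - (v 1 / q) • ev X‖ = |zt X v| / r := by
      rw [hd, norm_smul, hx', Real.norm_eq_abs, abs_div, abs_of_pos hpos, ← hrq]
      field_simp
    have h6 := H X hX v ((v 1 / q) • ev X) hR (hwv.trans hR)
    have h7 := hQ X hX h0 h2
    have h8 : 0 ≤ zt X (chr (ext g) X ((v 1 / q) • ev X)) := by
      rw [chr_smul, zt_smul]; positivity
    have h9 := abs_zt_le (X := X) (chr (ext g) X v - chr (ext g) X ((v 1 / q) • ev X))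
    rw [← hq, ← hr] at h9
    have h10 : zt X (chr (ext g) X v) = zt X (chr (ext g) X ((v 1 / q) • ev X))
        + zt X (chr (ext g) X v - chr (ext g) X ((v 1 / q) • ev X)) := by
      rw [← zt_add]; congr 1; abel
    have h11 : |zt X (chr (ext g) X v - chr (ext g) X ((v 1 / q) • ev X))| ≤ K * |zt X v| := by
      refine h9.trans ?_
      calc r * ‖chr (ext g) X v - chr (ext g) X ((v 1 / q) • ev X)‖
          ≤ r * (K * (|zt X v| / r)) := by
            rw [← hdn]; exact mul_le_mul_of_nonneg_left h6 hr0.le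
        _ = K * |zt X v| := by field_simp
    have h12 := (abs_le.1 h11).1
    rw [h10]; linarith

/-- Growth comparison. -/
lemma pos_of_deriv_ge {W W' : ℝ → ℝ} {K T : ℝ} (hW : ∀ t, HasDerivAt W (W' t) t)
    (h0 : 0 < W 0) (hK : 0 ≤ K) (hb : ∀ t ∈ Ico 0 T, -(K * |W t|) ≤ W' t) :
    ∀ t ∈ Icc 0 T, 0 < W t := by
  intro t ht
  have hB : ∀ x, HasDerivAt (fun x => -(W 0 * Real.exp (-(K + 1) * x)))
      ((K + 1) * (W 0 * Real.exp (-(K + 1) * x))) x := by
    intro x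
    have h1 : HasDerivAt (fun x : ℝ => -(K + 1) * x) (-(K + 1)) x := by
      simpa using (hasDerivAt_id x).const_mul (-(K + 1))
    refine ((h1.exp.const_mul (W 0)).neg).congr_deriv ?_
    ring
  have h1 := image_le_of_deriv_right_lt_deriv_boundary (f := fun t => - W t)
    (f' := fun t => - W' t) (a := 0) (b := T)
    (B := fun x => -(W 0 * Real.exp (-(K + 1) * x)))
    (B' := fun x => (K + 1) * (W 0 * Real.exp (-(K + 1) * x)))
    (fun x _ => (hW x).neg.continuousAt.continuousWithinAt)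
    (fun x _ => (hW x).neg.hasDerivWithinAt) (by simp) hB
    (by
      intro x hx hxB
      have hpos : 0 < W 0 * Real.exp (-(K + 1) * x) := by positivity
      have h2 : W x = W 0 * Real.exp (-(K + 1) * x) := by linarith
      have h3 := hb x hx
      rw [h2, abs_of_pos hpos] at h3
      nlinarith) ht
  have hpos : 0 < W 0 * Real.exp (-(K + 1) * t) := by positivity
  linarith

lemma UGeod.norm_deriv_le {E : Type*} [NormedAddCommGroup E] [InnerProductSpace ℝ E]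
    [FiniteDimensional ℝ E] {g : E → E →L[ℝ] E →L[ℝ] ℝ} (hg : SphMetric g) :
    ∃ R : ℝ, 0 < R ∧ ∀ x ∈ Metric.sphere (0 : E) 1, ∀ v : E, nrm (ext g) x v = 1 → ‖v‖ ≤ R := by
  have hprop : ProperSpace E := FiniteDimensional.proper ℝ E
  have h := metricOn_ext hg
  have hS : IsCompact (Metric.sphere (0 : E) 1) := isCompact_sphere _ _
  obtain ⟨r, m, M, C, hr, hm, hM, hC, H⟩ := h.exists_bounds hS sphere_subset
  refine ⟨1 / m, by positivity, ?_⟩
  intro x hx v hv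
  rw [le_div_iff₀ hm]
  have := ((H x hx x (by simpa using hr.le)).2 v).1
  linarith

section

variable {g : R3 → R3 →L[ℝ] R3 →L[ℝ] ℝ} {γ : ℝ → R3}

lemma hasDerivAt_zt (h : UGeod g γ) (t : ℝ) :
    HasDerivAt (fun t => zt (γ t) (deriv γ t)) (zt (γ t) (chr (ext g) (γ t) (deriv γ t))) t := by
  have h1 := h.hasDerivAt t
  have h2 := h.acc t
  have a0 := hasDerivAt_coord h1 0
  have a2 := hasDerivAt_coord h1 2
  have b0 := hasDerivAt_coord h2 0
  have b2 := hasDerivAt_coord h2 2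
  refine ((a2.mul b0).sub (a0.mul b2)).congr_deriv ?_
  unfold zt
  ring

lemma continuous_zt (h : UGeod g γ) : Continuous (fun t => zt (γ t) (deriv γ t)) :=
  continuous_iff_continuousAt.2 fun t => (hasDerivAt_zt h t).continuousAt

lemma cont_coord (h : UGeod g γ) (i : Fin 3) : Continuous (fun t => γ t i) :=
  (continuous_coord i).comp h.smooth.continuous

lemma ratio_lt (h : UGeod g γ) {a b : ℝ} (hab : a < b) (hz : ∀ t ∈ Icc a b, 0 < γ t 2)
    (hW : ∀ t ∈ Icc a b, 0 < zt (γ t) (deriv γ t)) : γ a 0 / γ a 2 < γ b 0 / γ b 2 := by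
  have h1 : ∀ t ∈ Icc a b, HasDerivAt (fun t => γ t 0 / γ t 2)
      (zt (γ t) (deriv γ t) / (γ t 2) ^ 2) t := by
    intro t ht
    have a0 := hasDerivAt_coord (h.hasDerivAt t) 0
    have a2 := hasDerivAt_coord (h.hasDerivAt t) 2
    refine (a0.div a2 (hz t ht).ne').congr_deriv ?_
    unfold zt
    ring
  have h2 : StrictMonoOn (fun t => γ t 0 / γ t 2) (Icc a b) := by
    apply strictMonoOn_of_deriv_pos (convex_Icc a b)
    · exact fun t ht => (h1 t ht).continuousAt.continuousWithinAt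
    · intro t ht
      rw [interior_Icc] at ht
      have ht' : t ∈ Icc a b := ⟨ht.1.le, ht.2.le⟩
      rw [(h1 t ht').deriv]
      have := hz t ht'
      have := hW t ht'
      positivity
  exact h2 ⟨le_rfl, hab.le⟩ ⟨hab.le, le_rfl⟩ hab

lemma zt_pos_of_quarter (hg : SphMetric g) (hQ : Signed g) (h : UGeod g γ)
    (hW0 : 0 < zt (γ 0) (deriv γ 0)) {T : ℝ} (hT : ∀ t ∈ Ico 0 T, 0 ≤ γ t 0 ∧ 0 ≤ γ t 2) :
    ∀ t ∈ Icc 0 T, 0 < zt (γ t) (deriv γ t) := by
  obtain ⟨R, hR0, hR⟩ := UGeod.norm_deriv_le hg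
  obtain ⟨K, hK, H⟩ := zt_chr_ge hg hQ R
  exact pos_of_deriv_ge (hasDerivAt_zt h) hW0 hK (fun t ht =>
    H (γ t) (h.mem t) (hT t ht).1 (hT t ht).2 _ (h.tangent t) (hR _ (h.mem t) _ (h.speed t)))

/-- As long as `z > 0`, the geodesic stays in the quarter and crosses the leaves. -/
lemma quarter (hg : SphMetric g) (hQ : Signed g) (h : UGeod g γ)
    (hx0 : γ 0 0 = 0) (hz0 : 0 < γ 0 2) (hvx : 0 < deriv γ 0 0) {T : ℝ}
    (hT : ∀ t ∈ Ico 0 T, 0 < γ t 2) :
    (∀ t ∈ Ioo 0 T, 0 < γ t 0) ∧ ∀ t ∈ Icc 0 T, 0 < zt (γ t) (deriv γ t) := by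
  have hW0 : 0 < zt (γ 0) (deriv γ 0) := by
    unfold zt; rw [hx0]; simp only [zero_mul, sub_zero]; positivity
  have key : ∀ t ∈ Ioo 0 T, 0 < γ t 0 := by
    intro s hs
    by_contra hcon
    push Not at hcon
    -- positivity near zero
    have e1 : ∀ᶠ t in 𝓝 (0:ℝ), 0 < zt (γ t) (deriv γ t) ∧ 0 < γ t 2 :=
      ((continuous_zt h).continuousAt.eventually (lt_mem_nhds hW0)).and
        ((cont_coord h 2).continuousAt.eventually (lt_mem_nhds hz0))
    obtain ⟨δ, hδ, hδ1⟩ := Metric.eventually_nhds_iff.1 e1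
    have hnear : ∀ t, 0 < t → t < δ → 0 < γ t 0 := by
      intro t ht ht2
      have h2 : ∀ r ∈ Icc 0 t, dist r 0 < δ := by
        intro r hr
        rw [dist_zero_right, Real.norm_eq_abs, abs_of_nonneg hr.1]
        exact lt_of_le_of_lt hr.2 ht2
      have h3 := ratio_lt h ht (fun r hr => (hδ1 (h2 r hr)).2) (fun r hr => (hδ1 (h2 r hr)).1)
      rw [hx0, zero_div] at h3
      have h4 : 0 < γ t 2 := (hδ1 (h2 t ⟨ht.le, le_rfl⟩)).2
      exact (div_pos_iff_of_pos_right h4).1 h3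
    -- first time of return
    have hsδ : δ ≤ s := by
      by_contra hlt
      push Not at hlt
      exact absurd (hnear s hs.1 hlt) (not_lt.2 hcon)
    obtain ⟨A, hA⟩ : ∃ A : Set ℝ, A = Icc (δ / 2) s ∩ {t | γ t 0 ≤ 0} := ⟨_, rfl⟩
    have hAc : IsCompact A := by
      rw [hA]
      exact isCompact_Icc.inter_right (isClosed_le (cont_coord h 0) continuous_const)
    have hAn : A.Nonempty := ⟨s, by rw [hA]; exact ⟨⟨by linarith, le_rfl⟩, hcon⟩⟩
    obtain ⟨t₁, ht₁, hleast⟩ := hAc.exists_isLeast hAn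
    rw [hA] at ht₁
    have ht1s : t₁ ≤ s := ht₁.1.2
    have ht10 : 0 < t₁ := lt_of_lt_of_le (by positivity) ht₁.1.1
    have hpos : ∀ t ∈ Ioo 0 t₁, 0 < γ t 0 := by
      intro t ht
      by_cases h5 : t < δ
      · exact hnear t ht.1 h5
      · push Not at h5
        by_contra h6
        push Not at h6
        have h7 : t ∈ A := by
          rw [hA]; exact ⟨⟨by linarith, ht.2.le.trans ht1s⟩, h6⟩
        exact absurd (hleast h7) (not_le.2 ht.2)
    have h8 := zt_pos_of_quarter hg hQ h hW0 (T := t₁) (by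
      intro t ht
      have hz := hT t ⟨ht.1, ht.2.trans_le (ht1s.trans hs.2.le)⟩
      refine ⟨?_, hz.le⟩
      rcases ht.1.eq_or_lt with h9 | h9
      · rw [← h9, hx0]
      · exact (hpos t ⟨h9, ht.2⟩).le)
    have h9 := ratio_lt h ht10 (fun r hr => hT r ⟨hr.1, lt_of_le_of_lt (hr.2.trans ht1s) hs.2⟩) h8
    rw [hx0, zero_div] at h9
    have h10 : 0 < γ t₁ 2 := hT t₁ ⟨ht10.le, lt_of_le_of_lt ht1s hs.2⟩
    exact absurd ((div_pos_iff_of_pos_right h10).1 h9) (not_lt.2 ht₁.2)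
  refine ⟨key, ?_⟩
  apply zt_pos_of_quarter hg hQ h hW0
  intro t ht
  refine ⟨?_, (hT t ht).le⟩
  rcases ht.1.eq_or_lt with h9 | h9
  · rw [← h9, hx0]
  · exact (key t ⟨h9, ht.2⟩).le

end

end Run7.h60
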