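import Pool.Agent.Run7.h60.Curves

/-! Local comparison of the length distance with the norm at a base point. -/

set_option maxSynthPendingDepth 3

open Set MeasureTheory intervalIntegral Filter
open scoped Topology ContDiff

namespace Run7.h60

variable {E : Type*} [NormedAddCommGroup E] [NormedSpace ℝ E]

/-- `G` is a smooth Riemannian metric on the open set `U`. -/
structure MetricOn (G : E → E →L[ℝ] E →L[ℝ] ℝ) (U : Set E) : Prop where
  isOpen : IsOpen U
  smooth : ContDiffOn ℝ ∞ G U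
  symm : ∀ x ∈ U, ∀ v w, G x v w = G x w v
  pos : ∀ x ∈ U, ∀ v, v ≠ 0 → 0 < G x v v

namespace MetricOn

variable {G : E → E →L[ℝ] E →L[ℝ] ℝ} {U : Set E}

lemma nonneg (h : MetricOn G U) {x : E} (hx : x ∈ U) (v : E) : 0 ≤ G x v v := by
  by_cases hv : v = 0
  · simp [hv]
  · exact (h.pos x hx v hv).le

lemma sq_nrm (h : MetricOn G U) {x : E} (hx : x ∈ U) (v : E) : nrm G x v ^ 2 = G x v v :=
  Real.sq_sqrt (h.nonneg hx v)

lemma contOn (h : MetricOn G U) : ContinuousOn G U := h.smooth.continuousOn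

/-- Cauchy-Schwarz. -/
lemma cs (h : MetricOn G U) {x : E} (hx : x ∈ U) (v w : E) :
    G x v w ≤ nrm G x v * nrm G x w := by
  have key : ∀ t : ℝ, 0 ≤ G x w w * (t * t) + (2 * G x v w) * t + G x v v := by
    intro t
    have h1 := h.nonneg hx (v + t • w)
    have h2 : G x (v + t • w) (v + t • w)
        = G x w w * (t * t) + (2 * G x v w) * t + G x v v := by
      simp only [map_add, map_smul, add_apply, smul_apply, smul_eq_mul]
      rw [h.symm x hx w v]; ring
    rw [← h2]; exact h1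
  have hd := discrim_le_zero key
  unfold discrim at hd
  have h3 : (G x v w) ^ 2 ≤ G x v v * G x w w := by nlinarith
  have h4 : G x v w ≤ Real.sqrt (G x v v * G x w w) := Real.le_sqrt_of_sq_le h3
  rwa [Real.sqrt_mul (h.nonneg hx v)] at h4

lemma nrm_add_le (h : MetricOn G U) {x : E} (hx : x ∈ U) (v w : E) :
    nrm G x (v + w) ≤ nrm G x v + nrm G x w := by
  have h1 : nrm G x (v + w) ^ 2 ≤ (nrm G x v + nrm G x w) ^ 2 := by
    rw [h.sq_nrm hx, add_sq, h.sq_nrm hx, h.sq_nrm hx]
    have e : G x (v + w) (v + w) = G x v v + 2 * G x v w + G x w w := by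
      simp only [map_add, add_apply]
      rw [h.symm x hx w v]; ring
    rw [e]
    have := h.cs hx v w
    nlinarith
  exact (pow_le_pow_iff_left₀ (nrm_nonneg _ _ _)
    (add_nonneg (nrm_nonneg _ _ _) (nrm_nonneg _ _ _)) two_ne_zero).1 h1

/-- Uniform two-sided bounds near a compact set. -/
lemma exists_bounds [FiniteDimensional ℝ E] (h : MetricOn G U) {K : Set E} (hK : IsCompact K)
    (hKU : K ⊆ U) :
    ∃ r m M C : ℝ, 0 < r ∧ 0 < m ∧ 0 < M ∧ 0 ≤ C ∧ ∀ x ∈ K, ∀ z, ‖z - x‖ ≤ r → z ∈ U ∧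
      ∀ v, m * ‖v‖ ≤ nrm G z v ∧ nrm G z v ≤ M * ‖v‖ ∧
        |nrm G z v - nrm G x v| ≤ C * ‖z - x‖ * ‖v‖ := by
  have : ProperSpace E := FiniteDimensional.proper ℝ E
  obtain ⟨r, hr, hrU⟩ := hK.exists_cthickening_subset_open h.isOpen hKU
  set K' := Metric.cthickening r K with hK'
  have hK'c : IsCompact K' := hK.cthickening
  have hmem : ∀ x ∈ K, ∀ z, ‖z - x‖ ≤ r → z ∈ K' := by
    intro x hx z hz
    exact Metric.mem_cthickening_of_dist_le z x r K hx (by rwa [dist_eq_norm])
  -- lower and upper bounds on the unit sphere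
  set P : Set (E × E) := K' ×ˢ Metric.sphere (0 : E) 1 with hP
  have hPc : IsCompact P := hK'c.prod (isCompact_sphere _ _)
  have hcont : ContinuousOn (fun p : E × E => G p.1 p.2 p.2) P := by
    have h1 : ContinuousOn (fun p : E × E => G p.1) P :=
      h.contOn.comp continuousOn_fst (fun p hp => hrU hp.1)
    exact (h1.clm_apply continuousOn_snd).clm_apply continuousOn_snd
  obtain ⟨μ, hμ0, hμ⟩ : ∃ μ : ℝ, 0 < μ ∧ ∀ p ∈ P, μ ≤ G p.1 p.2 p.2 := by
    rcases P.eq_empty_or_nonempty with he | hne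
    · exact ⟨1, one_pos, by simp [he]⟩
    · obtain ⟨p, hp, hmin⟩ := hPc.exists_isMinOn hne hcont
      refine ⟨G p.1 p.2 p.2, h.pos _ (hrU hp.1) _ ?_, fun q hq => hmin hq⟩
      have : ‖p.2‖ = 1 := by simpa using hp.2
      intro h0
      rw [h0, norm_zero] at this
      norm_num at this
  obtain ⟨ν, hν⟩ : ∃ ν : ℝ, ∀ p ∈ P, G p.1 p.2 p.2 ≤ ν := by
    obtain ⟨ν, hν⟩ := (hPc.image_of_continuousOn hcont).isBounded.bddAbove
    exact ⟨ν, fun p hp => hν ⟨p, hp, rfl⟩⟩
  -- derivative bound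
  have hfd : ContinuousOn (fderiv ℝ G) K' := by
    have := h.smooth.continuousOn_fderiv_of_isOpen h.isOpen (by norm_num)
    exact this.mono hrU
  obtain ⟨C₁, hC₁⟩ : ∃ C₁ : ℝ, ∀ y ∈ K', ‖fderiv ℝ G y‖ ≤ C₁ := by
    obtain ⟨C₁, hC₁⟩ := (hK'c.image_of_continuousOn hfd).isBounded.exists_norm_le
    exact ⟨C₁, fun y hy => hC₁ _ ⟨y, hy, rfl⟩⟩
  set m := Real.sqrt μ with hm
  set M := Real.sqrt (max ν 1) with hM
  have hm0 : 0 < m := Real.sqrt_pos.2 hμ0
  have hM0 : 0 < M := Real.sqrt_pos.2 (lt_of_lt_of_le one_pos (le_max_right _ _))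
  have hscale : ∀ z ∈ K', ∀ v : E, m * ‖v‖ ≤ nrm G z v ∧ nrm G z v ≤ M * ‖v‖ := by
    intro z hz v
    by_cases hv : v = 0
    · simp [hv, nrm_zero]
    · have hv' : 0 < ‖v‖ := norm_pos_iff.2 hv
      set u := (‖v‖)⁻¹ • v with hu
      have hun : ‖u‖ = 1 := by
        rw [hu, norm_smul, norm_inv, norm_norm, inv_mul_cancel₀ hv'.ne']
      have hpu : (z, u) ∈ P := ⟨hz, by simpa using hun⟩
      have hvu : v = ‖v‖ • u := by
        rw [hu, smul_smul, mul_inv_cancel₀ hv'.ne', one_smul]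
      have e1 : nrm G z v = ‖v‖ * nrm G z u := by
        conv_lhs => rw [hvu]
        rw [nrm_smul, abs_of_nonneg (norm_nonneg _)]
      have e2 : m ≤ nrm G z u := Real.sqrt_le_sqrt (hμ _ hpu)
      have e3 : nrm G z u ≤ M := Real.sqrt_le_sqrt ((hν _ hpu).trans (le_max_left _ _))
      rw [e1]
      constructor
      · rw [mul_comm]; exact mul_le_mul_of_nonneg_left e2 hv'.le
      · rw [mul_comm M]; exact mul_le_mul_of_nonneg_left e3 hv'.le
  refine ⟨r, m, M, max C₁ 0 / m, hr, hm0, hM0, by positivity, ?_⟩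
  intro x hx z hz
  have hzK := hmem x hx z hz
  have hxK : x ∈ K' := hmem x hx x (by simpa using hr.le)
  refine ⟨hrU hzK, fun v => ⟨(hscale z hzK v).1, (hscale z hzK v).2, ?_⟩⟩
  -- Lipschitz bound for G
  have hGL : ‖G z - G x‖ ≤ max C₁ 0 * ‖z - x‖ := by
    have hconv : Convex ℝ (Metric.closedBall x r) := convex_closedBall x r
    apply hconv.norm_image_sub_le_of_norm_fderiv_le (f := G) (𝕜 := ℝ) (C := max C₁ 0)
    · intro y hy
      have hyK : y ∈ K' := hmem x hx y (by simpa [dist_eq_norm] using hy)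
      exact (h.smooth.contDiffAt (h.isOpen.mem_nhds (hrU hyK))).differentiableAt (by norm_num)
    · intro y hy
      have hyK : y ∈ K' := hmem x hx y (by simpa [dist_eq_norm] using hy)
      exact (hC₁ y hyK).trans (le_max_left _ _)
    · exact Metric.mem_closedBall_self hr.le
    · simpa [dist_eq_norm] using hz
  by_cases hv : v = 0
  · simp [hv, nrm_zero]
  have hv' : 0 < ‖v‖ := norm_pos_iff.2 hv
  have hab : |G z v v - G x v v| ≤ max C₁ 0 * ‖z - x‖ * ‖v‖ * ‖v‖ := by
    have e : G z v v - G x v v = (G z - G x) v v := by simp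
    rw [e, ← Real.norm_eq_abs]
    calc ‖(G z - G x) v v‖ ≤ ‖(G z - G x) v‖ * ‖v‖ := ContinuousLinearMap.le_opNorm _ _
      _ ≤ ‖G z - G x‖ * ‖v‖ * ‖v‖ := by
          gcongr; exact ContinuousLinearMap.le_opNorm _ _
      _ ≤ _ := by gcongr
  have hn1 := (hscale z hzK v).1
  have hn2 := (hscale x hxK v).1
  have hsum : m * ‖v‖ ≤ nrm G z v + nrm G x v := by
    have := nrm_nonneg G x v
    linarith
  have hprod : (nrm G z v - nrm G x v) * (nrm G z v + nrm G x v) = G z v v - G x v v := by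
    have e1 := h.sq_nrm (hrU hzK) v
    have e2 := h.sq_nrm (hrU hxK) v
    nlinarith
  have hpos : 0 < nrm G z v + nrm G x v := lt_of_lt_of_le (by positivity) hsum
  have habs : |nrm G z v - nrm G x v| * (nrm G z v + nrm G x v) = |G z v v - G x v v| := by
    rw [← hprod, abs_mul, abs_of_pos hpos]
  have hfin : |nrm G z v - nrm G x v| * (m * ‖v‖) ≤ max C₁ 0 * ‖z - x‖ * ‖v‖ * ‖v‖ := by
    calc |nrm G z v - nrm G x v| * (m * ‖v‖)
        ≤ |nrm G z v - nrm G x v| * (nrm G z v + nrm G x v) := by gcongr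
      _ = |G z v v - G x v v| := habs
      _ ≤ _ := hab
  have : |nrm G z v - nrm G x v| * m ≤ max C₁ 0 * ‖z - x‖ * ‖v‖ := by
    have h5 : |nrm G z v - nrm G x v| * m * ‖v‖ ≤ max C₁ 0 * ‖z - x‖ * ‖v‖ * ‖v‖ := by
      linarith
    exact le_of_mul_le_mul_right h5 hv'
  rw [div_mul_eq_mul_div, div_mul_eq_mul_div, le_div_iff₀ hm0]
  exact this

/-- The norm of the displacement is at most the integral of the norm of the velocity. -/
lemma nrm_sub_le_integral [CompleteSpace E] (h : MetricOn G U) {x : E} (hx : x ∈ U) {c : ℝ → E}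
    (hc : ContDiff ℝ 1 c) {a b : ℝ} (hab : a ≤ b) :
    nrm G x (c b - c a) ≤ ∫ t in a..b, nrm G x (deriv c t) := by
  set w := c b - c a with hw
  have hdc : Continuous (deriv c) := hc.continuous_deriv (by norm_num)
  have h1 : ∫ t in a..b, deriv c t = w :=
    intervalIntegral.integral_deriv_eq_sub' c rfl
      (fun t _ => (hc.differentiable (by norm_num)) t) hdc.continuousOn
  have hcn : Continuous (fun t => nrm G x (deriv c t)) := by
    unfold nrm
    exact Real.continuous_sqrt.comp ((continuous_const.clm_apply hdc).clm_apply hdc)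
  have h2 : nrm G x w ^ 2 ≤ nrm G x w * ∫ t in a..b, nrm G x (deriv c t) := by
    rw [h.sq_nrm hx]
    have e1 : G x w w = ∫ t in a..b, G x w (deriv c t) := by
      have := ContinuousLinearMap.intervalIntegral_comp_comm (G x w)
        (hdc.intervalIntegrable (μ := volume) a b)
      rw [this, h1]
    rw [e1, ← intervalIntegral.integral_const_mul]
    apply intervalIntegral.integral_mono_on hab
    · exact (continuous_const.clm_apply hdc).intervalIntegrable _ _
    · exact (continuous_const.mul hcn).intervalIntegrable _ _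
    · intro t _
      exact h.cs hx _ _
  rcases (nrm_nonneg G x w).eq_or_lt with h0 | hpos
  · rw [← h0]
    exact intervalIntegral.integral_nonneg hab (fun _ _ => nrm_nonneg _ _ _)
  · rw [sq] at h2
    exact le_of_mul_le_mul_left h2 hpos

end MetricOn

end Run7.h60
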