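import Pool.Agent.Run7.h60.Local

/-! Local comparison, part 2. -/

set_option maxSynthPendingDepth 3

open Set MeasureTheory intervalIntegral Filter
open scoped Topology ContDiff

namespace Run7.h60

variable {E : Type*} [NormedAddCommGroup E] [NormedSpace ℝ E]

namespace MetricOn

variable {G : E → E →L[ℝ] E →L[ℝ] ℝ} {U : Set E}

lemma exists_local [FiniteDimensional ℝ E] (h : MetricOn G U) {K : Set E} (hK : IsCompact K)
    (hKU : K ⊆ U) :
    ∃ r m M C : ℝ, 0 < r ∧ 0 < m ∧ 0 < M ∧ 0 ≤ C ∧ ∀ x ∈ K, ∀ z, ‖z - x‖ ≤ r → z ∈ U ∧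
      (∀ v, m * ‖v‖ ≤ nrm G z v ∧ nrm G z v ≤ M * ‖v‖ ∧
        |nrm G z v - nrm G x v| ≤ C * ‖z - x‖ * ‖v‖) ∧
      Conn G U x z ((1 + C * ‖z - x‖) * nrm G x (z - x)) ∧
      ∀ ℓ, Conn G U x z ℓ → (1 - C * ‖z - x‖) * nrm G x (z - x) ≤ ℓ := by
  have : CompleteSpace E := FiniteDimensional.complete ℝ E
  obtain ⟨r, m, M, C, hr, hm, hM, hC, H⟩ := h.exists_bounds hK hKU
  set Λ := (M + m) / m with hΛ
  have hΛ1 : 1 ≤ Λ := by
    rw [hΛ, le_div_iff₀ hm]; linarith
  have hΛ0 : 0 < Λ := by linarith
  set C' := max C (max (C / m) (C * Λ / m)) with hC'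
  have hC'1 : C ≤ C' := le_max_left _ _
  have hC'2 : C / m ≤ C' := (le_max_left _ _).trans (le_max_right _ _)
  have hC'3 : C * Λ / m ≤ C' := (le_max_right _ _).trans (le_max_right _ _)
  refine ⟨r / Λ, m, M, C', by positivity, hm, hM, hC.trans hC'1, ?_⟩
  intro x hx z hz
  have hrΛ : r / Λ ≤ r := div_le_self hr.le hΛ1
  have hz' : ‖z - x‖ ≤ r := hz.trans hrΛ
  obtain ⟨hzU, hzv⟩ := H x hx z hz'
  have hxx := H x hx x (by simpa using hr.le)
  refine ⟨hzU, fun v => ⟨(hzv v).1, (hzv v).2.1, (hzv v).2.2.trans (by gcongr)⟩, ?_, ?_⟩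
  · -- the straight segment
    set c : ℝ → E := fun t => x + t • (z - x) with hc
    have hcd : ContDiff ℝ 1 c := contDiff_const.add (contDiff_id.smul contDiff_const)
    have hder : ∀ t, deriv c t = z - x := by
      intro t
      have : HasDerivAt c ((1:ℝ) • (z - x)) t :=
        ((hasDerivAt_id t).smul_const (z - x)).const_add x
      rw [this.deriv, one_smul]
    have hnear : ∀ t ∈ Icc (0:ℝ) 1, ‖c t - x‖ ≤ ‖z - x‖ := by
      intro t ht
      have : c t - x = t • (z - x) := by simp [hc]
      rw [this, norm_smul, Real.norm_eq_abs, abs_of_nonneg ht.1]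
      exact mul_le_of_le_one_left (norm_nonneg _) ht.2
    have hcU : ∀ t ∈ Icc (0:ℝ) 1, c t ∈ U := fun t ht =>
      (H x hx (c t) ((hnear t ht).trans hz')).1
    have hconn := conn_of_curve (G := G) h.contOn (zero_le_one) (fun t _ => hcd.contDiffAt) hcU
    have e0 : c 0 = x := by simp [hc]
    have e1 : c 1 = z := by simp [hc]
    rw [e0, e1] at hconn
    refine hconn.mono le_rfl ?_
    have hcont : ContinuousOn (fun t => nrm G (c t) (deriv c t)) (Icc 0 1) :=
      continuousOn_nrm h.contOn hcd.continuous.continuousOn hcU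
        (hcd.continuous_deriv (by norm_num)).continuousOn
    calc Len G c 0 1 ≤ ∫ _t in (0:ℝ)..1, (1 + C' * ‖z - x‖) * nrm G x (z - x) := by
          unfold Len
          apply intervalIntegral.integral_mono_on zero_le_one
          · exact hcont.intervalIntegrable_of_Icc zero_le_one
          · exact intervalIntegrable_const
          · intro t ht
            rw [hder]
            have h1 := ((H x hx (c t) ((hnear t ht).trans hz')).2 (z - x)).2.2
            have h2 := (abs_le.1 h1).2
            have h3 : C * ‖c t - x‖ * ‖z - x‖ ≤ C * ‖z - x‖ * (nrm G x (z - x) / m) := by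
              have h4 : ‖z - x‖ ≤ nrm G x (z - x) / m := by
                rw [le_div_iff₀ hm, mul_comm]; exact (hxx.2 (z - x)).1
              gcongr
              exact hnear t ht
            have h5 : C * ‖z - x‖ * (nrm G x (z - x) / m)
                = (C / m) * ‖z - x‖ * nrm G x (z - x) := by ring
            have h6 : (C / m) * ‖z - x‖ * nrm G x (z - x) ≤ C' * ‖z - x‖ * nrm G x (z - x) := by
              gcongr
              exact nrm_nonneg _ _ _
            nlinarith
      _ = _ := by simp
  · -- the lower bound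
    rintro ℓ ⟨c, hcd, hcU, hc0, hc1, hℓ⟩
    have e0 : c 0 = x := hc0 0 le_rfl
    have e1 : c 1 = z := hc1 1 le_rfl
    set ρ := ‖z - x‖ with hρ
    set R := Λ * ρ with hR
    have hRr : R ≤ r := by
      rw [hR, mul_comm]
      rwa [le_div_iff₀ hΛ0] at hz
    have hdc : Continuous (deriv c) := hcd.continuous_deriv (by norm_num)
    have hcont : Continuous (fun t => nrm G (c t) (deriv c t)) := by
      rw [← continuousOn_univ]
      exact continuousOn_nrm h.contOn hcd.continuous.continuousOn (fun t _ => hcU t)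
        hdc.continuousOn
    have hcontx : Continuous (fun t => nrm G x (deriv c t)) := by
      unfold nrm
      exact Real.continuous_sqrt.comp ((continuous_const.clm_apply hdc).clm_apply hdc)
    have hlen0 : 0 ≤ Len G c 0 1 := len_nonneg G c zero_le_one
    by_cases hA : ∀ t ∈ Icc (0:ℝ) 1, ‖c t - x‖ ≤ R
    · by_cases hsgn : 0 ≤ 1 - C' * ρ
      · have hpt : ∀ t ∈ Icc (0:ℝ) 1,
            (1 - C' * ρ) * nrm G x (deriv c t) ≤ nrm G (c t) (deriv c t) := by
          intro t ht
          have h1 := ((H x hx (c t) ((hA t ht).trans hRr)).2 (deriv c t)).2.2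
          have h2 := (abs_le.1 h1).1
          have h4 : ‖deriv c t‖ ≤ nrm G x (deriv c t) / m := by
            rw [le_div_iff₀ hm, mul_comm]; exact (hxx.2 _).1
          have h3 : C * ‖c t - x‖ * ‖deriv c t‖ ≤ C * R * (nrm G x (deriv c t) / m) := by
            gcongr
            exact hA t ht
          have h5 : C * R * (nrm G x (deriv c t) / m)
              = (C * Λ / m) * ρ * nrm G x (deriv c t) := by rw [hR]; ring
          have h6 : (C * Λ / m) * ρ * nrm G x (deriv c t) ≤ C' * ρ * nrm G x (deriv c t) := by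
            gcongr
            exact nrm_nonneg _ _ _
          nlinarith
        have h7 : (1 - C' * ρ) * ∫ t in (0:ℝ)..1, nrm G x (deriv c t) ≤ Len G c 0 1 := by
          rw [← intervalIntegral.integral_const_mul]
          unfold Len
          apply intervalIntegral.integral_mono_on zero_le_one
          · exact (continuous_const.mul hcontx).intervalIntegrable _ _
          · exact hcont.intervalIntegrable _ _
          · exact hpt
        have h8 := h.nrm_sub_le_integral (hKU hx) hcd (zero_le_one)
        rw [e0, e1] at h8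
        have h9 := mul_le_mul_of_nonneg_left h8 hsgn
        linarith
      · push Not at hsgn
        have : (1 - C' * ρ) * nrm G x (z - x) ≤ 0 :=
          mul_nonpos_of_nonpos_of_nonneg hsgn.le (nrm_nonneg _ _ _)
        linarith
    · push Not at hA
      obtain ⟨t₁, ht₁, hRt₁⟩ := hA
      set S : Set ℝ := {t | t ∈ Icc (0:ℝ) 1 ∧ R ≤ ‖c t - x‖} with hS
      have hSc : IsCompact S := by
        have : S = Icc (0:ℝ) 1 ∩ {t | R ≤ ‖c t - x‖} := rfl
        rw [this]
        exact isCompact_Icc.inter_right
          (isClosed_le continuous_const ((hcd.continuous.sub continuous_const).norm))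
      obtain ⟨t₀, ht₀, hmin⟩ := hSc.exists_isLeast ⟨t₁, ht₁, hRt₁.le⟩
      have ht₀0 : 0 ≤ t₀ := ht₀.1.1
      have hlt : ∀ t ∈ Ico (0:ℝ) t₀, ‖c t - x‖ < R := by
        intro t ht
        by_contra hcon
        push Not at hcon
        have := hmin ⟨⟨ht.1, ht.2.le.trans ht₀.1.2⟩, hcon⟩
        linarith [ht.2]
      have h1 : m * ‖c t₀ - c 0‖ ≤ Len G c 0 t₀ := by
        have hFTC : ∫ t in (0:ℝ)..t₀, deriv c t = c t₀ - c 0 :=
          intervalIntegral.integral_deriv_eq_sub' c rfl
            (fun t _ => (hcd.differentiable (by norm_num)) t) hdc.continuousOn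
        have h2 : ‖c t₀ - c 0‖ ≤ ∫ t in (0:ℝ)..t₀, ‖deriv c t‖ := by
          rw [← hFTC]
          exact intervalIntegral.norm_integral_le_integral_norm ht₀0
        calc m * ‖c t₀ - c 0‖ ≤ m * ∫ t in (0:ℝ)..t₀, ‖deriv c t‖ := by gcongr
          _ = ∫ t in (0:ℝ)..t₀, m * ‖deriv c t‖ := by
              rw [intervalIntegral.integral_const_mul]
          _ ≤ Len G c 0 t₀ := by
              unfold Len
              apply intervalIntegral.integral_mono_on_of_le_Ioo ht₀0
              · exact (continuous_const.mul hdc.norm).intervalIntegrable _ _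
              · exact hcont.intervalIntegrable _ _
              · intro t ht
                exact ((H x hx (c t) ((hlt t ⟨ht.1.le, ht.2⟩).le.trans hRr)).2 _).1
      have h3 : Len G c 0 t₀ ≤ Len G c 0 1 := by
        have hsplit : Len G c 0 1 = Len G c 0 t₀ + Len G c t₀ 1 := by
          unfold Len
          rw [intervalIntegral.integral_add_adjacent_intervals]
          · exact hcont.intervalIntegrable _ _
          · exact hcont.intervalIntegrable _ _
        have := len_nonneg G c ht₀.1.2
        linarith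
      have h4 : R ≤ ‖c t₀ - c 0‖ := by rw [e0]; exact ht₀.2
      have h5 : m * R = (M + m) * ρ := by
        rw [hR, hΛ]; field_simp
      have h6 : nrm G x (z - x) ≤ M * ρ := (hxx.2 (z - x)).2.1
      have h7 : (1 - C' * ρ) * nrm G x (z - x) ≤ nrm G x (z - x) := by
        have : 0 ≤ C' * ρ * nrm G x (z - x) := by
          have := nrm_nonneg G x (z - x)
          have hC'0 : 0 ≤ C' := hC.trans hC'1
          positivity
        nlinarith
      have h8 : m * R ≤ m * ‖c t₀ - c 0‖ := by gcongr
      have h9 : 0 ≤ m * ρ := by positivity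
      nlinarith

end MetricOn

end Run7.h60
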