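import Pool.Agent.Run7.h60.D2
import Pool.Agent.Run7.h60.Defs2

/-! The curvature of meridians. -/

set_option maxSynthPendingDepth 3

open Set MeasureTheory intervalIntegral Filter
open scoped Topology ContDiff RealInnerProductSpace NNReal

namespace Run7.h60

lemma hasDerivAt_form {E : Type*} [NormedAddCommGroup E] [NormedSpace ℝ E]
    {G : E → E →L[ℝ] E →L[ℝ] ℝ} {U : Set E} (h : MetricOn G U) {c v w : ℝ → E} {c' v' w' : E}
    {t : ℝ} (hc : HasDerivAt c c' t) (hv : HasDerivAt v v' t) (hw : HasDerivAt w w' t)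
    (ht : c t ∈ U) :
    HasDerivAt (fun t => G (c t) (v t) (w t))
      (fderiv ℝ G (c t) c' (v t) (w t) + G (c t) v' (w t) + G (c t) (v t) w') t := by
  have h3 : HasFDerivAt G (fderiv ℝ G (c t)) (c t) :=
    ((h.smooth.contDiffAt (h.isOpen.mem_nhds ht)).differentiableAt (by norm_num)).hasFDerivAt
  have h4 : HasDerivAt (fun t => G (c t)) (fderiv ℝ G (c t) c') t := h3.comp_hasDerivAt t hc
  refine ((h4.clm_apply hv).clm_apply hw).congr_deriv ?_
  simp only [add_apply]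

lemma hasDerivAt_vec {a b c : ℝ → ℝ} {a' b' c' t : ℝ} (ha : HasDerivAt a a' t)
    (hb : HasDerivAt b b' t) (hc : HasDerivAt c c' t) :
    HasDerivAt (fun t => (!₂[a t, b t, c t] : R3)) !₂[a', b', c'] t := by
  have h1 : HasDerivAt (fun t => (![a t, b t, c t] : Fin 3 → ℝ)) ![a', b', c'] t := by
    rw [hasDerivAt_pi]
    intro i
    fin_cases i
    · exact ha
    · exact hb
    · exact hc
  exact (PiLp.continuousLinearEquiv 2 ℝ (fun _ : Fin 3 => ℝ)).symm.hasFDerivAt.comp_hasDerivAt t h1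

lemma pt_mem (τ φ : ℝ) : pt τ φ ∈ Metric.sphere (0 : R3) 1 := by
  rw [mem_S2]
  simp only [pt, PiLp.toLp_apply, Matrix.cons_val_zero, Matrix.cons_val_one,
    Matrix.cons_val]
  have h1 := Real.sin_sq_add_cos_sq τ
  have h2 := Real.sin_sq_add_cos_sq φ
  linear_combination h1 + (Real.cos τ ^ 2) * h2

lemma pt_lat (τ φ : ℝ) : ⟪pt τ φ, ptLat τ φ⟫ = 0 := by
  rw [inner3]
  simp only [pt, ptLat, PiLp.toLp_apply, Matrix.cons_val_zero, Matrix.cons_val_one,
    Matrix.cons_val]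
  have h2 := Real.sin_sq_add_cos_sq φ
  linear_combination (-(Real.cos τ * Real.sin τ)) * h2

lemma pt_lon (τ φ : ℝ) : ⟪pt τ φ, ptLon τ φ⟫ = 0 := by
  rw [inner3]
  simp only [pt, ptLon, PiLp.toLp_apply, Matrix.cons_val_zero, Matrix.cons_val_one,
    Matrix.cons_val]
  ring

lemma hasDerivAt_pt_lat (τ φ : ℝ) : HasDerivAt (fun t => pt t φ) (ptLat τ φ) τ := by
  unfold pt ptLat
  apply hasDerivAt_vec
  · refine ((Real.hasDerivAt_cos τ).mul_const (Real.sin φ)).congr_deriv ?_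
    ring
  · exact Real.hasDerivAt_sin τ
  · refine ((Real.hasDerivAt_cos τ).mul_const (Real.cos φ)).congr_deriv ?_
    ring

lemma hasDerivAt_pt_lon (τ φ : ℝ) : HasDerivAt (fun s => pt τ s) (ptLon τ φ) φ := by
  unfold pt ptLon
  apply hasDerivAt_vec
  · exact (Real.hasDerivAt_sin φ).const_mul (Real.cos τ)
  · exact hasDerivAt_const φ (Real.sin τ)
  · refine ((Real.hasDerivAt_cos φ).const_mul (Real.cos τ)).congr_deriv ?_
    ring

lemma hasDerivAt_lat_lat (τ φ : ℝ) : HasDerivAt (fun t => ptLat t φ) (-(pt τ φ)) τ := by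
  have h1 : -(pt τ φ) = !₂[-(Real.cos τ * Real.sin φ), -Real.sin τ, -(Real.cos τ * Real.cos φ)] := by
    apply ext3 <;> simp [pt]
  rw [h1]
  unfold ptLat
  apply hasDerivAt_vec
  · exact ((Real.hasDerivAt_sin τ).mul_const (Real.sin φ)).neg
  · exact Real.hasDerivAt_cos τ
  · exact ((Real.hasDerivAt_sin τ).mul_const (Real.cos φ)).neg

/-- The mixed second derivative of `pt`. -/
noncomputable def ptMix (τ φ : ℝ) : R3 :=
  !₂[-(Real.sin τ * Real.cos φ), 0, Real.sin τ * Real.sin φ]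

lemma hasDerivAt_lat_lon (τ φ : ℝ) : HasDerivAt (fun s => ptLat τ s) (ptMix τ φ) φ := by
  unfold ptLat ptMix
  apply hasDerivAt_vec
  · exact ((Real.hasDerivAt_sin φ).const_mul (Real.sin τ)).neg
  · exact hasDerivAt_const φ (Real.cos τ)
  · refine ((Real.hasDerivAt_cos φ).const_mul (Real.sin τ)).neg.congr_deriv ?_
    ring

lemma hasDerivAt_lon_lat (τ φ : ℝ) : HasDerivAt (fun t => ptLon t φ) (ptMix τ φ) τ := by
  unfold ptLon ptMix
  apply hasDerivAt_vec
  · refine ((Real.hasDerivAt_cos τ).mul_const (Real.cos φ)).congr_deriv ?_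
    ring
  · exact hasDerivAt_const τ 0
  · refine ((Real.hasDerivAt_cos τ).mul_const (Real.sin φ)).neg.congr_deriv ?_
    ring

variable {g : R3 → Form}

lemma coefE_eq (g : R3 → Form) (τ φ : ℝ) :
    coefE g τ φ = ext g (pt τ φ) (ptLat τ φ) (ptLat τ φ) := by
  rw [ext_tangent g (pt_mem τ φ) (pt_lat τ φ) (pt_lat τ φ)]; rfl

lemma coefF_eq (g : R3 → Form) (τ φ : ℝ) :
    coefF g τ φ = ext g (pt τ φ) (ptLat τ φ) (ptLon τ φ) := by
  rw [ext_tangent g (pt_mem τ φ) (pt_lat τ φ) (pt_lon τ φ)]; rfl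

lemma ext_radial_tangent (g : R3 → R3 →L[ℝ] R3 →L[ℝ] ℝ) {x v : R3}
    (hx : x ∈ Metric.sphere (0 : R3) 1) (hv : ⟪x, v⟫ = 0) : ext g x x v = 0 := by
  rw [ext_apply, drad_self (sphere_subset hx), hv]
  simp

/-- The curvature expression in terms of the acceleration. -/
lemma curvNum_eq (hg : SphMetric g) (τ φ : ℝ) :
    curvNum g τ φ = -(ext g (pt τ φ) (ptLat τ φ) (ptLat τ φ)
        * ext g (pt τ φ) (chr (ext g) (pt τ φ) (ptLat τ φ)) (ptLon τ φ))
      + ext g (pt τ φ) (ptLat τ φ) (ptLon τ φ)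
        * ext g (pt τ φ) (chr (ext g) (pt τ φ) (ptLat τ φ)) (ptLat τ φ) := by
  have h := metricOn_ext hg
  have hrad1 := ext_radial_tangent g (pt_mem τ φ) (pt_lat τ φ)
  have hrad2 := ext_radial_tangent g (pt_mem τ φ) (pt_lon τ φ)
  have hE : coefE g = fun τ φ => ext g (pt τ φ) (ptLat τ φ) (ptLat τ φ) := by
    funext τ φ; exact coefE_eq g τ φ
  have hF : coefF g = fun τ φ => ext g (pt τ φ) (ptLat τ φ) (ptLon τ φ) := by
    funext τ φ; exact coefF_eq g τ φ
  unfold curvNum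
  rw [hE, hF]
  generalize ext g = G at *
  have hx : pt τ φ ∈ ({0}ᶜ : Set R3) := sphere_subset (pt_mem τ φ)
  have d1 : deriv (fun t => G (pt t φ) (ptLat t φ) (ptLat t φ)) τ
      = -2 * G (pt τ φ) (chr G (pt τ φ) (ptLat τ φ)) (ptLat τ φ) := by
    rw [(hasDerivAt_form h (hasDerivAt_pt_lat τ φ) (hasDerivAt_lat_lat τ φ)
      (hasDerivAt_lat_lat τ φ) hx).deriv, chr_spec h hx, h.symm _ hx (ptLat τ φ) (-(pt τ φ))]
    simp only [map_neg, neg_apply]
    rw [hrad1]; ring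
  have d2 : deriv (fun s => G (pt τ s) (ptLat τ s) (ptLat τ s)) φ
      = fderiv ℝ G (pt τ φ) (ptLon τ φ) (ptLat τ φ) (ptLat τ φ)
        + 2 * G (pt τ φ) (ptLat τ φ) (ptMix τ φ) := by
    rw [(hasDerivAt_form h (hasDerivAt_pt_lon τ φ) (hasDerivAt_lat_lon τ φ)
      (hasDerivAt_lat_lon τ φ) hx).deriv, h.symm _ hx (ptMix τ φ) (ptLat τ φ)]
    ring
  have d3 : deriv (fun t => G (pt t φ) (ptLat t φ) (ptLon t φ)) τ
      = fderiv ℝ G (pt τ φ) (ptLat τ φ) (ptLat τ φ) (ptLon τ φ)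
        + G (pt τ φ) (ptLat τ φ) (ptMix τ φ) := by
    rw [(hasDerivAt_form h (hasDerivAt_pt_lat τ φ) (hasDerivAt_lat_lat τ φ)
      (hasDerivAt_lon_lat τ φ) hx).deriv]
    simp only [map_neg, neg_apply]
    rw [hrad2]; ring
  rw [d1, d2, d3, chr_spec h hx (ptLat τ φ) (ptLon τ φ)]
  ring

/-- The tangential decomposition in the meridian frame. -/
lemma frame_decomp {τ φ : ℝ} {u : R3} :
    (Real.cos τ ^ 2) • u = (Real.cos τ ^ 2 * ⟪pt τ φ, u⟫) • pt τ φ
      + (Real.cos τ ^ 2 * ⟪ptLat τ φ, u⟫) • ptLat τ φ + ⟪ptLon τ φ, u⟫ • ptLon τ φ := by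
  have h1 := Real.sin_sq_add_cos_sq τ
  have h2 := Real.sin_sq_add_cos_sq φ
  have e1 : Real.sin τ ^ 2 = 1 - Real.cos τ ^ 2 := by linarith
  have e2 : Real.sin φ ^ 2 = 1 - Real.cos φ ^ 2 := by linarith
  rw [inner3, inner3, inner3]
  apply ext3
  · simp [pt, ptLat, ptLon]
    ring_nf
    simp only [e1, e2]
    ring
  · simp [pt, ptLat, ptLon]
    ring_nf
    simp only [e1]
    ring
  · simp [pt, ptLat, ptLon]
    ring_nf
    simp only [e1, e2]
    ring

lemma zt_pt (τ φ : ℝ) (u : R3) : zt (pt τ φ) u = ⟪ptLon τ φ, u⟫ := by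
  rw [inner3]
  simp [zt, pt, ptLon]
  ring

lemma ev_pt (τ φ : ℝ) : ev (pt τ φ) = Real.cos τ • ptLat τ φ := by
  have h1 := Real.sin_sq_add_cos_sq τ
  apply ext3
  · simp [ev, pt, ptLat]; ring
  · simp [ev, pt, ptLat]; linear_combination -h1
  · simp [ev, pt, ptLat]; ring

lemma zt_nonneg_of_curvNum (hg : SphMetric g) {τ φ : ℝ} (hτ : 0 < Real.cos τ)
    (hc : curvNum g τ φ ≤ 0) :
    0 ≤ zt (pt τ φ) (chr (ext g) (pt τ φ) (ev (pt τ φ))) := by
  rw [curvNum_eq hg] at hc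
  rw [ev_pt, chr_smul, zt_smul, zt_pt]
  have h := metricOn_ext hg
  have hrad1 := ext_radial_tangent g (pt_mem τ φ) (pt_lat τ φ)
  have hrad2 := ext_radial_tangent g (pt_mem τ φ) (pt_lon τ φ)
  generalize ext g = G at *
  have hx : pt τ φ ∈ ({0}ᶜ : Set R3) := sphere_subset (pt_mem τ φ)
  obtain ⟨Γ, hΓ⟩ : ∃ Γ, Γ = chr G (pt τ φ) (ptLat τ φ) := ⟨_, rfl⟩
  rw [← hΓ] at hc ⊢
  have hd := frame_decomp (τ := τ) (φ := φ) (u := Γ)
  obtain ⟨a, ha⟩ : ∃ a, a = ⟪pt τ φ, Γ⟫ := ⟨_, rfl⟩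
  obtain ⟨b, hb⟩ : ∃ b, b = ⟪ptLat τ φ, Γ⟫ := ⟨_, rfl⟩
  obtain ⟨β, hβ⟩ : ∃ β, β = ⟪ptLon τ φ, Γ⟫ := ⟨_, rfl⟩
  rw [← ha, ← hb, ← hβ] at hd
  rw [← hβ]
  obtain ⟨E, hE⟩ : ∃ E, E = G (pt τ φ) (ptLat τ φ) (ptLat τ φ) := ⟨_, rfl⟩
  obtain ⟨F, hF⟩ : ∃ F, F = G (pt τ φ) (ptLat τ φ) (ptLon τ φ) := ⟨_, rfl⟩
  obtain ⟨D, hD⟩ : ∃ D, D = G (pt τ φ) (ptLon τ φ) (ptLon τ φ) := ⟨_, rfl⟩
  have hF' : G (pt τ φ) (ptLon τ φ) (ptLat τ φ) = F := by rw [hF]; exact h.symm _ hx _ _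
  have k1 : Real.cos τ ^ 2 * G (pt τ φ) Γ (ptLat τ φ) = Real.cos τ ^ 2 * b * E + β * F := by
    have := congrArg (fun u => G (pt τ φ) u (ptLat τ φ)) hd
    simp only [map_smul, map_add, smul_apply, add_apply, smul_eq_mul] at this
    rw [hrad1, hF', ← hE] at this
    linarith
  have k2 : Real.cos τ ^ 2 * G (pt τ φ) Γ (ptLon τ φ) = Real.cos τ ^ 2 * b * F + β * D := by
    have := congrArg (fun u => G (pt τ φ) u (ptLon τ φ)) hd
    simp only [map_smul, map_add, smul_apply, add_apply, smul_eq_mul] at this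
    rw [hrad2, ← hD, ← hF] at this
    linarith
  have hlat1 : ptLat τ φ 1 = Real.cos τ := by simp [ptLat]
  have hlon1 : ptLon τ φ 1 = 0 := by simp [ptLon]
  have hE0 : 0 < E := by
    rw [hE]
    apply h.pos _ hx
    intro hcon
    rw [hcon] at hlat1
    simp only [PiLp.zero_apply] at hlat1
    linarith
  have hlonn : ptLon τ φ ≠ 0 := by
    intro hcon
    have h0 := congrArg (fun v : R3 => v 0) hcon
    have h2 := congrArg (fun v : R3 => v 2) hcon
    simp [ptLon] at h0 h2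
    rcases h0 with h0 | h0
    · linarith
    · rcases h2 with h2 | h2
      · linarith
      · have := Real.sin_sq_add_cos_sq φ
        rw [h0, h2] at this
        norm_num at this
  have hdet : 0 < E * D - F ^ 2 := by
    have hne : F • ptLat τ φ - E • ptLon τ φ ≠ 0 := by
      intro hcon
      have h1 := congrArg (fun v : R3 => v 1) hcon
      simp only [PiLp.sub_apply, PiLp.smul_apply, smul_eq_mul, hlat1, hlon1, mul_zero, sub_zero,
        PiLp.zero_apply] at h1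
      have hF0 : F = 0 := by
        rcases mul_eq_zero.1 h1 with h2 | h2
        · exact h2
        · exact absurd h2 hτ.ne'
      rw [hF0, zero_smul, zero_sub, neg_eq_zero] at hcon
      rcases smul_eq_zero.1 hcon with h2 | h2
      · exact hE0.ne' h2
      · exact hlonn h2
    have h1 := h.pos _ hx _ hne
    have h2 : G (pt τ φ) (F • ptLat τ φ - E • ptLon τ φ) (F • ptLat τ φ - E • ptLon τ φ)
        = E * (E * D - F ^ 2) := by
      simp only [map_sub, map_smul, sub_apply, smul_apply, smul_eq_mul]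
      rw [hF', ← hE, ← hF, ← hD]; ring
    rw [h2] at h1
    exact (mul_pos_iff_of_pos_left hE0).1 h1
  have hkey : Real.cos τ ^ 2 * (-(E * G (pt τ φ) Γ (ptLon τ φ)) + F * G (pt τ φ) Γ (ptLat τ φ))
      = -(β * (E * D - F ^ 2)) := by
    linear_combination F * k1 - E * k2
  rw [← hE, ← hF] at hc
  have hβ0 : 0 ≤ β := by
    by_contra hcon
    push Not at hcon
    have h1 : 0 < -(β * (E * D - F ^ 2)) := by nlinarith
    rw [← hkey] at h1
    have h2 : Real.cos τ ^ 2 * (-(E * G (pt τ φ) Γ (ptLon τ φ)) + F * G (pt τ φ) Γ (ptLat τ φ))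
        ≤ 0 := mul_nonpos_of_nonneg_of_nonpos (by positivity) hc
    linarith
  positivity

lemma exists_pt {X : R3} (hX : X ∈ Metric.sphere (0 : R3) 1) (h0 : 0 < X 0) (h2 : 0 < X 2) :
    ∃ τ φ : ℝ, |τ| < Real.pi / 2 ∧ 0 < φ ∧ φ < Real.pi / 2 ∧ 0 < Real.cos τ ∧ X = pt τ φ := by
  rw [mem_S2] at hX
  have hy1 : -1 < X 1 := by nlinarith [sq_nonneg (X 1)]
  have hy2 : X 1 < 1 := by nlinarith [sq_nonneg (X 1)]
  obtain ⟨ρ, hρ⟩ : ∃ ρ, ρ = Real.sqrt (X 0 ^ 2 + X 2 ^ 2) := ⟨_, rfl⟩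
  have hρ2 : ρ ^ 2 = X 0 ^ 2 + X 2 ^ 2 := by rw [hρ]; exact Real.sq_sqrt (by positivity)
  have hρ0 : 0 < ρ := by rw [hρ]; exact Real.sqrt_pos.2 (by positivity)
  have hlt : X 0 < ρ := by
    apply lt_of_pow_lt_pow_left₀ 2 hρ0.le
    rw [hρ2]; nlinarith
  have hq1 : X 0 / ρ < 1 := (div_lt_one hρ0).2 hlt
  have hq0 : 0 < X 0 / ρ := by positivity
  have hcos1 : Real.cos (Real.arcsin (X 1)) = ρ := by
    rw [Real.cos_arcsin, Real.sqrt_eq_iff_mul_self_eq (by nlinarith) hρ0.le]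
    nlinarith
  have hcos2 : Real.cos (Real.arcsin (X 0 / ρ)) = X 2 / ρ := by
    rw [Real.cos_arcsin, Real.sqrt_eq_iff_mul_self_eq (by
      have : (X 0 / ρ) ^ 2 ≤ 1 := by nlinarith
      linarith) (by positivity)]
    field_simp
    linarith
  refine ⟨Real.arcsin (X 1), Real.arcsin (X 0 / ρ), ?_, ?_, ?_, ?_, ?_⟩
  · rw [abs_lt]
    exact ⟨Real.neg_pi_div_two_lt_arcsin.2 hy1, Real.arcsin_lt_pi_div_two.2 hy2⟩
  · exact Real.arcsin_pos.2 hq0
  · exact Real.arcsin_lt_pi_div_two.2 hq1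
  · rw [hcos1]; exact hρ0
  · unfold pt
    rw [hcos1, hcos2, Real.sin_arcsin hy1.le hy2.le, Real.sin_arcsin (by linarith) hq1.le]
    apply ext3
    · simp; field_simp
    · simp
    · simp; field_simp

lemma signed_of_curvNum (hg : SphMetric g)
    (h : ∀ τ φ : ℝ, |τ| < Real.pi / 2 → 0 < φ → φ < Real.pi / 2 → curvNum g τ φ ≤ 0) :
    Signed g := by
  have hopen : ∀ X ∈ Metric.sphere (0 : R3) 1, 0 < X 0 → 0 < X 2 →
      0 ≤ zt X (chr (ext g) X (ev X)) := by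
    intro X hX h0 h2
    obtain ⟨τ, φ, h3, h4, h5, h6, h7⟩ := exists_pt hX h0 h2
    rw [h7]
    exact zt_nonneg_of_curvNum hg h6 (h τ φ h3 h4 h5)
  intro X hX h0 h2
  -- approach from the open quarter
  have hm := metricOn_ext hg
  generalize ext g = G at *
  obtain ⟨w, hw⟩ : ∃ w : R3, w = !₂[1, 0, 1] := ⟨_, rfl⟩
  have hw0 : w 0 = 1 := by rw [hw]; simp
  have hw2 : w 2 = 1 := by rw [hw]; simp
  have hX0 : X ≠ 0 := sphere_subset hX
  have hcont : ContinuousOn (fun Y : R3 => zt Y (chr G Y (ev Y))) {0}ᶜ := by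
    have hev : Continuous ev := by
      have h1 : Continuous (fun X : R3 => (![-(X 0 * X 1), 1 - X 1 ^ 2, -(X 2 * X 1)] :
          Fin 3 → ℝ)) := by
        apply continuous_pi
        intro i
        fin_cases i
        · exact ((continuous_coord 0).mul (continuous_coord 1)).neg
        · exact continuous_const.sub ((continuous_coord 1).pow 2)
        · exact ((continuous_coord 2).mul (continuous_coord 1)).neg
      exact (PiLp.continuous_toLp 2 _).comp h1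
    have h1 : ContinuousOn (fun Y : R3 => chr G Y (ev Y)) {0}ᶜ :=
      ((contDiffOn_chr hm).continuousOn).comp (f := fun Y : R3 => (Y, ev Y))
        (continuousOn_id.prodMk hev.continuousOn) (fun Y hY => ⟨hY, mem_univ _⟩)
    unfold zt
    exact ((continuous_coord 2).continuousOn.mul ((continuous_coord 0).comp_continuousOn h1)).sub
      ((continuous_coord 0).continuousOn.mul ((continuous_coord 2).comp_continuousOn h1))
  have hpath : Tendsto (fun s : ℝ => rad (X + s • w)) (𝓝[>] 0) (𝓝 X) := by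
    have h1 : ContinuousAt (fun s : ℝ => X + s • w) 0 := by fun_prop
    have h3 : ContinuousAt (fun s : ℝ => rad (X + s • w)) 0 := by
      have h5 : ({0}ᶜ : Set R3) ∈ 𝓝 (X + (0:ℝ) • w) := by
        apply isOpen_compl_singleton.mem_nhds
        simpa using hX0
      exact ContinuousAt.comp (f := fun s : ℝ => X + s • w)
        (contDiffOn_rad.continuousOn.continuousAt h5) h1
    have h4 := h3.tendsto
    simp only [zero_smul, add_zero] at h4
    rw [rad_eq hX] at h4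
    exact h4.mono_left nhdsWithin_le_nhds
  have hlim : Tendsto (fun s : ℝ => zt (rad (X + s • w)) (chr G (rad (X + s • w))
      (ev (rad (X + s • w))))) (𝓝[>] 0) (𝓝 (zt X (chr G X (ev X)))) :=
    (hcont.continuousAt (isOpen_compl_singleton.mem_nhds hX0)).tendsto.comp hpath
  refine ge_of_tendsto hlim ?_
  filter_upwards [self_mem_nhdsWithin] with s hs
  have hs0 : 0 < s := hs
  have e0 : (X + s • w) 0 = X 0 + s := by simp [hw0]
  have e2 : (X + s • w) 2 = X 2 + s := by simp [hw2]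
  have hne : X + s • w ≠ 0 := by
    intro hcon
    rw [hcon] at e0
    simp only [PiLp.zero_apply] at e0
    linarith
  have hn : 0 < ‖X + s • w‖⁻¹ := inv_pos.2 (norm_pos_iff.2 hne)
  apply hopen _ (rad_mem hne)
  · show 0 < (‖X + s • w‖⁻¹ • (X + s • w)) 0
    rw [PiLp.smul_apply, smul_eq_mul, e0]
    exact mul_pos hn (by linarith)
  · show 0 < (‖X + s • w‖⁻¹ • (X + s • w)) 2
    rw [PiLp.smul_apply, smul_eq_mul, e2]
    exact mul_pos hn (by linarith)

end Run7.h60
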