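import Mathlib

/-! Extension of bounded integral curves of a smooth vector field. -/

open Set MeasureTheory intervalIntegral Filter
open scoped Topology ContDiff NNReal

namespace Run7.h60

variable {V : Type*} [NormedAddCommGroup V] [NormedSpace ℝ V]

/-- Cut-off functions. -/
lemma exists_cutoff [FiniteDimensional ℝ V] {K Ω : Set V} (hK : IsCompact K) (hΩ : IsOpen Ω)
    (hKΩ : K ⊆ Ω) :
    ∃ χ : V → ℝ, ContDiff ℝ ∞ χ ∧ HasCompactSupport χ ∧ tsupport χ ⊆ Ω ∧ ∀ x ∈ K, χ x = 1 := by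
  have hprop : ProperSpace V := FiniteDimensional.proper ℝ V
  obtain ⟨r, hr, hrU⟩ := hK.exists_cthickening_subset_open hΩ hKΩ
  have hT : IsCompact (Metric.cthickening r K) := hK.cthickening
  obtain ⟨f, hf1, hf0, -⟩ := exists_contMDiffMap_one_nhds_of_subset_interior
    (n := ⊤) (modelWithCornersSelf ℝ V) (s := K) (t := Metric.cthickening r K) hK.isClosed
    ((Metric.self_subset_thickening hr K).trans
      (interior_maximal (Metric.thickening_subset_cthickening r K) Metric.isOpen_thickening))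
  have hts : tsupport (fun x => f x) ⊆ Metric.cthickening r K := by
    apply closure_minimal _ hT.isClosed
    intro x hx
    by_contra hcon
    exact hx (hf0 x hcon)
  refine ⟨fun x => f x, f.contMDiff.contDiff, ?_, hts.trans hrU, ?_⟩
  · exact hT.of_isClosed_subset (isClosed_tsupport _) hts
  · intro x hx
    exact hf1.self_of_nhdsSet x hx

/-- A smooth reparametrisation of the line into `(-1,2)`, the identity near `[0,1]`. -/
lemma exists_reparam :
    ∃ φ : ℝ → ℝ, ContDiff ℝ ∞ φ ∧ (∀ t, φ t ∈ Ioo (-1:ℝ) 2) ∧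
      ∀ t ∈ Icc (-1/2:ℝ) (3/2), φ t = t := by
  let b : ContDiffBump (1/2:ℝ) := ⟨1, 5/4, by norm_num, by norm_num⟩
  refine ⟨fun t => 1/2 + (t - 1/2) * b t, ?_, ?_, ?_⟩
  · exact contDiff_const.add ((contDiff_id.sub contDiff_const).mul b.contDiff)
  · intro t
    by_cases h : 5/4 ≤ dist t (1/2:ℝ)
    · have h0 : b t = 0 := b.zero_of_le_dist h
      simp only [h0, mul_zero, add_zero]
      constructor <;> norm_num
    · push Not at h
      rw [Real.dist_eq, abs_lt] at h
      have h0 := b.nonneg' t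
      have h1 : b t ≤ 1 := b.le_one
      constructor
      · simp only; nlinarith
      · simp only; nlinarith
  · intro t ht
    have h1 : b t = 1 := by
      apply b.one_of_mem_closedBall
      rw [Metric.mem_closedBall, Real.dist_eq, abs_le]
      show -(1:ℝ) ≤ t - 1/2 ∧ t - 1/2 ≤ 1
      constructor <;> linarith [ht.1, ht.2]
    simp only [h1]; ring

lemma extend_solution [FiniteDimensional ℝ V] {X : V → V} {Ω K : Set V} (hΩ : IsOpen Ω)
    (hX : ContDiffOn ℝ ∞ X Ω) (hK : IsCompact K) (hKΩ : K ⊆ Ω) {z : ℝ → V}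
    (hz : ∀ t ∈ Ioo (0:ℝ) 1, HasDerivAt z (X (z t)) t ∧ z t ∈ K) :
    ∃ Z : ℝ → V, ContDiff ℝ ∞ Z ∧ ∀ t ∈ Ioo (0:ℝ) 1, Z t = z t := by
  have hcomp : CompleteSpace V := FiniteDimensional.complete ℝ V
  obtain ⟨χ, hχ, hχc, hχΩ, hχ1⟩ := exists_cutoff hK hΩ hKΩ
  obtain ⟨Y, hY⟩ : ∃ Y : V → V, Y = fun x => χ x • X x := ⟨_, rfl⟩
  have hYs : tsupport Y ⊆ tsupport χ := by
    rw [hY]; exact tsupport_smul_subset_left χ X
  have hYd : ContDiff ℝ ∞ Y := by
    rw [contDiff_iff_contDiffAt]
    intro x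
    by_cases hx : x ∈ tsupport χ
    · rw [hY]
      exact hχ.contDiffAt.smul (hX.contDiffAt (hΩ.mem_nhds (hχΩ hx)))
    · have h1 : Y =ᶠ[𝓝 x] fun _ => 0 := by
        have h2 : (tsupport χ)ᶜ ∈ 𝓝 x := (isClosed_tsupport χ).isOpen_compl.mem_nhds hx
        filter_upwards [h2] with y hy
        by_contra hcon
        exact hy (hYs (subset_tsupport Y hcon))
      exact contDiffAt_const.congr_of_eventuallyEq h1
  have hYc : HasCompactSupport Y := hχc.of_isClosed_subset (isClosed_tsupport _) hYs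
  obtain ⟨C, hC⟩ := ContDiff.lipschitzWith_of_hasCompactSupport hYc hYd (by simp)
  obtain ⟨L, hL⟩ : ∃ L : ℝ≥0, ∀ x, ‖Y x‖ ≤ L := by
    obtain ⟨L, hL⟩ := hYd.continuous.bounded_above_of_compact_support hYc
    exact ⟨⟨max L 0, le_max_right _ _⟩, fun x => (hL x).trans (le_max_left _ _)⟩
  have hhalf : (1/2:ℝ) ∈ Icc (-1:ℝ) 2 := by constructor <;> norm_num
  have hPL : IsPicardLindelof (fun _ => Y) (⟨1/2, hhalf⟩ : Icc (-1:ℝ) 2) (z (1/2)) (2 * L) 0 L C :=
    { lipschitzOnWith := fun t _ => hC.lipschitzOnWith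
      continuousOn := fun x _ => continuousOn_const
      norm_le := fun t _ x _ => hL x
      mul_max_le := by
        have : max ((2:ℝ) - 1/2) (1/2 - (-1)) = 3/2 := by norm_num
        simp only [this]
        have := L.coe_nonneg
        push_cast
        nlinarith }
  obtain ⟨α, hα0, hα⟩ := hPL.exists_eq_forall_mem_Icc_hasDerivWithinAt
    (x := z (1/2)) (by simp)
  simp only at hα0
  have hαs : ContDiffOn ℝ ∞ α (Icc (-1) 2) :=
    ODE.contDiffOn_enat_Icc_of_hasDerivWithinAt (f := fun _ => Y) (u := univ) (n := ⊤)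
      ((hYd.comp contDiff_snd).contDiffOn) hα (fun _ _ => mem_univ _)
  have huniq : EqOn α z (Ioo 0 1) := by
    apply ODE_solution_unique_of_mem_Ioo (v := fun _ => Y) (s := fun _ => univ) (K := C)
      (t₀ := 1/2)
    · exact fun t _ => hC.lipschitzOnWith
    · constructor <;> norm_num
    · intro t ht
      refine ⟨(hα t ⟨by linarith [ht.1], by linarith [ht.2]⟩).hasDerivAt ?_, mem_univ _⟩
      exact Icc_mem_nhds (by linarith [ht.1]) (by linarith [ht.2])
    · intro t ht
      refine ⟨?_, mem_univ _⟩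
      have h1 := (hz t ht).1
      have h2 : Y (z t) = X (z t) := by
        rw [hY]; simp only; rw [hχ1 _ (hz t ht).2, one_smul]
      rw [h2]; exact h1
    · exact hα0
  obtain ⟨φ, hφ, hφm, hφi⟩ := exists_reparam
  refine ⟨fun t => α (φ t), ?_, ?_⟩
  · rw [contDiff_iff_contDiffAt]
    intro t
    exact (hαs.contDiffAt (Icc_mem_nhds (hφm t).1 (hφm t).2)).comp t hφ.contDiffAt
  · intro t ht
    simp only
    rw [hφi t ⟨by linarith [ht.1], by linarith [ht.2]⟩]
    exact huniq ht

end Run7.h60
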