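import Pool.Agent.Run7.h60.PaMain

/-!
# Almost affine paths, and the converse
-/

set_option autoImplicit false
set_option maxHeartbeats 1000000

open scoped ContDiff Topology Convolution Uniformity
open MeasureTheory Set Metric

namespace Pool.Agent.Run7.h60.Pa

open Pool.Agent.W71.EC Pool.Agent.W5h83.HG Pool.Agent.W5h49.EC Pool.Agent.Run7.h60.Rot

variable {n : ℕ}

theorem exists_eps (n : ℕ) : ∃ ε : ℝ, 0 < ε ∧ ∀ E : R2 n →L[ℝ] R2 n,
    ‖E - ContinuousLinearMap.id ℝ (R2 n)‖ ≤ ε → NR E := by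
  have h : {A : R2 n →L[ℝ] R2 n | NR A} ∈ 𝓝 (ContinuousLinearMap.id ℝ (R2 n)) :=
    (nr_open n).mem_nhds Pool.Agent.Run7.h233.EC.NR_id'
  obtain ⟨ε, hε, h2⟩ := Metric.mem_nhds_iff.1 h
  refine ⟨ε / 2, by positivity, fun E hE => h2 ?_⟩
  rw [mem_ball, dist_eq_norm]
  linarith

theorem NR_comp {L : R2 n ≃L[ℝ] R2 n} {l : ℝ} (hl : 0 < l)
    (hL : ∀ u v, omega (L u) (L v) = l * omega u v) {A : R2 n → R2 n}
    (h : NR fun v => L.symm (A v)) : NR A := by
  rintro ⟨v, hv, c, hc, hw⟩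
  refine h ⟨v, hv, c / l, div_nonneg hc hl.le, fun w => ?_⟩
  have h1 := hL (L.symm (A v)) (L.symm (A w))
  rw [L.apply_symm_apply, L.apply_symm_apply, hw w] at h1
  show omega (L.symm (A v)) (L.symm (A w)) = _
  field_simp
  linarith

/-- almost affine maps have averaged differentials which never reverse the form -/
theorem aff_NR (n : ℕ) : ∃ η : ℝ, 0 < η ∧ ∀ (r : ℝ), 0 < r → ∀ (h : R2 n → R2 n),
    Continuous h → ∀ (x : R2 n) (L : R2 n ≃L[ℝ] R2 n) (l : ℝ), 0 < l →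
    (∀ u v, omega (L u) (L v) = l * omega u v) →
    (∀ y, ‖y‖ ≤ r → ‖L.symm (h (x + y) - h x) - y‖ ≤ η * r) → NR (AV (kp n) r h x) := by
  obtain ⟨ε, hε, hE⟩ := exists_eps n
  have hk := kc_nonneg (kp n)
  refine ⟨ε / (kc (kp n) + 1), by positivity, fun r hr h hh x L l hl hL hy => ?_⟩
  have h1 := MM_est (kp_moll n) kp_zero hr hh L hy
  refine NR_comp hl hL ?_
  refine hE ((L.symm : R2 n →L[ℝ] R2 n).comp (AV (kp n) r h x)) ?_
  refine ContinuousLinearMap.opNorm_le_bound _ hε.le fun v => ?_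
  refine (h1 v).trans (mul_le_mul_of_nonneg_right ?_ (norm_nonneg _))
  have e : r⁻¹ * kc (kp n) * (ε / (kc (kp n) + 1) * r) = kc (kp n) * ε / (kc (kp n) + 1) := by
    field_simp
  rw [e, div_le_iff₀ (by positivity)]
  nlinarith

theorem AV_symp {ρ : R2 n → ℝ} (hρ : Moll ρ) {r : ℝ} (hr : 0 < r) (φ : SympCt n) (x : R2 n) :
    (AV ρ r φ.toEquiv x : R2 n → R2 n) = MD ρ φ r x := by
  have e : (MM ρ r fun z => φ.toEquiv z - z) = fun x => HH ρ φ r x := by
    funext x
    exact MM_HH hr φ x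
  funext v
  rw [MD_eq hρ]
  unfold AV
  rw [e, (HH_fderiv hρ φ r x).fderiv]
  rfl

/-- the family of maps of a homotopy -/
theorem path_of_hom {C : Type} [TopologicalSpace C] [CompactSpace C] {f g : C(C, SympCt n)}
    {A : Set C} (hA : ∀ c ∈ A, f c = one) (h : f.HomotopicRel g A) :
    ∃ Φ : C(unitInterval × C, SympCt n), Continuous (fun q : C × unitInterval × R2 n =>
      (Φ (q.2.1, q.1)).toEquiv q.2.2) ∧ (∃ K, IsCompact K ∧ ∀ c t x, x ∉ K →
      (Φ (t, c)).toEquiv x = x) ∧ (∀ c x, (Φ (0, c)).toEquiv x = (f c).toEquiv x) ∧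
      (∀ c x, (Φ (1, c)).toEquiv x = (g c).toEquiv x) ∧
      ∀ c ∈ A, ∀ t x, (Φ (t, c)).toEquiv x = x := by
  obtain ⟨Φ⟩ := h
  refine ⟨Φ.toContinuousMap, ?_, ?_, ?_, ?_, ?_⟩
  · have h1 : Continuous (Function.uncurry fun (q : unitInterval × C) (x : R2 n) =>
        (Φ.toContinuousMap q).toEquiv x) := (JS.of_continuous Φ.toContinuousMap.continuous 0).cont
    exact h1.comp (((continuous_fst.comp continuous_snd).prodMk continuous_fst).prodMk
      (continuous_snd.comp continuous_snd))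
  · obtain ⟨m, hm⟩ := supp_unif (isCompact_range Φ.toContinuousMap.continuous)
    exact ⟨closedBall 0 m, isCompact_closedBall _ _, fun c t x hx => hm _ ⟨(t, c), rfl⟩ x hx⟩
  · intro c x
    have : Φ.toContinuousMap (0, c) = f c := Φ.apply_zero c
    rw [this]
  · intro c x
    have : Φ.toContinuousMap (1, c) = g c := Φ.apply_one c
    rw [this]
  · intro c hc t x
    have : Φ.toContinuousMap (t, c) = f c := Φ.prop' t c hc
    rw [this, hA c hc]
    rfl

/-- compact families are almost affine at small scales -/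
theorem aff_small {Q : Type} [TopologicalSpace Q] [CompactSpace Q] (Φ : C(Q, SympCt n)) {η : ℝ}
    (hη : 0 < η) : ∃ δ : ℝ, 0 < δ ∧ ∀ r : ℝ, 0 ≤ r → r ≤ δ → ∀ q x, ∃ L : R2 n →L[ℝ] R2 n,
      (∀ u v, omega (L u) (L v) = omega u v) ∧ ∀ y, ‖y‖ ≤ r → ∃ z, ‖z‖ ≤ η * r ∧
        (Φ q).toEquiv (x + y) = (Φ q).toEquiv x + L (y + z) := by
  obtain ⟨m, hm⟩ := supp_unif (isCompact_range Φ.continuous)
  have j0 : Continuous (Function.uncurry fun (q : Q) (x : R2 n) => (Φ q).toEquiv x) :=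
    (JS.of_continuous Φ.continuous 0).cont
  have j1 : Continuous (Function.uncurry fun (q : Q) (x : R2 n) => fderiv ℝ (Φ q).toEquiv x) :=
    (JS.of_continuous Φ.continuous 1).2.2
  have j2 : Continuous (Function.uncurry fun (q : Q) (x : R2 n) =>
      fderiv ℝ (Φ q).toEquiv.symm x) := (JS.of_continuous (invC Φ).continuous 1).2.2
  have hc : Continuous (fun w : R2 n × (Q × R2 n) =>
      ‖(fderiv ℝ (Φ w.2.1).toEquiv.symm ((Φ w.2.1).toEquiv w.2.2)).comp
        (fderiv ℝ (Φ w.2.1).toEquiv (w.2.2 + w.1)) - ContinuousLinearMap.id ℝ (R2 n)‖) := by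
    have c1 : Continuous (fun w : R2 n × (Q × R2 n) => w.2.1) :=
      continuous_fst.comp continuous_snd
    have c2 : Continuous (fun w : R2 n × (Q × R2 n) => w.2.2) :=
      continuous_snd.comp continuous_snd
    have c3 : Continuous (fun w : R2 n × (Q × R2 n) => (Φ w.2.1).toEquiv w.2.2) :=
      j0.comp (c1.prodMk c2)
    exact (((j2.comp (c1.prodMk c3)).clm_comp (j1.comp (c1.prodMk
      (c2.add continuous_fst)))).sub continuous_const).norm
  have hleft : ∀ (q : Q) (x u : R2 n), fderiv ℝ (Φ q).toEquiv.symm ((Φ q).toEquiv x)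
      (fderiv ℝ (Φ q).toEquiv x u) = u := by
    intro q x u
    exact inv_left (f := (Φ q).toEquiv.symm) (Φ q).smooth_symm (Φ q).smooth x u
  have hright : ∀ (q : Q) (x u : R2 n), fderiv ℝ (Φ q).toEquiv x
      (fderiv ℝ (Φ q).toEquiv.symm ((Φ q).toEquiv x) u) = u := by
    intro q x u
    have := inv_left (f := (Φ q).toEquiv) (Φ q).smooth (Φ q).smooth_symm ((Φ q).toEquiv x) u
    rwa [Equiv.symm_apply_apply] at this
  have hK : IsCompact ((univ : Set Q) ×ˢ closedBall (0 : R2 n) (m + 1)) :=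
    isCompact_univ.prod (isCompact_closedBall _ _)
  have hev : ∀ᶠ y : R2 n in 𝓝 0, ∀ w ∈ (univ : Set Q) ×ˢ closedBall (0 : R2 n) (m + 1),
      ‖(fderiv ℝ (Φ w.1).toEquiv.symm ((Φ w.1).toEquiv w.2)).comp
        (fderiv ℝ (Φ w.1).toEquiv (w.2 + y)) - ContinuousLinearMap.id ℝ (R2 n)‖ < η := by
    refine hK.eventually_forall_of_forall_eventually
      (P := fun (y : R2 n) (w : Q × R2 n) =>
        ‖(fderiv ℝ (Φ w.1).toEquiv.symm ((Φ w.1).toEquiv w.2)).comp
        (fderiv ℝ (Φ w.1).toEquiv (w.2 + y)) - ContinuousLinearMap.id ℝ (R2 n)‖ < η)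
      fun w _ => ?_
    refine (isOpen_lt hc continuous_const).mem_nhds ?_
    show ‖(fderiv ℝ (Φ w.1).toEquiv.symm ((Φ w.1).toEquiv w.2)).comp
        (fderiv ℝ (Φ w.1).toEquiv (w.2 + 0)) - ContinuousLinearMap.id ℝ (R2 n)‖ < η
    have : (fderiv ℝ (Φ w.1).toEquiv.symm ((Φ w.1).toEquiv w.2)).comp
        (fderiv ℝ (Φ w.1).toEquiv (w.2 + 0)) = ContinuousLinearMap.id ℝ (R2 n) := by
      refine ContinuousLinearMap.ext fun u => ?_
      rw [add_zero]
      exact hleft w.1 w.2 u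
    rw [this, sub_self, norm_zero]
    exact hη
  obtain ⟨δ, hδ, hδ'⟩ := Metric.eventually_nhds_iff.1 hev
  refine ⟨min (δ / 2) 1, lt_min (by positivity) one_pos, fun r hr0 hr q x => ?_⟩
  have hr2 : r ≤ δ / 2 := hr.trans (min_le_left _ _)
  have hr3 : r ≤ 1 := hr.trans (min_le_right _ _)
  rcases le_or_gt ‖x‖ (m + 1) with hx | hx
  · refine ⟨fderiv ℝ (Φ q).toEquiv x, (Φ q).symplectic x, fun y hy => ?_⟩
    set M : R2 n →L[ℝ] R2 n := fderiv ℝ (Φ q).toEquiv.symm ((Φ q).toEquiv x) with hM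
    set G : R2 n → R2 n := fun y => M ((Φ q).toEquiv (x + y) - (Φ q).toEquiv x) - y with hG
    refine ⟨G y, ?_, ?_⟩
    · have hd : ∀ y, HasFDerivAt G (M.comp (fderiv ℝ (Φ q).toEquiv (x + y)) -
          ContinuousLinearMap.id ℝ (R2 n)) y := by
        intro y
        have e1 : HasFDerivAt (Φ q).toEquiv (fderiv ℝ (Φ q).toEquiv (x + y)) (x + y) :=
          (((Φ q).smooth.differentiable (by simp)) _).hasFDerivAt
        have e2 : HasFDerivAt (fun y => x + y) (ContinuousLinearMap.id ℝ (R2 n)) y :=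
          (hasFDerivAt_id y).const_add x
        have e3 := (e1.comp y e2).sub_const ((Φ q).toEquiv x)
        rw [ContinuousLinearMap.comp_id] at e3
        exact (M.hasFDerivAt.comp y e3).sub (hasFDerivAt_id y)
      have hb : ∀ z ∈ ball (0 : R2 n) δ, ‖M.comp (fderiv ℝ (Φ q).toEquiv (x + z)) -
          ContinuousLinearMap.id ℝ (R2 n)‖ ≤ η := fun z hz =>
        (hδ' (mem_ball.1 hz) (q, x) ⟨mem_univ _, mem_closedBall_zero_iff.2 hx⟩).le
      have hyb : y ∈ ball (0 : R2 n) δ := by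
        rw [mem_ball_zero_iff]
        linarith
      have h1 := (convex_ball (0 : R2 n) δ).norm_image_sub_le_of_norm_hasFDerivWithin_le
        (fun z hz => (hd z).hasFDerivWithinAt) hb (mem_ball_self hδ) hyb
      have h0 : G 0 = 0 := by
        show M ((Φ q).toEquiv (x + 0) - (Φ q).toEquiv x) - 0 = 0
        rw [add_zero, sub_self, map_zero, sub_zero]
      rw [h0, sub_zero, sub_zero] at h1
      exact h1.trans (mul_le_mul_of_nonneg_left hy hη.le)
    · show _ = (Φ q).toEquiv x + fderiv ℝ (Φ q).toEquiv x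
        (y + (M ((Φ q).toEquiv (x + y) - (Φ q).toEquiv x) - y))
      rw [add_sub_cancel, hM, hright]
      abel
  · refine ⟨ContinuousLinearMap.id ℝ (R2 n), fun u v => rfl, fun y hy => ⟨0, ?_, ?_⟩⟩
    · rw [norm_zero]
      positivity
    · have h1 : x ∉ closedBall (0 : R2 n) m := by
        rw [mem_closedBall_zero_iff]
        linarith
      have h2 : x + y ∉ closedBall (0 : R2 n) m := by
        rw [mem_closedBall_zero_iff, not_le]
        have h3 := norm_sub_norm_le x (-y)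
        rw [norm_neg, sub_neg_eq_add] at h3
        linarith
      rw [hm _ ⟨q, rfl⟩ _ h1, hm _ ⟨q, rfl⟩ _ h2]
      simp

end Pool.Agent.Run7.h60.Pa
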