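import Pool.Agent.Run7.h60.RotFam
import Pool.Agent.W5h49.EC.MolJC2
import Pool.Agent.W5h49.EC.KerND
import Pool.Agent.W5h49.EC.NROpen
import Mathlib.MeasureTheory.Measure.Haar.Unique

/-!
# Mollification of continuous maps of `ℝ²ⁿ` at one scale
-/

set_option autoImplicit false
set_option maxHeartbeats 1000000

open scoped ContDiff Topology Convolution
open MeasureTheory Set Metric

namespace Pool.Agent.Run7.h60.Pa

open Pool.Agent.W71.EC Pool.Agent.W5h83.HG Pool.Agent.W5h49.EC Pool.Agent.Run7.h60.Rot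

variable {n : ℕ}

instance negR2 : (volume : Measure (R2 n)).IsNegInvariant :=
  haveI : (volume : Measure (R2 n)).IsAddHaarMeasure :=
    Measure.prod.instIsAddHaarMeasure (volume : Measure (Fin n → ℝ)) (volume : Measure (Fin n → ℝ))
  haveI : (volume : Measure (R2 n)).Regular :=
    Measure.Regular.of_sigmaCompactSpace_of_isLocallyFiniteMeasure _
  Measure.IsAddHaarMeasure.isNegInvariant_of_regular _

/-- continuity of integrals over compact sets, arbitrary parameter spaces -/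
theorem cont_cpt {P F : Type*} [TopologicalSpace P] [NormedAddCommGroup F] [NormedSpace ℝ F]
    {s : Set (R2 n)} (hs : IsCompact s) {H : P → R2 n → F} (hH : Continuous (Function.uncurry H)) :
    Continuous (fun p => ∫ y in s, H p y) := by
  have hHp : ∀ p, Continuous (H p) := fun p =>
    hH.comp ((continuous_const (y := p)).prodMk continuous_id)
  have hint : ∀ p, IntegrableOn (H p) s := fun p =>
    (hHp p).continuousOn.integrableOn_compact hs
  rw [continuous_iff_continuousAt]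
  intro p0
  rw [ContinuousAt, Metric.tendsto_nhds]
  intro ε hε
  set V : ℝ := volume.real s with hV
  have hV0 : 0 ≤ V := measureReal_nonneg
  have h1 : ∀ᶠ p in 𝓝 p0, ∀ y ∈ s, dist (H p y) (H p0 y) < ε / (V + 1) := by
    refine hs.eventually_forall_of_forall_eventually fun y _ => ?_
    have h2 : Continuous (fun z : P × R2 n => dist (H z.1 z.2) (H p0 z.2)) :=
      hH.dist ((hHp p0).comp continuous_snd)
    have h3 : IsOpen {z : P × R2 n | dist (H z.1 z.2) (H p0 z.2) < ε / (V + 1)} :=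
      isOpen_lt h2 continuous_const
    refine h3.mem_nhds ?_
    change dist (H p0 y) (H p0 y) < ε / (V + 1)
    rw [dist_self]
    positivity
  filter_upwards [h1] with p hp
  rw [dist_eq_norm, ← integral_sub (hint p) (hint p0)]
  have h2 := norm_setIntegral_le_of_norm_le_const (μ := (volume : Measure (R2 n))) (s := s)
    (f := fun y => H p y - H p0 y)
    (C := ε / (V + 1)) hs.measure_lt_top (fun y hy => by
      rw [← dist_eq_norm]
      exact (hp y hy).le)
  refine lt_of_le_of_lt h2 ?_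
  rw [div_mul_eq_mul_div, div_lt_iff₀ (by positivity)]
  nlinarith

/-- convolutions with continuous families are jointly continuous -/
theorem cont_conv {P E' F : Type*} [TopologicalSpace P] [NormedAddCommGroup E'] [NormedSpace ℝ E']
    [NormedAddCommGroup F] [NormedSpace ℝ F] (L : E' →L[ℝ] R2 n →L[ℝ] F) {f : R2 n → E'}
    (hf : Continuous f) (hfc : HasCompactSupport f) {U : P → R2 n → R2 n}
    (hU : Continuous (Function.uncurry U)) :
    Continuous (Function.uncurry fun p x => (f ⋆[L, volume] U p) x) := by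
  have h1 := cont_cpt (P := P × R2 n) hfc.isCompact
    (H := fun z t => L (f t) (U z.1 (z.2 - t))) (by
      have e : Continuous (fun w : (P × R2 n) × R2 n => U w.1.1 (w.1.2 - w.2)) :=
        hU.comp ((continuous_fst.comp continuous_fst).prodMk
          ((continuous_snd.comp continuous_fst).sub continuous_snd))
      exact (L.continuous.comp (hf.comp continuous_snd)).clm_apply e)
  convert h1 using 1
  funext z
  show ∫ t, L (f t) (U z.1 (z.2 - t)) = ∫ t in tsupport f, L (f t) (U z.1 (z.2 - t))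
  refine (setIntegral_eq_integral_of_forall_compl_eq_zero fun t ht => ?_).symm
  rw [image_eq_zero_of_notMem_tsupport ht, map_zero, _root_.zero_apply]

/-- convolutions with continuous families are jointly smooth -/
theorem jc_conv {P : Type} [TopologicalSpace P] (k : ℕ) {E' F : Type} [NormedAddCommGroup E']
    [NormedSpace ℝ E'] [NormedAddCommGroup F] [NormedSpace ℝ F] (L : E' →L[ℝ] R2 n →L[ℝ] F)
    {f : R2 n → E'} (hf : ContDiff ℝ ∞ f) (hfc : HasCompactSupport f) {U : P → R2 n → R2 n}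
    (hU : Continuous (Function.uncurry U)) :
    JC k F (fun p x => (f ⋆[L, volume] U p) x) := by
  induction k generalizing E' F with
  | zero => exact cont_conv L hf.continuous hfc hU
  | succ k ih =>
    have hUp : ∀ p, Continuous (U p) := fun p =>
      hU.comp ((continuous_const (y := p)).prodMk continuous_id)
    have hd : ∀ p x, HasFDerivAt (f ⋆[L, volume] U p)
        ((fderiv ℝ f ⋆[L.precompL (R2 n), volume] U p) x) x := fun p x =>
      hfc.hasFDerivAt_convolution_left L (hf.of_le (by simp)) (hUp p).locallyIntegrable x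
    refine ⟨cont_conv L hf.continuous hfc hU, fun p x => (hd p x).differentiableAt, ?_⟩
    have : (fun p x => fderiv ℝ (fun x => (f ⋆[L, volume] U p) x) x) = fun p x =>
        (fderiv ℝ f ⋆[L.precompL (R2 n), volume] U p) x := by
      funext p x
      exact (hd p x).fderiv
    rw [this]
    exact ih (L.precompL (R2 n)) (hf.fderiv_right (by norm_num)) (hfc.fderiv ℝ)

/-! ## The kernel -/

/-- a bound for the support -/
theorem exists_S {ρ : R2 n → ℝ} (hρ : Moll ρ) : ∃ S : ℝ, 0 < S ∧ ∀ t, S ≤ ‖t‖ → ρ t = 0 := by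
  obtain ⟨S, hS⟩ := hρ.cpt.isCompact.isBounded.subset_closedBall (0 : R2 n)
  refine ⟨|S| + 1, by positivity, fun t ht => ?_⟩
  apply image_eq_zero_of_notMem_tsupport
  intro h
  have h1 := hS h
  rw [mem_closedBall_zero_iff] at h1
  have := le_abs_self S
  linarith

/-- the dimension -/
noncomputable def dm (n : ℕ) : ℕ := Module.finrank ℝ (R2 n)

/-- the scaled kernel -/
noncomputable def ks (ρ : R2 n → ℝ) (r : ℝ) (t : R2 n) : ℝ := (r ^ dm n)⁻¹ * ρ (r⁻¹ • t)

theorem ks_smooth {ρ : R2 n → ℝ} (hρ : Moll ρ) (r : ℝ) : ContDiff ℝ ∞ (ks ρ r) :=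
  contDiff_const.mul (hρ.smooth.comp (contDiff_const_smul _))

theorem ks_zero {ρ : R2 n → ℝ} {S : ℝ} (hS : ∀ t, S ≤ ‖t‖ → ρ t = 0) {r : ℝ} (hr : 0 < r)
    {t : R2 n} (ht : r * S ≤ ‖t‖) : ks ρ r t = 0 := by
  unfold ks
  rw [hS, mul_zero]
  rw [norm_smul, norm_inv, Real.norm_of_nonneg hr.le, inv_mul_eq_div, le_div_iff₀ hr]
  linarith

theorem ks_compact {ρ : R2 n → ℝ} (hρ : Moll ρ) {r : ℝ} (hr : 0 < r) :
    HasCompactSupport (ks ρ r) := by
  obtain ⟨S, -, hS⟩ := exists_S hρ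
  apply HasCompactSupport.intro (isCompact_closedBall (0 : R2 n) (r * S))
  intro x hx
  rw [mem_closedBall_zero_iff, not_le] at hx
  exact ks_zero hS hr hx.le

theorem ks_int {ρ : R2 n → ℝ} (hρ : Moll ρ) {r : ℝ} (hr : 0 < r) : ∫ t, ks ρ r t = 1 := by
  have h := Measure.integral_comp_inv_smul_of_nonneg (volume : Measure (R2 n)) ρ hr.le
  unfold ks
  rw [integral_const_mul, h, hρ.integral]
  show (r ^ dm n)⁻¹ * (r ^ dm n • (1 : ℝ)) = 1
  rw [smul_eq_mul, mul_one, inv_mul_cancel₀ (pow_pos hr _).ne']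

/-- the constant of the kernel -/
noncomputable def kc (ρ : R2 n → ℝ) : ℝ := ∫ t, ‖fderiv ℝ ρ t‖

theorem kc_nonneg (ρ : R2 n → ℝ) : 0 ≤ kc ρ := integral_nonneg fun _ => norm_nonneg _

theorem ks_fderiv {ρ : R2 n → ℝ} (hρ : Moll ρ) (r : ℝ) (t : R2 n) :
    fderiv ℝ (ks ρ r) t = ((r ^ dm n)⁻¹ * r⁻¹) • fderiv ℝ ρ (r⁻¹ • t) := by
  have e1 : HasFDerivAt ρ (fderiv ℝ ρ (r⁻¹ • t)) (r⁻¹ • t) :=
    ((hρ.smooth.differentiable (by simp)) _).hasFDerivAt
  have e2 : HasFDerivAt (fun t : R2 n => r⁻¹ • t) (r⁻¹ • ContinuousLinearMap.id ℝ (R2 n)) t :=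
    (hasFDerivAt_id t).const_smul r⁻¹
  have e3 := (e1.comp t e2).const_mul ((r ^ dm n)⁻¹)
  have e4 : ks ρ r = fun t => (r ^ dm n)⁻¹ * (ρ ∘ fun t : R2 n => r⁻¹ • t) t := rfl
  rw [e4, e3.fderiv]
  ext v
  all_goals
    simp only [_root_.smul_apply, ContinuousLinearMap.comp_apply,
      ContinuousLinearMap.id_apply, map_smul, smul_eq_mul]
    ring

theorem ks_dint {ρ : R2 n → ℝ} (hρ : Moll ρ) {r : ℝ} (hr : 0 < r) :
    ∫ t, ‖fderiv ℝ (ks ρ r) t‖ = r⁻¹ * kc ρ := by
  have h := Measure.integral_comp_inv_smul_of_nonneg (volume : Measure (R2 n))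
    (fun t => ‖fderiv ℝ ρ t‖) hr.le
  have h1 : ∀ t, ‖fderiv ℝ (ks ρ r) t‖ =
      ((r ^ dm n)⁻¹ * r⁻¹) * ‖fderiv ℝ ρ (r⁻¹ • t)‖ := by
    intro t
    rw [ks_fderiv hρ, norm_smul, Real.norm_of_nonneg (by positivity)]
  simp_rw [h1]
  rw [integral_const_mul, h]
  show (r ^ dm n)⁻¹ * r⁻¹ * (r ^ dm n • kc ρ) = r⁻¹ * kc ρ
  rw [smul_eq_mul]
  have := (pow_pos hr (dm n)).ne'
  field_simp

theorem dks_zero {ρ : R2 n → ℝ} {S : ℝ} (hS : ∀ t, S ≤ ‖t‖ → ρ t = 0) {r : ℝ} (hr : 0 < r)
    {t : R2 n} (ht : r * S < ‖t‖) : fderiv ℝ (ks ρ r) t = 0 := by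
  have h1 : ks ρ r =ᶠ[𝓝 t] fun _ => 0 := by
    filter_upwards [(isOpen_lt continuous_const continuous_norm).mem_nhds ht] with y hy
    exact ks_zero hS hr (le_of_lt hy)
  rw [h1.fderiv_eq]
  exact fderiv_const_apply _

theorem dks_integrable {ρ : R2 n → ℝ} (hρ : Moll ρ) {r : ℝ} (hr : 0 < r) :
    Integrable (fderiv ℝ (ks ρ r)) :=
  ((ks_smooth hρ r).continuous_fderiv (by simp)).integrable_of_hasCompactSupport
    ((ks_compact hρ hr).fderiv ℝ)

/-! ## Mollification -/

/-- the mollification at the scale `r` -/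
noncomputable def MM (ρ : R2 n → ℝ) (r : ℝ) (u : R2 n → R2 n) (x : R2 n) : R2 n :=
  (ks ρ r ⋆[ContinuousLinearMap.lsmul ℝ ℝ, volume] u) x

theorem MM_eq (ρ : R2 n → ℝ) (r : ℝ) (u : R2 n → R2 n) (x : R2 n) :
    MM ρ r u x = ∫ t, ks ρ r t • u (x - t) := rfl

theorem MM_jc {P : Type} [TopologicalSpace P] {ρ : R2 n → ℝ} (hρ : Moll ρ) {r : ℝ} (hr : 0 < r)
    (k : ℕ) {U : P → R2 n → R2 n} (hU : Continuous (Function.uncurry U)) :
    JC k (R2 n) (fun p x => MM ρ r (U p) x) :=
  jc_conv k _ (ks_smooth hρ r) (ks_compact hρ hr) hU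

theorem MM_smooth {ρ : R2 n → ℝ} (hρ : Moll ρ) {r : ℝ} (hr : 0 < r) {u : R2 n → R2 n}
    (hu : Continuous u) : ContDiff ℝ ∞ (MM ρ r u) :=
  (ks_compact hρ hr).contDiff_convolution_left _ (ks_smooth hρ r) hu.locallyIntegrable

theorem MM_int {ρ : R2 n → ℝ} (hρ : Moll ρ) {r : ℝ} (hr : 0 < r) {u : R2 n → R2 n}
    (hu : Continuous u) (x v : R2 n) :
    Integrable (fun t => (fderiv ℝ (ks ρ r) t v) • u (x - t)) := by
  obtain ⟨S, -, hS⟩ := exists_S hρ
  have hc : Continuous (fun t => (fderiv ℝ (ks ρ r) t v) • u (x - t)) :=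
    (((ks_smooth hρ r).continuous_fderiv (by simp)).clm_apply continuous_const).smul
      (hu.comp (continuous_const.sub continuous_id))
  refine hc.integrable_of_hasCompactSupport ?_
  apply HasCompactSupport.intro (isCompact_closedBall (0 : R2 n) (r * S))
  intro t ht
  rw [mem_closedBall_zero_iff, not_le] at ht
  rw [dks_zero hS hr ht, _root_.zero_apply, zero_smul]

theorem MM_fderiv {ρ : R2 n → ℝ} (hρ : Moll ρ) {r : ℝ} (hr : 0 < r) {u : R2 n → R2 n}
    (hu : Continuous u) (x v : R2 n) :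
    fderiv ℝ (MM ρ r u) x v = ∫ t, (fderiv ℝ (ks ρ r) t v) • u (x - t) := by
  have h1 := (ks_compact hρ hr).hasFDerivAt_convolution_left
    (ContinuousLinearMap.lsmul ℝ ℝ (E := R2 n)) ((ks_smooth hρ r).of_le (by simp))
    hu.locallyIntegrable (μ := volume) x
  have h2 : fderiv ℝ (MM ρ r u) x = _ := h1.fderiv
  rw [h2]
  unfold convolution
  rw [ContinuousLinearMap.integral_apply]
  · rfl
  · exact ((ks_compact hρ hr).fderiv ℝ).convolutionExists_left _
      ((ks_smooth hρ r).continuous_fderiv (by simp)) hu.locallyIntegrable x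

/-- the moments of the kernel -/
theorem moment {ρ : R2 n → ℝ} (hρ : Moll ρ) {r : ℝ} (hr : 0 < r) (c : R2 n)
    (B : R2 n →L[ℝ] R2 n) (v : R2 n) :
    ∫ t, (fderiv ℝ (ks ρ r) t v) • (c - B t) = B v := by
  have hkint : Integrable (ks ρ r) :=
    (ks_smooth hρ r).continuous.integrable_of_hasCompactSupport (ks_compact hρ hr)
  have hB : Integrable (fun t => ks ρ r t • B t) := by
    refine ((ks_smooth hρ r).continuous.smul B.continuous).integrable_of_hasCompactSupport ?_
    exact (ks_compact hρ hr).smul_right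
  have hw : Continuous (fun z : R2 n => c + B z) := continuous_const.add B.continuous
  have h1 : MM ρ r (fun z => c + B z) = fun z => (c - ∫ t, ks ρ r t • B t) + B z := by
    funext z
    rw [MM_eq]
    have e : ∀ t, ks ρ r t • (c + B (z - t)) = ks ρ r t • (c + B z) - ks ρ r t • B t := by
      intro t
      rw [map_sub, ← smul_sub]
      congr 1
      abel
    simp_rw [e]
    rw [integral_sub (hkint.smul_const _) hB, integral_smul_const, ks_int hρ hr, one_smul]
    abel
  have h2 := MM_fderiv hρ hr hw 0 v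
  have h3 : HasFDerivAt (fun z => (c - ∫ t, ks ρ r t • B t) + B z) B 0 :=
    B.hasFDerivAt.const_add _
  rw [h1, h3.fderiv] at h2
  rw [h2]
  congr 1
  funext t
  rw [zero_sub, map_neg, ← sub_eq_add_neg]

/-- the averaged differential -/
noncomputable def AV (ρ : R2 n → ℝ) (r : ℝ) (h : R2 n → R2 n) (x : R2 n) : R2 n →L[ℝ] R2 n :=
  ContinuousLinearMap.id ℝ (R2 n) + fderiv ℝ (MM ρ r fun z => h z - z) x

theorem AV_apply {ρ : R2 n → ℝ} (hρ : Moll ρ) {r : ℝ} (hr : 0 < r) {h : R2 n → R2 n}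
    (hh : Continuous h) (x v : R2 n) :
    AV ρ r h x v = ∫ t, (fderiv ℝ (ks ρ r) t v) • h (x - t) := by
  have hu : Continuous (fun z => h z - z) := hh.sub continuous_id
  have i1 := MM_int hρ hr hu x v
  have hid : Continuous (fun z : R2 n => z) := continuous_id
  have i2 := MM_int hρ hr hid x v
  have m1 := moment hρ hr x (ContinuousLinearMap.id ℝ (R2 n)) v
  show v + fderiv ℝ (MM ρ r fun z => h z - z) x v = _
  rw [MM_fderiv hρ hr hu]
  have m1' : ∫ t, (fderiv ℝ (ks ρ r) t v) • (x - t) = v := m1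
  nth_rw 1 [← m1']
  rw [← integral_add i2 i1]
  congr 1
  funext t
  rw [← smul_add]
  congr 1
  abel

theorem AV_scale {ρ : R2 n → ℝ} (hρ : Moll ρ) {r : ℝ} (hr : 0 < r) {h : R2 n → R2 n}
    (hh : Continuous h) (x v : R2 n) :
    AV ρ r h x v = r⁻¹ • ∫ y, (fderiv ℝ ρ y v) • h (x - r • y) := by
  rw [AV_apply hρ hr hh]
  have hI := Measure.integral_comp_smul_of_nonneg (volume : Measure (R2 n))
    (fun t => (fderiv ℝ (ks ρ r) t v) • h (x - t)) r (hR := hr.le)
  have h1 : ∀ y : R2 n, (fderiv ℝ (ks ρ r) (r • y) v) • h (x - r • y) =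
      ((r ^ dm n)⁻¹ * r⁻¹) • ((fderiv ℝ ρ y v) • h (x - r • y)) := by
    intro y
    rw [ks_fderiv hρ, smul_smul r⁻¹ r, inv_mul_cancel₀ hr.ne', one_smul, smul_smul]
    rfl
  simp_rw [h1] at hI
  rw [integral_smul, mul_smul] at hI
  exact (smul_right_injective (R2 n) (inv_ne_zero (pow_ne_zero (dm n) hr.ne')) hI).symm

/-- **Estimate of the averaged differential.** -/
theorem MM_est {ρ : R2 n → ℝ} (hρ : Moll ρ) (hS : ∀ t, 1 ≤ ‖t‖ → ρ t = 0) {r : ℝ} (hr : 0 < r)
    {h : R2 n → R2 n} (hh : Continuous h) {x : R2 n}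
    (L : R2 n ≃L[ℝ] R2 n) {θ : ℝ}
    (hL : ∀ y, ‖y‖ ≤ r → ‖L.symm (h (x + y) - h x) - y‖ ≤ θ) (v : R2 n) :
    ‖L.symm (AV ρ r h x v) - v‖ ≤ r⁻¹ * kc ρ * θ * ‖v‖ := by
  have hθ : 0 ≤ θ := (norm_nonneg _).trans (hL 0 (by simpa using hr.le))
  have i3 := MM_int hρ hr hh x v
  have m2 := moment hρ hr (h x) (L : R2 n →L[ℝ] R2 n) v
  have i4 : Integrable (fun t => (fderiv ℝ (ks ρ r) t v) • (h x - (L : R2 n →L[ℝ] R2 n) t)) := by
    have hw : Continuous (fun z : R2 n => h x + (L : R2 n →L[ℝ] R2 n) z) :=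
      continuous_const.add L.continuous
    have := MM_int hρ hr hw 0 v
    refine this.congr (Filter.Eventually.of_forall fun t => ?_)
    show (fderiv ℝ (ks ρ r) t v) • (h x + (L : R2 n →L[ℝ] R2 n) (0 - t)) = _
    rw [zero_sub, map_neg, ← sub_eq_add_neg]
  have e1 := AV_apply hρ hr hh x v
  have e2 : L.symm (AV ρ r h x v) - v =
      ∫ t, (fderiv ℝ (ks ρ r) t v) • (L.symm (h (x - t) - h x) - (-t)) := by
    rw [e1]
    have e3 : v = L.symm (∫ t, (fderiv ℝ (ks ρ r) t v) • (h x - (L : R2 n →L[ℝ] R2 n) t)) := by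
      rw [m2]
      exact (L.symm_apply_apply v).symm
    nth_rw 2 [e3]
    rw [← map_sub, ← integral_sub i3 i4]
    have e4 := (L.symm : R2 n →L[ℝ] R2 n).integral_comp_comm (i3.sub i4)
    have e5 : L.symm (∫ t, ((fderiv ℝ (ks ρ r) t v) • h (x - t) -
        (fderiv ℝ (ks ρ r) t v) • (h x - (L : R2 n →L[ℝ] R2 n) t))) =
        ∫ t, L.symm ((fderiv ℝ (ks ρ r) t v) • h (x - t) -
        (fderiv ℝ (ks ρ r) t v) • (h x - (L : R2 n →L[ℝ] R2 n) t)) := e4.symm
    rw [e5]
    congr 1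
    funext t
    rw [← smul_sub, map_smul]
    congr 1
    have e6 : h (x - t) - (h x - (L : R2 n →L[ℝ] R2 n) t) = (h (x - t) - h x) + L t := by
      show _ = h (x - t) - h x + (L : R2 n →L[ℝ] R2 n) t
      abel
    rw [e6, map_add, L.symm_apply_apply, sub_neg_eq_add]
  rw [e2]
  have hb : Integrable (fun t => ‖fderiv ℝ (ks ρ r) t‖ * (‖v‖ * θ)) :=
    (dks_integrable hρ hr).norm.mul_const _
  calc ‖∫ t, (fderiv ℝ (ks ρ r) t v) • (L.symm (h (x - t) - h x) - (-t))‖
      ≤ ∫ t, ‖fderiv ℝ (ks ρ r) t‖ * (‖v‖ * θ) := by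
        refine norm_integral_le_of_norm_le hb (Filter.Eventually.of_forall fun t => ?_)
        rw [norm_smul]
        rcases le_or_gt ‖t‖ r with ht | ht
        · have h1 := hL (-t) (by rwa [norm_neg])
          rw [← sub_eq_add_neg] at h1
          calc ‖fderiv ℝ (ks ρ r) t v‖ * ‖L.symm (h (x - t) - h x) - -t‖
              ≤ (‖fderiv ℝ (ks ρ r) t‖ * ‖v‖) * θ :=
                mul_le_mul (ContinuousLinearMap.le_opNorm _ _) h1 (norm_nonneg _) (by positivity)
            _ = _ := by ring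
        · rw [dks_zero hS hr (by rwa [mul_one]), _root_.zero_apply, norm_zero, norm_zero,
            zero_mul, zero_mul]
    _ = r⁻¹ * kc ρ * θ * ‖v‖ := by
        rw [integral_mul_const, ks_dint hρ hr]
        ring

/-- for the displacements of symplectomorphisms this is the mollification of the library -/
theorem MM_HH {ρ : R2 n → ℝ} {r : ℝ} (hr : 0 < r) (φ : SympCt n) (x : R2 n) :
    MM ρ r (hh φ) x = HH ρ φ r x := by
  have h := Measure.integral_comp_smul_of_nonneg (volume : Measure (R2 n))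
    (fun t => ks ρ r t • hh φ (x - t)) r (hR := hr.le)
  have h1 : ∀ y : R2 n, ks ρ r (r • y) • hh φ (x - r • y) =
      (r ^ dm n)⁻¹ • (ρ y • hh φ (x - r • y)) := by
    intro y
    unfold ks
    rw [smul_smul r⁻¹ r, inv_mul_cancel₀ hr.ne', one_smul, smul_smul]
  simp_rw [h1] at h
  rw [integral_smul] at h
  have h2 := smul_right_injective (R2 n) (inv_ne_zero (pow_ne_zero (dm n) hr.ne')) h
  rw [MM_eq]
  exact h2.symm

/-- the mollification vanishes away from the support -/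
theorem MM_zero {ρ : R2 n → ℝ} {S : ℝ} (hS : ∀ t, S ≤ ‖t‖ → ρ t = 0) {r : ℝ} (hr : 0 < r)
    {u : R2 n → R2 n} {B : ℝ} (hu : ∀ x, B < ‖x‖ → u x = 0) {x : R2 n} (hx : B + r * S < ‖x‖) :
    MM ρ r u x = 0 := by
  rw [MM_eq, ← integral_zero (R2 n) (R2 n)]
  refine integral_congr_ae (Filter.Eventually.of_forall fun t => ?_)
  show ks ρ r t • u (x - t) = 0
  rcases le_or_gt (r * S) ‖t‖ with ht | ht
  · rw [ks_zero hS hr ht, zero_smul]
  · rw [hu, smul_zero]
    have := norm_sub_norm_le x t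
    linarith

/-! ## The standard kernel -/

/-- the kernel -/
noncomputable def kb (n : ℕ) : ContDiffBump (0 : R2 n) := ⟨1 / 2, 1, by norm_num, by norm_num⟩

noncomputable def kp (n : ℕ) : R2 n → ℝ := (kb n).normed volume

theorem kp_moll (n : ℕ) : Moll (kp n) where
  smooth := (kb n).contDiff_normed
  cpt := (kb n).hasCompactSupport_normed
  nonneg := (kb n).nonneg_normed
  integral := (kb n).integral_normed

theorem kp_zero (t : R2 n) (ht : 1 ≤ ‖t‖) : kp n t = 0 := by
  have h := (kb n).support_normed_eq (μ := (volume : Measure (R2 n)))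
  by_contra hne
  have h1 : t ∈ Function.support ((kb n).normed (volume : Measure (R2 n))) := hne
  rw [h, mem_ball, dist_zero_right] at h1
  exact absurd ht (not_le.2 h1)

end Pool.Agent.Run7.h60.Pa
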