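import Pool.Agent.Run7.h60.PaStage

/-!
# Homotopies from paths of continuous maps
-/

set_option autoImplicit false
set_option maxHeartbeats 1000000

open scoped ContDiff Topology Convolution Uniformity
open MeasureTheory Set Metric

namespace Pool.Agent.Run7.h60.Pa

open Pool.Agent.W71.EC Pool.Agent.W5h83.HG Pool.Agent.W5h49.EC Pool.Agent.Run7.h60.Rot

variable {n : ℕ}

/-- finite sums of jointly smooth families -/
theorem JC_sum {P : Type} [TopologicalSpace P] (k : ℕ) (N : ℕ) (F : ℕ → P → R2 n → R2 n)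
    (h : ∀ i, JC k (R2 n) (F i)) :
    JC k (R2 n) (fun p x => ∑ i ∈ Finset.range N, F i p x) := by
  induction N with
  | zero =>
    simp only [Finset.range_zero, Finset.sum_empty]
    exact JC.constX (a := fun _ : P => (0 : R2 n)) continuous_const k
  | succ N ih =>
    simp only [Finset.sum_range_succ]
    exact ih.add (h N)

theorem hh_one (x : R2 n) : hh (one : SympCt n) x = 0 := sub_self _

theorem HH_one (ρ : R2 n → ℝ) (s : ℝ) (x : R2 n) : HH ρ (one : SympCt n) s x = 0 := by
  unfold HH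
  simp only [hh_one, smul_zero, integral_zero]

/-- the times -/
noncomputable def tm (N i : ℕ) : unitInterval := projIcc 0 1 zero_le_one ((i : ℝ) / N)

theorem tm_zero (N : ℕ) : tm N 0 = 0 := by
  unfold tm
  rw [Nat.cast_zero, zero_div, projIcc_left]
  rfl

theorem tm_N {N : ℕ} (hN : 0 < N) : tm N N = 1 := by
  unfold tm
  have : (N : ℝ) ≠ 0 := by exact_mod_cast hN.ne'
  rw [div_self this, projIcc_right]
  rfl

theorem tm_dist {N : ℕ} (hN : 0 < N) (i : ℕ) : dist (tm N i) (tm N (i + 1)) ≤ 1 / N := by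
  have hN' : (0 : ℝ) < N := by exact_mod_cast hN
  have h1 : dist (tm N i) (tm N (i + 1)) ≤ dist ((i : ℝ) / N) (((i + 1 : ℕ) : ℝ) / N) := by
    have := (LipschitzWith.projIcc (zero_le_one (α := ℝ))).dist_le_mul ((i : ℝ) / N)
      (((i + 1 : ℕ) : ℝ) / N)
    rw [NNReal.coe_one, one_mul] at this
    exact this
  refine h1.trans ?_
  rw [Real.dist_eq, ← sub_div, abs_div, abs_of_pos hN']
  push_cast
  rw [sub_add_cancel_left, abs_neg, abs_one]

section

variable {C : Type} [TopologicalSpace C] [CompactSpace C] (f g : C(C, SympCt n))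
  (H : C × unitInterval × R2 n → R2 n) (ρ : R2 n → ℝ) (r : ℝ) (N : ℕ)

/-- the mollified displacements at the time `i / N` -/
noncomputable def WW (i : ℕ) (p : C) (x : R2 n) : R2 n :=
  MM ρ r (fun z => H (p, tm N i, z) - z) x

/-- the step functions -/
noncomputable def sg (i : ℕ) (t : ℝ) : ℝ := Real.smoothTransition ((3 * N * t - N) - i)

/-- the family of maps -/
noncomputable def Fm (p : C) (q : ℝ × R2 n) : R2 n :=
  q.2 + ((HH ρ (f p) (r * Real.smoothTransition (3 * q.1)) q.2 +
    ∑ i ∈ Finset.range N, sg N i q.1 • (WW H ρ r N (i + 1) p q.2 - WW H ρ r N i p q.2)) +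
    (HH ρ (g p) (r * Real.smoothTransition (3 - 3 * q.1)) q.2 - HH ρ (g p) r q.2))

variable {f g H ρ r N}

theorem WW_zero (hr : 0 < r) (h0 : ∀ c x, H (c, 0, x) = (f c).toEquiv x) (p : C) (x : R2 n) :
    WW H ρ r N 0 p x = HH ρ (f p) r x := by
  rw [← MM_HH hr]
  unfold WW
  rw [tm_zero]
  congr 1
  funext z
  rw [h0]
  rfl

theorem WW_N (hr : 0 < r) (hN : 0 < N) (h1 : ∀ c x, H (c, 1, x) = (g c).toEquiv x) (p : C)
    (x : R2 n) : WW H ρ r N N p x = HH ρ (g p) r x := by
  rw [← MM_HH hr]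
  unfold WW
  rw [tm_N hN]
  congr 1
  funext z
  rw [h1]
  rfl

theorem Fm_A {t : ℝ} (ht : t ≤ 1 / 3) (p : C) (x : R2 n) :
    Fm f g H ρ r N p (t, x) = x + HH ρ (f p) (r * Real.smoothTransition (3 * t)) x := by
  have h1 : ∀ i : ℕ, sg N i t = 0 := by
    intro i
    refine Real.smoothTransition.zero_of_nonpos ?_
    have h2 : (N : ℝ) * (3 * t) ≤ N * 1 :=
      mul_le_mul_of_nonneg_left (by linarith) (Nat.cast_nonneg N)
    have h3 : (0 : ℝ) ≤ i := Nat.cast_nonneg i
    linarith
  have h2 : Real.smoothTransition (3 - 3 * t) = 1 :=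
    Real.smoothTransition.one_of_one_le (by linarith)
  show x + ((_ + ∑ i ∈ Finset.range N, sg N i t • _) +
    (HH ρ (g p) (r * Real.smoothTransition (3 - 3 * t)) x - _)) = _
  rw [h2, mul_one, sub_self, add_zero]
  simp only [h1, zero_smul, Finset.sum_const_zero, add_zero]

theorem Fm_C (hr : 0 < r) (hN : 0 < N) (h0 : ∀ c x, H (c, 0, x) = (f c).toEquiv x)
    (h1 : ∀ c x, H (c, 1, x) = (g c).toEquiv x) {t : ℝ} (ht : 2 / 3 ≤ t) (p : C) (x : R2 n) :
    Fm f g H ρ r N p (t, x) = x + HH ρ (g p) (r * Real.smoothTransition (3 - 3 * t)) x := by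
  have h3 : ∑ i ∈ Finset.range N, sg N i t • (WW H ρ r N (i + 1) p x - WW H ρ r N i p x) =
      WW H ρ r N N p x - WW H ρ r N 0 p x := by
    rw [← Finset.sum_range_sub (fun i => WW H ρ r N i p x)]
    refine Finset.sum_congr rfl fun i hi => ?_
    have h4 : (i : ℝ) + 1 ≤ N := by
      have := Finset.mem_range.1 hi
      exact_mod_cast this
    have h5 : (N : ℝ) * 2 ≤ N * (3 * t) :=
      mul_le_mul_of_nonneg_left (by linarith) (Nat.cast_nonneg N)
    have h6 : sg N i t = 1 := Real.smoothTransition.one_of_one_le (by linarith)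
    rw [h6, one_smul]
  have h2 : Real.smoothTransition (3 * t) = 1 :=
    Real.smoothTransition.one_of_one_le (by linarith)
  show x + ((HH ρ (f p) (r * Real.smoothTransition (3 * t)) x +
    ∑ i ∈ Finset.range N, sg N i t • (WW H ρ r N (i + 1) p x - WW H ρ r N i p x)) +
    (HH ρ (g p) (r * Real.smoothTransition (3 - 3 * t)) x - HH ρ (g p) r x)) = _
  rw [h3, h2, mul_one, WW_zero hr h0, WW_N hr hN h1]
  abel

theorem Fm_B (hr : 0 < r) (h0 : ∀ c x, H (c, 0, x) = (f c).toEquiv x) {t : ℝ} (ht : 1 / 3 ≤ t)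
    (ht' : t ≤ 2 / 3) : ∃ (j : ℕ) (c : ℝ), 0 ≤ c ∧ c ≤ 1 ∧ ∀ (p : C) (x : R2 n),
    Fm f g H ρ r N p (t, x) =
      x + ((1 - c) • WW H ρ r N j p x + c • WW H ρ r N (j + 1) p x) := by
  obtain ⟨j, c, hc0, hc1, h⟩ := tele (n := n) N (3 * N * t - N)
  refine ⟨j, c, hc0, hc1, fun p x => ?_⟩
  have h2 : Real.smoothTransition (3 * t) = 1 :=
    Real.smoothTransition.one_of_one_le (by linarith)
  have h3 : Real.smoothTransition (3 - 3 * t) = 1 :=
    Real.smoothTransition.one_of_one_le (by linarith)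
  have h4 := h fun i => WW H ρ r N i p x
  show x + ((HH ρ (f p) (r * Real.smoothTransition (3 * t)) x +
    ∑ i ∈ Finset.range N, sg N i t • (WW H ρ r N (i + 1) p x - WW H ρ r N i p x)) +
    (HH ρ (g p) (r * Real.smoothTransition (3 - 3 * t)) x - HH ρ (g p) r x)) = _
  rw [h2, h3, mul_one, sub_self, add_zero, ← WW_zero (N := N) hr h0]
  rw [← h4]
  rfl

end

/-- **The main theorem.** -/
theorem main {ρ : R2 n → ℝ} (hρ : Moll ρ) (C : Type) [TopologicalSpace C] [CompactSpace C]
    (f g : C(C, SympCt n)) (H : C × unitInterval × R2 n → R2 n) (hH : Continuous H)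
    {K : Set (R2 n)} (hK : IsCompact K) (hHK : ∀ c t x, x ∉ K → H (c, t, x) = x)
    (h0 : ∀ c x, H (c, 0, x) = (f c).toEquiv x) (h1 : ∀ c x, H (c, 1, x) = (g c).toEquiv x)
    (hNR : ∀ δ : ℝ, 0 < δ → ∃ r : ℝ, 0 < r ∧ r < δ ∧
      ∀ c t x, NR (AV ρ r (fun z => H (c, t, z)) x)) :
    f.HomotopicRel g {c | ∀ t x, H (c, t, x) = x} := by
  obtain ⟨B, hB⟩ := hK.isBounded.subset_closedBall (0 : R2 n)
  have hHB : ∀ c t x, B < ‖x‖ → H (c, t, x) = x := by
    intro c t x hx
    refine hHK c t x fun h => ?_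
    have := hB h
    rw [mem_closedBall_zero_iff] at this
    linarith
  obtain ⟨δ₁, hδ₁, hf⟩ := stage1 hρ C f
  obtain ⟨δ₂, hδ₂, hg⟩ := stage1 hρ C g
  obtain ⟨r, hr, hrδ, hA⟩ := hNR (min δ₁ δ₂) (lt_min hδ₁ hδ₂)
  obtain ⟨N, hN, hst⟩ := stage2 hρ hr C H hH hHB hA
  obtain ⟨S, hS0, hS⟩ := exists_S hρ
  obtain ⟨m1, hm1⟩ := supp_unif (isCompact_range f.continuous)
  obtain ⟨m2, hm2⟩ := supp_unif (isCompact_range g.continuous)
  obtain ⟨B1, hB1⟩ := HH_supp_unif hρ m1 hr.le
  obtain ⟨B2, hB2⟩ := HH_supp_unif hρ m2 hr.le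
  have hs : ∀ u, 0 ≤ r * Real.smoothTransition u ∧ r * Real.smoothTransition u ≤ r := fun u =>
    ⟨mul_nonneg hr.le (Real.smoothTransition.nonneg _),
      mul_le_of_le_one_right hr.le (Real.smoothTransition.le_one _)⟩
  have hHc : ∀ p t, Continuous (fun z => H (p, t, z) - z) := fun p t =>
    (hH.comp (continuous_const.prodMk (continuous_const.prodMk continuous_id))).sub continuous_id
  have hWs : ∀ i p, ContDiff ℝ ∞ (WW H ρ r N i p) := fun i p => MM_smooth hρ hr (hHc p _)
  have hWfar : ∀ i p x, B + r * S < ‖x‖ → WW H ρ r N i p x = 0 := by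
    intro i p x hx
    exact MM_zero hS hr (B := B) (fun x hx => by rw [hHB _ _ x hx, sub_self]) hx
  have hsg : ∀ i, ContDiff ℝ ∞ (sg N i) := fun i =>
    Real.smoothTransition.contDiff.comp
      (((contDiff_const.mul contDiff_id).sub contDiff_const).sub contDiff_const)
  have hs1 : ContDiff ℝ ∞ (fun t : ℝ => r * Real.smoothTransition (3 * t)) :=
    contDiff_const.mul (Real.smoothTransition.contDiff.comp (contDiff_const.mul contDiff_id))
  have hs2 : ContDiff ℝ ∞ (fun t : ℝ => r * Real.smoothTransition (3 - 3 * t)) :=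
    contDiff_const.mul (Real.smoothTransition.contDiff.comp
      (contDiff_const.sub (contDiff_const.mul contDiff_id)))
  have hhJ : ∀ (f : C(C, SympCt n)) (k : ℕ), JC k (R2 n) (fun p x => hh (f p) x) := by
    intro f k
    have h1 := (JS.of_continuous f.continuous k).add
      (JC.ofSmooth (P := C) (φ := fun x : R2 n => -x) contDiff_neg k)
    have h2 : (fun p x => hh (f p) x) = fun p x => (f p).toEquiv x + -x := by
      funext p x
      rw [hh, sub_eq_add_neg]
    rw [h2]
    exact h1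
  have hHJ : ∀ (f : C(C, SympCt n)) (σ : ℝ → ℝ), Continuous σ → ∀ (k : ℕ),
      JC k (R2 n) (fun (q : C × ℝ) x => HH ρ (f q.1) (σ q.2) x) := by
    intro f σ hσ k
    exact JC_int hρ (σ := fun q : C × ℝ => σ q.2) (hσ.comp continuous_snd) k
      ((hhJ f k).param continuous_fst)
  have hWJ : ∀ (i k : ℕ), JC k (R2 n) (fun (q : C × ℝ) x => WW H ρ r N i q.1 x) := by
    intro i k
    have hU : Continuous (Function.uncurry fun (p : C) (z : R2 n) => H (p, tm N i, z) - z) := by
      refine Continuous.sub (hH.comp ?_) continuous_snd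
      exact continuous_fst.prodMk (continuous_const.prodMk continuous_snd)
    exact (MM_jc hρ hr k hU).param (a := fun q : C × ℝ => q.1) continuous_fst
  have hF : ∀ p, ContDiff ℝ ∞ (Fm f g H ρ r N p) := by
    intro p
    refine contDiff_snd.add ((ContDiff.add ?_ ?_).add (ContDiff.sub ?_ ?_))
    · exact (HH_smooth hρ (f p)).comp ((hs1.comp contDiff_fst).prodMk contDiff_snd)
    · refine ContDiff.sum fun i _ => ?_
      exact ((hsg i).comp contDiff_fst).smul
        (((hWs (i + 1) p).comp contDiff_snd).sub ((hWs i p).comp contDiff_snd))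
    · exact (HH_smooth hρ (g p)).comp ((hs2.comp contDiff_fst).prodMk contDiff_snd)
    · exact (HH_smooth hρ (g p)).comp (contDiff_const.prodMk contDiff_snd)
  have hJ : ∀ k, JC k (R2 n) (fun (q : C × ℝ) (x : R2 n) => Fm f g H ρ r N q.1 (q.2, x)) := by
    intro k
    have e1 : JC k (R2 n) (fun (q : C × ℝ) (x : R2 n) => ∑ i ∈ Finset.range N,
        sg N i q.2 • (WW H ρ r N (i + 1) q.1 x + -WW H ρ r N i q.1 x)) :=
      JC_sum k N _ fun i => ((hWJ (i + 1) k).add (hWJ i k).neg).smulP
        ((hsg i).continuous.comp continuous_snd)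
    have e2 := (JC.ofSmooth (P := C × ℝ) (φ := fun x : R2 n => x) contDiff_id k).add
      (((hHJ f _ hs1.continuous k).add e1).add
        ((hHJ g _ hs2.continuous k).add (hHJ g (fun _ => r) continuous_const k).neg))
    have e3 : (fun (q : C × ℝ) (x : R2 n) => Fm f g H ρ r N q.1 (q.2, x)) =
        fun (q : C × ℝ) (x : R2 n) => x +
          ((HH ρ (f q.1) (r * Real.smoothTransition (3 * q.2)) x +
          ∑ i ∈ Finset.range N, sg N i q.2 • (WW H ρ r N (i + 1) q.1 x + -WW H ρ r N i q.1 x)) +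
          (HH ρ (g q.1) (r * Real.smoothTransition (3 - 3 * q.2)) x + -HH ρ (g q.1) r x)) := by
      funext q x
      unfold Fm
      simp only [sub_eq_add_neg]
    rw [e3]
    exact e2
  have hK' : IsCompact (closedBall (0 : R2 n) (max (max B1 B2) (B + r * S))) :=
    isCompact_closedBall _ _
  have hFK : ∀ p t x, x ∉ closedBall (0 : R2 n) (max (max B1 B2) (B + r * S)) →
      Fm f g H ρ r N p (t, x) = x := by
    intro p t x hx
    have hx1 : x ∉ closedBall (0 : R2 n) B1 := fun h =>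
      hx (closedBall_subset_closedBall ((le_max_left _ _).trans (le_max_left _ _)) h)
    have hx2 : x ∉ closedBall (0 : R2 n) B2 := fun h =>
      hx (closedBall_subset_closedBall ((le_max_right _ _).trans (le_max_left _ _)) h)
    have hx3 : B + r * S < ‖x‖ := by
      rw [mem_closedBall_zero_iff, not_le] at hx
      exact (le_max_right _ _).trans_lt hx
    unfold Fm
    simp only
    rw [hB1 (f p) (hm1 _ ⟨p, rfl⟩) _ (hs _).1 (hs _).2 x hx1,
      hB2 (g p) (hm2 _ ⟨p, rfl⟩) _ (hs _).1 (hs _).2 x hx2,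
      hB2 (g p) (hm2 _ ⟨p, rfl⟩) r hr.le le_rfl x hx2]
    simp [hWfar _ p x hx3]
  have hF0 : ∀ p x, Fm f g H ρ r N p (0, x) = (f p).toEquiv x := by
    intro p x
    rw [Fm_A (by norm_num), mul_zero, Real.smoothTransition.zero, mul_zero, HH_zero hρ]
    show x + ((f p).toEquiv x - x) = _
    abel
  have hF1 : ∀ p x, Fm f g H ρ r N p (1, x) = (g p).toEquiv x := by
    intro p x
    rw [Fm_C hr hN h0 h1 (by norm_num), mul_one, sub_self, Real.smoothTransition.zero, mul_zero,
      HH_zero hρ]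
    show x + ((g p).toEquiv x - x) = _
    abel
  have hDH : ∀ (φ : SympCt n) (s : ℝ) (F : ℝ × R2 n → R2 n) (t : ℝ) (x : R2 n),
      (∀ y, F (t, y) = y + HH ρ φ s y) → (DF F t x : R2 n → R2 n) = MD ρ φ s x := by
    intro φ s F t x h
    have e : (fun y => F (t, y)) = fun y => y + HH ρ φ s y := funext h
    funext v
    rw [MD_eq hρ]
    have e1 : HasFDerivAt (fun y => y + HH ρ φ s y) (ContinuousLinearMap.id ℝ (R2 n) +
        ∫ y, ρ y • fderiv ℝ (hh φ) (x - s • y)) x := (hasFDerivAt_id x).add (HH_fderiv hρ φ s x)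
    unfold DF
    rw [e, e1.fderiv]
    rfl
  have hFNR : ∀ p t x, NR (DF (Fm f g H ρ r N p) t x) := by
    intro p t x
    rcases le_total t (1 / 3) with ht | ht
    · rw [hDH (f p) _ (Fm f g H ρ r N p) t x (fun y => Fm_A ht p y)]
      exact hf _ (hs _).1 ((hs _).2.trans (hrδ.le.trans (min_le_left _ _))) p x
    · rcases le_total t (2 / 3) with ht' | ht'
      · obtain ⟨j, c, hc0, hc1, h⟩ := Fm_B (g := g) (N := N) (ρ := ρ) hr h0 ht ht'
        have e : (fun y => Fm f g H ρ r N p (t, y)) = fun y =>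
            y + ((1 - c) • WW H ρ r N j p y + c • WW H ρ r N (j + 1) p y) := funext (h p)
        have hd : ∀ i, HasFDerivAt (WW H ρ r N i p) (fderiv ℝ (WW H ρ r N i p) x) x := fun i =>
          (((hWs i p).differentiable (by simp)) x).hasFDerivAt
        have e2 : DF (Fm f g H ρ r N p) t x = (1 - c) • AV ρ r (fun z => H (p, tm N j, z)) x +
            c • AV ρ r (fun z => H (p, tm N (j + 1), z)) x := by
          have e1 : HasFDerivAt (fun y => y + ((1 - c) • WW H ρ r N j p y +
              c • WW H ρ r N (j + 1) p y)) (ContinuousLinearMap.id ℝ (R2 n) +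
              ((1 - c) • fderiv ℝ (WW H ρ r N j p) x +
              c • fderiv ℝ (WW H ρ r N (j + 1) p) x)) x :=
            (hasFDerivAt_id x).add (((hd j).const_smul (1 - c)).add
              ((hd (j + 1)).const_smul c))
          unfold DF
          rw [e, e1.fderiv]
          have h5 : (1 - c) • ContinuousLinearMap.id ℝ (R2 n) +
              c • ContinuousLinearMap.id ℝ (R2 n) = ContinuousLinearMap.id ℝ (R2 n) := by
            rw [← add_smul, sub_add_cancel, one_smul]
          have h6 : ∀ i, AV ρ r (fun z => H (p, tm N i, z)) x =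
              ContinuousLinearMap.id ℝ (R2 n) + fderiv ℝ (WW H ρ r N i p) x := fun i => rfl
          rw [h6, h6, smul_add, smul_add]
          nth_rw 1 [← h5]
          abel
        rw [e2]
        exact hst p _ _ (tm_dist hN j) c hc0 hc1 x
      · rw [hDH (g p) _ (Fm f g H ρ r N p) t x (fun y => Fm_C hr hN h0 h1 ht' p y)]
        exact hg _ (hs _).1 ((hs _).2.trans (hrδ.le.trans (min_le_right _ _))) p x
  have hfin := ND.moser_fam_nd (flow_jc nem ev n) C (Fm f g H ρ r N) _ hF hJ hK' hFK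
    (fun p t x s hs0 hs1 v hv => nd_of_NR (hFNR p t x) s hs0 hs1 v hv) f g hF0 hF1
  refine rel_mono hfin fun p hp t x => ?_
  have hp' : ∀ t x, H (p, t, x) = x := hp
  have hfp : f p = one := SympCt.ext' fun x => by rw [← h0, hp']; rfl
  have hgp : g p = one := SympCt.ext' fun x => by rw [← h1, hp']; rfl
  have hW : ∀ i x, WW H ρ r N i p x = 0 := by
    intro i x
    unfold WW
    rw [MM_eq]
    simp only [hp', sub_self, smul_zero, integral_zero]
  have : ∀ t x, Fm f g H ρ r N p (t, x) = x := by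
    intro t x
    unfold Fm
    simp only
    rw [hfp, hgp, HH_one, HH_one, HH_one]
    simp [hW]
  rw [this, this]

end Pool.Agent.Run7.h60.Pa
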