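import Pool.Agent.Run7.h60.PaKer
import Pool.Agent.Run7.h233.EC.Far

/-!
# The two stages
-/

set_option autoImplicit false
set_option maxHeartbeats 1000000

open scoped ContDiff Topology Convolution Uniformity
open MeasureTheory Set Metric

namespace Pool.Agent.Run7.h60.Pa

open Pool.Agent.W71.EC Pool.Agent.W5h83.HG Pool.Agent.W5h49.EC Pool.Agent.Run7.h60.Rot

variable {n : ℕ}

/-- the telescoping sums -/
theorem tele (N : ℕ) (u : ℝ) : ∃ (j : ℕ) (c : ℝ), 0 ≤ c ∧ c ≤ 1 ∧ ∀ a : ℕ → R2 n,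
    a 0 + ∑ i ∈ Finset.range N, Real.smoothTransition (u - i) • (a (i + 1) - a i) =
      (1 - c) • a j + c • a (j + 1) := by
  induction N with
  | zero => exact ⟨0, 0, le_rfl, zero_le_one, fun a => by simp⟩
  | succ N ih =>
    rcases le_total u N with h | h
    · obtain ⟨j, c, h0, h1, h2⟩ := ih
      refine ⟨j, c, h0, h1, fun a => ?_⟩
      rw [Finset.sum_range_succ, Real.smoothTransition.zero_of_nonpos (by linarith), zero_smul,
        add_zero, h2]
    · refine ⟨N, Real.smoothTransition (u - N), Real.smoothTransition.nonneg _,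
        Real.smoothTransition.le_one _, fun a => ?_⟩
      have h3 : ∑ i ∈ Finset.range N, Real.smoothTransition (u - i) • (a (i + 1) - a i) =
          a N - a 0 := by
        rw [← Finset.sum_range_sub]
        refine Finset.sum_congr rfl fun i hi => ?_
        have h4 : (i : ℝ) + 1 ≤ N := by
          have := Finset.mem_range.1 hi
          exact_mod_cast this
        rw [Real.smoothTransition.one_of_one_le (by linarith), one_smul]
      rw [Finset.sum_range_succ, h3, smul_sub, sub_smul, one_smul]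
      abel

theorem fderiv_hh_zero {φ : SympCt n} {m : ℝ}
    (hφ : φ ∈ supportedIn (closedBall (0 : R2 n) m)) {z : R2 n} (hz : m < ‖z‖) :
    fderiv ℝ (hh φ) z = 0 := by
  have h1 : hh φ =ᶠ[𝓝 z] fun _ => 0 := by
    filter_upwards [(isOpen_lt continuous_const continuous_norm).mem_nhds hz] with y hy
    have hy' : y ∉ closedBall (0 : R2 n) m := by
      rw [mem_closedBall_zero_iff, not_le]
      exact hy
    show φ.toEquiv y - y = 0
    rw [hφ y hy', sub_self]
  rw [h1.fderiv_eq]
  exact fderiv_const_apply _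

/-- small scales -/
theorem stage1 {ρ : R2 n → ℝ} (hρ : Moll ρ) (C : Type) [TopologicalSpace C] [CompactSpace C]
    (f : C(C, SympCt n)) : ∃ δ : ℝ, 0 < δ ∧ ∀ s, 0 ≤ s → s ≤ δ → ∀ p x, NR (MD ρ (f p) s x) := by
  obtain ⟨m, hm⟩ := supp_unif (isCompact_range f.continuous)
  obtain ⟨S, hS0, hS⟩ := exists_S hρ
  have hJ : JC 0 (R2 n →L[ℝ] R2 n) (fun p x => fderiv ℝ (f p).toEquiv x) :=
    (JS.of_continuous f.continuous 1).2.2
  have hJ2 : JC 0 (R2 n →L[ℝ] R2 n) (fun (q : C × ℝ) x => fderiv ℝ (f q.1).toEquiv x) :=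
    hJ.param continuous_fst
  have hc : Continuous (Function.uncurry fun (q : C × ℝ) (x : R2 n) =>
      ∫ y, ρ y • fderiv ℝ (f q.1).toEquiv (x - q.2 • y)) :=
    JC_int hρ (σ := fun q : C × ℝ => q.2) continuous_snd 0 hJ2
  have hMD : ∀ (p : C) (s : ℝ) (x : R2 n),
      MD ρ (f p) s x = fun v => (∫ y, ρ y • fderiv ℝ (f p).toEquiv (x - s • y)) v := by
    intro p s x
    funext v
    rw [ContinuousLinearMap.integral_apply]
    · rfl
    · refine eta_smul_int hρ ?_
      exact ((f p).smooth.continuous_fderiv (by simp)).comp (by fun_prop)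
  have hK : IsCompact ((univ : Set C) ×ˢ closedBall (0 : R2 n) (m + S)) :=
    isCompact_univ.prod (isCompact_closedBall _ _)
  have hopen := nr_open n
  have hev : ∀ᶠ s : ℝ in 𝓝 0, ∀ z ∈ (univ : Set C) ×ˢ closedBall (0 : R2 n) (m + S),
      NR (∫ y, ρ y • fderiv ℝ (f z.1).toEquiv (z.2 - s • y) : R2 n →L[ℝ] R2 n) := by
    refine hK.eventually_forall_of_forall_eventually
      (P := fun (s : ℝ) (z : C × R2 n) =>
        NR (∫ y, ρ y • fderiv ℝ (f z.1).toEquiv (z.2 - s • y) : R2 n →L[ℝ] R2 n))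
      fun z _ => ?_
    have hc2 : Continuous (fun w : ℝ × (C × R2 n) =>
        (∫ y, ρ y • fderiv ℝ (f w.2.1).toEquiv (w.2.2 - w.1 • y) : R2 n →L[ℝ] R2 n)) :=
      hc.comp (((continuous_fst.comp continuous_snd).prodMk continuous_fst).prodMk
        (continuous_snd.comp continuous_snd))
    refine (hopen.preimage hc2).mem_nhds ?_
    show NR (∫ y, ρ y • fderiv ℝ (f z.1).toEquiv (z.2 - (0 : ℝ) • y) : R2 n →L[ℝ] R2 n)
    have h1 : (∫ y, ρ y • fderiv ℝ (f z.1).toEquiv (z.2 - (0 : ℝ) • y)) =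
        fderiv ℝ (f z.1).toEquiv z.2 := by
      simp only [zero_smul, sub_zero]
      rw [integral_smul_const, hρ.integral, one_smul]
    rw [h1]
    refine NR_of_tame fun v hv => ?_
    rw [(f z.1).symplectic z.2 v (J v), omJ]
    exact nsqPos hv
  obtain ⟨δ, hδ, hδ'⟩ := Metric.eventually_nhds_iff.1 hev
  refine ⟨min (δ / 2) 1, lt_min (by positivity) one_pos, fun s hs0 hs1 p x => ?_⟩
  have hs2 : s ≤ δ / 2 := hs1.trans (min_le_left _ _)
  have hs3 : s ≤ 1 := hs1.trans (min_le_right _ _)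
  rcases le_or_gt ‖x‖ (m + S) with hx | hx
  · have h1 : dist s 0 < δ := by
      rw [Real.dist_eq, sub_zero, abs_of_nonneg hs0]
      linarith
    have h2 := hδ' h1 (p, x) ⟨mem_univ _, mem_closedBall_zero_iff.2 hx⟩
    rw [hMD]
    exact h2
  · have h1 : MD ρ (f p) s x = fun v => v := by
      funext v
      rw [MD_eq hρ]
      have h2 : (∫ y, ρ y • fderiv ℝ (hh (f p)) (x - s • y)) = 0 := by
        rw [← integral_zero (R2 n) (R2 n →L[ℝ] R2 n)]
        refine integral_congr_ae (Filter.Eventually.of_forall fun y => ?_)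
        show ρ y • fderiv ℝ (hh (f p)) (x - s • y) = 0
        rcases le_or_gt S ‖y‖ with hy | hy
        · rw [hS y hy, zero_smul]
        · rw [fderiv_hh_zero (hm (f p) ⟨p, rfl⟩), smul_zero]
          have h3 := norm_sub_norm_le x (s • y)
          rw [norm_smul, Real.norm_of_nonneg hs0] at h3
          have h4 : s * ‖y‖ ≤ 1 * ‖y‖ := mul_le_mul_of_nonneg_right hs3 (norm_nonneg _)
          linarith
      rw [h2, _root_.zero_apply, add_zero]
    rw [h1]
    exact Pool.Agent.Run7.h233.EC.NR_id'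

theorem AV_far {ρ : R2 n → ℝ} {S : ℝ} (hS : ∀ t, S ≤ ‖t‖ → ρ t = 0) {r : ℝ} (hr : 0 < r)
    {h : R2 n → R2 n} {B : ℝ} (hh : ∀ x, B < ‖x‖ → h x = x) {x : R2 n} (hx : B + r * S < ‖x‖) :
    AV ρ r h x = ContinuousLinearMap.id ℝ (R2 n) := by
  unfold AV
  have h1 : (MM ρ r fun z => h z - z) =ᶠ[𝓝 x] fun _ => 0 := by
    filter_upwards [(isOpen_lt continuous_const continuous_norm).mem_nhds hx] with y hy
    exact MM_zero hS hr (B := B) (fun x hx => by rw [hh x hx, sub_self]) hy
  rw [h1.fderiv_eq, fderiv_const_apply, add_zero]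

/-- near times -/
theorem stage2 {ρ : R2 n → ℝ} (hρ : Moll ρ) {r : ℝ} (hr : 0 < r) (C : Type) [TopologicalSpace C]
    [CompactSpace C] (H : C × unitInterval × R2 n → R2 n) (hH : Continuous H) {B : ℝ}
    (hB : ∀ c t x, B < ‖x‖ → H (c, t, x) = x)
    (hNR : ∀ c t x, NR (AV ρ r (fun z => H (c, t, z)) x)) :
    ∃ N : ℕ, 0 < N ∧ ∀ (p : C) (t t' : unitInterval), dist t t' ≤ 1 / N → ∀ c : ℝ, 0 ≤ c →
      c ≤ 1 → ∀ x, NR ((1 - c) • AV ρ r (fun z => H (p, t, z)) x +
        c • AV ρ r (fun z => H (p, t', z)) x : R2 n →L[ℝ] R2 n) := by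
  obtain ⟨S, hS0, hS⟩ := exists_S hρ
  have hU : Continuous (Function.uncurry fun (q : C × unitInterval) (z : R2 n) =>
      H (q.1, q.2, z) - z) := by
    refine Continuous.sub (hH.comp ?_) continuous_snd
    exact (continuous_fst.comp continuous_fst).prodMk
      ((continuous_snd.comp continuous_fst).prodMk continuous_snd)
  have hJ := MM_jc hρ hr 1 hU
  have hJ0 : Continuous (Function.uncurry fun (q : C × unitInterval) (x : R2 n) =>
      fderiv ℝ (MM ρ r fun z => H (q.1, q.2, z) - z) x) := hJ.2.2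
  have hΦ : Continuous (Function.uncurry fun (q : C × unitInterval) (x : R2 n) =>
      AV ρ r (fun z => H (q.1, q.2, z)) x) := continuous_const.add hJ0
  set K' : Set (C × R2 n × ℝ) :=
    (univ : Set C) ×ˢ (closedBall (0 : R2 n) (B + r * S) ×ˢ Icc (0 : ℝ) 1) with hK'
  have hK : IsCompact K' := isCompact_univ.prod ((isCompact_closedBall _ _).prod isCompact_Icc)
  have hE : Continuous (fun w : (unitInterval × unitInterval) × (C × R2 n × ℝ) =>
      ((1 - w.2.2.2) • AV ρ r (fun z => H (w.2.1, w.1.1, z)) w.2.2.1 +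
        w.2.2.2 • AV ρ r (fun z => H (w.2.1, w.1.2, z)) w.2.2.1 : R2 n →L[ℝ] R2 n)) := by
    have c1 : Continuous (fun w : (unitInterval × unitInterval) × (C × R2 n × ℝ) => w.2.2.2) :=
      continuous_snd.comp (continuous_snd.comp continuous_snd)
    have c2 : Continuous (fun w : (unitInterval × unitInterval) × (C × R2 n × ℝ) => w.2.2.1) :=
      continuous_fst.comp (continuous_snd.comp continuous_snd)
    have c3 : Continuous (fun w : (unitInterval × unitInterval) × (C × R2 n × ℝ) => w.2.1) :=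
      continuous_fst.comp continuous_snd
    have c4 : Continuous (fun w : (unitInterval × unitInterval) × (C × R2 n × ℝ) => w.1.1) :=
      continuous_fst.comp continuous_fst
    have c5 : Continuous (fun w : (unitInterval × unitInterval) × (C × R2 n × ℝ) => w.1.2) :=
      continuous_snd.comp continuous_fst
    exact ((continuous_const.sub c1).smul (hΦ.comp ((c3.prodMk c4).prodMk c2))).add
      (c1.smul (hΦ.comp ((c3.prodMk c5).prodMk c2)))
  have hopen := nr_open n
  have hmem : {z : unitInterval × unitInterval | ∀ w ∈ K',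
      NR ((1 - w.2.2) • AV ρ r (fun y => H (w.1, z.1, y)) w.2.1 +
        w.2.2 • AV ρ r (fun y => H (w.1, z.2, y)) w.2.1 : R2 n →L[ℝ] R2 n)} ∈
      𝓤 unitInterval := by
    rw [← nhdsSet_diagonal_eq_uniformity, mem_nhdsSet_iff_forall]
    rintro ⟨t, t'⟩ htt
    have htt' : t = t' := htt
    subst htt'
    refine hK.eventually_forall_of_forall_eventually
      (P := fun (z : unitInterval × unitInterval) (w : C × R2 n × ℝ) =>
        NR ((1 - w.2.2) • AV ρ r (fun y => H (w.1, z.1, y)) w.2.1 +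
        w.2.2 • AV ρ r (fun y => H (w.1, z.2, y)) w.2.1 : R2 n →L[ℝ] R2 n)) fun w _ => ?_
    refine (hopen.preimage hE).mem_nhds ?_
    show NR ((1 - w.2.2) • AV ρ r (fun y => H (w.1, t, y)) w.2.1 +
        w.2.2 • AV ρ r (fun y => H (w.1, t, y)) w.2.1 : R2 n →L[ℝ] R2 n)
    rw [← add_smul, sub_add_cancel, one_smul]
    exact hNR _ _ _
  obtain ⟨ε, hε, hεU⟩ := Metric.mem_uniformity_dist.1 hmem
  obtain ⟨N, hN⟩ := exists_nat_one_div_lt hε
  refine ⟨N + 1, Nat.succ_pos _, fun p t t' htt c hc0 hc1 x => ?_⟩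
  rcases le_or_gt ‖x‖ (B + r * S) with hx | hx
  · have h1 : dist t t' < ε := by
      refine lt_of_le_of_lt htt ?_
      push_cast
      exact hN
    exact hεU h1 (p, x, c) ⟨mem_univ _, mem_closedBall_zero_iff.2 hx, hc0, hc1⟩
  · rw [AV_far hS hr (hB p t) hx, AV_far hS hr (hB p t') hx, ← add_smul, sub_add_cancel,
      one_smul]
    exact Pool.Agent.Run7.h233.EC.NR_id'

end Pool.Agent.Run7.h60.Pa
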