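import Pool.Agent.Run7.h60.Short

/-! Symmetries of the geodesic equation. -/

set_option maxSynthPendingDepth 3

open Set MeasureTheory intervalIntegral Filter
open scoped Topology ContDiff RealInnerProductSpace NNReal

namespace Run7.h60

variable {E : Type*} [NormedAddCommGroup E] [InnerProductSpace ℝ E]

/-- The linear isometry `σ` preserves the metric of the sphere. -/
def Preserves (g : E → E →L[ℝ] E →L[ℝ] ℝ) (σ : E ≃ₗᵢ[ℝ] E) : Prop :=
  ∀ x ∈ Metric.sphere (0 : E) 1, ∀ v w : E, ⟪x, v⟫ = 0 → ⟪x, w⟫ = 0 →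
    g (σ x) (σ v) (σ w) = g x v w

lemma rad_map (σ : E ≃ₗᵢ[ℝ] E) (x : E) : rad (σ x) = σ (rad x) := by
  simp [rad]

lemma drad_map (σ : E ≃ₗᵢ[ℝ] E) (x v : E) : drad (σ x) (σ v) = σ (drad x v) := by
  rw [drad_apply, drad_apply, σ.norm_map, σ.inner_map_map, map_sub, map_smul, map_smul]

lemma ext_map {g : E → E →L[ℝ] E →L[ℝ] ℝ} {σ : E ≃ₗᵢ[ℝ] E} (hσ : Preserves g σ) {x : E}
    (hx : x ≠ 0) (v w : E) : ext g (σ x) (σ v) (σ w) = ext g x v w := by
  rw [ext_apply, ext_apply, rad_map, drad_map, drad_map, σ.inner_map_map, σ.inner_map_map,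
    hσ _ (rad_mem hx) _ _ (inner_drad hx v) (inner_drad hx w)]

lemma map_ne_zero {σ : E ≃ₗᵢ[ℝ] E} {x : E} (hx : x ≠ 0) : σ x ≠ 0 := by
  intro h
  apply hx
  have := σ.norm_map x
  rw [h, norm_zero] at this
  exact norm_eq_zero.1 this.symm

lemma fderiv_ext_map [FiniteDimensional ℝ E] {g : E → E →L[ℝ] E →L[ℝ] ℝ} (hg : SphMetric g)
    {σ : E ≃ₗᵢ[ℝ] E} (hσ : Preserves g σ) {x : E} (hx : x ≠ 0) (u v w : E) :
    fderiv ℝ (ext g) (σ x) (σ u) (σ v) (σ w) = fderiv ℝ (ext g) x u v w := by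
  have h1 := hasDerivAt_ext hg (map_ne_zero (σ := σ) hx) (σ u) (σ v) (σ w)
  have h2 := hasDerivAt_ext hg hx u v w
  have hev : ∀ᶠ s : ℝ in 𝓝 0, x + s • u ≠ 0 := by
    have h2 : Continuous (fun s : ℝ => x + s • u) := by fun_prop
    have h3 : ∀ᶠ y in 𝓝 (x + (0:ℝ) • u), y ≠ 0 := by
      apply isOpen_compl_singleton.mem_nhds
      simpa using hx
    exact h2.continuousAt.eventually h3
  have h3 : HasDerivAt (fun s : ℝ => ext g (σ x + s • σ u) (σ v) (σ w))
      (fderiv ℝ (ext g) x u v w) 0 := by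
    apply h2.congr_of_eventuallyEq
    filter_upwards [hev] with s hs
    have e1 : σ x + s • σ u = σ (x + s • u) := by rw [map_add, map_smul]
    rw [e1, ext_map hσ hs]
  exact h1.unique h3

lemma chr_map [FiniteDimensional ℝ E] {g : E → E →L[ℝ] E →L[ℝ] ℝ} (hg : SphMetric g)
    {σ : E ≃ₗᵢ[ℝ] E} (hσ : Preserves g σ) {x : E} (hx : x ≠ 0) (v : E) :
    chr (ext g) (σ x) (σ v) = σ (chr (ext g) x v) := by
  have h := metricOn_ext hg
  have hx' := map_ne_zero (σ := σ) hx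
  apply eq_of_inner h (show σ x ∈ ({0}ᶜ : Set E) from hx')
  intro w
  obtain ⟨w', rfl⟩ := σ.surjective w
  rw [chr_spec h (show σ x ∈ ({0}ᶜ : Set E) from hx'), ext_map hσ hx,
    chr_spec h (show x ∈ ({0}ᶜ : Set E) from hx), fderiv_ext_map hg hσ hx,
    fderiv_ext_map hg hσ hx]

namespace UGeod

variable {g : E → E →L[ℝ] E →L[ℝ] ℝ}

lemma ne_zero {γ : ℝ → E} (h : UGeod g γ) (t : ℝ) : γ t ≠ 0 := sphere_subset (h.mem t)

lemma deriv_map {γ : ℝ → E} (h : UGeod g γ) (σ : E ≃ₗᵢ[ℝ] E) :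
    deriv (fun t => σ (γ t)) = fun t => σ (deriv γ t) := by
  funext t
  exact ((σ : E →L[ℝ] E).hasFDerivAt.comp_hasDerivAt t (h.hasDerivAt t)).deriv

lemma map [FiniteDimensional ℝ E] (hg : SphMetric g) {σ : E ≃ₗᵢ[ℝ] E} (hσ : Preserves g σ)
    {γ : ℝ → E} (h : UGeod g γ) : UGeod g (fun t => σ (γ t)) := by
  refine ⟨?_, ?_, ?_, ?_⟩
  · intro t
    have : ‖γ t‖ = 1 := by simpa using h.mem t
    simpa [σ.norm_map] using this
  · exact (σ : E →L[ℝ] E).contDiff.comp h.smooth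
  · intro t
    rw [h.deriv_map σ]
    simp only
    rw [chr_map hg hσ (h.ne_zero t)]
    exact (σ : E →L[ℝ] E).hasFDerivAt.comp_hasDerivAt t (h.acc t)
  · intro t
    rw [h.deriv_map σ]
    simp only
    rw [← h.speed t]
    unfold nrm
    rw [ext_map hσ (h.ne_zero t)]

lemma deriv_reverse {γ : ℝ → E} (h : UGeod g γ) :
    deriv (fun t => γ (-t)) = fun t => -deriv γ (-t) := by
  funext t
  have h1 : HasDerivAt (fun t : ℝ => -t) (-1) t := (hasDerivAt_id t).neg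
  have h2 := (h.hasDerivAt (-t)).scomp t h1
  rw [neg_one_smul] at h2
  exact h2.deriv

lemma reverse {γ : ℝ → E} (h : UGeod g γ) : UGeod g (fun t => γ (-t)) := by
  refine ⟨fun t => h.mem _, h.smooth.comp contDiff_neg, ?_, ?_⟩
  · intro t
    rw [h.deriv_reverse]
    simp only
    have h1 : HasDerivAt (fun t : ℝ => -t) (-1) t := (hasDerivAt_id t).neg
    have h2 := ((h.acc (-t)).scomp t h1).neg
    have e1 : chr (ext g) (γ (-t)) (-deriv γ (-t)) = chr (ext g) (γ (-t)) (deriv γ (-t)) := by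
      have := chr_smul (ext g) (γ (-t)) (deriv γ (-t)) (-1)
      simpa using this
    rw [e1]
    rw [neg_one_smul, neg_neg] at h2
    exact h2
  · intro t
    rw [h.deriv_reverse]
    simp only
    have h5 := nrm_smul (ext g) (γ (-t)) (deriv γ (-t)) (-1)
    simp only [neg_smul, one_smul, abs_neg, abs_one, one_mul] at h5
    rw [h5]; exact h.speed _

lemma deriv_shift {γ : ℝ → E} (h : UGeod g γ) (a : ℝ) :
    deriv (fun t => γ (a + t)) = fun t => deriv γ (a + t) := by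
  funext t
  have hs : HasDerivAt (fun t : ℝ => a + t) 1 t := by simpa using (hasDerivAt_id t).const_add a
  have h2 := (h.hasDerivAt (a + t)).scomp t hs
  rw [one_smul] at h2
  exact h2.deriv

lemma shift {γ : ℝ → E} (h : UGeod g γ) (a : ℝ) : UGeod g (fun t => γ (a + t)) := by
  refine ⟨fun t => h.mem _, h.smooth.comp (contDiff_const.add contDiff_id), ?_, ?_⟩
  · intro t
    rw [h.deriv_shift]
    have hs : HasDerivAt (fun t : ℝ => a + t) 1 t := by
      simpa using (hasDerivAt_id t).const_add a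
    have h2 := (h.acc (a + t)).scomp t hs
    rw [one_smul] at h2
    exact h2
  · intro t
    rw [h.deriv_shift]
    exact h.speed _

/-- Lipschitz dependence on the initial data. -/
lemma exists_dist_le [FiniteDimensional ℝ E] (hg : SphMetric g) :
    ∃ K : ℝ, 0 ≤ K ∧ ∀ γ₁ γ₂ : ℝ → E, UGeod g γ₁ → UGeod g γ₂ → ∀ t, 0 ≤ t →
      dist (γ₁ t, deriv γ₁ t) (γ₂ t, deriv γ₂ t)
        ≤ dist (γ₁ 0, deriv γ₁ 0) (γ₂ 0, deriv γ₂ 0) * Real.exp (K * t) := by
  obtain ⟨χ, K, L, hYc, hYd, hK, hL, hχ0, hχ1⟩ := exists_field hg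
  refine ⟨K, K.coe_nonneg, ?_⟩
  intro γ₁ γ₂ h1 h2 t ht
  have hsol : ∀ {γ : ℝ → E}, UGeod g γ → ∀ t, HasDerivAt (fun t => (γ t, deriv γ t))
      (χ (γ t, deriv γ t) • geo (ext g) (γ t, deriv γ t)) t := by
    intro γ h t
    rw [hχ1 _ (h.mem _) _ (h.speed _).le, one_smul]
    exact (h.hasDerivAt t).prodMk (h.acc t)
  exact dist_solution_le hK (hsol h1) (hsol h2) ht

lemma unique [FiniteDimensional ℝ E] (hg : SphMetric g) {γ₁ γ₂ : ℝ → E} (h1 : UGeod g γ₁)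
    (h2 : UGeod g γ₂) (h0 : γ₁ 0 = γ₂ 0) (h0' : deriv γ₁ 0 = deriv γ₂ 0) : γ₁ = γ₂ := by
  obtain ⟨χ, K, L, hYc, hYd, hK, hL, hχ0, hχ1⟩ := exists_field hg
  have hsol : ∀ {γ : ℝ → E}, UGeod g γ → ∀ t, HasDerivAt (fun t => (γ t, deriv γ t))
      (χ (γ t, deriv γ t) • geo (ext g) (γ t, deriv γ t)) t := by
    intro γ h t
    rw [hχ1 _ (h.mem _) _ (h.speed _).le, one_smul]
    exact (h.hasDerivAt t).prodMk (h.acc t)
  have h3 := solution_unique hK (hsol h1) (hsol h2) (by simp only [h0, h0'])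
  funext t
  exact congrArg Prod.fst (congrFun h3 t)

end UGeod

end Run7.h60
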