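import Mathlib

/-! A continuous function with second differences `O(h^{3/2})` is `C^1`. -/

open Set MeasureTheory intervalIntegral Filter
open scoped Topology ContDiff

namespace Run7.h60

variable {E : Type*} [NormedAddCommGroup E] [NormedSpace ℝ E]

lemma second_diff_C1 [CompleteSpace E] {f : ℝ → E} (hf : Continuous f) {C h₀ : ℝ} (hC : 0 ≤ C)
    (hh₀ : 0 < h₀)
    (H : ∀ t h, 0 < h → h ≤ h₀ → 0 ≤ t - h → t + h ≤ 1 →
      ‖f (t + h) - (2:ℝ) • f t + f (t - h)‖ ^ 2 ≤ C ^ 2 * h ^ 3) :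
    ∃ v : ℝ → E, ContinuousOn v (Ioo 0 1) ∧ ∀ t ∈ Ioo (0:ℝ) 1, HasDerivAt f (v t) t := by
  set D : ℕ → ℝ → E := fun k s => (2:ℝ) ^ k • (f (s + (1/2) ^ k) - f s) with hD
  have hstep : ∀ (k : ℕ) (s : ℝ), 0 ≤ s → s + (1/2) ^ k ≤ 1 → (1/2:ℝ) ^ k ≤ h₀ →
      dist (D k s) (D (k+1) s) ≤ C * (3/4) ^ k := by
    intro k s hs hs1 hk
    set h : ℝ := (1/2) ^ k with hh
    have hpos : 0 < h := by positivity
    have h2 : (1/2:ℝ) ^ (k+1) = h / 2 := by rw [pow_succ, hh]; ring
    have key := H (s + h/2) (h/2) (by positivity) (by linarith) (by linarith) (by linarith)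
    rw [show s + h/2 + h/2 = s + h by ring, show s + h/2 - h/2 = s by ring] at key
    have e : D k s - D (k+1) s = (2:ℝ) ^ k • (f (s + h) - (2:ℝ) • f (s + h/2) + f s) := by
      simp only [hD, h2, ← hh]
      rw [pow_succ, mul_smul]
      module
    rw [dist_eq_norm, e, norm_smul, norm_pow, Real.norm_eq_abs, abs_of_pos (by norm_num : (0:ℝ) < 2)]
    have hsq : ((2:ℝ) ^ k * ‖f (s + h) - (2:ℝ) • f (s + h/2) + f s‖) ^ 2 ≤ (C * (3/4) ^ k) ^ 2 := by
      have h3 : ((2:ℝ) ^ k) * h = 1 := by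
        rw [hh, ← mul_pow]; norm_num
      have h4 : ((2:ℝ) ^ k) ^ 2 * (C ^ 2 * (h/2) ^ 3) = C ^ 2 * h / 8 := by
        have : ((2:ℝ) ^ k) ^ 2 * (C ^ 2 * (h/2) ^ 3) = (((2:ℝ) ^ k) * h) ^ 2 * (C ^ 2 * h / 8) := by
          ring
        rw [this, h3]; ring
      have h5 : h ≤ ((3/4:ℝ) ^ k) ^ 2 := by
        rw [hh, ← pow_mul, mul_comm k 2, pow_mul]
        exact pow_le_pow_left₀ (by norm_num) (by norm_num) k
      calc ((2:ℝ) ^ k * ‖f (s + h) - (2:ℝ) • f (s + h/2) + f s‖) ^ 2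
          = ((2:ℝ) ^ k) ^ 2 * ‖f (s + h) - (2:ℝ) • f (s + h/2) + f s‖ ^ 2 := by ring
        _ ≤ ((2:ℝ) ^ k) ^ 2 * (C ^ 2 * (h/2) ^ 3) := by gcongr
        _ = C ^ 2 * h / 8 := h4
        _ ≤ C ^ 2 * h := by
            have : 0 ≤ C ^ 2 * h := by positivity
            linarith
        _ ≤ C ^ 2 * ((3/4:ℝ) ^ k) ^ 2 := by gcongr
        _ = (C * (3/4) ^ k) ^ 2 := by ring
    exact (pow_le_pow_iff_left₀ (by positivity) (by positivity) two_ne_zero).1 hsq
  set v : ℝ → E := fun s => limUnder atTop (fun k => D k s) with hv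
  have huni : ∀ δ : ℝ, 0 < δ → TendstoUniformlyOn D v atTop (Ioo 0 (1 - δ)) := by
    intro δ hδ
    obtain ⟨k₀, hk₀⟩ : ∃ k₀ : ℕ, (1/2:ℝ) ^ k₀ < min h₀ δ :=
      exists_pow_lt_of_lt_one (lt_min hh₀ hδ) (by norm_num)
    have hk : ∀ n : ℕ, (1/2:ℝ) ^ (k₀ + n) ≤ min h₀ δ := by
      intro n
      refine le_trans ?_ hk₀.le
      exact pow_le_pow_of_le_one (by norm_num) (by norm_num) (by omega)
    have hgeo : ∀ s ∈ Ioo (0:ℝ) (1 - δ), ∀ n : ℕ,
        dist (D (k₀ + n) s) (D (k₀ + (n+1)) s) ≤ C * (3/4) ^ n := by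
      intro s hs n
      have h1 := hstep (k₀ + n) s hs.1.le
        (by have := (hk n).trans (min_le_right _ _); linarith [hs.2])
        ((hk n).trans (min_le_left _ _))
      refine h1.trans ?_
      gcongr ?_ * ?_
      exact pow_le_pow_of_le_one (by norm_num) (by norm_num) (by omega)
    have htend : ∀ s ∈ Ioo (0:ℝ) (1 - δ), Tendsto (fun n => D (k₀ + n) s) atTop (𝓝 (v s)) := by
      intro s hs
      have hc : CauchySeq (fun n => D (k₀ + n) s) :=
        cauchySeq_of_le_geometric (3/4) C (by norm_num) (hgeo s hs)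
      obtain ⟨a, ha⟩ := cauchySeq_tendsto_of_complete hc
      have ha' : Tendsto (fun k => D k s) atTop (𝓝 a) := by
        have : (fun n => D (k₀ + n) s) = fun n => (fun k => D k s) (n + k₀) := by
          ext n; rw [add_comm]
        rw [this] at ha
        exact (tendsto_add_atTop_iff_nat k₀).1 ha
      have : v s = a := ha'.limUnder_eq
      rw [this]; exact ha
    rw [Metric.tendstoUniformlyOn_iff]
    intro ε hε
    have hlim : Tendsto (fun n : ℕ => C * (3/4:ℝ) ^ n / (1 - 3/4)) atTop (𝓝 0) := by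
      have := (tendsto_pow_atTop_nhds_zero_of_lt_one (r := (3/4:ℝ)) (by norm_num) (by norm_num))
      have h2 := (this.const_mul C).div_const (1 - 3/4)
      simpa using h2
    have hev := hlim.eventually (gt_mem_nhds hε)
    rw [eventually_atTop] at hev ⊢
    obtain ⟨N, hN⟩ := hev
    refine ⟨k₀ + N, fun n hn s hs => ?_⟩
    obtain ⟨j, rfl⟩ : ∃ j, n = k₀ + j := ⟨n - k₀, by omega⟩
    have h3 := dist_le_of_le_geometric_of_tendsto (3/4) C (by norm_num : (3/4:ℝ) < 1)
      (hgeo s hs) (htend s hs) j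
    rw [dist_comm]
    exact lt_of_le_of_lt h3 (hN j (by omega))
  have hDcont : ∀ k, Continuous (D k) := by
    intro k
    simp only [hD]
    exact continuous_const.smul ((hf.comp (continuous_id.add continuous_const)).sub hf)
  refine ⟨v, ?_, ?_⟩
  · intro t ht
    set δ := (1 - t) / 2 with hδ
    have hδ0 : 0 < δ := by rw [hδ]; linarith [ht.2]
    have h1 : ContinuousOn v (Ioo 0 (1 - δ)) :=
      (huni δ hδ0).continuousOn (Frequently.of_forall (fun n => (hDcont n).continuousOn))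
    have h2 : Ioo 0 (1 - δ) ∈ 𝓝 t := Ioo_mem_nhds ht.1 (by rw [hδ]; linarith [ht.2])
    exact (h1.continuousAt h2).continuousWithinAt
  · intro t ht
    set δ := (1 - t) / 2 with hδ
    have hδ0 : 0 < δ := by rw [hδ]; linarith [ht.2]
    set A : ℕ → ℝ → E := fun k s => (2:ℝ) ^ k • ∫ r in s..(s + (1/2) ^ k), f r with hA
    have hP : ∀ s, HasDerivAt (fun u => ∫ r in (0:ℝ)..u, f r) (f s) s := fun s =>
      (hf.integral_hasStrictDerivAt 0 s).hasDerivAt
    have hsub : ∀ a b : ℝ, ∫ r in a..b, f r = (∫ r in (0:ℝ)..b, f r) - ∫ r in (0:ℝ)..a, f r := by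
      intro a b
      rw [intervalIntegral.integral_interval_sub_left]
      · exact hf.intervalIntegrable _ _
      · exact hf.intervalIntegrable _ _
    apply hasDerivAt_of_tendstoUniformlyOn (l := atTop) (f := A) (f' := D) (g' := v) isOpen_Ioo
      (huni δ hδ0)
    · filter_upwards with k s _
      have hAe : A k = fun s => (2:ℝ) ^ k •
          ((∫ r in (0:ℝ)..(s + (1/2) ^ k), f r) - ∫ r in (0:ℝ)..s, f r) := by
        funext u
        simp only [hA]
        rw [hsub u (u + (1/2) ^ k)]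
      rw [hAe]
      simp only [hD]
      apply HasDerivAt.const_smul
      apply HasDerivAt.sub
      · have h1 : HasDerivAt (fun u : ℝ => u + (1/2) ^ k) 1 s := (hasDerivAt_id s).add_const _
        have := (hP (s + (1/2) ^ k)).scomp s h1
        simpa [Function.comp_def] using this
      · exact hP s
    · intro s _
      simp only [hA]
      have h1 := (hasDerivAt_iff_tendsto_slope_zero.1 (hP s))
      have h2 : Tendsto (fun k : ℕ => (1/2:ℝ) ^ k) atTop (𝓝[≠] 0) := by
        rw [tendsto_nhdsWithin_iff]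
        refine ⟨tendsto_pow_atTop_nhds_zero_of_lt_one (by norm_num) (by norm_num), ?_⟩
        filter_upwards with k
        have : (0:ℝ) < (1/2) ^ k := by positivity
        exact this.ne'
      have h3 := h1.comp h2
      refine h3.congr ?_
      intro k
      simp only [Function.comp]
      rw [hsub s (s + (1/2) ^ k), one_div, inv_pow, inv_inv]
    · exact ⟨ht.1, by rw [hδ]; linarith [ht.2]⟩

end Run7.h60
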