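import Pool.Agent.Run7.h60.Exist
import Pool.Agent.Run7.h60.SecondDiff

/-! Minimising metric geodesics are Lipschitz, and have almost constant speed. -/

set_option maxSynthPendingDepth 3

open Set MeasureTheory intervalIntegral Filter
open scoped Topology ContDiff

namespace Run7.h60

variable {E : Type*} [NormedAddCommGroup E] [NormedSpace ℝ E]

namespace MetricOn

variable {G : E → E →L[ℝ] E →L[ℝ] ℝ} {U : Set E}

/-- Points joined by a short curve are close. -/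
lemma conn_far [FiniteDimensional ℝ E] (h : MetricOn G U) {S : Set E} (hS : IsCompact S)
    (hSU : S ⊆ U) :
    ∃ r m : ℝ, 0 < r ∧ 0 < m ∧ ∀ x ∈ S, ∀ z ℓ, Conn G U x z ℓ → m * min r ‖z - x‖ ≤ ℓ := by
  obtain ⟨r, m, M, C, hr, hm, hM, hC, H⟩ := h.exists_local hS hSU
  set r₂ := min r (1 / (2 * (C + 1))) with hr₂
  have hr₂0 : 0 < r₂ := lt_min hr (by positivity)
  have hr₂r : r₂ ≤ r := min_le_left _ _
  have hr₂C : C * r₂ ≤ 1 / 2 := by
    have h1 : r₂ ≤ 1 / (2 * (C + 1)) := min_le_right _ _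
    calc C * r₂ ≤ (C + 1) * (1 / (2 * (C + 1))) := by gcongr; linarith
      _ = 1 / 2 := by field_simp
  have hclose : ∀ x ∈ S, ∀ z ℓ, ‖z - x‖ ≤ r₂ → Conn G U x z ℓ → m / 2 * ‖z - x‖ ≤ ℓ := by
    intro x hx z ℓ hz hc
    have h1 := (H x hx z (hz.trans hr₂r)).2.2.2 ℓ hc
    have h2 := ((H x hx x (by simpa using hr.le)).2.1 (z - x)).1
    have h3 : C * ‖z - x‖ ≤ 1 / 2 := (mul_le_mul_of_nonneg_left hz hC).trans hr₂C
    have h4 := nrm_nonneg G x (z - x)
    nlinarith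
  refine ⟨r₂, m / 2, hr₂0, by positivity, ?_⟩
  intro x hx z ℓ hc
  by_cases hz : ‖z - x‖ ≤ r₂
  · rw [min_eq_right hz]
    exact hclose x hx z ℓ hz hc
  · push Not at hz
    rw [min_eq_left hz.le]
    obtain ⟨c, hcd, hcU, hc0, hc1, hℓ⟩ := hc
    have e0 : c 0 = x := hc0 0 le_rfl
    have e1 : c 1 = z := hc1 1 le_rfl
    have hn : Continuous (fun t => ‖c t - x‖) := (hcd.continuous.sub continuous_const).norm
    obtain ⟨t₀, ht₀, ht₀e⟩ := intermediate_value_Icc (zero_le_one (α := ℝ)) hn.continuousOn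
      (show r₂ ∈ Icc ‖c 0 - x‖ ‖c 1 - x‖ by
        rw [e0, e1, sub_self, norm_zero]; exact ⟨hr₂0.le, hz.le⟩)
    have hconn := conn_of_curve (G := G) (U := U) h.contOn ht₀.1
      (fun t _ => hcd.contDiffAt) (fun t _ => hcU t)
    rw [e0] at hconn
    simp only at ht₀e
    have h5 := hclose x hx _ _ ht₀e.le hconn
    rw [ht₀e] at h5
    have hcont : Continuous (fun t => nrm G (c t) (deriv c t)) := by
      rw [← continuousOn_univ]
      exact continuousOn_nrm h.contOn hcd.continuous.continuousOn (fun t _ => hcU t)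
        (hcd.continuous_deriv (by norm_num)).continuousOn
    have hsplit : Len G c 0 1 = Len G c 0 t₀ + Len G c t₀ 1 := by
      unfold Len
      rw [intervalIntegral.integral_add_adjacent_intervals]
      · exact hcont.intervalIntegrable _ _
      · exact hcont.intervalIntegrable _ _
    have := len_nonneg G c ht₀.2
    linarith

end MetricOn

/-- Lipschitz and speed estimates for a minimising metric geodesic. -/
lemma MGeod.estimates [FiniteDimensional ℝ E] {G : E → E →L[ℝ] E →L[ℝ] ℝ} {U : Set E}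
    (h : MetricOn G U) {S : Set E} (hS : IsCompact S)
    (hSU : S ⊆ U) {γ : ℝ → E} {D : ℝ} (hγS : ∀ t, γ t ∈ S) (hγ : MGeod G U γ D) (hD : 0 ≤ D) :
    ∃ h₁ C₀ C₁ m : ℝ, 0 < h₁ ∧ 0 ≤ C₀ ∧ 0 ≤ C₁ ∧ 0 < m ∧
      (∀ x ∈ S, ∀ v, m * ‖v‖ ≤ nrm G x v) ∧
      (∀ s t, 0 ≤ s → s ≤ t → t ≤ 1 → t - s ≤ h₁ →
      ‖γ t - γ s‖ ≤ C₀ * (t - s) ∧
      |nrm G (γ s) (γ t - γ s) - D * (t - s)| ≤ C₁ * (t - s) ^ 2 ∧
      |nrm G (γ t) (γ t - γ s) - D * (t - s)| ≤ C₁ * (t - s) ^ 2 ∧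
      ∀ v, |nrm G (γ t) v - nrm G (γ s) v| ≤ C₁ * (t - s) * ‖v‖) := by
  obtain ⟨r, m, M, C, hr, hm, hM, hC, H⟩ := h.exists_local hS hSU
  obtain ⟨r₂, m₂, hr₂, hm₂, H₂⟩ := h.conn_far hS hSU
  set C₀ := D / m₂ with hC₀
  have hC₀0 : 0 ≤ C₀ := by positivity
  set h₁ := min (m₂ * r₂ / (2 * (D + 1))) (r / (C₀ + 1)) with hh₁
  have hh₁0 : 0 < h₁ := lt_min (by positivity) (by positivity)
  have hLip : ∀ s t, 0 ≤ s → s ≤ t → t ≤ 1 → t - s ≤ h₁ → ‖γ t - γ s‖ ≤ C₀ * (t - s) := by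
    intro s t hs hst ht hts
    have h1 : m₂ * min r₂ ‖γ t - γ s‖ ≤ D * (t - s) := by
      apply le_of_forall_pos_le_add
      intro ε hε
      exact H₂ _ (hγS s) _ _ (hγ.conn s t hs hst ht ε hε)
    have h2 : D * (t - s) < m₂ * r₂ := by
      have h3 : t - s ≤ m₂ * r₂ / (2 * (D + 1)) := hts.trans (min_le_left _ _)
      calc D * (t - s) ≤ D * (m₂ * r₂ / (2 * (D + 1))) := by gcongr
        _ = (D / (D + 1)) * (m₂ * r₂ / 2) := by field_simp
        _ ≤ 1 * (m₂ * r₂ / 2) := by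
            gcongr
            rw [div_le_one (by positivity)]; linarith
        _ < m₂ * r₂ := by have : 0 < m₂ * r₂ := by positivity
                          linarith
    have h3 : min r₂ ‖γ t - γ s‖ < r₂ := by
      by_contra hcon
      push Not at hcon
      have : m₂ * r₂ ≤ m₂ * min r₂ ‖γ t - γ s‖ := by gcongr
      linarith
    have h4 : min r₂ ‖γ t - γ s‖ = ‖γ t - γ s‖ := by
      rcases min_choice r₂ ‖γ t - γ s‖ with h5 | h5
      · rw [h5] at h3; exact absurd h3 (lt_irrefl _)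
      · exact h5
    rw [h4] at h1
    rw [hC₀, div_mul_eq_mul_div, le_div_iff₀ hm₂]
    linarith
  have hsmall : ∀ s t, 0 ≤ s → s ≤ t → t ≤ 1 → t - s ≤ h₁ → ‖γ t - γ s‖ ≤ r := by
    intro s t hs hst ht hts
    have h1 := hLip s t hs hst ht hts
    have h2 : t - s ≤ r / (C₀ + 1) := hts.trans (min_le_right _ _)
    calc ‖γ t - γ s‖ ≤ C₀ * (t - s) := h1
      _ ≤ (C₀ + 1) * (r / (C₀ + 1)) := by gcongr; linarith
      _ = r := by field_simp
  set C₁ := C * C₀ * (M * C₀) + C * C₀ with hC₁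
  have hC₁0 : 0 ≤ C₁ := by positivity
  have key : ∀ x ∈ S, ∀ z, ‖z - x‖ ≤ r → ∀ τ, 0 ≤ τ → ‖z - x‖ ≤ C₀ * τ →
      (∀ ε, 0 < ε → Conn G U x z (D * τ + ε)) → (∀ ℓ, Conn G U x z ℓ → D * τ ≤ ℓ) →
      |nrm G x (z - x) - D * τ| ≤ C₁ * τ ^ 2 := by
    intro x hx z hz τ hτ hzτ hc1 hc2
    obtain ⟨-, hv, hup, hlow⟩ := H x hx z hz
    have hxx := ((H x hx x (by simpa using hr.le)).2.1 (z - x)).2.1
    have hn : nrm G x (z - x) ≤ M * (C₀ * τ) := hxx.trans (by gcongr)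
    have hn0 := nrm_nonneg G x (z - x)
    have h1 : D * τ ≤ (1 + C * ‖z - x‖) * nrm G x (z - x) := hc2 _ hup
    have h2 : (1 - C * ‖z - x‖) * nrm G x (z - x) ≤ D * τ := by
      apply le_of_forall_pos_le_add
      intro ε hε
      exact hlow _ (hc1 ε hε)
    have h3 : C * ‖z - x‖ * nrm G x (z - x) ≤ C * (C₀ * τ) * (M * (C₀ * τ)) := by gcongr
    have h4 : C * (C₀ * τ) * (M * (C₀ * τ)) ≤ C₁ * τ ^ 2 := by
      have : C₁ * τ ^ 2 = C * (C₀ * τ) * (M * (C₀ * τ)) + C * C₀ * τ ^ 2 := by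
        rw [hC₁]; ring
      rw [this]
      have : 0 ≤ C * C₀ * τ ^ 2 := by positivity
      linarith
    rw [abs_le]
    constructor <;> nlinarith
  refine ⟨h₁, C₀, C₁, m, hh₁0, hC₀0, hC₁0, hm,
    fun x hx v => ((H x hx x (by simpa using hr.le)).2.1 v).1, ?_⟩
  intro s t hs hst ht hts
  have hL := hLip s t hs hst ht hts
  have hR := hsmall s t hs hst ht hts
  refine ⟨hL, ?_, ?_, ?_⟩
  · exact key (γ s) (hγS s) (γ t) hR (t - s) (by linarith) hL (hγ.conn s t hs hst ht)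
      (hγ.lower s t hs hst ht)
  · have h1 := key (γ t) (hγS t) (γ s) (by rwa [norm_sub_rev]) (t - s) (by linarith)
      (by rwa [norm_sub_rev]) (fun ε hε => (hγ.conn s t hs hst ht ε hε).symm)
      (fun ℓ hℓ => hγ.lower s t hs hst ht ℓ hℓ.symm)
    have h2 : nrm G (γ t) (γ s - γ t) = nrm G (γ t) (γ t - γ s) := by
      have := nrm_smul G (γ t) (γ t - γ s) (-1)
      simpa using this
    rwa [h2] at h1
  · intro v
    have h1 := ((H (γ s) (hγS s) (γ t) hR).2.1 v).2.2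
    refine h1.trans ?_
    have h2 : C * ‖γ t - γ s‖ ≤ C₁ * (t - s) := by
      have h3 : C * ‖γ t - γ s‖ ≤ C * (C₀ * (t - s)) := by gcongr
      have h4 : 0 ≤ C * C₀ * (M * C₀) * (t - s) := by
        have : 0 ≤ t - s := by linarith
        positivity
      have h5 : C₁ * (t - s) = C * C₀ * (M * C₀) * (t - s) + C * (C₀ * (t - s)) := by
        rw [hC₁]; ring
      linarith
    gcongr

end Run7.h60
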