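import Pool.Agent.Run7.h60.Reg1

/-! Minimising metric geodesics are `C^1` with constant speed. -/

set_option maxSynthPendingDepth 3

open Set MeasureTheory intervalIntegral Filter
open scoped Topology ContDiff

namespace Run7.h60

variable {E : Type*} [NormedAddCommGroup E] [NormedSpace ℝ E]

lemma MGeod.second_diff [FiniteDimensional ℝ E] {G : E → E →L[ℝ] E →L[ℝ] ℝ} {U : Set E}
    (h : MetricOn G U) {S : Set E} (hS : IsCompact S)
    (hSU : S ⊆ U) {γ : ℝ → E} {D : ℝ} (hγS : ∀ t, γ t ∈ S) (hγ : MGeod G U γ D) (hD : 0 < D) :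
    ∃ C h₀ : ℝ, 0 ≤ C ∧ 0 < h₀ ∧ ∀ t k, 0 < k → k ≤ h₀ → 0 ≤ t - k → t + k ≤ 1 →
      ‖γ (t + k) - (2:ℝ) • γ t + γ (t - k)‖ ^ 2 ≤ C ^ 2 * k ^ 3 := by
  obtain ⟨h₁, C₀, C₁, m, hh₁, hC₀, hC₁, hm, hmv, H⟩ := hγ.estimates h hS hSU hγS hD.le
  set C₂ := 4 * C₁ + 2 * C₁ * C₀ with hC₂
  have hC₂0 : 0 ≤ C₂ := by positivity
  set C₃ := 8 * D * C₁ + 4 * D * C₂ + 4 * C₁ ^ 2 with hC₃
  have hC₃0 : 0 ≤ C₃ := by positivity
  set h₀ := min (h₁ / 2) (min 1 (2 * D / (C₂ + 1))) with hh₀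
  have hh₀0 : 0 < h₀ := lt_min (by positivity) (lt_min one_pos (by positivity))
  refine ⟨Real.sqrt C₃ / m, h₀, by positivity, hh₀0, ?_⟩
  intro t k hk hkh htk htk'
  have hk1 : 2 * k ≤ h₁ := by
    have := hkh.trans (min_le_left _ _); linarith
  have hk2 : k ≤ 1 := hkh.trans ((min_le_right _ _).trans (min_le_left _ _))
  have hk3 : k ≤ 2 * D / (C₂ + 1) := hkh.trans ((min_le_right _ _).trans (min_le_right _ _))
  have hk4 : C₂ * k ≤ 2 * D := by
    have h1 : (C₂ + 1) * k ≤ (C₂ + 1) * (2 * D / (C₂ + 1)) := by gcongr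
    have h2 : (C₂ + 1) * (2 * D / (C₂ + 1)) = 2 * D := by field_simp
    nlinarith
  -- the two displacements
  set a := γ (t + k) - γ t with ha
  set b := γ t - γ (t - k) with hb
  have hxU : γ t ∈ U := hSU (hγS t)
  obtain ⟨-, h2, -, -⟩ := H t (t + k) (by linarith) (by linarith) htk' (by linarith)
  obtain ⟨h3, -, h4, h5⟩ := H (t - k) t htk (by linarith) (by linarith) (by linarith)
  obtain ⟨h6, h7, -, -⟩ := H (t - k) (t + k) htk (by linarith) htk' (by linarith)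
  have eab : γ (t + k) - γ (t - k) = a + b := by rw [ha, hb]; abel
  have ediff : γ (t + k) - (2:ℝ) • γ t + γ (t - k) = a - b := by
    rw [ha, hb, two_smul]; abel
  rw [show t + k - t = k by ring] at h2
  rw [show t - (t - k) = k by ring] at h3 h4 h5
  rw [show t + k - (t - k) = 2 * k by ring, eab] at h6 h7
  have na : nrm G (γ t) a ≤ D * k + C₁ * k ^ 2 := by linarith [(abs_le.1 h2).2]
  have nb : nrm G (γ t) b ≤ D * k + C₁ * k ^ 2 := by linarith [(abs_le.1 h4).2]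
  have nab : 2 * D * k - C₂ * k ^ 2 ≤ nrm G (γ t) (a + b) := by
    have h8 := (abs_le.1 h7).1
    have h9 := (abs_le.1 (h5 (a + b))).1
    have h10 : C₁ * k * ‖a + b‖ ≤ C₁ * k * (C₀ * (2 * k)) := by gcongr
    rw [hC₂]
    nlinarith
  have hpos : 0 ≤ 2 * D * k - C₂ * k ^ 2 := by nlinarith
  -- parallelogram law
  have hpar : nrm G (γ t) (a - b) ^ 2
      = 2 * nrm G (γ t) a ^ 2 + 2 * nrm G (γ t) b ^ 2 - nrm G (γ t) (a + b) ^ 2 := by
    rw [h.sq_nrm hxU, h.sq_nrm hxU, h.sq_nrm hxU, h.sq_nrm hxU]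
    simp only [map_add, map_sub, add_apply, sub_apply]
    ring
  have hsq : nrm G (γ t) (a - b) ^ 2 ≤ C₃ * k ^ 3 := by
    have e1 : nrm G (γ t) a ^ 2 ≤ (D * k + C₁ * k ^ 2) ^ 2 :=
      pow_le_pow_left₀ (nrm_nonneg _ _ _) na 2
    have e2 : nrm G (γ t) b ^ 2 ≤ (D * k + C₁ * k ^ 2) ^ 2 :=
      pow_le_pow_left₀ (nrm_nonneg _ _ _) nb 2
    have e3 : (2 * D * k - C₂ * k ^ 2) ^ 2 ≤ nrm G (γ t) (a + b) ^ 2 :=
      pow_le_pow_left₀ hpos nab 2
    have e4 : 4 * (D * k + C₁ * k ^ 2) ^ 2 - (2 * D * k - C₂ * k ^ 2) ^ 2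
        = (8 * D * C₁ + 4 * D * C₂) * k ^ 3 + 4 * C₁ ^ 2 * k ^ 4 - C₂ ^ 2 * k ^ 4 := by ring
    have e5 : 4 * C₁ ^ 2 * k ^ 4 ≤ 4 * C₁ ^ 2 * k ^ 3 := by
      have : k ^ 4 ≤ k ^ 3 := pow_le_pow_of_le_one hk.le hk2 (by norm_num)
      gcongr
    have e6 : 0 ≤ C₂ ^ 2 * k ^ 4 := by positivity
    have e7 : C₃ * k ^ 3 = (8 * D * C₁ + 4 * D * C₂) * k ^ 3 + 4 * C₁ ^ 2 * k ^ 3 := by
      rw [hC₃]; ring
    linarith
  rw [ediff]
  have h11 : (m * ‖a - b‖) ^ 2 ≤ C₃ * k ^ 3 := by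
    refine le_trans ?_ hsq
    exact pow_le_pow_left₀ (by positivity) (hmv (γ t) (hγS t) (a - b)) 2
  have h12 : (Real.sqrt C₃ / m) ^ 2 = C₃ / m ^ 2 := by
    rw [div_pow, Real.sq_sqrt hC₃0]
  rw [h12, div_mul_eq_mul_div, le_div_iff₀ (by positivity)]
  calc ‖a - b‖ ^ 2 * m ^ 2 = (m * ‖a - b‖) ^ 2 := by ring
    _ ≤ _ := h11

lemma MGeod.regular [FiniteDimensional ℝ E] {G : E → E →L[ℝ] E →L[ℝ] ℝ} {U : Set E}
    (h : MetricOn G U) {S : Set E} (hS : IsCompact S)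
    (hSU : S ⊆ U) {γ : ℝ → E} {D : ℝ} (hγS : ∀ t, γ t ∈ S) (hγ : MGeod G U γ D) (hD : 0 < D) :
    ∃ F v : ℝ → E, (∀ t, F t ∈ S) ∧ (∀ t ∈ Icc (0:ℝ) 1, F t = γ t) ∧ Continuous F ∧
      ContinuousOn v (Ioo 0 1) ∧ (∀ t ∈ Ioo (0:ℝ) 1, HasDerivAt F (v t) t) ∧
      (∀ t ∈ Ioo (0:ℝ) 1, nrm G (F t) (v t) = D) := by
  have : CompleteSpace E := FiniteDimensional.complete ℝ E
  obtain ⟨h₁, C₀, C₁, m, hh₁, hC₀, hC₁, hm, hmv, H⟩ := hγ.estimates h hS hSU hγS hD.le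
  obtain ⟨C, h₀, hC, hh₀, H2⟩ := hγ.second_diff h hS hSU hγS hD
  set F : ℝ → E := fun t => γ (max 0 (min t 1)) with hF
  have hFγ : ∀ t ∈ Icc (0:ℝ) 1, F t = γ t := by
    intro t ht
    simp only [hF]
    rw [min_eq_left ht.2, max_eq_right ht.1]
  have hcl : ∀ t, max 0 (min t 1) ∈ Icc (0:ℝ) 1 := fun t =>
    ⟨le_max_left _ _, max_le zero_le_one (min_le_right _ _)⟩
  have hlip : ∀ s t, 0 ≤ s → s ≤ 1 → 0 ≤ t → t ≤ 1 → |t - s| ≤ h₁ →
      ‖γ t - γ s‖ ≤ C₀ * |t - s| := by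
    intro s t hs hs1 ht ht1 hts
    rcases le_total s t with hle | hle
    · rw [abs_of_nonneg (by linarith)] at hts ⊢
      exact (H s t hs hle ht1 hts).1
    · rw [abs_of_nonpos (by linarith), neg_sub] at hts ⊢
      rw [norm_sub_rev]
      exact (H t s ht hle hs1 hts).1
  have hFc : Continuous F := by
    rw [Metric.continuous_iff]
    intro t ε hε
    refine ⟨min h₁ (ε / (C₀ + 1)), lt_min hh₁ (by positivity), ?_⟩
    intro s hs
    rw [Real.dist_eq] at hs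
    have h1 : |max 0 (min s 1) - max 0 (min t 1)| ≤ |s - t| := by
      refine (abs_max_sub_max_le_max _ _ _ _).trans ?_
      simp only [sub_self, abs_zero]
      refine max_le (abs_nonneg _) ?_
      refine (abs_min_sub_min_le_max _ _ _ _).trans ?_
      simp
    have h2 := hlip (max 0 (min t 1)) (max 0 (min s 1)) (hcl t).1 (hcl t).2 (hcl s).1 (hcl s).2
      (h1.trans (hs.le.trans (min_le_left _ _)))
    rw [dist_eq_norm]
    calc ‖F s - F t‖ ≤ C₀ * |max 0 (min s 1) - max 0 (min t 1)| := h2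
      _ ≤ C₀ * |s - t| := by gcongr
      _ ≤ C₀ * (ε / (C₀ + 1)) := by
          have := hs.le.trans (min_le_right _ _)
          gcongr
      _ < ε := by
          rw [mul_div_assoc', div_lt_iff₀ (by positivity)]
          nlinarith
  obtain ⟨v, hvc, hv⟩ := second_diff_C1 hFc hC hh₀ (by
    intro t k hk hkh htk htk'
    rw [hFγ (t + k) ⟨by linarith, htk'⟩, hFγ t ⟨by linarith, by linarith⟩,
      hFγ (t - k) ⟨htk, by linarith⟩]
    exact H2 t k hk hkh htk htk')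
  refine ⟨F, v, fun t => hγS _, hFγ, hFc, hvc, hv, ?_⟩
  intro t ht
  -- speed
  have hlim : Tendsto (fun k : ℝ => nrm G (F t) (k⁻¹ • (F (t + k) - F t))) (𝓝[>] 0)
      (𝓝 (nrm G (F t) (v t))) := by
    have h1 := hasDerivAt_iff_tendsto_slope_zero.1 (hv t ht)
    have h2 : Tendsto (fun k : ℝ => k⁻¹ • (F (t + k) - F t)) (𝓝[>] 0) (𝓝 (v t)) :=
      h1.mono_left (nhdsWithin_mono _ (fun x hx => (ne_of_gt hx : x ≠ 0)))
    have h3 : Continuous (fun w => nrm G (F t) w) := by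
      unfold nrm
      exact Real.continuous_sqrt.comp ((continuous_const.clm_apply continuous_id).clm_apply
        continuous_id)
    exact (h3.tendsto _).comp h2
  have hlim2 : Tendsto (fun k : ℝ => nrm G (F t) (k⁻¹ • (F (t + k) - F t))) (𝓝[>] 0) (𝓝 D) := by
    rw [tendsto_iff_norm_sub_tendsto_zero]
    have h4 : Tendsto (fun k : ℝ => C₁ * k) (𝓝[>] 0) (𝓝 0) := by
      have : Tendsto (fun k : ℝ => C₁ * k) (𝓝 0) (𝓝 (C₁ * 0)) :=
        (continuous_const.mul continuous_id).tendsto 0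
      rw [mul_zero] at this
      exact this.mono_left nhdsWithin_le_nhds
    refine tendsto_of_tendsto_of_tendsto_of_le_of_le' tendsto_const_nhds h4
      (Eventually.of_forall fun k => norm_nonneg _) ?_
    have h5 : ∀ᶠ k : ℝ in 𝓝[>] 0, k < min h₁ (1 - t) := by
      apply mem_nhdsWithin_of_mem_nhds
      exact gt_mem_nhds (lt_min hh₁ (by linarith [ht.2]))
    filter_upwards [h5, self_mem_nhdsWithin] with k hk hk0
    have hk0' : 0 < k := hk0
    have hk1 : k < h₁ := hk.trans_le (min_le_left _ _)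
    have hk2 : k < 1 - t := hk.trans_le (min_le_right _ _)
    have h6 := (H t (t + k) ht.1.le (by linarith) (by linarith) (by linarith)).2.1
    rw [show t + k - t = k by ring] at h6
    rw [hFγ (t + k) ⟨by linarith [ht.1], by linarith⟩, hFγ t ⟨ht.1.le, ht.2.le⟩, nrm_smul,
      abs_of_pos (inv_pos.2 hk0'), Real.norm_eq_abs]
    have e : k⁻¹ * nrm G (γ t) (γ (t + k) - γ t) - D
        = k⁻¹ * (nrm G (γ t) (γ (t + k) - γ t) - D * k) := by
      field_simp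
    rw [e, abs_mul, abs_of_pos (inv_pos.2 hk0')]
    calc k⁻¹ * |nrm G (γ t) (γ (t + k) - γ t) - D * k| ≤ k⁻¹ * (C₁ * k ^ 2) := by gcongr
      _ = C₁ * k := by field_simp
  exact tendsto_nhds_unique hlim hlim2

end Run7.h60
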