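import Pool.Agent.Run7.h60.Reg2

/-! First variation of energy: calculus. -/

set_option maxSynthPendingDepth 3

open Set MeasureTheory intervalIntegral Filter
open scoped Topology ContDiff

namespace Run7.h60

variable {E : Type*} [NormedAddCommGroup E] [NormedSpace ℝ E]

/-- Derivative of the energy density. -/
noncomputable def dq (G : E → E →L[ℝ] E →L[ℝ] ℝ) (c w η η' : E) : ℝ :=
  (fderiv ℝ G c η w + G c η') w + G c w η'

lemma contDiffAt_one_of_hasDerivAt {F v : ℝ → E} {s : Set ℝ} (hs : IsOpen s)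
    (hv : ContinuousOn v s) (hF : ∀ t ∈ s, HasDerivAt F (v t) t) :
    ∀ t ∈ s, ContDiffAt ℝ 1 F t := by
  intro t ht
  rw [contDiffAt_one_iff]
  refine ⟨fun t => ContinuousLinearMap.toSpanSingleton ℝ (v t), s, hs.mem_nhds ht, ?_, ?_⟩
  · exact (ContinuousLinearMap.toSpanSingletonCLE (𝕜 := ℝ) (E := E)).continuous.comp_continuousOn hv
  · intro x hx
    exact (hF x hx).hasFDerivAt

lemma hasDerivAt_q {G : E → E →L[ℝ] E →L[ℝ] ℝ} {U : Set E} (h : MetricOn G U)
    {c w : ℝ → E} {η η' : E} {ε : ℝ} (hc : HasDerivAt c η ε) (hw : HasDerivAt w η' ε)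
    (hU : c ε ∈ U) : HasDerivAt (fun ε => G (c ε) (w ε) (w ε)) (dq G (c ε) (w ε) η η') ε := by
  have h1 : HasFDerivAt G (fderiv ℝ G (c ε)) (c ε) :=
    ((h.smooth.contDiffAt (h.isOpen.mem_nhds hU)).differentiableAt (by norm_num)).hasFDerivAt
  have h2 : HasDerivAt (fun ε => G (c ε)) (fderiv ℝ G (c ε) η) ε :=
    h1.comp_hasDerivAt ε hc
  exact (h2.clm_apply hw).clm_apply hw

lemma continuousOn_q {X : Type*} [TopologicalSpace X] {P : Set X} {G : E → E →L[ℝ] E →L[ℝ] ℝ}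
    {U : Set E} (h : MetricOn G U) {c w : X → E} (hc : ContinuousOn c P)
    (hw : ContinuousOn w P) (hU : ∀ x ∈ P, c x ∈ U) :
    ContinuousOn (fun x => G (c x) (w x) (w x)) P := by
  have c5 : ContinuousOn (fun x => G (c x)) P := h.contOn.comp hc hU
  exact (c5.clm_apply hw).clm_apply hw

lemma continuousOn_fderiv {X : Type*} [TopologicalSpace X] {P : Set X}
    {G : E → E →L[ℝ] E →L[ℝ] ℝ} {U : Set E} (h : MetricOn G U) {c : X → E}
    (hc : ContinuousOn c P) (hU : ∀ x ∈ P, c x ∈ U) :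
    ContinuousOn (fun x => fderiv ℝ G (c x)) P := by
  have h1 : ContinuousOn (fderiv ℝ G) U :=
    h.smooth.continuousOn_fderiv_of_isOpen h.isOpen (by norm_num)
  exact h1.comp hc hU

lemma continuousOn_dq {X : Type*} [TopologicalSpace X] {P : Set X} {G : E → E →L[ℝ] E →L[ℝ] ℝ}
    {U : Set E} (h : MetricOn G U) {c w η η' : X → E} (hc : ContinuousOn c P)
    (hw : ContinuousOn w P) (hη : ContinuousOn η P) (hη' : ContinuousOn η' P)
    (hU : ∀ x ∈ P, c x ∈ U) :
    ContinuousOn (fun x => dq G (c x) (w x) (η x) (η' x)) P := by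
  have c5 : ContinuousOn (fun x => G (c x)) P := h.contOn.comp hc hU
  have c6 := continuousOn_fderiv h hc hU
  unfold dq
  exact ((((c6.clm_apply hη).clm_apply hw).add (c5.clm_apply hη')).clm_apply hw).add
    ((c5.clm_apply hw).clm_apply hη')

/-- AM-GM bound of the length by the energy. -/
lemma len_le_energy {G : E → E →L[ℝ] E →L[ℝ] ℝ} {U : Set E} (h : MetricOn G U)
    {c w : ℝ → E} {a b D : ℝ} (hab : a ≤ b) (hc : ContinuousOn c (Icc a b))
    (hw : ContinuousOn w (Icc a b)) (hU : ∀ t ∈ Icc a b, c t ∈ U) :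
    2 * D * ∫ t in a..b, nrm G (c t) (w t) ≤
      (∫ t in a..b, G (c t) (w t) (w t)) + D ^ 2 * (b - a) := by
  have h1 : ContinuousOn (fun t => G (c t) (w t) (w t)) (Icc a b) := continuousOn_q h hc hw hU
  have h5 : ∫ t in a..b, (G (c t) (w t) (w t) + D ^ 2)
      = (∫ t in a..b, G (c t) (w t) (w t)) + D ^ 2 * (b - a) := by
    rw [intervalIntegral.integral_add (h1.intervalIntegrable_of_Icc hab)
      intervalIntegrable_const, intervalIntegral.integral_const, smul_eq_mul, mul_comm (D ^ 2)]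
  rw [← h5, ← intervalIntegral.integral_const_mul]
  apply intervalIntegral.integral_mono_on hab
  · apply ContinuousOn.intervalIntegrable_of_Icc hab
    exact continuousOn_const.mul (continuousOn_nrm h.contOn hc hU hw)
  · exact (h1.add continuousOn_const).intervalIntegrable_of_Icc hab
  · intro t ht
    have h4 : nrm G (c t) (w t) ^ 2 = G (c t) (w t) (w t) := h.sq_nrm (hU t ht) _
    rw [← h4]
    nlinarith [sq_nonneg (nrm G (c t) (w t) - D)]

lemma integral_deriv_eq_zero {q q' : ℝ → ℝ → ℝ} {α β ε₀ : ℝ} (hε₀ : 0 < ε₀) (hαβ : α ≤ β)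
    (c7 : ContinuousOn (fun p : ℝ × ℝ => q p.1 p.2) (Icc (-ε₀) ε₀ ×ˢ Icc α β))
    (c8 : ContinuousOn (fun p : ℝ × ℝ => q' p.1 p.2) (Icc (-ε₀) ε₀ ×ˢ Icc α β))
    (hqder : ∀ ε ∈ Icc (-ε₀) ε₀, ∀ t ∈ Icc α β, HasDerivAt (fun ε => q ε t) (q' ε t) ε)
    (hmin : ∀ ε ∈ Icc (-ε₀) ε₀, ∫ t in α..β, q 0 t ≤ ∫ t in α..β, q ε t) :
    ∫ t in α..β, q' 0 t = 0 := by
  have hPc : IsCompact (Icc (-ε₀) ε₀ ×ˢ Icc α β) := isCompact_Icc.prod isCompact_Icc
  have slice : ∀ ε ∈ Icc (-ε₀) ε₀, ContinuousOn (fun t : ℝ => (ε, t)) (Icc α β) ∧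
      MapsTo (fun t : ℝ => (ε, t)) (Icc α β) (Icc (-ε₀) ε₀ ×ˢ Icc α β) := fun ε hε =>
    ⟨continuousOn_const.prodMk continuousOn_id, fun t ht => ⟨hε, ht⟩⟩
  have q1 : ∀ ε ∈ Icc (-ε₀) ε₀, ContinuousOn (q ε) (Icc α β) := fun ε hε =>
    c7.comp (slice ε hε).1 (slice ε hε).2
  have q2 : ∀ ε ∈ Icc (-ε₀) ε₀, ContinuousOn (q' ε) (Icc α β) := fun ε hε =>
    c8.comp (slice ε hε).1 (slice ε hε).2
  obtain ⟨N, hN⟩ : ∃ N : ℝ, ∀ p ∈ (Icc (-ε₀) ε₀ ×ˢ Icc α β : Set (ℝ × ℝ)),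
      ‖q' p.1 p.2‖ ≤ N := by
    obtain ⟨N, hN⟩ := (hPc.image_of_continuousOn c8).isBounded.exists_norm_le
    exact ⟨N, fun p hp => hN _ ⟨p, hp, rfl⟩⟩
  have hIoc : Set.uIoc α β ⊆ Icc α β := by
    rw [uIoc_of_le hαβ]; exact Ioc_subset_Icc_self
  have h0mem : (0:ℝ) ∈ Icc (-ε₀) ε₀ := ⟨by linarith, hε₀.le⟩
  have hnhds : Icc (-ε₀) ε₀ ∈ 𝓝 (0:ℝ) := Icc_mem_nhds (by linarith) hε₀
  have hder := (intervalIntegral.hasDerivAt_integral_of_dominated_loc_of_deriv_le
    (μ := volume) (a := α) (b := β) (F := q) (F' := q') (x₀ := (0:ℝ)) (s := Icc (-ε₀) ε₀)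
    (bound := fun _ => N) hnhds
    (by
      filter_upwards [hnhds] with ε hε
      exact ((q1 ε hε).mono hIoc).aestronglyMeasurable measurableSet_uIoc)
    ((q1 0 h0mem).intervalIntegrable_of_Icc hαβ)
    (((q2 0 h0mem).mono hIoc).aestronglyMeasurable measurableSet_uIoc)
    (Eventually.of_forall fun t ht ε hε => hN (ε, t) ⟨hε, hIoc ht⟩)
    intervalIntegrable_const
    (Eventually.of_forall fun t ht ε hε => hqder ε hε t (hIoc ht))).2
  have hmin0 : IsLocalMin (fun ε => ∫ t in α..β, q ε t) 0 := by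
    filter_upwards [hnhds] with ε hε
    exact hmin ε hε
  exact hmin0.hasDerivAt_eq_zero hder

lemma first_variation [FiniteDimensional ℝ E] {G : E → E →L[ℝ] E →L[ℝ] ℝ} {U : Set E}
    (h : MetricOn G U) {F v : ℝ → E} {D : ℝ} (hD : 0 < D)
    (hFU : ∀ t, F t ∈ U) (hFc : Continuous F)
    (hvc : ContinuousOn v (Ioo 0 1)) (hv : ∀ t ∈ Ioo (0:ℝ) 1, HasDerivAt F (v t) t)
    (hspeed : ∀ t ∈ Ioo (0:ℝ) 1, nrm G (F t) (v t) = D)
    (hmin : ∀ s t, 0 ≤ s → s ≤ t → t ≤ 1 → ∀ ℓ, Conn G U (F s) (F t) ℓ → D * (t - s) ≤ ℓ)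
    {α β : ℝ} (hα : 0 < α) (hαβ : α ≤ β) (hβ : β < 1) {η : ℝ → E}
    (hη : ∀ t ∈ Icc α β, ContDiffAt ℝ 1 η t) (hηα : η α = 0) (hηβ : η β = 0) :
    ∫ t in α..β, dq G (F t) (v t) (η t) (deriv η t) = 0 := by
  have hprop : ProperSpace E := FiniteDimensional.proper ℝ E
  have hsub : Icc α β ⊆ Ioo (0:ℝ) 1 := fun t ht => ⟨by linarith [ht.1], by linarith [ht.2]⟩
  have hηc : ContinuousOn η (Icc α β) := continuousOn_of_contDiffAt hη
  have hη'c : ContinuousOn (deriv η) (Icc α β) := continuousOn_deriv_of_contDiffAt hη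
  have hvc' : ContinuousOn v (Icc α β) := hvc.mono hsub
  have hK : IsCompact (F '' Icc α β) := isCompact_Icc.image hFc
  obtain ⟨r, hr, hrU⟩ := hK.exists_cthickening_subset_open h.isOpen
    (by rintro _ ⟨t, _, rfl⟩; exact hFU t)
  obtain ⟨B, hB⟩ : ∃ B : ℝ, ∀ t ∈ Icc α β, ‖η t‖ ≤ B := by
    obtain ⟨B, hB⟩ := (isCompact_Icc.image_of_continuousOn hηc).isBounded.exists_norm_le
    exact ⟨B, fun t ht => hB _ ⟨t, ht, rfl⟩⟩
  have hB0 : 0 ≤ B := (norm_nonneg _).trans (hB α ⟨le_rfl, hαβ⟩)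
  have hε₀0 : 0 < r / (B + 1) := by positivity
  obtain ⟨ε₀, hε₀⟩ : ∃ ε₀, ε₀ = r / (B + 1) := ⟨_, rfl⟩
  rw [← hε₀] at hε₀0
  have hcU : ∀ ε ∈ Icc (-ε₀) ε₀, ∀ t ∈ Icc α β, F t + ε • η t ∈ U := by
    intro ε hε t ht
    apply hrU
    refine Metric.mem_cthickening_of_dist_le (F t + ε • η t) (F t) _ _ ⟨t, ht, rfl⟩ ?_
    rw [dist_eq_norm, add_sub_cancel_left, norm_smul, Real.norm_eq_abs]
    calc |ε| * ‖η t‖ ≤ ε₀ * B := by
          have := abs_le.2 hε
          have := hB t ht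
          gcongr
      _ ≤ (r / (B + 1)) * (B + 1) := by rw [← hε₀]; gcongr; linarith
      _ = r := by field_simp
  have c1 : ContinuousOn (fun p : ℝ × ℝ => F p.2 + p.1 • η p.2)
      (Icc (-ε₀) ε₀ ×ˢ Icc α β) :=
    (hFc.comp_continuousOn continuousOn_snd).add
      (continuousOn_fst.smul (hηc.comp continuousOn_snd (fun p hp => hp.2)))
  have c2 : ContinuousOn (fun p : ℝ × ℝ => v p.2 + p.1 • deriv η p.2)
      (Icc (-ε₀) ε₀ ×ˢ Icc α β) :=
    (hvc'.comp continuousOn_snd (fun p hp => hp.2)).add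
      (continuousOn_fst.smul (hη'c.comp continuousOn_snd (fun p hp => hp.2)))
  have c3 : ContinuousOn (fun p : ℝ × ℝ => η p.2) (Icc (-ε₀) ε₀ ×ˢ Icc α β) :=
    hηc.comp continuousOn_snd (fun p hp => hp.2)
  have c4 : ContinuousOn (fun p : ℝ × ℝ => deriv η p.2) (Icc (-ε₀) ε₀ ×ˢ Icc α β) :=
    hη'c.comp continuousOn_snd (fun p hp => hp.2)
  have c0 : ∀ p ∈ (Icc (-ε₀) ε₀ ×ˢ Icc α β : Set (ℝ × ℝ)), F p.2 + p.1 • η p.2 ∈ U :=
    fun p hp => hcU p.1 hp.1 p.2 hp.2
  have key := integral_deriv_eq_zero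
    (q := fun ε t => G (F t + ε • η t) (v t + ε • deriv η t) (v t + ε • deriv η t))
    (q' := fun ε t => dq G (F t + ε • η t) (v t + ε • deriv η t) (η t) (deriv η t))
    hε₀0 hαβ (continuousOn_q h c1 c2 c0) (continuousOn_dq h c1 c2 c3 c4 c0)
    (by
      intro ε hε t ht
      have d1 : HasDerivAt (fun ε : ℝ => F t + ε • η t) (η t) ε := by
        simpa using ((hasDerivAt_id ε).smul_const (η t)).const_add (F t)
      have d2 : HasDerivAt (fun ε : ℝ => v t + ε • deriv η t) (deriv η t) ε := by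
        simpa using ((hasDerivAt_id ε).smul_const (deriv η t)).const_add (v t)
      exact hasDerivAt_q h d1 d2 (hcU ε hε t ht))
    (by
      intro ε hε
      have hΦ0 : ∫ t in α..β, G (F t + (0:ℝ) • η t) (v t + (0:ℝ) • deriv η t)
          (v t + (0:ℝ) • deriv η t) = D ^ 2 * (β - α) := by
        have : ∫ t in α..β, G (F t + (0:ℝ) • η t) (v t + (0:ℝ) • deriv η t)
          (v t + (0:ℝ) • deriv η t) = ∫ t in α..β, D ^ 2 := by
          apply intervalIntegral.integral_congr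
          intro t ht
          rw [uIcc_of_le hαβ] at ht
          simp only [zero_smul, add_zero]
          rw [← h.sq_nrm (hFU t), hspeed t (hsub ht)]
        rw [this, intervalIntegral.integral_const, smul_eq_mul, mul_comm]
      rw [hΦ0]
      have hFd := contDiffAt_one_of_hasDerivAt isOpen_Ioo hvc hv
      have hcd : ∀ t ∈ Icc α β, ContDiffAt ℝ 1 (fun t => F t + ε • η t) t := fun t ht =>
        (hFd t (hsub ht)).add (contDiffAt_const.smul (hη t ht))
      have hconn := conn_of_curve (G := G) h.contOn hαβ hcd (hcU ε hε)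
      rw [hηα, hηβ, smul_zero, add_zero, add_zero] at hconn
      have h1 := hmin α β hα.le hαβ hβ.le _ hconn
      have h2 : Len G (fun t => F t + ε • η t) α β
          = ∫ t in α..β, nrm G (F t + ε • η t) (v t + ε • deriv η t) := by
        unfold Len
        apply intervalIntegral.integral_congr
        intro t ht
        rw [uIcc_of_le hαβ] at ht
        have : HasDerivAt (fun t => F t + ε • η t) (v t + ε • deriv η t) t :=
          (hv t (hsub ht)).add
            (((hη t ht).differentiableAt (by norm_num)).hasDerivAt.const_smul ε)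
        simp only
        rw [this.deriv]
      have h3 := len_le_energy (D := D) h hαβ (c := fun t => F t + ε • η t)
        (w := fun t => v t + ε • deriv η t)
        (hFc.continuousOn.add (continuousOn_const.smul hηc))
        (hvc'.add (continuousOn_const.smul hη'c)) (hcU ε hε)
      rw [← h2] at h3
      have h4 : 2 * D * (D * (β - α)) ≤ 2 * D * Len G (fun t => F t + ε • η t) α β := by
        gcongr
      nlinarith)
  simpa only [zero_smul, add_zero] using key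

end Run7.h60
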