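import Pool.Agent.Run7.h60.Reg3a

/-! The momentum of a minimising geodesic is `C^1`. -/

set_option maxSynthPendingDepth 3

open Set MeasureTheory intervalIntegral Filter
open scoped Topology ContDiff

namespace Run7.h60

variable {E : Type*} [NormedAddCommGroup E] [NormedSpace ℝ E]

/-- Half the differential of `G` in the base point, applied to `(v,v)`. -/
noncomputable def force (G : E → E →L[ℝ] E →L[ℝ] ℝ) (x v : E) : E →L[ℝ] ℝ :=
  (1/2:ℝ) • (((fderiv ℝ G x).flip v).flip v)

lemma force_apply (G : E → E →L[ℝ] E →L[ℝ] ℝ) (x v e : E) :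
    force G x v e = 1/2 * fderiv ℝ G x e v v := by
  simp [force]

lemma continuousOn_force {X : Type*} [TopologicalSpace X] {P : Set X}
    {G : E → E →L[ℝ] E →L[ℝ] ℝ} {U : Set E} (h : MetricOn G U) {c w : X → E}
    (hc : ContinuousOn c P) (hw : ContinuousOn w P) (hU : ∀ x ∈ P, c x ∈ U) :
    ContinuousOn (fun x => force G (c x) (w x)) P := by
  have c6 := continuousOn_fderiv h hc hU
  unfold force
  have c7 : ContinuousOn (fun x => (fderiv ℝ G (c x)).flip) P :=
    (ContinuousLinearMap.flipₗᵢ ℝ E E (E →L[ℝ] ℝ)).continuous.comp_continuousOn c6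
  have c8 : ContinuousOn (fun x => ((fderiv ℝ G (c x)).flip (w x)).flip) P :=
    (ContinuousLinearMap.flipₗᵢ ℝ E E ℝ).continuous.comp_continuousOn (c7.clm_apply hw)
  exact (c8.clm_apply hw).const_smul (1/2:ℝ)

lemma hasDerivAt_primitive {V : Type*} [NormedAddCommGroup V] [NormedSpace ℝ V] [CompleteSpace V]
    {f : ℝ → V} (hf : ContinuousOn f (Ioo 0 1)) {a t : ℝ} (ha : a ∈ Ioo (0:ℝ) 1)
    (ht : t ∈ Ioo (0:ℝ) 1) : HasDerivAt (fun u => ∫ s in a..u, f s) (f t) t := by
  apply intervalIntegral.integral_hasDerivAt_right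
  · exact (hf.mono (ordConnected_Ioo.uIcc_subset ha ht)).intervalIntegrable
  · exact hf.stronglyMeasurableAtFilter isOpen_Ioo t ht
  · exact hf.continuousAt (isOpen_Ioo.mem_nhds ht)

lemma eq_zero_of_integral_sq {f : ℝ → ℝ} (hf : ContinuousOn f (Ioo 0 1)) {α β t : ℝ}
    (hα : 0 < α) (hβ : β < 1) (h0 : ∫ s in α..β, f s ^ 2 = 0) (ht : t ∈ Ioo α β) : f t = 0 := by
  have hsub : Icc α β ⊆ Ioo (0:ℝ) 1 := fun t ht => ⟨by linarith [ht.1], by linarith [ht.2]⟩
  have hαβ : α < β := ht.1.trans ht.2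
  have hf2 : ContinuousOn (fun s => f s ^ 2) (Ioo 0 1) := hf.pow 2
  have hint : ∀ a ∈ Icc α β, ∀ b ∈ Icc α β, IntervalIntegrable (fun s => f s ^ 2) volume a b :=
    fun a ha b hb =>
      (hf2.mono (ordConnected_Ioo.uIcc_subset (hsub ha) (hsub hb))).intervalIntegrable
  have hz : ∀ u ∈ Ioo α β, ∫ s in α..u, f s ^ 2 = 0 := by
    intro u hu
    have h1 : 0 ≤ ∫ s in α..u, f s ^ 2 :=
      intervalIntegral.integral_nonneg hu.1.le (fun _ _ => sq_nonneg _)
    have h2 : 0 ≤ ∫ s in u..β, f s ^ 2 :=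
      intervalIntegral.integral_nonneg hu.2.le (fun _ _ => sq_nonneg _)
    have h3 := intervalIntegral.integral_add_adjacent_intervals
      (hint α ⟨le_rfl, hαβ.le⟩ u ⟨hu.1.le, hu.2.le⟩) (hint u ⟨hu.1.le, hu.2.le⟩ β ⟨hαβ.le, le_rfl⟩)
    linarith
  have hd := hasDerivAt_primitive hf2 (hsub ⟨le_rfl, hαβ.le⟩) (hsub ⟨ht.1.le, ht.2.le⟩)
  have hd0 : HasDerivAt (fun u => ∫ s in α..u, f s ^ 2) 0 t := by
    apply (hasDerivAt_const t (0:ℝ)).congr_of_eventuallyEq
    filter_upwards [isOpen_Ioo.mem_nhds ht] with u hu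
    exact hz u hu
  have := hd.unique hd0
  simpa using this

lemma momentum [FiniteDimensional ℝ E] {G : E → E →L[ℝ] E →L[ℝ] ℝ} {U : Set E}
    (h : MetricOn G U) {F v : ℝ → E} {D : ℝ} (hD : 0 < D)
    (hFU : ∀ t, F t ∈ U) (hFc : Continuous F)
    (hvc : ContinuousOn v (Ioo 0 1)) (hv : ∀ t ∈ Ioo (0:ℝ) 1, HasDerivAt F (v t) t)
    (hspeed : ∀ t ∈ Ioo (0:ℝ) 1, nrm G (F t) (v t) = D)
    (hmin : ∀ s t, 0 ≤ s → s ≤ t → t ≤ 1 → ∀ ℓ, Conn G U (F s) (F t) ℓ → D * (t - s) ≤ ℓ) :
    ∀ t ∈ Ioo (0:ℝ) 1, HasDerivAt (fun t => G (F t) (v t)) (force G (F t) (v t)) t := by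
  have hcomp : CompleteSpace E := FiniteDimensional.complete ℝ E
  have hfc : ContinuousOn (fun t => force G (F t) (v t)) (Ioo 0 1) :=
    continuousOn_force h hFc.continuousOn hvc (fun t _ => hFU t)
  have hpc : ContinuousOn (fun t => G (F t) (v t)) (Ioo 0 1) :=
    (h.contOn.comp hFc.continuousOn (fun t _ => hFU t)).clm_apply hvc
  have half : (1/2:ℝ) ∈ Ioo (0:ℝ) 1 := by constructor <;> norm_num
  obtain ⟨R, hR⟩ : ∃ R : ℝ → E →L[ℝ] ℝ, R = fun u => ∫ s in (1/2:ℝ)..u, force G (F s) (v s) :=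
    ⟨_, rfl⟩
  have hRd : ∀ t ∈ Ioo (0:ℝ) 1, HasDerivAt R (force G (F t) (v t)) t := by
    intro t ht
    rw [hR]
    exact hasDerivAt_primitive hfc half ht
  have hRc : ContinuousOn R (Ioo 0 1) := fun t ht => (hRd t ht).continuousAt.continuousWithinAt
  have hconst : ∀ t ∈ Ioo (0:ℝ) 1,
      G (F t) (v t) - R t = G (F (1/2)) (v (1/2)) - R (1/2) := by
    intro t₀ ht₀
    ext e
    set w : ℝ → ℝ := fun t => (G (F t) (v t) - R t) e with hw
    have hwc : ContinuousOn w (Ioo 0 1) := (hpc.sub hRc).clm_apply continuousOn_const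
    set α := min t₀ (1/2) / 2 with hα
    set β := (max t₀ (1/2) + 1) / 2 with hβ
    have hmin0 : 0 < min t₀ (1/2) := lt_min ht₀.1 (by norm_num)
    have hmax1 : max t₀ (1/2) < 1 := max_lt ht₀.2 (by norm_num)
    have hα0 : 0 < α := by rw [hα]; linarith
    have hβ1 : β < 1 := by rw [hβ]; linarith
    have hαt : α < t₀ := by
      have := min_le_left t₀ (1/2); rw [hα]; linarith
    have hαh : α < 1/2 := by
      have := min_le_right t₀ (1/2); rw [hα]; linarith
    have htβ : t₀ < β := by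
      have := le_max_left t₀ (1/2); rw [hβ]; linarith
    have hhβ : 1/2 < β := by
      have := le_max_right t₀ (1/2); rw [hβ]; linarith
    have hαβ : α < β := hαt.trans htβ
    have hαm : α ∈ Ioo (0:ℝ) 1 := ⟨hα0, by linarith⟩
    have hβm : β ∈ Ioo (0:ℝ) 1 := ⟨by linarith, hβ1⟩
    have hsub : Icc α β ⊆ Ioo (0:ℝ) 1 := fun t ht => ⟨by linarith [ht.1], by linarith [ht.2]⟩
    have hint : ∀ f : ℝ → ℝ, ContinuousOn f (Ioo 0 1) → IntervalIntegrable f volume α β :=
      fun f hf => (hf.mono hsub).intervalIntegrable_of_Icc hαβ.le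
    set cc := (β - α)⁻¹ * ∫ s in α..β, w s with hcc
    set φ : ℝ → ℝ := fun u => ∫ s in α..u, (w s - cc) with hφ
    have hwcc : ContinuousOn (fun s => w s - cc) (Ioo 0 1) := hwc.sub continuousOn_const
    have hφd : ∀ t ∈ Ioo (0:ℝ) 1, HasDerivAt φ (w t - cc) t := fun t ht =>
      hasDerivAt_primitive hwcc hαm ht
    have hφc : ContinuousOn φ (Ioo 0 1) :=
      fun t ht => (hφd t ht).continuousAt.continuousWithinAt
    have hφα : φ α = 0 := by simp [hφ]
    have hφβ : φ β = 0 := by
      simp only [hφ]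
      rw [intervalIntegral.integral_sub (hint w hwc) intervalIntegrable_const,
        intervalIntegral.integral_const, smul_eq_mul, hcc, ← mul_assoc,
        mul_inv_cancel₀ (by linarith : β - α ≠ 0).symm.symm, one_mul, sub_self]
    have hηd : ∀ t ∈ Ioo (0:ℝ) 1, HasDerivAt (fun t => φ t • e) ((w t - cc) • e) t :=
      fun t ht => (hφd t ht).smul_const e
    have hηC : ∀ t ∈ Ioo (0:ℝ) 1, ContDiffAt ℝ 1 (fun t => φ t • e) t :=
      contDiffAt_one_of_hasDerivAt isOpen_Ioo (hwcc.smul continuousOn_const) hηd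
    have hvar := first_variation h hD hFU hFc hvc hv hspeed hmin hα0 hαβ.le hβ1
      (η := fun t => φ t • e) (fun t ht => hηC t (hsub ht)) (by simp [hφα]) (by simp [hφβ])
    have hforce : ContinuousOn (fun t => force G (F t) (v t) e) (Ioo 0 1) :=
      hfc.clm_apply continuousOn_const
    have hGe : ContinuousOn (fun t => G (F t) (v t) e) (Ioo 0 1) :=
      hpc.clm_apply continuousOn_const
    have hRe : ContinuousOn (fun t => R t e) (Ioo 0 1) := hRc.clm_apply continuousOn_const
    have h1 : ∫ t in α..β, (φ t * force G (F t) (v t) e + (w t - cc) * G (F t) (v t) e) = 0 := by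
      have h2 : ∫ t in α..β, dq G (F t) (v t) (φ t • e) (deriv (fun t => φ t • e) t)
          = ∫ t in α..β, 2 * (φ t * force G (F t) (v t) e + (w t - cc) * G (F t) (v t) e) := by
        apply intervalIntegral.integral_congr
        intro t ht
        rw [uIcc_of_le hαβ.le] at ht
        simp only
        rw [(hηd t (hsub ht)).deriv, force_apply]
        unfold dq
        simp only [map_smul, smul_apply, add_apply, smul_eq_mul]
        rw [h.symm (F t) (hFU t) e (v t)]
        ring
      rw [h2, intervalIntegral.integral_const_mul] at hvar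
      linarith
    have h3 : ∫ t in α..β, ((w t - cc) * R t e + φ t * force G (F t) (v t) e) = 0 := by
      have h4 : ∀ t ∈ uIcc α β, HasDerivAt (fun t => φ t * R t e)
          ((w t - cc) * R t e + φ t * force G (F t) (v t) e) t := by
        intro t ht
        rw [uIcc_of_le hαβ.le] at ht
        have h5 : HasDerivAt (fun t => R t e) (force G (F t) (v t) e) t := by
          simpa using (hRd t (hsub ht)).clm_apply (hasDerivAt_const t e)
        exact (hφd t (hsub ht)).mul h5
      rw [intervalIntegral.integral_eq_sub_of_hasDerivAt h4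
        (hint _ ((hwcc.mul hRe).add (hφc.mul hforce))), hφα, hφβ]
      simp
    have h6 : ∫ t in α..β, (w t - cc) = 0 := hφβ
    have h7 : ∫ t in α..β, (w t - cc) ^ 2 = 0 := by
      have h8 : ∫ t in α..β, (w t - cc) ^ 2
          = (∫ t in α..β, (φ t * force G (F t) (v t) e + (w t - cc) * G (F t) (v t) e))
          - (∫ t in α..β, ((w t - cc) * R t e + φ t * force G (F t) (v t) e))
          - cc * ∫ t in α..β, (w t - cc) := by
        rw [← intervalIntegral.integral_const_mul, ← intervalIntegral.integral_sub,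
          ← intervalIntegral.integral_sub]
        · apply intervalIntegral.integral_congr
          intro t _
          simp only [hw, sub_apply]
          ring
        · exact hint _ (((hφc.mul hforce).add (hwcc.mul hGe)).sub
            ((hwcc.mul hRe).add (hφc.mul hforce)))
        · exact hint _ (continuousOn_const.mul hwcc)
        · exact hint _ ((hφc.mul hforce).add (hwcc.mul hGe))
        · exact hint _ ((hwcc.mul hRe).add (hφc.mul hforce))
      rw [h8, h1, h3, h6]; ring
    have e1 : w t₀ - cc = 0 := eq_zero_of_integral_sq hwcc hα0 hβ1 h7 ⟨hαt, htβ⟩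
    have e2 : w (1/2) - cc = 0 := eq_zero_of_integral_sq hwcc hα0 hβ1 h7 ⟨hαh, hhβ⟩
    show w t₀ = w (1/2)
    linarith
  intro t ht
  have h9 : HasDerivAt (fun t => (G (F (1/2)) (v (1/2)) - R (1/2)) + R t)
      (force G (F t) (v t)) t := (hRd t ht).const_add _
  apply h9.congr_of_eventuallyEq
  filter_upwards [isOpen_Ioo.mem_nhds ht] with s hs
  rw [← hconst s hs]
  abel

end Run7.h60
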