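import Pool.Agent.Run7.h60.Reg3b
import Pool.Agent.Run7.h60.Ode

/-! Minimising metric geodesics are smooth. -/

set_option maxSynthPendingDepth 3

open Set MeasureTheory intervalIntegral Filter
open scoped Topology ContDiff

namespace Run7.h60

variable {E : Type*} [NormedAddCommGroup E] [NormedSpace ℝ E]

namespace MetricOn

variable {G : E → E →L[ℝ] E →L[ℝ] ℝ} {U : Set E}

lemma exists_equiv [FiniteDimensional ℝ E] (h : MetricOn G U) {x : E} (hx : x ∈ U) :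
    ∃ e : E ≃L[ℝ] (E →L[ℝ] ℝ), (e : E →L[ℝ] E →L[ℝ] ℝ) = G x := by
  have hinj : Function.Injective ((G x : E →L[ℝ] E →L[ℝ] ℝ) : E →ₗ[ℝ] (E →L[ℝ] ℝ)) := by
    rw [← LinearMap.ker_eq_bot, LinearMap.ker_eq_bot']
    intro v hv
    by_contra hne
    have h1 := h.pos x hx v hne
    have h2 : G x v = 0 := hv
    rw [h2] at h1
    simp at h1
  have hfin : Module.finrank ℝ E = Module.finrank ℝ (E →L[ℝ] ℝ) := by
    have h1 : Module.finrank ℝ (E →ₗ[ℝ] ℝ) = Module.finrank ℝ (E →L[ℝ] ℝ) :=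
      (LinearMap.toContinuousLinearMap (𝕜 := ℝ) (E := E) (F' := ℝ)).finrank_eq
    rw [← h1]
    exact (Subspace.dual_finrank_eq (K := ℝ) (V := E)).symm
  refine ⟨(LinearMap.linearEquivOfInjective _ hinj hfin).toContinuousLinearEquiv, ?_⟩
  ext v w
  simp

lemma inverse_apply [FiniteDimensional ℝ E] (h : MetricOn G U) {x : E} (hx : x ∈ U) (v : E) :
    (G x).inverse (G x v) = v := by
  obtain ⟨e, he⟩ := h.exists_equiv hx
  rw [← he, ContinuousLinearMap.inverse_equiv]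
  simp

lemma contDiffOn_inverse [FiniteDimensional ℝ E] (h : MetricOn G U) :
    ContDiffOn ℝ ∞ (fun x => (G x).inverse) U := by
  have hcomp : CompleteSpace E := FiniteDimensional.complete ℝ E
  intro x hx
  obtain ⟨e, he⟩ := h.exists_equiv hx
  have h1 : ContDiffAt ℝ ∞ ContinuousLinearMap.inverse (G x) := by
    rw [← he]; exact contDiffAt_map_inverse e
  exact h1.comp_contDiffWithinAt x (h.smooth x hx)

end MetricOn

/-- The Hamiltonian vector field. -/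
noncomputable def ham (G : E → E →L[ℝ] E →L[ℝ] ℝ) (z : E × (E →L[ℝ] ℝ)) : E × (E →L[ℝ] ℝ) :=
  ((G z.1).inverse z.2, force G z.1 ((G z.1).inverse z.2))

lemma contDiffOn_force {V : Type*} [NormedAddCommGroup V] [NormedSpace ℝ V]
    {G : E → E →L[ℝ] E →L[ℝ] ℝ} {U : Set E} (h : MetricOn G U) {P : Set V} {c w : V → E}
    (hc : ContDiffOn ℝ ∞ c P) (hw : ContDiffOn ℝ ∞ w P) (hU : MapsTo c P U) :
    ContDiffOn ℝ ∞ (fun x => force G (c x) (w x)) P := by
  have h0 : ContDiffOn ℝ ∞ (fderiv ℝ G) U :=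
    h.smooth.fderiv_of_isOpen h.isOpen (by simp)
  have c6 : ContDiffOn ℝ ∞ (fun x => fderiv ℝ G (c x)) P := h0.comp hc hU
  unfold force
  have c7 : ContDiffOn ℝ ∞ (fun x => (fderiv ℝ G (c x)).flip) P :=
    (ContinuousLinearMap.flipₗᵢ ℝ E E (E →L[ℝ] ℝ)).contDiff.comp_contDiffOn c6
  have c8 : ContDiffOn ℝ ∞ (fun x => ((fderiv ℝ G (c x)).flip (w x)).flip) P :=
    (ContinuousLinearMap.flipₗᵢ ℝ E E ℝ).contDiff.comp_contDiffOn (c7.clm_apply hw)
  exact (c8.clm_apply hw).const_smul (1/2:ℝ)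

lemma contDiffOn_ham [FiniteDimensional ℝ E] {G : E → E →L[ℝ] E →L[ℝ] ℝ} {U : Set E}
    (h : MetricOn G U) :
    ContDiffOn ℝ ∞ (ham G) (U ×ˢ (univ : Set (E →L[ℝ] ℝ))) := by
  have h1 : MapsTo (fun z : E × (E →L[ℝ] ℝ) => z.1) (U ×ˢ (univ : Set (E →L[ℝ] ℝ))) U :=
    fun z hz => hz.1
  have h2 : ContDiffOn ℝ ∞ (fun z : E × (E →L[ℝ] ℝ) => (G z.1).inverse z.2)
      (U ×ˢ (univ : Set (E →L[ℝ] ℝ))) :=
    (h.contDiffOn_inverse.comp contDiffOn_fst h1).clm_apply contDiffOn_snd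
  exact h2.prodMk (contDiffOn_force h contDiffOn_fst h2 h1)

end Run7.h60
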