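import Pool.Agent.Run7.h60.RotSymp

/-!
# The group of the symplectomorphisms which commute with the rotations of a plane is contractible
-/

set_option autoImplicit false
set_option maxHeartbeats 1000000

open scoped ContDiff Topology
open MeasureTheory Set Metric

namespace Pool.Agent.Run7.h60.Rot

open Pool.Agent.W5h83.HG Pool.Agent.W71.EC

variable {n : ℕ}

theorem eval_cont (p : R2 n) : Continuous (fun φ : SympCt n => φ.toEquiv p) :=
  (JS.of_continuous (P := SympCt n) (f := fun φ => φ) continuous_id 0).cont.comp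
    (continuous_id.prodMk continuous_const)

theorem Pres_closed (j : Fin n) : IsClosed {φ : SympCt n | Pres j φ} := by
  have h : {φ : SympCt n | Pres j φ} = ⋂ p, {φ | nj j (φ.toEquiv p) = nj j p} := by
    ext φ
    simp [Pres]
  rw [h]
  exact isClosed_iInter fun p =>
    isClosed_eq ((nj_smooth j).continuous.comp (eval_cont p)) continuous_const

/-- continuity on the subset may be checked on the maps with support in a given compact set -/
theorem cont_of_steps {j : Fin n} {Y : Type*} [TopologicalSpace Y] (h : S j → Y)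
    (hK : ∀ K : TopologicalSpace.Compacts (R2 n),
      @Continuous {φ : supportedIn (K : Set (R2 n)) // Pres j φ.1} Y
        (@instTopologicalSpaceSubtype _ _ (smoothTopology (K : Set (R2 n)))) _
        (fun φ => h ⟨φ.1.1, φ.2⟩)) : Continuous h := by
  rw [continuous_iff_isClosed]
  intro V hV
  have h1 : IsClosed (Subtype.val '' (h ⁻¹' V) : Set (SympCt n)) := by
    refine isClosed_iSup_iff.2 fun K => ?_
    refine isClosed_coinduced.2 ?_
    let _ : TopologicalSpace (supportedIn (K : Set (R2 n))) := smoothTopology (K : Set (R2 n))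
    have h2 : IsClosed {φ : supportedIn (K : Set (R2 n)) | Pres j φ.1} :=
      (Pres_closed j).preimage (continuous_val _ K.isCompact)
    have h3 := hV.preimage (hK K)
    have h4 := h2.isClosedEmbedding_subtypeVal.isClosedMap _ h3
    convert h4 using 1
    ext φ
    constructor
    · rintro ⟨χ, hχ, hχφ⟩
      refine ⟨⟨φ, ?_⟩, ?_, rfl⟩
      · show Pres j φ.1
        rw [← hχφ]
        exact χ.2
      · show h ⟨φ.1, _⟩ ∈ V
        have : (⟨φ.1, hχφ ▸ χ.2⟩ : S j) = χ := Subtype.ext hχφ.symm
        rw [this]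
        exact hχ
    · rintro ⟨χ, hχ, hχφ⟩
      refine ⟨⟨χ.1.1, χ.2⟩, hχ, ?_⟩
      rw [← hχφ]
  have h2 : h ⁻¹' V = Subtype.val ⁻¹' (Subtype.val '' (h ⁻¹' V) : Set (SympCt n)) :=
    (Set.preimage_image_eq _ Subtype.val_injective).symm
  rw [h2]
  exact h1.preimage continuous_subtype_val

/-- the contraction -/
noncomputable def ctr (j : Fin n) (φ : S j) (t : unitInterval) : S j :=
  open Classical in
  if h : (t : ℝ) = 1 then oneS j else
    Cut j (φ, ⟨(t : ℝ) / (1 - t), div_nonneg t.2.1 (sub_nonneg.2 t.2.2)⟩)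

theorem ctr_eq {j : Fin n} (φ : S j) (t : unitInterval) {m : ℝ}
    (hm : φ.1 ∈ supportedIn (closedBall (0 : R2 n) m)) {M : ℝ} (hM : 2 * m ^ 2 < M)
    (hM0 : 0 ≤ M) (h0 : 0 ≤ (t : ℝ) / max (1 - (t : ℝ)) (1 / (1 + M))) :
    ctr j φ t = Cut j (φ, ⟨(t : ℝ) / max (1 - (t : ℝ)) (1 / (1 + M)), h0⟩) := by
  have hM1 : 0 < 1 + M := by linarith
  have hM2 : 0 < 1 / (1 + M) := by positivity
  unfold ctr
  rcases le_or_gt (1 / (1 + M)) (1 - (t : ℝ)) with h | h
  · have h1 : (t : ℝ) ≠ 1 := by
      intro h1
      rw [h1] at h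
      linarith
    rw [dif_neg h1]
    congr 2
    refine Subtype.ext ?_
    show (t : ℝ) / (1 - t) = (t : ℝ) / max (1 - (t : ℝ)) (1 / (1 + M))
    rw [max_eq_left h]
  · have ht : M / (1 + M) < (t : ℝ) := by
      have : M / (1 + M) = 1 - 1 / (1 + M) := by
        field_simp
        ring
      rw [this]
      linarith
    have h2 : M < (t : ℝ) / max (1 - (t : ℝ)) (1 / (1 + M)) := by
      rw [max_eq_right h.le, lt_div_iff₀ hM2]
      have : M * (1 / (1 + M)) = M / (1 + M) := by ring
      rw [this]
      exact ht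
    rw [Cut_big φ hm ⟨_, h0⟩ (hM.trans h2)]
    split_ifs with h1
    · rfl
    · refine Cut_big φ hm _ ?_
      show 2 * m ^ 2 < (t : ℝ) / (1 - t)
      have h3 : 0 < 1 - (t : ℝ) := by
        have := t.2.2
        rcases lt_or_eq_of_le this with h4 | h4
        · linarith
        · exact absurd h4 h1
      have h4 : M < (t : ℝ) / (1 - t) := by
        rw [lt_div_iff₀ h3]
        have h5 : M * (1 - (t : ℝ)) ≤ M * (1 / (1 + M)) := mul_le_mul_of_nonneg_left h.le hM0
        have : M * (1 / (1 + M)) = M / (1 + M) := by ring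
        linarith
      linarith

theorem ctr_cont_step (j : Fin n) (K : TopologicalSpace.Compacts (R2 n)) :
    @Continuous ({φ : supportedIn (K : Set (R2 n)) // Pres j φ.1} × unitInterval) (S j)
      (@instTopologicalSpaceProd _ _
        (@instTopologicalSpaceSubtype _ _ (smoothTopology (K : Set (R2 n)))) _) _
        (fun z => ctr j ⟨z.1.1.1, z.1.2⟩ z.2) := by
  let _ : TopologicalSpace (supportedIn (K : Set (R2 n))) := smoothTopology (K : Set (R2 n))
  obtain ⟨r, hr⟩ := K.isCompact.isBounded.subset_closedBall (0 : R2 n)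
  have hsup : ∀ φ : supportedIn (K : Set (R2 n)), φ.1 ∈ supportedIn (closedBall (0 : R2 n) r) :=
    fun φ => Pool.Agent.W5h83.HG.supp_mono hr φ.2
  set M : ℝ := 2 * r ^ 2 + 1 with hM
  have hM0 : 0 ≤ M := by positivity
  have hM1 : 2 * r ^ 2 < M := by linarith
  have hmax : ∀ t : unitInterval, 0 < max (1 - (t : ℝ)) (1 / (1 + M)) := fun t =>
    lt_of_lt_of_le (by positivity) (le_max_right _ _)
  have h0 : ∀ t : unitInterval, 0 ≤ (t : ℝ) / max (1 - (t : ℝ)) (1 / (1 + M)) := fun t =>
    div_nonneg t.2.1 (hmax t).le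
  let a : {φ : supportedIn (K : Set (R2 n)) // Pres j φ.1} × unitInterval →
      S j × {s : ℝ // 0 ≤ s} := fun z => (⟨z.1.1.1, z.1.2⟩, ⟨_, h0 z.2⟩)
  have ha : Continuous a := by
    refine Continuous.prodMk ?_ ?_
    · refine Continuous.subtype_mk ?_ _
      exact (continuous_val _ K.isCompact).comp (continuous_subtype_val.comp continuous_fst)
    · refine Continuous.subtype_mk ?_ _
      have h1 : Continuous (fun z : {φ : supportedIn (K : Set (R2 n)) // Pres j φ.1} ×
          unitInterval => (z.2 : ℝ)) := continuous_subtype_val.comp continuous_snd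
      exact h1.div ((continuous_const.sub h1).max continuous_const) fun z => (hmax z.2).ne'
  have h2 : Continuous (fun z => Cut j (a z)) := Cut_cont ha (m := r) fun z => hsup z.1.1
  convert h2 using 1
  funext z
  exact ctr_eq ⟨z.1.1.1, z.1.2⟩ z.2 (hsup z.1.1) hM1 hM0 (h0 z.2)

theorem ctr_zero {j : Fin n} (φ : S j) : ctr j φ 0 = φ := by
  unfold ctr
  rw [dif_neg (by rw [Set.Icc.coe_zero]; norm_num)]
  have h : (⟨((0 : unitInterval) : ℝ) / (1 - ((0 : unitInterval) : ℝ)),
      div_nonneg (0 : unitInterval).2.1 (sub_nonneg.2 (0 : unitInterval).2.2)⟩ :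
      {s : ℝ // 0 ≤ s}) = ⟨0, le_rfl⟩ := by
    refine Subtype.ext ?_
    show ((0 : unitInterval) : ℝ) / (1 - ((0 : unitInterval) : ℝ)) = 0
    rw [Set.Icc.coe_zero, zero_div]
  rw [h, Cut_zero]

theorem ctr_end {j : Fin n} (φ : S j) : ctr j φ 1 = oneS j := by
  unfold ctr
  rw [dif_pos Set.Icc.coe_one]

/-- the contraction is continuous -/
theorem ctr_cont {j : Fin n} : Continuous (fun z : unitInterval × S j => ctr j z.2 z.1) := by
  have hcurry : ∀ φ : S j, Continuous (ctr j φ) := by
    intro φ
    obtain ⟨m, hm⟩ := Pool.Agent.W5h83.HG.exists_ball φ.1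
    let K : TopologicalSpace.Compacts (R2 n) := ⟨closedBall 0 m, isCompact_closedBall _ _⟩
    let _ : TopologicalSpace (supportedIn (K : Set (R2 n))) := smoothTopology (K : Set (R2 n))
    exact (ctr_cont_step j K).comp
      ((continuous_const (y := (⟨⟨φ.1, hm⟩, φ.2⟩ :
        {φ : supportedIn (K : Set (R2 n)) // Pres j φ.1}))).prodMk continuous_id)
  let h : S j → C(unitInterval, S j) := fun φ => ⟨ctr j φ, hcurry φ⟩
  have hh : Continuous h := by
    refine cont_of_steps h fun K => ?_
    let _ : TopologicalSpace (supportedIn (K : Set (R2 n))) := smoothTopology (K : Set (R2 n))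
    refine ContinuousMap.continuous_of_continuous_uncurry _ ?_
    exact ctr_cont_step j K
  have h1 : Continuous (fun z : unitInterval × S j => (h z.2) z.1) :=
    (hh.comp continuous_snd).eval continuous_fst
  exact h1

end Pool.Agent.Run7.h60.Rot
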