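import Pool.Agent.Run7.h60.RotGeo

/-!
# The symplectic cuts of a symplectomorphism which commutes with the rotations of a plane
-/

set_option autoImplicit false
set_option maxHeartbeats 1000000

open scoped ContDiff Topology
open MeasureTheory Set Metric

namespace Pool.Agent.Run7.h60.Rot

open Pool.Agent.W5h83.HG Pool.Agent.W71.EC

variable {n : ℕ}

/-- the point with `z_j = q` and the other coordinates of `w` -/
noncomputable def Pt (j : Fin n) (x : ℝ × R2 n) : R2 n :=
  K j x.2 + x.1 • ((Pi.single j 1, 0) : R2 n)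

theorem Pt1 (j i : Fin n) (q : ℝ) (w : R2 n) : (Pt j (q, w)).1 i = if i = j then q else w.1 i := by
  have h : (Pt j (q, w)).1 i = (K j w).1 i + q * Pi.single (M := fun _ => ℝ) j 1 i := rfl
  rw [h, K1, Pi.single_apply]
  split_ifs <;> ring

theorem Pt2 (j i : Fin n) (q : ℝ) (w : R2 n) : (Pt j (q, w)).2 i = if i = j then 0 else w.2 i := by
  have h : (Pt j (q, w)).2 i = (K j w).2 i + q * 0 := rfl
  rw [h, K2]
  split_ifs <;> ring

theorem Pt_smooth (j : Fin n) : ContDiff ℝ ∞ (Pt j) :=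
  ((K j).contDiff.comp contDiff_snd).add (contDiff_fst.smul contDiff_const)

/-- the map on the half line bundle -/
noncomputable def gg (j : Fin n) (φ : SympCt n) (x : ℝ × R2 n) : R2 n := φ.toEquiv (Pt j x)

theorem gg_jc (j : Fin n) (k : ℕ) : JC k (R2 n) (gg j) :=
  comp' (P := SympCt n) (f := fun φ x => φ.toEquiv x) (g := fun _ => Pt j)
    (JS.of_continuous (P := SympCt n) (f := fun φ => φ) continuous_id k)
    (JC.ofSmooth (Pt_smooth j) k)

noncomputable def g1 (j : Fin n) (φ : SympCt n) (x : ℝ × R2 n) : ℝ := (gg j φ x).1 j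

noncomputable def g2 (j : Fin n) (φ : SympCt n) (x : ℝ × R2 n) : ℝ := (gg j φ x).2 j

theorem g1_jc (j : Fin n) (k : ℕ) : JC k ℝ (g1 j) :=
  lin ((ContinuousLinearMap.proj (R := ℝ) (φ := fun _ : Fin n => ℝ) j).comp
    (ContinuousLinearMap.fst ℝ (Fin n → ℝ) (Fin n → ℝ))) (gg_jc j k)

theorem g2_jc (j : Fin n) (k : ℕ) : JC k ℝ (g2 j) :=
  lin ((ContinuousLinearMap.proj (R := ℝ) (φ := fun _ : Fin n => ℝ) j).comp
    (ContinuousLinearMap.snd ℝ (Fin n → ℝ) (Fin n → ℝ))) (gg_jc j k)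

/-- the subset of the maps which preserve the distance to the hyperplane -/
abbrev S (j : Fin n) : Type := {φ : SympCt n // Pres j φ}

theorem gg_neg {j : Fin n} {φ : SympCt n} (h : Pres j φ) (q : ℝ) (w : R2 n) :
    gg j φ (-q, w) = ro j (-1) 0 (gg j φ (q, w)) := by
  have h1 : Pt j (-q, w) = ro j (-1) 0 (Pt j (q, w)) := by
    refine ext2 (fun i => ?_) fun i => ?_
    · rw [ro1, Pt1, Pt1, Pt1]
      split_ifs <;> simp_all
    · rw [ro2, Pt2, Pt2, Pt2, Pt1]
      split_ifs <;> simp_all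
  unfold gg
  rw [h1, h.ro (by norm_num)]

theorem even_K (j : Fin n) : Even (fun (φ : S j) x => K j (gg j φ.1 x)) := by
  intro φ q w
  show K j (gg j φ.1 (-q, w)) = K j (gg j φ.1 (q, w))
  rw [gg_neg φ.2]
  refine ext2 (fun i => ?_) fun i => ?_
  · rw [K1, K1, ro1]
    split_ifs <;> rfl
  · rw [K2, K2, ro2]
    split_ifs <;> rfl

theorem odd_g1 (j : Fin n) : Odd (fun (φ : S j) x => g1 j φ.1 x) := by
  intro φ q w
  show (gg j φ.1 (-q, w)).1 j = -(gg j φ.1 (q, w)).1 j
  rw [gg_neg φ.2, ro1, if_pos rfl]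
  ring

theorem odd_g2 (j : Fin n) : Odd (fun (φ : S j) x => g2 j φ.1 x) := by
  intro φ q w
  show (gg j φ.1 (-q, w)).2 j = -(gg j φ.1 (q, w)).2 j
  rw [gg_neg φ.2, ro2, if_pos rfl]
  ring

/-- the cut of `φ` at the level `s` -/
noncomputable def Fm (j : Fin n) (φ : SympCt n) (s : ℝ) (w : R2 n) : R2 n :=
  K j (gg j φ (√(nj j w + s), w)) + (hd (g1 j) φ (√(nj j w + s), w) • Z j w +
    hd (g2 j) φ (√(nj j w + s), w) • X j w)

theorem Fm_jc (j : Fin n) (k : ℕ) :
    JC k (R2 n) (fun (q : S j × {s : ℝ // 0 ≤ s}) w => Fm j q.1.1 q.2.1 w) := by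
  have W : ∀ {F : Type} [NormedAddCommGroup F] [NormedSpace ℝ F] [CompleteSpace F]
      {G : S j → ℝ × R2 n → F}, (∀ k, JC k F G) → Even G →
      JC k F (fun (q : S j × {s : ℝ // 0 ≤ s}) w => G q.1 (√(nj j w + q.2.1), w)) := by
    intro F _ _ _ G hG he
    exact whitney (P := S j × {s : ℝ // 0 ≤ s}) (nj_smooth j) (nj_nonneg j) (c := 2)
      (fun w hw w' => nj_quad j w hw w') (by norm_num)
      (σ := fun q => q.2.1) (continuous_subtype_val.comp continuous_snd) (fun q => q.2.2) k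
      (G := fun q => G q.1) (fun k => (hG k).param continuous_fst) (fun q => he q.1)
  have hv : Continuous (Subtype.val : S j → SympCt n) := continuous_subtype_val
  have h1 := W (G := fun φ x => K j (gg j φ.1 x))
    (fun k => lin (K j) ((gg_jc j k).param hv)) (even_K j)
  have hg1 : ∀ k, JC k ℝ (fun (φ : S j) x => g1 j φ.1 x) := fun k => (g1_jc j k).param hv
  have hg2 : ∀ k, JC k ℝ (fun (φ : S j) x => g2 j φ.1 x) := fun k => (g2_jc j k).param hv
  have h2 := W (G := hd (fun (φ : S j) x => g1 j φ.1 x)) (hd_jc hg1)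
    (even_hd (odd_dq hg1 (odd_g1 j)))
  have h3 := W (G := hd (fun (φ : S j) x => g2 j φ.1 x)) (hd_jc hg2)
    (even_hd (odd_dq hg2 (odd_g2 j)))
  have hZ : JC k (R2 n) (fun (_ : S j × {s : ℝ // 0 ≤ s}) w => Z j w) :=
    JC.ofSmooth (Z j).contDiff k
  have hX : JC k (R2 n) (fun (_ : S j × {s : ℝ // 0 ≤ s}) w => X j w) :=
    JC.ofSmooth (X j).contDiff k
  have h4 := JC.bilin (ContinuousLinearMap.lsmul ℝ ℝ (E := R2 n)) h2 hZ
  have h5 := JC.bilin (ContinuousLinearMap.lsmul ℝ ℝ (E := R2 n)) h3 hX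
  exact h1.add (h4.add h5)

theorem Fm_cont (j : Fin n) : Continuous
    (fun z : (S j × {s : ℝ // 0 ≤ s}) × R2 n => Fm j z.1.1.1 z.1.2.1 z.2) := (Fm_jc j 0).cont

theorem Fm1 (j i : Fin n) (φ : SympCt n) (s : ℝ) (w : R2 n) : (Fm j φ s w).1 i =
    if i = j then hd (g1 j) φ (√(nj j w + s), w) * w.1 j - hd (g2 j) φ (√(nj j w + s), w) * w.2 j
      else (gg j φ (√(nj j w + s), w)).1 i := by
  have h : (Fm j φ s w).1 i = (K j (gg j φ (√(nj j w + s), w))).1 i +
    (hd (g1 j) φ (√(nj j w + s), w) * (Z j w).1 i +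
      hd (g2 j) φ (√(nj j w + s), w) * (X j w).1 i) := rfl
  rw [h, K1, Z1, X1]
  split_ifs <;> ring

theorem Fm2 (j i : Fin n) (φ : SympCt n) (s : ℝ) (w : R2 n) : (Fm j φ s w).2 i =
    if i = j then hd (g1 j) φ (√(nj j w + s), w) * w.2 j + hd (g2 j) φ (√(nj j w + s), w) * w.1 j
      else (gg j φ (√(nj j w + s), w)).2 i := by
  have h : (Fm j φ s w).2 i = (K j (gg j φ (√(nj j w + s), w))).2 i +
    (hd (g1 j) φ (√(nj j w + s), w) * (Z j w).2 i +
      hd (g2 j) φ (√(nj j w + s), w) * (X j w).2 i) := rfl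
  rw [h, K2, Z2, X2]
  split_ifs <;> ring

/-- the stretch which maps the complement of the hyperplane to `{|z_j|² > s}` -/
noncomputable def ka (j : Fin n) (s : ℝ) (w : R2 n) : ℝ := √(nj j w + s) / √(nj j w)

noncomputable def st (j : Fin n) (s : ℝ) (w : R2 n) : R2 n := K j w + ka j s w • Z j w

theorem st1 (j i : Fin n) (s : ℝ) (w : R2 n) :
    (st j s w).1 i = if i = j then ka j s w * w.1 j else w.1 i := by
  have h : (st j s w).1 i = (K j w).1 i + ka j s w * (Z j w).1 i := rfl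
  rw [h, K1, Z1]
  split_ifs <;> ring

theorem st2 (j i : Fin n) (s : ℝ) (w : R2 n) :
    (st j s w).2 i = if i = j then ka j s w * w.2 j else w.2 i := by
  have h : (st j s w).2 i = (K j w).2 i + ka j s w * (Z j w).2 i := rfl
  rw [h, K2, Z2]
  split_ifs <;> ring

theorem ka_sq {j : Fin n} {s : ℝ} (hs : 0 ≤ s) {w : R2 n} (hw : 0 < nj j w) :
    ka j s w ^ 2 * nj j w = nj j w + s := by
  unfold ka
  rw [div_pow, Real.sq_sqrt (by positivity), Real.sq_sqrt hw.le]
  field_simp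

theorem ka_pos {j : Fin n} {s : ℝ} (hs : 0 ≤ s) {w : R2 n} (hw : 0 < nj j w) : 0 < ka j s w := by
  unfold ka
  have : 0 < nj j w + s := by linarith
  exact div_pos (Real.sqrt_pos.2 this) (Real.sqrt_pos.2 hw)

theorem nj_st {j : Fin n} {s : ℝ} (hs : 0 ≤ s) {w : R2 n} (hw : 0 < nj j w) :
    nj j (st j s w) = nj j w + s := by
  rw [← ka_sq hs hw]
  unfold nj
  rw [st1, st2, if_pos rfl, if_pos rfl]
  ring

theorem st_eq {j : Fin n} {s : ℝ} {w : R2 n} (hw : 0 < nj j w) :
    st j s w = ro j (w.1 j / √(nj j w)) (w.2 j / √(nj j w)) (Pt j (√(nj j w + s), w)) := by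
  have h0 := (Real.sqrt_pos.2 hw).ne'
  refine ext2 (fun i => ?_) fun i => ?_
  · rw [st1, ro1, Pt1, Pt2, Pt1]
    split_ifs with hi
    · unfold ka
      field_simp
      try ring
    all_goals simp_all
  · rw [st2, ro2, Pt1, Pt2, Pt2]
    split_ifs with hi
    · unfold ka
      field_simp
      try ring
    all_goals simp_all

theorem unit_vec {j : Fin n} {w : R2 n} (hw : 0 < nj j w) :
    (w.1 j / √(nj j w)) ^ 2 + (w.2 j / √(nj j w)) ^ 2 = 1 := by
  rw [div_pow, div_pow, Real.sq_sqrt hw.le, ← add_div]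
  exact div_self hw.ne'

theorem g1_eq {j : Fin n} {φ : SympCt n} (h : Pres j φ) (q : ℝ) (w : R2 n) :
    (gg j φ (q, w)).1 j = q * hd (g1 j) φ (q, w) := by
  have h1 := hd_eq (g1_jc j) φ q w
  have h2 := odd_zero (odd_g1 j) (⟨φ, h⟩ : S j) w
  have h2' : g1 j φ (0, w) = 0 := h2
  rw [h2', sub_zero] at h1
  exact h1.symm

theorem g2_eq {j : Fin n} {φ : SympCt n} (h : Pres j φ) (q : ℝ) (w : R2 n) :
    (gg j φ (q, w)).2 j = q * hd (g2 j) φ (q, w) := by
  have h1 := hd_eq (g2_jc j) φ q w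
  have h2 := odd_zero (odd_g2 j) (⟨φ, h⟩ : S j) w
  have h2' : g2 j φ (0, w) = 0 := h2
  rw [h2', sub_zero] at h1
  exact h1.symm

theorem rel1 {j : Fin n} {φ : SympCt n} (h : Pres j φ) {s : ℝ} {w : R2 n}
    (hw : 0 < nj j w) (i : Fin n) : (φ.toEquiv (st j s w)).1 i =
      if i = j then ka j s w * (Fm j φ s w).1 j else (Fm j φ s w).1 i := by
  have h0 := (Real.sqrt_pos.2 hw).ne'
  rw [st_eq hw, h.ro (unit_vec hw), ro1]
  have e : φ.toEquiv (Pt j (√(nj j w + s), w)) = gg j φ (√(nj j w + s), w) := rfl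
  rw [e]
  split_ifs with hi
  · rw [Fm1, if_pos rfl, g1_eq h, g2_eq h]
    unfold ka
    field_simp
    try ring
  · rw [Fm1, if_neg hi]

theorem rel2 {j : Fin n} {φ : SympCt n} (h : Pres j φ) {s : ℝ} {w : R2 n}
    (hw : 0 < nj j w) (i : Fin n) : (φ.toEquiv (st j s w)).2 i =
      if i = j then ka j s w * (Fm j φ s w).2 j else (Fm j φ s w).2 i := by
  have h0 := (Real.sqrt_pos.2 hw).ne'
  rw [st_eq hw, h.ro (unit_vec hw), ro2]
  have e : φ.toEquiv (Pt j (√(nj j w + s), w)) = gg j φ (√(nj j w + s), w) := rfl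
  rw [e]
  split_ifs with hi
  · rw [Fm2, if_pos rfl, g1_eq h, g2_eq h]
    unfold ka
    field_simp
    try ring
  · rw [Fm2, if_neg hi]

theorem nj_Fm_pos {j : Fin n} {φ : SympCt n} (h : Pres j φ) {s : ℝ} (hs : 0 ≤ s) {w : R2 n}
    (hw : 0 < nj j w) : nj j (Fm j φ s w) = nj j w := by
  have h1 : nj j (φ.toEquiv (st j s w)) = ka j s w ^ 2 * nj j (Fm j φ s w) := by
    unfold nj
    rw [rel1 h hw, rel2 h hw, if_pos rfl, if_pos rfl]
    ring
  rw [h, nj_st hs hw, ← ka_sq hs hw] at h1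
  have h2 := (pow_pos (ka_pos hs hw) 2).ne'
  exact (mul_left_cancel₀ h2 h1).symm

/-- **The cut is conjugate to the map by the stretch.** -/
theorem st_Fm {j : Fin n} {φ : SympCt n} (h : Pres j φ) {s : ℝ} (hs : 0 ≤ s) {w : R2 n}
    (hw : 0 < nj j w) : st j s (Fm j φ s w) = φ.toEquiv (st j s w) := by
  have hk : ka j s (Fm j φ s w) = ka j s w := by
    unfold ka
    rw [nj_Fm_pos h hs hw]
  refine ext2 (fun i => ?_) fun i => ?_
  · rw [st1, rel1 h hw, hk]
  · rw [st2, rel2 h hw, hk]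

theorem st_inj {j : Fin n} {s : ℝ} (hs : 0 ≤ s) {w w' : R2 n} (hw : 0 < nj j w)
    (hw' : 0 < nj j w') (h : st j s w = st j s w') : w = w' := by
  have h1 : nj j w = nj j w' := by
    have := congrArg (nj j) h
    rw [nj_st hs hw, nj_st hs hw'] at this
    linarith
  have hk : ka j s w = ka j s w' := by
    unfold ka
    rw [h1]
  have h2 := (ka_pos hs hw').ne'
  refine ext2 (fun i => ?_) fun i => ?_
  · have := congrArg (fun p => p.1 i) h
    simp only [st1, hk] at this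
    split_ifs at this with hi
    · rw [hi]
      exact mul_left_cancel₀ h2 this
    · exact this
  · have := congrArg (fun p => p.2 i) h
    simp only [st2, hk] at this
    split_ifs at this with hi
    · rw [hi]
      exact mul_left_cancel₀ h2 this
    · exact this

theorem dense_pos (j : Fin n) : Dense {w : R2 n | 0 < nj j w} := by
  intro w
  rcases eq_or_lt_of_le (nj_nonneg j w) with h0 | h0
  · obtain ⟨h1, h2⟩ := nj_zero j h0.symm
    have h3 : Filter.Tendsto (fun e : ℝ => w + e • ((Pi.single j 1, 0) : R2 n)) (𝓝[≠] 0)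
        (𝓝 w) := by
      have h4 : Continuous (fun e : ℝ => w + e • ((Pi.single j 1, 0) : R2 n)) := by fun_prop
      have h5 := h4.tendsto 0
      rw [zero_smul, add_zero] at h5
      exact h5.mono_left nhdsWithin_le_nhds
    refine mem_closure_of_tendsto h3 ?_
    filter_upwards [self_mem_nhdsWithin] with e he
    show 0 < nj j (w + e • ((Pi.single j 1, 0) : R2 n))
    have e1 : (w + e • ((Pi.single j 1, 0) : R2 n)).1 j = e := by
      show w.1 j + e * Pi.single (M := fun _ => ℝ) j 1 j = e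
      rw [h1, Pi.single_eq_same]
      ring
    unfold nj
    rw [e1]
    have : 0 < e ^ 2 := by
      have : e ≠ 0 := he
      positivity
    have h6 := sq_nonneg ((w + e • ((Pi.single j 1, 0) : R2 n)).2 j)
    linarith
  · exact subset_closure h0

theorem Fm_continuous {j : Fin n} {φ : SympCt n} (h : Pres j φ) {s : ℝ} (hs : 0 ≤ s) :
    Continuous (Fm j φ s) :=
  (Fm_cont j).comp ((continuous_const (y := ((⟨φ, h⟩, ⟨s, hs⟩) : S j × {s : ℝ // 0 ≤ s}))).prodMk
    continuous_id)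

theorem nj_Fm {j : Fin n} {φ : SympCt n} (h : Pres j φ) {s : ℝ} (hs : 0 ≤ s) (w : R2 n) :
    nj j (Fm j φ s w) = nj j w := by
  have h1 : (fun w => nj j (Fm j φ s w)) = nj j :=
    Continuous.ext_on (dense_pos j) ((nj_smooth j).continuous.comp (Fm_continuous h hs))
      (nj_smooth j).continuous fun w hw => nj_Fm_pos h hs hw
  exact congrFun h1 w

/-- the cuts of the inverse are the inverses of the cuts -/
theorem Fm_inv {j : Fin n} {φ : SympCt n} (h : Pres j φ) {s : ℝ} (hs : 0 ≤ s) (w : R2 n) :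
    Fm j (inv φ) s (Fm j φ s w) = w := by
  have h1 : (fun w => Fm j (inv φ) s (Fm j φ s w)) = id := by
    refine Continuous.ext_on (dense_pos j) ((Fm_continuous h.inv hs).comp (Fm_continuous h hs))
      continuous_id fun w hw => ?_
    have hw1 : 0 < nj j (Fm j φ s w) := by rwa [nj_Fm h hs]
    have hw2 : 0 < nj j (Fm j (inv φ) s (Fm j φ s w)) := by rwa [nj_Fm h.inv hs]
    refine st_inj hs hw2 hw ?_
    rw [st_Fm h.inv hs hw1, st_Fm h hs hw]
    exact Equiv.symm_apply_apply _ _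
  exact congrFun h1 w

theorem inv_inv' (φ : SympCt n) : inv (inv φ) = φ := SympCt.ext' fun _ => rfl

/-- from jointly smooth families to smooth maps -/
theorem contDiff_of_jc {E F : Type} [NormedAddCommGroup E] [NormedSpace ℝ E]
    [NormedAddCommGroup F] [NormedSpace ℝ F] {P : Type} [TopologicalSpace P] {f : P → E → F}
    (hf : ∀ k, JC k F f) (p : P) : ContDiff ℝ ∞ (f p) := by
  have key : ∀ (k : ℕ) {F : Type} [NormedAddCommGroup F] [NormedSpace ℝ F] {f : P → E → F},
      JC k F f → ContDiff ℝ k (f p) := by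
    intro k
    induction k with
    | zero =>
      intro F _ _ f hf
      rw [Nat.cast_zero, contDiff_zero]
      exact hf.cont.comp ((continuous_const (y := p)).prodMk continuous_id)
    | succ k ih =>
      intro F _ _ f hf
      rw [Nat.cast_succ, contDiff_succ_iff_fderiv]
      refine ⟨fun x => hf.2.1 p x, fun h => ?_, ih hf.2.2⟩
      exact absurd h (by simp)
  exact contDiff_infty.2 fun k => key k (hf k)

theorem Fm_smooth {j : Fin n} {φ : SympCt n} (h : Pres j φ) {s : ℝ} (hs : 0 ≤ s) :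
    ContDiff ℝ ∞ (Fm j φ s) :=
  contDiff_of_jc (Fm_jc j) ((⟨φ, h⟩, ⟨s, hs⟩) : S j × {s : ℝ // 0 ≤ s})

end Pool.Agent.Run7.h60.Rot
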