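import Pool.Agent.Run7.h60.RotWhit
import Pool.Agent.W5h83.HG.Prod

/-!
# Symplectomorphisms which preserve the distance to the hyperplane `z_j = 0`
-/

set_option autoImplicit false
set_option maxHeartbeats 1000000

open scoped ContDiff Topology
open MeasureTheory Set Metric

namespace Pool.Agent.Run7.h60.Rot

open Pool.Agent.W5h83.HG Pool.Agent.W71.EC

variable {n : ℕ}

/-- the square of the distance to the hyperplane `z_j = 0` -/
def nj (j : Fin n) (p : R2 n) : ℝ := p.1 j ^ 2 + p.2 j ^ 2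

/-- the projection to the plane of `z_j` -/
noncomputable def Z (j : Fin n) : R2 n →L[ℝ] R2 n :=
  (((ContinuousLinearMap.single ℝ (fun _ : Fin n => ℝ) j).comp
    (ContinuousLinearMap.proj j)).comp (ContinuousLinearMap.fst ℝ (Fin n → ℝ) (Fin n → ℝ))).prod
  (((ContinuousLinearMap.single ℝ (fun _ : Fin n => ℝ) j).comp
    (ContinuousLinearMap.proj j)).comp (ContinuousLinearMap.snd ℝ (Fin n → ℝ) (Fin n → ℝ)))

/-- the rotation by `π / 2` in the plane of `z_j` -/
noncomputable def X (j : Fin n) : R2 n →L[ℝ] R2 n :=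
  (-(((ContinuousLinearMap.single ℝ (fun _ : Fin n => ℝ) j).comp
    (ContinuousLinearMap.proj j)).comp (ContinuousLinearMap.snd ℝ (Fin n → ℝ) (Fin n → ℝ)))).prod
  (((ContinuousLinearMap.single ℝ (fun _ : Fin n => ℝ) j).comp
    (ContinuousLinearMap.proj j)).comp (ContinuousLinearMap.fst ℝ (Fin n → ℝ) (Fin n → ℝ)))

/-- the projection which forgets `z_j` -/
noncomputable def K (j : Fin n) : R2 n →L[ℝ] R2 n := ContinuousLinearMap.id ℝ (R2 n) - Z j

theorem Z1 (j i : Fin n) (p : R2 n) : (Z j p).1 i = if i = j then p.1 j else 0 := by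
  have h : (Z j p).1 i = Pi.single (M := fun _ => ℝ) j (p.1 j) i := rfl
  rw [h, Pi.single_apply]

theorem Z2 (j i : Fin n) (p : R2 n) : (Z j p).2 i = if i = j then p.2 j else 0 := by
  have h : (Z j p).2 i = Pi.single (M := fun _ => ℝ) j (p.2 j) i := rfl
  rw [h, Pi.single_apply]

theorem X1 (j i : Fin n) (p : R2 n) : (X j p).1 i = if i = j then -p.2 j else 0 := by
  have h : (X j p).1 i = -(Pi.single (M := fun _ => ℝ) j (p.2 j) i) := rfl
  rw [h, Pi.single_apply]
  split_ifs <;> simp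

theorem X2 (j i : Fin n) (p : R2 n) : (X j p).2 i = if i = j then p.1 j else 0 := by
  have h : (X j p).2 i = Pi.single (M := fun _ => ℝ) j (p.1 j) i := rfl
  rw [h, Pi.single_apply]

theorem K1 (j i : Fin n) (p : R2 n) : (K j p).1 i = if i = j then 0 else p.1 i := by
  have h : (K j p).1 i = p.1 i - (Z j p).1 i := rfl
  rw [h, Z1]
  split_ifs with h1
  · rw [h1, sub_self]
  · rw [sub_zero]

theorem K2 (j i : Fin n) (p : R2 n) : (K j p).2 i = if i = j then 0 else p.2 i := by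
  have h : (K j p).2 i = p.2 i - (Z j p).2 i := rfl
  rw [h, Z2]
  split_ifs with h1
  · rw [h1, sub_self]
  · rw [sub_zero]

theorem KZ (j : Fin n) (p : R2 n) : K j p + Z j p = p := by
  show p - Z j p + Z j p = p
  abel

theorem ext2 {p q : R2 n} (h1 : ∀ i, p.1 i = q.1 i) (h2 : ∀ i, p.2 i = q.2 i) : p = q :=
  Prod.ext (funext h1) (funext h2)

/-- the rotation by the angle with cosine `c` and sine `s` in the plane of `z_j` -/
noncomputable def ro (j : Fin n) (c s : ℝ) (p : R2 n) : R2 n := K j p + (c • Z j p + s • X j p)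

theorem ro1 (j i : Fin n) (c s : ℝ) (p : R2 n) :
    (ro j c s p).1 i = if i = j then c * p.1 j - s * p.2 j else p.1 i := by
  have h : (ro j c s p).1 i = (K j p).1 i + (c * (Z j p).1 i + s * (X j p).1 i) := rfl
  rw [h, K1, Z1, X1]
  split_ifs <;> ring

theorem ro2 (j i : Fin n) (c s : ℝ) (p : R2 n) :
    (ro j c s p).2 i = if i = j then s * p.1 j + c * p.2 j else p.2 i := by
  have h : (ro j c s p).2 i = (K j p).2 i + (c * (Z j p).2 i + s * (X j p).2 i) := rfl
  rw [h, K2, Z2, X2]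
  split_ifs <;> ring

theorem nj_ro (j : Fin n) {c s : ℝ} (h : c ^ 2 + s ^ 2 = 1) (p : R2 n) :
    nj j (ro j c s p) = nj j p := by
  unfold nj
  rw [ro1, ro2, if_pos rfl, if_pos rfl]
  linear_combination (p.1 j ^ 2 + p.2 j ^ 2) * h

theorem omega_X (j : Fin n) (p v : R2 n) :
    omega (X j p) v = -(p.1 j * v.1 j + p.2 j * v.2 j) := by
  unfold omega
  rw [Finset.sum_eq_single j]
  · rw [X1, X2, if_pos rfl, if_pos rfl]
    ring
  · intro i _ hi
    rw [X1, X2, if_neg hi, if_neg hi]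
    ring
  · intro h
    exact absurd (Finset.mem_univ j) h

theorem c1_hasFD (j : Fin n) (p : R2 n) : HasFDerivAt (fun p : R2 n => p.1 j)
    ((ContinuousLinearMap.proj j).comp (ContinuousLinearMap.fst ℝ (Fin n → ℝ) (Fin n → ℝ))) p :=
  ((ContinuousLinearMap.proj (R := ℝ) (φ := fun _ : Fin n => ℝ) j).comp
    (ContinuousLinearMap.fst ℝ (Fin n → ℝ) (Fin n → ℝ))).hasFDerivAt

theorem c2_hasFD (j : Fin n) (p : R2 n) : HasFDerivAt (fun p : R2 n => p.2 j)
    ((ContinuousLinearMap.proj j).comp (ContinuousLinearMap.snd ℝ (Fin n → ℝ) (Fin n → ℝ))) p :=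
  ((ContinuousLinearMap.proj (R := ℝ) (φ := fun _ : Fin n => ℝ) j).comp
    (ContinuousLinearMap.snd ℝ (Fin n → ℝ) (Fin n → ℝ))).hasFDerivAt

theorem nj_smooth (j : Fin n) : ContDiff ℝ ∞ (nj j) := by
  have h1 : ContDiff ℝ ∞ (fun p : R2 n => p.1 j) :=
    ((ContinuousLinearMap.proj (R := ℝ) (φ := fun _ : Fin n => ℝ) j).comp
    (ContinuousLinearMap.fst ℝ (Fin n → ℝ) (Fin n → ℝ))).contDiff
  have h2 : ContDiff ℝ ∞ (fun p : R2 n => p.2 j) :=
    ((ContinuousLinearMap.proj (R := ℝ) (φ := fun _ : Fin n => ℝ) j).comp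
    (ContinuousLinearMap.snd ℝ (Fin n → ℝ) (Fin n → ℝ))).contDiff
  exact (h1.pow 2).add (h2.pow 2)

theorem nj_fderiv (j : Fin n) (p v : R2 n) :
    fderiv ℝ (nj j) p v = 2 * (p.1 j * v.1 j + p.2 j * v.2 j) := by
  have h := ((c1_hasFD j p).pow 2).add ((c2_hasFD j p).pow 2)
  have h2 : fderiv ℝ (nj j) p = _ := h.fderiv
  rw [h2]
  simp only [_root_.add_apply, _root_.smul_apply, ContinuousLinearMap.comp_apply,
    ContinuousLinearMap.proj_apply, ContinuousLinearMap.coe_fst', ContinuousLinearMap.coe_snd',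
    smul_eq_mul, nsmul_eq_mul]
  push_cast
  ring

theorem nj_nonneg (j : Fin n) (p : R2 n) : 0 ≤ nj j p := by
  unfold nj
  positivity

theorem abs_le1 (j : Fin n) (p : R2 n) : |p.1 j| ≤ ‖p‖ :=
  (norm_le_pi_norm p.1 j).trans (norm_fst_le p)

theorem abs_le2 (j : Fin n) (p : R2 n) : |p.2 j| ≤ ‖p‖ :=
  (norm_le_pi_norm p.2 j).trans (norm_snd_le p)

theorem nj_zero (j : Fin n) {p : R2 n} (h : nj j p = 0) : p.1 j = 0 ∧ p.2 j = 0 := by
  unfold nj at h
  have h1 := sq_nonneg (p.1 j)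
  have h2 := sq_nonneg (p.2 j)
  exact ⟨by nlinarith, by nlinarith⟩

theorem nj_quad (j : Fin n) (p : R2 n) (h : nj j p = 0) (q : R2 n) :
    nj j q ≤ (2 * ‖q - p‖) ^ 2 := by
  obtain ⟨h1, h2⟩ := nj_zero j h
  have h3 := abs_le1 j (q - p)
  have h4 := abs_le2 j (q - p)
  have e3 : (q - p).1 j = q.1 j := by
    show q.1 j - p.1 j = _
    rw [h1, sub_zero]
  have e4 : (q - p).2 j = q.2 j := by
    show q.2 j - p.2 j = _
    rw [h2, sub_zero]
  rw [e3] at h3
  rw [e4] at h4
  have h5 := pow_le_pow_left₀ (abs_nonneg _) h3 2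
  have h6 := pow_le_pow_left₀ (abs_nonneg _) h4 2
  rw [sq_abs] at h5 h6
  unfold nj
  nlinarith [sq_nonneg ‖q - p‖]

/-- the maps which preserve the distance to the hyperplane -/
def Pres (j : Fin n) (φ : SympCt n) : Prop := ∀ p, nj j (φ.toEquiv p) = nj j p

theorem Pres.inv {j : Fin n} {φ : SympCt n} (h : Pres j φ) : Pres j (inv φ) := by
  intro p
  have h1 := h (φ.toEquiv.symm p)
  rw [Equiv.apply_symm_apply] at h1
  exact h1.symm

/-- such a map preserves the field of the rotations -/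
theorem Pres.field {j : Fin n} {φ : SympCt n} (h : Pres j φ) (p : R2 n) :
    fderiv ℝ φ.toEquiv p (X j p) = X j (φ.toEquiv p) := by
  have hd : HasFDerivAt φ.toEquiv (fderiv ℝ φ.toEquiv p) p :=
    (φ.smooth.contDiffAt.differentiableAt (by norm_num)).hasFDerivAt
  have h1 : ∀ v, fderiv ℝ (nj j) (φ.toEquiv p) (fderiv ℝ φ.toEquiv p v) =
      fderiv ℝ (nj j) p v := by
    intro v
    have h2 : HasFDerivAt (nj j) (fderiv ℝ (nj j) (φ.toEquiv p)) (φ.toEquiv p) :=
      ((nj_smooth j).contDiffAt.differentiableAt (by norm_num)).hasFDerivAt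
    have h3 := h2.comp p hd
    have h4 : (nj j ∘ φ.toEquiv : R2 n → ℝ) = nj j := funext h
    rw [h4] at h3
    rw [h3.fderiv]
    rfl
  rw [← sub_eq_zero]
  refine omega_nondeg fun w => ?_
  have h5 := inv_left φ.smooth φ.smooth_symm (φ.toEquiv p) w
  rw [Equiv.symm_apply_apply] at h5
  set v := fderiv ℝ φ.toEquiv.symm (φ.toEquiv p) w with hv
  rw [omega_sub_left, ← h5, φ.symplectic, omega_X, omega_X]
  have h6 := h1 v
  rw [nj_fderiv, nj_fderiv] at h6
  linarith

/-- such a map commutes with the rotations -/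
theorem Pres.ro_angle {j : Fin n} {φ : SympCt n} (h : Pres j φ) (θ : ℝ) (p : R2 n) :
    φ.toEquiv (ro j (Real.cos θ) (Real.sin θ) p) =
      ro j (Real.cos θ) (Real.sin θ) (φ.toEquiv p) := by
  set γ : ℝ → R2 n := fun θ => ro j (Real.cos θ) (Real.sin θ) p with hγ
  have hγd : ∀ θ, HasDerivAt γ (X j (γ θ)) θ := by
    intro θ
    have h1 : HasDerivAt γ ((-Real.sin θ) • Z j p + (Real.cos θ) • X j p) θ := by
      have h2 := ((Real.hasDerivAt_cos θ).smul_const (Z j p)).add
        ((Real.hasDerivAt_sin θ).smul_const (X j p))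
      exact h2.const_add (K j p)
    have h3 : X j (γ θ) = (-Real.sin θ) • Z j p + (Real.cos θ) • X j p := by
      refine ext2 (fun i => ?_) fun i => ?_
      · have e : ((-Real.sin θ) • Z j p + (Real.cos θ) • X j p).1 i =
          (-Real.sin θ) * (Z j p).1 i + (Real.cos θ) * (X j p).1 i := rfl
        rw [e, X1, Z1, X1, hγ]
        simp only [ro2, if_true]
        split_ifs <;> ring
      · have e : ((-Real.sin θ) • Z j p + (Real.cos θ) • X j p).2 i =
          (-Real.sin θ) * (Z j p).2 i + (Real.cos θ) * (X j p).2 i := rfl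
        rw [e, X2, Z2, X2, hγ]
        simp only [ro1, if_true]
        split_ifs <;> ring
    rw [h3]
    exact h1
  set u : ℝ → R2 n := fun θ => φ.toEquiv (γ θ) with hu
  have hud : ∀ θ, HasDerivAt u (X j (u θ)) θ := by
    intro θ
    have hd : HasFDerivAt φ.toEquiv (fderiv ℝ φ.toEquiv (γ θ)) (γ θ) :=
      (φ.smooth.contDiffAt.differentiableAt (by norm_num)).hasFDerivAt
    have h1 := hd.comp_hasDerivAt θ (hγd θ)
    rw [h.field] at h1
    exact h1
  have hγ0 : γ 0 = p := by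
    refine ext2 (fun i => ?_) fun i => ?_
    · simp only [hγ, ro1, Real.cos_zero, Real.sin_zero]
      split_ifs with hi
      · rw [hi]; ring
      · rfl
    · simp only [hγ, ro2, Real.cos_zero, Real.sin_zero]
      split_ifs with hi
      · rw [hi]; ring
      · rfl
  have hu0 : u 0 = φ.toEquiv p := by rw [hu]; simp only [hγ0]
  have hc1 : ∀ i θ, HasDerivAt (fun θ => (u θ).1 i) ((X j (u θ)).1 i) θ := by
    intro i θ
    exact (c1_hasFD i (u θ)).comp_hasDerivAt θ (hud θ)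
  have hc2 : ∀ i θ, HasDerivAt (fun θ => (u θ).2 i) ((X j (u θ)).2 i) θ := by
    intro i θ
    exact (c2_hasFD i (u θ)).comp_hasDerivAt θ (hud θ)
  have hcon : ∀ (a : ℝ → ℝ), (∀ θ, HasDerivAt a 0 θ) → a θ = a 0 := by
    intro a ha
    exact is_const_of_deriv_eq_zero (fun θ => (ha θ).differentiableAt) (fun θ => (ha θ).deriv) _ _
  have ha : Real.cos θ * (u θ).1 j + Real.sin θ * (u θ).2 j = (u 0).1 j := by
    have := hcon (fun θ => Real.cos θ * (u θ).1 j + Real.sin θ * (u θ).2 j) (fun θ => by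
      have h1 := ((Real.hasDerivAt_cos θ).mul (hc1 j θ)).add
        ((Real.hasDerivAt_sin θ).mul (hc2 j θ))
      rw [X1, X2, if_pos rfl, if_pos rfl] at h1
      exact h1.congr_deriv (by ring))
    simpa using this
  have hb : -Real.sin θ * (u θ).1 j + Real.cos θ * (u θ).2 j = (u 0).2 j := by
    have := hcon (fun θ => -Real.sin θ * (u θ).1 j + Real.cos θ * (u θ).2 j) (fun θ => by
      have h1 := (((Real.hasDerivAt_sin θ).neg).mul (hc1 j θ)).add
        ((Real.hasDerivAt_cos θ).mul (hc2 j θ))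
      rw [X1, X2, if_pos rfl, if_pos rfl] at h1
      exact h1.congr_deriv (by rw [Pi.neg_apply]; ring))
    simpa using this
  have hcs := Real.cos_sq_add_sin_sq θ
  have hi1 : ∀ i, i ≠ j → (u θ).1 i = (u 0).1 i := by
    intro i hi
    refine hcon (fun θ => (u θ).1 i) fun θ => ?_
    have h1 := hc1 i θ
    rwa [X1, if_neg hi] at h1
  have hi2 : ∀ i, i ≠ j → (u θ).2 i = (u 0).2 i := by
    intro i hi
    refine hcon (fun θ => (u θ).2 i) fun θ => ?_
    have h1 := hc2 i θ
    rwa [X2, if_neg hi] at h1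
  show u θ = _
  rw [← hu0]
  refine ext2 (fun i => ?_) fun i => ?_
  · rw [ro1]
    split_ifs with hi
    · rw [hi, ← ha, ← hb]
      linear_combination (-(u θ).1 j) * hcs
    · exact hi1 i hi
  · rw [ro2]
    split_ifs with hi
    · rw [hi, ← ha, ← hb]
      linear_combination (-(u θ).2 j) * hcs
    · exact hi2 i hi

theorem exists_angle {c s : ℝ} (h : c ^ 2 + s ^ 2 = 1) : ∃ θ : ℝ, c = Real.cos θ ∧ s = Real.sin θ := by
  have hn : ‖(⟨c, s⟩ : ℂ)‖ = 1 := by
    have h1 : ‖(⟨c, s⟩ : ℂ)‖ ^ 2 = 1 := by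
      rw [← Complex.normSq_eq_norm_sq, Complex.normSq_mk]
      linarith [h]
    have h2 := norm_nonneg (⟨c, s⟩ : ℂ)
    nlinarith
  have h0 : (⟨c, s⟩ : ℂ) ≠ 0 := by
    intro h0
    rw [h0, norm_zero] at hn
    exact zero_ne_one hn
  refine ⟨Complex.arg ⟨c, s⟩, ?_, ?_⟩
  · rw [Complex.cos_arg h0, hn, div_one]
  · rw [Complex.sin_arg, hn, div_one]

theorem Pres.ro {j : Fin n} {φ : SympCt n} (h : Pres j φ) {c s : ℝ} (hcs : c ^ 2 + s ^ 2 = 1)
    (p : R2 n) : φ.toEquiv (ro j c s p) = ro j c s (φ.toEquiv p) := by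
  obtain ⟨θ, rfl, rfl⟩ := exists_angle hcs
  exact h.ro_angle θ p

end Pool.Agent.Run7.h60.Rot
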