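import Pool.Agent.Run7.h60.RotContr

/-!
# Centralisers, conjugates
-/

set_option autoImplicit false
set_option maxHeartbeats 1000000

open scoped ContDiff Topology
open MeasureTheory Set Metric

namespace Pool.Agent.Run7.h60.Rot

open Pool.Agent.W5h83.HG Pool.Agent.W71.EC

variable {n : ℕ}

/-! ## Maps which commute with linear maps -/

/-- a linear symplectic map which commutes with the rotations of the plane of `z_j` -/
structure Good (j : Fin n) (l : R2 n →L[ℝ] R2 n) : Prop where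
  symp : ∀ u v, omega (l u) (l v) = omega u v
  comm : ∀ c s : ℝ, c ^ 2 + s ^ 2 = 1 → ∀ p, l (ro j c s p) = ro j c s (l p)

theorem Good.K {j : Fin n} {l : R2 n →L[ℝ] R2 n} (h : Good j l) (p : R2 n) :
    l (K j p) = K j (l p) ∧ l (Z j p) = Z j (l p) ∧ l (X j p) = X j (l p) := by
  have h1 := h.comm (-1) 0 (by norm_num) p
  have h2 := h.comm 0 1 (by norm_num) p
  unfold ro at h1 h2
  simp only [zero_smul, one_smul, neg_smul, add_zero, zero_add, map_add, map_neg] at h1 h2
  have h3 : l (Rot.K j p) + l (Z j p) = Rot.K j (l p) + Z j (l p) := by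
    rw [← map_add, KZ, KZ]
  have h4 : (2 : ℝ) • l (Rot.K j p) = (2 : ℝ) • Rot.K j (l p) := by
    rw [two_smul, two_smul]
    calc l (Rot.K j p) + l (Rot.K j p) =
        (l (Rot.K j p) + -l (Z j p)) + (l (Rot.K j p) + l (Z j p)) := by abel
      _ = (Rot.K j (l p) + -Z j (l p)) + (Rot.K j (l p) + Z j (l p)) := by rw [h1, h3]
      _ = _ := by abel
  have h5 : l (Rot.K j p) = Rot.K j (l p) := smul_right_injective _ two_ne_zero h4
  refine ⟨h5, ?_, ?_⟩
  · rw [h5] at h3
    exact add_left_cancel h3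
  · rw [h5] at h2
    exact add_left_cancel h2

theorem omega_X_self (j : Fin n) (p : R2 n) : omega (X j p) p = -nj j p := by
  rw [omega_X]
  unfold nj
  ring

theorem Good.nj {j : Fin n} {l : R2 n →L[ℝ] R2 n} (h : Good j l) (p : R2 n) :
    Rot.nj j (l p) = Rot.nj j p := by
  have h1 := omega_X_self j (l p)
  rw [← (h.K p).2.2, h.symp, omega_X_self] at h1
  linarith

theorem Good.st {j : Fin n} {l : R2 n →L[ℝ] R2 n} (h : Good j l) (s : ℝ) (p : R2 n) :
    Rot.st j s (l p) = l (Rot.st j s p) := by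
  have hk : ka j s (l p) = ka j s p := by
    unfold ka
    rw [h.nj]
  unfold Rot.st
  rw [hk, map_add, map_smul, (h.K p).1, (h.K p).2.1]

theorem Good.Fm {j : Fin n} {l : R2 n →L[ℝ] R2 n} (h : Good j l) {φ : SympCt n} (hφ : Pres j φ)
    (hl : ∀ p, φ.toEquiv (l p) = l (φ.toEquiv p)) {s : ℝ} (hs : 0 ≤ s) (w : R2 n) :
    Rot.Fm j φ s (l w) = l (Rot.Fm j φ s w) := by
  have h1 : (fun w => Rot.Fm j φ s (l w)) = fun w => l (Rot.Fm j φ s w) := by
    refine Continuous.ext_on (dense_pos j) ((Fm_continuous hφ hs).comp l.continuous)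
      (l.continuous.comp (Fm_continuous hφ hs)) fun w hw => ?_
    have hw0 : 0 < Rot.nj j w := hw
    have hw1 : 0 < Rot.nj j (l w) := by rwa [h.nj]
    have hw2 : 0 < Rot.nj j (Rot.Fm j φ s (l w)) := by rwa [nj_Fm hφ hs]
    have hw3 : 0 < Rot.nj j (l (Rot.Fm j φ s w)) := by rwa [h.nj, nj_Fm hφ hs]
    refine st_inj hs hw2 hw3 ?_
    rw [st_Fm hφ hs hw1, h.st, h.st, hl, st_Fm hφ hs hw0]
  exact congrFun h1 w

/-- the maps which preserve the distance to the hyperplane and commute with the maps in `L` -/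
abbrev SL (j : Fin n) (L : Set (R2 n →L[ℝ] R2 n)) : Type :=
  {φ : SympCt n // Pres j φ ∧ ∀ l ∈ L, ∀ p, φ.toEquiv (l p) = l (φ.toEquiv p)}

theorem ctr_comm {j : Fin n} {L : Set (R2 n →L[ℝ] R2 n)} (hL : ∀ l ∈ L, Good j l) (φ : SL j L)
    (t : unitInterval) (l : R2 n →L[ℝ] R2 n) (hl : l ∈ L) (p : R2 n) :
    (ctr j ⟨φ.1, φ.2.1⟩ t).1.toEquiv (l p) = l ((ctr j ⟨φ.1, φ.2.1⟩ t).1.toEquiv p) := by
  unfold ctr
  split_ifs with h
  · rfl
  · exact (hL l hl).Fm φ.2.1 (φ.2.2 l hl) (div_nonneg t.2.1 (sub_nonneg.2 t.2.2)) p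

/-- **Centralisers of groups of linear maps whose centre contains the rotations of a plane.** -/
theorem contractible_L (j : Fin n) (L : Set (R2 n →L[ℝ] R2 n)) (hL : ∀ l ∈ L, Good j l) :
    ContractibleSpace (SL j L) := by
  rw [contractible_iff_id_nullhomotopic]
  have hone : ∀ l ∈ L, ∀ p, (one : SympCt n).toEquiv (l p) = l ((one : SympCt n).toEquiv p) :=
    fun _ _ _ => rfl
  refine ⟨⟨one, Pres_one j, hone⟩, ?_⟩
  have hu := ctr_cont (j := j)
  have hi : Continuous (fun z : unitInterval × SL j L =>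
      (⟨(ctr j ⟨z.2.1, z.2.2.1⟩ z.1).1, (ctr j ⟨z.2.1, z.2.2.1⟩ z.1).2,
        ctr_comm hL z.2 z.1⟩ : SL j L)) := by
    refine Continuous.subtype_mk ?_ _
    refine continuous_subtype_val.comp (hu.comp (continuous_fst.prodMk ?_))
    exact Continuous.subtype_mk (continuous_subtype_val.comp continuous_snd) _
  refine ⟨⟨⟨_, hi⟩, fun φ => ?_, fun φ => ?_⟩⟩
  · refine Subtype.ext ?_
    show (ctr j ⟨φ.1, φ.2.1⟩ 0).1 = φ.1
    rw [ctr_zero]
  · refine Subtype.ext ?_
    show (ctr j ⟨φ.1, φ.2.1⟩ 1).1 = one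
    rw [ctr_end]
    rfl

/-! ## Commuting with the rotations -/

/-- a symplectomorphism which commutes with the rotations preserves the distance -/
theorem pres_of_comm {j : Fin n} {φ : SympCt n}
    (h : ∀ (θ : ℝ) p, φ.toEquiv (ro j (Real.cos θ) (Real.sin θ) p) =
      ro j (Real.cos θ) (Real.sin θ) (φ.toEquiv p)) : Pres j φ := by
  have hγd : ∀ p : R2 n, HasDerivAt (fun θ : ℝ => ro j (Real.cos θ) (Real.sin θ) p) (X j p) 0 := by
    intro p
    have h2 := ((Real.hasDerivAt_cos 0).smul_const (Z j p)).add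
      ((Real.hasDerivAt_sin 0).smul_const (X j p))
    have h3 : HasDerivAt (fun θ : ℝ => ro j (Real.cos θ) (Real.sin θ) p)
        (-Real.sin 0 • Z j p + Real.cos 0 • X j p) 0 := h2.const_add (K j p)
    refine h3.congr_deriv ?_
    rw [Real.sin_zero, Real.cos_zero, neg_zero, zero_smul, one_smul, zero_add]
  have hfield : ∀ p, fderiv ℝ φ.toEquiv p (X j p) = X j (φ.toEquiv p) := by
    intro p
    have h0 : ro j (Real.cos 0) (Real.sin 0) p = p := by
      unfold ro
      rw [Real.cos_zero, Real.sin_zero, one_smul, zero_smul, add_zero, KZ]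
    have hd : HasFDerivAt φ.toEquiv (fderiv ℝ φ.toEquiv p) p :=
      (φ.smooth.contDiffAt.differentiableAt (by norm_num)).hasFDerivAt
    have hd' : HasFDerivAt φ.toEquiv (fderiv ℝ φ.toEquiv p)
        (ro j (Real.cos 0) (Real.sin 0) p) := by rwa [h0]
    have h1 := hd'.comp_hasDerivAt (0 : ℝ) (hγd p)
    have h2 : (φ.toEquiv ∘ fun θ : ℝ => ro j (Real.cos θ) (Real.sin θ) p) =
        fun θ => ro j (Real.cos θ) (Real.sin θ) (φ.toEquiv p) := funext fun θ => h θ p
    rw [h2] at h1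
    exact h1.unique (hγd (φ.toEquiv p))
  have hd : ∀ p, HasFDerivAt (fun p => nj j (φ.toEquiv p) - nj j p) (0 : R2 n →L[ℝ] ℝ) p := by
    intro p
    have hd : HasFDerivAt φ.toEquiv (fderiv ℝ φ.toEquiv p) p :=
      (φ.smooth.contDiffAt.differentiableAt (by norm_num)).hasFDerivAt
    have h1 := ((nj_diff j (φ.toEquiv p)).comp p hd).sub (nj_diff j p)
    refine h1.congr_fderiv (ContinuousLinearMap.ext fun v => ?_)
    show fderiv ℝ (nj j) (φ.toEquiv p) (fderiv ℝ φ.toEquiv p v) - fderiv ℝ (nj j) p v = 0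
    have e1 := omega_X j (φ.toEquiv p) (fderiv ℝ φ.toEquiv p v)
    have e2 := omega_X j p v
    rw [← hfield, φ.symplectic, e2] at e1
    rw [nj_fderiv, nj_fderiv]
    linarith
  have hconst : ∀ p q, nj j (φ.toEquiv p) - nj j p = nj j (φ.toEquiv q) - nj j q := by
    intro p q
    exact is_const_of_fderiv_eq_zero (𝕜 := ℝ) (fun x => (hd x).differentiableAt)
      (fun x => (hd x).fderiv) p q
  obtain ⟨m, hm⟩ := Pool.Agent.W5h83.HG.exists_ball φ
  intro p
  -- a point outside of the support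
  set q : R2 n := ((fun _ => (m : ℝ) + 1), 0) with hq
  have hq0 : φ.toEquiv q = q := by
    refine hm q fun hc => ?_
    rw [mem_closedBall, dist_zero_right] at hc
    have h1 := (abs_le1 j q).trans hc
    have h2 : q.1 j = (m : ℝ) + 1 := rfl
    rw [h2, abs_of_nonneg (by positivity)] at h1
    linarith
  have h1 := hconst p q
  rw [hq0, sub_self] at h1
  linarith

/-! ## Conjugates -/

/-- the conjugate by a symplectomorphism of `ℝ²ⁿ` -/
noncomputable def conjE (ψ : R2 n ≃ R2 n) (h1 : ContDiff ℝ ∞ ψ) (h2 : ContDiff ℝ ∞ ψ.symm)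
    (h3 : ∀ p u v, omega (fderiv ℝ ψ p u) (fderiv ℝ ψ p v) = omega u v) (φ : SympCt n) :
    SympCt n where
  toEquiv := (ψ.symm.trans φ.toEquiv).trans ψ
  smooth := h1.comp (φ.smooth.comp h2)
  smooth_symm := h1.comp (φ.smooth_symm.comp h2)
  symplectic p u v := by
    have h4 : ∀ p u v, omega (fderiv ℝ ψ.symm p u) (fderiv ℝ ψ.symm p v) = omega u v := by
      intro p u v
      have e1 := inv_left h1 h2 p u
      have e2 := inv_left h1 h2 p v
      conv_rhs => rw [← e1, ← e2]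
      rw [h3]
    have d1 : HasFDerivAt ψ.symm (fderiv ℝ ψ.symm p) p :=
      (h2.contDiffAt.differentiableAt (by norm_num)).hasFDerivAt
    have d2 : HasFDerivAt φ.toEquiv (fderiv ℝ φ.toEquiv (ψ.symm p)) (ψ.symm p) :=
      (φ.smooth.contDiffAt.differentiableAt (by norm_num)).hasFDerivAt
    have d3 : HasFDerivAt ψ (fderiv ℝ ψ (φ.toEquiv (ψ.symm p))) (φ.toEquiv (ψ.symm p)) :=
      (h1.contDiffAt.differentiableAt (by norm_num)).hasFDerivAt
    have d4 := d3.comp p (d2.comp p d1)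
    have e : (((ψ.symm.trans φ.toEquiv).trans ψ : R2 n ≃ R2 n) : R2 n → R2 n) =
      ψ ∘ (φ.toEquiv ∘ ψ.symm) := rfl
    rw [e, d4.fderiv]
    simp only [ContinuousLinearMap.comp_apply]
    rw [h3, φ.symplectic, h4]
  compact_support := by
    obtain ⟨K, hK, h⟩ := φ.compact_support
    refine ⟨ψ '' K, hK.image h1.continuous, fun p hp => ?_⟩
    show ψ (φ.toEquiv (ψ.symm p)) = p
    rw [h _ fun hc => hp ⟨_, hc, Equiv.apply_symm_apply _ _⟩, Equiv.apply_symm_apply]

theorem conj_cont {ψ : R2 n ≃ R2 n} (h1 : ContDiff ℝ ∞ ψ) (h2 : ContDiff ℝ ∞ ψ.symm)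
    (h3 : ∀ p u v, omega (fderiv ℝ ψ p u) (fderiv ℝ ψ p v) = omega u v) {C : Type}
    [TopologicalSpace C] [CompactSpace C] {f : C → SympCt n} (hf : Continuous f) :
    Continuous (fun c => conjE ψ h1 h2 h3 (f c)) := by
  obtain ⟨m, hm⟩ := supp_unif (isCompact_range hf)
  refine JS.continuous (P := C) (f := fun c => conjE ψ h1 h2 h3 (f c)) (fun k => ?_)
    (ψ '' closedBall (0 : R2 n) m) ((isCompact_closedBall _ _).image h1.continuous)
    fun c p hp => ?_
  · exact JC.comp (f := fun _ => ψ) (JC.ofSmooth h1 k)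
      (JC.comp (f := fun c x => (f c).toEquiv x) (g := fun _ => ψ.symm)
        (JS.of_continuous hf k) (JC.ofSmooth h2 k))
  · show ψ ((f c).toEquiv (ψ.symm p)) = p
    rw [hm _ ⟨c, rfl⟩ _ fun hc => hp ⟨_, hc, Equiv.apply_symm_apply _ _⟩,
      Equiv.apply_symm_apply]

/-- **Families of maps which preserve the distance to the image of the hyperplane.** -/
theorem null_conj {j : Fin n} {ψ : R2 n ≃ R2 n} (h1 : ContDiff ℝ ∞ ψ) (h2 : ContDiff ℝ ∞ ψ.symm)
    (h3 : ∀ p u v, omega (fderiv ℝ ψ p u) (fderiv ℝ ψ p v) = omega u v) {C : Type}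
    [TopologicalSpace C] [CompactSpace C] (f : C(C, SympCt n))
    (hf : ∀ c p, nj j (ψ ((f c).toEquiv p)) = nj j (ψ p)) :
    f.HomotopicRel (ContinuousMap.const C one) {c | f c = one} := by
  have h4 : ∀ p u v, omega (fderiv ℝ ψ.symm p u) (fderiv ℝ ψ.symm p v) = omega u v := by
    intro p u v
    have e1 := inv_left h1 h2 p u
    have e2 := inv_left h1 h2 p v
    conv_rhs => rw [← e1, ← e2]
    rw [h3]
  have hP : ∀ c, Pres j (conjE ψ h1 h2 h3 (f c)) := by
    intro c p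
    show nj j (ψ ((f c).toEquiv (ψ.symm p))) = nj j p
    rw [hf, Equiv.apply_symm_apply]
  let g : C(C, S j) := ⟨fun c => ⟨conjE ψ h1 h2 h3 (f c), hP c⟩,
    Continuous.subtype_mk (conj_cont h1 h2 h3 f.continuous) _⟩
  obtain ⟨H⟩ := null g
  have hcH : Continuous (fun z => conjE ψ.symm h2 h1 h4 (H z).1) :=
    conj_cont h2 h1 h4 (continuous_subtype_val.comp H.continuous)
  have hback : ∀ φ : SympCt n, conjE ψ.symm h2 h1 h4 (conjE ψ h1 h2 h3 φ) = φ := by
    intro φ
    refine SympCt.ext' fun p => ?_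
    show ψ.symm (ψ (φ.toEquiv (ψ.symm (ψ p)))) = φ.toEquiv p
    rw [Equiv.symm_apply_apply, Equiv.symm_apply_apply]
  have hback1 : conjE ψ.symm h2 h1 h4 (one : SympCt n) = one := by
    refine SympCt.ext' fun p => ?_
    show ψ.symm (ψ p) = p
    rw [Equiv.symm_apply_apply]
  have hone1 : conjE ψ h1 h2 h3 (one : SympCt n) = one := by
    refine SympCt.ext' fun p => ?_
    show ψ (ψ.symm p) = p
    rw [Equiv.apply_symm_apply]
  refine ⟨⟨⟨⟨_, hcH⟩, fun c => ?_, fun c => ?_⟩, fun t c hc => ?_⟩⟩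
  · show conjE ψ.symm h2 h1 h4 (H (0, c)).1 = f c
    rw [H.apply_zero]
    exact hback _
  · show conjE ψ.symm h2 h1 h4 (H (1, c)).1 = one
    rw [H.apply_one]
    exact hback1
  · show conjE ψ.symm h2 h1 h4 (H (t, c)).1 = f c
    have hc1 : f c = one := hc
    have hgc : g c = oneS j := by
      refine Subtype.ext ?_
      show conjE ψ h1 h2 h3 (f c) = one
      rw [hc1, hone1]
    rw [H.eq_fst t hgc, hgc, hc1]
    exact hback1

end Pool.Agent.Run7.h60.Rot
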