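import Pool.Agent.Run7.h60.RotFam

/-!
# The cuts are symplectomorphisms; the homotopy
-/

set_option autoImplicit false
set_option maxHeartbeats 1000000

open scoped ContDiff Topology
open MeasureTheory Set Metric

namespace Pool.Agent.Run7.h60.Rot

open Pool.Agent.W5h83.HG Pool.Agent.W71.EC

variable {n : ℕ}

theorem nj_diff (j : Fin n) (w : R2 n) : HasFDerivAt (nj j) (fderiv ℝ (nj j) w) w :=
  ((nj_smooth j).contDiffAt.differentiableAt (by norm_num)).hasFDerivAt

theorem ka_diff {j : Fin n} {s : ℝ} (hs : 0 ≤ s) {w : R2 n} (hw : 0 < nj j w) :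
    DifferentiableAt ℝ (ka j s) w := by
  have h1 : DifferentiableAt ℝ (fun w => √(nj j w + s)) w :=
    (((nj_diff j w).add_const s).sqrt (by linarith : nj j w + s ≠ 0)).differentiableAt
  have h2 : DifferentiableAt ℝ (fun w => √(nj j w)) w :=
    ((nj_diff j w).sqrt hw.ne').differentiableAt
  have h4 : ka j s = fun w => √(nj j w + s) * (√(nj j w))⁻¹ :=
    funext fun w => div_eq_mul_inv _ _
  rw [h4]
  exact h1.mul (h2.inv (Real.sqrt_pos.2 hw).ne')

theorem isOpen_pos (j : Fin n) : IsOpen {w : R2 n | 0 < nj j w} :=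
  isOpen_lt continuous_const (nj_smooth j).continuous

theorem ka_fderiv {j : Fin n} {s : ℝ} (hs : 0 ≤ s) {w : R2 n} (hw : 0 < nj j w) (u : R2 n) :
    ka j s w * fderiv ℝ (ka j s) w u * nj j w =
      (1 - ka j s w ^ 2) * (w.1 j * u.1 j + w.2 j * u.2 j) := by
  have hk := (ka_diff hs hw).hasFDerivAt
  have h1 := (hk.pow 2).mul (nj_diff j w)
  have h2 : (fun w => ka j s w ^ 2 * nj j w) =ᶠ[𝓝 w] fun w => nj j w + s := by
    filter_upwards [(isOpen_pos j).mem_nhds hw] with w' hw'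
    exact ka_sq hs hw'
  have h3 := ((nj_diff j w).add_const s).congr_of_eventuallyEq h2
  have h4 := congrArg (fun L => L u) (h1.unique h3)
  simp only [_root_.add_apply, _root_.smul_apply, smul_eq_mul, nsmul_eq_mul, nj_fderiv] at h4
  push_cast at h4
  simp only [pow_one] at h4
  linear_combination h4 / 2

theorem st_hasFD {j : Fin n} {s : ℝ} (hs : 0 ≤ s) {w : R2 n} (hw : 0 < nj j w) :
    HasFDerivAt (st j s) (K j + (ka j s w • Z j + (fderiv ℝ (ka j s) w).smulRight (Z j w))) w :=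
  (K j).hasFDerivAt.add ((ka_diff hs hw).hasFDerivAt.smul (Z j).hasFDerivAt)

theorem st_symp {j : Fin n} {s : ℝ} (hs : 0 ≤ s) {w : R2 n} (hw : 0 < nj j w) (u v : R2 n) :
    omega (fderiv ℝ (st j s) w u) (fderiv ℝ (st j s) w v) = omega u v := by
  rw [(st_hasFD hs hw).fderiv]
  set L := (K j + (ka j s w • Z j + (fderiv ℝ (ka j s) w).smulRight (Z j w))) with hL
  have e1 : ∀ u i, (L u).1 i = if i = j then ka j s w * u.1 j + fderiv ℝ (ka j s) w u * w.1 j
      else u.1 i := by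
    intro u i
    have h : (L u).1 i = (K j u).1 i + (ka j s w * (Z j u).1 i +
      fderiv ℝ (ka j s) w u * (Z j w).1 i) := rfl
    rw [h, K1, Z1, Z1]
    split_ifs <;> ring
  have e2 : ∀ u i, (L u).2 i = if i = j then ka j s w * u.2 j + fderiv ℝ (ka j s) w u * w.2 j
      else u.2 i := by
    intro u i
    have h : (L u).2 i = (K j u).2 i + (ka j s w * (Z j u).2 i +
      fderiv ℝ (ka j s) w u * (Z j w).2 i) := rfl
    rw [h, K2, Z2, Z2]
    split_ifs <;> ring
  unfold omega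
  refine Finset.sum_congr rfl fun i _ => ?_
  rw [e1, e2, e1, e2]
  split_ifs with hi
  · subst hi
    have h1 := ka_fderiv hs hw u
    have h2 := ka_fderiv hs hw v
    set a := ka i s w
    set b := fderiv ℝ (ka i s) w u
    set c := fderiv ℝ (ka i s) w v
    have hN : nj i w = w.1 i ^ 2 + w.2 i ^ 2 := rfl
    have hN0 : nj i w ≠ 0 := hw.ne'
    apply mul_left_cancel₀ hN0
    rw [hN] at h1 h2 ⊢
    linear_combination (w.1 i * v.2 i - w.2 i * v.1 i) * h1 + (u.1 i * w.2 i - u.2 i * w.1 i) * h2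
  · rfl

theorem Fm_symp_pos {j : Fin n} {φ : SympCt n} (h : Pres j φ) {s : ℝ} (hs : 0 ≤ s) {w : R2 n}
    (hw : 0 < nj j w) (u v : R2 n) :
    omega (fderiv ℝ (Fm j φ s) w u) (fderiv ℝ (Fm j φ s) w v) = omega u v := by
  have hw1 : 0 < nj j (Fm j φ s w) := by rwa [nj_Fm h hs]
  have d1 : HasFDerivAt (Fm j φ s) (fderiv ℝ (Fm j φ s) w) w :=
    ((Fm_smooth h hs).contDiffAt.differentiableAt (by norm_num)).hasFDerivAt
  have d2 : HasFDerivAt (st j s) (fderiv ℝ (st j s) (Fm j φ s w)) (Fm j φ s w) :=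
    (st_hasFD hs hw1).differentiableAt.hasFDerivAt
  have d3 : HasFDerivAt (st j s) (fderiv ℝ (st j s) w) w :=
    (st_hasFD hs hw).differentiableAt.hasFDerivAt
  have d4 : HasFDerivAt φ.toEquiv (fderiv ℝ φ.toEquiv (st j s w)) (st j s w) :=
    (φ.smooth.contDiffAt.differentiableAt (by norm_num)).hasFDerivAt
  have d5 := d2.comp w d1
  have d6 := d4.comp w d3
  have h2 : (st j s ∘ Fm j φ s) =ᶠ[𝓝 w] (φ.toEquiv ∘ st j s) := by
    filter_upwards [(isOpen_pos j).mem_nhds hw] with w' hw'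
    exact st_Fm h hs hw'
  have h3 := d5.unique (d6.congr_of_eventuallyEq h2)
  have h4 : ∀ u, fderiv ℝ (st j s) (Fm j φ s w) (fderiv ℝ (Fm j φ s) w u) =
      fderiv ℝ φ.toEquiv (st j s w) (fderiv ℝ (st j s) w u) := fun u =>
    DFunLike.congr_fun h3 u
  rw [← st_symp hs hw1, h4, h4, φ.symplectic, st_symp hs hw]

theorem omega_cont {T : Type*} [TopologicalSpace T] {a b : T → R2 n} (ha : Continuous a)
    (hb : Continuous b) : Continuous (fun t => omega (a t) (b t)) := by
  unfold omega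
  refine continuous_finset_sum _ fun i _ => ?_
  have h1 : ∀ {a : T → R2 n}, Continuous a → Continuous (fun t => (a t).1 i) := fun ha =>
    (continuous_apply i).comp (continuous_fst.comp ha)
  have h2 : ∀ {a : T → R2 n}, Continuous a → Continuous (fun t => (a t).2 i) := fun ha =>
    (continuous_apply i).comp (continuous_snd.comp ha)
  exact ((h1 ha).mul (h2 hb)).sub ((h2 ha).mul (h1 hb))

theorem Fm_symp {j : Fin n} {φ : SympCt n} (h : Pres j φ) {s : ℝ} (hs : 0 ≤ s) (w u v : R2 n) :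
    omega (fderiv ℝ (Fm j φ s) w u) (fderiv ℝ (Fm j φ s) w v) = omega u v := by
  have hc : Continuous (fderiv ℝ (Fm j φ s)) := (Fm_smooth h hs).continuous_fderiv (by simp)
  have h1 : (fun w => omega (fderiv ℝ (Fm j φ s) w u) (fderiv ℝ (Fm j φ s) w v)) =
      fun _ => omega u v :=
    Continuous.ext_on (dense_pos j) (omega_cont (hc.clm_apply continuous_const)
      (hc.clm_apply continuous_const)) continuous_const fun w hw => Fm_symp_pos h hs hw u v
  exact congrFun h1 w

theorem ka_one_le {j : Fin n} {s : ℝ} (hs : 0 ≤ s) {w : R2 n} (hw : 0 < nj j w) :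
    1 ≤ ka j s w := by
  have h1 := ka_sq hs hw
  have h2 := ka_pos hs hw
  by_contra hlt
  push Not at hlt
  have h3 : ka j s w ^ 2 < 1 := by nlinarith
  have h4 : ka j s w ^ 2 * nj j w < 1 * nj j w := mul_lt_mul_of_pos_right h3 hw
  linarith

theorem norm_st {j : Fin n} {s : ℝ} (hs : 0 ≤ s) {w : R2 n} (hw : 0 < nj j w) :
    ‖w‖ ≤ ‖st j s w‖ := by
  have hk := ka_one_le hs hw
  refine norm_prod_le_iff.2 ⟨?_, ?_⟩
  · refine (pi_norm_le_iff_of_nonneg (norm_nonneg _)).2 fun i => ?_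
    refine le_trans ?_ (abs_le1 i (st j s w))
    rw [st1]
    split_ifs with hi
    · rw [hi, abs_mul, abs_of_pos (by linarith : 0 < ka j s w)]
      exact le_mul_of_one_le_left (abs_nonneg _) hk
    · exact le_rfl
  · refine (pi_norm_le_iff_of_nonneg (norm_nonneg _)).2 fun i => ?_
    refine le_trans ?_ (abs_le2 i (st j s w))
    rw [st2]
    split_ifs with hi
    · rw [hi, abs_mul, abs_of_pos (by linarith : 0 < ka j s w)]
      exact le_mul_of_one_le_left (abs_nonneg _) hk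
    · exact le_rfl

theorem Fm_fix {j : Fin n} {φ : SympCt n} (h : Pres j φ) {s : ℝ} (hs : 0 ≤ s) {U : Set (R2 n)}
    (hU : IsOpen U) (hf : ∀ w ∈ U, 0 < nj j w → φ.toEquiv (st j s w) = st j s w) {w : R2 n}
    (hw : w ∈ U) : Fm j φ s w = w := by
  have hcl : IsClosed {w | Fm j φ s w = w} := isClosed_eq (Fm_continuous h hs) continuous_id
  have h1 : U ∩ {w | 0 < nj j w} ⊆ {w | Fm j φ s w = w} := by
    rintro w ⟨hwU, hw0⟩
    have hw1 : 0 < nj j (Fm j φ s w) := by rwa [nj_Fm h hs]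
    refine st_inj hs hw1 hw0 ?_
    rw [st_Fm h hs hw0, hf w hwU hw0]
  exact hcl.closure_subset_iff.2 h1 ((dense_pos j).open_subset_closure_inter hU hw)

theorem Fm_supp {j : Fin n} {φ : SympCt n} (h : Pres j φ) {s : ℝ} (hs : 0 ≤ s) {m : ℝ}
    (hm : φ ∈ supportedIn (closedBall (0 : R2 n) m)) (w : R2 n)
    (hw : w ∉ closedBall (0 : R2 n) m) : Fm j φ s w = w := by
  refine Fm_fix h hs isClosed_closedBall.isOpen_compl (fun w hw hw0 => hm _ fun hc => hw ?_) hw
  rw [mem_closedBall, dist_zero_right] at hc ⊢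
  exact (norm_st hs hw0).trans hc

theorem Fm_big {j : Fin n} {φ : SympCt n} (h : Pres j φ) {s : ℝ} {m : ℝ}
    (hs : 2 * m ^ 2 < s) (hm : φ ∈ supportedIn (closedBall (0 : R2 n) m)) (w : R2 n) :
    Fm j φ s w = w := by
  have hs0 : 0 ≤ s := by nlinarith [sq_nonneg m]
  refine Fm_fix h hs0 isOpen_univ (fun w _ hw0 => hm _ fun hc => ?_) (mem_univ w)
  rw [mem_closedBall, dist_zero_right] at hc
  have h1 := nj_st hs0 hw0
  have h2 := (abs_le1 j (st j s w)).trans hc
  have h3 := (abs_le2 j (st j s w)).trans hc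
  have h4 := pow_le_pow_left₀ (abs_nonneg _) h2 2
  have h5 := pow_le_pow_left₀ (abs_nonneg _) h3 2
  rw [sq_abs] at h4 h5
  unfold nj at h1
  have h6 := nj_nonneg j w
  unfold nj at h6
  linarith

theorem Fm_zero {j : Fin n} {φ : SympCt n} (h : Pres j φ) (w : R2 n) :
    Fm j φ 0 w = φ.toEquiv w := by
  have h0 : ∀ w : R2 n, 0 < nj j w → st j 0 w = w := by
    intro w hw
    have hk : ka j 0 w = 1 := by
      unfold ka
      rw [add_zero]
      exact div_self (Real.sqrt_pos.2 hw).ne'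
    refine ext2 (fun i => ?_) fun i => ?_
    · rw [st1, hk, one_mul]
      split_ifs with hi
      · rw [hi]
      · rfl
    · rw [st2, hk, one_mul]
      split_ifs with hi
      · rw [hi]
      · rfl
  have h1 : Fm j φ 0 = φ.toEquiv := by
    refine Continuous.ext_on (dense_pos j) (Fm_continuous h le_rfl) φ.smooth.continuous
      fun w hw => ?_
    have hw1 : 0 < nj j (Fm j φ 0 w) := by rw [nj_Fm h le_rfl]; exact hw
    have h2 := st_Fm h le_rfl hw
    rw [h0 _ hw1, h0 _ hw] at h2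
    exact h2
  exact congrFun h1 w

theorem Pres_one (j : Fin n) : Pres j (one : SympCt n) := fun _ => rfl

theorem Fm_one {j : Fin n} {s : ℝ} (hs : 0 ≤ s) (w : R2 n) : Fm j (one : SympCt n) s w = w :=
  Fm_fix (Pres_one j) hs isOpen_univ (fun _ _ _ => rfl) (mem_univ w)

/-- the cut, as a symplectomorphism -/
noncomputable def Fs (j : Fin n) (q : S j × {s : ℝ // 0 ≤ s}) : SympCt n where
  toEquiv :=
    { toFun := Fm j q.1.1 q.2.1
      invFun := Fm j (inv q.1.1) q.2.1
      left_inv := Fm_inv q.1.2 q.2.2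
      right_inv := by
        intro w
        have h := Fm_inv q.1.2.inv q.2.2 w
        rwa [inv_inv'] at h }
  smooth := Fm_smooth q.1.2 q.2.2
  smooth_symm := Fm_smooth q.1.2.inv q.2.2
  symplectic := Fm_symp q.1.2 q.2.2
  compact_support := by
    obtain ⟨m, hm⟩ := Pool.Agent.W5h83.HG.exists_ball q.1.1
    exact ⟨_, isCompact_closedBall (0 : R2 n) m, Fm_supp q.1.2 q.2.2 hm⟩

/-- the cut preserves the distance to the hyperplane -/
noncomputable def Cut (j : Fin n) (q : S j × {s : ℝ // 0 ≤ s}) : S j :=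
  ⟨Fs j q, nj_Fm q.1.2 q.2.2⟩

theorem Cut_cont {j : Fin n} {Q : Type*} [TopologicalSpace Q] {a : Q → S j × {s : ℝ // 0 ≤ s}}
    (ha : Continuous a) {m : ℝ}
    (hm : ∀ q, (a q).1.1 ∈ supportedIn (closedBall (0 : R2 n) m)) :
    Continuous (fun q => Cut j (a q)) := by
  refine continuous_induced_rng.2 ?_
  refine JS.continuous (P := Q) (f := fun q => Fs j (a q)) (fun k => ?_) _
    (isCompact_closedBall (0 : R2 n) m)
    (fun q => Fm_supp (a q).1.2 (a q).2.2 (hm q))
  exact (Fm_jc j k).param ha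

/-- the identity -/
noncomputable def oneS (j : Fin n) : S j := ⟨one, Pres_one j⟩

theorem Cut_zero {j : Fin n} (φ : S j) : Cut j (φ, ⟨0, le_rfl⟩) = φ :=
  Subtype.ext (SympCt.ext' (Fm_zero φ.2))

theorem Cut_one {j : Fin n} (s : {s : ℝ // 0 ≤ s}) : Cut j (oneS j, s) = oneS j :=
  Subtype.ext (SympCt.ext' (Fm_one s.2))

theorem Cut_big {j : Fin n} (φ : S j) {m : ℝ}
    (hm : φ.1 ∈ supportedIn (closedBall (0 : R2 n) m)) (s : {s : ℝ // 0 ≤ s})
    (hs : 2 * m ^ 2 < s.1) : Cut j (φ, s) = oneS j :=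
  Subtype.ext (SympCt.ext' (Fm_big φ.2 hs hm))

/-- **Compact families are null homotopic.** -/
theorem null {j : Fin n} {C : Type} [TopologicalSpace C] [CompactSpace C] (f : C(C, S j)) :
    f.HomotopicRel (ContinuousMap.const C (oneS j)) {p | f p = oneS j} := by
  obtain ⟨m, hm⟩ := supp_unif (isCompact_range (continuous_subtype_val.comp f.continuous))
  have hsup : ∀ c, (f c).1 ∈ supportedIn (closedBall (0 : R2 n) m) := fun c => hm _ ⟨c, rfl⟩
  have hM : (0 : ℝ) ≤ 2 * (m : ℝ) ^ 2 + 1 := by positivity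
  let a : unitInterval × C → S j × {s : ℝ // 0 ≤ s} := fun z =>
    (f z.2, ⟨(z.1 : ℝ) * (2 * (m : ℝ) ^ 2 + 1), mul_nonneg z.1.2.1 hM⟩)
  have ha : Continuous a :=
    (f.continuous.comp continuous_snd).prodMk
      (Continuous.subtype_mk ((continuous_subtype_val.comp continuous_fst).mul
        continuous_const) _)
  have hc : Continuous (fun z => Cut j (a z)) := Cut_cont ha (m := (m : ℝ)) fun z => hsup z.2
  refine ⟨⟨⟨⟨fun z => Cut j (a z), hc⟩, ?_, ?_⟩, ?_⟩⟩
  · intro c
    have h0 : a (0, c) = (f c, ⟨0, le_rfl⟩) := by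
      refine Prod.ext rfl (Subtype.ext ?_)
      show ((0 : unitInterval) : ℝ) * (2 * (m : ℝ) ^ 2 + 1) = 0
      rw [Set.Icc.coe_zero, zero_mul]
    show Cut j (a (0, c)) = f c
    rw [h0, Cut_zero]
  · intro c
    show Cut j (a (1, c)) = oneS j
    refine Cut_big (f c) (hsup c) _ ?_
    show 2 * (m : ℝ) ^ 2 < ((1 : unitInterval) : ℝ) * (2 * (m : ℝ) ^ 2 + 1)
    rw [Set.Icc.coe_one]
    linarith
  · intro t c hc
    show Cut j (a (t, c)) = f c
    have h1 : f c = oneS j := hc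
    have h2 : a (t, c) = (oneS j, (a (t, c)).2) := Prod.ext h1 rfl
    rw [h2, Cut_one, h1]

end Pool.Agent.Run7.h60.Rot
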