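import Pool.Agent.W5h83.HG.JC

/-!
# Even functions of a variable `q`, composed with the square root of a function

If the maps `G p (q, w)` are jointly smooth and even in `q`, and `N ≥ 0` is a smooth function which
grows at most quadratically at its zeros, then the maps `w ↦ G p (√(N w + σ p), w)`, `σ p ≥ 0`, are
jointly smooth (a version of Whitney's theorem on even functions, with parameters).
-/

set_option autoImplicit false
set_option maxHeartbeats 1000000

open scoped ContDiff Topology
open MeasureTheory Set Metric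

namespace Pool.Agent.Run7.h60.Rot

open Pool.Agent.W5h83.HG

variable {P : Type} [TopologicalSpace P] {E F : Type} [NormedAddCommGroup E] [NormedSpace ℝ E]
  [NormedAddCommGroup F] [NormedSpace ℝ F]

/-- composition of jointly smooth families -/
theorem comp' {E' : Type} [NormedAddCommGroup E'] [NormedSpace ℝ E'] {k : ℕ} {F : Type}
    [NormedAddCommGroup F] [NormedSpace ℝ F]
    {f : P → E → F} {g : P → E' → E}
    (hf : JC k F f) (hg : JC k E g) : JC k F (fun p x => f p (g p x)) := by
  induction k generalizing F with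
  | zero => exact Continuous.comp (g := Function.uncurry f) hf (continuous_fst.prodMk hg)
  | succ k ih =>
    refine ⟨hf.1.comp (continuous_fst.prodMk hg.1), fun p x =>
      (hf.2.1 p (g p x)).comp x (hg.2.1 p x), ?_⟩
    have : (fun p x => fderiv ℝ (fun x => f p (g p x)) x) =
        fun p x => ContinuousLinearMap.compL ℝ E' E F (fderiv ℝ (f p) (g p x))
          (fderiv ℝ (g p) x) := by
      funext p x
      exact fderiv_comp x (hf.2.1 p (g p x)) (hg.2.1 p x)
    rw [this]
    exact JC.bilin _ (ih (f := fun p x => fderiv ℝ (f p) x) hf.2.2 hg.pred) hg.2.2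

/-- composition with a continuous linear map -/
theorem lin {k : ℕ} {F G : Type} [NormedAddCommGroup F] [NormedSpace ℝ F] [NormedAddCommGroup G]
    [NormedSpace ℝ G] (L : F →L[ℝ] G) {f : P → E → F} (hf : JC k F f) :
    JC k G (fun p x => L (f p x)) := by
  induction k generalizing F G with
  | zero => exact L.continuous.comp hf
  | succ k ih =>
    refine ⟨L.continuous.comp hf.1, fun p x => L.differentiableAt.comp x (hf.2.1 p x), ?_⟩
    have : (fun p x => fderiv ℝ (fun x => L (f p x)) x) =
        fun p x => (ContinuousLinearMap.compL ℝ E F G L) (fderiv ℝ (f p) x) := by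
      funext p x
      exact (L.hasFDerivAt.comp x (hf.2.1 p x).hasFDerivAt).fderiv
    rw [this]
    exact ih (ContinuousLinearMap.compL ℝ E F G L) hf.2.2

/-- integrals over a parameter in the unit interval -/
theorem integral {k : ℕ} {F : Type} [NormedAddCommGroup F] [NormedSpace ℝ F]
    {f : P × ℝ → E → F} (hf : JC k F f) :
    JC k F (fun p x => ∫ t in (0 : ℝ)..1, f (p, t) x) := by
  have hc : ∀ {G : Type} [NormedAddCommGroup G] [NormedSpace ℝ G] {g : P × ℝ → E → G},
      Continuous (Function.uncurry g) →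
      Continuous (Function.uncurry fun p x => ∫ t in (0 : ℝ)..1, g (p, t) x) := by
    intro G _ _ g hg
    refine intervalIntegral.continuous_parametric_intervalIntegral_of_continuous'
      (f := fun (z : P × E) (t : ℝ) => g (z.1, t) z.2) ?_ 0 1
    exact hg.comp (((continuous_fst.comp continuous_fst).prodMk continuous_snd).prodMk
      (continuous_snd.comp continuous_fst))
  induction k generalizing F with
  | zero => exact hc hf
  | succ k ih =>
    have hd : ∀ p x, HasFDerivAt (fun x => ∫ t in (0 : ℝ)..1, f (p, t) x)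
        (∫ t in (0 : ℝ)..1, fderiv ℝ (f (p, t)) x) x := by
      intro p x
      have hg : Continuous (fun z : E × ℝ => fderiv ℝ (f (p, z.2)) z.1) :=
        hf.2.2.cont.comp ((continuous_const.prodMk continuous_snd).prodMk continuous_fst)
      have hg0 : Continuous (fun z : E × ℝ => f (p, z.2) z.1) :=
        hf.1.comp ((continuous_const.prodMk continuous_snd).prodMk continuous_fst)
      obtain ⟨B, hB⟩ := isCompact_Icc.exists_bound_of_continuousOn (s := Icc (0 : ℝ) 1)
        (f := fun t => fderiv ℝ (f (p, t)) x)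
        (hg.comp ((continuous_const (y := x)).prodMk continuous_id)).continuousOn
      have h1 : ∀ᶠ y in 𝓝 x, ∀ t ∈ Icc (0 : ℝ) 1, ‖fderiv ℝ (f (p, t)) y‖ < B + 1 := by
        refine isCompact_Icc.eventually_forall_of_forall_eventually fun t ht => ?_
        have h2 : IsOpen {z : E × ℝ | ‖fderiv ℝ (f (p, z.2)) z.1‖ < B + 1} :=
          isOpen_lt hg.norm continuous_const
        exact h2.mem_nhds (lt_of_le_of_lt (hB t ht) (by linarith))
      obtain ⟨s, hs, hs1⟩ := h1.exists_mem
      refine (intervalIntegral.hasFDerivAt_integral_of_dominated_of_fderiv_le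
        (F := fun x t => f (p, t) x) (F' := fun x t => fderiv ℝ (f (p, t)) x)
        (bound := fun _ => B + 1) (s := s) hs ?_ ?_ ?_ ?_ ?_ ?_)
      · exact Filter.Eventually.of_forall fun y =>
          (hg0.comp ((continuous_const (y := y)).prodMk continuous_id)).aestronglyMeasurable
      · exact (hg0.comp ((continuous_const (y := x)).prodMk continuous_id)).intervalIntegrable _ _
      · exact (hg.comp ((continuous_const (y := x)).prodMk continuous_id)).aestronglyMeasurable
      · refine Filter.Eventually.of_forall fun t ht y hy => ?_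
        rw [uIoc_of_le zero_le_one] at ht
        exact (hs1 y hy t ⟨ht.1.le, ht.2⟩).le
      · exact intervalIntegrable_const
      · exact Filter.Eventually.of_forall fun t _ y _ => (hf.2.1 (p, t) y).hasFDerivAt
    refine ⟨hc hf.1, fun p x => (hd p x).differentiableAt, ?_⟩
    have : (fun p x => fderiv ℝ (fun x => ∫ t in (0 : ℝ)..1, f (p, t) x) x) =
        fun p x => ∫ t in (0 : ℝ)..1, fderiv ℝ (f (p, t)) x := by
      funext p x
      exact (hd p x).fderiv
    rw [this]
    exact ih (f := fun q x => fderiv ℝ (f q) x) hf.2.2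

/-- the derivative in the first variable -/
noncomputable def dq (G : P → ℝ × E → F) (p : P) (x : ℝ × E) : F := fderiv ℝ (G p) x (1, 0)

/-- the derivative in the second variable -/
noncomputable def dw (G : P → ℝ × E → F) (p : P) (x : ℝ × E) : E →L[ℝ] F :=
  (fderiv ℝ (G p) x).comp (ContinuousLinearMap.inr ℝ ℝ E)

/-- the mean of the derivative in the first variable over `[0, q]` -/
noncomputable def hd (G : P → ℝ × E → F) (p : P) (x : ℝ × E) : F :=
  ∫ t in (0 : ℝ)..1, dq G p (t * x.1, x.2)

theorem dq_jc {G : P → ℝ × E → F} (hG : ∀ k, JC k F G) (k : ℕ) : JC k F (dq G) :=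
  lin (ContinuousLinearMap.apply ℝ F ((1, 0) : ℝ × E)) (hG (k + 1)).2.2

theorem dw_jc {G : P → ℝ × E → F} (hG : ∀ k, JC k F G) (k : ℕ) : JC k (E →L[ℝ] F) (dw G) :=
  lin ((ContinuousLinearMap.compL ℝ E (ℝ × E) F).flip (ContinuousLinearMap.inr ℝ ℝ E))
    (hG (k + 1)).2.2

theorem hd_jc {G : P → ℝ × E → F} (hG : ∀ k, JC k F G) (k : ℕ) : JC k F (hd G) := by
  have h1 : JC k F (fun (q : P × ℝ) (x : ℝ × E) => dq G q.1 (q.2 * x.1, x.2)) := by
    refine comp' (g := fun (q : P × ℝ) (x : ℝ × E) => ((q.2 * x.1, x.2) : ℝ × E))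
      ((dq_jc hG k).param (a := fun q : P × ℝ => q.1) continuous_fst) ?_
    have h2 : JC k (ℝ × E) (fun (q : P × ℝ) (x : ℝ × E) => q.2 • ((x.1, 0) : ℝ × E)) :=
      JC.smulP (a := fun q : P × ℝ => q.2) continuous_snd
        (JC.ofSmooth (φ := fun x : ℝ × E => ((x.1, 0) : ℝ × E))
          (contDiff_fst.prodMk contDiff_const) k)
    have h3 : JC k (ℝ × E) (fun (_ : P × ℝ) (x : ℝ × E) => ((0, x.2) : ℝ × E)) :=
      JC.ofSmooth (φ := fun x : ℝ × E => ((0, x.2) : ℝ × E))
          (contDiff_const.prodMk contDiff_snd) k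
    have h4 := h2.add h3
    have h5 : (fun (q : P × ℝ) (x : ℝ × E) => ((q.2 * x.1, x.2) : ℝ × E)) =
        fun q x => q.2 • ((x.1, 0) : ℝ × E) + ((0, x.2) : ℝ × E) := by
      funext q x
      simp
    rw [h5]
    exact h4
  exact integral h1

/-- differentiability -/
theorem hasFD {G : P → ℝ × E → F} (hG : ∀ k, JC k F G) (p : P) (x : ℝ × E) :
    HasFDerivAt (G p) (fderiv ℝ (G p) x) x := ((hG 1).2.1 p x).hasFDerivAt

theorem fd_split {G : P → ℝ × E → F} (p : P) (x v : ℝ × E) :
    fderiv ℝ (G p) x v = v.1 • dq G p x + dw G p x v.2 := by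
  have h1 : v = v.1 • ((1, 0) : ℝ × E) + (0, v.2) := by simp
  conv_lhs => rw [h1]
  rw [map_add, map_smul]
  rfl

/-- the mean of the derivative is the difference quotient -/
theorem hd_eq [CompleteSpace F] {G : P → ℝ × E → F} (hG : ∀ k, JC k F G) (p : P) (q : ℝ) (w : E) :
    q • hd G p (q, w) = G p (q, w) - G p (0, w) := by
  have h1 : ∀ t ∈ uIcc (0 : ℝ) 1, HasDerivAt (fun t => G p (t * q, w))
      (q • dq G p (t * q, w)) t := by
    intro t _
    have h2 : HasDerivAt (fun t : ℝ => ((t * q, w) : ℝ × E)) ((q, 0) : ℝ × E) t := by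
      have := (((hasDerivAt_id t).mul_const q).prodMk (hasDerivAt_const t w))
      simpa using this
    have h3 := (hasFD hG p (t * q, w)).comp_hasDerivAt t h2
    have h4 := fd_split (G := G) p (t * q, w) ((q, 0) : ℝ × E)
    rw [map_zero, add_zero] at h4
    rw [h4] at h3
    exact h3
  have hcont : Continuous (fun t : ℝ => q • dq G p (t * q, w)) := by
    have := (dq_jc hG 0).cont.comp ((continuous_const (y := p)).prodMk
      (((continuous_id (X := ℝ)).mul continuous_const).prodMk continuous_const
        : Continuous (fun t : ℝ => ((t * q, w) : ℝ × E))))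
    exact this.const_smul q
  have h2 := intervalIntegral.integral_eq_sub_of_hasDerivAt h1
    (hcont.intervalIntegrable 0 1)
  rw [intervalIntegral.integral_smul] at h2
  simpa [hd] using h2

/-- even in the first variable -/
def Even (G : P → ℝ × E → F) : Prop := ∀ p q w, G p (-q, w) = G p (q, w)

/-- odd in the first variable -/
def Odd (G : P → ℝ × E → F) : Prop := ∀ p q w, G p (-q, w) = - G p (q, w)

theorem fd_neg {G : P → ℝ × E → F} (hG : ∀ k, JC k F G) (p : P) (q : ℝ) (w : E) (a : ℝ) (v : E) :
    fderiv ℝ (fun x : ℝ × E => G p (-x.1, x.2)) (q, w) (a, v) = fderiv ℝ (G p) (-q, w) (-a, v) := by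
  have h1 : HasFDerivAt (fun x : ℝ × E => ((-x.1, x.2) : ℝ × E))
      ((-(ContinuousLinearMap.fst ℝ ℝ E)).prod (ContinuousLinearMap.snd ℝ ℝ E)) (q, w) :=
    (hasFDerivAt_fst.neg).prodMk hasFDerivAt_snd
  have h2 := HasFDerivAt.comp (q, w) (g := G p) (f := fun x : ℝ × E => ((-x.1, x.2) : ℝ × E))
    (hasFD hG p (-q, w)) h1
  have h3 : fderiv ℝ (fun x : ℝ × E => G p (-x.1, x.2)) (q, w) = _ := h2.fderiv
  rw [h3]
  rfl

theorem even_dq {G : P → ℝ × E → F} (hG : ∀ k, JC k F G) (h : Even G) : Odd (dq G) := by
  intro p q w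
  have h1 : (fun x : ℝ × E => G p (-x.1, x.2)) = G p := funext fun x => h p x.1 x.2
  have h2 := fd_neg hG p q w (-1) 0
  rw [h1, neg_neg] at h2
  show fderiv ℝ (G p) (-q, w) (1, 0) = - fderiv ℝ (G p) (q, w) (1, 0)
  rw [← h2, ← map_neg]
  congr 1
  simp

theorem odd_dq {G : P → ℝ × E → F} (hG : ∀ k, JC k F G) (h : Odd G) : Even (dq G) := by
  intro p q w
  have h1 : (fun x : ℝ × E => G p (-x.1, x.2)) = fun x => - G p x := funext fun x => h p x.1 x.2
  have h2 := fd_neg hG p q w (-1) 0
  rw [h1, neg_neg, fderiv_fun_neg] at h2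
  show fderiv ℝ (G p) (-q, w) (1, 0) = fderiv ℝ (G p) (q, w) (1, 0)
  rw [← h2, _root_.neg_apply, ← map_neg]
  congr 1
  simp

theorem even_dw {G : P → ℝ × E → F} (hG : ∀ k, JC k F G) (h : Even G) : Even (dw G) := by
  intro p q w
  refine ContinuousLinearMap.ext fun v => ?_
  have h1 : (fun x : ℝ × E => G p (-x.1, x.2)) = G p := funext fun x => h p x.1 x.2
  have h2 := fd_neg hG p q w 0 v
  rw [h1, neg_zero] at h2
  exact h2.symm

theorem odd_zero {G : P → ℝ × E → F} (h : Odd G) (p : P) (w : E) : G p (0, w) = 0 := by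
  have h1 := h p 0 w
  rw [neg_zero] at h1
  have h2 : (2 : ℝ) • G p (0, w) = 0 := by
    rw [two_smul]
    nth_rw 1 [h1]
    exact neg_add_cancel _
  exact (smul_eq_zero.1 h2).resolve_left two_ne_zero

theorem even_hd {G : P → ℝ × E → F} (h : Even (dq G)) : Even (hd G) := by
  intro p q w
  unfold hd
  congr 1
  funext t
  have := h p (t * q) w
  rwa [← mul_neg] at this

/-- **Whitney's theorem with parameters.** -/
theorem whitney {N : E → ℝ} (hN : ContDiff ℝ ∞ N) (hN0 : ∀ w, 0 ≤ N w) {c : ℝ}
    (hNc : ∀ w, N w = 0 → ∀ w', N w' ≤ (c * ‖w' - w‖) ^ 2) (hc : 0 ≤ c)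
    {σ : P → ℝ} (hσ : Continuous σ) (hσ0 : ∀ p, 0 ≤ σ p) (k : ℕ) {F : Type}
    [NormedAddCommGroup F] [NormedSpace ℝ F] [CompleteSpace F]
    {G : P → ℝ × E → F} (hG : ∀ k, JC k F G) (he : Even G) :
    JC k F (fun p w => G p (√(N w + σ p), w)) := by
  have hcr : Continuous (fun z : P × E => √(N z.2 + σ z.1)) :=
    Real.continuous_sqrt.comp ((hN.continuous.comp continuous_snd).add (hσ.comp continuous_fst))
  have hcont : ∀ {F : Type} [NormedAddCommGroup F] [NormedSpace ℝ F] {G : P → ℝ × E → F},
      (∀ k, JC k F G) → Continuous (Function.uncurry fun p w => G p (√(N w + σ p), w)) := by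
    intro F _ _ G hG
    exact (hG 0).cont.comp (continuous_fst.prodMk (hcr.prodMk continuous_snd))
  induction k generalizing F with
  | zero => exact hcont hG
  | succ k ih =>
    have hodd := even_dq hG he
    have hT : ∀ k, JC k F (hd (dq G)) := hd_jc (dq_jc hG)
    have hTe : Even (hd (dq G)) := even_hd (odd_dq (dq_jc hG) hodd)
    have hd1 : ∀ p w, HasFDerivAt (fun w => G p (√(N w + σ p), w))
        (ContinuousLinearMap.smulRightL ℝ E F ((1 / 2 : ℝ) • fderiv ℝ N w)
          (hd (dq G) p (√(N w + σ p), w)) + dw G p (√(N w + σ p), w)) w := by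
      intro p w
      have hNd : HasFDerivAt N (fderiv ℝ N w) w :=
        (hN.contDiffAt.differentiableAt (by norm_num)).hasFDerivAt
      rcases eq_or_lt_of_le (add_nonneg (hN0 w) (hσ0 p)) with h0 | h0
      · have hNw : N w = 0 := le_antisymm (by linarith [hσ0 p]) (hN0 w)
        have hσp : σ p = 0 := by linarith
        have hDN : fderiv ℝ N w = 0 := by
          have hmin : IsLocalMin N w := Filter.Eventually.of_forall fun w' => by
            rw [hNw]
            exact hN0 w'
          exact hmin.fderiv_eq_zero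
        rw [← h0, Real.sqrt_zero, hDN, smul_zero, map_zero, _root_.zero_apply, zero_add]
        have e1 : (fun w' => G p (√(N w' + σ p), w')) = fun w' =>
            G p (0, w') + √(N w') • hd G p (√(N w'), w') := by
          funext w'
          rw [hd_eq hG, hσp, add_zero]
          abel
        rw [e1]
        have h1 : HasFDerivAt (fun w' => G p (0, w')) (dw G p (0, w)) w := by
          have h2 : HasFDerivAt (fun w' : E => ((0, w') : ℝ × E))
              (ContinuousLinearMap.inr ℝ ℝ E) w := by
            exact (hasFDerivAt_const (𝕜 := ℝ) (0 : ℝ) w).prodMk (hasFDerivAt_id (𝕜 := ℝ) w)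
          exact (hasFD hG p (0, w)).comp w h2
        have h2 : HasFDerivAt (fun w' => √(N w') • hd G p (√(N w'), w')) (0 : E →L[ℝ] F) w := by
          have h3 : Filter.Tendsto (fun w' => hd G p (√(N w'), w')) (𝓝 w) (𝓝 0) := by
            have h4 : Continuous (fun w' => hd G p (√(N w'), w')) :=
              (hd_jc hG 0).cont.comp ((continuous_const (y := p)).prodMk
                ((Real.continuous_sqrt.comp hN.continuous).prodMk continuous_id))
            have h5 := h4.tendsto w
            have h6 : hd G p (√(N w), w) = 0 := by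
              rw [hNw, Real.sqrt_zero]
              unfold hd
              simp only [mul_zero]
              rw [odd_zero hodd]
              simp
            rwa [h6] at h5
          rw [hasFDerivAt_iff_isLittleO]
          simp only [hNw, Real.sqrt_zero, zero_smul, sub_zero, _root_.zero_apply]
          have h5 : (fun w' => √(N w')) =O[𝓝 w] fun w' => w' - w := by
            refine Asymptotics.IsBigO.of_bound c (Filter.Eventually.of_forall fun w' => ?_)
            rw [Real.norm_of_nonneg (Real.sqrt_nonneg _)]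
            exact Real.sqrt_le_iff.2 ⟨by positivity, hNc w hNw w'⟩
          have h6 : (fun w' => hd G p (√(N w'), w')) =o[𝓝 w] fun _ => (1 : ℝ) :=
            (Asymptotics.isLittleO_one_iff ℝ).2 h3
          have h7 : (fun w' => √(N w') • hd G p (√(N w'), w')) =o[𝓝 w]
              fun w' => ‖w' - w‖ • (1 : ℝ) := h5.norm_right.smul_isLittleO h6
          have h8 : (fun w' : E => ‖w' - w‖ • (1 : ℝ)) = fun w' => ‖w' - w‖ := by
            funext w'
            simp
          rw [h8] at h7
          exact h7.of_norm_right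
        have h3 := h1.add h2
        rwa [add_zero] at h3
      · have hr : 0 < √(N w + σ p) := Real.sqrt_pos.2 h0
        have h1 : HasFDerivAt (fun w => √(N w + σ p))
            ((1 / (2 * √(N w + σ p))) • fderiv ℝ N w) w := (hNd.add_const (σ p)).sqrt h0.ne'
        have h2 := HasFDerivAt.comp w (g := G p) (f := fun w => ((√(N w + σ p), w) : ℝ × E))
          (hasFD hG p (√(N w + σ p), w)) (h1.prodMk (hasFDerivAt_id w))
        refine h2.congr_fderiv ?_
        refine ContinuousLinearMap.ext fun v => ?_
        have h3 := fd_split (G := G) p (√(N w + σ p), w)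
          (((1 / (2 * √(N w + σ p))) * fderiv ℝ N w v, v) : ℝ × E)
        have h4 := hd_eq (dq_jc hG) p (√(N w + σ p)) w
        rw [odd_zero hodd, sub_zero] at h4
        show fderiv ℝ (G p) (√(N w + σ p), w)
          (((1 / (2 * √(N w + σ p))) * fderiv ℝ N w v, v) : ℝ × E) = _
        rw [h3, ← h4]
        show _ = ((1 / 2 : ℝ) * fderiv ℝ N w v) • hd (dq G) p (√(N w + σ p), w) +
          dw G p (√(N w + σ p), w) v
        rw [smul_smul]
        congr 2
        field_simp
    refine ⟨hcont hG, fun p w => (hd1 p w).differentiableAt, ?_⟩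
    have : (fun p w => fderiv ℝ (fun w => G p (√(N w + σ p), w)) w) = fun p w =>
        ContinuousLinearMap.smulRightL ℝ E F ((1 / 2 : ℝ) • fderiv ℝ N w)
          (hd (dq G) p (√(N w + σ p), w)) + dw G p (√(N w + σ p), w) := by
      funext p w
      exact (hd1 p w).fderiv
    rw [this]
    refine JC.add ?_ (ih (dw_jc hG) (even_dw hG he))
    refine JC.bilin _ ?_ (ih hT hTe)
    exact JC.ofSmooth (φ := fun w => (1 / 2 : ℝ) • fderiv ℝ N w)
      ((hN.fderiv_right (by norm_num)).const_smul (1 / 2 : ℝ)) k

end Pool.Agent.Run7.h60.Rot
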