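import Pool.Agent.Run7.h60.Family

/-! The shooting argument. -/

set_option maxSynthPendingDepth 3

open Set MeasureTheory intervalIntegral Filter
open scoped Topology ContDiff RealInnerProductSpace NNReal

namespace Run7.h60

variable {g : R3 → R3 →L[ℝ] R3 →L[ℝ] ℝ} {Γ : ℝ → ℝ → R3}

lemma neg_right {f : ℝ → ℝ} {f' T : ℝ} (h : HasDerivAt f f' T) (hf : f' < 0) (h0 : f T = 0) :
    ∀ᶠ t in 𝓝[>] T, f t < 0 := by
  have h1 := hasDerivAt_iff_tendsto_slope.1 h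
  have h2 : ∀ᶠ t in 𝓝[≠] T, slope f T t < 0 := h1.eventually (gt_mem_nhds hf)
  have h3 : ∀ᶠ t in 𝓝[>] T, slope f T t < 0 :=
    h2.filter_mono (nhdsWithin_mono _ (fun x hx => (ne_of_gt hx)))
  filter_upwards [h3, self_mem_nhdsWithin] with t ht htT
  have h4 : 0 < t - T := sub_pos.2 htT
  rw [slope_def_field, h0, sub_zero] at ht
  by_contra hcon
  push Not at hcon
  exact absurd ht (not_lt.2 (div_nonneg hcon h4.le))

lemma start_data (hg : SphMetric g)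
    (hΓ : ∀ θ, UGeod g (Γ θ) ∧ Γ θ 0 = st θ ∧ deriv (Γ θ) 0 = vst g θ) (θ : ℝ) :
    Γ θ 0 0 = 0 ∧ Γ θ 0 2 = Real.sin θ ∧ 0 < deriv (Γ θ) 0 0 := by
  refine ⟨?_, ?_, ?_⟩
  · rw [(hΓ θ).2.1, st_0]
  · rw [(hΓ θ).2.1, st_2]
  · rw [(hΓ θ).2.2, vst]
    simp only [PiLp.smul_apply, smul_eq_mul, e0_0, mul_one]
    exact inv_pos.2 (nrm_e0_pos hg θ)

lemma exists_T (hg : SphMetric g) (hQ : Signed g)
    (hΓ : ∀ θ, UGeod g (Γ θ) ∧ Γ θ 0 = st θ ∧ deriv (Γ θ) 0 = vst g θ) :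
    ∃ Tf : ℝ → ℝ, ∀ θ ∈ Ioo 0 Real.pi, IsExit (Γ θ) (Tf θ) := by
  have h : ∀ θ, ∃ T, θ ∈ Ioo 0 Real.pi → IsExit (Γ θ) T := by
    intro θ
    by_cases hθ : θ ∈ Ioo 0 Real.pi
    · obtain ⟨h0, h2, h3⟩ := start_data hg hΓ θ
      obtain ⟨T, hT⟩ := exists_isExit hg hQ (hΓ θ).1 h0
        (by rw [h2]; exact Real.sin_pos_of_mem_Ioo hθ) h3
      exact ⟨T, fun _ => hT⟩
    · exact ⟨0, fun h => absurd h hθ⟩
  choose Tf hTf using h
  exact ⟨Tf, hTf⟩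

lemma exit_data (hg : SphMetric g) (hQ : Signed g)
    (hΓ : ∀ θ, UGeod g (Γ θ) ∧ Γ θ 0 = st θ ∧ deriv (Γ θ) 0 = vst g θ)
    {θ : ℝ} (hθ : θ ∈ Ioo 0 Real.pi) {T : ℝ} (hT : IsExit (Γ θ) T) :
    0 < Γ θ T 0 ∧ deriv (Γ θ) T 2 < 0 ∧ (∀ t ∈ Icc 0 T, 0 ≤ Γ θ t 0) := by
  obtain ⟨h0, h2, h3⟩ := start_data hg hΓ θ
  exact at_exit hg hQ (hΓ θ).1 h0 (by rw [h2]; exact Real.sin_pos_of_mem_Ioo hθ) h3 hT

lemma continuousOn_T (hg : SphMetric g) (hQ : Signed g)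
    (hΓ : ∀ θ, UGeod g (Γ θ) ∧ Γ θ 0 = st θ ∧ deriv (Γ θ) 0 = vst g θ) {Tf : ℝ → ℝ}
    (hT : ∀ θ ∈ Ioo 0 Real.pi, IsExit (Γ θ) (Tf θ)) : ContinuousOn Tf (Ioo 0 Real.pi) := by
  intro θ₀ hθ₀
  apply ContinuousAt.continuousWithinAt
  rw [Metric.continuousAt_iff']
  intro ε hε
  have hc := continuousOn_state hg hΓ
  obtain ⟨hT0, hTp, hTz⟩ := hT θ₀ hθ₀
  obtain ⟨e1, e2, e3⟩ := exit_data hg hQ hΓ hθ₀ (hT θ₀ hθ₀)
  -- a later time with `z < 0`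
  have h1 := neg_right (hasDerivAt_coord ((hΓ θ₀).1.hasDerivAt (Tf θ₀)) 2) e2 hTz
  obtain ⟨t₂, ht₂, ht₂'⟩ := (h1.and (Ioo_mem_nhdsGT (lt_add_of_pos_right (Tf θ₀) hε))).exists
  -- an earlier time
  obtain ⟨t₁, ht₁⟩ : ∃ t₁, t₁ = max (Tf θ₀ / 2) (Tf θ₀ - ε / 2) := ⟨_, rfl⟩
  have ht1a : 0 < t₁ := by rw [ht₁]; exact lt_max_of_lt_left (by positivity)
  have ht1b : t₁ < Tf θ₀ := by rw [ht₁]; exact max_lt (by linarith) (by linarith)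
  have ht1c : Tf θ₀ - ε < t₁ := by
    rw [ht₁]; exact lt_of_lt_of_le (by linarith) (le_max_right _ _)
  have hev1 : ∀ᶠ θ in 𝓝 θ₀, Γ θ t₂ 2 < 0 := by
    have c1 : ContinuousWithinAt (fun θ : ℝ => (Γ θ t₂, deriv (Γ θ) t₂)) univ θ₀ :=
      ContinuousWithinAt.comp (f := fun θ : ℝ => (θ, t₂)) (t := {z : ℝ × ℝ | 0 ≤ z.2})
        (hc (θ₀, t₂) (show (0:ℝ) ≤ t₂ from hT0.le.trans ht₂'.1.le))
        (by fun_prop) (fun _ _ => (show (0:ℝ) ≤ t₂ from hT0.le.trans ht₂'.1.le))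
    rw [continuousWithinAt_univ] at c1
    have c2 : ContinuousAt (fun θ : ℝ => Γ θ t₂ 2) θ₀ :=
      ((continuous_coord 2).continuousAt).comp (continuousAt_fst.comp c1)
    exact c2.eventually (gt_mem_nhds ht₂)
  have hev2 : ∀ᶠ θ in 𝓝 θ₀, ∀ t ∈ Icc 0 t₁, 0 ≤ t → 0 < Γ θ t 2 := by
    apply isCompact_Icc.eventually_forall_of_forall_eventually
      (P := fun θ t => 0 ≤ t → 0 < Γ θ t 2)
    intro t ht
    have c1 := hc (θ₀, t) (show (0:ℝ) ≤ t from ht.1)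
    have c2 : ContinuousWithinAt (fun z : ℝ × ℝ => Γ z.1 z.2 2) {z | 0 ≤ z.2} (θ₀, t) :=
      ((continuous_coord 2).comp continuous_fst).continuousAt.comp_continuousWithinAt c1
    have c3 := c2.eventually (lt_mem_nhds (hTp t ⟨ht.1, lt_of_le_of_lt ht.2 ht1b⟩))
    rw [eventually_nhdsWithin_iff] at c3
    exact c3
  have hev3 : ∀ᶠ θ in 𝓝 θ₀, θ ∈ Ioo 0 Real.pi := isOpen_Ioo.mem_nhds hθ₀
  filter_upwards [hev1, hev2, hev3] with θ h4 h5 h6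
  obtain ⟨f1, f2, f3⟩ := hT θ h6
  have h7 : t₁ < Tf θ := by
    by_contra hcon
    push Not at hcon
    have := h5 (Tf θ) ⟨f1.le, hcon⟩ f1.le
    rw [f3] at this
    exact lt_irrefl _ this
  have h8 : Tf θ < t₂ := by
    by_contra hcon
    push Not at hcon
    rcases hcon.eq_or_lt with h9 | h9
    · rw [h9, f3] at h4; exact lt_irrefl _ h4
    · have := f2 t₂ ⟨hT0.le.trans ht₂'.1.le, h9⟩
      linarith
  rw [Real.dist_eq, abs_lt]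
  constructor
  · linarith
  · linarith [ht₂'.2]

/-- The balance function at the exit. -/
noncomputable def exitBal (g : R3 → R3 →L[ℝ] R3 →L[ℝ] ℝ) (Γ : ℝ → ℝ → R3) (Tf : ℝ → ℝ)
    (θ : ℝ) : ℝ := bal g (Γ θ (Tf θ), deriv (Γ θ) (Tf θ))

lemma continuousOn_exitBal (hg : SphMetric g) (hQ : Signed g)
    (hΓ : ∀ θ, UGeod g (Γ θ) ∧ Γ θ 0 = st θ ∧ deriv (Γ θ) 0 = vst g θ) {Tf : ℝ → ℝ}
    (hT : ∀ θ ∈ Ioo 0 Real.pi, IsExit (Γ θ) (Tf θ)) :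
    ContinuousOn (exitBal g Γ Tf) (Ioo 0 Real.pi) := by
  have h1 := continuousOn_T hg hQ hΓ hT
  have h2 : ContinuousOn (fun θ => (θ, Tf θ)) (Ioo 0 Real.pi) := continuousOn_id.prodMk h1
  have h3 : MapsTo (fun θ => (θ, Tf θ)) (Ioo 0 Real.pi) {z : ℝ × ℝ | 0 ≤ z.2} :=
    fun θ hθ => (hT θ hθ).1.le
  have h4 := (continuousOn_state hg hΓ).comp h2 h3
  exact (continuous_bal hg).comp_continuousOn h4

lemma eventually_bal (hg : SphMetric g) (hQ : Signed g)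
    (hΓ : ∀ θ, UGeod g (Γ θ) ∧ Γ θ 0 = st θ ∧ deriv (Γ θ) 0 = vst g θ) {Tf : ℝ → ℝ}
    (hT : ∀ θ ∈ Ioo 0 Real.pi, IsExit (Γ θ) (Tf θ)) {θ₀ s t₁ : ℝ} (ht₁ : 0 ≤ t₁)
    (hx : Γ θ₀ t₁ 0 < 0)
    (hb : ∀ t ∈ Icc 0 t₁, 0 < s * bal g (Γ θ₀ t, deriv (Γ θ₀) t)) :
    ∀ᶠ θ in 𝓝 θ₀, θ ∈ Ioo 0 Real.pi → 0 < s * exitBal g Γ Tf θ := by
  have hc := continuousOn_state hg hΓ
  have hev1 : ∀ᶠ θ in 𝓝 θ₀, Γ θ t₁ 0 < 0 := by
    have c1 : ContinuousWithinAt (fun θ : ℝ => (Γ θ t₁, deriv (Γ θ) t₁)) univ θ₀ :=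
      ContinuousWithinAt.comp (f := fun θ : ℝ => (θ, t₁)) (t := {z : ℝ × ℝ | 0 ≤ z.2})
        (hc (θ₀, t₁) (show (0:ℝ) ≤ t₁ from ht₁))
        (by fun_prop) (fun _ _ => (show (0:ℝ) ≤ t₁ from ht₁))
    rw [continuousWithinAt_univ] at c1
    have c2 : ContinuousAt (fun θ : ℝ => Γ θ t₁ 0) θ₀ :=
      ((continuous_coord 0).continuousAt).comp (continuousAt_fst.comp c1)
    exact c2.eventually (gt_mem_nhds hx)
  have hev2 : ∀ᶠ θ in 𝓝 θ₀, ∀ t ∈ Icc 0 t₁, 0 ≤ t →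
      0 < s * bal g (Γ θ t, deriv (Γ θ) t) := by
    apply isCompact_Icc.eventually_forall_of_forall_eventually
      (P := fun θ t => 0 ≤ t → 0 < s * bal g (Γ θ t, deriv (Γ θ) t))
    intro t ht
    have c1 := hc (θ₀, t) (show (0:ℝ) ≤ t from ht.1)
    have c2 : ContinuousWithinAt (fun z : ℝ × ℝ => s * bal g (Γ z.1 z.2, deriv (Γ z.1) z.2))
        {z | 0 ≤ z.2} (θ₀, t) :=
      (continuous_const.mul (continuous_bal hg)).continuousAt.comp_continuousWithinAt c1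
    have c3 := c2.eventually (lt_mem_nhds (hb t ht))
    rw [eventually_nhdsWithin_iff] at c3
    exact c3
  filter_upwards [hev1, hev2] with θ h4 h5 h6
  have h7 : Tf θ ≤ t₁ := by
    by_contra hcon
    push Not at hcon
    have := (exit_data hg hQ hΓ h6 (hT θ h6)).2.2 t₁ ⟨ht₁, hcon.le⟩
    linarith
  exact h5 (Tf θ) ⟨(hT θ h6).1.le, h7⟩ (hT θ h6).1.le

/-- Along a geodesic in the circle `z = 0`. -/
lemma bal_circle (hg : SphMetric g) {η : ℝ → R3} (h : UGeod g η) (hz : ∀ t, η t 2 = 0) (t : ℝ) :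
    (av η t < 0 → 0 < bal g (η t, deriv η t)) ∧ (0 < av η t → bal g (η t, deriv η t) < 0) := by
  obtain ⟨a1, a2, a3, a4, a5, a6⟩ := circ_eqs h hz t
  have htan := h.tangent t
  have hsp : g (η t) (deriv η t) (deriv η t) = 1 := by
    have h1 := h.speed t
    unfold nrm at h1
    rw [ext_tangent g (h.mem t) htan htan] at h1
    exact Real.sqrt_eq_one.1 h1
  obtain ⟨q, hq⟩ : ∃ q, q = g (η t) (jv (η t)) (jv (η t)) := ⟨_, rfl⟩
  have hwq : av η t ^ 2 * q = 1 := by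
    rw [a6] at hsp
    simp only [map_smul, smul_apply, smul_eq_mul] at hsp
    rw [hq]; linear_combination hsp
  have hq0 : 0 < q := by
    by_contra hcon
    push Not at hcon
    nlinarith [sq_nonneg (av η t)]
  have hgv : g (η t) (deriv η t) (jv (η t)) = -(av η t * q) := by
    rw [a6]
    simp only [map_smul, smul_apply, smul_eq_mul]
    rw [hq]; ring
  have hb : bal g (η t, deriv η t) = -(2 * (av η t * q)) - Real.sqrt q := by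
    unfold bal; simp only
    rw [hgv, ← hq]; ring
  constructor
  · intro hw
    have hs : Real.sqrt q = -(av η t * q) := by
      rw [Real.sqrt_eq_iff_mul_self_eq hq0.le (by nlinarith)]
      linear_combination (-q) * hwq
    rw [hb, hs]; nlinarith
  · intro hw
    rw [hb]
    have := Real.sqrt_nonneg q
    have : 0 < av η t * q := by positivity
    linarith

/-- Some geodesic of the family leaves the hemisphere at the right angle. -/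
theorem exists_balanced (hg : SphMetric g) (hZ : Preserves g sZ) (hQ : Signed g)
    (hΓ : ∀ θ, UGeod g (Γ θ) ∧ Γ θ 0 = st θ ∧ deriv (Γ θ) 0 = vst g θ) {Tf : ℝ → ℝ}
    (hT : ∀ θ ∈ Ioo 0 Real.pi, IsExit (Γ θ) (Tf θ)) :
    ∃ θ ∈ Ioo 0 Real.pi, exitBal g Γ Tf θ = 0 := by
  obtain ⟨c, hc, hav⟩ := av_abs_ge hg
  have hpi := Real.pi_pos
  have key : ∀ θ₀ : ℝ, Real.sin θ₀ = 0 → ∃ t₁, 0 ≤ t₁ ∧ Γ θ₀ t₁ 0 < 0 := by
    intro θ₀ hθ₀
    obtain ⟨b0, b2, bv⟩ := start_data hg hΓ θ₀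
    have hz : ∀ t, Γ θ₀ t 2 = 0 := by
      apply in_circle hg hZ (hΓ θ₀).1
      · rw [b2, hθ₀]
      · rw [(hΓ θ₀).2.2, vst]
        simp only [PiLp.smul_apply, smul_eq_mul, e0_2, mul_zero]
    have hE := fun t => circ_eqs (hΓ θ₀).1 hz t
    obtain ⟨t₁, h1, h2⟩ := exists_neg_one (p := fun t => Γ θ₀ t 0) (q := fun t => Γ θ₀ t 1)
      (h := av (Γ θ₀)) (c := c) (continuous_av (hΓ θ₀).1) hc
      (fun t _ => hav _ (hΓ θ₀).1 hz t)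
      (fun t _ => (hasDerivAt_coord ((hΓ θ₀).1.hasDerivAt t) 0).congr_deriv (hE t).2.2.1)
      (fun t _ => (hasDerivAt_coord ((hΓ θ₀).1.hasDerivAt t) 1).congr_deriv (hE t).2.2.2.1)
      (fun t _ => (hE t).1)
    refine ⟨t₁, h1, ?_⟩
    simp only at h2
    rw [h2]; norm_num
  have hav0 : ∀ θ₀ : ℝ, av (Γ θ₀) 0 = -(Real.cos θ₀ * deriv (Γ θ₀) 0 0) := by
    intro θ₀
    unfold av
    rw [(hΓ θ₀).2.1, st_0, st_1]; ring
  have hzc : ∀ θ₀ : ℝ, Real.sin θ₀ = 0 → ∀ t, Γ θ₀ t 2 = 0 := by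
    intro θ₀ hθ₀
    obtain ⟨b0, b2, bv⟩ := start_data hg hΓ θ₀
    apply in_circle hg hZ (hΓ θ₀).1
    · rw [b2, hθ₀]
    · rw [(hΓ θ₀).2.2, vst]
      simp only [PiLp.smul_apply, smul_eq_mul, e0_2, mul_zero]
  -- near `0`
  have hnear0 : ∀ᶠ θ in 𝓝 (0:ℝ), θ ∈ Ioo 0 Real.pi → 0 < 1 * exitBal g Γ Tf θ := by
    obtain ⟨t₁, h1, h2⟩ := key 0 Real.sin_zero
    apply eventually_bal hg hQ hΓ hT h1 h2
    intro t ht
    rw [one_mul]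
    apply (bal_circle hg (hΓ 0).1 (hzc 0 Real.sin_zero) t).1
    have hv := (start_data hg hΓ 0).2.2
    have hneg : av (Γ 0) 0 < 0 := by rw [hav0, Real.cos_zero, one_mul]; linarith
    rcases sign_of_abs_ge (continuous_av (hΓ 0).1) hc
      (fun t _ => hav _ (hΓ 0).1 (hzc 0 Real.sin_zero) t) with h3 | h3
    · have := h3 0 le_rfl; linarith
    · have := h3 t ht.1; linarith
  have hnearpi : ∀ᶠ θ in 𝓝 Real.pi, θ ∈ Ioo 0 Real.pi → 0 < (-1) * exitBal g Γ Tf θ := by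
    obtain ⟨t₁, h1, h2⟩ := key Real.pi Real.sin_pi
    apply eventually_bal hg hQ hΓ hT h1 h2
    intro t ht
    rw [neg_one_mul, neg_pos]
    apply (bal_circle hg (hΓ Real.pi).1 (hzc Real.pi Real.sin_pi) t).2
    have hv := (start_data hg hΓ Real.pi).2.2
    have hneg : 0 < av (Γ Real.pi) 0 := by rw [hav0, Real.cos_pi]; linarith
    rcases sign_of_abs_ge (continuous_av (hΓ Real.pi).1) hc
      (fun t _ => hav _ (hΓ Real.pi).1 (hzc Real.pi Real.sin_pi) t) with h3 | h3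
    · have := h3 t ht.1; linarith
    · have := h3 0 le_rfl; linarith
  obtain ⟨a, ha1, ha2⟩ : ∃ a, a ∈ Ioo 0 (Real.pi / 2) ∧ 0 < exitBal g Γ Tf a := by
    have h1 : ∀ᶠ θ in 𝓝[>] (0:ℝ), θ ∈ Ioo 0 Real.pi → 0 < 1 * exitBal g Γ Tf θ :=
      hnear0.filter_mono nhdsWithin_le_nhds
    obtain ⟨a, h2, h3⟩ := (h1.and (Ioo_mem_nhdsGT (show (0:ℝ) < Real.pi / 2 by positivity))).exists
    refine ⟨a, h3, ?_⟩
    have := h2 ⟨h3.1, by linarith [h3.2]⟩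
    linarith
  obtain ⟨b, hb1, hb2⟩ : ∃ b, b ∈ Ioo (Real.pi / 2) Real.pi ∧ exitBal g Γ Tf b < 0 := by
    have h1 : ∀ᶠ θ in 𝓝[<] Real.pi, θ ∈ Ioo 0 Real.pi → 0 < (-1) * exitBal g Γ Tf θ :=
      hnearpi.filter_mono nhdsWithin_le_nhds
    obtain ⟨b, h2, h3⟩ := (h1.and (Ioo_mem_nhdsLT (show Real.pi / 2 < Real.pi by linarith))).exists
    refine ⟨b, h3, ?_⟩
    have := h2 ⟨by linarith [h3.1], h3.2⟩
    linarith
  have hsub : Icc a b ⊆ Ioo 0 Real.pi := fun x hx => ⟨lt_of_lt_of_le ha1.1 hx.1,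
    lt_of_le_of_lt hx.2 hb1.2⟩
  have hab : a ≤ b := by linarith [ha1.2, hb1.1]
  obtain ⟨θ, hθ, hθ0⟩ := intermediate_value_Icc' hab ((continuousOn_exitBal hg hQ hΓ hT).mono hsub)
    (show (0:ℝ) ∈ Icc (exitBal g Γ Tf b) (exitBal g Γ Tf a) from ⟨hb2.le, ha2.le⟩)
  exact ⟨θ, hsub hθ, hθ0⟩

end Run7.h60
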