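import Pool.Agent.Run7.h60.UGeod

/-! Short pieces of solutions of the geodesic equation are minimising. -/

set_option maxSynthPendingDepth 3

open Set MeasureTheory intervalIntegral Filter
open scoped Topology ContDiff RealInnerProductSpace NNReal

namespace Run7.h60

lemma taylor_diff {V : Type*} [NormedAddCommGroup V] [NormedSpace ℝ V] {Y : V → V}
    (hY : ContDiff ℝ ∞ Y) (hYc : HasCompactSupport Y) :
    ∃ C : ℝ, 0 ≤ C ∧ ∀ (z₁ z₂ : ℝ → V) (τ : ℝ), 0 ≤ τ → τ ≤ 1 →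
      (∀ t ∈ Icc 0 τ, HasDerivAt z₁ (Y (z₁ t)) t) → (∀ t ∈ Icc 0 τ, HasDerivAt z₂ (Y (z₂ t)) t) →
      ‖(z₁ τ - z₂ τ - τ • (Y (z₁ 0) - Y (z₂ 0))) - (z₁ 0 - z₂ 0)‖
        ≤ C * τ ^ 2 * ‖z₁ 0 - z₂ 0‖ := by
  obtain ⟨K, hK⟩ := ContDiff.lipschitzWith_of_hasCompactSupport hYc hY (by simp)
  have hY2 : ContDiff ℝ ∞ (fun x => fderiv ℝ Y x (Y x)) :=
    (hY.fderiv_right (m := ∞) (by simp)).clm_apply hY
  have hY2c : HasCompactSupport (fun x => fderiv ℝ Y x (Y x)) := by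
    apply HasCompactSupport.intro hYc
    intro x hx
    have : Y x = 0 := image_eq_zero_of_notMem_tsupport hx
    rw [this, map_zero]
  obtain ⟨K₂, hK₂⟩ := ContDiff.lipschitzWith_of_hasCompactSupport hY2c hY2 (by simp)
  refine ⟨K₂ * Real.exp K, by positivity, ?_⟩
  intro z₁ z₂ τ hτ hτ1 h1 h2
  set δ := ‖z₁ 0 - z₂ 0‖ with hδ
  have hδ0 : 0 ≤ δ := norm_nonneg _
  have hgr : ∀ t ∈ Icc 0 τ, ‖z₁ t - z₂ t‖ ≤ δ * Real.exp K := by
    intro t ht
    have h3 := dist_le_of_trajectories_ODE (v := fun _ => Y) (K := K) (a := 0) (b := τ)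
      (f := z₁) (g := z₂) (δ := δ) (fun _ => hK)
      (fun u hu => (h1 u hu).continuousAt.continuousWithinAt)
      (fun u hu => (h1 u ⟨hu.1, hu.2.le⟩).hasDerivWithinAt)
      (fun u hu => (h2 u hu).continuousAt.continuousWithinAt)
      (fun u hu => (h2 u ⟨hu.1, hu.2.le⟩).hasDerivWithinAt)
      (by rw [dist_eq_norm]) t ht
    rw [dist_eq_norm] at h3
    refine h3.trans ?_
    gcongr
    have hKn : (0:ℝ) ≤ K := K.coe_nonneg
    have : t - 0 ≤ 1 := by linarith [ht.2]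
    nlinarith
  have he : ∀ t ∈ Icc 0 τ, HasDerivAt (fun t => Y (z₁ t) - Y (z₂ t))
      (fderiv ℝ Y (z₁ t) (Y (z₁ t)) - fderiv ℝ Y (z₂ t) (Y (z₂ t))) t := by
    intro t ht
    have d1 := ((hY.differentiable (by simp)) (z₁ t)).hasFDerivAt.comp_hasDerivAt t (h1 t ht)
    have d2 := ((hY.differentiable (by simp)) (z₂ t)).hasFDerivAt.comp_hasDerivAt t (h2 t ht)
    exact d1.sub d2
  have he2 : ∀ t ∈ Icc 0 τ, ‖(Y (z₁ t) - Y (z₂ t)) - (Y (z₁ 0) - Y (z₂ 0))‖
      ≤ K₂ * (δ * Real.exp K) * (t - 0) := by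
    apply norm_image_sub_le_of_norm_deriv_le_segment'
      (f := fun t => Y (z₁ t) - Y (z₂ t))
      (f' := fun t => fderiv ℝ Y (z₁ t) (Y (z₁ t)) - fderiv ℝ Y (z₂ t) (Y (z₂ t)))
    · intro t ht; exact (he t ht).hasDerivWithinAt
    · intro t ht
      have h4 := hK₂.dist_le_mul (z₁ t) (z₂ t)
      rw [dist_eq_norm, dist_eq_norm] at h4
      refine h4.trans ?_
      gcongr
      exact hgr t ⟨ht.1, ht.2.le⟩
  have hf : ∀ t ∈ Icc 0 τ, HasDerivAt (fun t => z₁ t - z₂ t - t • (Y (z₁ 0) - Y (z₂ 0)))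
      ((Y (z₁ t) - Y (z₂ t)) - (Y (z₁ 0) - Y (z₂ 0))) t := by
    intro t ht
    have d3 : HasDerivAt (fun t : ℝ => t • (Y (z₁ 0) - Y (z₂ 0))) (Y (z₁ 0) - Y (z₂ 0)) t := by
      simpa using (hasDerivAt_id t).smul_const (Y (z₁ 0) - Y (z₂ 0))
    exact ((h1 t ht).sub (h2 t ht)).sub d3
  have hf2 := norm_image_sub_le_of_norm_deriv_le_segment'
      (f := fun t => z₁ t - z₂ t - t • (Y (z₁ 0) - Y (z₂ 0)))
      (f' := fun t => (Y (z₁ t) - Y (z₂ t)) - (Y (z₁ 0) - Y (z₂ 0)))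
      (C := K₂ * (δ * Real.exp K) * τ) (a := 0) (b := τ)
      (fun t ht => (hf t ht).hasDerivWithinAt)
      (fun t ht => by
        refine (he2 t ⟨ht.1, ht.2.le⟩).trans ?_
        have : t - 0 ≤ τ := by linarith [ht.2]
        gcongr) τ ⟨hτ, le_rfl⟩
  simp only [zero_smul, sub_zero] at hf2
  refine hf2.trans (le_of_eq ?_)
  ring

variable {E : Type*} [NormedAddCommGroup E] [InnerProductSpace ℝ E]

lemma continuousOn_chr [FiniteDimensional ℝ E] {G : E → E →L[ℝ] E →L[ℝ] ℝ} {U : Set E}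
    (h : MetricOn G U) {c v : ℝ → E} {s : Set ℝ} (hc : ContinuousOn c s) (hv : ContinuousOn v s)
    (hcS : ∀ t ∈ s, c t ∈ U) :
    ContinuousOn (fun t => chr G (c t) (v t)) s := by
  have h0 := (contDiffOn_chr h).continuousOn
  have h2 : ContinuousOn (fun t => (c t, v t)) s := hc.prodMk hv
  have h3 : MapsTo (fun t => (c t, v t)) s (U ×ˢ (univ : Set E)) := by
    intro t ht
    exact ⟨hcS t ht, mem_univ _⟩
  exact h0.comp h2 h3

/-- A smooth minimising geodesic solves the geodesic equation. -/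
lemma SphGeod.acc [FiniteDimensional ℝ E] {g : E → E →L[ℝ] E →L[ℝ] ℝ} (hg : SphMetric g)
    {c : ℝ → E} {D : ℝ} (hc : SphGeod g c D) : ∀ t ∈ Icc (0:ℝ) 1,
      HasDerivAt (deriv c) (chr (ext g) (c t) (deriv c t)) t := by
  have h := metricOn_ext hg
  have hd : ContDiff ℝ ∞ (deriv c) := (contDiff_infty_iff_deriv.1 hc.smooth).2
  have hdd : ContDiff ℝ ∞ (deriv (deriv c)) := (contDiff_infty_iff_deriv.1 hd).2
  have h1 : EqOn (deriv (deriv c)) (fun t => chr (ext g) (c t) (deriv c t)) (Ioo 0 1) := by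
    intro t ht
    have ht' : t ∈ Icc (0:ℝ) 1 := ⟨ht.1.le, ht.2.le⟩
    have hct : c t ∈ ({0}ᶜ : Set E) := sphere_subset (hc.mem t ht')
    have h2 := SGeod.ham h sphere_subset hc t ht
    have h3 := (hasFDerivAt_snd (𝕜 := ℝ)
      (p := (c t, ext g (c t) (deriv c t)))).comp_hasDerivAt t h2
    have h4 : (ham (ext g) (c t, ext g (c t) (deriv c t))).2
        = force (ext g) (c t) (deriv c t) := by
      unfold ham
      simp only [h.inverse_apply hct]
    have h5 : HasDerivAt (fun t => ext g (c t) (deriv c t))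
        (force (ext g) (c t) (deriv c t)) t := by
      rw [← h4]; exact h3
    exact acc_of_momentum h hc.smooth hct h5
  have h2 := h1.of_subset_closure hdd.continuous.continuousOn
    (continuousOn_chr h hc.smooth.continuous.continuousOn hd.continuous.continuousOn
      (fun t ht => sphere_subset (hc.mem t ht)))
    Ioo_subset_Icc_self (by rw [closure_Ioo (by norm_num)])
  intro t ht
  have h3 : chr (ext g) (c t) (deriv c t) = deriv (deriv c) t := (h2 ht).symm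
  rw [h3]
  exact ((hd.differentiable (by simp)) t).hasDerivAt

/-- Uniformly short pieces of unit speed geodesics are minimising. -/
theorem UGeod.minimizing [FiniteDimensional ℝ E] {g : E → E →L[ℝ] E →L[ℝ] ℝ}
    (hg : SphMetric g) :
    ∃ τ₀ : ℝ, 0 < τ₀ ∧ ∀ γ : ℝ → E, UGeod g γ → ∀ a b : ℝ, a < b → b - a ≤ τ₀ →
      ∀ ℓ, Conn (ext g) {0}ᶜ (γ a) (γ b) ℓ → b - a ≤ ℓ := by
  have hprop : ProperSpace E := FiniteDimensional.proper ℝ E
  have h := metricOn_ext hg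
  have hS : IsCompact (Metric.sphere (0 : E) 1) := isCompact_sphere _ _
  obtain ⟨r, m, M, C', hr, hm, hM, hC', H⟩ := h.exists_bounds hS sphere_subset
  obtain ⟨χ, K, L, hYc, hYd, hK, hL, hχ0, hχ1⟩ := exists_field hg
  obtain ⟨C, hC, hT⟩ := taylor_diff hYd hYc
  refine ⟨min 1 (min (1 / (2 * (C + 1))) (1 / (2 * M * (L + 1)))), by positivity, ?_⟩
  intro γ hγ a b hab hτ ℓ hℓ
  obtain ⟨τ, hτdef⟩ : ∃ τ, τ = b - a := ⟨_, rfl⟩
  rw [← hτdef] at hτ ⊢
  have hτ0 : 0 < τ := by rw [hτdef]; linarith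
  have hτ1 : τ ≤ 1 := hτ.trans (min_le_left _ _)
  have hτ2 : τ ≤ 1 / (2 * (C + 1)) := hτ.trans ((min_le_right _ _).trans (min_le_left _ _))
  have hτ3 : τ ≤ 1 / (2 * M * (L + 1)) := hτ.trans ((min_le_right _ _).trans (min_le_right _ _))
  have hCτ : C * τ < 1 := by
    have h1 : (C + 1) * τ ≤ (C + 1) * (1 / (2 * (C + 1))) := by gcongr
    have h2 : (C + 1) * (1 / (2 * (C + 1))) = 1 / 2 := by field_simp
    nlinarith
  have hbτ : γ (a + τ) = γ b := by rw [hτdef]; congr 1; ring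
  -- the solution along γ
  have hz1 : ∀ t, HasDerivAt (fun t => (γ (a + t), deriv γ (a + t)))
      (χ (γ (a + t), deriv γ (a + t)) • geo (ext g) (γ (a + t), deriv γ (a + t))) t := by
    intro t
    rw [hχ1 _ (hγ.mem _) _ (hγ.speed _).le, one_smul]
    have hs : HasDerivAt (fun t : ℝ => a + t) 1 t := by simpa using (hasDerivAt_id t).const_add a
    have d1 := (hγ.hasDerivAt (a + t)).scomp t hs
    have d2 := (hγ.acc (a + t)).scomp t hs
    rw [one_smul] at d1 d2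
    exact d1.prodMk d2
  -- the endpoints differ
  have hne : γ a ≠ γ b := by
    intro heq
    have h1 : ‖(γ (a + τ) - τ • deriv γ a) - γ a‖ ≤ L * τ * τ := by
      have hacc : ∀ t, ‖chr (ext g) (γ t) (deriv γ t)‖ ≤ L := by
        intro t
        have h2 := hL (γ t, deriv γ t)
        rw [hχ1 _ (hγ.mem _) _ (hγ.speed _).le, one_smul] at h2
        exact (norm_snd_le _).trans h2
      have hv : ∀ t ∈ Icc 0 τ, ‖deriv γ (a + t) - deriv γ a‖ ≤ L * (t - 0) := by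
        have := norm_image_sub_le_of_norm_deriv_le_segment'
          (f := fun t => deriv γ (a + t)) (a := 0) (b := τ) (C := L)
          (f' := fun t => chr (ext g) (γ (a + t)) (deriv γ (a + t)))
          (fun t _ => by
            have hs : HasDerivAt (fun t : ℝ => a + t) 1 t := by
              simpa using (hasDerivAt_id t).const_add a
            have d2 := (hγ.acc (a + t)).scomp t hs
            rw [one_smul] at d2
            exact d2.hasDerivWithinAt)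
          (fun t _ => hacc _)
        simpa using this
      have := norm_image_sub_le_of_norm_deriv_le_segment'
        (f := fun t => γ (a + t) - t • deriv γ a) (a := 0) (b := τ) (C := L * τ)
        (f' := fun t => deriv γ (a + t) - deriv γ a)
        (fun t _ => by
          have hs : HasDerivAt (fun t : ℝ => a + t) 1 t := by
            simpa using (hasDerivAt_id t).const_add a
          have d1 := (hγ.hasDerivAt (a + t)).scomp t hs
          rw [one_smul] at d1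
          have d3 : HasDerivAt (fun t : ℝ => t • deriv γ a) (deriv γ a) t := by
            simpa using (hasDerivAt_id t).smul_const (deriv γ a)
          exact (d1.sub d3).hasDerivWithinAt)
        (fun t ht => by
          refine (hv t ⟨ht.1, ht.2.le⟩).trans ?_
          have : t - 0 ≤ τ := by linarith [ht.2]
          gcongr) τ ⟨hτ0.le, le_rfl⟩
      simpa using this
    rw [hbτ, ← heq] at h1
    have e1 : γ a - τ • deriv γ a - γ a = -(τ • deriv γ a) := by abel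
    rw [e1, norm_neg, norm_smul, Real.norm_eq_abs, abs_of_pos hτ0] at h1
    have h2 : 1 ≤ M * ‖deriv γ a‖ := by
      rw [← hγ.speed a]
      exact ((H (γ a) (hγ.mem a) (γ a) (by simpa using hr.le)).2 (deriv γ a)).2.1
    have h3 : ‖deriv γ a‖ ≤ L * τ := by
      have : τ * ‖deriv γ a‖ ≤ τ * (L * τ) := by linarith
      exact le_of_mul_le_mul_left this hτ0
    have h4 : M * (L + 1) * τ ≤ M * (L + 1) * (1 / (2 * M * (L + 1))) := by gcongr
    have h5 : M * ((L:ℝ) + 1) * (1 / (2 * M * (L + 1))) = 1 / 2 := by field_simp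
    have h6 : M * ‖deriv γ a‖ ≤ M * (L * τ) := by gcongr
    have h7 : M * (L * τ) ≤ M * (L + 1) * τ := by
      have : 0 ≤ M * τ := by positivity
      nlinarith
    linarith
  -- connect along γ
  have hconn : Conn (ext g) {0}ᶜ (γ a) (γ b) τ := by
    have h1 := conn_of_curve (G := ext g) (U := {0}ᶜ) h.contOn hab.le
      (fun t _ => (hγ.smooth.of_le (by simp : (1 : WithTop ℕ∞) ≤ ∞)).contDiffAt)
      (fun t _ => sphere_subset (hγ.mem t))
    refine h1.mono le_rfl (le_of_eq ?_)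
    unfold Len
    have : ∫ t in a..b, nrm (ext g) (γ t) (deriv γ t) = ∫ t in a..b, (1:ℝ) :=
      intervalIntegral.integral_congr (fun t _ => hγ.speed t)
    rw [this]; simp [hτdef]
  obtain ⟨c, D, hc, hc0, hc1⟩ := exists_sphGeod hg (hγ.mem a) (hγ.mem b) hne ⟨τ, hconn⟩
  have hDτ : D ≤ τ := by
    have h1 := hc.geod.lower 0 1 le_rfl zero_le_one le_rfl τ (by rw [hc0, hc1]; exact hconn)
    linarith
  have hDℓ : D ≤ ℓ := by
    have h1 := hc.geod.lower 0 1 le_rfl zero_le_one le_rfl ℓ (by rw [hc0, hc1]; exact hℓ)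
    linarith
  have hDpos : 0 < D := hc.pos
  -- the rescaled minimiser
  have hres : ∀ t ∈ Icc 0 τ, τ⁻¹ * t ∈ Icc (0:ℝ) 1 := by
    intro t ht
    constructor
    · have := ht.1; positivity
    · rw [inv_mul_le_iff₀ hτ0]; linarith [ht.2]
  have hsp : ∀ t ∈ Icc 0 τ, nrm (ext g) (c (τ⁻¹ * t)) (τ⁻¹ • deriv c (τ⁻¹ * t)) = τ⁻¹ * D := by
    intro t ht
    rw [nrm_smul, hc.speed _ (hres t ht), abs_of_pos (inv_pos.2 hτ0)]
  have hle1 : τ⁻¹ * D ≤ 1 := by
    rw [inv_mul_le_iff₀ hτ0]; linarith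
  have hz2 : ∀ t ∈ Icc 0 τ, HasDerivAt (fun t => (c (τ⁻¹ * t), τ⁻¹ • deriv c (τ⁻¹ * t)))
      (χ (c (τ⁻¹ * t), τ⁻¹ • deriv c (τ⁻¹ * t)) •
        geo (ext g) (c (τ⁻¹ * t), τ⁻¹ • deriv c (τ⁻¹ * t))) t := by
    intro t ht
    rw [hχ1 _ (hc.mem _ (hres t ht)) _ (by rw [hsp t ht]; exact hle1), one_smul]
    have hs : HasDerivAt (fun t : ℝ => τ⁻¹ * t) τ⁻¹ t := by
      simpa using (hasDerivAt_id t).const_mul τ⁻¹
    have hcd : HasDerivAt c (deriv c (τ⁻¹ * t)) (τ⁻¹ * t) :=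
      ((hc.smooth.differentiable (by simp)) _).hasDerivAt
    have d1 := hcd.scomp t hs
    have d2 := ((SphGeod.acc hg hc _ (hres t ht)).scomp t hs).const_smul τ⁻¹
    have e1 : geo (ext g) (c (τ⁻¹ * t), τ⁻¹ • deriv c (τ⁻¹ * t))
        = (τ⁻¹ • deriv c (τ⁻¹ * t),
          τ⁻¹ • τ⁻¹ • chr (ext g) (c (τ⁻¹ * t)) (deriv c (τ⁻¹ * t))) := by
      unfold geo
      simp only
      rw [chr_smul, sq, mul_smul]
    rw [e1]
    exact d1.prodMk d2
  have hfin := hT _ _ τ hτ0.le hτ1 (fun t _ => hz1 t) hz2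
  have e2 : c (τ⁻¹ * τ) = γ b := by rw [inv_mul_cancel₀ hτ0.ne', hc1]
  have e3 : c (τ⁻¹ * 0) = γ a := by rw [mul_zero, hc0]
  have e4 : χ (γ (a + 0), deriv γ (a + 0)) = 1 := hχ1 _ (hγ.mem _) _ (hγ.speed _).le
  have h00 : (0:ℝ) ∈ Icc 0 τ := ⟨le_rfl, hτ0.le⟩
  have e5 : χ (c (τ⁻¹ * 0), τ⁻¹ • deriv c (τ⁻¹ * 0)) = 1 :=
    hχ1 _ (hc.mem _ (hres 0 h00)) _ (by rw [hsp 0 h00]; exact hle1)
  simp only [e4, e5, one_smul] at hfin
  rw [add_zero] at hfin
  obtain ⟨w, hw⟩ : ∃ w, w = deriv γ a - τ⁻¹ • deriv c (τ⁻¹ * 0) := ⟨_, rfl⟩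
  have h5 : ‖τ • w‖ ≤ C * τ ^ 2 * ‖w‖ := by
    have h6 : ‖(γ a, deriv γ a) - (c (τ⁻¹ * 0), τ⁻¹ • deriv c (τ⁻¹ * 0))‖ = ‖w‖ := by
      rw [e3, Prod.mk_sub_mk, sub_self, ← hw, Prod.norm_mk, norm_zero, max_eq_right (norm_nonneg _)]
    rw [h6] at hfin
    refine le_trans ?_ hfin
    refine le_trans (le_of_eq ?_) (norm_fst_le _)
    simp only [geo, Prod.fst_sub, Prod.smul_fst]
    rw [hbτ, e2, e3, ← hw]
    have : γ b - γ b - τ • w - (γ a - γ a) = -(τ • w) := by abel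
    rw [this, norm_neg]
  have hw0 : w = 0 := by
    by_contra hne0
    have hwp : 0 < ‖w‖ := norm_pos_iff.2 hne0
    rw [norm_smul, Real.norm_eq_abs, abs_of_pos hτ0] at h5
    have h7 : C * τ ^ 2 * ‖w‖ = (C * τ) * (τ * ‖w‖) := by ring
    rw [h7] at h5
    have h8 : 0 < τ * ‖w‖ := by positivity
    nlinarith
  have h9 : deriv γ a = τ⁻¹ • deriv c (τ⁻¹ * 0) := by
    rw [hw0] at hw
    exact (sub_eq_zero.1 hw.symm)
  have h10 := hγ.speed a
  have h11 := hsp 0 h00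
  rw [e3, ← h9, h10] at h11
  have h12 : D = τ := by
    field_simp at h11
    linarith
  linarith

end Run7.h60
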