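import Pool.Agent.Run7.h60.Reg4

/-! Minimising metric geodesics are smooth: the final statement. -/

set_option maxSynthPendingDepth 3

open Set MeasureTheory intervalIntegral Filter
open scoped Topology ContDiff

namespace Run7.h60

variable {E : Type*} [NormedAddCommGroup E] [NormedSpace ℝ E]

theorem MGeod.smooth [FiniteDimensional ℝ E] {G : E → E →L[ℝ] E →L[ℝ] ℝ} {U : Set E}
    (h : MetricOn G U) {S : Set E} (hS : IsCompact S)
    (hSU : S ⊆ U) {γ : ℝ → E} {D : ℝ} (hγS : ∀ t, γ t ∈ S) (hγ : MGeod G U γ D) (hD : 0 < D) :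
    ∃ c : ℝ → E, ContDiff ℝ ∞ c ∧ (∀ t ∈ Icc (0:ℝ) 1, c t = γ t) ∧
      ∀ t ∈ Icc (0:ℝ) 1, nrm G (c t) (deriv c t) = D := by
  obtain ⟨F, v, hFS, hFγ, hFc, hvc, hv, hspeed⟩ := hγ.regular h hS hSU hγS hD
  have hFU : ∀ t, F t ∈ U := fun t => hSU (hFS t)
  have hmin : ∀ s t, 0 ≤ s → s ≤ t → t ≤ 1 → ∀ ℓ, Conn G U (F s) (F t) ℓ → D * (t - s) ≤ ℓ := by
    intro s t hs hst ht ℓ hℓ
    rw [hFγ s ⟨hs, hst.trans ht⟩, hFγ t ⟨hs.trans hst, ht⟩] at hℓ
    exact hγ.lower s t hs hst ht ℓ hℓ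
  have hmom := momentum h hD hFU hFc hvc hv hspeed hmin
  obtain ⟨r, m, M, C, hr, hm, hM, hC, H⟩ := h.exists_bounds hS hSU
  obtain ⟨B, hB⟩ : ∃ B : ℝ, ∀ x ∈ S, ‖G x‖ ≤ B := by
    obtain ⟨B, hB⟩ := (hS.image_of_continuousOn (h.contOn.mono hSU)).isBounded.exists_norm_le
    exact ⟨B, fun x hx => hB _ ⟨x, hx, rfl⟩⟩
  have hB0 : 0 ≤ B := (norm_nonneg _).trans (hB (F 0) (hFS 0))
  have hprop : ProperSpace (E →L[ℝ] ℝ) := FiniteDimensional.proper ℝ _
  obtain ⟨Z, hZ, hZz⟩ := extend_solution (X := ham G) (Ω := U ×ˢ (univ : Set (E →L[ℝ] ℝ)))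
    (K := S ×ˢ Metric.closedBall (0 : E →L[ℝ] ℝ) (B * (D / m)))
    (h.isOpen.prod isOpen_univ) (contDiffOn_ham h)
    (hS.prod (isCompact_closedBall _ _)) (Set.prod_mono hSU (subset_univ _))
    (z := fun t => (F t, G (F t) (v t)))
    (by
      intro t ht
      have e1 : ham G (F t, G (F t) (v t)) = (v t, force G (F t) (v t)) := by
        unfold ham
        simp only [h.inverse_apply (hFU t)]
      constructor
      · rw [e1]
        exact (hv t ht).prodMk (hmom t ht)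
      · refine ⟨hFS t, ?_⟩
        rw [mem_closedBall_zero_iff]
        have h1 : m * ‖v t‖ ≤ D := by
          rw [← hspeed t ht]
          exact ((H (F t) (hFS t) (F t) (by simpa using hr.le)).2 (v t)).1
        have h2 : ‖v t‖ ≤ D / m := by
          rw [le_div_iff₀ hm]; linarith
        calc ‖G (F t) (v t)‖ ≤ ‖G (F t)‖ * ‖v t‖ := ContinuousLinearMap.le_opNorm _ _
          _ ≤ B * (D / m) := by
              have := hB (F t) (hFS t)
              gcongr)
  obtain ⟨c, hc⟩ : ∃ c : ℝ → E, c = fun t => (Z t).1 := ⟨_, rfl⟩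
  have hcd : ContDiff ℝ ∞ c := by rw [hc]; exact contDiff_fst.comp hZ
  have hcF : EqOn c F (Ioo 0 1) := by
    intro t ht
    rw [hc]; simp only; rw [hZz t ht]
  have hcF' : EqOn c F (Icc 0 1) :=
    hcF.of_subset_closure hcd.continuous.continuousOn hFc.continuousOn Ioo_subset_Icc_self
      (by rw [closure_Ioo (by norm_num)])
  refine ⟨c, hcd, fun t ht => (hcF' ht).trans (hFγ t ht), ?_⟩
  have hcd1 : ContDiff ℝ 1 c := hcd.of_le (by simp)
  have hcont : ContinuousOn (fun t => nrm G (c t) (deriv c t)) (Icc 0 1) :=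
    continuousOn_nrm h.contOn hcd1.continuous.continuousOn
      (fun t ht => by rw [hcF' ht]; exact hFU t)
      (hcd1.continuous_deriv (by norm_num)).continuousOn
  have heq : EqOn (fun t => nrm G (c t) (deriv c t)) (fun _ => D) (Ioo 0 1) := by
    intro t ht
    have h1 : HasDerivAt c (v t) t := by
      apply (hv t ht).congr_of_eventuallyEq
      filter_upwards [isOpen_Ioo.mem_nhds ht] with s hs
      exact hcF hs
    simp only
    rw [h1.deriv, hcF ht, hspeed t ht]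
  exact heq.of_subset_closure hcont continuousOn_const Ioo_subset_Icc_self
      (by rw [closure_Ioo (by norm_num)])

end Run7.h60
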