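import Pool.Agent.Run7.h60.Uniq

/-! Minimising geodesics of metrics on the sphere. -/

set_option maxSynthPendingDepth 3

open Set MeasureTheory intervalIntegral Filter
open scoped Topology ContDiff RealInnerProductSpace

namespace Run7.h60

variable {E : Type*} [NormedAddCommGroup E] [InnerProductSpace ℝ E]

/-- A minimising geodesic on the unit sphere for the metric induced by `g`. -/
def SphGeod (g : E → E →L[ℝ] E →L[ℝ] ℝ) (c : ℝ → E) (D : ℝ) : Prop :=
  SGeod (ext g) {0}ᶜ (Metric.sphere (0 : E) 1) c D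

lemma conn_straight {g : E → E →L[ℝ] E →L[ℝ] ℝ} (hg : SphMetric g) {x y : E}
    (hx : x ∈ Metric.sphere (0 : E) 1) (hy : y ∈ Metric.sphere (0 : E) 1) (hxy : y ≠ -x) :
    ∃ ℓ, Conn (ext g) {0}ᶜ x y ℓ := by
  have hcd : ContDiff ℝ 1 (fun t : ℝ => (1 - t) • x + t • y) :=
    ((contDiff_const.sub contDiff_id).smul contDiff_const).add (contDiff_id.smul contDiff_const)
  have hx1 : ‖x‖ = 1 := by simpa using hx
  have hy1 : ‖y‖ = 1 := by simpa using hy
  have h := conn_of_curve (G := ext g) (U := {0}ᶜ) (metricOn_ext hg).contOn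
    (c := fun t : ℝ => (1 - t) • x + t • y) (zero_le_one) (fun t _ => hcd.contDiffAt)
    (by
      intro t ht h0
      have h1 : (1 - t) • x = -(t • y) := eq_neg_of_add_eq_zero_left h0
      have h2 := congrArg norm h1
      rw [norm_neg, norm_smul, norm_smul, hx1, hy1, mul_one, mul_one, Real.norm_eq_abs,
        Real.norm_eq_abs, abs_of_nonneg (by linarith [ht.2]), abs_of_nonneg ht.1] at h2
      have h3 : t = 1/2 := by linarith
      rw [h3] at h1
      have h4 : (1/2:ℝ) • (y + x) = 0 := by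
        rw [smul_add]
        have : (1 - 1/2 : ℝ) = 1/2 := by norm_num
        rw [this] at h1
        rw [h1]; abel
      have h5 : y + x = 0 := by
        rcases smul_eq_zero.1 h4 with h6 | h6
        · norm_num at h6
        · exact h6
      exact hxy (eq_neg_of_add_eq_zero_left h5))
  simp only [sub_zero, one_smul, zero_smul, add_zero, sub_self, zero_add] at h
  exact ⟨_, h⟩

theorem exists_sphGeod [FiniteDimensional ℝ E] {g : E → E →L[ℝ] E →L[ℝ] ℝ} (hg : SphMetric g)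
    {x y : E} (hx : x ∈ Metric.sphere (0 : E) 1) (hy : y ∈ Metric.sphere (0 : E) 1)
    (hxy : x ≠ y) (hconn : ∃ ℓ, Conn (ext g) {0}ᶜ x y ℓ) :
    ∃ (c : ℝ → E) (D : ℝ), SphGeod g c D ∧ c 0 = x ∧ c 1 = y := by
  have hprop : ProperSpace E := FiniteDimensional.proper ℝ E
  have hM := metricOn_ext hg
  have hS : IsCompact (Metric.sphere (0 : E) 1) := isCompact_sphere _ _
  obtain ⟨ℓ₀, hℓ₀⟩ := hconn
  obtain ⟨γ, D, hD0, hγS, hγ0, hγ1, hγ⟩ := hM.exists_mgeod hS sphere_subset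
    (fun x hx y hy ℓ h => conn_project hg hx hy h) hx hy hℓ₀
  have hDpos : 0 < D := by
    obtain ⟨r, m, hr, hm, H⟩ := hM.conn_far hS sphere_subset
    have h1 : m * min r ‖y - x‖ ≤ D := by
      apply le_of_forall_pos_le_add
      intro ε hε
      have h2 := hγ.conn 0 1 le_rfl zero_le_one le_rfl ε hε
      rw [hγ0, hγ1, sub_zero, mul_one] at h2
      exact H x hx y _ h2
    have h3 : 0 < ‖y - x‖ := norm_pos_iff.2 (sub_ne_zero.2 hxy.symm)
    have : 0 < m * min r ‖y - x‖ := mul_pos hm (lt_min hr h3)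
    linarith
  obtain ⟨c, hc, hcγ, hcs⟩ := hγ.smooth hM hS sphere_subset hγS hDpos
  refine ⟨c, D, ⟨hDpos, hc, ?_, hcs, ?_⟩, ?_, ?_⟩
  · intro t ht; rw [hcγ t ht]; exact hγS t
  · constructor
    · intro s t hs hst ht ε hε
      rw [hcγ s ⟨hs, hst.trans ht⟩, hcγ t ⟨hs.trans hst, ht⟩]
      exact hγ.conn s t hs hst ht ε hε
    · intro s t hs hst ht ℓ hℓ
      rw [hcγ s ⟨hs, hst.trans ht⟩, hcγ t ⟨hs.trans hst, ht⟩] at hℓ
      exact hγ.lower s t hs hst ht ℓ hℓ
  · rw [hcγ 0 ⟨le_rfl, zero_le_one⟩, hγ0]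
  · rw [hcγ 1 ⟨zero_le_one, le_rfl⟩, hγ1]

/-- The parameter is determined by the point. -/
lemma SphGeod.param_eq {g : E → E →L[ℝ] E →L[ℝ] ℝ} {c₁ c₂ : ℝ → E}
    {D : ℝ} (h1 : SphGeod g c₁ D) (h2 : SphGeod g c₂ D) (h0 : c₁ 0 = c₂ 0) {s t : ℝ}
    (hs : s ∈ Icc (0:ℝ) 1) (ht : t ∈ Icc (0:ℝ) 1) (hst : c₁ s = c₂ t) : s = t := by
  have hD : 0 < D := h1.pos
  have a1 : D * s ≤ D * t := by
    apply le_of_forall_pos_le_add
    intro ε hε
    have h3 := h2.geod.conn 0 t le_rfl ht.1 ht.2 ε hε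
    rw [← h0, ← hst] at h3
    have h4 := h1.geod.lower 0 s le_rfl hs.1 hs.2 _ h3
    linarith
  have a2 : D * t ≤ D * s := by
    apply le_of_forall_pos_le_add
    intro ε hε
    have h3 := h1.geod.conn 0 s le_rfl hs.1 hs.2 ε hε
    rw [h0, hst] at h3
    have h4 := h2.geod.lower 0 t le_rfl ht.1 ht.2 _ h3
    linarith
  exact mul_left_cancel₀ hD.ne' (le_antisymm a1 a2)

lemma SphGeod.reverse {g : E → E →L[ℝ] E →L[ℝ] ℝ} {c : ℝ → E}
    {D : ℝ} (h : SphGeod g c D) : SphGeod g (fun t => c (1 - t)) D := by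
  have hd : ∀ t, deriv (fun t => c (1 - t)) t = - deriv c (1 - t) := by
    intro t
    have h2 : HasDerivAt c (deriv c (1 - t)) (1 - t) :=
      ((h.smooth.differentiable (by simp)) _).hasDerivAt
    have h3 : HasDerivAt (fun t : ℝ => 1 - t) (-1) t := by
      simpa using (hasDerivAt_id t).const_sub 1
    have h4 : HasDerivAt (fun t => c (1 - t)) ((-1:ℝ) • deriv c (1 - t)) t := h2.scomp t h3
    rw [h4.deriv]; simp
  refine ⟨h.pos, h.smooth.comp (contDiff_const.sub contDiff_id), ?_, ?_, ?_⟩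
  · intro t ht; exact h.mem _ ⟨by linarith [ht.2], by linarith [ht.1]⟩
  · intro t ht
    rw [hd]
    have h5 := nrm_smul (ext g) (c (1 - t)) (deriv c (1 - t)) (-1)
    simp only [neg_smul, one_smul, abs_neg, abs_one, one_mul] at h5
    rw [h5]
    exact h.speed _ ⟨by linarith [ht.2], by linarith [ht.1]⟩
  · constructor
    · intro s t hs hst ht ε hε
      have h6 := (h.geod.conn (1 - t) (1 - s) (by linarith) (by linarith) (by linarith) ε hε).symm
      rwa [show 1 - s - (1 - t) = t - s by ring] at h6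
    · intro s t hs hst ht ℓ hℓ
      have h6 := h.geod.lower (1 - t) (1 - s) (by linarith) (by linarith) (by linarith) ℓ hℓ.symm
      rwa [show 1 - s - (1 - t) = t - s by ring] at h6

lemma SphGeod.tangent {g : E → E →L[ℝ] E →L[ℝ] ℝ} {c : ℝ → E} {D : ℝ} (h : SphGeod g c D) :
    ∀ t ∈ Icc (0:ℝ) 1, ⟪c t, deriv c t⟫ = 0 :=
  inner_deriv_eq_zero (h.smooth.of_le (by simp)) h.mem

lemma SphGeod.sqrt_eq {g : E → E →L[ℝ] E →L[ℝ] ℝ} {c : ℝ → E} {D : ℝ} (h : SphGeod g c D) :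
    ∀ t ∈ Icc (0:ℝ) 1, Real.sqrt (g (c t) (deriv c t) (deriv c t)) = D := by
  intro t ht
  have h1 := h.tangent t ht
  rw [← h.speed t ht, nrm, ext_tangent g (h.mem t ht) h1 h1]

lemma SphGeod.deriv_ne {g : E → E →L[ℝ] E →L[ℝ] ℝ} {c : ℝ → E} {D : ℝ} (h : SphGeod g c D) :
    ∀ t ∈ Icc (0:ℝ) 1, deriv c t ≠ 0 := by
  intro t ht h0
  have h1 := h.speed t ht
  rw [h0, nrm_zero] at h1
  exact h.pos.ne h1

lemma SphGeod.le_length {g : E → E →L[ℝ] E →L[ℝ] ℝ} (hg : SphMetric g) {c : ℝ → E} {D : ℝ}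
    (h : SphGeod g c D) {a b : ℝ} (ha : 0 ≤ a) (hab : a < b) (hb : b ≤ 1) {e : ℝ → E}
    (he : ContDiff ℝ 1 e) (heS : ∀ s ∈ Icc (0:ℝ) 1, e s ∈ Metric.sphere (0 : E) 1)
    (h0 : e 0 = c a) (h1 : e 1 = c b) :
    (∫ s in a..b, Real.sqrt (g (c s) (deriv c s) (deriv c s))) ≤
      ∫ s in (0:ℝ)..1, Real.sqrt (g (e s) (deriv e s) (deriv e s)) := by
  have h2 : (∫ s in a..b, Real.sqrt (g (c s) (deriv c s) (deriv c s))) = D * (b - a) := by
    have : (∫ s in a..b, Real.sqrt (g (c s) (deriv c s) (deriv c s))) = ∫ s in a..b, D := by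
      apply intervalIntegral.integral_congr
      intro s hs
      rw [uIcc_of_le hab.le] at hs
      exact h.sqrt_eq s ⟨ha.trans hs.1, hs.2.trans hb⟩
    rw [this, intervalIntegral.integral_const, smul_eq_mul, mul_comm]
  rw [h2]
  have h3 := conn_of_sphere_curve hg he heS
  rw [h0, h1] at h3
  exact h.geod.lower a b ha hab.le hb _ h3

lemma deriv_eq_of_eqOn' {F : Type*} [NormedAddCommGroup F] [NormedSpace ℝ F] {f₁ f₂ : ℝ → F}
    {a b : ℝ} (hab : a < b) (h1 : ContDiff ℝ 1 f₁) (h2 : ContDiff ℝ 1 f₂)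
    (h : EqOn f₁ f₂ (Icc a b)) : EqOn (deriv f₁) (deriv f₂) (Icc a b) := by
  have h3 : EqOn (deriv f₁) (deriv f₂) (Ioo a b) := by
    intro t ht
    apply Filter.EventuallyEq.deriv_eq
    filter_upwards [isOpen_Ioo.mem_nhds ht] with s hs
    exact h ⟨hs.1.le, hs.2.le⟩
  exact h3.of_subset_closure (h1.continuous_deriv (by norm_num)).continuousOn
    (h2.continuous_deriv (by norm_num)).continuousOn Ioo_subset_Icc_self
    (by rw [closure_Ioo hab.ne])

lemma deriv_eq_of_eqOn {F : Type*} [NormedAddCommGroup F] [NormedSpace ℝ F] {f₁ f₂ : ℝ → F}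
    (h1 : ContDiff ℝ 1 f₁) (h2 : ContDiff ℝ 1 f₂) (h : EqOn f₁ f₂ (Icc 0 1)) :
    EqOn (deriv f₁) (deriv f₂) (Icc 0 1) := by
  have h3 : EqOn (deriv f₁) (deriv f₂) (Ioo 0 1) := by
    intro t ht
    apply Filter.EventuallyEq.deriv_eq
    filter_upwards [isOpen_Ioo.mem_nhds ht] with s hs
    exact h ⟨hs.1.le, hs.2.le⟩
  exact h3.of_subset_closure (h1.continuous_deriv (by norm_num)).continuousOn
    (h2.continuous_deriv (by norm_num)).continuousOn Ioo_subset_Icc_self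
    (by rw [closure_Ioo (by norm_num)])

end Run7.h60
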