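import Pool.Agent.Run7.h60.Smooth

/-! Metrics on the unit sphere, extended to the complement of the origin. -/

set_option maxSynthPendingDepth 3

open Set MeasureTheory intervalIntegral Filter
open scoped Topology ContDiff RealInnerProductSpace

namespace Run7.h60

variable {E : Type*} [NormedAddCommGroup E] [InnerProductSpace ℝ E]

/-- A smooth family of forms on `E` inducing a Riemannian metric on the unit sphere. -/
structure SphMetric (g : E → E →L[ℝ] E →L[ℝ] ℝ) : Prop where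
  smooth : ContDiff ℝ ∞ g
  symm : ∀ x ∈ Metric.sphere (0 : E) 1, ∀ v w : E, ⟪x, v⟫ = 0 → ⟪x, w⟫ = 0 → g x v w = g x w v
  pos : ∀ x ∈ Metric.sphere (0 : E) 1, ∀ v : E, ⟪x, v⟫ = 0 → v ≠ 0 → 0 < g x v v

/-- Radial projection. -/
noncomputable def rad (x : E) : E := ‖x‖⁻¹ • x

/-- Differential of the radial projection. -/
noncomputable def drad (x : E) : E →L[ℝ] E :=
  ‖x‖⁻¹ • (ContinuousLinearMap.id ℝ E) - (‖x‖⁻¹ ^ 3) • (innerSL ℝ x).smulRight x

lemma drad_apply (x v : E) : drad x v = ‖x‖⁻¹ • v - (‖x‖⁻¹ ^ 3 * ⟪x, v⟫) • x := by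
  simp [drad, smul_smul]

lemma norm_rad {x : E} (hx : x ≠ 0) : ‖rad x‖ = 1 := by
  unfold rad
  rw [norm_smul, norm_inv, norm_norm, inv_mul_cancel₀ (norm_ne_zero_iff.2 hx)]

lemma rad_mem {x : E} (hx : x ≠ 0) : rad x ∈ Metric.sphere (0 : E) 1 := by
  simpa using norm_rad hx

lemma rad_eq {x : E} (hx : x ∈ Metric.sphere (0 : E) 1) : rad x = x := by
  have : ‖x‖ = 1 := by simpa using hx
  simp [rad, this]

lemma inner_drad {x : E} (hx : x ≠ 0) (v : E) : ⟪rad x, drad x v⟫ = 0 := by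
  have hn : ‖x‖ ≠ 0 := norm_ne_zero_iff.2 hx
  rw [drad_apply, rad, inner_sub_right, real_inner_smul_left, real_inner_smul_left,
    real_inner_smul_right, real_inner_smul_right, real_inner_self_eq_norm_sq]
  field_simp
  ring

lemma drad_tangent {x v : E} (hx : x ∈ Metric.sphere (0 : E) 1) (hv : ⟪x, v⟫ = 0) :
    drad x v = v := by
  have : ‖x‖ = 1 := by simpa using hx
  rw [drad_apply, this, hv]; simp

lemma hasFDerivAt_rad {x : E} (hx : x ≠ 0) : HasFDerivAt rad (drad x) x := by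
  have hn : ‖x‖ ≠ 0 := norm_ne_zero_iff.2 hx
  have h1 : HasFDerivAt (fun y : E => ‖y‖ ^ 2) (2 • innerSL ℝ x) x :=
    (hasStrictFDerivAt_norm_sq x).hasFDerivAt
  have h2 := h1.sqrt (by positivity)
  have h3 : HasDerivAt (fun t : ℝ => t⁻¹) (-(Real.sqrt (‖x‖ ^ 2) ^ 2)⁻¹) (Real.sqrt (‖x‖ ^ 2)) :=
    hasDerivAt_inv (by rw [Real.sqrt_sq (norm_nonneg x)]; exact hn)
  have h4 := h3.comp_hasFDerivAt x h2
  have h5 := h4.smul (hasFDerivAt_id x)
  have h6 : rad = fun y : E => ((fun t : ℝ => t⁻¹) ∘ fun y => Real.sqrt (‖y‖ ^ 2)) y • id y := by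
    funext y
    simp [rad]
  rw [h6]
  refine h5.congr_fderiv ?_
  ext1 v
  rw [drad_apply]
  simp only [Function.comp_apply, Real.sqrt_sq (norm_nonneg x), id_eq, add_apply, smul_apply,
    ContinuousLinearMap.smulRight_apply, ContinuousLinearMap.coe_id', smul_eq_mul, nsmul_eq_mul,
    innerSL_apply_apply]
  rw [sub_eq_add_neg, ← neg_smul]
  congr 2
  simp
  field_simp

lemma contDiffOn_norm_inv : ContDiffOn ℝ ∞ (fun x : E => ‖x‖⁻¹) {0}ᶜ := by
  intro x hx
  have hx0 : x ≠ 0 := hx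
  exact ((contDiffAt_norm ℝ hx0).inv (norm_ne_zero_iff.2 hx0)).contDiffWithinAt

lemma contDiffOn_rad : ContDiffOn ℝ ∞ (rad : E → E) {0}ᶜ :=
  contDiffOn_norm_inv.smul contDiffOn_id

lemma contDiffOn_drad : ContDiffOn ℝ ∞ (drad : E → E →L[ℝ] E) {0}ᶜ := by
  unfold drad
  have h1 : ContDiff ℝ ∞ (fun x : E => (innerSL ℝ x).smulRight x) :=
    (innerSL ℝ).contDiff.smulRight contDiff_id
  exact (contDiffOn_norm_inv.smul contDiffOn_const).sub
    ((contDiffOn_norm_inv.pow 3).smul h1.contDiffOn)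

/-- Extension of the metric to the complement of the origin. -/
noncomputable def ext (g : E → E →L[ℝ] E →L[ℝ] ℝ) (x : E) : E →L[ℝ] E →L[ℝ] ℝ :=
  ((((g (rad x)).comp (drad x)).flip).comp (drad x)).flip
    + (innerSL ℝ x).smulRight (innerSL ℝ x)

lemma ext_apply (g : E → E →L[ℝ] E →L[ℝ] ℝ) (x v w : E) :
    ext g x v w = g (rad x) (drad x v) (drad x w) + ⟪x, v⟫ * ⟪x, w⟫ := by
  simp [ext]

lemma ext_tangent (g : E → E →L[ℝ] E →L[ℝ] ℝ) {x v w : E} (hx : x ∈ Metric.sphere (0 : E) 1)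
    (hv : ⟪x, v⟫ = 0) (hw : ⟪x, w⟫ = 0) : ext g x v w = g x v w := by
  rw [ext_apply, rad_eq hx, drad_tangent hx hv, drad_tangent hx hw, hv]
  simp

lemma contDiffOn_ext {g : E → E →L[ℝ] E →L[ℝ] ℝ} (hg : SphMetric g) :
    ContDiffOn ℝ ∞ (ext g) {0}ᶜ := by
  unfold ext
  have h1 : ContDiffOn ℝ ∞ (fun x : E => (g (rad x)).comp (drad x)) {0}ᶜ :=
    (hg.smooth.comp_contDiffOn contDiffOn_rad).clm_comp contDiffOn_drad
  have h2 : ContDiffOn ℝ ∞ (fun x : E => ((g (rad x)).comp (drad x)).flip) {0}ᶜ :=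
    (ContinuousLinearMap.flipₗᵢ ℝ E E ℝ).contDiff.comp_contDiffOn h1
  have h3 : ContDiffOn ℝ ∞ (fun x : E => (((g (rad x)).comp (drad x)).flip).comp (drad x)) {0}ᶜ :=
    h2.clm_comp contDiffOn_drad
  have h4 : ContDiffOn ℝ ∞
      (fun x : E => ((((g (rad x)).comp (drad x)).flip).comp (drad x)).flip) {0}ᶜ :=
    (ContinuousLinearMap.flipₗᵢ ℝ E E ℝ).contDiff.comp_contDiffOn h3
  have h5 : ContDiff ℝ ∞ (fun x : E => (innerSL ℝ x).smulRight (innerSL ℝ x)) :=
    (innerSL ℝ).contDiff.smulRight (innerSL ℝ).contDiff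
  exact h4.add h5.contDiffOn

lemma metricOn_ext {g : E → E →L[ℝ] E →L[ℝ] ℝ} (hg : SphMetric g) :
    MetricOn (ext g) {0}ᶜ where
  isOpen := isOpen_compl_singleton
  smooth := contDiffOn_ext hg
  symm := by
    intro x hx v w
    have hx0 : x ≠ 0 := hx
    rw [ext_apply, ext_apply, hg.symm _ (rad_mem hx0) _ _ (inner_drad hx0 v) (inner_drad hx0 w)]
    ring
  pos := by
    intro x hx v hv
    have hx0 : x ≠ 0 := hx
    rw [ext_apply]
    by_cases h : drad x v = 0
    · have h1 : ⟪x, v⟫ ≠ 0 := by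
        intro h2
        rw [drad_apply, h2] at h
        simp at h
        rcases h with h | h
        · exact hx0 h
        · exact hv h
      rw [h]
      simp only [map_zero]
      have := mul_self_pos.2 h1
      linarith
    · have h1 := hg.pos _ (rad_mem hx0) _ (inner_drad hx0 v) h
      have h2 := mul_self_nonneg ⟪x, v⟫
      linarith

lemma sphere_subset : Metric.sphere (0 : E) 1 ⊆ ({0}ᶜ : Set E) := by
  intro x hx h0
  have h1 : ‖x‖ = 1 := by simpa using hx
  have h2 : x = 0 := h0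
  rw [h2, norm_zero] at h1
  norm_num at h1

/-- The radial projection does not increase lengths. -/
lemma conn_project {g : E → E →L[ℝ] E →L[ℝ] ℝ} (hg : SphMetric g) {x y : E} {ℓ : ℝ}
    (hx : x ∈ Metric.sphere (0 : E) 1) (hy : y ∈ Metric.sphere (0 : E) 1)
    (h : Conn (ext g) {0}ᶜ x y ℓ) : Conn (ext g) (Metric.sphere (0 : E) 1) x y ℓ := by
  obtain ⟨c, hc, hcU, hc0, hc1, hℓ⟩ := h
  have hcn : ∀ t, c t ≠ 0 := fun t => hcU t
  have hd : ContDiff ℝ 1 (fun t => rad (c t)) := by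
    rw [contDiff_iff_contDiffAt]
    intro t
    have h1 : ContDiffAt ℝ ∞ rad (c t) :=
      contDiffOn_rad.contDiffAt (isOpen_compl_singleton.mem_nhds (hcU t))
    exact (h1.of_le (by simp)).comp t hc.contDiffAt
  refine ⟨fun t => rad (c t), hd, fun t => rad_mem (hcn t), ?_, ?_, ?_⟩
  · intro t ht; simp only; rw [hc0 t ht, rad_eq hx]
  · intro t ht; simp only; rw [hc1 t ht, rad_eq hy]
  · refine le_trans ?_ hℓ
    unfold Len
    have hder : ∀ t, deriv (fun t => rad (c t)) t = drad (c t) (deriv c t) := by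
      intro t
      have h1 : HasDerivAt c (deriv c t) t := ((hc.differentiable (by norm_num)) t).hasDerivAt
      exact ((hasFDerivAt_rad (hcn t)).comp_hasDerivAt t h1).deriv
    have hG := (metricOn_ext hg).contOn
    apply intervalIntegral.integral_mono_on zero_le_one
    · apply Continuous.intervalIntegrable
      rw [← continuousOn_univ]
      exact continuousOn_nrm hG hd.continuous.continuousOn
        (fun t _ => sphere_subset (rad_mem (hcn t)))
        (hd.continuous_deriv (by norm_num)).continuousOn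
    · apply Continuous.intervalIntegrable
      rw [← continuousOn_univ]
      exact continuousOn_nrm hG hc.continuous.continuousOn (fun t _ => hcU t)
        (hc.continuous_deriv (by norm_num)).continuousOn
    · intro t _
      rw [hder]
      unfold nrm
      apply Real.sqrt_le_sqrt
      have h1 := inner_drad (hcn t) (deriv c t)
      rw [ext_tangent g (rad_mem (hcn t)) h1 h1, ext_apply]
      have := mul_self_nonneg ⟪c t, deriv c t⟫
      linarith

/-- A curve which stays on the sphere has tangent velocity. -/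
lemma inner_deriv_eq_zero {c : ℝ → E} (hc : ContDiff ℝ 1 c)
    (hcS : ∀ s ∈ Icc (0:ℝ) 1, c s ∈ Metric.sphere (0 : E) 1) :
    ∀ s ∈ Icc (0:ℝ) 1, ⟪c s, deriv c s⟫ = 0 := by
  have hcd : ∀ t, HasDerivAt c (deriv c t) t := fun t =>
    ((hc.differentiable (by norm_num)) t).hasDerivAt
  have h1 : ∀ s ∈ Ioo (0:ℝ) 1, ⟪c s, deriv c s⟫ = 0 := by
    intro s hs
    have h2 : HasDerivAt (fun t => ⟪c t, c t⟫) (⟪c s, deriv c s⟫ + ⟪deriv c s, c s⟫) s :=
      (hcd s).inner ℝ (hcd s)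
    have h3 : HasDerivAt (fun t => ⟪c t, c t⟫) 0 s := by
      apply (hasDerivAt_const s (1:ℝ)).congr_of_eventuallyEq
      filter_upwards [isOpen_Ioo.mem_nhds hs] with u hu
      have : ‖c u‖ = 1 := by simpa using hcS u ⟨hu.1.le, hu.2.le⟩
      rw [real_inner_self_eq_norm_sq, this]; norm_num
    have h4 := h2.unique h3
    rw [real_inner_comm (deriv c s)] at h4
    linarith [real_inner_comm (deriv c s) (c s)]
  have h5 : EqOn (fun s => ⟪c s, deriv c s⟫) (fun _ => (0:ℝ)) (Ioo 0 1) := h1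
  exact h5.of_subset_closure
    (hc.continuous.inner (hc.continuous_deriv (by norm_num))).continuousOn
    continuousOn_const Ioo_subset_Icc_self (by rw [closure_Ioo (by norm_num)])

/-- On the sphere, the length for the extension is the length for the metric. -/
lemma len_ext {g : E → E →L[ℝ] E →L[ℝ] ℝ} {c : ℝ → E} (hc : ContDiff ℝ 1 c)
    (hcS : ∀ s ∈ Icc (0:ℝ) 1, c s ∈ Metric.sphere (0 : E) 1) {a b : ℝ} (ha : 0 ≤ a)
    (hab : a ≤ b) (hb : b ≤ 1) :
    Len (ext g) c a b = ∫ s in a..b, Real.sqrt (g (c s) (deriv c s) (deriv c s)) := by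
  unfold Len
  apply intervalIntegral.integral_congr
  intro s hs
  rw [uIcc_of_le hab] at hs
  have hs' : s ∈ Icc (0:ℝ) 1 := ⟨ha.trans hs.1, hs.2.trans hb⟩
  have h1 := inner_deriv_eq_zero hc hcS s hs'
  simp only [nrm]
  rw [ext_tangent g (hcS s hs') h1 h1]

lemma conn_of_sphere_curve {g : E → E →L[ℝ] E →L[ℝ] ℝ} (hg : SphMetric g) {c : ℝ → E}
    (hc : ContDiff ℝ 1 c) (hcS : ∀ s ∈ Icc (0:ℝ) 1, c s ∈ Metric.sphere (0 : E) 1) :
    Conn (ext g) {0}ᶜ (c 0) (c 1)
      (∫ s in (0:ℝ)..1, Real.sqrt (g (c s) (deriv c s) (deriv c s))) := by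
  rw [← len_ext hc hcS le_rfl zero_le_one le_rfl]
  exact conn_of_curve (metricOn_ext hg).contOn zero_le_one (fun t _ => hc.contDiffAt)
    (fun t ht => sphere_subset (hcS t ht))

end Run7.h60
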