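import Pool.Agent.Run7.h60.SphGeo

/-! Isometries of order three. -/

set_option maxSynthPendingDepth 3

open Set MeasureTheory intervalIntegral Filter
open scoped Topology ContDiff RealInnerProductSpace

namespace Run7.h60

section LinAlg

variable {E : Type*} [NormedAddCommGroup E] [NormedSpace ℝ E]

/-- In a plane, two vectors orthogonal to a nonzero vector are proportional. -/
lemma exists_smul_of_plane {T : Submodule ℝ E} (hT : Module.finrank ℝ T = 2)
    {B : E →L[ℝ] E →L[ℝ] ℝ} (hpos : ∀ v ∈ T, v ≠ 0 → 0 < B v v) {w u u' : E} (hw : w ∈ T)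
    (hu : u ∈ T) (hu' : u' ∈ T) (hw0 : w ≠ 0) (hu0 : u ≠ 0) (h1 : B u w = 0) (h2 : B u' w = 0) :
    ∃ μ : ℝ, u' = μ • u := by
  have hfd : FiniteDimensional ℝ T := FiniteDimensional.of_finrank_pos (by rw [hT]; norm_num)
  have hdep : ¬ LinearIndependent ℝ (![⟨w, hw⟩, ⟨u, hu⟩, ⟨u', hu'⟩] : Fin 3 → T) := by
    intro hli
    have := hli.fintype_card_le_finrank
    rw [hT] at this
    simp at this
  rw [Fintype.linearIndependent_iff] at hdep
  push Not at hdep
  obtain ⟨g, hg, i, hi⟩ := hdep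
  rw [Fin.sum_univ_three] at hg
  have hg' : g 0 • w + g 1 • u + g 2 • u' = 0 := by
    have := congrArg (Subtype.val) hg
    simpa using this
  have h3 : g 0 = 0 := by
    have h4 := congrArg (fun z => B z w) hg'
    simp only [map_add, map_smul, add_apply, smul_apply, h1, h2, smul_eq_mul, mul_zero,
      add_zero, map_zero, zero_apply] at h4
    have h5 := (hpos w hw hw0).ne'
    rcases mul_eq_zero.1 h4 with h6 | h6
    · exact h6
    · exact absurd h6 h5
  rw [h3, zero_smul, zero_add] at hg'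
  by_cases h7 : g 2 = 0
  · rw [h7, zero_smul, add_zero] at hg'
    have h8 : g 1 = 0 := by
      rcases smul_eq_zero.1 hg' with h9 | h9
      · exact h9
      · exact absurd h9 hu0
    exfalso
    fin_cases i
    · exact hi h3
    · exact hi h8
    · exact hi h7
  · refine ⟨-(g 1 / g 2), ?_⟩
    have h8 : g 2 • u' = -(g 1 • u) := by
      rw [add_comm] at hg'; exact eq_neg_of_add_eq_zero_left hg'
    have h9 : u' = (g 2)⁻¹ • (g 2 • u') := by
      rw [smul_smul, inv_mul_cancel₀ h7, one_smul]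
    rw [h9, h8, smul_neg, smul_smul, neg_smul]
    congr 2
    field_simp

lemma rot3 {T : Submodule ℝ E} (hT : Module.finrank ℝ T = 2)
    {B : E →L[ℝ] E →L[ℝ] ℝ} (hpos : ∀ v ∈ T, v ≠ 0 → 0 < B v v) {A : E →L[ℝ] E}
    (hiso : ∀ v ∈ T, ∀ w ∈ T, B (A v) (A w) = B v w) {v : E} (hv : v ∈ T) (hAv : A v ∈ T)
    (hAAv : A (A v) ∈ T) (h3 : A (A (A v)) = v) : v + A v + A (A v) = 0 ∨ A v = v := by
  by_cases hw0 : v + A v + A (A v) = 0
  · exact Or.inl hw0
  right
  obtain ⟨w, hwdef⟩ : ∃ w, w = v + A v + A (A v) := ⟨_, rfl⟩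
  rw [← hwdef] at hw0
  have hwT : w ∈ T := by rw [hwdef]; exact T.add_mem (T.add_mem hv hAv) hAAv
  have hAw : A w = w := by
    rw [hwdef]; simp only [map_add, h3]; abel
  have hBw := hpos w hwT hw0
  obtain ⟨lam, hlam⟩ : ∃ lam, lam = B v w / B w w := ⟨_, rfl⟩
  obtain ⟨u, hudef⟩ : ∃ u, u = v - lam • w := ⟨_, rfl⟩
  have hu : u ∈ T := by rw [hudef]; exact T.sub_mem hv (T.smul_mem _ hwT)
  have hAu' : A u = A v - lam • w := by rw [hudef]; simp only [map_sub, map_smul, hAw]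
  have hAu : A u ∈ T := by rw [hAu']; exact T.sub_mem hAv (T.smul_mem _ hwT)
  have hBuw : B u w = 0 := by
    rw [hudef]
    simp only [map_sub, map_smul, sub_apply, smul_apply, smul_eq_mul]
    rw [hlam]; field_simp; ring
  have hBAuw : B (A u) w = 0 := by
    have := hiso u hu w hwT
    rw [hAw, hBuw] at this
    exact this
  by_cases hu0 : u = 0
  · have hvw : v = lam • w := by
      rw [hu0] at hudef
      exact (sub_eq_zero.1 hudef.symm)
    rw [hvw]; simp only [map_smul, hAw]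
  · exfalso
    obtain ⟨μ, hμ⟩ := exists_smul_of_plane hT hpos hwT hu hAu hw0 hu0 hBuw hBAuw
    have hAAu : A (A u) = μ • (μ • u) := by
      rw [hμ]; simp only [map_smul]; rw [hμ]
    have hsum : u + A u + A (A u) = (1 - 3 * lam) • w := by
      have e1 : A (A u) = A (A v) - lam • w := by
        rw [hAu']; simp only [map_sub, map_smul, hAw]
      rw [e1, hAu', hudef]
      have e2 : (1 - 3 * lam) • w = w - (3 * lam) • w := by rw [sub_smul, one_smul]
      rw [e2]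
      nth_rewrite 4 [hwdef]
      module
    have h4 : (1 + μ + μ * μ) • u = (1 - 3 * lam) • w := by
      rw [← hsum, hAAu, hμ]; module
    have h5 := congrArg (fun z => B z w) h4
    simp only [map_smul, smul_apply, smul_eq_mul, hBuw, mul_zero] at h5
    have h6 : (1 - 3 * lam) = 0 := by
      rcases mul_eq_zero.1 h5.symm with h7 | h7
      · exact h7
      · exact absurd h7 hBw.ne'
    rw [h6, zero_smul] at h4
    rcases smul_eq_zero.1 h4 with h7 | h7
    · nlinarith [sq_nonneg (μ + 1/2)]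
    · exact hu0 h7

/-- An isometry of order three of a plane with a nonzero fixed vector is the identity. -/
lemma rot3_fixed {T : Submodule ℝ E} (hT : Module.finrank ℝ T = 2)
    {B : E →L[ℝ] E →L[ℝ] ℝ} (hpos : ∀ v ∈ T, v ≠ 0 → 0 < B v v) {A : E →L[ℝ] E}
    (hiso : ∀ v ∈ T, ∀ w ∈ T, B (A v) (A w) = B v w) {v u : E} (hv : v ∈ T) (hv0 : v ≠ 0)
    (hAv : A v = v) (hu : u ∈ T) (hAu : A u ∈ T) (hAAu : A (A u) ∈ T) (h3 : A (A (A u)) = u) :
    A u = u := by
  rcases rot3 hT hpos hiso hu hAu hAAu h3 with h | h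
  · have b1 : B (A u) v = B u v := by
      have := hiso u hu v hv
      rwa [hAv] at this
    have b2 : B (A (A u)) v = B u v := by
      have := hiso (A u) hAu v hv
      rw [hAv] at this
      rw [this, b1]
    have b3 : B u v = 0 := by
      have := congrArg (fun z => B z v) h
      simp only [map_add, add_apply, map_zero, zero_apply, b1, b2] at this
      linarith
    by_cases hu0 : u = 0
    · rw [hu0]; simp
    · obtain ⟨μ, hμ⟩ := exists_smul_of_plane hT hpos hv hu hAu hv0 hu0 b3 (by rw [b1, b3])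
      have hAAu' : A (A u) = μ • (μ • u) := by
        rw [hμ]; simp only [map_smul]; rw [hμ]
      have h4 : (1 + μ + μ * μ) • u = 0 := by
        rw [← h, hAAu', hμ]; module
      rcases smul_eq_zero.1 h4 with h7 | h7
      · nlinarith [sq_nonneg (μ + 1/2)]
      · exact absurd h7 hu0
  · exact h

end LinAlg

variable {E : Type*} [NormedAddCommGroup E] [InnerProductSpace ℝ E]

/-- `φ` is a self-map of the unit sphere, isometric for `g`, with `φ ∘ φ ∘ φ = id`. -/
structure Order3 (g : E → E →L[ℝ] E →L[ℝ] ℝ) (φ : E → E) : Prop where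
  smooth : ContDiff ℝ ∞ φ
  maps : ∀ x ∈ Metric.sphere (0 : E) 1, φ x ∈ Metric.sphere (0 : E) 1
  iso : ∀ x ∈ Metric.sphere (0 : E) 1, ∀ v w : E, ⟪x, v⟫ = 0 → ⟪x, w⟫ = 0 →
    g (φ x) (fderiv ℝ φ x v) (fderiv ℝ φ x w) = g x v w
  cube : ∀ x ∈ Metric.sphere (0 : E) 1, φ (φ (φ x)) = x

namespace Order3

variable {g : E → E →L[ℝ] E →L[ℝ] ℝ} {φ : E → E}

lemma hasDerivAt_comp (h : Order3 g φ) {c : ℝ → E} {v : E} {t : ℝ} (hc : HasDerivAt c v t) :
    HasDerivAt (fun t => φ (c t)) (fderiv ℝ φ (c t) v) t :=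
  ((h.smooth.differentiable (by simp)) (c t)).hasFDerivAt.comp_hasDerivAt t hc

lemma deriv_comp (h : Order3 g φ) {c : ℝ → E} (hc : ContDiff ℝ ∞ c) (t : ℝ) :
    deriv (fun t => φ (c t)) t = fderiv ℝ φ (c t) (deriv c t) :=
  (h.hasDerivAt_comp ((hc.differentiable (by simp)) t).hasDerivAt).deriv

lemma conn_map (h : Order3 g φ) (hg : SphMetric g) {x y : E} {ℓ : ℝ}
    (hx : x ∈ Metric.sphere (0 : E) 1) (hy : y ∈ Metric.sphere (0 : E) 1)
    (hc : Conn (ext g) {0}ᶜ x y ℓ) : Conn (ext g) {0}ᶜ (φ x) (φ y) ℓ := by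
  obtain ⟨c, hc, hcU, hc0, hc1, hℓ⟩ := conn_project hg hx hy hc
  have hd : ContDiff ℝ 1 (fun t => φ (c t)) := (h.smooth.of_le (by simp)).comp hc
  refine ⟨fun t => φ (c t), hd, fun t => sphere_subset (h.maps _ (hcU t)), ?_, ?_, ?_⟩
  · intro t ht; simp only; rw [hc0 t ht]
  · intro t ht; simp only; rw [hc1 t ht]
  · refine le_trans (le_of_eq ?_) hℓ
    unfold Len
    apply intervalIntegral.integral_congr
    intro t ht
    rw [uIcc_of_le zero_le_one] at ht
    have e1 : deriv (fun t => φ (c t)) t = fderiv ℝ φ (c t) (deriv c t) :=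
      (h.hasDerivAt_comp ((hc.differentiable (by norm_num)) t).hasDerivAt).deriv
    have t1 := inner_deriv_eq_zero hc (fun s _ => hcU s) t ht
    have t2 := inner_deriv_eq_zero hd (fun s _ => h.maps _ (hcU s)) t ht
    rw [e1] at t2
    simp only [nrm]
    rw [e1, ext_tangent g (hcU t) t1 t1, ext_tangent g (h.maps _ (hcU t)) t2 t2,
      h.iso _ (hcU t) _ _ t1 t1]

lemma conn_map_iff (h : Order3 g φ) (hg : SphMetric g) {x y : E} {ℓ : ℝ}
    (hx : x ∈ Metric.sphere (0 : E) 1) (hy : y ∈ Metric.sphere (0 : E) 1)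
    (hc : Conn (ext g) {0}ᶜ (φ x) (φ y) ℓ) : Conn (ext g) {0}ᶜ x y ℓ := by
  have h1 := h.conn_map hg (h.maps x hx) (h.maps y hy) hc
  have h2 := h.conn_map hg (h.maps _ (h.maps x hx)) (h.maps _ (h.maps y hy)) h1
  rwa [h.cube x hx, h.cube y hy] at h2

lemma geod_map (h : Order3 g φ) (hg : SphMetric g) {c : ℝ → E} {D : ℝ} (hc : SphGeod g c D) :
    SphGeod g (fun t => φ (c t)) D := by
  have hd : ContDiff ℝ ∞ (fun t => φ (c t)) := h.smooth.comp hc.smooth
  have hm : ∀ t ∈ Icc (0:ℝ) 1, φ (c t) ∈ Metric.sphere (0 : E) 1 :=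
    fun t ht => h.maps _ (hc.mem t ht)
  refine ⟨hc.pos, hd, hm, ?_, ?_⟩
  · intro t ht
    have t1 := hc.tangent t ht
    have t2 := inner_deriv_eq_zero (hd.of_le (by simp)) hm t ht
    rw [h.deriv_comp hc.smooth] at t2 ⊢
    rw [← hc.speed t ht]
    simp only [nrm]
    rw [ext_tangent g (hc.mem t ht) t1 t1, ext_tangent g (hm t ht) t2 t2,
      h.iso _ (hc.mem t ht) _ _ t1 t1]
  · constructor
    · intro s t hs hst ht ε hε
      exact h.conn_map hg (hc.mem s ⟨hs, hst.trans ht⟩) (hc.mem t ⟨hs.trans hst, ht⟩)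
        (hc.geod.conn s t hs hst ht ε hε)
    · intro s t hs hst ht ℓ hℓ
      exact hc.geod.lower s t hs hst ht ℓ
        (h.conn_map_iff hg (hc.mem s ⟨hs, hst.trans ht⟩) (hc.mem t ⟨hs.trans hst, ht⟩) hℓ)

/-- The tangent plane. -/
noncomputable def tang (x : E) : Submodule ℝ E := (ℝ ∙ x)ᗮ

lemma mem_tang {x v : E} : v ∈ tang x ↔ ⟪x, v⟫ = 0 := by
  unfold tang
  rw [Submodule.mem_orthogonal_singleton_iff_inner_right]

lemma finrank_tang (hE : Module.finrank ℝ E = 3) {x : E}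
    (hx : x ∈ Metric.sphere (0 : E) 1) : Module.finrank ℝ (tang x) = 2 := by
  have hx0 : x ≠ 0 := sphere_subset hx
  have hf : Fact (Module.finrank ℝ E = 2 + 1) := ⟨by rw [hE]⟩
  exact Submodule.finrank_orthogonal_span_singleton hx0

/-- Data at a fixed point for a minimising geodesic starting there. -/
lemma at_fixed (h : Order3 g φ) (hg : SphMetric g) {c : ℝ → E} {D : ℝ} (hc : SphGeod g c D)
    (hfix : φ (c 0) = c 0) :
    deriv c 0 ∈ tang (c 0) ∧ fderiv ℝ φ (c 0) (deriv c 0) ∈ tang (c 0) ∧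
      fderiv ℝ φ (c 0) (fderiv ℝ φ (c 0) (deriv c 0)) ∈ tang (c 0) ∧
      fderiv ℝ φ (c 0) (fderiv ℝ φ (c 0) (fderiv ℝ φ (c 0) (deriv c 0))) = deriv c 0 := by
  have h0 : (0:ℝ) ∈ Icc (0:ℝ) 1 := ⟨le_rfl, zero_le_one⟩
  have h1 := h.geod_map hg hc
  have h2 := h.geod_map hg h1
  have h3 := h.geod_map hg h2
  have d1 : deriv (fun t => φ (c t)) 0 = fderiv ℝ φ (c 0) (deriv c 0) := h.deriv_comp hc.smooth 0
  have d2 : deriv (fun t => φ (φ (c t))) 0 = fderiv ℝ φ (c 0) (fderiv ℝ φ (c 0) (deriv c 0)) := by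
    have := h.deriv_comp h1.smooth 0
    rw [d1] at this
    rw [this, hfix]
  have d3 : deriv (fun t => φ (φ (φ (c t)))) 0
      = fderiv ℝ φ (c 0) (fderiv ℝ φ (c 0) (fderiv ℝ φ (c 0) (deriv c 0))) := by
    have := h.deriv_comp h2.smooth 0
    rw [d2] at this
    rw [this, hfix, hfix]
  refine ⟨mem_tang.2 (hc.tangent 0 h0), ?_, ?_, ?_⟩
  · have := h1.tangent 0 h0
    rw [d1, hfix] at this
    exact mem_tang.2 this
  · have := h2.tangent 0 h0
    rw [d2, hfix, hfix] at this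
    exact mem_tang.2 this
  · rw [← d3]
    exact deriv_eq_of_eqOn (h3.smooth.of_le (by simp)) (hc.smooth.of_le (by simp))
      (fun t ht => h.cube _ (hc.mem t ht)) h0

lemma tang_iso (h : Order3 g φ) {x : E} (hx : x ∈ Metric.sphere (0 : E) 1) (hfix : φ x = x) :
    ∀ v ∈ tang x, ∀ w ∈ tang x, g x (fderiv ℝ φ x v) (fderiv ℝ φ x w) = g x v w := by
  intro v hv w hw
  have := h.iso x hx v w (mem_tang.1 hv) (mem_tang.1 hw)
  rwa [hfix] at this

lemma tang_pos (hg : SphMetric g) {x : E} (hx : x ∈ Metric.sphere (0 : E) 1) :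
    ∀ v ∈ tang x, v ≠ 0 → 0 < g x v v :=
  fun v hv hv0 => hg.pos x hx v (mem_tang.1 hv) hv0

lemma conn_any (hg : SphMetric g) (hE : Module.finrank ℝ E = 3) {x y : E}
    (hx : x ∈ Metric.sphere (0 : E) 1) (hy : y ∈ Metric.sphere (0 : E) 1) :
    ∃ ℓ, Conn (ext g) {0}ᶜ x y ℓ := by
  by_cases hxy : y = -x
  · obtain ⟨z, hz1, hz2⟩ : ∃ z : E, z ∈ tang x ∧ z ≠ 0 := by
      have h1 : tang x ≠ ⊥ := by
        intro h2
        have h3 := finrank_tang hE hx
        rw [h2] at h3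
        simp at h3
      exact (Submodule.ne_bot_iff _).1 h1
    have hz3 : rad z ∈ Metric.sphere (0 : E) 1 := rad_mem hz2
    have hz4 : ⟪x, rad z⟫ = 0 := by
      rw [rad, real_inner_smul_right, mem_tang.1 hz1, mul_zero]
    have hx1 : ‖x‖ = 1 := by simpa using hx
    have hx2 : ⟪x, x⟫ = 1 := by rw [real_inner_self_eq_norm_sq, hx1]; norm_num
    obtain ⟨ℓ₁, h1⟩ := conn_straight hg hx hz3 (by
      intro h2
      rw [h2, inner_neg_right, hx2] at hz4
      norm_num at hz4)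
    obtain ⟨ℓ₂, h2⟩ := conn_straight hg hz3 hy (by
      intro h2
      rw [hxy, neg_inj] at h2
      rw [← h2, hx2] at hz4
      norm_num at hz4)
    exact ⟨_, h1.trans (metricOn_ext hg).contOn h2⟩
  · exact conn_straight hg hx hy hxy

/-- If the differential at a fixed point has a fixed vector, the isometry is the identity. -/
lemma eq_id_of_fixed_vector (h : Order3 g φ) (hg : SphMetric g) (hE : Module.finrank ℝ E = 3)
    {x v : E} (hx : x ∈ Metric.sphere (0 : E) 1) (hfix : φ x = x) (hv : v ∈ tang x)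
    (hv0 : v ≠ 0) (hAv : fderiv ℝ φ x v = v) :
    ∀ y ∈ Metric.sphere (0 : E) 1, φ y = y := by
  intro y hy
  have hfd : FiniteDimensional ℝ E := FiniteDimensional.of_finrank_pos (by rw [hE]; norm_num)
  have hprop : ProperSpace E := FiniteDimensional.proper ℝ E
  by_cases hxy : x = y
  · rw [← hxy]; exact hfix
  obtain ⟨c, D, hc, hc0, hc1⟩ := exists_sphGeod hg hx hy hxy (conn_any hg hE hx hy)
  have hfix' : φ (c 0) = c 0 := by rw [hc0]; exact hfix
  obtain ⟨a1, a2, a3, a4⟩ := h.at_fixed hg hc hfix'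
  rw [hc0] at a1 a2 a3 a4
  have h1 := rot3_fixed (finrank_tang hE hx) (tang_pos hg hx) (h.tang_iso hx hfix) hv hv0 hAv
    a1 a2 a3 a4
  have h2 := h.geod_map hg hc
  have h3 : EqOn (fun t => φ (c t)) c (Icc 0 1) := by
    apply SGeod.unique (metricOn_ext hg) (isCompact_sphere _ _) sphere_subset h2 hc
    · exact hfix'
    · rw [h.deriv_comp hc.smooth, hc0]; exact h1
  have h4 := h3 (⟨zero_le_one, le_rfl⟩ : (1:ℝ) ∈ Icc (0:ℝ) 1)
  simp only at h4
  rwa [hc1] at h4

/-- Minimising geodesics with common ends meeting at an interior time are tangent there. -/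
lemma _root_.Run7.h60.SphGeod.tangent_of_meet [FiniteDimensional ℝ E]
    (hg : SphMetric g) {c₁ c₂ : ℝ → E} {D s : ℝ} (h1 : SphGeod g c₁ D) (h2 : SphGeod g c₂ D)
    (hs : s ∈ Ioo (0:ℝ) 1) (e0 : c₁ 0 = c₂ 0) (e1 : c₁ 1 = c₂ 1) (es : c₁ s = c₂ s) :
    deriv c₁ s = deriv c₂ s := by
  have hG := (metricOn_ext hg).contOn
  have hprop : ProperSpace E := FiniteDimensional.proper ℝ E
  have hcl : ∀ t, max 0 (min t 1) ∈ Icc (0:ℝ) 1 := fun t =>
    ⟨le_max_left _ _, max_le zero_le_one (min_le_right _ _)⟩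
  have hcl2 : ∀ t ∈ Icc (0:ℝ) 1, max 0 (min t 1) = t := by
    intro t ht; rw [min_eq_left ht.2, max_eq_right ht.1]
  obtain ⟨γ, hγ⟩ : ∃ γ : ℝ → E, γ = fun t => if t ≤ s then c₁ (max 0 (min t 1))
    else c₂ (max 0 (min t 1)) := ⟨_, rfl⟩
  have hγS : ∀ t, γ t ∈ Metric.sphere (0 : E) 1 := by
    intro t
    rw [hγ]
    simp only
    split_ifs
    · exact h1.mem _ (hcl t)
    · exact h2.mem _ (hcl t)
  have g1 : ∀ t ∈ Icc (0:ℝ) s, γ t = c₁ t := by
    intro t ht
    rw [hγ]; simp only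
    rw [if_pos ht.2, hcl2 t ⟨ht.1, ht.2.trans hs.2.le⟩]
  have g2 : ∀ t ∈ Icc s 1, γ t = c₂ t := by
    intro t ht
    rcases ht.1.eq_or_lt with h | h
    · rw [← h, g1 s ⟨hs.1.le, le_rfl⟩, es]
    · rw [hγ]; simp only
      rw [if_neg (not_le.2 h), hcl2 t ⟨hs.1.le.trans ht.1, ht.2⟩]
  have hM : MGeod (ext g) {0}ᶜ γ D := by
    constructor
    · intro a b ha hab hb ε hε
      rcases le_total b s with hbs | hbs
      · rw [g1 a ⟨ha, hab.trans hbs⟩, g1 b ⟨ha.trans hab, hbs⟩]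
        exact h1.geod.conn a b ha hab hb ε hε
      · rcases le_total s a with hsa | hsa
        · rw [g2 a ⟨hsa, hab.trans hb⟩, g2 b ⟨hbs, hb⟩]
          exact h2.geod.conn a b ha hab hb ε hε
        · rw [g1 a ⟨ha, hsa⟩, g2 b ⟨hbs, hb⟩]
          have k1 := h1.geod.conn a s ha hsa hs.2.le (ε/2) (by positivity)
          have k2 := h2.geod.conn s b hs.1.le hbs hb (ε/2) (by positivity)
          rw [es] at k1
          refine (k1.trans hG k2).mono le_rfl (le_of_eq (by ring))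
    · intro a b ha hab hb ℓ hℓ
      rcases le_total b s with hbs | hbs
      · rw [g1 a ⟨ha, hab.trans hbs⟩, g1 b ⟨ha.trans hab, hbs⟩] at hℓ
        exact h1.geod.lower a b ha hab hb ℓ hℓ
      · rcases le_total s a with hsa | hsa
        · rw [g2 a ⟨hsa, hab.trans hb⟩, g2 b ⟨hbs, hb⟩] at hℓ
          exact h2.geod.lower a b ha hab hb ℓ hℓ
        · rw [g1 a ⟨ha, hsa⟩, g2 b ⟨hbs, hb⟩] at hℓ
          apply le_of_forall_pos_le_add
          intro ε hε
          have k1 := h1.geod.conn 0 a le_rfl ha (hsa.trans hs.2.le) (ε/2) (by positivity)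
          have k2 := h2.geod.conn b 1 (ha.trans hab) hb le_rfl (ε/2) (by positivity)
          rw [← e1] at k2
          have k3 := h1.geod.lower 0 1 le_rfl zero_le_one le_rfl _
            ((k1.trans hG hℓ).trans hG k2)
          linarith
  obtain ⟨c₃, hc₃, hc₃γ, -⟩ := hM.smooth (metricOn_ext hg) (isCompact_sphere _ _)
    sphere_subset hγS h1.pos
  have d1 : deriv c₁ s = deriv c₃ s := by
    apply deriv_eq_of_eqOn' hs.1 (h1.smooth.of_le (by simp)) (hc₃.of_le (by simp)) _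
      ⟨hs.1.le, le_rfl⟩
    intro t ht
    rw [hc₃γ t ⟨ht.1, ht.2.trans hs.2.le⟩, g1 t ht]
  have d2 : deriv c₂ s = deriv c₃ s := by
    apply deriv_eq_of_eqOn' hs.2 (h2.smooth.of_le (by simp)) (hc₃.of_le (by simp)) _
      ⟨le_rfl, hs.2.le⟩
    intro t ht
    rw [hc₃γ t ⟨hs.1.le.trans ht.1, ht.2⟩, g2 t ht]
  rw [d1, d2]

/-- A minimising geodesic between fixed points has no fixed point in its interior. -/
lemma not_fixed (h : Order3 g φ) (hg : SphMetric g) (hE : Module.finrank ℝ E = 3)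
    (hne : ∃ y ∈ Metric.sphere (0 : E) 1, φ y ≠ y) {c : ℝ → E} {D : ℝ}
    (hc : SphGeod g c D) (hfix0 : φ (c 0) = c 0) (hfix1 : φ (c 1) = c 1) {s : ℝ}
    (hs : s ∈ Ioo (0:ℝ) 1) : φ (c s) ≠ c s := by
  intro hfix
  have hfd : FiniteDimensional ℝ E := FiniteDimensional.of_finrank_pos (by rw [hE]; norm_num)
  have h2 := h.geod_map hg hc
  have h3 := SphGeod.tangent_of_meet hg h2 hc hs hfix0 hfix1 hfix
  rw [h.deriv_comp hc.smooth] at h3
  have hs' : s ∈ Icc (0:ℝ) 1 := ⟨hs.1.le, hs.2.le⟩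
  obtain ⟨y, hy, hyne⟩ := hne
  exact hyne (h.eq_id_of_fixed_vector hg hE (hc.mem s hs') hfix
    (mem_tang.2 (hc.tangent s hs')) (hc.deriv_ne s hs') h3 y hy)

/-- The three images of the initial velocity sum to zero. -/
lemma sum_velocity (h : Order3 g φ) (hg : SphMetric g) (hE : Module.finrank ℝ E = 3)
    (hne : ∃ y ∈ Metric.sphere (0 : E) 1, φ y ≠ y) {c : ℝ → E} {D : ℝ}
    (hc : SphGeod g c D) (hfix : φ (c 0) = c 0) :
    deriv c 0 + fderiv ℝ φ (c 0) (deriv c 0)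
      + fderiv ℝ φ (c 0) (fderiv ℝ φ (c 0) (deriv c 0)) = 0 := by
  have hx : c 0 ∈ Metric.sphere (0 : E) 1 := hc.mem 0 ⟨le_rfl, zero_le_one⟩
  obtain ⟨a1, a2, a3, a4⟩ := h.at_fixed hg hc hfix
  rcases rot3 (finrank_tang hE hx) (tang_pos hg hx) (h.tang_iso hx hfix) a1 a2 a3 a4 with h1 | h1
  · exact h1
  · exfalso
    obtain ⟨y, hy, hyne⟩ := hne
    exact hyne (h.eq_id_of_fixed_vector hg hE hx hfix a1
      (hc.deriv_ne 0 ⟨le_rfl, zero_le_one⟩) h1 y hy)

end Order3

end Run7.h60
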