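import Pool.Agent.Run7.h60.Shoot

/-! Theta-graphs made of three geodesics which are symmetric under `x ↦ -x`. -/

set_option maxSynthPendingDepth 3

open Set MeasureTheory intervalIntegral Filter
open scoped Topology ContDiff RealInnerProductSpace NNReal

namespace Run7.h60

variable {g : R3 → Form}

/-- The geodesic `c`, run backwards from `τ` to `-τ` on `[0,1]`. -/
def edge (c : ℝ → R3) (τ : ℝ) (s : ℝ) : R3 := c (τ - 2 * τ * s)

lemma hasDerivAt_edge {c : ℝ → R3} (h : UGeod g c) (τ s : ℝ) :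
    HasDerivAt (edge c τ) ((-(2 * τ)) • deriv c (τ - 2 * τ * s)) s := by
  have h1 : HasDerivAt (fun s : ℝ => τ - 2 * τ * s) (-(2 * τ)) s := by
    simpa using ((hasDerivAt_id s).const_mul (2 * τ)).const_sub τ
  exact (h.hasDerivAt (τ - 2 * τ * s)).scomp s h1

lemma UGeod.sq_speed {c : ℝ → R3} (h : UGeod g c) (t : ℝ) :
    g (c t) (deriv c t) (deriv c t) = 1 := by
  have htan := h.tangent t
  have h1 := h.speed t
  unfold nrm at h1
  rw [ext_tangent g (h.mem t) htan htan] at h1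
  exact Real.sqrt_eq_one.1 h1

lemma speed_edge {c : ℝ → R3} (h : UGeod g c) {τ : ℝ} (hτ : 0 < τ) (s : ℝ) :
    speed g (edge c τ) s = 2 * τ := by
  unfold speed vel Form.val
  rw [(hasDerivAt_edge h τ s).deriv]
  simp only [map_smul, smul_apply, smul_eq_mul]
  have h1 : g (edge c τ s) (deriv c (τ - 2 * τ * s)) (deriv c (τ - 2 * τ * s)) = 1 :=
    h.sq_speed _
  rw [h1, mul_one]
  have h2 : -(2 * τ) * -(2 * τ) = (2 * τ) ^ 2 := by ring
  rw [h2, Real.sqrt_sq (by positivity)]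

lemma unitTangent_edge {c : ℝ → R3} (h : UGeod g c) {τ : ℝ} (hτ : 0 < τ) (s : ℝ) :
    unitTangent g (edge c τ) s = - deriv c (τ - 2 * τ * s) := by
  unfold unitTangent
  rw [speed_edge h hτ]
  unfold vel
  rw [(hasDerivAt_edge h τ s).deriv, smul_smul, mul_neg, inv_mul_cancel₀ (by positivity),
    neg_one_smul]

lemma arc_edge (hg : SphMetric g) {c : ℝ → R3} (h : UGeod g c) {τ : ℝ} (hτ : 0 < τ) :
    IsGeodesicArc g (edge c τ) := by
  refine ⟨?_, ?_, ?_⟩
  · have h1 : ContDiff ℝ ∞ (fun s : ℝ => τ - 2 * τ * s) := by fun_prop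
    exact h.smooth.comp h1
  · intro t _
    refine ⟨h.mem _, ?_⟩
    unfold vel
    rw [(hasDerivAt_edge h τ t).deriv]
    intro hcon
    have h2 : deriv c (τ - 2 * τ * t) = 0 := by
      rcases smul_eq_zero.1 hcon with h3 | h3
      · exfalso; linarith
      · exact h3
    have h4 := h.sq_speed (τ - 2 * τ * t)
    rw [h2] at h4
    simp at h4
  · intro t _
    obtain ⟨τ₀, hτ₀, H⟩ := UGeod.minimizing hg
    refine ⟨τ₀ / (4 * τ), by positivity, ?_⟩
    intro a b ha hab hb hta htb e he heS hea heb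
    have h1 := conn_of_sphere_curve hg he heS
    rw [hea, heb] at h1
    have h2 : 2 * τ * b - τ - (2 * τ * a - τ) ≤ τ₀ := by
      have h3 : b - a < 2 * (τ₀ / (4 * τ)) := by linarith
      have h4 : 2 * τ * (b - a) < 2 * τ * (2 * (τ₀ / (4 * τ))) :=
        mul_lt_mul_of_pos_left h3 (by positivity)
      have h5 : 2 * τ * (2 * (τ₀ / (4 * τ))) = τ₀ := by field_simp; norm_num
      linarith
    have h6 := H _ h.reverse (2 * τ * a - τ) (2 * τ * b - τ) (by nlinarith) h2
      (∫ s in (0:ℝ)..1, Real.sqrt (g (e s) (deriv e s) (deriv e s))) (by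
        simp only [neg_sub]
        exact h1)
    have h7 : len g (edge c τ) a b = 2 * τ * (b - a) := by
      unfold len
      simp_rw [speed_edge h hτ]
      rw [intervalIntegral.integral_const, smul_eq_mul]; ring
    rw [h7]
    have h8 : len g e 0 1 = ∫ s in (0:ℝ)..1, Real.sqrt (g (e s) (deriv e s) (deriv e s)) := rfl
    rw [h8]
    linarith

lemma deriv_of_sym {c : ℝ → R3} (h : UGeod g c) (hsym : ∀ t, c (-t) = sX (c t)) (t : ℝ) :
    - deriv c (-t) = sX (deriv c t) := by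
  have h1 := h.deriv_reverse
  have h2 := h.deriv_map sX
  have h3 : (fun t => c (-t)) = fun t => sX (c t) := funext hsym
  rw [h3, h2] at h1
  exact (congrFun h1 t).symm

/-- The Theta-graph of three symmetric geodesics. -/
theorem theta_of_sym (hg : SphMetric g) (c : Fin 3 → ℝ → R3) (τ : Fin 3 → ℝ) (p : R3)
    (hτ : ∀ i, 0 < τ i) (hc : ∀ i, UGeod g (c i)) (hsym : ∀ i t, c i (-t) = sX (c i t))
    (hp : ∀ i, c i (τ i) = p) (hpx : 0 < p 0)
    (hinj : ∀ i, ∀ s ∈ Icc (-τ i) (τ i), ∀ t ∈ Icc (-τ i) (τ i), c i s = c i t → s = t)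
    (hmeet : ∀ i j, i ≠ j → ∀ s ∈ Icc (-τ i) (τ i), ∀ t ∈ Icc (-τ j) (τ j), c i s = c j t →
      c i s = p ∨ c i s = sX p)
    (hsum : deriv (c 0) (τ 0) + deriv (c 1) (τ 1) + deriv (c 2) (τ 2) = 0) :
    ∃ γ : Fin 3 → ℝ → R3, IsStationaryTheta g γ := by
  have hm : ∀ i, c i (-τ i) = sX p := by
    intro i; rw [hsym, hp]
  have hne : p ≠ sX p := by
    intro hcon
    have := congrArg (fun v : R3 => v 0) hcon
    simp only [sX_0] at this
    linarith
  have e0 : ∀ i, edge (c i) (τ i) 0 = p := by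
    intro i; unfold edge; rw [mul_zero, sub_zero, hp]
  have e1 : ∀ i, edge (c i) (τ i) 1 = sX p := by
    intro i; unfold edge
    rw [← hm i]; congr 1; ring
  have hpar : ∀ i, ∀ s ∈ Icc (0:ℝ) 1, τ i - 2 * τ i * s ∈ Icc (-τ i) (τ i) := by
    intro i s hs
    have := hτ i
    constructor
    · nlinarith [hs.2]
    · nlinarith [hs.1]
  have hcancel : ∀ i s t, τ i - 2 * τ i * s = τ i - 2 * τ i * t → s = t := by
    intro i s t h
    have h1 : 2 * τ i * s = 2 * τ i * t := by linarith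
    exact mul_left_cancel₀ (by have := hτ i; positivity) h1
  have hend : ∀ i, ∀ s ∈ Icc (0:ℝ) 1, (edge (c i) (τ i) s = p → s = 0) ∧
      (edge (c i) (τ i) s = sX p → s = 1) := by
    intro i s hs
    constructor
    · intro h
      have h1 := hinj i _ (hpar i s hs) _ (hpar i 0 ⟨le_rfl, zero_le_one⟩)
        (show edge (c i) (τ i) s = edge (c i) (τ i) 0 by rw [h, e0])
      exact hcancel i _ _ h1
    · intro h
      have h1 := hinj i _ (hpar i s hs) _ (hpar i 1 ⟨zero_le_one, le_rfl⟩)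
        (show edge (c i) (τ i) s = edge (c i) (τ i) 1 by rw [h, e1])
      exact hcancel i _ _ h1
  refine ⟨fun i => edge (c i) (τ i), ⟨?_, ?_, ?_, ?_, ?_, ?_⟩⟩
  · show edge (c 0) (τ 0) 0 ≠ edge (c 0) (τ 0) 1
    rw [e0, e1]; exact hne
  · intro i; exact arc_edge hg (hc i) (hτ i)
  · intro i
    show edge (c i) (τ i) 0 = edge (c 0) (τ 0) 0 ∧ edge (c i) (τ i) 1 = edge (c 0) (τ 0) 1
    rw [e0, e0, e1, e1]; exact ⟨rfl, rfl⟩
  · intro i j s hs t ht hst
    change edge (c i) (τ i) s = edge (c j) (τ j) t at hst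
    by_cases hij : i = j
    · subst hij
      left
      exact ⟨rfl, hcancel i _ _ (hinj i _ (hpar i s hs) _ (hpar i t ht) hst)⟩
    · right
      rcases hmeet i j hij _ (hpar i s hs) _ (hpar j t ht) hst with h1 | h1
      · left
        have h2 : edge (c i) (τ i) s = p := h1
        exact ⟨(hend i s hs).1 h2, (hend j t ht).1 (hst ▸ h2)⟩
      · right
        have h2 : edge (c i) (τ i) s = sX p := h1
        exact ⟨(hend i s hs).2 h2, (hend j t ht).2 (hst ▸ h2)⟩
  · show unitTangent g (edge (c 0) (τ 0)) 0 + unitTangent g (edge (c 1) (τ 1)) 0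
      + unitTangent g (edge (c 2) (τ 2)) 0 = 0
    rw [unitTangent_edge (hc 0) (hτ 0), unitTangent_edge (hc 1) (hτ 1),
      unitTangent_edge (hc 2) (hτ 2)]
    simp only [mul_zero, sub_zero]
    have : -(deriv (c 0) (τ 0) + deriv (c 1) (τ 1) + deriv (c 2) (τ 2)) = 0 := by
      rw [hsum, neg_zero]
    rw [← this]; abel
  · show unitTangent g (edge (c 0) (τ 0)) 1 + unitTangent g (edge (c 1) (τ 1)) 1
      + unitTangent g (edge (c 2) (τ 2)) 1 = 0
    rw [unitTangent_edge (hc 0) (hτ 0), unitTangent_edge (hc 1) (hτ 1),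
      unitTangent_edge (hc 2) (hτ 2)]
    have hτ1 : ∀ i, τ i - 2 * τ i * 1 = -τ i := fun i => by ring
    rw [hτ1, hτ1, hτ1, deriv_of_sym (hc 0) (hsym 0), deriv_of_sym (hc 1) (hsym 1),
      deriv_of_sym (hc 2) (hsym 2), ← map_add, ← map_add, hsum, map_zero]

end Run7.h60
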