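import Pool.Agent.Run7.h60.ExtGeo
import Pool.Agent.Run7.h60.Flow

/-! Unit speed geodesics on the sphere as solutions of the geodesic equation. -/

set_option maxSynthPendingDepth 3

open Set MeasureTheory intervalIntegral Filter
open scoped Topology ContDiff RealInnerProductSpace NNReal

namespace Run7.h60

variable {E : Type*} [NormedAddCommGroup E] [InnerProductSpace ℝ E]

/-- Unit speed geodesic of the sphere (solution of the geodesic equation), defined on the line. -/
structure UGeod (g : E → E →L[ℝ] E →L[ℝ] ℝ) (γ : ℝ → E) : Prop where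
  mem : ∀ t, γ t ∈ Metric.sphere (0 : E) 1
  smooth : ContDiff ℝ ∞ γ
  acc : ∀ t, HasDerivAt (deriv γ) (chr (ext g) (γ t) (deriv γ t)) t
  speed : ∀ t, nrm (ext g) (γ t) (deriv γ t) = 1

lemma UGeod.hasDerivAt {g : E → E →L[ℝ] E →L[ℝ] ℝ} {γ : ℝ → E} (h : UGeod g γ) (t : ℝ) :
    HasDerivAt γ (deriv γ t) t := ((h.smooth.differentiable (by simp)) t).hasDerivAt

lemma UGeod.continuous_deriv {g : E → E →L[ℝ] E →L[ℝ] ℝ} {γ : ℝ → E} (h : UGeod g γ) :
    Continuous (deriv γ) := (h.smooth.of_le (by simp : (1 : WithTop ℕ∞) ≤ ∞)).continuous_deriv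
      (by norm_num)

lemma UGeod.tangent {g : E → E →L[ℝ] E →L[ℝ] ℝ} {γ : ℝ → E} (h : UGeod g γ) (t : ℝ) :
    ⟪γ t, deriv γ t⟫ = 0 := by
  have h2 : HasDerivAt (fun t => ⟪γ t, γ t⟫) (⟪γ t, deriv γ t⟫ + ⟪deriv γ t, γ t⟫) t :=
    (h.hasDerivAt t).inner ℝ (h.hasDerivAt t)
  have h3 : HasDerivAt (fun t => ⟪γ t, γ t⟫) 0 t := by
    have : (fun t => ⟪γ t, γ t⟫) = fun _ => (1:ℝ) := by
      funext u
      have : ‖γ u‖ = 1 := by simpa using h.mem u
      rw [real_inner_self_eq_norm_sq, this]; norm_num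
    rw [this]; exact hasDerivAt_const t 1
  have h4 := h2.unique h3
  rw [real_inner_comm (γ t) (deriv γ t)] at h4
  linarith [real_inner_comm (γ t) (deriv γ t)]

/-- A compactly supported field which agrees with the geodesic field for speeds at most one. -/
lemma exists_field [FiniteDimensional ℝ E] {g : E → E →L[ℝ] E →L[ℝ] ℝ} (hg : SphMetric g) :
    ∃ (χ : E × E → ℝ) (K L : ℝ≥0), HasCompactSupport (fun z => χ z • geo (ext g) z) ∧
      ContDiff ℝ ∞ (fun z => χ z • geo (ext g) z) ∧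
      LipschitzWith K (fun z => χ z • geo (ext g) z) ∧
      (∀ z, ‖χ z • geo (ext g) z‖ ≤ L) ∧ (∀ v, χ (0, v) = 0) ∧
      ∀ x ∈ Metric.sphere (0 : E) 1, ∀ v, nrm (ext g) x v ≤ 1 → χ (x, v) = 1 := by
  have hprop : ProperSpace E := FiniteDimensional.proper ℝ E
  have h := metricOn_ext hg
  have hS : IsCompact (Metric.sphere (0 : E) 1) := isCompact_sphere _ _
  obtain ⟨r, m, M, C, hr, hm, hM, hC, H⟩ := h.exists_bounds hS sphere_subset
  have hK : IsCompact (Metric.sphere (0 : E) 1 ×ˢ Metric.closedBall (0 : E) (1 / m)) :=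
    hS.prod (isCompact_closedBall _ _)
  have hΩ : IsOpen (({0}ᶜ : Set E) ×ˢ (univ : Set E)) := h.isOpen.prod isOpen_univ
  obtain ⟨χ, hχ, hχc, hχΩ, hχ1⟩ := exists_cutoff hK hΩ
    (Set.prod_mono sphere_subset (subset_univ _))
  have hYs : tsupport (fun z => χ z • geo (ext g) z) ⊆ tsupport χ :=
    tsupport_smul_subset_left χ (geo (ext g))
  have hYd : ContDiff ℝ ∞ (fun z => χ z • geo (ext g) z) := by
    rw [contDiff_iff_contDiffAt]
    intro x
    by_cases hx : x ∈ tsupport χ
    · exact hχ.contDiffAt.smul ((contDiffOn_geo h).contDiffAt (hΩ.mem_nhds (hχΩ hx)))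
    · have h1 : (fun z => χ z • geo (ext g) z) =ᶠ[𝓝 x] fun _ => 0 := by
        have h2 : (tsupport χ)ᶜ ∈ 𝓝 x := (isClosed_tsupport χ).isOpen_compl.mem_nhds hx
        filter_upwards [h2] with y hy
        by_contra hcon
        exact hy (hYs (subset_tsupport _ hcon))
      exact contDiffAt_const.congr_of_eventuallyEq h1
  have hYc : HasCompactSupport (fun z => χ z • geo (ext g) z) :=
    hχc.of_isClosed_subset (isClosed_tsupport _) hYs
  obtain ⟨K, hKl⟩ := ContDiff.lipschitzWith_of_hasCompactSupport hYc hYd (by simp)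
  obtain ⟨L, hL⟩ := hYd.continuous.bounded_above_of_compact_support hYc
  refine ⟨χ, K, ⟨max L 0, le_max_right _ _⟩, hYc, hYd, hKl, fun z => (hL z).trans
    (le_max_left _ _), ?_, ?_⟩
  · intro v
    by_contra hcon
    have h1 : ((0 : E), v) ∈ tsupport χ := subset_tsupport _ hcon
    have h2 := (hχΩ h1).1
    exact h2 rfl
  · intro x hx v hv
    apply hχ1
    refine ⟨hx, ?_⟩
    rw [mem_closedBall_zero_iff, le_div_iff₀ hm]
    have := ((H x hx x (by simpa using hr.le)).2 v).1
    linarith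

/-- Existence of unit speed geodesics with given initial velocity. -/
theorem exists_ugeod [FiniteDimensional ℝ E] {g : E → E →L[ℝ] E →L[ℝ] ℝ} (hg : SphMetric g)
    {x₀ v₀ : E} (hx₀ : x₀ ∈ Metric.sphere (0 : E) 1) (hv₀ : ⟪x₀, v₀⟫ = 0)
    (h1 : nrm (ext g) x₀ v₀ = 1) : ∃ γ, UGeod g γ ∧ γ 0 = x₀ ∧ deriv γ 0 = v₀ := by
  have hcomp : CompleteSpace E := FiniteDimensional.complete ℝ E
  have h := metricOn_ext hg
  obtain ⟨χ, K, L, hYc, hYd, hK, hL, hχ0, hχ1⟩ := exists_field hg
  obtain ⟨z, hz0, hz⟩ := exists_global hK hL (x₀, v₀)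
  have hzx : ∀ t, HasDerivAt (fun t => (z t).1) (χ (z t) • (z t).2) t := by
    intro t
    exact (hasFDerivAt_fst (𝕜 := ℝ) (p := z t)).comp_hasDerivAt t (hz t)
  have hzv : ∀ t, HasDerivAt (fun t => (z t).2) (χ (z t) • chr (ext g) (z t).1 (z t).2) t := by
    intro t
    exact (hasFDerivAt_snd (𝕜 := ℝ) (p := z t)).comp_hasDerivAt t (hz t)
  have hconst : ∀ f : ℝ → ℝ, (∀ t, HasDerivAt f 0 t) → ∀ t, f t = f 0 := by
    intro f hf t
    exact is_const_of_deriv_eq_zero (fun t => (hf t).differentiableAt) (fun t => (hf t).deriv) t 0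
  -- orthogonality
  have hb : ∀ t, ⟪(z t).1, (z t).2⟫ = 0 := by
    intro t
    have h2 : ∀ t, HasDerivAt (fun t => ⟪(z t).1, (z t).2⟫) 0 t := by
      intro t
      refine ((hzx t).inner ℝ (hzv t)).congr_deriv ?_
      rw [real_inner_smul_left, real_inner_smul_right, ← mul_add]
      by_cases h0 : (z t).1 = 0
      · have : χ (z t) = 0 := by
          have h3 := hχ0 (z t).2
          have h4 : ((0 : E), (z t).2) = z t := by rw [← h0]
          rwa [h4] at h3
        rw [this, zero_mul]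
      · rw [add_comm, inner_chr hg h0, mul_zero]
    have := hconst _ h2 t
    rw [this, hz0]; exact hv₀
  have ha : ∀ t, (z t).1 ∈ Metric.sphere (0 : E) 1 := by
    intro t
    have h2 : ∀ t, HasDerivAt (fun t => ⟪(z t).1, (z t).1⟫) 0 t := by
      intro t
      refine ((hzx t).inner ℝ (hzx t)).congr_deriv ?_
      rw [real_inner_smul_left, real_inner_smul_right, hb t, real_inner_comm, hb t]
      ring
    have h3 : ⟪(z t).1, (z t).1⟫ = ⟪(z 0).1, (z 0).1⟫ := hconst _ h2 t
    rw [hz0, real_inner_self_eq_norm_sq, real_inner_self_eq_norm_sq] at h3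
    have h4 : ‖x₀‖ = 1 := by simpa using hx₀
    simp only [h4] at h3
    have h5 : ‖(z t).1‖ = 1 := by
      have := norm_nonneg (z t).1
      nlinarith
    simpa using h5
  have he : ∀ t, nrm (ext g) (z t).1 (z t).2 = 1 := by
    intro t
    have h2 : ∀ t, HasDerivAt (fun t => ext g (z t).1 (z t).2 (z t).2) 0 t := by
      intro t
      have hU : (z t).1 ∈ ({0}ᶜ : Set E) := sphere_subset (ha t)
      refine (hasDerivAt_q h (hzx t) (hzv t) hU).congr_deriv ?_
      unfold dq
      simp only [map_smul, smul_apply, add_apply, smul_eq_mul]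
      rw [h.symm _ hU (z t).2 (chr (ext g) (z t).1 (z t).2)]
      have := chr_energy h hU (z t).2
      linear_combination χ (z t) * this
    have h3 : ext g (z t).1 (z t).2 (z t).2 = ext g (z 0).1 (z 0).2 (z 0).2 := hconst _ h2 t
    rw [hz0] at h3
    unfold nrm at h1 ⊢
    rw [h3]; exact h1
  have hχz : ∀ t, χ (z t) = 1 := by
    intro t
    have := hχ1 (z t).1 (ha t) (z t).2 (he t).le
    simpa using this
  have hd : deriv (fun t => (z t).1) = fun t => (z t).2 := by
    funext t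
    rw [(hzx t).deriv, hχz t, one_smul]
  refine ⟨fun t => (z t).1, ⟨ha, ?_, ?_, ?_⟩, ?_, ?_⟩
  · exact contDiff_fst.comp (contDiff_of_solution hYd hz)
  · intro t
    rw [hd]
    have := hzv t
    rw [hχz t, one_smul] at this
    exact this
  · intro t
    rw [hd]; exact he t
  · simp only [hz0]
  · rw [hd]; simp only [hz0]

end Run7.h60
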