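import Pool.Agent.Run7.h60.Sphere

/-! Uniqueness of geodesics with given initial velocity. -/

set_option maxSynthPendingDepth 3

open Set MeasureTheory intervalIntegral Filter
open scoped Topology ContDiff

namespace Run7.h60

lemma ode_unique {V : Type*} [NormedAddCommGroup V] [NormedSpace ℝ V] {Y : V → V} {K : NNReal}
    (hY : LipschitzWith K Y) {z₁ z₂ : ℝ → V} (h1c : ContinuousOn z₁ (Icc 0 1))
    (h2c : ContinuousOn z₂ (Icc 0 1))
    (h1 : ∀ t ∈ Ioo (0:ℝ) 1, HasDerivAt z₁ (Y (z₁ t)) t)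
    (h2 : ∀ t ∈ Ioo (0:ℝ) 1, HasDerivAt z₂ (Y (z₂ t)) t) (h0 : z₁ 0 = z₂ 0) :
    EqOn z₁ z₂ (Icc 0 1) := by
  have key : EqOn z₁ z₂ (Ioo 0 1) := by
    intro t ht
    have hb : ∀ s ∈ Ioo 0 t, dist (z₁ t) (z₂ t) ≤ dist (z₁ s) (z₂ s) * Real.exp K := by
      intro s hs
      have hsub : Icc s t ⊆ Icc (0:ℝ) 1 := Icc_subset_Icc hs.1.le ht.2.le
      have h3 := dist_le_of_trajectories_ODE (v := fun _ => Y) (K := K) (a := s) (b := t)
        (f := z₁) (g := z₂) (δ := dist (z₁ s) (z₂ s)) (fun _ => hY) (h1c.mono hsub)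
        (fun u hu => (h1 u ⟨hs.1.trans_le hu.1, hu.2.trans ht.2⟩).hasDerivWithinAt)
        (h2c.mono hsub)
        (fun u hu => (h2 u ⟨hs.1.trans_le hu.1, hu.2.trans ht.2⟩).hasDerivWithinAt)
        le_rfl t ⟨hs.2.le, le_rfl⟩
      refine h3.trans ?_
      gcongr
      have hK : (0:ℝ) ≤ K := K.coe_nonneg
      have h4 : t - s ≤ 1 := by linarith [hs.1, ht.2]
      calc (K:ℝ) * (t - s) ≤ K * 1 := by gcongr
        _ = K := mul_one _
    have hlim : Tendsto (fun s => dist (z₁ s) (z₂ s) * Real.exp K) (𝓝[>] 0) (𝓝 0) := by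
      have c1 : ContinuousWithinAt z₁ (Icc 0 1) 0 := h1c 0 ⟨le_rfl, zero_le_one⟩
      have c2 : ContinuousWithinAt z₂ (Icc 0 1) 0 := h2c 0 ⟨le_rfl, zero_le_one⟩
      have hle : 𝓝[>] (0:ℝ) ≤ 𝓝[Icc 0 1] 0 := by
        rw [← nhdsWithin_Ioo_eq_nhdsGT (zero_lt_one (α := ℝ))]
        exact nhdsWithin_mono _ Ioo_subset_Icc_self
      have c3 := ((c1.dist c2).mono_left hle).mul_const (Real.exp K)
      simpa [h0] using c3
    have hle0 : dist (z₁ t) (z₂ t) ≤ 0 := by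
      apply ge_of_tendsto hlim
      filter_upwards [Ioo_mem_nhdsGT ht.1] with s hs
      exact hb s hs
    exact dist_le_zero.1 hle0
  exact key.of_subset_closure h1c h2c Ioo_subset_Icc_self (by rw [closure_Ioo (by norm_num)])

variable {E : Type*} [NormedAddCommGroup E] [NormedSpace ℝ E]

/-- A smooth minimising geodesic in a compact set. -/
structure SGeod (G : E → E →L[ℝ] E →L[ℝ] ℝ) (U S : Set E) (c : ℝ → E) (D : ℝ) : Prop where
  pos : 0 < D
  smooth : ContDiff ℝ ∞ c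
  mem : ∀ t ∈ Icc (0:ℝ) 1, c t ∈ S
  speed : ∀ t ∈ Icc (0:ℝ) 1, nrm G (c t) (deriv c t) = D
  geod : MGeod G U c D

lemma SGeod.ham [FiniteDimensional ℝ E] {G : E → E →L[ℝ] E →L[ℝ] ℝ} {U S : Set E}
    (h : MetricOn G U) (hSU : S ⊆ U) {c : ℝ → E} {D : ℝ} (hc : SGeod G U S c D) :
    ∀ t ∈ Ioo (0:ℝ) 1, HasDerivAt (fun t => (c t, G (c t) (deriv c t)))
      (ham G (c t, G (c t) (deriv c t))) t := by
  have hcd1 : ContDiff ℝ 1 c := hc.smooth.of_le (by simp)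
  have hcl : ∀ t, max 0 (min t 1) ∈ Icc (0:ℝ) 1 := fun t =>
    ⟨le_max_left _ _, max_le zero_le_one (min_le_right _ _)⟩
  obtain ⟨F, hF⟩ : ∃ F : ℝ → E, F = fun t => c (max 0 (min t 1)) := ⟨_, rfl⟩
  have hFc : ∀ t ∈ Icc (0:ℝ) 1, F t = c t := by
    intro t ht
    rw [hF]; simp only
    rw [min_eq_left ht.2, max_eq_right ht.1]
  have hFcont : Continuous F := by
    rw [hF]
    exact hc.smooth.continuous.comp (continuous_const.max (continuous_id.min continuous_const))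
  have hFU : ∀ t, F t ∈ U := by
    intro t; rw [hF]; exact hSU (hc.mem _ (hcl t))
  have hFd : ∀ t ∈ Ioo (0:ℝ) 1, HasDerivAt F (deriv c t) t := by
    intro t ht
    apply (((hcd1.differentiable (by norm_num)) t).hasDerivAt).congr_of_eventuallyEq
    filter_upwards [isOpen_Ioo.mem_nhds ht] with s hs
    exact hFc s ⟨hs.1.le, hs.2.le⟩
  have hmom := momentum h hc.pos hFU hFcont
    (hcd1.continuous_deriv (by norm_num)).continuousOn hFd
    (fun t ht => by rw [hFc t ⟨ht.1.le, ht.2.le⟩]; exact hc.speed t ⟨ht.1.le, ht.2.le⟩)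
    (by
      intro s t hs hst ht ℓ hℓ
      rw [hFc s ⟨hs, hst.trans ht⟩, hFc t ⟨hs.trans hst, ht⟩] at hℓ
      exact hc.geod.lower s t hs hst ht ℓ hℓ)
  intro t ht
  have ht' : t ∈ Icc (0:ℝ) 1 := ⟨ht.1.le, ht.2.le⟩
  have e1 : Run7.h60.ham G (c t, G (c t) (deriv c t))
      = (deriv c t, force G (c t) (deriv c t)) := by
    unfold Run7.h60.ham
    simp only [h.inverse_apply (hSU (hc.mem t ht'))]
  rw [e1]
  have h2 : HasDerivAt (fun t => G (c t) (deriv c t)) (force G (c t) (deriv c t)) t := by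
    have h3 := hmom t ht
    rw [hFc t ht'] at h3
    apply h3.congr_of_eventuallyEq
    filter_upwards [isOpen_Ioo.mem_nhds ht] with s hs
    rw [hFc s ⟨hs.1.le, hs.2.le⟩]
  exact (((hcd1.differentiable (by norm_num)) t).hasDerivAt).prodMk h2

/-- Cut-off of the Hamiltonian field. -/
lemma exists_cutoff_ham [FiniteDimensional ℝ E] {G : E → E →L[ℝ] E →L[ℝ] ℝ} {U S : Set E}
    (h : MetricOn G U) (hS : IsCompact S) (hSU : S ⊆ U) (R : ℝ) :
    ∃ (Y : E × (E →L[ℝ] ℝ) → E × (E →L[ℝ] ℝ)) (K : NNReal), LipschitzWith K Y ∧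
      ∀ x ∈ S, ∀ p : E →L[ℝ] ℝ, ‖p‖ ≤ R → Y (x, p) = ham G (x, p) := by
  have hprop : ProperSpace (E →L[ℝ] ℝ) := FiniteDimensional.proper ℝ _
  have hK : IsCompact (S ×ˢ Metric.closedBall (0 : E →L[ℝ] ℝ) R) :=
    hS.prod (isCompact_closedBall _ _)
  have hΩ : IsOpen (U ×ˢ (univ : Set (E →L[ℝ] ℝ))) := h.isOpen.prod isOpen_univ
  obtain ⟨χ, hχ, hχc, hχΩ, hχ1⟩ := exists_cutoff hK hΩ (Set.prod_mono hSU (subset_univ _))
  obtain ⟨Y, hY⟩ : ∃ Y : E × (E →L[ℝ] ℝ) → E × (E →L[ℝ] ℝ), Y = fun x => χ x • ham G x :=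
    ⟨_, rfl⟩
  have hYs : tsupport Y ⊆ tsupport χ := by
    rw [hY]; exact tsupport_smul_subset_left χ (ham G)
  have hYd : ContDiff ℝ ∞ Y := by
    rw [contDiff_iff_contDiffAt]
    intro x
    by_cases hx : x ∈ tsupport χ
    · rw [hY]
      exact hχ.contDiffAt.smul ((contDiffOn_ham h).contDiffAt (hΩ.mem_nhds (hχΩ hx)))
    · have h1 : Y =ᶠ[𝓝 x] fun _ => 0 := by
        have h2 : (tsupport χ)ᶜ ∈ 𝓝 x := (isClosed_tsupport χ).isOpen_compl.mem_nhds hx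
        filter_upwards [h2] with y hy
        by_contra hcon
        exact hy (hYs (subset_tsupport Y hcon))
      exact contDiffAt_const.congr_of_eventuallyEq h1
  have hYc : HasCompactSupport Y := hχc.of_isClosed_subset (isClosed_tsupport _) hYs
  obtain ⟨C, hC⟩ := ContDiff.lipschitzWith_of_hasCompactSupport hYc hYd (by simp)
  refine ⟨Y, C, hC, ?_⟩
  intro x hx p hp
  rw [hY]
  simp only
  rw [hχ1 (x, p) ⟨hx, by simpa using hp⟩, one_smul]

lemma SGeod.unique [FiniteDimensional ℝ E] {G : E → E →L[ℝ] E →L[ℝ] ℝ} {U S : Set E}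
    (h : MetricOn G U) (hS : IsCompact S) (hSU : S ⊆ U) {c₁ c₂ : ℝ → E} {D₁ D₂ : ℝ}
    (h1 : SGeod G U S c₁ D₁) (h2 : SGeod G U S c₂ D₂) (h0 : c₁ 0 = c₂ 0)
    (h0' : deriv c₁ 0 = deriv c₂ 0) : EqOn c₁ c₂ (Icc 0 1) := by
  obtain ⟨R, hR⟩ : ∃ R : ℝ, ∀ t ∈ Icc (0:ℝ) 1, ‖G (c₁ t) (deriv c₁ t)‖ ≤ R ∧
      ‖G (c₂ t) (deriv c₂ t)‖ ≤ R := by
    have hcont : ∀ {c : ℝ → E} {D : ℝ}, SGeod G U S c D →
        ContinuousOn (fun t => G (c t) (deriv c t)) (Icc 0 1) := by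
      intro c D hc
      have hcd1 : ContDiff ℝ 1 c := hc.smooth.of_le (by simp)
      exact (h.contOn.comp hc.smooth.continuous.continuousOn
        (fun t ht => hSU (hc.mem t ht))).clm_apply
        (hcd1.continuous_deriv (by norm_num)).continuousOn
    obtain ⟨R₁, hR₁⟩ := (isCompact_Icc.image_of_continuousOn (hcont h1)).isBounded.exists_norm_le
    obtain ⟨R₂, hR₂⟩ := (isCompact_Icc.image_of_continuousOn (hcont h2)).isBounded.exists_norm_le
    exact ⟨max R₁ R₂, fun t ht => ⟨(hR₁ _ ⟨t, ht, rfl⟩).trans (le_max_left _ _),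
      (hR₂ _ ⟨t, ht, rfl⟩).trans (le_max_right _ _)⟩⟩
  obtain ⟨Y, K, hY, hYe⟩ := exists_cutoff_ham h hS hSU R
  have hcont : ∀ {c : ℝ → E} {D : ℝ}, SGeod G U S c D →
      ContinuousOn (fun t => (c t, G (c t) (deriv c t))) (Icc 0 1) := by
    intro c D hc
    have hcd1 : ContDiff ℝ 1 c := hc.smooth.of_le (by simp)
    exact hc.smooth.continuous.continuousOn.prodMk ((h.contOn.comp
      hc.smooth.continuous.continuousOn (fun t ht => hSU (hc.mem t ht))).clm_apply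
      (hcd1.continuous_deriv (by norm_num)).continuousOn)
  have key := ode_unique hY (hcont h1) (hcont h2)
    (fun t ht => by
      rw [hYe _ (h1.mem t ⟨ht.1.le, ht.2.le⟩) _ (hR t ⟨ht.1.le, ht.2.le⟩).1]
      exact h1.ham h hSU t ht)
    (fun t ht => by
      rw [hYe _ (h2.mem t ⟨ht.1.le, ht.2.le⟩) _ (hR t ⟨ht.1.le, ht.2.le⟩).2]
      exact h2.ham h hSU t ht)
    (by simp only [h0, h0'])
  intro t ht
  exact congrArg Prod.fst (key ht)

end Run7.h60
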